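import Pool.Agent.P.MP_0a0487_an.SW.FrDefs
import Pool.Agent.P.MP_0a0487_an.Defs
import Pool.Agent.P.MP_0a0487_an.Manifold

/-! An Anosov diffeomorphism in charts. -/

set_option autoImplicit false
set_option linter.unusedSectionVars false

noncomputable section

namespace SW4

open Bundle
open scoped Manifold ContDiff
open Pool.Agent.P.MP_0a0487_an

section Aux

open Set Filter Topology

variable {E : Type*} [NormedAddCommGroup E] [NormedSpace ℝ E]
  {G : Type*} [NormedAddCommGroup G] [NormedSpace ℝ G]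
  {F : Type*} [NormedAddCommGroup F] [NormedSpace ℝ F]
  {M : Type*} [TopologicalSpace M] [ChartedSpace E M] (T : E ≃L[ℝ] G)

/-- The chart at `i` followed by `T`. -/
def ambM_φ (i : M) : OpenPartialHomeomorph M G := (chartAt E i).transHomeomorph T.toHomeomorph

theorem ambM_sm [IsManifold 𝓘(ℝ, E) ∞ M] (i : M) {h : M → F} {s : Set M}
    (hh : ContMDiffOn 𝓘(ℝ, E) 𝓘(ℝ, F) ∞ h s) :
    ContDiffOn ℝ ∞ (fun y => h ((ambM_φ T i).symm y))
      ((ambM_φ T i).target ∩ (ambM_φ T i).symm ⁻¹' s) := by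
  have h1 : ContMDiffOn 𝓘(ℝ, E) 𝓘(ℝ, F) ∞ (h ∘ (chartAt E i).symm)
      ((chartAt E i).target ∩ (chartAt E i).symm ⁻¹' s) :=
    hh.comp' contMDiffOn_chart_symm
  rw [contMDiffOn_iff_contDiffOn] at h1
  exact h1.comp T.symm.contDiff.contDiffOn fun y hy => hy

theorem ambM_sm' [IsManifold 𝓘(ℝ, E) ∞ M] (i j : M) {g : M → M}
    (hg : ContMDiff 𝓘(ℝ, E) 𝓘(ℝ, E) ∞ g) :
    ContDiffOn ℝ ∞ (fun y => ambM_φ T j (g ((ambM_φ T i).symm y)))
      ((ambM_φ T i).target ∩ (fun y => g ((ambM_φ T i).symm y)) ⁻¹' (ambM_φ T j).source) := by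
  have h1 : ContMDiffOn 𝓘(ℝ, E) 𝓘(ℝ, E) ∞ (chartAt E j ∘ g) (g ⁻¹' (chartAt E j).source) :=
    contMDiffOn_chart.comp hg.contMDiffOn fun y hy => hy
  exact T.contDiff.comp_contDiffOn (ambM_sm T i h1)

variable [IsManifold 𝓘(ℝ, E) 1 M]

/-- From chart coordinates to tangent vectors. -/
def ambM_σ (i x : M) : G →L[ℝ] TangentSpace 𝓘(ℝ, E) x :=
  (trivializationAt E (TangentSpace 𝓘(ℝ, E)) i).symmL ℝ x ∘L (T.symm : G →L[ℝ] E)

/-- From tangent vectors to chart coordinates. -/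
def ambM_ρ (i x : M) : TangentSpace 𝓘(ℝ, E) x →L[ℝ] G :=
  (T : E →L[ℝ] G) ∘L (trivializationAt E (TangentSpace 𝓘(ℝ, E)) i).continuousLinearMapAt ℝ x

theorem ambM_ρσ {i x : M} (hx : x ∈ (chartAt E i).source) (w : G) :
    ambM_ρ T i x (ambM_σ T i x w) = w := by
  change T ((trivializationAt E (TangentSpace 𝓘(ℝ, E)) i).continuousLinearMapAt ℝ x
    ((trivializationAt E (TangentSpace 𝓘(ℝ, E)) i).symmL ℝ x (T.symm w))) = w
  rw [Trivialization.continuousLinearMapAt_symmL _ (by simpa using hx), T.apply_symm_apply]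

theorem ambM_σρ {i x : M} (hx : x ∈ (chartAt E i).source) (v : TangentSpace 𝓘(ℝ, E) x) :
    ambM_σ T i x (ambM_ρ T i x v) = v := by
  change (trivializationAt E (TangentSpace 𝓘(ℝ, E)) i).symmL ℝ x (T.symm (T
    ((trivializationAt E (TangentSpace 𝓘(ℝ, E)) i).continuousLinearMapAt ℝ x v))) = v
  rw [T.symm_apply_apply, Trivialization.symmL_continuousLinearMapAt _ (by simpa using hx)]

theorem ambM_fd {h : M → F} {i x : M} (hx : x ∈ (chartAt E i).source)
    (hh : MDifferentiableAt 𝓘(ℝ, E) 𝓘(ℝ, F) h x) (w : G) :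
    fderiv ℝ (fun y => h ((ambM_φ T i).symm y)) (ambM_φ T i x) w = dv E h x (ambM_σ T i x w) := by
  have hx' : x ∈ (extChartAt 𝓘(ℝ, E) i).source := by simpa using hx
  have e1 : h =ᶠ[𝓝 x] (h ∘ (extChartAt 𝓘(ℝ, E) i).symm) ∘ extChartAt 𝓘(ℝ, E) i := by
    filter_upwards [extChartAt_source_mem_nhds' hx'] with z hz
    simp only [Function.comp, (extChartAt 𝓘(ℝ, E) i).left_inv hz]
  have d1 := mdifferentiableWithinAt_extChartAt_symm ((extChartAt 𝓘(ℝ, E) i).map_source hx')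
  rw [ModelWithCorners.range_eq_univ, mdifferentiableWithinAt_univ] at d1
  have d2 : MDifferentiableAt 𝓘(ℝ, E) 𝓘(ℝ, F) (h ∘ (extChartAt 𝓘(ℝ, E) i).symm)
      (extChartAt 𝓘(ℝ, E) i x) :=
    MDifferentiableAt.comp _ (by rw [(extChartAt 𝓘(ℝ, E) i).left_inv hx']; exact hh) d1
  have e2 := mfderiv_comp_apply x d2 (mdifferentiableAt_extChartAt hx) (ambM_σ T i x w)
  rw [← e1.mfderiv_eq, mfderiv_eq_fderiv,
    ← TangentBundle.continuousLinearMapAt_trivializationAt hx] at e2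
  have e3 : (trivializationAt E (TangentSpace 𝓘(ℝ, E)) i).continuousLinearMapAt ℝ x
      (ambM_σ T i x w) = T.symm w :=
    Trivialization.continuousLinearMapAt_symmL _ (by simpa using hx) _
  have e4 := T.symm.comp_right_fderiv (f := h ∘ (extChartAt 𝓘(ℝ, E) i).symm)
    (x := ambM_φ T i x)
  have e5 : T.symm (ambM_φ T i x) = extChartAt 𝓘(ℝ, E) i x := T.symm_apply_apply _
  rw [e5] at e4
  have e6 : fderiv ℝ (fun y => h ((ambM_φ T i).symm y)) (ambM_φ T i x) w =
      fderiv ℝ (h ∘ (extChartAt 𝓘(ℝ, E) i).symm) (extChartAt 𝓘(ℝ, E) i x) (T.symm w) :=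
    DFunLike.congr_fun e4 w
  rw [e6, ← e3]
  exact e2.symm

theorem ambM_fd' {g : M → M} {i j x : M} (hx : x ∈ (chartAt E i).source)
    (hy : g x ∈ (chartAt E j).source) (hg : MDifferentiableAt 𝓘(ℝ, E) 𝓘(ℝ, E) g x) (w : G) :
    fderiv ℝ (fun y => ambM_φ T j (g ((ambM_φ T i).symm y))) (ambM_φ T i x) w =
      ambM_ρ T j (g x) (Df g (ambM_σ T i x w)) := by
  have d1 := mdifferentiableAt_extChartAt (I := 𝓘(ℝ, E)) hy
  have e1 := ambM_fd T hx (d1.comp x hg) w
  have e2 := mfderiv_comp_apply x d1 hg (ambM_σ T i x w)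
  rw [← TangentBundle.continuousLinearMapAt_trivializationAt hy] at e2
  have e3 := T.comp_fderiv (f := fun y => (extChartAt 𝓘(ℝ, E) j ∘ g) ((ambM_φ T i).symm y))
    (x := ambM_φ T i x)
  exact (DFunLike.congr_fun e3 w).trans (congrArg T (e1.trans e2))

theorem ambM_cont {P : ∀ x : M, TangentSpace 𝓘(ℝ, E) x → TangentSpace 𝓘(ℝ, E) x}
    (hP : Continuous fun p : TangentBundle 𝓘(ℝ, E) M =>
      (⟨p.proj, P p.proj p.2⟩ : TangentBundle 𝓘(ℝ, E) M)) (i : M) (w : G) :
    ContinuousOn (fun x => ambM_ρ T i x (P x (ambM_σ T i x w))) (chartAt E i).source := by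
  set τ := trivializationAt E (TangentSpace 𝓘(ℝ, E) : M → Type _) i with hτ
  have hb : ∀ x ∈ (chartAt E i).source, x ∈ τ.baseSet := fun x hx => by simpa [hτ] using hx
  have t1 : ContinuousOn (fun x : M => (TotalSpace.mk' E x (τ.symm x (T.symm w)) :
      TangentBundle 𝓘(ℝ, E) M)) (chartAt E i).source :=
    τ.continuousOn_symm.comp (f := fun x : M => (x, T.symm w)) (by fun_prop)
      fun x hx => ⟨hb x hx, mem_univ _⟩
  have t2 := τ.continuousOn.comp (hP.comp_continuousOn t1)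
    fun x hx => τ.mem_source.2 (hb x hx)
  refine (T.continuous.comp_continuousOn t2.snd).congr fun x hx => ?_
  change T (τ.continuousLinearMapAt ℝ x (P x (τ.symmL ℝ x (T.symm w)))) = _
  rw [Trivialization.continuousLinearMapAt_apply_of_mem _ _ (hb x hx), τ.symmL_apply (hb x hx)]
  rfl

omit [IsManifold 𝓘(ℝ, E) 1 M] [ChartedSpace E M] in
theorem ambM_compact [CompactSpace M] {p : ℝ → M → Prop}
    (hm : ∀ K K' x, K ≤ K' → p K x → p K' x) (h : ∀ x0, ∃ K, ∀ᶠ x in 𝓝 x0, p K x) :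
    ∃ K, 1 ≤ K ∧ ∀ x, p K x := by
  have := isCompact_univ.induction_on (p := fun s : Set M => ∃ K, 1 ≤ K ∧ ∀ x ∈ s, p K x)
    ⟨1, le_rfl, fun x hx => hx.elim⟩ (fun s t hst ⟨K, h1, hK⟩ => ⟨K, h1, fun x hx => hK x (hst hx)⟩)
    (fun s t ⟨K, h1, hK⟩ ⟨K', _, hK'⟩ => ⟨max K K', le_max_of_le_left h1, fun x hx =>
      hx.elim (fun hx => hm _ _ _ (le_max_left _ _) (hK x hx))
        fun hx => hm _ _ _ (le_max_right _ _) (hK' x hx)⟩)
    fun x0 _ => by
      obtain ⟨K, hK⟩ := h x0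
      exact ⟨_, mem_nhdsWithin_of_mem_nhds hK, max 1 K, le_max_left _ _,
        fun x hx => hm _ _ _ (le_max_right _ _) hx⟩
  obtain ⟨K, h1, hK⟩ := this
  exact ⟨K, h1, fun x => hK x (mem_univ x)⟩

variable [RiemannianBundle (fun x : M => TangentSpace 𝓘(ℝ, E) x)]

variable [FiniteDimensional ℝ E]
  [IsContinuousRiemannianBundle E (fun x : M => TangentSpace 𝓘(ℝ, E) x)]

theorem ambM_K [CompactSpace M] {e : M → F} (he : ContMDiff 𝓘(ℝ, E) 𝓘(ℝ, F) 1 e)
    (hi : ∀ x, Function.Injective (dv E e x)) :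
    ∃ K, 1 ≤ K ∧ ∀ x (v : TangentSpace 𝓘(ℝ, E) x),
      ‖dv E e x v‖ ≤ K * len v ∧ len v ≤ K * ‖dv E e x v‖ := by
  refine ambM_compact (p := fun K x => ∀ v : TangentSpace 𝓘(ℝ, E) x,
    ‖dv E e x v‖ ≤ K * len v ∧ len v ≤ K * ‖dv E e x v‖) (fun K K' x hK h v => ⟨(h v).1.trans
      (mul_le_mul_of_nonneg_right hK (norm_nonneg _)), (h v).2.trans
      (mul_le_mul_of_nonneg_right hK (norm_nonneg _))⟩) fun x0 => ?_
  set τ := trivializationAt E (TangentSpace 𝓘(ℝ, E) : M → Type _) x0 with hτ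
  have h0 : x0 ∈ τ.baseSet := FiberBundle.mem_baseSet_trivializationAt' x0
  have hb : τ.baseSet ∈ 𝓝 x0 := τ.open_baseSet.mem_nhds h0
  obtain ⟨k, k0, hk⟩ := (dv E e x0).exists_antilipschitzWith (LinearMap.ker_eq_bot.2 (hi x0))
  obtain ⟨b, b0, hb'⟩ := (LinearMap.toContinuousLinearMap (dv E e x0)).bound
  have k0' : (0 : ℝ) < k := k0
  refine ⟨max (2 * (b + 1 / (2 * k))) (4 * k), ?_⟩
  filter_upwards [hb, eventually_norm_symmL_trivializationAt_comp_self_lt E
      (fun x : M => TangentSpace 𝓘(ℝ, E) x) x0 (r := 2) one_lt_two,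
      eventually_norm_symmL_trivializationAt_self_comp_lt E
      (fun x : M => TangentSpace 𝓘(ℝ, E) x) x0 (r := 2) one_lt_two,
      dv_near he x0 (η := 1 / (2 * k)) (by positivity)] with x hx h1 h2 h3 v
  set w : TangentSpace 𝓘(ℝ, E) x0 := τ.symmL ℝ x0 (τ.continuousLinearMapAt ℝ x v) with hw
  have e1 : τ.symmL ℝ x (τ.continuousLinearMapAt ℝ x0 w) = v := by
    rw [hw, τ.continuousLinearMapAt_symmL h0, τ.symmL_continuousLinearMapAt hx]
  have a1 : ‖w‖ ≤ 2 * ‖v‖ := ContinuousLinearMap.le_of_opNorm_le _ h2.le v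
  have a2 : ‖v‖ ≤ 2 * ‖w‖ := by
    have := ContinuousLinearMap.le_of_opNorm_le _ h1.le w
    rw [ContinuousLinearMap.comp_apply, e1] at this
    exact this
  have a3 := h3 w
  rw [e1] at a3
  have a4 : ‖dv E e x0 w‖ ≤ b * ‖w‖ := hb' w
  have a5 : ‖w‖ ≤ k * ‖dv E e x0 w‖ := ZeroHomClass.bound_of_antilipschitz _ hk w
  have a6 := norm_sub_norm_le (dv E e x v) (dv E e x0 w)
  have a7 := norm_sub_norm_le (dv E e x0 w) (dv E e x v)
  rw [norm_sub_rev] at a7
  constructor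
  · refine le_trans ?_ (mul_le_mul_of_nonneg_right (le_max_left _ _) (norm_nonneg v))
    calc ‖dv E e x v‖ ≤ (b + 1 / (2 * k)) * ‖w‖ := by linarith
      _ ≤ (b + 1 / (2 * k)) * (2 * ‖v‖) := by gcongr
      _ = 2 * (b + 1 / (2 * k)) * ‖v‖ := by ring
  · refine le_trans ?_ (mul_le_mul_of_nonneg_right (le_max_right _ _) (norm_nonneg _))
    have a8 : ‖dv E e x0 w‖ ≤ ‖dv E e x v‖ + 1 / (2 * k) * ‖w‖ := by linarith
    have a9 : (k : ℝ) * (‖dv E e x v‖ + 1 / (2 * k) * ‖w‖) = k * ‖dv E e x v‖ + ‖w‖ / 2 := by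
      field_simp
    have a10 := mul_le_mul_of_nonneg_left a8 k0'.le
    change ‖v‖ ≤ _
    linarith

omit [FiniteDimensional ℝ E] in
theorem ambM_iter {f : M → M} (hf : ContMDiff 𝓘(ℝ, E) 𝓘(ℝ, E) 1 f) {A : SubField E M}
    (h : Invariant f A) (m : ℕ) : ∀ x, ∀ v ∈ A x, Df f^[m] v ∈ A (f^[m] x) := by
  induction m with
  | zero =>
    intro x v hv
    have : Df (id : M → M) v = v := by rw [Df, mfderiv_id]; rfl
    exact this.symm ▸ hv
  | succ m ih =>
    intro x v hv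
    have h1 : Df f v ∈ A (f x) := by
      have : Df f v ∈ (A (f x) : Set (TangentSpace 𝓘(ℝ, E) (f x))) := h x ▸ mem_image_of_mem _ hv
      exact this
    have h2 : Df (f^[m] ∘ f) v = Df f^[m] (Df f v) :=
      mfderiv_comp_apply x ((hf.iterate m).mdifferentiableAt one_ne_zero)
        (hf.mdifferentiableAt one_ne_zero) v
    have h3 := ih (f x) _ h1
    rw [← h2] at h3
    exact h3

omit [FiniteDimensional ℝ E] in
theorem ambM_rate {f : M → M} {A : SubField E M} {C l : ℝ} (l0 : 0 < l)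
    (c : ∀ m : ℕ, 1 ≤ m → ∀ x, ∀ v ∈ A x, len (Df f^[m] v) ≤ C * l ^ m * len v) (m : ℕ) (x : M)
    (v : TangentSpace 𝓘(ℝ, E) x) (hv : v ∈ A x) :
    len (Df f^[m] v) ≤ max C 1 * l ^ m * len v := by
  have h0 : 0 ≤ len v := norm_nonneg v
  rcases Nat.eq_zero_or_pos m with rfl | hm
  · have : Df (id : M → M) v = v := by rw [Df, mfderiv_id]; rfl
    have e : len (Df f^[0] v) = len v := congrArg len this
    rw [e, pow_zero, mul_one]
    exact le_mul_of_one_le_left h0 (le_max_right _ _)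
  · refine (c m hm x v hv).trans ?_
    gcongr
    exact le_max_left _ _

omit [FiniteDimensional ℝ E] in
theorem ambM_proj {f : M → M} {A B : SubField E M} (h : ∀ x, IsCompl (A x) (B x))
    (hA : Invariant f A) (hB : Invariant f B) {x : M} (v : TangentSpace 𝓘(ℝ, E) x) :
    Df f ((B x).projection (A x) (h x).symm v) =
      (B (f x)).projection (A (f x)) (h (f x)).symm (Df f v) := by
  have m : ∀ {D : SubField E M}, Invariant f D → ∀ u ∈ D x, Df f u ∈ D (f x) := fun hD u hu => by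
    have : Df f u ∈ (_ : Set (TangentSpace 𝓘(ℝ, E) (f x))) := hD x ▸ mem_image_of_mem _ hu
    exact this
  have e : Df f v = Df f ((B x).projection (A x) (h x).symm v) +
      Df f ((A x).projection (B x) (h x) v) := by
    rw [Df, Df, Df, ← map_add, Submodule.projection_add_projection_eq_self]
  rw [e, map_add, Submodule.projection_apply_of_mem_left _ (m hB _ (Submodule.projection_apply_mem _ _)),
    Submodule.projection_apply_of_mem_right _ (m hA _ (Submodule.projection_apply_mem _ _)),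
    add_zero]

/-- The projection onto `B` along `A` in the chart `i`. -/
def ambM_Q {A B : SubField E M} (h : ∀ x, IsCompl (A x) (B x)) [FiniteDimensional ℝ G] (i x : M) :
    G →L[ℝ] G :=
  LinearMap.toContinuousLinearMap ((ambM_ρ T i x).toLinearMap ∘ₗ
    (B x).projection (A x) (h x).symm ∘ₗ (ambM_σ T i x).toLinearMap)

theorem ambM_Q_apply {A B : SubField E M} (h : ∀ x, IsCompl (A x) (B x)) [FiniteDimensional ℝ G]
    (i x : M) (w : G) :
    ambM_Q T h i x w = ambM_ρ T i x ((B x).projection (A x) (h x).symm (ambM_σ T i x w)) := rfl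

theorem ambM_Q_rank {A B : SubField E M} (h : ∀ x, IsCompl (A x) (B x)) [FiniteDimensional ℝ G]
    {i x : M} (hx : x ∈ (chartAt E i).source) :
    Module.finrank ℝ (LinearMap.range (ambM_Q T h i x : G →ₗ[ℝ] G)) = Module.finrank ℝ (B x) := by
  have e : LinearMap.range (ambM_Q T h i x : G →ₗ[ℝ] G)
      = (B x).map (ambM_ρ T i x).toLinearMap := by
    ext w
    constructor
    · rintro ⟨u, rfl⟩
      exact ⟨_, Submodule.projection_apply_mem (h x).symm _, rfl⟩
    · rintro ⟨v, hv, rfl⟩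
      refine ⟨ambM_ρ T i x v, ?_⟩
      change ambM_Q T h i x _ = ambM_ρ T i x v
      rw [ambM_Q_apply, ambM_σρ T hx, Submodule.projection_apply_of_mem_left _ hv]
  rw [e]
  exact ((B x).equivMapOfInjective (ambM_ρ T i x).toLinearMap
    (Function.LeftInverse.injective (ambM_σρ T hx))).finrank_eq.symm

theorem ambM_hyp {e : M → F} {K c : ℝ} (K1 : 1 ≤ K)
    (c0 : 0 ≤ c) (hK : ∀ x (v : TangentSpace 𝓘(ℝ, E) x),
      ‖dv E e x v‖ ≤ K * len v ∧ len v ≤ K * ‖dv E e x v‖) {x y : M}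
    {v : TangentSpace 𝓘(ℝ, E) x} {w : TangentSpace 𝓘(ℝ, E) y} (h : len v ≤ c * len w) :
    ‖dv E e x v‖ ≤ K ^ 2 * c * ‖dv E e y w‖ :=
  calc ‖dv E e x v‖ ≤ K * len v := (hK x v).1
    _ ≤ K * (c * (K * ‖dv E e y w‖)) := by
      have := h.trans (mul_le_mul_of_nonneg_left (hK y w).2 c0)
      gcongr
    _ = _ := by ring

end Aux

theorem exists_CA (M : Type) [TopologicalSpace M] [T2Space M] [CompactSpace M]
    [ChartedSpace (EuclideanSpace ℝ (Fin 4)) M] [IsManifold 𝓘(ℝ, EuclideanSpace ℝ (Fin 4)) ∞ M]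
    [RiemannianBundle (fun x : M => TangentSpace 𝓘(ℝ, EuclideanSpace ℝ (Fin 4)) x)]
    [IsContinuousRiemannianBundle (EuclideanSpace ℝ (Fin 4))
      (fun x : M => TangentSpace 𝓘(ℝ, EuclideanSpace ℝ (Fin 4)) x)]
    (f : M ≃ₘ^∞⟮𝓘(ℝ, EuclideanSpace ℝ (Fin 4)), 𝓘(ℝ, EuclideanSpace ℝ (Fin 4))⟯ M)
    (Es Eu : SubField (EuclideanSpace ℝ (Fin 4)) M) (hsplit : IsSplitting Es Eu)
    (hs : Invariant f Es) (hu : Invariant f Eu) (dim : ∀ x, Module.finrank ℝ (Es x) = 2)
    (C l : ℝ) (hC : 0 < C) (l0 : 0 < l) (l1 : l < 1)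
    (cs : ∀ m : ℕ, 1 ≤ m → ∀ x, ∀ v ∈ Es x, len (Df f^[m] v) ≤ C * l ^ m * len v)
    (cu : ∀ m : ℕ, 1 ≤ m → ∀ x, ∀ v ∈ Eu x, len (Df f.symm^[m] v) ≤ C * l ^ m * len v) :
    ∃ c : CA M, c.f = f.toHomeomorph := by
  obtain ⟨N, e, he, hemb, hinj⟩ := exists_embedding_euclidean_of_compact
    (I := 𝓘(ℝ, EuclideanSpace ℝ (Fin 4))) (M := M)
  obtain ⟨h, hP⟩ := hsplit
  let T : EuclideanSpace ℝ (Fin 4) ≃L[ℝ] E4 := EuclideanSpace.equiv (Fin 4) ℝ
  have he1 := he.of_le (m := 1) (by simp)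
  have hf1 := f.contMDiff.of_le (m := 1) (by simp)
  have hg1 := f.symm.contMDiff.of_le (m := 1) (by simp)
  have hi : ∀ x, Function.Injective (dv (EuclideanSpace ℝ (Fin 4)) e x) := hinj
  obtain ⟨K, K1, hK⟩ := ambM_K he1 hi
  have c0 : ∀ m : ℕ, 0 ≤ max C 1 * l ^ m := fun m => by positivity
  refine ⟨{
    ι := M
    φ := ambM_φ T
    cover := fun x => ⟨x, mem_chart_source _ x⟩
    N := N
    e := e
    e_inj := hemb.injective
    e_sm := fun i => (ambM_sm T i (s := Set.univ) he.contMDiffOn).mono fun y hy => ⟨hy, trivial⟩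
    imm := fun i y hy => ?_
    f := f.toHomeomorph
    sm := fun g hg i j => ?_
    Q := ambM_Q T h
    Q_cont := fun i => continuousOn_clm_apply.2 fun w => ?_
    Q_idem := fun i x hx w => ?_
    Q_rank := fun i x hx => ?_
    Q_inv := fun g hg i j x hx hy w => ?_
    ε := fun m => K ^ 2 * (max C 1 * l ^ m)
    lim := ?_
    hyp := fun m i x hx w => ?_ }, rfl⟩
  · have hx := (ambM_φ T i).map_target hy
    intro w w' hw
    rw [← (ambM_φ T i).right_inv hy, ambM_fd T hx (he1.mdifferentiableAt one_ne_zero),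
      ambM_fd T hx (he1.mdifferentiableAt one_ne_zero)] at hw
    exact Function.LeftInverse.injective (ambM_ρσ T hx) (hi _ hw)
  · rcases hg with rfl | rfl | rfl
    exacts [ambM_sm' T i j contMDiff_id, ambM_sm' T i j f.contMDiff,
      ambM_sm' T i j f.symm.contMDiff]
  · refine (continuousOn_const.sub (ambM_cont T (P := fun x v => alongProj h v) hP i w)
      (f := fun _ => w)).congr fun x hx => ?_
    rw [ambM_Q_apply, Submodule.projection_eq_self_sub_projection (h x), map_sub, ambM_ρσ T hx]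
    rfl
  · rw [ambM_Q_apply, ambM_Q_apply, ambM_σρ T hx,
      Submodule.projection_apply_of_mem_left _ (Submodule.projection_apply_mem _ _)]
  · rw [ambM_Q_rank T h hx]
    have h1 := Submodule.finrank_add_eq_of_isCompl (h x)
    have h2 : Module.finrank ℝ (TangentSpace 𝓘(ℝ, EuclideanSpace ℝ (Fin 4)) x) = 4 :=
      finrank_euclideanSpace_fin
    rw [dim, h2] at h1
    omega
  · have key : MDifferentiableAt 𝓘(ℝ, EuclideanSpace ℝ (Fin 4)) 𝓘(ℝ, EuclideanSpace ℝ (Fin 4)) g x ∧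
        Invariant g Es ∧ Invariant g Eu := by
      have hid : ∀ A : SubField (EuclideanSpace ℝ (Fin 4)) M, Invariant id A := fun A z => by
        have : ∀ v : TangentSpace 𝓘(ℝ, EuclideanSpace ℝ (Fin 4)) z, Df (id : M → M) v = v :=
          fun v => by rw [Df, mfderiv_id]; rfl
        exact (Set.image_congr fun v _ => this v).trans (Set.image_id' _)
      rcases hg with rfl | rfl
      exacts [⟨mdifferentiableAt_id, hid _, hid _⟩,
        ⟨hf1.mdifferentiableAt one_ne_zero, hs, hu⟩]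
    rw [ambM_fd' T hx hy key.1, ambM_fd' T hx hy key.1, ambM_Q_apply, ambM_Q_apply, ambM_σρ T hx,
      ambM_σρ T hy, ambM_proj h key.2.1 key.2.2]
  · have := ((tendsto_pow_atTop_nhds_zero_of_lt_one l0.le l1).const_mul (max C 1)).const_mul (K ^ 2)
    rwa [mul_zero, mul_zero] at this
  · have e1 := ambM_fd T hx (he1.mdifferentiableAt one_ne_zero) w
    have e2 : fderiv ℝ (fun y => e (f.toHomeomorph^[m] ((ambM_φ T i).symm y))) (ambM_φ T i x) w =
        dv (EuclideanSpace ℝ (Fin 4)) e (f^[m] x) (Df f^[m] (ambM_σ T i x w)) :=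
      (ambM_fd T hx ((he1.comp (hf1.iterate m)).mdifferentiableAt one_ne_zero) w).trans
        (dv_comp he1 (hf1.iterate m) x _).symm
    rw [e1, e2]
    constructor
    · intro hw
      have hv : ambM_σ T i x w ∈ Eu x := by
        rw [← hw, ambM_Q_apply, ambM_σρ T hx]
        exact Submodule.projection_apply_mem _ _
      refine ambM_hyp K1 (c0 m) hK ?_
      have hl : (f.symm^[m] ∘ f^[m] : M → M) = id :=
        funext (Function.LeftInverse.iterate f.symm_apply_apply m)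
      have h1 := ambM_rate l0 cu m _ _ (ambM_iter hf1 hu m x _ hv)
      have h2 : Df (f.symm^[m] ∘ f^[m]) (ambM_σ T i x w) =
          Df f.symm^[m] (Df f^[m] (ambM_σ T i x w)) :=
        mfderiv_comp_apply x ((hg1.iterate m).mdifferentiableAt one_ne_zero)
          ((hf1.iterate m).mdifferentiableAt one_ne_zero) _
      have h3 : ∀ g : M → M, g = id → len (Df g (ambM_σ T i x w)) = len (ambM_σ T i x w) := by
        rintro g rfl
        refine congrArg len ?_
        rw [Df, mfderiv_id]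
        rfl
      exact ((h3 _ hl).symm.trans (congrArg len h2)).trans_le h1
    · intro hw
      have hv : ambM_σ T i x w ∈ Es x := by
        have := congrArg (ambM_σ T i x) hw
        rw [ambM_Q_apply, ambM_σρ T hx, map_zero] at this
        exact (Submodule.projection_apply_eq_zero_iff _).1 this
      exact ambM_hyp K1 (c0 m) hK (ambM_rate l0 cs m x _ hv)

end SW4
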