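import Pool.Agent.P.MP_0a0487_an.SW.Integ

/-! Moser iteration. -/

set_option autoImplicit false
set_option linter.unusedSectionVars false

noncomputable section

namespace SW4

open scoped ComplexOrder ContDiff
open Filter Topology

variable {P A : Type} [TopologicalSpace P] [CompactSpace P] [CommRing A] [StarRing A] [Algebra ℂ A]
  [StarModule ℂ A] {B : Base P A}

theorem mos_ev {u : A} (hu : B.Re0 u) (p : P) : B.ev u p = ((B.ev u p).re : ℂ) :=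
  Complex.ext rfl (by simpa using (B.re0_iff.1 hu).2 p)

theorem mos_ev_pow {u : A} (hu : B.Re0 u) (n : ℕ) (p : P) :
    B.ev (u ^ n) p = (((B.ev u p).re ^ n : ℝ) : ℂ) := by
  rw [map_pow, ContinuousMap.pow_apply, Complex.ofReal_pow, ← mos_ev hu]

theorem mos_nrm_pow (G : Pre B) {u : A} (hu : B.Re0 u) (n : ℕ) :
    G.nrm (u ^ n) ^ 2 = (G.I (u ^ (2 * n))).re := by
  rw [G.nrm_sq, star_pow, hu.2, ← pow_add, two_mul]

theorem mos_re_smul (G : Pre B) (c : ℝ) (s : A) :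
    c * (G.I s).re = (G.I ((c : ℂ) • s)).re := by
  rw [map_smul, smul_eq_mul, Complex.re_ofReal_mul]

theorem mos_energy (G : Pre B) {C : ℝ} {u : A} (hu : B.Re0 u)
    (h0 : ∀ p, 0 ≤ (B.ev u p).re) (hL : ∀ p, (B.ev (G.Lap u) p).re ≤ C * (B.ev u p).re) (n : ℕ) :
    ∑ α, G.nrm (G.D α (u ^ (n + 1))) ^ 2 ≤ (n + 1) * C * G.nrm (u ^ (n + 1)) ^ 2 := by
  set E : ℝ := ∑ α, (G.I (u ^ (2 * n) * (G.D (bar α) u * G.D α u))).re with hE
  have h1 : ∑ α, G.nrm (G.D α (u ^ (n + 1))) ^ 2 = ((n : ℝ) + 1) ^ 2 * E := by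
    rw [hE, Finset.mul_sum]
    refine Finset.sum_congr rfl (fun α _ => ?_)
    rw [G.nrm_sq, G.D_star, star_pow, hu.2, G.D_pow, G.D_pow, smul_mul_smul_comm, map_smul]
    have e1 : u ^ n * G.D (bar α) u * (u ^ n * G.D α u) =
        u ^ (2 * n) * (G.D (bar α) u * G.D α u) := by ring
    have e2 : ((n : ℂ) + 1) * ((n : ℂ) + 1) = ((((n : ℝ) + 1) ^ 2 : ℝ) : ℂ) := by
      push_cast; ring
    rw [e1, e2, smul_eq_mul, Complex.re_ofReal_mul]
  have h2 : (G.I (u ^ (2 * n + 1) * G.Lap u)).re = (2 * (n : ℝ) + 1) * E := by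
    rw [G.I_mul_Lap hu.1 (B.pow_mem hu.1 _), Complex.re_sum, hE, Finset.mul_sum]
    refine Finset.sum_congr rfl (fun α _ => ?_)
    have e2 : (((2 * n : ℕ) : ℂ) + 1) = ((2 * (n : ℝ) + 1 : ℝ) : ℂ) := by
      push_cast; ring
    rw [G.D_pow, smul_mul_assoc, map_smul, e2, smul_eq_mul, Complex.re_ofReal_mul, mul_assoc]
  have h3 : (G.I (u ^ (2 * n + 1) * G.Lap u)).re ≤ C * G.nrm (u ^ (n + 1)) ^ 2 := by
    rw [mos_nrm_pow G hu, mos_re_smul]
    refine G.I_re_mono (fun p => ?_)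
    rw [map_mul, map_smul, ContinuousMap.mul_apply, ContinuousMap.smul_apply, mos_ev_pow hu,
      mos_ev_pow hu, smul_eq_mul, Complex.re_ofReal_mul, Complex.re_ofReal_mul, Complex.ofReal_re]
    have e : C * (B.ev u p).re ^ (2 * (n + 1)) =
        (B.ev u p).re ^ (2 * n + 1) * (C * (B.ev u p).re) := by ring
    rw [e]
    exact mul_le_mul_of_nonneg_left (hL p) (pow_nonneg (h0 p) _)
  have hn : (0 : ℝ) ≤ n := Nat.cast_nonneg n
  have hE0 : 0 ≤ E := by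
    have h4 : 0 ≤ ((n : ℝ) + 1) ^ 2 * E := by
      rw [← h1]; exact Finset.sum_nonneg (fun α _ => sq_nonneg _)
    exact nonneg_of_mul_nonneg_right h4 (by positivity)
  rw [h1]
  rw [h2] at h3
  have h5 : ((n : ℝ) + 1) * E ≤ C * G.nrm (u ^ (n + 1)) ^ 2 := by nlinarith
  calc ((n : ℝ) + 1) ^ 2 * E = ((n : ℝ) + 1) * (((n : ℝ) + 1) * E) := by ring
    _ ≤ ((n : ℝ) + 1) * (C * G.nrm (u ^ (n + 1)) ^ 2) := by gcongr
    _ = _ := by ring

theorem mos_step (G : Geo B) {C : ℝ} (hC : 0 ≤ C) : ∃ L : ℝ, 1 ≤ L ∧ ∀ u, B.Re0 u →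
    (∀ p, 0 ≤ (B.ev u p).re) → (∀ p, (B.ev (G.Lap u) p).re ≤ C * (B.ev u p).re) →
    ∀ q : ℕ, 0 < q → G.nrm (u ^ (2 * q)) ≤ L * q * G.nrm (u ^ q) ^ 2 := by
  obtain ⟨S, hS⟩ := G.sob
  refine ⟨1 + |S| * (5 * (1 + C)), le_add_of_nonneg_right (by positivity), ?_⟩
  intro u hu h0 hL q hq
  obtain ⟨n, rfl⟩ : ∃ n, q = n + 1 := ⟨q - 1, by omega⟩
  have h1 := hS (u ^ (n + 1)) (B.pow_mem hu.1 _)
  have h2 := mos_energy G.toPre hu h0 hL n
  rw [← pow_add, ← two_mul] at h1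
  have h3 : G.nn 1 (u ^ (n + 1)) ^ 2 ≤
      5 * (G.nrm (u ^ (n + 1)) ^ 2 + ∑ α, G.nrm (G.D α (u ^ (n + 1))) ^ 2) := by
    simp only [Pre.nn, Fin.sum_univ_four]
    generalize G.nrm (u ^ (n + 1)) = a
    generalize G.nrm (G.D 0 (u ^ (n + 1))) = b
    generalize G.nrm (G.D 1 (u ^ (n + 1))) = c
    generalize G.nrm (G.D 2 (u ^ (n + 1))) = d
    generalize G.nrm (G.D 3 (u ^ (n + 1))) = e
    nlinarith [sq_nonneg (a - b), sq_nonneg (a - c), sq_nonneg (a - d), sq_nonneg (a - e),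
      sq_nonneg (b - c), sq_nonneg (b - d), sq_nonneg (b - e), sq_nonneg (c - d),
      sq_nonneg (c - e), sq_nonneg (d - e)]
  have hn : (0 : ℝ) ≤ n := Nat.cast_nonneg n
  set N := G.nrm (u ^ (n + 1)) ^ 2 with hN
  have hN0 : 0 ≤ N := sq_nonneg _
  have h4 : G.nn 1 (u ^ (n + 1)) ^ 2 ≤ 5 * (1 + C) * ((n + 1) * N) := by
    have : 0 ≤ n * N := mul_nonneg hn hN0
    nlinarith
  push_cast
  calc G.nrm (u ^ (2 * (n + 1))) ≤ S * G.nn 1 (u ^ (n + 1)) ^ 2 := h1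
    _ ≤ |S| * G.nn 1 (u ^ (n + 1)) ^ 2 := by gcongr; exact le_abs_self S
    _ ≤ |S| * (5 * (1 + C) * ((n + 1) * N)) := by gcongr
    _ ≤ (1 + |S| * (5 * (1 + C))) * (n + 1) * N := by
      have : 0 ≤ ((n : ℝ) + 1) * N := by positivity
      nlinarith

theorem mos_iter (G : Pre B) {L : ℝ} (hL : 1 ≤ L) {u : A}
    (h : ∀ q : ℕ, 0 < q → G.nrm (u ^ (2 * q)) ≤ L * q * G.nrm (u ^ q) ^ 2) (k : ℕ) :
    G.nrm (u ^ (2 ^ k)) ≤ (2 * L * G.nrm u) ^ (2 ^ k) := by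
  have h1 : ∀ k : ℕ, L * 2 ^ (k + 1) * G.nrm (u ^ (2 ^ k)) ≤ (2 * L * G.nrm u) ^ (2 ^ k) := by
    intro k
    induction k with
    | zero => simp [mul_comm]
    | succ k ih =>
      have h2 := h (2 ^ k) (by positivity)
      rw [← pow_succ'] at h2
      push_cast at h2
      have h3 := G.nrm_nonneg (u ^ (2 ^ k))
      calc L * 2 ^ (k + 1 + 1) * G.nrm (u ^ (2 ^ (k + 1)))
          ≤ L * 2 ^ (k + 1 + 1) * (L * 2 ^ k * G.nrm (u ^ (2 ^ k)) ^ 2) := by gcongr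
        _ = (L * 2 ^ (k + 1) * G.nrm (u ^ (2 ^ k))) ^ 2 := by ring
        _ ≤ ((2 * L * G.nrm u) ^ (2 ^ k)) ^ 2 := by gcongr
        _ = _ := by rw [← pow_mul, ← pow_succ]
  refine le_trans (le_mul_of_one_le_left (G.nrm_nonneg _) ?_) (h1 k)
  exact one_le_mul_of_one_le_of_one_le hL (one_le_pow₀ one_le_two)

theorem mos_sup (G : Pre B) {u : A} (hu : B.Re0 u) (h0 : ∀ p, 0 ≤ (B.ev u p).re) {K : ℝ}
    (hK : 0 ≤ K) (h : ∀ k : ℕ, G.nrm (u ^ (2 ^ k)) ≤ K ^ (2 ^ k)) (p : P) :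
    (B.ev u p).re ≤ K := by
  by_contra hc
  push Not at hc
  obtain ⟨m, hm1, hm2⟩ := exists_between hc
  have hm0 : 0 < m := lt_of_le_of_lt hK hm1
  have hφ : ContDiffOn ℝ ∞ (fun x => Real.smoothTransition (x - m)) Set.univ :=
    (Real.smoothTransition.contDiff.comp (contDiff_id.sub contDiff_const)).contDiffOn
  obtain ⟨v, -, hv, -, hve, -, -⟩ := G.fc1 isOpen_univ hφ hu (fun _ => Set.mem_univ _)
  have hδ : 0 < (G.I v).re := by
    refine G.I_re_pos hv (fun q => ?_) ⟨p, ?_⟩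
    · rw [hve, Complex.ofReal_re]; exact Real.smoothTransition.nonneg _
    · rw [hve, Complex.ofReal_re]; exact Real.smoothTransition.pos_of_pos (sub_pos.2 hm2)
  have h1 : ∀ q : ℕ, m ^ q * (G.I v).re ≤ (G.I (u ^ q)).re := by
    intro q
    rw [mos_re_smul]
    refine G.I_re_mono (fun r => ?_)
    rw [map_smul, ContinuousMap.smul_apply, hve, mos_ev_pow hu, smul_eq_mul,
      Complex.re_ofReal_mul, Complex.ofReal_re, Complex.ofReal_re]
    rcases le_total (B.ev u r).re m with h2 | h2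
    · rw [Real.smoothTransition.zero_of_nonpos (sub_nonpos.2 h2), mul_zero]
      exact pow_nonneg (h0 r) _
    · exact (mul_le_of_le_one_right (pow_nonneg hm0.le _) (Real.smoothTransition.le_one _)).trans
        (pow_le_pow_left₀ hm0.le h2 q)
  have hr0 : 0 ≤ K / m := div_nonneg hK hm0.le
  have hr1 : K / m < 1 := (div_lt_one hm0).2 hm1
  obtain ⟨k, hk⟩ := exists_pow_lt_of_lt_one hδ hr1
  have h2 : m ^ (2 * 2 ^ k) * (G.I v).re ≤ K ^ (2 * 2 ^ k) := by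
    refine (h1 _).trans ?_
    rw [← mos_nrm_pow G hu, mul_comm 2, pow_mul]
    exact pow_le_pow_left₀ (G.nrm_nonneg _) (h k) 2
  have h3 : (K / m) ^ (2 * 2 ^ k) ≤ (K / m) ^ k :=
    pow_le_pow_of_le_one hr0 hr1.le (by have := @Nat.lt_two_pow_self k; omega)
  have h4 : (G.I v).re ≤ (K / m) ^ (2 * 2 ^ k) := by
    rw [div_pow, le_div_iff₀ (pow_pos hm0 _), mul_comm]
    exact h2
  linarith

theorem Geo.moser (G : Geo B) (C : ℝ) : ∃ K : ℝ, 0 ≤ K ∧ ∀ u, B.Re0 u →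
    (∀ p, 0 ≤ (B.ev u p).re) → (∀ p, (B.ev (G.Lap u) p).re ≤ C * (B.ev u p).re) →
    ∀ p, (B.ev u p).re ≤ K * (G.I u).re := by
  obtain ⟨L, hL1, hL⟩ := mos_step G (abs_nonneg C)
  refine ⟨(2 * L) ^ 2, sq_nonneg _, ?_⟩
  intro u hu h0 hLap p
  have hn := G.nrm_nonneg u
  have hL0 : 0 ≤ 2 * L := by linarith
  have h1 := mos_sup G.toPre hu h0 (mul_nonneg hL0 hn) (mos_iter G.toPre hL1
    (hL u hu h0 (fun q => (hLap q).trans (mul_le_mul_of_nonneg_right (le_abs_self C) (h0 q)))))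
  have hI : 0 ≤ (G.I u).re := G.I_re_nonneg h0
  have h2 : G.nrm u ^ 2 ≤ 2 * L * G.nrm u * (G.I u).re := by
    have h3 := mos_nrm_pow G.toPre hu 1
    rw [pow_one] at h3
    rw [h3, mos_re_smul]
    refine G.I_re_mono (fun r => ?_)
    rw [map_smul, ContinuousMap.smul_apply, mos_ev_pow hu, smul_eq_mul,
      Complex.re_ofReal_mul, Complex.ofReal_re, mul_one, sq]
    exact mul_le_mul_of_nonneg_right (h1 r) (h0 r)
  have h4 : G.nrm u ≤ 2 * L * (G.I u).re := by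
    rcases hn.eq_or_lt with h | h
    · rw [← h]; positivity
    · refine le_of_mul_le_mul_left ?_ h
      nlinarith
  calc (B.ev u p).re ≤ 2 * L * G.nrm u := h1 p
    _ ≤ 2 * L * (2 * L * (G.I u).re) := by gcongr
    _ = _ := by ring

end SW4
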