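import Pool.Agent.P.MP_0a0487_an.SW.Ops
import Pool.Agent.P.MP_0a0487_an.SW.Mos

/-! The pointwise Weitzenboeck inequality and Taubes' identity. -/

set_option autoImplicit false
set_option linter.unusedSectionVars false

noncomputable section

namespace SW4

open scoped ComplexOrder ContDiff
open Filter Topology

variable {P A : Type} [TopologicalSpace P] [CompactSpace P] [CommRing A] [StarRing A] [Algebra ℂ A]
  [StarModule ℂ A] {B : Base P A}

theorem weitz_two (x y : ℂ) {c : ℂ} {K : ℝ} (hc : ‖c‖ ≤ K) :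
    2 * ((starRingEnd ℂ) x * (c * y)).re ≤ ‖y‖ ^ 2 + K ^ 2 * ‖x‖ ^ 2 := by
  have h1 : ((starRingEnd ℂ) x * (c * y)).re ≤ ‖x‖ * (K * ‖y‖) := by
    refine (Complex.re_le_norm _).trans ?_
    rw [norm_mul, norm_mul, Complex.norm_conj]
    gcongr
  nlinarith [sq_nonneg (‖y‖ - K * ‖x‖)]

theorem weitz_sq (x : ℂ) : ((starRingEnd ℂ) x * x).re = ‖x‖ ^ 2 := by
  rw [Complex.conj_mul']
  norm_cast

theorem Base.weitz_sq (B : Base P A) (s : A) (p : P) :
    (B.ev (star s * s) p).re = ‖B.ev s p‖ ^ 2 := by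
  rw [map_mul, ContinuousMap.mul_apply, B.ev_star, SW4.weitz_sq]

theorem Base.weitz_one (B : Base P A) (c s y : A) (p : P) :
    2 * (B.ev (star s * (c * y)) p).re ≤
      (B.ev (star y * y) p).re + ‖B.ev c‖ ^ 2 * (B.ev (star s * s) p).re := by
  rw [B.weitz_sq, B.weitz_sq, map_mul, map_mul, ContinuousMap.mul_apply, ContinuousMap.mul_apply,
    B.ev_star]
  exact weitz_two _ _ ((B.ev c).norm_coe_le_norm p)

theorem Base.weitz_sum (B : Base P A) (c : Fin 4 → A) (s : A) (y : Fin 4 → A) (p : P) :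
    2 * (B.ev (star s * ∑ γ, c γ * y γ) p).re ≤
      (B.ev (∑ γ, star (y γ) * y γ) p).re + (∑ γ, ‖B.ev (c γ)‖ ^ 2) * (B.ev (star s * s) p).re := by
  simp only [Finset.mul_sum, map_sum, ContinuousMap.sum_apply, Complex.re_sum, Finset.sum_mul]
  rw [← Finset.sum_add_distrib]
  exact Finset.sum_le_sum fun γ _ => B.weitz_one _ _ _ p

namespace Pre

variable (G : Pre B)

/-- The curvature of the connection `a` in weight `w`. -/
def curv (w : Wt) (a : Fin 4 → A) (α β : Fin 4) : A := G.Fw w α β + Complex.I • G.d1 a α β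

/-- The Dirac equation with the connection `a`. -/
def DirEq (a : Fin 4 → A) (α β : A) : Prop :=
  G.X a 1 α = G.X a 2 β + G.τ 2 * β ∧ G.X a 3 α = -(G.X a 0 β + G.τ 0 * β)

theorem dirEq_iff (w : Wt) (χ : G.Sec (wm 0)) (ψ : G.Sec (wp w)) :
    G.dirac w ψ + G.rho w χ ψ = 0 ↔ G.DirEq χ.form (ψ.c 0) (ψ.c 1) := by
  have e0 : (G.dirac w ψ + G.rho w χ ψ).c 0 =
      G.X χ.form 1 (ψ.c 0) - (G.X χ.form 2 (ψ.c 1) + G.τ 2 * ψ.c 1) := by
    change G.D 1 (ψ.c 0) - G.Dt 2 (ψ.c 1) +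
      Complex.I • (χ.form 1 * ψ.c 0 - χ.form 2 * ψ.c 1) = _
    simp only [Calc.X, Dt, smul_sub]
    ring
  have e1 : (G.dirac w ψ + G.rho w χ ψ).c 1 =
      G.X χ.form 3 (ψ.c 0) - -(G.X χ.form 0 (ψ.c 1) + G.τ 0 * ψ.c 1) := by
    change G.D 3 (ψ.c 0) + G.Dt 0 (ψ.c 1) +
      Complex.I • (χ.form 3 * ψ.c 0 + χ.form 0 * ψ.c 1) = _
    simp only [Calc.X, Dt, smul_add]
    ring
  constructor
  · intro h
    rw [h] at e0 e1
    exact ⟨(sub_eq_zero.1 e0.symm), (sub_eq_zero.1 e1.symm)⟩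
  · rintro ⟨h0, h1⟩
    refine Sec.ext fun i => ?_
    fin_cases i
    · exact e0.trans (sub_eq_zero.2 h0)
    · exact e1.trans (sub_eq_zero.2 h1)

theorem weitz_form1 {a : Fin 4 → A} (ha : B.Re1 a) : B.Form1 a := fun α => (ha α).1

theorem weitz_curv_star (w : Wt) {a : Fin 4 → A} (ha : B.Re1 a) (μ ν : Fin 4) :
    star (G.curv w a μ ν) = -G.curv w a (bar μ) (bar ν) := by
  rw [curv, curv, star_add, G.Fw_star, star_smul, (G.d1_re ha).2]
  simp only [RCLike.star_def, Complex.conj_I, neg_smul, neg_add]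

theorem weitz_curv_form (w : Wt) {a : Fin 4 → A} (ha : B.Re1 a) : B.Form2 (G.curv w a) :=
  fun μ ν => ⟨add_mem (G.Fw_form w μ ν).1 (Submodule.smul_mem _ _ ((G.d1_re ha).1 μ ν).1), by
    rw [curv, curv, (G.Fw_form w μ ν).2, ((G.d1_re ha).1 μ ν).2, smul_neg, neg_add]⟩

theorem lam_curv_re (w : Wt) {a : Fin 4 → A} (ha : B.Re1 a) : B.Re0 (lam (G.curv w a)) := by
  have hF := G.weitz_curv_form w ha
  refine ⟨add_mem ?_ ?_, ?_⟩
  · have h := (hF 0 1).1
    rwa [show wt 0 + wt 1 = 0 by decide] at h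
  · have h := (hF 2 3).1
    rwa [show wt 2 + wt 3 = 0 by decide] at h
  · rw [lam, star_add, G.weitz_curv_star w ha, G.weitz_curv_star w ha]
    change -G.curv w a 1 0 + -G.curv w a 3 2 = _
    rw [(hF 0 1).2, (hF 2 3).2, neg_neg, neg_neg]

theorem weitz_curv_sub (w v : Wt) (a : Fin 4 → A) (μ ν : Fin 4) :
    G.curv (w - v) a μ ν = G.curv w a μ ν - G.Fw v μ ν := by
  have h := G.Fw_add (w - v) v μ ν
  rw [sub_add_cancel] at h
  rw [curv, curv, h]
  ring

theorem weitz_X_add (a : Fin 4 → A) (μ : Fin 4) (s t : A) :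
    G.X a μ (s + t) = G.X a μ s + G.X a μ t := by
  simp only [Calc.X, map_add, mul_add, smul_add]
  ring

theorem weitz_X_neg (a : Fin 4 → A) (μ : Fin 4) (s : A) : G.X a μ (-s) = -G.X a μ s := by
  simp only [Calc.X, map_neg, mul_neg, smul_neg]
  ring

theorem weitz_comm (a : Fin 4 → A) {w : Wt} {s : A} (hs : s ∈ B.W w) (μ ν : Fin 4) :
    G.X a μ (G.X a ν s) - G.X a ν (G.X a μ s) =
      ∑ γ, G.T μ ν γ * G.X a γ s + G.curv w a μ ν * s := G.X_comm a hs μ ν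

theorem weitz_LapX (a : Fin 4 → A) (s : A) : G.LapX a s =
    -(G.X a 1 (G.X a 0 s) + G.X a 0 (G.X a 1 s) + G.X a 3 (G.X a 2 s) + G.X a 2 (G.X a 3 s)) -
      ∑ γ, G.τ (bar γ) * G.X a γ s := by
  rw [LapX, Finset.sum_add_distrib, Fin.sum_univ_four]
  change -(G.X a 1 (G.X a 0 s) + G.X a 0 (G.X a 1 s) + G.X a 3 (G.X a 2 s) +
    G.X a 2 (G.X a 3 s) + _) = _
  ring

/-- The algebraic Weitzenboeck formula. -/
theorem weitz_alg : ∃ (c1 c2 c3 c4 : Fin 4 → A) (c5 c6 : A), ∀ (w : Wt) (a : Fin 4 → A)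
    (α β : A), B.Re1 a → α ∈ B.W w → β ∈ B.W (w - (1, 1)) → G.DirEq a α β →
      G.LapX a α = lam (G.curv w a) * α + 2 * (star (G.curv w a 1 3) * β) +
        ∑ γ, c1 γ * G.X a γ α + ∑ γ, c2 γ * G.X a γ β + c5 * β ∧
      G.LapX a β = -(lam (G.curv w a) * β) + 2 * (G.curv w a 1 3 * α) +
        ∑ γ, c3 γ * G.X a γ α + ∑ γ, c4 γ * G.X a γ β + c6 * β := by
  refine ⟨fun γ => G.T 0 1 γ + G.T 2 3 γ - G.τ (bar γ),
    fun γ => -2 * G.T 0 2 γ + ![-2 * G.τ 2, 0, 2 * G.τ 0, 0] γ,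
    fun γ => 2 * G.T 1 3 γ,
    fun γ => -G.T 0 1 γ - G.T 2 3 γ - G.τ (bar γ) + ![0, 2 * G.τ 0, 0, 2 * G.τ 2] γ,
    2 * G.Fw (1, 1) 0 2 - 2 * (G.D 0 (G.τ 2) - G.D 2 (G.τ 0)),
    lam (G.Fw (1, 1)) + 2 * (G.D 1 (G.τ 0) + G.D 3 (G.τ 2)),
    fun w a α β ha hα hβ h => ⟨?_, ?_⟩⟩
  · have h01 := G.weitz_comm a hα 0 1
    have h23 := G.weitz_comm a hα 2 3
    have h02 := G.weitz_comm a hβ 0 2
    have e1 := congrArg (G.X a 0) h.1
    have e3 := congrArg (G.X a 2) h.2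
    rw [weitz_X_add, G.X_mul] at e1
    rw [weitz_X_neg, weitz_X_add, G.X_mul] at e3
    have hs : star (G.curv w a 1 3) = -G.curv w a 0 2 := G.weitz_curv_star w ha 1 3
    rw [weitz_curv_sub] at h02
    rw [weitz_LapX, hs, lam]
    simp only [Fin.sum_univ_four, Matrix.cons_val_zero, Matrix.cons_val_one, Matrix.cons_val]
      at h01 h23 h02 ⊢
    linear_combination h01 + h23 - 2 * e1 - 2 * e3 - 2 * h02
  · have h01 := G.weitz_comm a hβ 0 1
    have h23 := G.weitz_comm a hβ 2 3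
    have h13 := G.weitz_comm a hα 1 3
    have e1 := congrArg (G.X a 3) h.1
    have e3 := congrArg (G.X a 1) h.2
    rw [weitz_X_add, G.X_mul] at e1
    rw [weitz_X_neg, weitz_X_add, G.X_mul] at e3
    rw [weitz_curv_sub] at h01 h23
    rw [weitz_LapX, lam, lam]
    simp only [Fin.sum_univ_four, Matrix.cons_val_zero, Matrix.cons_val_one, Matrix.cons_val]
      at h01 h23 h13 ⊢
    linear_combination -h01 - h23 + 2 * e1 - 2 * e3 + 2 * h13

theorem weitz_Lap_add (u v : A) : G.Lap (u + v) = G.Lap u + G.Lap v := by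
  simp only [Lap, map_add, mul_add, Finset.sum_add_distrib]
  ring

theorem weitz_Lap_re {a : Fin 4 → A} (ha : B.Re1 a) (s : A) (p : P) :
    (B.ev (G.Lap (star s * s)) p).re = 2 * (B.ev (star s * G.LapX a s) p).re -
      2 * (B.ev (∑ γ, star (G.X a γ s) * G.X a γ s) p).re := by
  rw [G.Lap_star_mul ha, two_mul (∑ γ, star (G.X a γ s) * G.X a γ s)]
  simp only [map_add, map_sub, ContinuousMap.add_apply, ContinuousMap.sub_apply, Complex.add_re,
    Complex.sub_re, B.ev_star, Complex.conj_re]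
  ring

theorem weitz : ∃ C : ℝ, 0 ≤ C ∧ ∀ (w : Wt) (a : Fin 4 → A) (α β : A), B.Re1 a → α ∈ B.W w →
    β ∈ B.W (w - (1, 1)) → G.DirEq a α β → ∀ p,
      (B.ev (G.Lap (star α * α + star β * β)) p).re ≤
        2 * (B.ev (lam (G.curv w a) * (star α * α - star β * β) +
          4 * (star β * G.curv w a 1 3 * α)) p).re +
        C * (B.ev (star α * α + star β * β) p).re := by
  obtain ⟨c1, c2, c3, c4, c5, c6, hc⟩ := G.weitz_alg
  refine ⟨∑ γ, ‖B.ev (c1 γ)‖ ^ 2 + ∑ γ, ‖B.ev (c2 γ)‖ ^ 2 + ∑ γ, ‖B.ev (c3 γ)‖ ^ 2 +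
    ∑ γ, ‖B.ev (c4 γ)‖ ^ 2 + ‖B.ev c5‖ ^ 2 + ‖B.ev c6‖ ^ 2 + 2, by positivity,
    fun w a α β ha hα hβ h p => ?_⟩
  obtain ⟨hA, hB⟩ := hc w a α β ha hα hβ h
  have i1 := B.weitz_sum c1 α (fun γ => G.X a γ α) p
  have i2 := B.weitz_sum c2 α (fun γ => G.X a γ β) p
  have i3 := B.weitz_sum c3 β (fun γ => G.X a γ α) p
  have i4 := B.weitz_sum c4 β (fun γ => G.X a γ β) p
  have i5 := B.weitz_one c5 α β p
  have i6 := B.weitz_one c6 β β p
  have hz : (B.ev (star α * (star (G.curv w a 1 3) * β)) p).re =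
      (B.ev (star β * G.curv w a 1 3 * α) p).re := by
    have : star α * (star (G.curv w a 1 3) * β) = star (star β * G.curv w a 1 3 * α) := by
      simp only [star_mul, star_star]
    rw [this, B.ev_star, Complex.conj_re]
  have eA : star α * G.LapX a α = lam (G.curv w a) * (star α * α) +
      (star α * (star (G.curv w a 1 3) * β) + star α * (star (G.curv w a 1 3) * β)) +
      star α * ∑ γ, c1 γ * G.X a γ α + star α * ∑ γ, c2 γ * G.X a γ β + star α * (c5 * β) := by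
    rw [hA]; ring
  have eB : star β * G.LapX a β = (star β * G.curv w a 1 3 * α + star β * G.curv w a 1 3 * α) -
      lam (G.curv w a) * (star β * β) +
      star β * ∑ γ, c3 γ * G.X a γ α + star β * ∑ γ, c4 γ * G.X a γ β + star β * (c6 * β) := by
    rw [hB]; ring
  have eC : lam (G.curv w a) * (star α * α - star β * β) + 4 * (star β * G.curv w a 1 3 * α) =
      lam (G.curv w a) * (star α * α) - lam (G.curv w a) * (star β * β) +
        (star β * G.curv w a 1 3 * α + star β * G.curv w a 1 3 * α +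
          star β * G.curv w a 1 3 * α + star β * G.curv w a 1 3 * α) := by ring
  have pA : 0 ≤ (B.ev (star α * α) p).re := by rw [B.weitz_sq]; positivity
  have pB : 0 ≤ (B.ev (star β * β) p).re := by rw [B.weitz_sq]; positivity
  rw [weitz_Lap_add, map_add, ContinuousMap.add_apply, Complex.add_re, G.weitz_Lap_re ha,
    G.weitz_Lap_re ha, eA, eB, eC]
  simp only [map_add, map_sub, ContinuousMap.add_apply, ContinuousMap.sub_apply, Complex.add_re,
    Complex.sub_re]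
  rw [hz]
  have k1 : 0 ≤ ∑ γ, ‖B.ev (c1 γ)‖ ^ 2 := by positivity
  have k2 : 0 ≤ ∑ γ, ‖B.ev (c2 γ)‖ ^ 2 := by positivity
  have k3 : 0 ≤ ∑ γ, ‖B.ev (c3 γ)‖ ^ 2 := by positivity
  have k4 : 0 ≤ ∑ γ, ‖B.ev (c4 γ)‖ ^ 2 := by positivity
  have m1 := mul_nonneg k1 pB
  have m2 := mul_nonneg k2 pB
  have m3 := mul_nonneg k3 pA
  have m4 := mul_nonneg k4 pA
  have m5 := mul_nonneg (sq_nonneg ‖B.ev c5‖) pB
  have m6 := mul_nonneg (sq_nonneg ‖B.ev c6‖) pA
  nlinarith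

/-- The integral identity behind the vanishing theorem. -/
theorem weitz_taubes_id (h : G.AK) {r : ℝ} {w : Wt} {a : Fin 4 → A} {α β : A}
    (hI : G.I (lam (G.Fw w)) = 0) (ha : B.Re1 a) (hα : α ∈ B.W w) (hβ : β ∈ B.W (w - (1, 1)))
    (hD : G.DirEq a α β)
    (hf : lam (G.curv w a) = algebraMap ℂ A r - star α * α + star β * β)
    (h13 : G.curv w a 1 3 = -(star α * β)) :
    ∑ γ, G.I (star (G.X a γ α) * G.X a γ α) + G.I (star (α * β) * (α * β)) +
      G.I (star (algebraMap ℂ A r - star α * α) * (algebraMap ℂ A r - star α * α)) +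
      r * G.I (star β * β) = 2 * G.I (star (∑ γ, G.T 1 3 γ * G.X a γ α) * β) := by
  have ha1 := weitz_form1 ha
  have p1 := G.ibpX ha 3 (G.X_mem ha1 hα 1) hβ (by ext <;> simp [wt, sub_eq_add_neg])
  have p3 := G.ibpX ha 1 (G.X_mem ha1 hα 3) hβ (by ext <;> simp [wt, sub_eq_add_neg])
  change _ = -G.I (_ * (G.X a 2 β + G.τ 2 * β)) at p1
  change _ = -G.I (_ * (G.X a 0 β + G.τ 0 * β)) at p3
  rw [← hD.1] at p1
  rw [← map_neg, ← mul_neg, ← hD.2] at p3
  have c13 := G.weitz_comm a hα 1 3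
  have q1 : G.I (star (G.X a 1 (G.X a 3 α)) * β) - G.I (star (G.X a 3 (G.X a 1 α)) * β) =
      G.I (star (∑ γ, G.T 1 3 γ * G.X a γ α) * β) - G.I (star (α * β) * (α * β)) := by
    rw [← map_sub, ← map_sub, ← sub_mul, ← star_sub, c13, h13]
    congr 1
    simp only [star_add, star_mul, star_neg, star_star]
    ring
  have hc : B.Form1 fun γ => star α * G.X a γ α := fun γ =>
    B.mul_mem' (B.star_mem hα) (G.X_mem ha1 hα γ) (by rw [← add_assoc, neg_add_cancel, zero_add])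
  have q2 := h.d1 hc
  have e2 : lam (G.d1 fun γ => star α * G.X a γ α) =
      star (G.X a 1 α) * G.X a 1 α + star (G.X a 3 α) * G.X a 3 α -
        star (G.X a 0 α) * G.X a 0 α - star (G.X a 2 α) * G.X a 2 α +
        lam (G.curv w a) * (star α * α) := by
    have h01 := G.weitz_comm a hα 0 1
    have h23 := G.weitz_comm a hα 2 3
    have d0 : G.D 0 (star α * G.X a 1 α) = star (G.X a 1 α) * _ + _ := G.D_star_mul ha 0 α _
    have d1 : G.D 1 (star α * G.X a 0 α) = star (G.X a 0 α) * _ + _ := G.D_star_mul ha 1 α _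
    have d2 : G.D 2 (star α * G.X a 3 α) = star (G.X a 3 α) * _ + _ := G.D_star_mul ha 2 α _
    have d3 : G.D 3 (star α * G.X a 2 α) = star (G.X a 2 α) * _ + _ := G.D_star_mul ha 3 α _
    simp only [lam, Calc.d1, d0, d1, d2, d3]
    simp only [Fin.sum_univ_four] at h01 h23 ⊢
    linear_combination star α * h01 + star α * h23
  rw [e2] at q2
  have q3 : G.I (lam (G.curv w a)) = 0 := by
    have : lam (G.curv w a) = lam (G.Fw w) + Complex.I • lam (G.d1 a) := by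
      simp only [lam, curv, smul_add]
      ring
    rw [this, map_add, map_smul, hI, h.d1 ha1, smul_zero, add_zero]
  have e4 : lam (G.curv w a) * (star α * α) = (r : ℂ) • lam (G.curv w a) -
      star (algebraMap ℂ A r - star α * α) * (algebraMap ℂ A r - star α * α) +
      star (α * β) * (α * β) - (r : ℂ) • (star β * β) := by
    have hr : star (algebraMap ℂ A r) = algebraMap ℂ A r := by
      rw [← algebraMap_star_comm]
      simp
    rw [hf]
    simp only [Algebra.smul_def, star_sub, star_mul, star_star, hr]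
    ring
  rw [e4] at q2
  simp only [map_add, map_sub, map_smul, q3, smul_eq_mul] at q2
  rw [Fin.sum_univ_four]
  linear_combination -q2 - 2 * p3 + 2 * p1 + 2 * q1

/-- Taubes' vanishing theorem for large perturbations. -/
theorem taubes (h : G.AK) : ∃ r₀ : ℝ, ∀ r ≥ r₀, ∀ (w : Wt) (a : Fin 4 → A) (α β : A),
    G.I (lam (G.Fw w)) = 0 → B.Re1 a → α ∈ B.W w → β ∈ B.W (w - (1, 1)) → G.DirEq a α β →
    lam (G.curv w a) = algebraMap ℂ A r - star α * α + star β * β →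
    G.curv w a 1 3 = -(star α * β) →
    β = 0 ∧ star α * α = algebraMap ℂ A r ∧ ∀ γ, G.X a γ α = 0 := by
  refine ⟨2 * ∑ γ, ‖B.ev (G.T 1 3 γ)‖ ^ 2 + 1, fun r hr w a α β hI ha hα hβ hD hf h13 => ?_⟩
  have hid := congrArg Complex.re (G.weitz_taubes_id h hI ha hα hβ hD hf h13)
  simp only [Complex.add_re, Complex.re_sum, Complex.re_ofReal_mul, ← G.nrm_sq] at hid
  have hb : (2 * G.I (star (∑ γ, G.T 1 3 γ * G.X a γ α) * β)).re ≤
      2 * ((∑ γ, ‖B.ev (G.T 1 3 γ)‖ * G.nrm (G.X a γ α)) * G.nrm β) := by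
    refine (Complex.re_le_norm _).trans ?_
    rw [norm_mul, Complex.norm_ofNat]
    gcongr
    refine (G.norm_I_le _ _).trans (mul_le_mul_of_nonneg_right ?_ (G.nrm_nonneg _))
    exact (G.nrm_sum _ _).trans (Finset.sum_le_sum fun γ _ => G.nrm_mul_le _ _)
  have hc : 2 * ((∑ γ, ‖B.ev (G.T 1 3 γ)‖ * G.nrm (G.X a γ α)) * G.nrm β) ≤
      (∑ γ, G.nrm (G.X a γ α) ^ 2) / 2 + 2 * (∑ γ, ‖B.ev (G.T 1 3 γ)‖ ^ 2) * G.nrm β ^ 2 := by
    simp only [Finset.sum_mul, Finset.mul_sum, Finset.sum_div]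
    rw [← Finset.sum_add_distrib]
    refine Finset.sum_le_sum fun γ _ => ?_
    nlinarith [sq_nonneg (G.nrm (G.X a γ α) - 2 * ‖B.ev (G.T 1 3 γ)‖ * G.nrm β)]
  have k0 : 0 ≤ ∑ γ, G.nrm (G.X a γ α) ^ 2 := by positivity
  have k1 := sq_nonneg (G.nrm (α * β))
  have k2 := sq_nonneg (G.nrm (algebraMap ℂ A r - star α * α))
  have k3 := sq_nonneg (G.nrm β)
  have k4 := mul_le_mul_of_nonneg_right hr k3
  refine ⟨G.nrm_eq_zero ⟨_, hβ⟩ ?_, (sub_eq_zero.1 (G.nrm_eq_zero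
    ⟨0, sub_mem (B.algebraMap_mem _) (B.re0_star_mul hα).1⟩ ?_)).symm, fun γ =>
    G.nrm_eq_zero ⟨_, G.X_mem (weitz_form1 ha) hα γ⟩ ?_⟩
  · exact pow_eq_zero_iff two_ne_zero |>.1 (by nlinarith)
  · exact pow_eq_zero_iff two_ne_zero |>.1 (by nlinarith)
  · have h0 : ∑ γ, G.nrm (G.X a γ α) ^ 2 = 0 := by nlinarith
    exact pow_eq_zero_iff two_ne_zero |>.1
      ((Finset.sum_eq_zero_iff_of_nonneg fun i _ => sq_nonneg _).1 h0 γ (Finset.mem_univ γ))

end Pre

end SW4
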