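import Pool.Agent.P.MP_0a0487_an.SW.Bil
import Pool.Agent.P.MP_0a0487_an.SW.Weitz
import Pool.Agent.P.MP_0a0487_an.SW.Spec

/-! A priori bounds for solutions of the monopole equations. -/

set_option autoImplicit false
set_option linter.unusedSectionVars false

noncomputable section

namespace SW4

open scoped ComplexOrder ContDiff
open Filter Topology

variable {P A : Type} [TopologicalSpace P] [CompactSpace P] [CommRing A] [StarRing A] [Algebra ℂ A]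
  [StarModule ℂ A] {B : Base P A}

theorem Pre.AK.sw_curv {G : Pre B} (h : G.AK) {ξ ψ : G.Sec (wp 0)} {χ : G.Sec (wm 0)}
    (hs : G.SW ξ ψ χ) :
    lam (G.curv 0 χ.form) = -Complex.I • (ξ.c 0 - star (ξ.c 0)) - star (ψ.c 0) * ψ.c 0 +
      star (ψ.c 1) * ψ.c 1 ∧
    G.curv 0 χ.form 1 3 = -Complex.I • ξ.c 1 - star (ψ.c 0) * ψ.c 1 := by
  have e0 : ξ.c 0 = (G.Q χ).c 0 + (Complex.I / 4) • (star (ψ.c 0) * ψ.c 0 + star (ψ.c 0) * ψ.c 0 -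
      star (ψ.c 1) * ψ.c 1 - star (ψ.c 1) * ψ.c 1) := by rw [← hs.2]; rfl
  have e1 : ξ.c 1 = (G.Q χ).c 1 +
      (Complex.I / 2) • (star (ψ.c 0) * ψ.c 1 + star (ψ.c 0) * ψ.c 1) := by rw [← hs.2]; rfl
  have c4 : star (Complex.I / 4) = -(Complex.I / 4) := by
    simp [neg_div]
  constructor
  · have h1 : lam (G.curv 0 χ.form) = -Complex.I • ((G.Q χ).c 0 - star ((G.Q χ).c 0)) := by
      rw [h.Q_zero]
      simp only [lam, Pre.curv, G.Fw_zero, zero_add]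
      module
    rw [h1, e0, star_add, star_smul, c4]
    simp only [star_sub, star_add, star_mul', star_star, mul_comm (ψ.c 0) (star (ψ.c 0)),
      mul_comm (ψ.c 1) (star (ψ.c 1))]
    match_scalars
    all_goals first
      | ring1
      | linear_combination Complex.I_mul_I
      | linear_combination -Complex.I_mul_I
  · rw [e1, G.Q_one]
    simp only [Pre.curv, G.Fw_zero, zero_add]
    match_scalars
    all_goals first
      | ring1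
      | linear_combination Complex.I_mul_I
      | linear_combination -Complex.I_mul_I

theorem apri_pt (a b x y : ℂ) {m : ℝ} (hx : ‖x‖ ≤ m) (hy : ‖y‖ ≤ m) :
    ((-Complex.I * (x - star x) - star a * a + star b * b) * (star a * a - star b * b) +
      4 * (star b * (-Complex.I * y - star a * b) * a)).re ≤
      4 * m * (‖a‖ ^ 2 + ‖b‖ ^ 2) - (‖a‖ ^ 2 + ‖b‖ ^ 2) ^ 2 := by
  have e : ((-Complex.I * (x - star x) - star a * a + star b * b) * (star a * a - star b * b) +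
      4 * (star b * (-Complex.I * y - star a * b) * a)).re
      = 2 * x.im * (‖a‖ ^ 2 - ‖b‖ ^ 2) + 4 * (star b * (-Complex.I * y) * a).re
        - (‖a‖ ^ 2 + ‖b‖ ^ 2) ^ 2 := by
    simp only [Complex.sq_norm, Complex.normSq_apply]
    simp
    ring
  have h1 : |x.im| ≤ m := (Complex.abs_im_le_norm x).trans hx
  have h2 : (star b * (-Complex.I * y) * a).re ≤ ‖b‖ * m * ‖a‖ := by
    refine (Complex.re_le_norm _).trans ?_
    rw [norm_mul, norm_mul, norm_mul, norm_star, norm_neg, Complex.norm_I, one_mul]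
    gcongr
  have h3 := abs_le.1 h1
  have hm : 0 ≤ m := (norm_nonneg _).trans hx
  rw [e]
  nlinarith [mul_nonneg (sub_nonneg.2 h3.2) (sq_nonneg ‖a‖),
    mul_nonneg (sub_nonneg.2 h3.1) (sq_nonneg ‖b‖), mul_nonneg hm (sq_nonneg (‖a‖ - ‖b‖))]

theorem Geo.sw_sup (G : Geo B) (h : G.AK) (m : ℝ) : ∃ m' : ℝ, ∀ ξ ψ χ, G.SW ξ ψ χ →
    (∀ i, ‖B.ev (ξ.c i)‖ ≤ m) → ∀ i, ‖B.ev (ψ.c i)‖ ≤ m' := by
  obtain ⟨C, hC0, hC⟩ := G.weitz
  obtain ⟨K, hK0, hK⟩ := G.moser (8 * m + C)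
  refine ⟨√(K * ((8 * m + C + 1) ^ 2 / 8 * (G.I 1).re)), fun ξ ψ χ hs hξ => ?_⟩
  obtain ⟨e0, e1⟩ := Pre.AK.sw_curv h hs
  set u := star (ψ.c 0) * ψ.c 0 + star (ψ.c 1) * ψ.c 1 with hu
  have hu0 : B.Re0 u := by
    obtain ⟨p1, p2⟩ := B.re0_star_mul (ψ.mem 0)
    obtain ⟨p3, p4⟩ := B.re0_star_mul (ψ.mem 1)
    exact ⟨add_mem p1 p3, by rw [hu, star_add, p2, p4]⟩
  have hv : ∀ p, (B.ev u p).re = ‖B.ev (ψ.c 0) p‖ ^ 2 + ‖B.ev (ψ.c 1) p‖ ^ 2 := fun p => by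
    simp only [hu, map_add, map_mul, map_star, ContinuousMap.add_apply, ContinuousMap.mul_apply,
      ContinuousMap.star_apply, Complex.sq_norm, Complex.normSq_apply]
    simp
  have hL : ∀ p, (B.ev (G.Lap u) p).re ≤
      (8 * m + C) * (B.ev u p).re - 2 * (B.ev u p).re ^ 2 := fun p => by
    have h1 := hC 0 χ.form (ψ.c 0) (ψ.c 1) χ.form_re (ψ.mem 0) (ψ.mem 1)
      ((G.dirEq_iff 0 χ ψ).1 hs.1) p
    have h2 := apri_pt (B.ev (ψ.c 0) p) (B.ev (ψ.c 1) p) (B.ev (ξ.c 0) p) (B.ev (ξ.c 1) p)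
      (((B.ev (ξ.c 0)).norm_coe_le_norm p).trans (hξ 0))
      (((B.ev (ξ.c 1)).norm_coe_le_norm p).trans (hξ 1))
    rw [e0, e1, ← hu] at h1
    have h4 : (4 : C(P, ℂ)) p = 4 := rfl
    simp only [map_add, map_mul, map_sub, map_star, map_smul, map_ofNat, ContinuousMap.add_apply,
      ContinuousMap.mul_apply, ContinuousMap.sub_apply, ContinuousMap.star_apply,
      ContinuousMap.smul_apply, h4, smul_eq_mul] at h1
    rw [← hv] at h2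
    linarith
  have hI : (G.I u).re ≤ (8 * m + C + 1) ^ 2 / 8 * (G.I 1).re := by
    have h1 : G.I (G.Lap u) = 0 := by
      have := G.I_mul_Lap hu0.1 B.one_mem
      simpa [G.D_one] using this
    have h2 := G.I_re_mono (s := G.Lap u + u)
      (t := (((8 * m + C + 1) ^ 2 / 8 : ℝ) : ℂ) • (1 : A)) fun p => by
        simp only [map_add, map_smul, map_one, ContinuousMap.add_apply, ContinuousMap.smul_apply,
          ContinuousMap.one_apply, smul_eq_mul, mul_one, Complex.add_re, Complex.ofReal_re]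
        nlinarith [hL p, sq_nonneg (4 * (B.ev u p).re - (8 * m + C + 1))]
    rwa [map_add, h1, zero_add, map_smul, smul_eq_mul, Complex.re_ofReal_mul] at h2
  have hb : ∀ p, (B.ev u p).re ≤ K * ((8 * m + C + 1) ^ 2 / 8 * (G.I 1).re) := fun p =>
    (hK u hu0 (fun p => by rw [hv]; positivity)
      (fun p => by nlinarith [hL p, sq_nonneg (B.ev u p).re]) p).trans
      (mul_le_mul_of_nonneg_left hI hK0)
  intro i
  refine (ContinuousMap.norm_le _ (Real.sqrt_nonneg _)).2 fun p => Real.le_sqrt_of_sq_le ?_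
  have h1 := hb p
  rw [hv] at h1
  fin_cases i
  · exact le_trans (le_add_of_nonneg_right (sq_nonneg _)) h1
  · exact le_trans (le_add_of_nonneg_left (sq_nonneg _)) h1

theorem apri_absorb {x a b c : ℝ} (hx : 0 ≤ x) (hc : 0 ≤ c) (h : x ≤ a + b * √(c * x)) :
    x ≤ 2 * a + b ^ 2 * c := by
  rw [Real.sqrt_mul hc] at h
  nlinarith [Real.sq_sqrt hx, Real.sq_sqrt hc, sq_nonneg (b * √c - √x)]

theorem Geo.apriori (G : Geo B) (h : G.AK) (m : ℝ) : ∃ R : ℝ, ∀ ξ ψ χ, G.SW ξ ψ χ →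
    ξ.nS 4 ≤ m → ψ.nS 4 + χ.nS 4 < R := by
  obtain ⟨C0, hC0, hs0⟩ := G.supW (wp 0 0)
  obtain ⟨C1, hC1, hs1⟩ := G.supW (wp 0 1)
  obtain ⟨M, hM⟩ := G.sw_sup h ((C0 + C1) * m)
  have hsup : ∀ ξ ψ χ, G.SW ξ ψ χ → ξ.nS 4 ≤ m → ∀ i, ‖B.ev (ψ.c i)‖ ≤ M := by
    intro ξ ψ χ hs hξ
    have hm : 0 ≤ m := (ξ.nS_nonneg 4).trans hξ
    refine hM ξ ψ χ hs fun i => ?_
    fin_cases i
    · have h1 := hs0 _ (ξ.mem 0)
      have h2 := mul_le_mul_of_nonneg_left ((ξ.nn_le_nS 4 0).trans hξ) hC0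
      have h3 := mul_nonneg hC1 hm
      change ‖B.ev (ξ.c 0)‖ ≤ _
      linarith
    · have h1 := hs1 _ (ξ.mem 1)
      have h2 := mul_le_mul_of_nonneg_left ((ξ.nn_le_nS 4 1).trans hξ) hC1
      have h3 := mul_nonneg hC0 hm
      change ‖B.ev (ξ.c 1)‖ ≤ _
      linarith
  obtain ⟨Q', hQ⟩ := G.exists_Q_adj
  have hD := G.dirac_ell 0
  -- bound for the right-hand side of the curvature equation
  have hQb : ∀ k ≤ 4, ∀ R : ℝ, ∃ R' : ℝ, ∀ ξ ψ χ, G.SW ξ ψ χ → ξ.nS 4 ≤ m → ψ.nS k ≤ R →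
      (G.Q χ).nS k ≤ R' := by
    intro k hk R
    obtain ⟨C, hC, hsig⟩ := G.sig_sup k
    refine ⟨m + C * (M * R + R * R), fun ξ ψ χ hs hξ hψ => ?_⟩
    have hM0 : 0 ≤ M := (norm_nonneg _).trans (hsup ξ ψ χ hs hξ 0)
    have h0 := ψ.nS_nonneg k
    rw [eq_sub_of_add_eq hs.2]
    refine (Pre.Sec.nS_sub _ _ k).trans (add_le_add ((ξ.nS_mono hk).trans hξ)
      ((hsig ψ M (hsup ξ ψ χ hs hξ)).trans ?_))
    gcongr
    exact h0.trans hψ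
  have hχ : ∀ k ≤ 4, ∀ R : ℝ, ∃ R' : ℝ, ∀ ξ ψ χ, G.SW ξ ψ χ → ξ.nS 4 ≤ m → ψ.nS k ≤ R →
      χ.nS k ≤ R → χ.nS (k + 1) ≤ R' := by
    intro k hk R
    obtain ⟨R', hR'⟩ := hQb k hk R
    obtain ⟨C, hC, he⟩ := hQ.fo.est hQ.gar k
    refine ⟨C * (R' + R), fun ξ ψ χ hs hξ h1 h2 => (he χ).trans ?_⟩
    have := hR' ξ ψ χ hs hξ h1
    gcongr
  have hDψ : ∀ ξ ψ χ, G.SW ξ ψ χ → ∀ k, (G.dirac 0 ψ).nS k = (G.rho 0 χ ψ).nS k := by
    intro ξ ψ χ hs k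
    rw [eq_neg_of_add_eq_zero_left hs.1, Pre.Sec.nS_neg]
  have b0 : ∃ R : ℝ, ∀ ξ ψ χ, G.SW ξ ψ χ → ξ.nS 4 ≤ m → ψ.nS 0 ≤ R ∧ χ.nS 0 ≤ R := by
    obtain ⟨δ, hδ, hco⟩ := (G.pair hQ).coercive
    obtain ⟨R', hR'⟩ := hQb 0 (by norm_num) (2 * (M * G.nrm 1))
    refine ⟨max (2 * (M * G.nrm 1)) (2 * (R' / δ)), fun ξ ψ χ hs hξ => ?_⟩
    have h1 : ψ.nS 0 ≤ 2 * (M * G.nrm 1) := by
      have h2 : ∀ i, G.nn 0 (ψ.c i) ≤ M * G.nrm 1 := fun i =>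
        (G.nrm_le_sup _).trans
          (mul_le_mul_of_nonneg_right (hsup ξ ψ χ hs hξ i) (G.nrm_nonneg _))
      rw [Pre.Sec.nS, Fin.sum_univ_two]
      linarith [h2 0, h2 1]
    refine ⟨le_max_of_le_left h1, le_max_of_le_right ?_⟩
    have h2 := hco χ fun u hu => by rw [G.Q_inj h hu, inner_zero_right]
    have h3 : ‖χ‖ ≤ R' / δ := by
      rw [le_div_iff₀' hδ]
      exact h2.trans ((Pre.Sec.norm_le_nS _ 0).trans (hR' ξ ψ χ hs hξ h1))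
    have h4 := χ.nS_zero_le
    rw [Fintype.card_fin] at h4
    push_cast at h4
    linarith
  have b1 : ∃ R : ℝ, ∀ ξ ψ χ, G.SW ξ ψ χ → ξ.nS 4 ≤ m → ψ.nS 1 ≤ R ∧ χ.nS 1 ≤ R := by
    obtain ⟨R, hR⟩ := b0
    obtain ⟨R', hR'⟩ := hχ 0 (by norm_num) R
    obtain ⟨C, hC, he⟩ := hD.fo.est hD.gar 0
    refine ⟨max (C * (4 * M * R + R)) R', fun ξ ψ χ hs hξ => ?_⟩
    obtain ⟨h1, h2⟩ := hR ξ ψ χ hs hξ
    refine ⟨le_max_of_le_left ((he ψ).trans ?_), le_max_of_le_right (hR' ξ ψ χ hs hξ h1 h2)⟩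
    have hM0 : 0 ≤ M := (norm_nonneg _).trans (hsup ξ ψ χ hs hξ 0)
    have h3 : (G.dirac 0 ψ).nS 0 ≤ 4 * M * R := by
      rw [hDψ ξ ψ χ hs]
      refine (G.rho_zero_le χ ψ (hsup ξ ψ χ hs hξ)).trans ?_
      gcongr
    gcongr
  have bs : ∀ k, 1 ≤ k → k ≤ 4 →
      (∃ R : ℝ, ∀ ξ ψ χ, G.SW ξ ψ χ → ξ.nS 4 ≤ m → ψ.nS k ≤ R ∧ χ.nS k ≤ R) →
      ∃ R : ℝ, ∀ ξ ψ χ, G.SW ξ ψ χ → ξ.nS 4 ≤ m → ψ.nS (k + 1) ≤ R ∧ χ.nS (k + 1) ≤ R := by
    rintro k hk1 hk ⟨R, hR⟩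
    obtain ⟨R', hR'⟩ := hχ k hk R
    obtain ⟨C, hC, he⟩ := hD.fo.est hD.gar k
    obtain ⟨C', hC', hr⟩ := G.rho_int k
    refine ⟨max (2 * (C * (C' * (M * R + R * R) + R)) + (C * C' * R') ^ 2 * R) R',
      fun ξ ψ χ hs hξ => ?_⟩
    obtain ⟨h1, h2⟩ := hR ξ ψ χ hs hξ
    have h3 := hR' ξ ψ χ hs hξ h1 h2
    have hM0 : 0 ≤ M := (norm_nonneg _).trans (hsup ξ ψ χ hs hξ 0)
    have p1 := ψ.nS_nonneg k
    have p2 := χ.nS_nonneg k
    have p3 := ψ.nS_nonneg (k + 1)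
    have p4 := χ.nS_nonneg 2
    have hR0 : 0 ≤ R := p1.trans h1
    have h4 : χ.nS 2 ≤ R' := (χ.nS_mono (by omega)).trans h3
    refine ⟨le_max_of_le_left (apri_absorb p3 hR0 ?_), le_max_of_le_right h3⟩
    have h5 : (G.dirac 0 ψ).nS k ≤ C' * (M * R + R * R + R' * √(R * ψ.nS (k + 1))) := by
      rw [hDψ ξ ψ χ hs]
      refine (hr χ ψ M (hsup ξ ψ χ hs hξ)).trans ?_
      gcongr
      exact p4.trans h4
    calc ψ.nS (k + 1) ≤ C * ((G.dirac 0 ψ).nS k + ψ.nS k) := he ψ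
      _ ≤ C * (C' * (M * R + R * R + R' * √(R * ψ.nS (k + 1))) + R) := by gcongr
      _ = _ := by ring
  obtain ⟨R, hR⟩ := bs 3 (by norm_num) (by norm_num)
    (bs 2 (by norm_num) (by norm_num) (bs 1 le_rfl (by norm_num) b1))
  refine ⟨2 * R + 1, fun ξ ψ χ hs hξ => ?_⟩
  obtain ⟨h1, h2⟩ := hR ξ ψ χ hs hξ
  linarith

end SW4
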