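import Pool.Agent.P.MP_0a0487_an.SW.Basic

/-! Integration, norms, integration by parts, closed forms. -/

set_option autoImplicit false
set_option linter.unusedSectionVars false

noncomputable section

namespace SW4

open scoped ComplexOrder ContDiff
open Filter Topology

section integAlg

variable {R : Type} [CommRing R]

/-- The determinant of four 1-forms. -/
def integDet (a b c d : Fin 4 → R) : R := wg (w1 a b) (w1 c d)

/-- The wedge product of a 1-form and a 2-form. -/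
def integTri (a : Fin 4 → R) (b : Fin 4 → Fin 4 → R) (α β γ : Fin 4) : R :=
  a α * b β γ + a β * b γ α + a γ * b α β

theorem integ_wg_comm (b c : Fin 4 → Fin 4 → R) : wg b c = wg c b := by
  simp only [wg]; ring

theorem integ_wg_sum {ι : Type} (S : Finset ι) (b : ι → Fin 4 → Fin 4 → R)
    (c : Fin 4 → Fin 4 → R) :
    wg (fun α β => ∑ i ∈ S, b i α β) c = ∑ i ∈ S, wg (b i) c := by
  simp only [wg, Finset.sum_mul, Finset.sum_add_distrib, Finset.sum_sub_distrib]

theorem integ_wg_mul (x : R) (b c : Fin 4 → Fin 4 → R) :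
    wg (fun α β => x * b α β) c = x * wg b c := by
  simp only [wg]; ring

theorem integDet_sum2 {ι : Type} (S : Finset ι) (x : ι → R) (a c d : Fin 4 → R)
    (b : ι → Fin 4 → R) :
    integDet a (fun μ => ∑ i ∈ S, x i * b i μ) c d = ∑ i ∈ S, x i * integDet a (b i) c d := by
  classical
  induction S using Finset.induction_on with
  | empty => simp [integDet, wg, w1]
  | insert i S hi ih =>
    simp only [Finset.sum_insert hi]
    rw [← ih]
    simp only [integDet, wg, w1]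
    ring

theorem integDet_sum3 {ι : Type} (S : Finset ι) (x : ι → R) (a b d : Fin 4 → R)
    (c : ι → Fin 4 → R) :
    integDet a b (fun μ => ∑ i ∈ S, x i * c i μ) d = ∑ i ∈ S, x i * integDet a b (c i) d := by
  classical
  induction S using Finset.induction_on with
  | empty => simp [integDet, wg, w1]
  | insert i S hi ih =>
    simp only [Finset.sum_insert hi]
    rw [← ih]
    simp only [integDet, wg, w1]
    ring

theorem integDet_sum4 {ι : Type} (S : Finset ι) (x : ι → R) (a b c : Fin 4 → R)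
    (d : ι → Fin 4 → R) :
    integDet a b c (fun μ => ∑ i ∈ S, x i * d i μ) = ∑ i ∈ S, x i * integDet a b c (d i) := by
  classical
  induction S using Finset.induction_on with
  | empty => simp [integDet, wg, w1]
  | insert i S hi ih =>
    simp only [Finset.sum_insert hi]
    rw [← ih]
    simp only [integDet, wg, w1]
    ring

theorem integDet_lin1 (x y : R) (a a' b c d : Fin 4 → R) :
    integDet (fun μ => a μ * x + y * a' μ) b c d = x * integDet a b c d + y * integDet a' b c d := by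
  simp only [integDet, wg, w1]; ring

theorem integDet_tri (a q c d : Fin 4 → R) :
    integDet a q c d = -(q 0 * integTri a (w1 c d) 1 2 3) + q 1 * integTri a (w1 c d) 0 2 3 -
      q 2 * integTri a (w1 c d) 0 1 3 + q 3 * integTri a (w1 c d) 0 1 2 := by
  simp only [integDet, wg, w1, integTri]; ring

theorem integ_exists_compl (α : Fin 4) : ∃ β γ δ : Fin 4,
    -wt β + -wt γ + -wt δ = wt α ∧ ∀ a : Fin 4 → R,
      integDet a (fun μ => if β = μ then 1 else 0) (fun μ => if γ = μ then 1 else 0)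
        (fun μ => if δ = μ then 1 else 0) = a α := by
  fin_cases α
  · exact ⟨1, 2, 3, by decide, fun a => by simp [integDet, wg, w1]⟩
  · exact ⟨0, 3, 2, by decide, fun a => by simp [integDet, wg, w1]⟩
  · exact ⟨3, 0, 1, by decide, fun a => by simp [integDet, wg, w1]⟩
  · exact ⟨2, 1, 0, by decide, fun a => by simp [integDet, wg, w1]⟩

theorem integ_sq_five {a K : ℝ} {b : Fin 4 → ℝ} (ha : 0 ≤ a) (hb : ∀ α, 0 ≤ b α)
    (h1 : a ^ 2 ≤ K) (h2 : ∀ α, b α ^ 2 ≤ K) : (a + ∑ α, b α) ^ 2 ≤ 25 * K := by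
  have hK : 0 ≤ K := (sq_nonneg a).trans h1
  have e1 : a ≤ √K := Real.le_sqrt_of_sq_le h1
  have e2 : ∀ α, b α ≤ √K := fun α => Real.le_sqrt_of_sq_le (h2 α)
  have e3 : a + ∑ α, b α ≤ 5 * √K := by
    rw [Fin.sum_univ_four]
    linarith [e2 0, e2 1, e2 2, e2 3]
  have e4 : 0 ≤ a + ∑ α, b α := add_nonneg ha (Finset.sum_nonneg fun α _ => hb α)
  calc (a + ∑ α, b α) ^ 2 ≤ (5 * √K) ^ 2 := pow_le_pow_left₀ e4 e3 2
    _ = 25 * K := by rw [mul_pow, Real.sq_sqrt hK]; norm_num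

end integAlg

variable {P A : Type} [TopologicalSpace P] [CompactSpace P] [CommRing A] [StarRing A] [Algebra ℂ A]
  [StarModule ℂ A] {B : Base P A}

theorem integ_ev_sq (s : A) (p : P) : B.ev (star s * s) p = ((‖B.ev s p‖ ^ 2 : ℝ) : ℂ) := by
  rw [map_mul, ContinuousMap.mul_apply, B.ev_star, Complex.conj_mul']
  simp

theorem integ_ev_sq_re (s : A) (p : P) : (B.ev (star s * s) p).re = ‖B.ev s p‖ ^ 2 := by
  rw [integ_ev_sq, Complex.ofReal_re]

theorem integ_wg_mem {w : Wt} {b c : Fin 4 → Fin 4 → A}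
    (hb : ∀ α β, b α β ∈ B.W (w + (wt α + wt β))) (hc : ∀ α β, c α β ∈ B.W (wt α + wt β)) :
    wg b c ∈ B.W w := by
  have key : ∀ α β γ δ : Fin 4, wt α + wt β + (wt γ + wt δ) = 0 → b α β * c γ δ ∈ B.W w :=
    fun α β γ δ h => B.mul_mem' (hb α β) (hc γ δ) (by rw [add_assoc, h, add_zero])
  unfold wg
  exact add_mem (sub_mem (add_mem (add_mem (sub_mem (key 0 1 2 3 (by decide))
    (key 0 2 1 3 (by decide))) (key 0 3 1 2 (by decide))) (key 1 2 0 3 (by decide)))
    (key 1 3 0 2 (by decide))) (key 2 3 0 1 (by decide))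

theorem integDet_mem {w : Wt} {a b c d : Fin 4 → A} (ha : ∀ μ, a μ ∈ B.W (w + wt μ))
    (hb : B.Form1 b) (hc : B.Form1 c) (hd : B.Form1 d) : integDet a b c d ∈ B.W w := by
  refine integ_wg_mem (fun α β => ?_) (fun α β => ?_)
  · exact sub_mem (B.mul_mem' (ha α) (hb β) (by abel)) (B.mul_mem' (ha β) (hb α) (by abel))
  · exact sub_mem (B.mul_mem (hc α) (hd β)) (B.mul_mem' (hc β) (hd α) (add_comm _ _))

namespace Pre

variable (G : Pre B)

theorem integ_im {a : A} (h : ∀ p, (B.ev a p).im = 0) : (G.I a).im = 0 := by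
  have h1 : 0 ≤ G.I 1 := G.I_nonneg 1 fun p => by simp
  have h2 : 0 ≤ G.I (a + ((‖B.ev a‖ : ℝ) : ℂ) • (1 : A)) := G.I_nonneg _ fun p => by
    have e : B.ev (a + ((‖B.ev a‖ : ℝ) : ℂ) • (1 : A)) p = B.ev a p + ((‖B.ev a‖ : ℝ) : ℂ) := by
      rw [map_add, map_smul, map_one]; simp
    rw [e, Complex.nonneg_iff]
    have h3 : ‖B.ev a p‖ ≤ ‖B.ev a‖ := (B.ev a).norm_coe_le_norm p
    have h4 := Complex.abs_re_le_norm (B.ev a p)
    have h5 := neg_abs_le (B.ev a p).re
    refine ⟨?_, ?_⟩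
    · rw [Complex.add_re, Complex.ofReal_re]; linarith
    · rw [Complex.add_im, Complex.ofReal_im, h p, add_zero]
  rw [map_add, map_smul, Complex.nonneg_iff] at h2
  rw [Complex.nonneg_iff] at h1
  have h3 := h2.2
  rw [Complex.add_im, smul_eq_mul, Complex.im_ofReal_mul, ← h1.2, mul_zero, add_zero] at h3
  exact h3.symm

theorem I_star (s : A) : G.I (star s) = (starRingEnd ℂ) (G.I s) := by
  have h1 : (G.I (s + star s)).im = 0 := G.integ_im fun p => by
    rw [map_add, ContinuousMap.add_apply, B.ev_star]; simp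
  have h2 : (G.I (Complex.I • (s - star s))).im = 0 := G.integ_im fun p => by
    rw [map_smul, map_sub, ContinuousMap.smul_apply, ContinuousMap.sub_apply, B.ev_star]; simp
  rw [map_add, Complex.add_im] at h1
  rw [map_smul, map_sub, smul_eq_mul, Complex.I_mul_im, Complex.sub_re] at h2
  apply Complex.ext
  · rw [Complex.conj_re]; linarith
  · rw [Complex.conj_im]; linarith

theorem I_re_nonneg {s : A} (h : ∀ p, 0 ≤ (B.ev s p).re) : 0 ≤ (G.I s).re := by
  have h1 : 0 ≤ G.I (s + star s) := G.I_nonneg _ fun p => by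
    rw [map_add, ContinuousMap.add_apply, B.ev_star, Complex.nonneg_iff]
    refine ⟨?_, by simp⟩
    rw [Complex.add_re, Complex.conj_re]
    linarith [h p]
  rw [map_add, G.I_star, Complex.nonneg_iff, Complex.add_re, Complex.conj_re] at h1
  linarith [h1.1]

theorem I_re_mono {s t : A} (h : ∀ p, (B.ev s p).re ≤ (B.ev t p).re) :
    (G.I s).re ≤ (G.I t).re := by
  have h1 : 0 ≤ (G.I (t - s)).re := G.I_re_nonneg fun p => by
    rw [map_sub, ContinuousMap.sub_apply, Complex.sub_re]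
    linarith [h p]
  rw [map_sub, Complex.sub_re] at h1
  linarith

theorem I_norm_le {s t : A} (h : ∀ p, ‖B.ev s p‖ ≤ (B.ev t p).re) : ‖G.I s‖ ≤ (G.I t).re := by
  obtain ⟨c, hc, hc'⟩ := Complex.exists_norm_eq_mul_self (G.I s)
  have h1 : (G.I (c • s)).re ≤ (G.I t).re := G.I_re_mono fun p => by
    refine le_trans (Complex.re_le_norm _) ?_
    rw [map_smul, ContinuousMap.smul_apply, norm_smul, hc, one_mul]
    exact h p
  rwa [map_smul, smul_eq_mul, ← hc', Complex.ofReal_re] at h1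

theorem I_re_pos' {s : A} (hs : B.Re0 s) (h : ∀ p, 0 ≤ (B.ev s p).re)
    (h' : ∃ p, 0 < (B.ev s p).re) : 0 < (G.I s).re := by
  obtain ⟨hs0, him⟩ := B.re0_iff.1 hs
  refine lt_of_le_of_ne (G.I_re_nonneg h) fun h0 => ?_
  have h1 : G.I s = 0 := Complex.ext h0.symm (G.integ_im him)
  have h2 := G.I_def s hs0 (fun p => Complex.nonneg_iff.2 ⟨h p, (him p).symm⟩) h1
  obtain ⟨p, hp⟩ := h'
  rw [h2] at hp
  simp at hp

theorem I_one_pos [Nonempty P] : 0 < (G.I 1).re :=
  G.I_re_pos' ⟨B.one_mem, star_one _⟩ (fun p => by simp)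
    ⟨Classical.arbitrary P, by simp⟩

theorem I_re_pos {s : A} (hs : B.Re0 s) (h : ∀ p, 0 ≤ (B.ev s p).re)
    (h' : ∃ p, 0 < (B.ev s p).re) : 0 < (G.I s).re := G.I_re_pos' hs h h'

theorem nrm_nonneg (s : A) : 0 ≤ G.nrm s := Real.sqrt_nonneg _

theorem integ_sq_nonneg (s : A) : 0 ≤ (G.I (star s * s)).re :=
  G.I_re_nonneg fun p => by rw [integ_ev_sq_re]; positivity

theorem nrm_sq (s : A) : G.nrm s ^ 2 = (G.I (star s * s)).re :=
  Real.sq_sqrt (G.integ_sq_nonneg s)

theorem integ_conj (s t : A) : (starRingEnd ℂ) (G.I (star t * s)) = G.I (star s * t) := by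
  rw [← G.I_star, star_mul, star_star]

/-- The `L²` pairing. -/
@[reducible] def integCore : PreInnerProductSpace.Core ℂ A where
  inner s t := G.I (star s * t)
  conj_inner_symm s t := G.integ_conj s t
  re_inner_nonneg s := G.integ_sq_nonneg s
  add_left s t u := by
    change G.I (star (s + t) * u) = G.I (star s * u) + G.I (star t * u)
    rw [star_add, add_mul, map_add]
  smul_left s t c := by
    change G.I (star (c • s) * t) = (starRingEnd ℂ) c * G.I (star s * t)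
    rw [star_smul, smul_mul_assoc, map_smul]
    rfl

theorem norm_I_le (s t : A) : ‖G.I (star s * t)‖ ≤ G.nrm s * G.nrm t := by
  have h : ‖G.I (star s * t)‖ * ‖G.I (star t * s)‖ ≤
      (G.I (star s * s)).re * (G.I (star t * t)).re :=
    @InnerProductSpace.Core.inner_mul_inner_self_le ℂ A _ _ _ G.integCore s t
  rw [← G.integ_conj t s, Complex.norm_conj, ← G.nrm_sq, ← G.nrm_sq, ← mul_pow, ← sq] at h
  exact (pow_le_pow_iff_left₀ (norm_nonneg _)
    (mul_nonneg (G.nrm_nonneg s) (G.nrm_nonneg t)) two_ne_zero).1 h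

theorem nrm_zero : G.nrm 0 = 0 := by simp [nrm]

theorem nrm_eq_zero {s : A} (hs : B.Hom s) (h : G.nrm s = 0) : s = 0 := by
  obtain ⟨w, hw⟩ := hs
  have h1 := G.nrm_sq s
  rw [h] at h1
  refine B.ext' fun p => ?_
  by_contra hp
  have h2 := G.I_re_pos (B.re0_star_mul hw) (fun q => by rw [integ_ev_sq_re]; positivity)
    ⟨p, by
      rw [integ_ev_sq_re]
      have : B.ev s p ≠ 0 := by simpa using hp
      positivity⟩
  rw [← h1] at h2
  simp at h2

theorem nrm_add (s t : A) : G.nrm (s + t) ≤ G.nrm s + G.nrm t := by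
  refine (pow_le_pow_iff_left₀ (G.nrm_nonneg _)
    (add_nonneg (G.nrm_nonneg s) (G.nrm_nonneg t)) two_ne_zero).1 ?_
  have e : star (s + t) * (s + t) = star s * s + star s * t + star t * s + star t * t := by
    rw [star_add]; ring
  rw [G.nrm_sq, e, map_add, map_add, map_add, Complex.add_re, Complex.add_re, Complex.add_re,
    ← G.nrm_sq, ← G.nrm_sq]
  have h1 := (Complex.re_le_norm _).trans (G.norm_I_le s t)
  have h2 := (Complex.re_le_norm _).trans (G.norm_I_le t s)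
  nlinarith

theorem nrm_smul (c : ℂ) (s : A) : G.nrm (c • s) = ‖c‖ * G.nrm s := by
  refine (pow_left_inj₀ (G.nrm_nonneg _)
    (mul_nonneg (norm_nonneg c) (G.nrm_nonneg s)) two_ne_zero).1 ?_
  have e : star (c • s) * (c • s) = ((‖c‖ ^ 2 : ℝ) : ℂ) • (star s * s) := by
    rw [star_smul, smul_mul_smul_comm]
    congr 1
    rw [Complex.star_def, Complex.conj_mul']
    simp
  rw [G.nrm_sq, e, map_smul, smul_eq_mul, Complex.re_ofReal_mul, mul_pow, G.nrm_sq]

theorem nrm_neg (s : A) : G.nrm (-s) = G.nrm s := by simp [nrm]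

theorem nrm_star (s : A) : G.nrm (star s) = G.nrm s := by
  unfold nrm
  rw [star_star, mul_comm]

theorem nrm_sum {ι : Type} (S : Finset ι) (s : ι → A) :
    G.nrm (∑ i ∈ S, s i) ≤ ∑ i ∈ S, G.nrm (s i) :=
  Finset.le_sum_of_subadditive G.nrm G.nrm_zero.le G.nrm_add S s

theorem nrm_mono {s t : A} {c : ℝ} (hc : 0 ≤ c) (h : ∀ p, ‖B.ev s p‖ ≤ c * ‖B.ev t p‖) :
    G.nrm s ≤ c * G.nrm t := by
  have e : c * G.nrm t = G.nrm ((c : ℂ) • t) := by
    rw [G.nrm_smul, Complex.norm_real, Real.norm_of_nonneg hc]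
  rw [e]
  refine Real.sqrt_le_sqrt (G.I_re_mono fun p => ?_)
  rw [integ_ev_sq_re, integ_ev_sq_re, map_smul, ContinuousMap.smul_apply, norm_smul,
    Complex.norm_real, Real.norm_of_nonneg hc]
  exact pow_le_pow_left₀ (norm_nonneg _) (h p) 2

theorem nrm_mul_le (c s : A) : G.nrm (c * s) ≤ ‖B.ev c‖ * G.nrm s :=
  G.nrm_mono (norm_nonneg _) fun p => by
    rw [map_mul, ContinuousMap.mul_apply, norm_mul]
    exact mul_le_mul_of_nonneg_right ((B.ev c).norm_coe_le_norm p) (norm_nonneg _)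

theorem nrm_le_sup (s : A) : G.nrm s ≤ ‖B.ev s‖ * G.nrm 1 := by
  simpa using G.nrm_mul_le s 1

/-- Cauchy-Schwarz for the fourth powers. -/
theorem nrm_mul_sq (s t : A) : G.nrm (s * t) ^ 2 ≤ G.nrm (s * s) * G.nrm (t * t) := by
  have e : ∀ u : A, G.nrm (star u * u) = G.nrm (u * u) := fun u => by
    unfold nrm
    congr 3
    simp only [star_mul, star_star]
    ring
  have e2 : star (s * t) * (s * t) = star (star s * s) * (star t * t) := by
    simp only [star_mul, star_star]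
    ring
  rw [G.nrm_sq, e2, ← e s, ← e t]
  exact (Complex.re_le_norm _).trans (G.norm_I_le _ _)

theorem integ_nn_succ (k : ℕ) (s : A) :
    G.nn (k + 1) s = G.nrm s + ∑ α, G.nn k (G.D α s) := rfl

theorem nn_nonneg (k : ℕ) (s : A) : 0 ≤ G.nn k s := by
  induction k generalizing s with
  | zero => exact G.nrm_nonneg s
  | succ k ih => exact add_nonneg (G.nrm_nonneg s) (Finset.sum_nonneg fun α _ => ih _)

theorem nn_zero (k : ℕ) : G.nn k 0 = 0 := by
  induction k with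
  | zero => exact G.nrm_zero
  | succ k ih => simp [integ_nn_succ, G.nrm_zero, ih]

theorem nn_add (k : ℕ) (s t : A) : G.nn k (s + t) ≤ G.nn k s + G.nn k t := by
  induction k generalizing s t with
  | zero => exact G.nrm_add s t
  | succ k ih =>
    simp only [integ_nn_succ, map_add]
    have h1 := G.nrm_add s t
    have h2 : ∑ α, G.nn k (G.D α s + G.D α t) ≤ ∑ α, (G.nn k (G.D α s) + G.nn k (G.D α t)) :=
      Finset.sum_le_sum fun α _ => ih _ _
    rw [Finset.sum_add_distrib] at h2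
    linarith

theorem nn_smul (k : ℕ) (c : ℂ) (s : A) : G.nn k (c • s) = ‖c‖ * G.nn k s := by
  induction k generalizing s with
  | zero => exact G.nrm_smul c s
  | succ k ih => simp only [integ_nn_succ, map_smul, ih, G.nrm_smul, mul_add, Finset.mul_sum]

theorem nn_neg (k : ℕ) (s : A) : G.nn k (-s) = G.nn k s := by
  have := G.nn_smul k (-1) s
  simpa using this

theorem nn_sub (k : ℕ) (s t : A) : G.nn k (s - t) ≤ G.nn k s + G.nn k t := by
  rw [sub_eq_add_neg, ← G.nn_neg k t]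
  exact G.nn_add k s (-t)

theorem nn_star (k : ℕ) (s : A) : G.nn k (star s) = G.nn k s := by
  induction k generalizing s with
  | zero => exact G.nrm_star s
  | succ k ih =>
    rw [integ_nn_succ, integ_nn_succ, G.nrm_star,
      ← sum_bar (fun α => G.nn k (G.D α (star s)))]
    congr 1
    exact Finset.sum_congr rfl fun α _ => by rw [← G.D_star, ih]

theorem nn_sum (k : ℕ) {ι : Type} (S : Finset ι) (s : ι → A) :
    G.nn k (∑ i ∈ S, s i) ≤ ∑ i ∈ S, G.nn k (s i) :=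
  Finset.le_sum_of_subadditive (G.nn k) (G.nn_zero k).le (G.nn_add k) S s

theorem nrm_le_nn' (k : ℕ) (s : A) : G.nrm s ≤ G.nn k s := by
  cases k with
  | zero => exact le_rfl
  | succ k => exact le_add_of_nonneg_right (Finset.sum_nonneg fun α _ => G.nn_nonneg _ _)

theorem nn_mono {k l : ℕ} (h : k ≤ l) (s : A) : G.nn k s ≤ G.nn l s := by
  induction k generalizing l s with
  | zero => exact G.nrm_le_nn' l s
  | succ k ih =>
    obtain ⟨l, rfl⟩ : ∃ l', l = l' + 1 := ⟨l - 1, by omega⟩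
    rw [integ_nn_succ, integ_nn_succ]
    exact add_le_add le_rfl (Finset.sum_le_sum fun α _ => ih (by omega) _)

theorem nrm_le_nn (k : ℕ) (s : A) : G.nrm s ≤ G.nn k s := G.nrm_le_nn' k s

theorem nn_D (k : ℕ) (α : Fin 4) (s : A) : G.nn k (G.D α s) ≤ G.nn (k + 1) s := by
  rw [integ_nn_succ]
  exact le_add_of_nonneg_of_le (G.nrm_nonneg s)
    (Finset.single_le_sum (f := fun α => G.nn k (G.D α s)) (fun β _ => G.nn_nonneg _ _)
      (Finset.mem_univ α))

/-- Multiplication by a fixed element is bounded on every Sobolev space. -/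
theorem nn_mul_le (k : ℕ) (c : A) : ∃ C : ℝ, 0 ≤ C ∧ ∀ s, G.nn k (c * s) ≤ C * G.nn k s := by
  induction k generalizing c with
  | zero => exact ⟨‖B.ev c‖, norm_nonneg _, fun s => G.nrm_mul_le c s⟩
  | succ k ih =>
    choose C hC0 hC using ih
    refine ⟨‖B.ev c‖ + ∑ α, (C (G.D α c) + C c),
      add_nonneg (norm_nonneg _) (Finset.sum_nonneg fun α _ => add_nonneg (hC0 _) (hC0 _)),
      fun s => ?_⟩
    rw [add_mul, Finset.sum_mul, G.integ_nn_succ k (c * s)]
    refine add_le_add ((G.nrm_mul_le c s).trans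
      (mul_le_mul_of_nonneg_left (G.nrm_le_nn _ s) (norm_nonneg _)))
      (Finset.sum_le_sum fun α _ => ?_)
    rw [G.D_mul, add_mul]
    refine (G.nn_add k _ _).trans (add_le_add ?_ ?_)
    · exact (hC _ _).trans (mul_le_mul_of_nonneg_left (G.nn_mono (Nat.le_succ k) s) (hC0 _))
    · exact (hC _ _).trans (mul_le_mul_of_nonneg_left (G.nn_D k α s) (hC0 _))

theorem τ_spec (α : Fin 4) :
    G.τ α ∈ B.W (wt α) ∧ ∀ s ∈ B.W (-wt α), G.I (G.D α s) = -G.I (G.τ α * s) := by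
  refine Classical.epsilon_spec
    (p := fun t => t ∈ B.W (wt α) ∧ ∀ s ∈ B.W (-wt α), G.I (G.D α s) = -G.I (t * s)) ?_
  obtain ⟨β, γ, δ, hw, hdet⟩ := integ_exists_compl (R := A) α
  have he : ∀ k, B.Form1 (G.d0 (G.e k)) := fun k => G.d0_form (G.e_re k).1
  have hg : ∀ k l m, G.θ β k * G.θ γ l * G.θ δ m ∈ B.W (wt α) := fun k l m =>
    B.mul_mem' (B.mul_mem (G.θ_mem β k) (G.θ_mem γ l)) (G.θ_mem δ m) hw
  refine ⟨∑ k, ∑ l, ∑ m, integDet (G.d0 (G.θ β k * G.θ γ l * G.θ δ m)) (G.d0 (G.e k))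
    (G.d0 (G.e l)) (G.d0 (G.e m)), ?_, fun s hs => ?_⟩
  · exact Submodule.sum_mem _ fun k _ => Submodule.sum_mem _ fun l _ =>
      Submodule.sum_mem _ fun m _ =>
        integDet_mem (fun μ => G.D_mem μ (hg k l m)) (he k) (he l) (he m)
  · have hu : ∀ ν : Fin 4, (fun μ => if ν = μ then (1 : A) else 0) =
        fun μ => ∑ k, G.θ ν k * G.d0 (G.e k) μ := fun ν => funext fun μ => (G.θ_dual ν μ).symm
    have h1 := hdet (G.d0 s)
    rw [hu, hu, hu, integDet_sum2] at h1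
    simp only [integDet_sum3] at h1
    simp only [integDet_sum4] at h1
    have h2 : G.D α s + (∑ k, ∑ l, ∑ m, integDet (G.d0 (G.θ β k * G.θ γ l * G.θ δ m))
        (G.d0 (G.e k)) (G.d0 (G.e l)) (G.d0 (G.e m))) * s =
        ∑ k, ∑ l, ∑ m, wg (G.dd (s * (G.θ β k * G.θ γ l * G.θ δ m)) (G.e k))
          (G.dd (G.e l) (G.e m)) := by
      have h3 : G.D α s = G.d0 s α := rfl
      rw [h3, ← h1]
      simp only [Finset.mul_sum, Finset.sum_mul, ← Finset.sum_add_distrib]
      refine Finset.sum_congr rfl fun k _ => Finset.sum_congr rfl fun l _ =>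
        Finset.sum_congr rfl fun m _ => ?_
      have h4 : G.d0 (s * (G.θ β k * G.θ γ l * G.θ δ m)) = fun μ =>
          G.d0 s μ * (G.θ β k * G.θ γ l * G.θ δ m) + s * G.d0 (G.θ β k * G.θ γ l * G.θ δ m) μ :=
        funext fun μ => G.D_mul μ _ _
      change _ = integDet (G.d0 (s * (G.θ β k * G.θ γ l * G.θ δ m))) (G.d0 (G.e k))
        (G.d0 (G.e l)) (G.d0 (G.e m))
      rw [h4, integDet_lin1]
      ring
    have h5 := congrArg G.I h2
    rw [map_add] at h5
    simp only [map_sum] at h5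
    rw [Finset.sum_eq_zero fun k _ => Finset.sum_eq_zero fun l _ => Finset.sum_eq_zero fun m _ =>
      G.stokes _ (B.mul_mem' hs (hg k l m) (neg_add_cancel _)) _ (G.e_re k).1 _ (G.e_re l).1 _
        (G.e_re m).1] at h5
    exact eq_neg_of_add_eq_zero_left h5

theorem τ_unique (α : Fin 4) {t : A} (ht : t ∈ B.W (wt α))
    (h : ∀ s ∈ B.W (-wt α), G.I (G.D α s) = -G.I (t * s)) : t = G.τ α := by
  obtain ⟨h1, h2⟩ := G.τ_spec α
  have h3 : t - G.τ α ∈ B.W (wt α) := sub_mem ht h1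
  have h4 := h _ (B.star_mem h3)
  rw [h2 _ (B.star_mem h3), neg_inj] at h4
  refine sub_eq_zero.1 (G.nrm_eq_zero ⟨_, h3⟩ ?_)
  unfold nrm
  rw [mul_comm, sub_mul, map_sub, h4, sub_self, Complex.zero_re, Real.sqrt_zero]

theorem τ_star (α : Fin 4) : star (G.τ α) = G.τ (bar α) := by
  obtain ⟨h1, h2⟩ := G.τ_spec α
  refine G.τ_unique (bar α) (B.star_mem' h1 (wt_bar α).symm) fun s hs => ?_
  have h3 : star s ∈ B.W (-wt α) := B.star_mem' hs (by rw [wt_bar, neg_neg])
  have h4 := G.D_star α (star s)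
  rw [star_star] at h4
  rw [← h4, G.I_star, h2 _ h3, map_neg, ← G.I_star, star_mul, star_star, mul_comm]

/-- Integration by parts. -/
theorem ibp {u v : Wt} {s t : A} (α : Fin 4) (hs : s ∈ B.W u) (ht : t ∈ B.W v)
    (h : u + v + wt α = 0) :
    G.I (G.D α s * t) = -G.I (s * (G.D α t + G.τ α * t)) := by
  have h1 := (G.τ_spec α).2 _ (B.mul_mem' hs ht (eq_neg_of_add_eq_zero_left h))
  rw [G.D_mul, map_add] at h1
  have e : s * (G.D α t + G.τ α * t) = s * G.D α t + G.τ α * (s * t) := by ring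
  rw [e, map_add]
  linear_combination h1

theorem ibpX {a : Fin 4 → A} (ha : B.Re1 a) {u v : Wt} {s t : A} (α : Fin 4) (hs : s ∈ B.W u)
    (ht : t ∈ B.W v) (h : u + wt α = v) :
    G.I (star (G.X a α s) * t) = -G.I (star s * (G.X a (bar α) t + G.τ (bar α) * t)) := by
  have h0 : star s * t ∈ B.W (-wt (bar α)) :=
    B.mul_mem' (B.star_mem hs) ht (by rw [← h, wt_bar]; abel)
  have h1 := (G.τ_spec (bar α)).2 _ h0
  rw [G.D_star_mul ha, bar_bar, map_add] at h1
  have e : star s * (G.X a (bar α) t + G.τ (bar α) * t) =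
      star s * G.X a (bar α) t + G.τ (bar α) * (star s * t) := by ring
  rw [e, map_add]
  linear_combination h1

theorem Lap_re {u : A} (hu : B.Re0 u) : B.Re0 (G.Lap u) := by
  refine ⟨neg_mem (Submodule.sum_mem _ fun α _ => add_mem
    (G.D_mem' _ (G.D_mem α hu.1) (by rw [wt_bar]; abel))
    (B.mul_mem' (G.τ_spec (bar α)).1 (G.D_mem α hu.1) (by rw [wt_bar]; abel))), ?_⟩
  unfold Lap
  rw [star_neg, star_sum,
    ← sum_bar (fun α => G.D (bar α) (G.D α u) + G.τ (bar α) * G.D α u)]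
  congr 1
  refine Finset.sum_congr rfl fun α _ => ?_
  rw [star_add, star_mul', G.D_star, G.D_star, G.τ_star, hu.2]

theorem I_mul_Lap {u v : A} (hu : u ∈ B.W 0) (hv : v ∈ B.W 0) :
    G.I (v * G.Lap u) = ∑ α, G.I (G.D (bar α) v * G.D α u) := by
  unfold Lap
  rw [mul_neg, map_neg, Finset.mul_sum, map_sum, ← Finset.sum_neg_distrib]
  exact Finset.sum_congr rfl fun α _ =>
    (G.ibp (bar α) hv (G.D_mem α hu) (by rw [wt_bar]; abel)).symm

theorem Lap_star_mul {a : Fin 4 → A} (ha : B.Re1 a) (s : A) :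
    G.Lap (star s * s) = star s * G.LapX a s + star (star s * G.LapX a s) -
      2 * ∑ α, star (G.X a α s) * G.X a α s := by
  have b0 : bar 0 = 1 := rfl
  have b1 : bar 1 = 0 := rfl
  have b2 : bar 2 = 3 := rfl
  have b3 : bar 3 = 2 := rfl
  unfold Lap LapX
  simp only [G.D_star_mul ha, map_add, Fin.sum_univ_four, star_mul', star_add, star_neg,
    star_star, G.τ_star, b0, b1, b2, b3]
  ring

/-- Interpolation between Sobolev norms. -/
theorem interp (k : ℕ) : ∃ C : ℝ, 0 ≤ C ∧ ∀ s, B.Hom s →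
    G.nn (k + 1) s ^ 2 ≤ C * (G.nn k s * G.nn (k + 2) s) := by
  have h0 : ∀ (k l : ℕ) (s : A), G.nrm s ^ 2 ≤ G.nn k s * G.nn l s := fun k l s => by
    rw [sq]
    exact mul_le_mul (G.nrm_le_nn k s) (G.nrm_le_nn l s) (G.nrm_nonneg s) (G.nn_nonneg k s)
  induction k with
  | zero =>
    have hT : 0 ≤ ∑ β, ‖B.ev (G.τ β)‖ := Finset.sum_nonneg fun β _ => norm_nonneg _
    refine ⟨25 * (1 + ∑ β, ‖B.ev (G.τ β)‖), by positivity, fun s hs => ?_⟩
    obtain ⟨w, hw⟩ := hs
    have hp : 0 ≤ G.nn 0 s * G.nn 2 s := mul_nonneg (G.nn_nonneg _ _) (G.nn_nonneg _ _)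
    rw [integ_nn_succ, mul_assoc]
    refine integ_sq_five (G.nrm_nonneg s) (fun α => G.nn_nonneg _ _) ?_ fun α => ?_
    · have := h0 0 2 s
      nlinarith [mul_nonneg hT hp]
    · have h1 := G.ibp (bar α) (B.star_mem hw) (G.D_mem α hw) (by rw [wt_bar]; abel)
      rw [← G.D_star] at h1
      have h2 : G.nn 0 (G.D α s) ^ 2 = (G.I (star (G.D α s) * G.D α s)).re := G.nrm_sq _
      rw [h2, h1]
      refine (Complex.re_le_norm _).trans ?_
      rw [norm_neg]
      refine (G.norm_I_le _ _).trans ?_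
      have h3 : G.nrm (G.D (bar α) (G.D α s)) ≤ G.nn 2 s :=
        (G.nn_D 0 (bar α) (G.D α s)).trans (G.nn_D 1 α s)
      have h4 : G.nrm (G.D α s) ≤ G.nn 2 s := (G.nrm_le_nn 1 _).trans (G.nn_D 1 α s)
      have h5 : ‖B.ev (G.τ (bar α))‖ ≤ ∑ β, ‖B.ev (G.τ β)‖ :=
        Finset.single_le_sum (f := fun β => ‖B.ev (G.τ β)‖) (fun β _ => norm_nonneg _)
          (Finset.mem_univ _)
      have h6 : G.nrm (G.τ (bar α) * G.D α s) ≤ (∑ β, ‖B.ev (G.τ β)‖) * G.nn 2 s :=
        (G.nrm_mul_le _ _).trans (mul_le_mul h5 h4 (G.nrm_nonneg _) hT)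
      have h7 := (G.nrm_add _ _).trans (add_le_add h3 h6)
      calc G.nrm s * G.nrm (G.D (bar α) (G.D α s) + G.τ (bar α) * G.D α s)
          ≤ G.nrm s * (G.nn 2 s + (∑ β, ‖B.ev (G.τ β)‖) * G.nn 2 s) :=
            mul_le_mul_of_nonneg_left h7 (G.nrm_nonneg s)
        _ = (1 + ∑ β, ‖B.ev (G.τ β)‖) * (G.nn 0 s * G.nn 2 s) := by
            change _ = _ * (G.nrm s * _)
            ring
  | succ k ih =>
    obtain ⟨C, hC0, hC⟩ := ih
    refine ⟨25 * (1 + C), by positivity, fun s hs => ?_⟩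
    have hp : 0 ≤ G.nn (k + 1) s * G.nn (k + 1 + 2) s :=
      mul_nonneg (G.nn_nonneg _ _) (G.nn_nonneg _ _)
    rw [G.integ_nn_succ (k + 1), mul_assoc]
    refine integ_sq_five (G.nrm_nonneg s) (fun α => G.nn_nonneg _ _) ?_ fun α => ?_
    · have := h0 (k + 1) (k + 1 + 2) s
      nlinarith [mul_nonneg hC0 hp]
    · have h1 := hC _ (G.D_hom α hs)
      have h2 : G.nn k (G.D α s) * G.nn (k + 2) (G.D α s) ≤
          G.nn (k + 1) s * G.nn (k + 1 + 2) s :=
        mul_le_mul (G.nn_D k α s) (G.nn_D (k + 2) α s) (G.nn_nonneg _ _) (G.nn_nonneg _ _)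
      nlinarith [mul_le_mul_of_nonneg_left h2 hC0]

/-- Bounded in all Sobolev norms and Cauchy in `L²` implies Cauchy in all Sobolev norms. -/
theorem cauchy_nn {w : Wt} {v : ℕ → A} (hv : ∀ n, v n ∈ B.W w)
    (hb : ∀ k, ∃ C : ℝ, ∀ n, G.nn k (v n) ≤ C)
    (hc : ∀ ε > 0, ∃ n₀, ∀ m ≥ n₀, ∀ n ≥ n₀, G.nrm (v m - v n) ≤ ε) :
    ∀ k, ∀ ε > 0, ∃ n₀, ∀ m ≥ n₀, ∀ n ≥ n₀, G.nn k (v m - v n) ≤ ε := by
  intro k
  induction k with
  | zero => exact hc
  | succ k ih =>
    intro ε hε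
    obtain ⟨C, hC0, hC⟩ := G.interp k
    obtain ⟨C', hC'⟩ := hb (k + 2)
    have hC'0 : 0 ≤ C' := (G.nn_nonneg _ _).trans (hC' 0)
    have hD : 0 < C * (C' + C') + 1 := by positivity
    obtain ⟨n₀, hn₀⟩ := ih (ε ^ 2 / (C * (C' + C') + 1)) (by positivity)
    refine ⟨n₀, fun m hm n hn => ?_⟩
    refine (pow_le_pow_iff_left₀ (G.nn_nonneg _ _) hε.le two_ne_zero).1 ?_
    have h1 := hC _ ⟨w, sub_mem (hv m) (hv n)⟩
    have h2 : G.nn (k + 2) (v m - v n) ≤ C' + C' :=
      (G.nn_sub _ _ _).trans (add_le_add (hC' m) (hC' n))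
    have h3 : G.nn k (v m - v n) * G.nn (k + 2) (v m - v n) ≤
        ε ^ 2 / (C * (C' + C') + 1) * (C' + C') :=
      mul_le_mul (hn₀ m hm n hn) h2 (G.nn_nonneg _ _) (by positivity)
    calc G.nn (k + 1) (v m - v n) ^ 2 ≤ C * (ε ^ 2 / (C * (C' + C') + 1) * (C' + C')) :=
          h1.trans (mul_le_mul_of_nonneg_left h3 hC0)
      _ = ε ^ 2 * (C * (C' + C') / (C * (C' + C') + 1)) := by ring
      _ ≤ ε ^ 2 * 1 :=
          mul_le_mul_of_nonneg_left ((div_le_one hD).2 (by linarith)) (sq_nonneg ε)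
      _ = ε ^ 2 := mul_one _

/-- Bounded in all Sobolev norms and null in `L²` implies null in all Sobolev norms. -/
theorem tendsto_nn {w : Wt} {v : ℕ → A} (hv : ∀ n, v n ∈ B.W w)
    (hb : ∀ k, ∃ C : ℝ, ∀ n, G.nn k (v n) ≤ C)
    (hc : Tendsto (fun n => G.nrm (v n)) atTop (𝓝 0)) (k : ℕ) :
    Tendsto (fun n => G.nn k (v n)) atTop (𝓝 0) := by
  induction k with
  | zero => exact hc
  | succ k ih =>
    obtain ⟨C, hC0, hC⟩ := G.interp k
    obtain ⟨C', hC'⟩ := hb (k + 2)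
    have h1 : Tendsto (fun n => √(C * (G.nn k (v n) * C'))) atTop (𝓝 0) := by
      have := ((ih.mul_const C').const_mul C).sqrt
      simpa using this
    refine squeeze_zero (fun n => G.nn_nonneg _ _) (fun n => Real.le_sqrt_of_sq_le ?_) h1
    exact (hC _ ⟨w, hv n⟩).trans (mul_le_mul_of_nonneg_left
      (mul_le_mul_of_nonneg_left (hC' n) (G.nn_nonneg _ _)) hC0)

theorem closed_dd {p q : A} (hp : p ∈ B.W 0) (hq : q ∈ B.W 0) : G.Closed (G.dd p q) :=
  fun r hr s hs => G.stokes p hp q hq r hr s hs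

theorem integ_d1_eq (a : Fin 4 → A) :
    G.d1 a = fun α β => ∑ k, G.dd (∑ γ, a γ * G.θ γ k) (G.e k) α β :=
  funext fun α => funext fun β => G.d1_eq a α β

theorem closed_d1 {a : Fin 4 → A} (ha : B.Form1 a) : G.Closed (G.d1 a) := by
  intro p hp q hq
  rw [G.integ_d1_eq, integ_wg_sum, map_sum]
  exact Finset.sum_eq_zero fun k _ =>
    G.stokes _ (G.form1_coef_mem ha k) _ (G.e_re k).1 p hp q hq

theorem Closed.d1 {G : Pre B} {b : Fin 4 → Fin 4 → A} (hb : G.Closed b) {a : Fin 4 → A}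
    (ha : B.Form1 a) : G.I (wg b (G.d1 a)) = 0 := by
  rw [integ_wg_comm, G.integ_d1_eq, integ_wg_sum, map_sum]
  refine Finset.sum_eq_zero fun k _ => ?_
  rw [integ_wg_comm]
  exact hb _ (G.form1_coef_mem ha k) _ (G.e_re k).1

theorem integ_d2_sum {ι : Type} (S : Finset ι) (f : ι → Fin 4 → Fin 4 → A) (α β γ : Fin 4) :
    G.d2 (fun μ ν => ∑ i ∈ S, f i μ ν) α β γ = ∑ i ∈ S, G.d2 (f i) α β γ := by
  have h : ∀ α β γ, G.d2t (fun μ ν => ∑ i ∈ S, f i μ ν) α β γ = ∑ i ∈ S, G.d2t (f i) α β γ := by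
    intro α β γ
    simp only [Calc.d2t, map_sum, Finset.sum_sub_distrib, Finset.mul_sum]
    rw [Finset.sum_comm]
  simp only [Calc.d2, h, Finset.sum_add_distrib]

theorem closed_of_d2 {b : Fin 4 → Fin 4 → A} (hb : B.Form2 b)
    (h : ∀ α β γ, G.d2 b α β γ = 0) : G.Closed b := by
  intro p hp q hq
  obtain ⟨c, hc⟩ : ∃ c : Fin G.N × Fin G.N → A, ∀ i,
      c i = (1 / 2 : ℂ) • ∑ γ, ∑ δ, b γ δ * G.θ γ i.1 * G.θ δ i.2 := ⟨_, fun _ => rfl⟩
  have hcm : ∀ i, c i ∈ B.W 0 := fun i => by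
    rw [hc]
    exact Submodule.smul_mem _ _ (Submodule.sum_mem _ fun γ _ => Submodule.sum_mem _ fun δ _ =>
      B.mul_mem' (B.mul_mem (hb γ δ).1 (G.θ_mem γ i.1)) (G.θ_mem δ i.2) (by abel))
  have hbe : b = fun α β => ∑ i, c i * G.dd (G.e i.1) (G.e i.2) α β := by
    funext α β
    rw [G.form2_eq (fun α β => (hb α β).2) α β, Fintype.sum_prod_type]
    simp only [hc]
  have htri : ∀ α β γ, ∑ i, integTri (G.d0 (c i)) (G.dd (G.e i.1) (G.e i.2)) α β γ = 0 := by
    intro α β γ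
    rw [← h α β γ, hbe, G.integ_d2_sum]
    exact Finset.sum_congr rfl fun i _ =>
      (G.d2_mul_dd (c i) (G.e_re i.1).1 (G.e_re i.2).1 α β γ).symm
  have h1 : ∑ i, integDet (G.d0 (c i)) (G.d0 q) (G.d0 (G.e i.1)) (G.d0 (G.e i.2)) = 0 := by
    simp only [integDet_tri, Finset.sum_add_distrib, Finset.sum_sub_distrib,
      Finset.sum_neg_distrib, ← Finset.mul_sum]
    have e := htri
    unfold Calc.dd at e
    simp only [e, mul_zero, neg_zero, add_zero, sub_zero]
  have h2 : wg b (G.dd p q) = ∑ i, wg (G.dd (p * c i) q) (G.dd (G.e i.1) (G.e i.2)) := by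
    have h3 : ∀ i, wg (G.dd (p * c i) q) (G.dd (G.e i.1) (G.e i.2)) =
        c i * wg (G.dd (G.e i.1) (G.e i.2)) (G.dd p q) +
          p * integDet (G.d0 (c i)) (G.d0 q) (G.d0 (G.e i.1)) (G.d0 (G.e i.2)) := by
      intro i
      have h4 : G.d0 (p * c i) = fun μ => G.d0 p μ * c i + p * G.d0 (c i) μ :=
        funext fun μ => G.D_mul μ _ _
      change integDet (G.d0 (p * c i)) (G.d0 q) (G.d0 (G.e i.1)) (G.d0 (G.e i.2)) = _
      rw [h4, integDet_lin1, integ_wg_comm]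
      rfl
    simp only [h3, Finset.sum_add_distrib, ← Finset.mul_sum, h1, mul_zero, add_zero]
    conv_lhs => rw [hbe]
    rw [integ_wg_sum]
    exact Finset.sum_congr rfl fun i _ => integ_wg_mul _ _ _
  rw [h2, map_sum]
  exact Finset.sum_eq_zero fun i _ =>
    G.stokes _ (B.mul_mem' hp (hcm i) (add_zero _)) _ hq _ (G.e_re i.1).1 _ (G.e_re i.2).1

theorem closed_F (j : Fin 2) : G.Closed (G.F j) :=
  G.closed_of_d2 (G.F_form j) (G.d2_F j)

theorem AK.d1 {G : Pre B} (h : G.AK) {a : Fin 4 → A} (ha : B.Form1 a) :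
    G.I (lam (G.d1 a)) = 0 := by
  have e : lam (G.d1 a) = ∑ k, lam (G.dd (∑ γ, a γ * G.θ γ k) (G.e k)) := by
    simp only [lam, G.d1_eq, Finset.sum_add_distrib]
  rw [e, map_sum]
  exact Finset.sum_eq_zero fun k _ => h _ (G.form1_coef_mem ha k) _ (G.e_re k).1

end Pre

end SW4
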