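import Pool.Agent.P.MP_0a0487_an.SW.DynDefs
import Pool.Agent.P.MP_0a0487_an.SW.Chg

/-! Pointwise calculus with real tangent vectors. -/

set_option autoImplicit false
set_option linter.unusedSectionVars false

noncomputable section

namespace SW4

open scoped ComplexOrder ContDiff
open Filter Topology

variable {P A : Type} [TopologicalSpace P] [CompactSpace P] [CommRing A] [StarRing A] [Algebra ℂ A]
  [StarModule ℂ A] {B : Base P A}

open Matrix

theorem cx_add (v v' : Fin 4 → ℝ) : cx (v + v') = cx v + cx v' := by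
  funext α
  fin_cases α <;> simp [cx] <;> ring

theorem cx_smul (c : ℝ) (v : Fin 4 → ℝ) : cx (c • v) = (c : ℂ) • cx v := by
  funext α
  fin_cases α <;> simp [cx] <;> ring

theorem cx_bar (v : Fin 4 → ℝ) (α : Fin 4) : cx v (bar α) = (starRingEnd ℂ) (cx v α) := by
  fin_cases α <;> simp [cx, bar, map_ofNat] <;> ring

theorem mapA_norm (x y : ℝ) (σ : ℝ) (hσ : |σ| = 1) {r : ℝ} (hx : ‖x‖ ≤ r) (hy : ‖y‖ ≤ r) :
    ‖((x : ℂ) + σ * (y * Complex.I)) / 2‖ ≤ r := by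
  have h := norm_add_le (x : ℂ) (σ * (y * Complex.I))
  simp only [norm_mul, Complex.norm_real, Complex.norm_I, Real.norm_eq_abs, hσ] at h hx hy
  rw [norm_div, Complex.norm_two]
  linarith

theorem norm_cx_le (v : Fin 4 → ℝ) (α : Fin 4) : ‖cx v α‖ ≤ ‖v‖ := by
  have h := norm_le_pi_norm v
  fin_cases α
  · simpa [cx] using mapA_norm (v 0) (v 1) 1 abs_one (h 0) (h 1)
  · simpa [cx, sub_eq_add_neg] using mapA_norm (v 0) (v 1) (-1) (by simp) (h 0) (h 1)
  · simpa [cx] using mapA_norm (v 2) (v 3) 1 abs_one (h 2) (h 3)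
  · simpa [cx, sub_eq_add_neg] using mapA_norm (v 2) (v 3) (-1) (by simp) (h 2) (h 3)

theorem norm_sq_le_cx (v : Fin 4 → ℝ) : ‖v‖ ^ 2 ≤ 4 * (‖cx v 0‖ ^ 2 + ‖cx v 2‖ ^ 2) := by
  have e : 4 * (‖cx v 0‖ ^ 2 + ‖cx v 2‖ ^ 2) = v 0 ^ 2 + v 1 ^ 2 + v 2 ^ 2 + v 3 ^ 2 := by
    rw [Complex.sq_norm, Complex.sq_norm, Complex.normSq_apply, Complex.normSq_apply]
    simp [cx]
    ring
  rw [e]
  have h : ‖v‖ ≤ √(v 0 ^ 2 + v 1 ^ 2 + v 2 ^ 2 + v 3 ^ 2) := by
    refine (pi_norm_le_iff_of_nonneg (Real.sqrt_nonneg _)).2 fun i => Real.abs_le_sqrt ?_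
    have h0 := sq_nonneg (v 0)
    have h1 := sq_nonneg (v 1)
    have h2 := sq_nonneg (v 2)
    have h3 := sq_nonneg (v 3)
    fin_cases i
    · change v 0 ^ 2 ≤ _
      linarith
    · change v 1 ^ 2 ≤ _
      linarith
    · change v 2 ^ 2 ≤ _
      linarith
    · change v 3 ^ 2 ≤ _
      linarith
  exact (Real.le_sqrt (norm_nonneg _) (by positivity)).1 h

theorem det_cx (u : Matrix (Fin 4) (Fin 4) ℝ) :
    (Matrix.of fun i => cx (u i)).det = -((u.det : ℂ) / 4) := by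
  have e : (Matrix.of fun i => cx (u i)) = u.map (Complex.ofRealHom : ℝ → ℂ) *
      !![1 / 2, 1 / 2, 0, 0; Complex.I / 2, -Complex.I / 2, 0, 0;
        0, 0, 1 / 2, 1 / 2; 0, 0, Complex.I / 2, -Complex.I / 2] := by
    ext i j
    fin_cases j <;> simp [cx, Matrix.mul_apply, Fin.sum_univ_four] <;> ring
  have d : (!![1 / 2, 1 / 2, 0, 0; Complex.I / 2, -Complex.I / 2, 0, 0;
      0, 0, 1 / 2, 1 / 2; 0, 0, Complex.I / 2, -Complex.I / 2] : Matrix (Fin 4) (Fin 4) ℂ).det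
      = -(1 / 4) := by
    simp [Matrix.det_succ_row_zero, Fin.sum_univ_succ, Fin.succAbove]
    linear_combination (1 / 4) * Complex.I_mul_I
  rw [e, Matrix.det_mul, d, ← RingHom.mapMatrix_apply, ← RingHom.map_det]
  simp only [Complex.ofRealHom_eq_coe]
  ring

namespace Base

theorem mapA_ext {x y : Fin 4 → ℂ} (h : ∀ v, ∑ α, cx v α * x α = ∑ α, cx v α * y α) : x = y := by
  have h0 := h (Pi.single 0 1)
  have h1 := h (Pi.single 1 1)
  have h2 := h (Pi.single 2 1)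
  have h3 := h (Pi.single 3 1)
  simp [cx, Fin.sum_univ_four] at h0 h1 h2 h3
  funext α
  fin_cases α
  · change x 0 = y 0
    linear_combination h0 - Complex.I * h1 + (x 0 - x 1 - y 0 + y 1) / 2 * Complex.I_mul_I
  · change x 1 = y 1
    linear_combination h0 + Complex.I * h1 - (x 0 - x 1 - y 0 + y 1) / 2 * Complex.I_mul_I
  · change x 2 = y 2
    linear_combination h2 - Complex.I * h3 + (x 2 - x 3 - y 2 + y 3) / 2 * Complex.I_mul_I
  · change x 3 = y 3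
    linear_combination h2 + Complex.I * h3 - (x 2 - x 3 - y 2 + y 3) / 2 * Complex.I_mul_I

theorem b2_add_left (b : Fin 4 → Fin 4 → A) (p : P) (u v w : Fin 4 → ℝ) :
    B.b2 b p (u + v) w = B.b2 b p u w + B.b2 b p v w := by
  simp only [b2, cx_add, Pi.add_apply, add_mul, Finset.sum_add_distrib]

theorem b2_add_right (b : Fin 4 → Fin 4 → A) (p : P) (u v w : Fin 4 → ℝ) :
    B.b2 b p u (v + w) = B.b2 b p u v + B.b2 b p u w := by
  simp only [b2, cx_add, Pi.add_apply, add_mul, mul_add, Finset.sum_add_distrib]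

theorem b2_smul_left (b : Fin 4 → Fin 4 → A) (p : P) (c : ℝ) (u v : Fin 4 → ℝ) :
    B.b2 b p (c • u) v = c * B.b2 b p u v := by
  simp only [b2, cx_smul, Pi.smul_apply, smul_eq_mul, Finset.mul_sum, mul_assoc]

theorem b2_smul_right (b : Fin 4 → Fin 4 → A) (p : P) (c : ℝ) (u v : Fin 4 → ℝ) :
    B.b2 b p u (c • v) = c * B.b2 b p u v := by
  simp only [b2, cx_smul, Pi.smul_apply, smul_eq_mul, Finset.mul_sum]
  exact Finset.sum_congr rfl fun _ _ => Finset.sum_congr rfl fun _ _ => by ring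

theorem b2_add (a b : Fin 4 → Fin 4 → A) (p : P) (u v : Fin 4 → ℝ) :
    B.b2 (a + b) p u v = B.b2 a p u v + B.b2 b p u v := by
  simp only [b2, Pi.add_apply, map_add, ContinuousMap.add_apply, mul_add, Finset.sum_add_distrib]

theorem b2_sub (a b : Fin 4 → Fin 4 → A) (p : P) (u v : Fin 4 → ℝ) :
    B.b2 (a - b) p u v = B.b2 a p u v - B.b2 b p u v := by
  simp only [b2, Pi.sub_apply, map_sub, ContinuousMap.sub_apply, mul_sub, Finset.sum_sub_distrib]

theorem b2_smul (c : ℂ) (b : Fin 4 → Fin 4 → A) (p : P) (u v : Fin 4 → ℝ) :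
    B.b2 (c • b) p u v = c * B.b2 b p u v := by
  simp only [b2, Pi.smul_apply, map_smul, ContinuousMap.smul_apply, smul_eq_mul, Finset.mul_sum]
  exact Finset.sum_congr rfl fun _ _ => Finset.sum_congr rfl fun _ _ => by ring

theorem b2_mul (s : A) (b : Fin 4 → Fin 4 → A) (p : P) (u v : Fin 4 → ℝ) :
    B.b2 (fun α β => s * b α β) p u v = B.ev s p * B.b2 b p u v := by
  simp only [b2, map_mul, ContinuousMap.mul_apply, Finset.mul_sum]
  exact Finset.sum_congr rfl fun _ _ => Finset.sum_congr rfl fun _ _ => by ring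

theorem b2_le (b : Fin 4 → Fin 4 → A) (p : P) (u v : Fin 4 → ℝ) :
    ‖B.b2 b p u v‖ ≤ 16 * ‖B.ev2 b‖ * ‖u‖ * ‖v‖ := by
  have h : ∀ α β, ‖cx u α * cx v β * B.ev (b α β) p‖ ≤ ‖B.ev2 b‖ * ‖u‖ * ‖v‖ := fun α β => by
    have h1 : ‖B.ev (b α β) p‖ ≤ ‖B.ev2 b‖ :=
      ((B.ev (b α β)).norm_coe_le_norm p).trans
        ((norm_le_pi_norm (B.ev2 b α) β).trans (norm_le_pi_norm (B.ev2 b) α))
    rw [norm_mul, norm_mul]
    calc _ ≤ ‖u‖ * ‖v‖ * ‖B.ev2 b‖ := by
          gcongr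
          exacts [norm_cx_le u α, norm_cx_le v β]
      _ = _ := by ring
  refine (norm_sum_le _ _).trans ((Finset.sum_le_sum fun α _ => (norm_sum_le _ _).trans
    (Finset.sum_le_sum fun β _ => h α β)).trans_eq ?_)
  simp only [Finset.sum_const, Finset.card_univ, Fintype.card_fin, nsmul_eq_mul]
  ring

theorem ext_b2 {a b : Fin 4 → Fin 4 → A} (h : ∀ p u v, B.b2 a p u v = B.b2 b p u v) : a = b := by
  funext α β
  refine B.ext' fun p => ?_
  have h1 : ∀ v, (fun α => ∑ β, cx v β * B.ev (a α β) p) =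
      fun α => ∑ β, cx v β * B.ev (b α β) p := fun v => mapA_ext fun u => by
    simpa only [b2, Finset.mul_sum, mul_assoc] using h p u v
  exact congrFun (mapA_ext (x := fun β => B.ev (a α β) p) (y := fun β => B.ev (b α β) p)
    fun v => congrFun (h1 v) α) β

theorem Form2.b2_anti {b : Fin 4 → Fin 4 → A} (hb : B.Form2 b) (p : P) (u v : Fin 4 → ℝ) :
    B.b2 b p v u = -B.b2 b p u v := by
  rw [b2, b2, Finset.sum_comm, ← Finset.sum_neg_distrib]
  refine Finset.sum_congr rfl fun α _ => ?_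
  rw [← Finset.sum_neg_distrib]
  refine Finset.sum_congr rfl fun β _ => ?_
  rw [(hb α β).2, map_neg, ContinuousMap.neg_apply]
  ring

theorem Re2.b2_im {b : Fin 4 → Fin 4 → A} (hb : B.Re2 b) (p : P) (u v : Fin 4 → ℝ) :
    (B.b2 b p u v).im = 0 := by
  rw [← Complex.conj_eq_iff_im, b2]
  simp only [map_sum, map_mul, ← cx_bar, ← B.ev_star, hb.2]
  rw [← sum_bar fun α => ∑ β, cx u α * cx v β * B.ev (b α β) p]
  exact Finset.sum_congr rfl fun α _ =>
    sum_bar fun β => cx u (bar α) * cx v β * B.ev (b (bar α) β) p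

theorem Form2.ev_zero_one {b : Fin 4 → Fin 4 → A} (hb : B.Form2 b) (p : P) :
    B.ev (b 0 1) p = 2 * Complex.I * B.b2 b p (Pi.single 0 1) (Pi.single 1 1) := by
  simp [b2, cx, Fin.sum_univ_four, hb.diag, (hb 0 1).2]
  linear_combination B.ev (b 0 1) p * Complex.I_mul_I

theorem Form2.ev_two_three {b : Fin 4 → Fin 4 → A} (hb : B.Form2 b) (p : P) :
    B.ev (b 2 3) p = 2 * Complex.I * B.b2 b p (Pi.single 2 1) (Pi.single 3 1) := by
  simp [b2, cx, Fin.sum_univ_four, hb.diag, (hb 2 3).2]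
  linear_combination B.ev (b 2 3) p * Complex.I_mul_I

theorem Form2.add {a b : Fin 4 → Fin 4 → A} (ha : B.Form2 a) (hb : B.Form2 b) :
    B.Form2 (a + b) := fun α β =>
  ⟨add_mem (ha α β).1 (hb α β).1, by
    simp only [Pi.add_apply]
    rw [(ha α β).2, (hb α β).2, neg_add]⟩

theorem Form2.smul {b : Fin 4 → Fin 4 → A} (hb : B.Form2 b) (c : ℂ) : B.Form2 (c • b) := fun α β =>
  ⟨Submodule.smul_mem _ _ (hb α β).1, by
    simp only [Pi.smul_apply]
    rw [(hb α β).2, smul_neg]⟩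

theorem Form2.mul {b : Fin 4 → Fin 4 → A} (hb : B.Form2 b) {s : A} (hs : s ∈ B.W 0) :
    B.Form2 fun α β => s * b α β := fun α β =>
  ⟨B.mul_mem' hs (hb α β).1 (zero_add _), by
    beta_reduce
    rw [(hb α β).2, mul_neg]⟩

theorem Form2.wg_mem {a b : Fin 4 → Fin 4 → A} (ha : B.Form2 a) (hb : B.Form2 b) :
    wg a b ∈ B.W 0 := by
  have h : ∀ α β γ δ, wt α + wt β + (wt γ + wt δ) = 0 → a α β * b γ δ ∈ B.W 0 :=
    fun α β γ δ e => B.mul_mem' (ha α β).1 (hb γ δ).1 e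
  exact add_mem (sub_mem (add_mem (add_mem (sub_mem (h 0 1 2 3 (by decide)) (h 0 2 1 3 (by decide)))
    (h 0 3 1 2 (by decide))) (h 1 2 0 3 (by decide))) (h 1 3 0 2 (by decide)))
    (h 2 3 0 1 (by decide))

theorem Re2.add {a b : Fin 4 → Fin 4 → A} (ha : B.Re2 a) (hb : B.Re2 b) : B.Re2 (a + b) :=   ⟨ha.1.add hb.1, fun α β => by simp only [Pi.add_apply, star_add, ha.2, hb.2]⟩

theorem Re2.sub {a b : Fin 4 → Fin 4 → A} (ha : B.Re2 a) (hb : B.Re2 b) : B.Re2 (a - b) :=   ⟨fun α β => ⟨sub_mem (ha.1 α β).1 (hb.1 α β).1, by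
    simp only [Pi.sub_apply]
    rw [(ha.1 α β).2, (hb.1 α β).2]
    ring⟩, fun α β => by simp only [Pi.sub_apply, star_sub, ha.2, hb.2]⟩

theorem Re2.smul {b : Fin 4 → Fin 4 → A} (hb : B.Re2 b) (c : ℝ) : B.Re2 ((c : ℂ) • b) :=   ⟨hb.1.smul c, fun α β => by
    simp only [Pi.smul_apply, star_smul, hb.2, Complex.star_def, Complex.conj_ofReal]⟩

theorem Re2.mul {b : Fin 4 → Fin 4 → A} (hb : B.Re2 b) {s : A} (hs : B.Re0 s) :
    B.Re2 fun α β => s * b α β :=   ⟨hb.1.mul hs.1, fun α β => by simp only [star_mul', hb.2, hs.2]⟩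

theorem Re2.wg_re {a b : Fin 4 → Fin 4 → A} (ha : B.Re2 a) (hb : B.Re2 b) :
    B.Re0 (wg a b) := by
  refine ⟨ha.1.wg_mem hb.1, ?_⟩
  simp only [wg, star_add, star_sub, star_mul', ha.2, hb.2]
  change a 1 0 * b 3 2 - a 1 3 * b 0 2 + a 1 2 * b 0 3 + a 0 3 * b 1 2 - a 0 2 * b 1 3 +
    a 3 2 * b 1 0 = _
  rw [(ha.1 0 1).2, (hb.1 0 1).2, (ha.1 2 3).2, (hb.1 2 3).2]
  ring

theorem mapA_half (b : Fin 4 → Fin 4 → A) {c d : ℂ} (hc : ‖c‖ ≤ 1 / 2) (hd : ‖d‖ ≤ 1 / 2) :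
    ‖B.ev2 fun α β => c • b α β + d • star (b (bar α) (bar β))‖ ≤ ‖B.ev2 b‖ := by
  have h : ∀ α β, ‖B.ev (b α β)‖ ≤ ‖B.ev2 b‖ := fun α β =>
    (norm_le_pi_norm (B.ev2 b α) β).trans (norm_le_pi_norm (B.ev2 b) α)
  refine (pi_norm_le_iff_of_nonneg (norm_nonneg _)).2 fun α =>
    (pi_norm_le_iff_of_nonneg (norm_nonneg _)).2 fun β => ?_
  rw [ev2, map_add, map_smul, map_smul, map_star]
  refine (norm_add_le _ _).trans ?_
  rw [norm_smul, norm_smul, norm_star]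
  have h1 := mul_le_mul hc (h α β) (norm_nonneg _) (by norm_num)
  have h2 := mul_le_mul hd (h (bar α) (bar β)) (norm_nonneg _) (by norm_num)
  linarith

theorem Form2.mapA_re {b : Fin 4 → Fin 4 → A} (hb : B.Form2 b) (c : ℂ) :
    B.Re2 fun α β => c • b α β + star c • star (b (bar α) (bar β)) := by
  refine ⟨fun α β => ⟨add_mem (Submodule.smul_mem _ _ (hb α β).1) (Submodule.smul_mem _ _
    (B.star_mem' (hb _ _).1 (by rw [wt_bar, wt_bar]; abel))), ?_⟩, fun α β => ?_⟩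
  · beta_reduce
    rw [(hb α β).2, (hb (bar α) (bar β)).2, star_neg, smul_neg, smul_neg, neg_add]
  · simp only [star_add, star_smul, star_star, bar_bar]
    rw [add_comm]

theorem Form2.exists_re_im {b : Fin 4 → Fin 4 → A} (hb : B.Form2 b) :
    ∃ b₁ b₂, B.Re2 b₁ ∧ B.Re2 b₂ ∧ b = b₁ + Complex.I • b₂ ∧
      ‖B.ev2 b₁‖ ≤ ‖B.ev2 b‖ ∧ ‖B.ev2 b₂‖ ≤ ‖B.ev2 b‖ := by
  refine ⟨_, _, hb.mapA_re (1 / 2), hb.mapA_re (-Complex.I / 2), ?_,
    mapA_half b (by simp) (by simp), mapA_half b (by simp) (by simp)⟩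
  funext α β
  refine B.ext' fun p => ?_
  simp
  linear_combination (B.ev (b α β) p - B.ev (star (b (bar α) (bar β))) p) / 2 * Complex.I_mul_I

/-- The wedge product in an arbitrary basis. -/
theorem wg_basis {a b : Fin 4 → Fin 4 → A} (ha : B.Form2 a) (hb : B.Form2 b) (p : P)
    (u : Matrix (Fin 4) (Fin 4) ℝ) :
    wg (fun i j => B.b2 a p (u i) (u j)) (fun i j => B.b2 b p (u i) (u j)) =
      -((u.det : ℂ) / 4) * B.ev (wg a b) p := by
  have h : ∀ {a : Fin 4 → Fin 4 → A}, B.Form2 a →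
      (∀ α β, B.ev (a β α) p = -B.ev (a α β) p) ∧ ∀ α, B.ev (a α α) p = 0 := fun ha =>
    ⟨fun α β => by rw [(ha α β).2, map_neg, ContinuousMap.neg_apply],
      fun α => by rw [ha.diag, map_zero, ContinuousMap.zero_apply]⟩
  have e := wg_tr2 (Matrix.of fun i => cx (u i)) (b := fun α β => B.ev (a α β) p)
    (b' := fun α β => B.ev (b α β) p) (h ha).1 (h ha).2 (h hb).1 (h hb).2
  rw [det_cx] at e
  refine e.trans ?_
  simp only [wg, map_add, map_sub, map_mul, ContinuousMap.add_apply, ContinuousMap.sub_apply,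
    ContinuousMap.mul_apply]

end Base

namespace Calc

variable (G : Calc B)

theorem mapA_app {φ : ℝ → ℝ} {u v : A} (hv : v ∈ B.W 0)
    (h : ∀ p, B.ev v p = (φ (B.ev u p).re : ℝ)) : B.app φ u = v := by
  have := Classical.epsilon_spec
    (p := fun v => v ∈ B.W 0 ∧ ∀ p, B.ev v p = (φ (B.ev u p).re : ℝ)) ⟨v, hv, h⟩
  exact B.ext' fun p => (this.2 p).trans (h p).symm

theorem app_spec {φ : ℝ → ℝ} (hφ : ContDiff ℝ ∞ φ) {u : A} (hu : B.Re0 u) :
    B.Re0 (B.app φ u) ∧ (∀ p, B.ev (B.app φ u) p = (φ (B.ev u p).re : ℝ)) ∧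
      ∀ α, G.D α (B.app φ u) = B.app (deriv φ) u * G.D α u := by
  obtain ⟨v, v', hv, hv', h1, h2, h3⟩ := G.fc1 isOpen_univ hφ.contDiffOn hu fun _ => trivial
  rw [mapA_app hv.1 h1, mapA_app hv'.1 h2]
  exact ⟨hv, h1, h3⟩

theorem dv_add_vec (s : A) (p : P) (u v : Fin 4 → ℝ) :
    G.dv s p (u + v) = G.dv s p u + G.dv s p v := by
  simp only [dv, cx_add, Pi.add_apply, add_mul, Finset.sum_add_distrib]

theorem dv_smul_vec (s : A) (p : P) (c : ℝ) (v : Fin 4 → ℝ) :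
    G.dv s p (c • v) = c * G.dv s p v := by
  simp only [dv, cx_smul, Pi.smul_apply, smul_eq_mul, Finset.mul_sum, mul_assoc]

theorem dv_add (s t : A) (p : P) (v : Fin 4 → ℝ) :
    G.dv (s + t) p v = G.dv s p v + G.dv t p v := by
  simp only [dv, map_add, ContinuousMap.add_apply, mul_add, Finset.sum_add_distrib]

theorem dv_smul (c : ℂ) (s : A) (p : P) (v : Fin 4 → ℝ) : G.dv (c • s) p v = c * G.dv s p v := by
  simp only [dv, map_smul, ContinuousMap.smul_apply, smul_eq_mul, Finset.mul_sum]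
  exact Finset.sum_congr rfl fun _ _ => by ring

theorem dv_mul (s t : A) (p : P) (v : Fin 4 → ℝ) :
    G.dv (s * t) p v = G.dv s p v * B.ev t p + B.ev s p * G.dv t p v := by
  simp only [dv, G.D_mul, map_add, map_mul, ContinuousMap.add_apply, ContinuousMap.mul_apply,
    Fin.sum_univ_four]
  ring

theorem dv_im {s : A} (hs : star s = s) (p : P) (v : Fin 4 → ℝ) : (G.dv s p v).im = 0 := by
  rw [← Complex.conj_eq_iff_im, dv]
  simp only [map_sum, map_mul, ← cx_bar, ← B.ev_star, G.D_star, hs]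
  exact sum_bar fun α => cx v α * B.ev (G.D α s) p

theorem dv_e (k : Fin G.N) (p : P) (v : Fin 4 → ℝ) : G.dv (G.e k) p v = G.dE p v k :=   Complex.ext rfl (G.dv_im (G.e_re k).2 p v)

theorem ev_e (k : Fin G.N) (p : P) : B.ev (G.e k) p = G.E p k :=   Complex.ext rfl ((B.re0_iff.1 (G.e_re k)).2 p)

theorem ev_D_zero (s : A) (p : P) :
    B.ev (G.D 0 s) p = G.dv s p (Pi.single 0 1) - Complex.I * G.dv s p (Pi.single 1 1) := by
  simp [dv, cx, Fin.sum_univ_four]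
  linear_combination (B.ev (G.D 0 s) p - B.ev (G.D 1 s) p) / 2 * Complex.I_mul_I

theorem ev_D_two (s : A) (p : P) :
    B.ev (G.D 2 s) p = G.dv s p (Pi.single 2 1) - Complex.I * G.dv s p (Pi.single 3 1) := by
  simp [dv, cx, Fin.sum_univ_four]
  linear_combination (B.ev (G.D 2 s) p - B.ev (G.D 3 s) p) / 2 * Complex.I_mul_I

theorem ext_dv {s t : A} {p : P} (h : ∀ v, G.dv s p v = G.dv t p v) (α : Fin 4) :
    B.ev (G.D α s) p = B.ev (G.D α t) p :=   congrFun (Base.mapA_ext (x := fun α => B.ev (G.D α s) p) (y := fun α => B.ev (G.D α t) p) h) α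

theorem dv_le (s : A) : ∃ K : ℝ, 0 ≤ K ∧ ∀ p v, ‖G.dv s p v‖ ≤ K * ‖v‖ := by
  refine ⟨∑ α, ‖B.ev (G.D α s)‖, Finset.sum_nonneg fun _ _ => norm_nonneg _, fun p v => ?_⟩
  rw [Finset.sum_mul]
  refine (norm_sum_le _ _).trans (Finset.sum_le_sum fun α _ => ?_)
  rw [norm_mul, mul_comm]
  exact mul_le_mul ((B.ev (G.D α s)).norm_coe_le_norm p) (norm_cx_le v α) (norm_nonneg _)
    (norm_nonneg _)

theorem b2_dd (s t : A) (p : P) (u v : Fin 4 → ℝ) :
    B.b2 (G.dd s t) p u v = G.dv s p u * G.dv t p v - G.dv s p v * G.dv t p u := by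
  simp only [Base.b2, dd, w1, d0, dv, map_sub, map_mul, ContinuousMap.sub_apply,
    ContinuousMap.mul_apply, Fin.sum_univ_four]
  ring

theorem dE_add (p : P) (u v : Fin 4 → ℝ) : G.dE p (u + v) = G.dE p u + G.dE p v := by
  funext k
  simp only [dE, G.dv_add_vec, Complex.add_re, Pi.add_apply]

theorem dE_smul (p : P) (c : ℝ) (v : Fin 4 → ℝ) : G.dE p (c • v) = c • G.dE p v := by
  funext k
  simp only [dE, G.dv_smul_vec, Complex.re_ofReal_mul, Pi.smul_apply, smul_eq_mul]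

theorem co_add (p : P) (y z : Fin G.N → ℝ) : G.co p (y + z) = G.co p y + G.co p z := by
  have e : ∀ α, ∑ k, B.ev (G.θ α k) p * ((y + z) k : ℝ) =
      ∑ k, B.ev (G.θ α k) p * y k + ∑ k, B.ev (G.θ α k) p * z k := fun α => by
    simp only [Pi.add_apply, Complex.ofReal_add, mul_add, Finset.sum_add_distrib]
  simp only [co, e, Complex.add_re, Complex.add_im, mul_add, Matrix.cons_add_cons,
    Matrix.empty_add_empty]

theorem co_smul (p : P) (c : ℝ) (z : Fin G.N → ℝ) : G.co p (c • z) = c • G.co p z := by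
  have e : ∀ α, ∑ k, B.ev (G.θ α k) p * ((c • z) k : ℝ) =
      c * ∑ k, B.ev (G.θ α k) p * z k := fun α => by
    simp only [Pi.smul_apply, smul_eq_mul, Complex.ofReal_mul, Finset.mul_sum]
    exact Finset.sum_congr rfl fun _ _ => by ring
  simp only [co, e, Complex.re_ofReal_mul, Complex.im_ofReal_mul, Matrix.smul_cons,
    Matrix.smul_empty, smul_eq_mul, mul_left_comm c 2]

theorem cx_co (p : P) (z : Fin G.N → ℝ) (α : Fin 4) :
    cx (G.co p z) α = ∑ k, B.ev (G.θ α k) p * z k := by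
  have h : ∀ α, ∑ k, B.ev (G.θ (bar α) k) p * z k =
      (starRingEnd ℂ) (∑ k, B.ev (G.θ α k) p * z k) := fun α => by
    simp only [map_sum, map_mul, Complex.conj_ofReal, ← B.ev_star, G.θ_star]
  have e : ∀ w : ℂ, (((2 * w.re : ℝ) : ℂ) + ((2 * w.im : ℝ) : ℂ) * Complex.I) / 2 = w := fun w => by
    push_cast
    linear_combination Complex.re_add_im w
  have h0 : cx (G.co p z) 0 = ∑ k, B.ev (G.θ 0 k) p * z k := e _
  have h2 : cx (G.co p z) 2 = ∑ k, B.ev (G.θ 2 k) p * z k := e _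
  fin_cases α
  · exact h0
  · exact (cx_bar _ 0).trans (((congrArg _ h0).trans (h 0).symm))
  · exact h2
  · exact (cx_bar _ 2).trans (((congrArg _ h2).trans (h 2).symm))

theorem mapA_theta (p : P) (v : Fin 4 → ℝ) (α : Fin 4) :
    ∑ k, B.ev (G.θ α k) p * G.dE p v k = cx v α := by
  have e : ∀ β, ∑ k, B.ev (G.θ α k) p * B.ev (G.D β (G.e k)) p = if α = β then 1 else 0 :=
    fun β => by
      have := congrArg (fun s => B.ev s p) (G.θ_dual α β)
      simp only [map_sum, map_mul, ContinuousMap.sum_apply, ContinuousMap.mul_apply] at this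
      rw [this]
      split_ifs <;> simp
  calc _ = ∑ β, cx v β * ∑ k, B.ev (G.θ α k) p * B.ev (G.D β (G.e k)) p := by
        simp only [← G.dv_e, dv, Finset.mul_sum]
        rw [Finset.sum_comm]
        exact Finset.sum_congr rfl fun _ _ => Finset.sum_congr rfl fun _ _ => by ring
    _ = _ := by simp [e]

theorem co_dE (p : P) (v : Fin 4 → ℝ) : G.co p (G.dE p v) = v := by
  simp only [co, G.mapA_theta]
  funext i
  fin_cases i <;> simp [cx] <;> ring

theorem exists_bound : ∃ K : ℝ, 1 ≤ K ∧ (∀ p v, ‖G.dE p v‖ ≤ K * ‖v‖) ∧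
    ∀ p z, ‖G.co p z‖ ≤ K * ‖z‖ := by
  choose K K0 hK using fun k => G.dv_le (G.e k)
  have h1 : 0 ≤ ∑ k, K k := Finset.sum_nonneg fun k _ => K0 k
  have h2 : ∀ α, 0 ≤ ∑ k, ‖B.ev (G.θ α k)‖ := fun α => Finset.sum_nonneg fun _ _ => norm_nonneg _
  have h3 : ∀ p (z : Fin G.N → ℝ) α,
      ‖∑ k, B.ev (G.θ α k) p * z k‖ ≤ (∑ k, ‖B.ev (G.θ α k)‖) * ‖z‖ := fun p z α => by
    rw [Finset.sum_mul]
    refine (norm_sum_le _ _).trans (Finset.sum_le_sum fun k _ => ?_)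
    rw [norm_mul, Complex.norm_real]
    exact mul_le_mul ((B.ev (G.θ α k)).norm_coe_le_norm p) (norm_le_pi_norm z k) (norm_nonneg _)
      (norm_nonneg _)
  have h20 := h2 0
  have h22 := h2 2
  refine ⟨1 + ∑ k, K k + 2 * ∑ k, ‖B.ev (G.θ 0 k)‖ + 2 * ∑ k, ‖B.ev (G.θ 2 k)‖, by linarith,
    fun p v => ?_, fun p z => ?_⟩
  · refine (pi_norm_le_iff_of_nonneg (by positivity)).2 fun k => ?_
    refine (Complex.abs_re_le_norm _).trans ((hK k p v).trans ?_)
    have := Finset.single_le_sum (fun k _ => K0 k) (Finset.mem_univ k)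
    exact mul_le_mul_of_nonneg_right (by linarith) (norm_nonneg _)
  · refine (pi_norm_le_iff_of_nonneg (by positivity)).2 fun i => ?_
    have h4 : ∀ (x : ℝ) α, |x| ≤ ‖∑ k, B.ev (G.θ α k) p * z k‖ → α = 0 ∨ α = 2 → ‖2 * x‖ ≤
        (1 + ∑ k, K k + 2 * ∑ k, ‖B.ev (G.θ 0 k)‖ + 2 * ∑ k, ‖B.ev (G.θ 2 k)‖) * ‖z‖ := by
      intro x α hx hα
      have h5 := hx.trans (h3 p z α)
      have h6 := norm_nonneg z
      have h7 := mul_nonneg h1 h6
      have h8 := mul_nonneg h20 h6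
      have h9 := mul_nonneg h22 h6
      rw [Real.norm_eq_abs, abs_mul, abs_two]
      rcases hα with rfl | rfl <;> linarith
    fin_cases i
    exacts [h4 _ 0 (Complex.abs_re_le_norm _) (.inl rfl), h4 _ 0 (Complex.abs_im_le_norm _) (.inl rfl),
      h4 _ 2 (Complex.abs_re_le_norm _) (.inr rfl), h4 _ 2 (Complex.abs_im_le_norm _) (.inr rfl)]

theorem continuous_E : Continuous G.E :=   continuous_pi fun k => Complex.continuous_re.comp (B.ev (G.e k)).continuous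

theorem UC.continuous {G : Calc B} {f : P → ℝ} (h : G.UC f) : Continuous f := by
  refine continuous_iff_continuousAt.2 fun p => Metric.tendsto_nhds.2 fun ε hε => ?_
  obtain ⟨δ, hδ, h⟩ := h (ε / 2) (by positivity)
  filter_upwards [Metric.tendsto_nhds.1 (G.continuous_E.tendsto p) δ hδ] with q hq
  rw [dist_eq_norm] at hq
  rw [Real.dist_eq]
  linarith [h p q hq.le]

theorem Tay.uc {G : Calc B} (h : G.Tay) {s : A} (hs : s ∈ B.W 0) :
    ∀ ε > 0, ∃ δ > 0, ∀ p q, ‖G.E q - G.E p‖ ≤ δ → ‖B.ev s q - B.ev s p‖ ≤ ε := by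
  intro ε hε
  obtain ⟨δ, hδ, h⟩ := h s hs 1 one_pos
  obtain ⟨K, K0, hK⟩ := G.dv_le s
  obtain ⟨L, L1, -, hL⟩ := G.exists_bound
  have c0 : 0 < 1 + K * L := by positivity
  refine ⟨min δ (ε / (1 + K * L)), by positivity, fun p q hq => ?_⟩
  have h1 := h p q (hq.trans (min_le_left _ _))
  have h2 := (hK p (G.co p (G.E q - G.E p))).trans (mul_le_mul_of_nonneg_left (hL p _) K0)
  have h3 := (le_div_iff₀' c0).1 (hq.trans (min_le_right _ _))
  have h4 := norm_add_le (B.ev s q - B.ev s p - G.dv s p (G.co p (G.E q - G.E p)))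
    (G.dv s p (G.co p (G.E q - G.E p)))
  rw [sub_add_cancel] at h4
  linarith

theorem Tay.ev_eq {G : Calc B} (h : G.Tay) {s : A} (hs : s ∈ B.W 0) {p q : P}
    (e : G.E q = G.E p) : B.ev s q = B.ev s p := by
  refine sub_eq_zero.1 (norm_le_zero_iff.1 (le_of_forall_pos_le_add fun ε hε => ?_))
  obtain ⟨δ, hδ, h⟩ := h.uc hs ε hε
  rw [zero_add]
  exact h p q (by rw [e, sub_self, norm_zero]; exact hδ.le)

theorem mapA_delta {ι : Type} [Fintype ι] {Q : ι → ℝ → Prop}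
    (hm : ∀ i δ δ', δ' ≤ δ → Q i δ → Q i δ') (h : ∀ i, ∃ δ > 0, Q i δ) :
    ∃ δ > 0, ∀ i, Q i δ := by
  have e : ∀ᶠ δ in 𝓝[>] (0 : ℝ), ∀ i, Q i δ := eventually_all.2 fun i => by
    obtain ⟨δ, hδ, hi⟩ := h i
    filter_upwards [Ioc_mem_nhdsGT hδ] with δ' h' using hm i δ δ' h'.2 hi
  obtain ⟨δ, h1, h2⟩ := (e.and self_mem_nhdsWithin).exists
  exact ⟨δ, h2, h1⟩

theorem Tay.normal {G : Calc B} (h : G.Tay) : ∀ ε > 0, ∃ δ > 0, ∀ p q, ‖G.E q - G.E p‖ ≤ δ →
    ‖G.E q - G.E p - G.dE p (G.co p (G.E q - G.E p))‖ ≤ ε * ‖G.E q - G.E p‖ := by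
  intro ε hε
  obtain ⟨δ, hδ, h⟩ := mapA_delta (Q := fun k δ => ∀ p q, ‖G.E q - G.E p‖ ≤ δ →
      ‖B.ev (G.e k) q - B.ev (G.e k) p - G.dv (G.e k) p (G.co p (G.E q - G.E p))‖ ≤
        ε * ‖G.E q - G.E p‖) (fun k δ δ' hd hk p q hq => hk p q (hq.trans hd))
    fun k => h _ (G.e_re k).1 ε hε
  refine ⟨δ, hδ, fun p q hq => (pi_norm_le_iff_of_nonneg (by positivity)).2 fun k => ?_⟩
  have := h k p q hq
  rwa [G.ev_e, G.ev_e, G.dv_e, ← Complex.ofReal_sub, ← Complex.ofReal_sub,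
    Complex.norm_real] at this

theorem mapA_b2 (b : Fin 4 → Fin 4 → A) (p : P) (u v : Fin 4 → ℝ) :
    B.b2 b p u v = ∑ k, ∑ l, B.ev (∑ γ, ∑ δ, b γ δ * G.θ γ k * G.θ δ l) p *
      (G.dE p u k * G.dE p v l) := by
  simp only [Base.b2, ← G.mapA_theta p, map_sum, map_mul, ContinuousMap.sum_apply,
    ContinuousMap.mul_apply, Finset.sum_mul, Finset.mul_sum]
  rw [Finset.sum_congr rfl fun α _ => Finset.sum_comm, Finset.sum_comm]
  rw [Finset.sum_congr rfl fun l _ => Finset.sum_congr rfl fun α _ => Finset.sum_comm]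
  rw [Finset.sum_congr rfl fun l _ => Finset.sum_comm, Finset.sum_comm]
  exact Finset.sum_congr rfl fun _ _ => Finset.sum_congr rfl fun _ _ =>
    Finset.sum_congr rfl fun _ _ => Finset.sum_congr rfl fun _ _ => by ring

/-- The value of a form on a pair of vectors through the bivector. -/
theorem b2_biv {b : Fin 4 → Fin 4 → A} (hb : B.Form2 b) (V : P → Fin 2 → Fin 4 → ℝ) (p : P) :
    B.b2 b p (V p 0) (V p 1) = (1 / 2) * ∑ k, ∑ l,
      B.ev (∑ γ, ∑ δ, b γ δ * G.θ γ k * G.θ δ l) p * G.biv V p k l := by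
  have h := hb.b2_anti p (V p 0) (V p 1)
  have h0 := G.mapA_b2 b p (V p 0) (V p 1)
  have h1 := G.mapA_b2 b p (V p 1) (V p 0)
  simp only [biv, Complex.ofReal_sub, Complex.ofReal_mul, mul_sub, Finset.sum_sub_distrib]
  rw [← h0, ← h1, h]
  ring

theorem Tay.b2_uc {G : Calc B} (h : G.Tay) {V : P → Fin 2 → Fin 4 → ℝ} (hV : ∀ p i, ‖V p i‖ ≤ 1)
    (hc : ∀ k l, G.UC fun p => G.biv V p k l) {b : Fin 4 → Fin 4 → A} (hb : B.Form2 b) :
    G.UC fun p => (B.b2 b p (V p 0) (V p 1)).re := by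
  obtain ⟨L, L1, hL, -⟩ := G.exists_bound
  have hb2 : ∀ p k l, |G.biv V p k l| ≤ 2 * L ^ 2 := fun p k l => by
    have h1 : ∀ i k, |G.dE p (V p i) k| ≤ L := fun i k =>
      (norm_le_pi_norm (G.dE p (V p i)) k).trans ((hL p _).trans
        (mul_le_of_le_one_right (by linarith) (hV p i)))
    have h2 : ∀ i j k l, |G.dE p (V p i) k * G.dE p (V p j) l| ≤ L ^ 2 := fun i j k l => by
      rw [abs_mul, sq]
      exact mul_le_mul (h1 i k) (h1 j l) (abs_nonneg _) (by linarith)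
    refine (abs_sub _ _).trans ?_
    linarith [h2 0 1 k l, h2 1 0 k l]
  let c : Fin G.N × Fin G.N → A := fun k => ∑ γ, ∑ δ, b γ δ * G.θ γ k.1 * G.θ δ k.2
  have hcm : ∀ k, c k ∈ B.W 0 := fun k => Submodule.sum_mem _ fun γ _ => Submodule.sum_mem _
    fun δ _ => B.mul_mem' (B.mul_mem (hb γ δ).1 (G.θ_mem γ k.1)) (G.θ_mem δ k.2) (by abel)
  have e : ∀ p, B.b2 b p (V p 0) (V p 1) =
      (1 / 2) * ∑ k : Fin G.N × Fin G.N, B.ev (c k) p * G.biv V p k.1 k.2 := fun p => by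
    rw [G.b2_biv hb, Fintype.sum_prod_type]
  intro ε hε
  have m0 : 0 < 1 + ∑ k, (2 * L ^ 2 + ‖B.ev (c k)‖) := by positivity
  set η := ε / (1 + ∑ k, (2 * L ^ 2 + ‖B.ev (c k)‖)) with hη
  have η0 : 0 < η := by positivity
  obtain ⟨δ, hδ, hd⟩ := mapA_delta (Q := fun (k : Fin G.N × Fin G.N) δ => ∀ p q,
      ‖G.E q - G.E p‖ ≤ δ → ‖B.ev (c k) q - B.ev (c k) p‖ ≤ η ∧
        |G.biv V q k.1 k.2 - G.biv V p k.1 k.2| ≤ η)
    (fun k δ δ' hd hk p q hq => hk p q (hq.trans hd)) fun k => by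
      obtain ⟨δ, hδ, h1⟩ := h.uc (hcm k) η η0
      obtain ⟨δ', hδ', h2⟩ := hc k.1 k.2 η η0
      exact ⟨min δ δ', lt_min hδ hδ', fun p q hq =>
        ⟨h1 p q (hq.trans (min_le_left _ _)), h2 p q (hq.trans (min_le_right _ _))⟩⟩
  refine ⟨δ, hδ, fun p q hq => ?_⟩
  rw [← Complex.sub_re]
  refine (Complex.abs_re_le_norm _).trans ?_
  rw [e, e, ← mul_sub, ← Finset.sum_sub_distrib, norm_mul]
  have h1 : ‖∑ k : Fin G.N × Fin G.N,
      (B.ev (c k) q * G.biv V q k.1 k.2 - B.ev (c k) p * G.biv V p k.1 k.2)‖ ≤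
      (∑ k, (2 * L ^ 2 + ‖B.ev (c k)‖)) * η := by
    rw [Finset.sum_mul]
    refine (norm_sum_le _ _).trans (Finset.sum_le_sum fun k _ => ?_)
    have e1 : B.ev (c k) q * G.biv V q k.1 k.2 - B.ev (c k) p * G.biv V p k.1 k.2 =
        G.biv V q k.1 k.2 * (B.ev (c k) q - B.ev (c k) p) +
          B.ev (c k) p * (G.biv V q k.1 k.2 - G.biv V p k.1 k.2 : ℝ) := by
      push_cast
      ring
    rw [e1, add_mul]
    refine (norm_add_le _ _).trans (add_le_add ?_ ?_)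
    · rw [norm_mul, Complex.norm_real]
      exact mul_le_mul (hb2 q _ _) (hd k p q hq).1 (norm_nonneg _) (by positivity)
    · rw [norm_mul, Complex.norm_real]
      exact mul_le_mul ((B.ev (c k)).norm_coe_le_norm p) (hd k p q hq).2 (norm_nonneg _)
        (norm_nonneg _)
  have h2 : (1 + ∑ k, (2 * L ^ 2 + ‖B.ev (c k)‖)) * η = ε := mul_div_cancel₀ _ m0.ne'
  have h3 : ‖(1 / 2 : ℂ)‖ = 1 / 2 := by simp
  rw [h3]
  linarith

theorem r2_re (z : Fin G.N → ℝ) : B.Re0 (G.r2 z) := by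
  refine ⟨Submodule.sum_mem _ fun k _ =>
    B.pow_mem (sub_mem (B.algebraMap_mem _) (G.e_re k).1) 2, ?_⟩
  simp only [r2, star_sum, star_pow, star_sub, (G.e_re _).2, ← algebraMap_star_comm,
    Complex.star_def, Complex.conj_ofReal]

theorem ev_r2 (z : Fin G.N → ℝ) (p : P) :
    B.ev (G.r2 z) p = (∑ k, (z k - G.E p k) ^ 2 : ℝ) := by
  simp only [r2, map_sum, map_pow, map_sub, AlgHomClass.commutes, ContinuousMap.sum_apply,
    ContinuousMap.pow_apply, ContinuousMap.sub_apply, G.ev_e, algebraMap_apply, smul_eq_mul,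
    mul_one]
  push_cast
  rfl

/-- Bump functions. -/
theorem exists_bump (x : P) {δ : ℝ} (hδ : 0 < δ) : ∃ s, B.Re0 s ∧ (∀ p, 0 ≤ (B.ev s p).re) ∧
    (∀ p, (B.ev s p).re ≤ 1) ∧ 0 < (B.ev s x).re ∧
    ∀ p, B.ev s p ≠ 0 → ‖G.E p - G.E x‖ ≤ δ := by
  have hφ : ContDiff ℝ ∞ fun t : ℝ => Real.smoothTransition (1 - t / δ ^ 2) :=
    Real.smoothTransition.contDiff.comp (contDiff_const.sub (contDiff_id.div_const _))
  obtain ⟨h1, h2, -⟩ := G.app_spec hφ (G.r2_re (G.E x))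
  refine ⟨_, h1, fun p => ?_, fun p => ?_, ?_, fun p hp => ?_⟩
  · rw [h2, Complex.ofReal_re]
    exact Real.smoothTransition.nonneg _
  · rw [h2, Complex.ofReal_re]
    exact Real.smoothTransition.le_one _
  · rw [h2, Complex.ofReal_re, G.ev_r2, Complex.ofReal_re]
    exact Real.smoothTransition.pos_of_pos (by simp)
  · rw [h2, G.ev_r2, Complex.ofReal_re, Complex.ofReal_ne_zero] at hp
    have h3 : ∑ k, (G.E x k - G.E p k) ^ 2 ≤ δ ^ 2 := by
      by_contra hn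
      refine hp (Real.smoothTransition.zero_of_nonpos ?_)
      rw [sub_nonpos, one_le_div (by positivity)]
      exact (not_le.1 hn).le
    refine (pi_norm_le_iff_of_nonneg hδ.le).2 fun k => ?_
    rw [Pi.sub_apply, norm_sub_rev]
    exact abs_le_of_sq_le_sq' ((Finset.single_le_sum (f := fun k => (G.E x k - G.E p k) ^ 2)
      (fun k _ => sq_nonneg _) (Finset.mem_univ k)).trans h3) hδ.le |> abs_le.2

end Calc

/-- Coordinates with respect to the splitting. -/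
theorem Spl.exists_coord {G : Pre B} {U V : P → Fin 2 → Fin 4 → ℝ} (S : Spl G U V) :
    ∃ K : ℝ, 1 ≤ K ∧ ∀ p, ∃ t u : (Fin 4 → ℝ) →ₗ[ℝ] (Fin 2 → ℝ),
      (∀ v, v = ∑ i, t v i • U p i + ∑ i, u v i • V p i) ∧
      (∀ i, t (U p i) = Pi.single i 1) ∧ (∀ i, u (U p i) = 0) ∧
      (∀ i, t (V p i) = 0) ∧ (∀ i, u (V p i) = Pi.single i 1) ∧
      (∀ v, ‖t v‖ ≤ K * ‖v‖) ∧ ∀ v, ‖u v‖ ≤ K * ‖v‖ := by
  have k0 := S.κ_pos
  have k1 : 0 ≤ 96 / S.κ := by positivity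
  refine ⟨1 + 96 / S.κ, by linarith, fun p => ?_⟩
  set Q : Matrix (Fin 4) (Fin 4) ℝ := Matrix.of ![U p 0, U p 1, V p 0, V p 1] with hQ
  have hd : S.κ ≤ Q.det := S.det_pos p
  have hu : IsUnit Q.det := (k0.trans_le hd).ne'.isUnit
  have hb : ∀ i j, |Q i j| ≤ 1 := fun i j => by
    refine (norm_le_pi_norm (Q i) j).trans ?_
    fin_cases i
    exacts [S.bdU p 0, S.bdU p 1, S.bdV p 0, S.bdV p 1]
  have ha : ∀ i j, |Q⁻¹ i j| ≤ 24 / S.κ := fun i j => by
    have h1 := Matrix.det_le (A := Q.updateRow j (Pi.single i 1)) (abv := AbsoluteValue.abs)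
      (x := 1) fun a b => by
        rw [Matrix.updateRow_apply, Pi.single_apply]
        split_ifs
        · simp
        · simp
        · exact hb a b
    have h2 : |Q.adjugate i j| ≤ 24 := by
      rw [Matrix.adjugate_apply]
      simpa [Nat.factorial] using h1
    rw [Matrix.inv_def, Ring.inverse_eq_inv', Matrix.smul_apply, smul_eq_mul, abs_mul, abs_inv,
      abs_of_pos (k0.trans_le hd), mul_comm, ← div_eq_mul_inv]
    gcongr
  have hc : ∀ v j, ‖(v ᵥ* Q⁻¹) j‖ ≤ (1 + 96 / S.κ) * ‖v‖ := fun v j => by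
    have h1 : ∀ i, ‖v i * Q⁻¹ i j‖ ≤ ‖v‖ * (24 / S.κ) := fun i => by
      rw [norm_mul]
      exact mul_le_mul (norm_le_pi_norm v i) (ha i j) (norm_nonneg _) (norm_nonneg _)
    rw [Matrix.vecMul, dotProduct]
    refine (norm_sum_le _ _).trans ((Finset.sum_le_sum fun i _ => h1 i).trans ?_)
    simp only [Finset.sum_const, Finset.card_univ, Fintype.card_fin, nsmul_eq_mul]
    have h2 : ((4 : ℕ) : ℝ) * (‖v‖ * (24 / S.κ)) = 96 / S.κ * ‖v‖ := by
      push_cast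
      ring
    rw [h2]
    gcongr
    linarith
  have hr : ∀ a j, (Q a ᵥ* Q⁻¹) j = if a = j then 1 else 0 := fun a j => by
    rw [← Matrix.one_apply, ← Matrix.mul_nonsing_inv Q hu]
    rfl
  have h0 : ∀ j, (U p 0 ᵥ* Q⁻¹) j = if 0 = j then 1 else 0 := hr 0
  have h1 : ∀ j, (U p 1 ᵥ* Q⁻¹) j = if 1 = j then 1 else 0 := hr 1
  have h2 : ∀ j, (V p 0 ᵥ* Q⁻¹) j = if 2 = j then 1 else 0 := hr 2
  have h3 : ∀ j, (V p 1 ᵥ* Q⁻¹) j = if 3 = j then 1 else 0 := hr 3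
  refine ⟨LinearMap.funLeft ℝ ℝ ![0, 1] ∘ₗ Q⁻¹.vecMulLinear,
    LinearMap.funLeft ℝ ℝ ![2, 3] ∘ₗ Q⁻¹.vecMulLinear, fun v => ?_, fun i => ?_, fun i => ?_,
    fun i => ?_, fun i => ?_,
    fun v => (pi_norm_le_iff_of_nonneg (by positivity)).2 fun i => hc v _,
    fun v => (pi_norm_le_iff_of_nonneg (by positivity)).2 fun i => hc v _⟩
  · have e : v = (v ᵥ* Q⁻¹) ᵥ* Q := by
      rw [Matrix.vecMul_vecMul, Matrix.nonsing_inv_mul Q hu, Matrix.vecMul_one]
    rw [Matrix.vecMul_eq_sum, Fin.sum_univ_four, add_assoc] at e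
    rw [Fin.sum_univ_two, Fin.sum_univ_two]
    exact e
  all_goals
    funext j
    fin_cases i <;> fin_cases j <;> simp [LinearMap.funLeft_apply, h0, h1, h2, h3]

/-- The splitting with the two planes exchanged. -/
theorem Spl.exists_swap {G : Pre B} {U V : P → Fin 2 → Fin 4 → ℝ} (S : Spl G U V) :
    Nonempty (Spl G V U) := by
  refine ⟨⟨S.κ, S.κ_pos, S.bdV, S.bdU, fun p => (S.det_pos p).trans_eq ?_, S.ucV, S.ucU, S.ηV,
    S.ηU, S.ηV_re, S.ηU_re, S.ηV_pos, S.ηU_pos, S.tay⟩⟩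
  have h := Matrix.det_permute (Equiv.swap 0 2 * Equiv.swap 1 3)
    (Matrix.of ![U p 0, U p 1, V p 0, V p 1])
  rw [Equiv.Perm.sign_mul, Equiv.Perm.sign_swap (by decide), Equiv.Perm.sign_swap (by decide),
    neg_mul_neg, one_mul, Units.val_one, Int.cast_one, one_mul] at h
  refine h.symm.trans (congrArg Matrix.det ?_)
  ext i j
  fin_cases i <;> rfl

end SW4
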