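import Pool.Agent.P.MP_0a0487_an.SW.AtlDefs
import Pool.Agent.P.MP_0a0487_an.SW.MapA

/-! Basic properties of atlases. -/

set_option autoImplicit false
set_option linter.unusedSectionVars false

noncomputable section

namespace SW4

open scoped ComplexOrder ContDiff
open Filter Topology

variable {P A : Type} [TopologicalSpace P] [CompactSpace P] [CommRing A] [StarRing A] [Algebra ℂ A]
  [StarModule ℂ A] {B : Base P A}

open MeasureTheory Matrix

theorem atlB_pd_congr {φ φ' : E4 → ℂ} {y : E4} (h : φ =ᶠ[𝓝 y] φ') (j : Fin 4) :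
    pd j φ y = pd j φ' y := by
  unfold pd
  rw [h.fderiv_eq]

theorem atlB_pd_coord (j k : Fin 4) (y : E4) :
    pd k (fun y : E4 => ((y j : ℝ) : ℂ)) y = if k = j then 1 else 0 := by
  have h : HasFDerivAt (fun y : E4 => ((y j : ℝ) : ℂ))
      (Complex.ofRealCLM.comp (ContinuousLinearMap.proj (R := ℝ) (φ := fun _ : Fin 4 => ℝ) j)) y :=
    (Complex.ofRealCLM.comp
      (ContinuousLinearMap.proj (R := ℝ) (φ := fun _ : Fin 4 => ℝ) j)).hasFDerivAt
  unfold pd
  rw [h.fderiv]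
  by_cases e : k = j
  · simp [e]
  · simp [e]

theorem atlB_pd_sm {φ : E4 → ℂ} {O : Set E4} (hO : IsOpen O) (h : ContDiffOn ℝ ∞ φ O) (j : Fin 4) :
    ContDiffOn ℝ ∞ (pd j φ) O :=
  (h.fderiv_of_isOpen hO (m := ∞) (by simp)).clm_apply contDiffOn_const

theorem atlB_det (N : Matrix (Fin 4) (Fin 4) ℂ) :
    wg (w1 (N 0) (N 1)) (w1 (N 2) (N 3)) = N.det := by
  rw [Matrix.det_succ_row_zero]
  simp [Fin.sum_univ_four, Matrix.det_fin_three, Fin.succAbove, wg, w1]
  ring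

theorem atlB_det_bar (N : Matrix (Fin 4) (Fin 4) ℂ) :
    (Matrix.of fun α j => N (bar α) j).det = N.det := by
  rw [← atlB_det, ← atlB_det]
  change wg (w1 (N 1) (N 0)) (w1 (N 3) (N 2)) = _
  simp only [wg, w1]
  ring

namespace Atl

variable {G : Calc B} (a : Atl G)

theorem E_pr (i : Fin a.n) {p : P} (hp : p ∈ a.U i) : G.E (a.pr i (a.ψ i p)) = G.E p := by
  funext k
  unfold Calc.E
  rw [a.inv0 i p hp _ (G.e_re k).1]

include a in
theorem ev_eq_of_E {p q : P} (h : G.E q = G.E p) {s : A} (hs : s ∈ B.W 0) :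
    B.ev s q = B.ev s p := by
  obtain ⟨i, hp⟩ := a.cover p
  obtain ⟨hq, e⟩ := a.E_inj i p hp q h
  rw [← a.inv0 i q hq s hs, e, a.inv0 i p hp s hs]

include a in
/-- Points of the same fibre differ by phases. -/
theorem phase {p q : P} (h : G.E q = G.E p) (w : Wt) :
    ∃ z : ℂ, ‖z‖ = 1 ∧ ∀ s ∈ B.W w, B.ev s q = z * B.ev s p := by
  obtain ⟨n, t, ht, h1⟩ := G.exists_gens w
  have h2 : ∃ i, B.ev (t i) p ≠ 0 := by
    by_contra hc
    push Not at hc
    have e := congrArg (fun s => B.ev s p) h1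
    simp [map_sum, map_mul, hc] at e
  obtain ⟨i, hi⟩ := h2
  have key : ∀ s ∈ B.W w, (starRingEnd ℂ) (B.ev (t i) q) * B.ev s q =
      (starRingEnd ℂ) (B.ev (t i) p) * B.ev s p := fun s hs => by
    have e := a.ev_eq_of_E h (B.mul_mem' (B.star_mem (ht i)) hs (neg_add_cancel _))
    simpa only [map_mul, ContinuousMap.mul_apply, B.ev_star] using e
  have k1 := key _ (ht i)
  have n1 : ‖B.ev (t i) q‖ = ‖B.ev (t i) p‖ := by
    have e := congrArg norm k1
    rw [norm_mul, norm_mul, Complex.norm_conj, Complex.norm_conj] at e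
    exact (mul_self_inj (norm_nonneg _) (norm_nonneg _)).1 e
  have hq : B.ev (t i) q ≠ 0 := by
    rw [← norm_ne_zero_iff, n1, norm_ne_zero_iff]; exact hi
  have hq' : (starRingEnd ℂ) (B.ev (t i) q) ≠ 0 := by simpa using hq
  refine ⟨B.ev (t i) q / B.ev (t i) p, ?_, fun s hs => ?_⟩
  · rw [norm_div, n1, div_self (norm_ne_zero_iff.2 hi)]
  · apply mul_left_cancel₀ hq'
    rw [key s hs, ← mul_assoc, mul_div_assoc', k1, mul_div_assoc, div_self hi, mul_one]

include a in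
/-- Saturated open sets are open for the distance of the base. -/
theorem exists_ball {S : Set P} (hS : IsOpen S) (sat : ∀ p ∈ S, ∀ q, G.E q = G.E p → q ∈ S)
    {p : P} (hp : p ∈ S) : ∃ δ > 0, ∀ q, ‖G.E q - G.E p‖ ≤ δ → q ∈ S := by
  have hc : IsClosed (G.E '' Sᶜ) := (hS.isClosed_compl.isCompact.image G.continuous_E).isClosed
  have hp' : G.E p ∈ (G.E '' Sᶜ)ᶜ := by
    rintro ⟨q, hq, e⟩
    exact hq (sat p hp q e)
  obtain ⟨δ, hδ, hb⟩ := Metric.nhds_basis_closedBall.mem_iff.1 (hc.isOpen_compl.mem_nhds hp')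
  refine ⟨δ, hδ, fun q hq => ?_⟩
  by_contra hq'
  exact hb (mem_closedBall_iff_norm.2 hq) ⟨q, hq', rfl⟩

theorem det_ne (i : Fin a.n) {y : E4} (hy : y ∈ a.O i) : (a.V i y).det ≠ 0 := by
  intro h
  obtain ⟨c, hc, e⟩ := Matrix.exists_vecMul_eq_zero_iff.2 h
  refine hc (G.frame_unique c (a.pr i y) fun k => ?_)
  simp only [a.der i y hy _ (G.e_re k).1, Finset.mul_sum, ← mul_assoc]
  rw [Finset.sum_comm]
  refine Finset.sum_eq_zero fun j _ => ?_
  rw [← Finset.sum_mul]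
  have e' : ∑ γ, c γ * a.V i y γ j = 0 := congrFun e j
  rw [e', zero_mul]

theorem atlB_nhds (i : Fin a.n) {y : E4} (hy : y ∈ a.O i) {S : Set P} (hS : IsOpen S)
    (h : a.pr i y ∈ S) : ∀ᶠ y' in 𝓝 y, y' ∈ a.O i ∧ a.pr i y' ∈ S := by
  have h1 : ∀ᶠ y' in 𝓝 y, y' ∈ a.O i := (a.O_open i).mem_nhds hy
  have h2 : ContinuousAt (a.pr i) y := (a.pr_cont i).continuousAt ((a.O_open i).mem_nhds hy)
  exact h1.and (h2.eventually (hS.mem_nhds h))

/-- Extension by zero. -/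
theorem glob {i : Fin a.n} {K : Set E4} (hK : IsCompact K) (hs : K ⊆ a.O i) {φ : E4 → ℂ}
    (hφ : ContDiffOn ℝ ∞ φ (a.O i)) (h0 : ∀ y ∈ a.O i, y ∉ K → φ y = 0) :
    ∃ s ∈ B.W 0, a.Supp i K s ∧ ∀ y ∈ a.O i, B.ev s (a.pr i y) = φ y := by
  have hC := (a.closed i K hK hs).isOpen_compl
  have hz : ∀ p, p ∉ a.U i ∩ a.ψ i ⁻¹' K → (a.U i).indicator (fun p => φ (a.ψ i p)) p = 0 := by
    intro p hp
    by_cases h : p ∈ a.U i
    · rw [Set.indicator_of_mem h]
      exact h0 _ (a.ψ_mem i p h) fun hk => hp ⟨h, hk⟩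
    · exact Set.indicator_of_notMem h _
  obtain ⟨s, s0, e⟩ := a.glue ((a.U i).indicator fun p => φ (a.ψ i p)) (fun j p hp => by
    have e := a.E_pr j hp
    by_cases h : p ∈ a.U i
    · obtain ⟨h1, h2⟩ := a.E_inj i p h _ e
      rw [Set.indicator_of_mem h, Set.indicator_of_mem h1, h2]
    · have h1 : a.pr j (a.ψ j p) ∉ a.U i := fun h1 => h (a.E_inj i _ h1 p e.symm).1
      rw [Set.indicator_of_notMem h, Set.indicator_of_notMem h1]) (fun j y hy => by
    apply ContDiffAt.contDiffWithinAt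
    by_cases h : a.pr j y ∈ a.U i
    · have hn := a.atlB_nhds j hy (a.U_open i) h
      have h1 : ContDiffAt ℝ ∞ (fun y => a.ψ i (a.pr j y)) y := (a.trans j i).contDiffAt hn
      have h2 : ContDiffAt ℝ ∞ φ (a.ψ i (a.pr j y)) :=
        hφ.contDiffAt ((a.O_open i).mem_nhds (a.ψ_mem i _ h))
      refine (h2.comp y h1).congr_of_eventuallyEq (hn.mono fun y' hy' => ?_)
      exact Set.indicator_of_mem hy'.2 _
    · have hn := a.atlB_nhds j hy hC fun hc => h hc.1
      refine (contDiffAt_const (c := (0 : ℂ))).congr_of_eventuallyEq (hn.mono fun y' hy' => ?_)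
      exact hz _ hy'.2)
  refine ⟨s, s0, fun p hp => ?_, fun y hy => ?_⟩
  · by_contra hc
    exact hp (by rw [e, hz p hc])
  · rw [e, Set.indicator_of_mem (a.pr_mem i y hy), a.ψ_pr i y hy]

theorem atlB_ind {i : Fin a.n} {K : Set E4} {s : A} (s0 : s ∈ B.W 0) (h : a.Supp i K s)
    {Q : ℂ → Prop} (h0 : Q 0) (h1 : ∀ y ∈ a.O i, Q (B.ev s (a.pr i y))) (p : P) :
    Q (B.ev s p) := by
  by_cases hp : B.ev s p = 0
  · rw [hp]; exact h0
  · rw [← a.inv0 i p (h p hp).1 s s0]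
    exact h1 _ (a.ψ_mem i p (h p hp).1)

theorem exists_cut {i : Fin a.n} {K : Set E4} (hK : IsCompact K) (hs : K ⊆ a.O i) :
    ∃ (χ : A) (K' : Set E4), B.Re0 χ ∧ IsCompact K' ∧ K' ⊆ a.O i ∧ a.Supp i K' χ ∧
      (∀ p, 0 ≤ (B.ev χ p).re ∧ (B.ev χ p).re ≤ 1) ∧
      ∀ᶠ y in 𝓝ˢ K, B.ev χ (a.pr i y) = 1 := by
  obtain ⟨K', hK', h1, h2⟩ := exists_compact_between hK (a.O_open i) hs
  obtain ⟨f, f1, f0, f01⟩ := exists_contMDiffMap_one_nhds_of_subset_interior (n := ⊤)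
    (modelWithCornersSelf ℝ E4) hK.isClosed h1
  have hf : ContDiff ℝ ∞ fun y => ((f y : ℝ) : ℂ) :=
    Complex.ofRealCLM.contDiff.comp f.contMDiff.contDiff
  obtain ⟨χ, χ0, hχ, e⟩ := a.glob hK' h2 hf.contDiffOn fun y _ hy => by simp [f0 y hy]
  refine ⟨χ, K', B.re0_iff.2 ⟨χ0, a.atlB_ind χ0 hχ (Q := fun z => z.im = 0) rfl fun y hy => ?_⟩,
    hK', h2, hχ, a.atlB_ind χ0 hχ (Q := fun z => 0 ≤ z.re ∧ z.re ≤ 1) (by simp) fun y hy => ?_, ?_⟩
  · rw [e y hy, Complex.ofReal_im]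
  · rw [e y hy, Complex.ofReal_re]; exact f01 y
  · have h3 : ∀ᶠ y in 𝓝ˢ K, y ∈ a.O i := (a.O_open i).mem_nhdsSet.2 hs
    filter_upwards [f1, h3] with y hy hy'
    rw [e y hy', hy, Complex.ofReal_one]

/-- A smooth function on a chart coincides with a global function near a compact set. -/
theorem atlB_ext {i : Fin a.n} {K : Set E4} (hK : IsCompact K) (hs : K ⊆ a.O i) {φ : E4 → ℂ}
    (hφ : ContDiffOn ℝ ∞ φ (a.O i)) :
    ∃ s ∈ B.W 0, ((∀ y, (φ y).im = 0) → B.Re0 s) ∧ ∀ᶠ y in 𝓝ˢ K, B.ev s (a.pr i y) = φ y := by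
  obtain ⟨χ, K', hχ, hK', h1, h2, -, h3⟩ := a.exists_cut hK hs
  obtain ⟨s, s0, h4, e⟩ := a.glob hK' h1 ((a.sm i χ).mul hφ) fun y hy hy' => by
    have : B.ev χ (a.pr i y) = 0 := by
      by_contra hc
      exact hy' (a.ψ_pr i y hy ▸ (h2 _ hc).2)
    rw [this, zero_mul]
  refine ⟨s, s0, fun hi => B.re0_iff.2
    ⟨s0, a.atlB_ind s0 h4 (Q := fun z => z.im = 0) rfl fun y hy => ?_⟩, ?_⟩
  · rw [e y hy, Complex.mul_im, hi y, (B.re0_iff.1 hχ).2]
    simp
  · have h5 : ∀ᶠ y in 𝓝ˢ K, y ∈ a.O i := (a.O_open i).mem_nhdsSet.2 hs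
    filter_upwards [h3, h5] with y hy hy'
    rw [e y hy', hy, one_mul]

/-- Coordinate functions near a compact part of a chart. -/
theorem exists_coordFun {i : Fin a.n} {K : Set E4} (hK : IsCompact K) (hs : K ⊆ a.O i) :
    ∃ x : Fin 4 → A, (∀ j, B.Re0 (x j)) ∧ ∀ᶠ y in 𝓝ˢ K, ∀ j, B.ev (x j) (a.pr i y) = y j := by
  have h := fun j : Fin 4 => a.atlB_ext hK hs (φ := fun y => ((y j : ℝ) : ℂ))
    (Complex.ofRealCLM.contDiff.comp (contDiff_apply ℝ ℝ j)).contDiffOn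
  choose x _ h1 h2 using h
  exact ⟨x, fun j => h1 j fun y => Complex.ofReal_im _, eventually_all.2 h2⟩

theorem V_star (i : Fin a.n) {y : E4} (hy : y ∈ a.O i) (α j : Fin 4) :
    (starRingEnd ℂ) (a.V i y α j) = a.V i y (bar α) j := by
  obtain ⟨x, hx, e⟩ := a.exists_coordFun (isCompact_singleton (x := y))
    (Set.singleton_subset_iff.2 hy)
  rw [nhdsSet_singleton] at e
  have key : ∀ β, B.ev (G.D β (x j)) (a.pr i y) = a.V i y β j := fun β => by
    rw [a.der i y hy _ (hx j).1]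
    simp only [atlB_pd_congr (φ' := fun y : E4 => ((y j : ℝ) : ℂ)) (e.mono fun y h => h j),
      atlB_pd_coord]
    simp
  rw [← key, ← key, ← B.ev_star, G.D_star, (hx j).2]

theorem det_im (i : Fin a.n) {y : E4} (hy : y ∈ a.O i) : (a.V i y).det.im = 0 := by
  rw [← Complex.conj_eq_iff_im, RingHom.map_det, ← atlB_det_bar (a.V i y)]
  congr 1
  ext α j
  exact a.V_star i hy α j

theorem atlB_det_sm (i : Fin a.n) : ContDiffOn ℝ ∞ (fun y => (a.V i y).det) (a.O i) := by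
  simp only [Matrix.det_apply']
  exact ContDiffOn.sum fun σ _ => contDiffOn_const.mul (contDiffOn_prod fun j _ => a.V_sm i _ _)

/-- The sign of the determinant of the frame is constant on each chart. -/
theorem det_sign (i : Fin a.n) : ∃ c : ℝ, (c = 1 ∨ c = -1) ∧ ∀ y ∈ a.O i,
    (a.V i y).det * a.dens i y = c := by
  have e : ∀ y ∈ a.O i, (a.V i y).det = ((a.V i y).det.re : ℝ) := fun y hy =>
    Complex.ext (by simp) (by simp [a.det_im i hy])
  have hne : ∀ y ∈ a.O i, (a.V i y).det.re ≠ 0 := fun y hy h =>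
    a.det_ne i hy (by rw [e y hy, h, Complex.ofReal_zero])
  have hc : ContinuousOn (fun y => (a.V i y).det.re) (a.O i) :=
    Complex.continuous_re.comp_continuousOn (a.atlB_det_sm i).continuousOn
  have e' : ∀ y ∈ a.O i, (a.V i y).det * a.dens i y =
      (((a.V i y).det.re * |(a.V i y).det.re|⁻¹ : ℝ) : ℂ) := fun y hy => by
    unfold dens
    rw [Complex.ofReal_mul, ← e y hy]
    congr 3
    conv_lhs => rw [e y hy]
    rw [Complex.norm_real, Real.norm_eq_abs]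
  by_cases h : ∃ y ∈ a.O i, (a.V i y).det.re < 0
  · obtain ⟨y0, hy0, h0⟩ := h
    refine ⟨-1, Or.inr rfl, fun y hy => ?_⟩
    have hneg : (a.V i y).det.re < 0 := by
      by_contra hc'
      push Not at hc'
      obtain ⟨z, hz, ez⟩ := (a.O_convex i).isPreconnected.intermediate_value hy0 hy hc
        ⟨h0.le, hc'⟩
      exact hne z hz ez
    rw [e' y hy, abs_of_neg hneg, inv_neg, mul_neg, mul_inv_cancel₀ hneg.ne]
  · push Not at h
    refine ⟨1, Or.inl rfl, fun y hy => ?_⟩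
    rw [e' y hy, abs_of_nonneg (h y hy), mul_inv_cancel₀ (hne y hy)]

theorem dens_pos (i : Fin a.n) {y : E4} (hy : y ∈ a.O i) : 0 < a.dens i y :=
  inv_pos.2 (norm_pos_iff.2 (a.det_ne i hy))

theorem dens_sm (i : Fin a.n) : ContDiffOn ℝ ∞ (a.dens i) (a.O i) :=
  ((a.atlB_det_sm i).norm ℝ fun _ hy => a.det_ne i hy).inv
    fun _ hy => norm_ne_zero_iff.2 (a.det_ne i hy)

theorem Supp.mul_left {a : Atl G} {i : Fin a.n} {K : Set E4} {s : A} (h : a.Supp i K s) (t : A) :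
    a.Supp i K (t * s) := fun p hp => h p fun e => hp (by
  rw [map_mul, ContinuousMap.mul_apply, e, mul_zero])

theorem Supp.D {a : Atl G} {i : Fin a.n} {K : Set E4} (hK : IsCompact K) (hs : K ⊆ a.O i) {s : A}
    (h0 : s ∈ B.W 0) (h : a.Supp i K s) (α : Fin 4) : a.Supp i K (G.D α s) := by
  intro p hp
  by_contra hc
  obtain ⟨j, hj⟩ := a.cover p
  have e := a.E_pr j hj
  have hy := a.ψ_mem j p hj
  obtain ⟨z, -, hz⟩ := a.phase e.symm (0 + wt α)
  have h1 : a.pr j (a.ψ j p) ∉ a.U i ∩ a.ψ i ⁻¹' K := fun h1 => by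
    obtain ⟨h2, h3⟩ := a.E_inj i _ h1.1 p e.symm
    exact hc ⟨h2, h3 ▸ h1.2⟩
  have hn := a.atlB_nhds j hy (a.closed i K hK hs).isOpen_compl h1
  have h2 : (fun y => B.ev s (a.pr j y)) =ᶠ[𝓝 (a.ψ j p)] fun _ => 0 := hn.mono fun y hy => by
    by_contra hc
    exact hy.2 (h _ hc)
  apply hp
  rw [hz _ (G.D_mem α h0), a.der j _ hy s h0]
  simp only [atlB_pd_congr h2]
  simp [pd]

theorem loc_test {i : Fin a.n} {K : Set E4} (hK : IsCompact K) (hs : K ⊆ a.O i) {s : A}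
    (h : a.Supp i K s) : Test K (a.loc i s) := by
  have h0 : ∀ y, y ∉ K → a.loc i s y = 0 := fun y hy => by
    unfold loc
    by_cases hO : y ∈ a.O i
    · rw [Set.indicator_of_mem hO]
      by_contra hc
      exact hy (a.ψ_pr i y hO ▸ (h _ hc).2)
    · exact Set.indicator_of_notMem hO _
  refine ⟨contDiff_iff_contDiffAt.2 fun y => ?_, h0⟩
  by_cases hO : y ∈ a.O i
  · have hn := (a.O_open i).mem_nhds hO
    refine ((a.sm i s).contDiffAt hn).congr_of_eventuallyEq ?_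
    filter_upwards [hn] with y' hy'
    exact Set.indicator_of_mem hy' _
  · refine (contDiffAt_const (c := (0 : ℂ))).congr_of_eventuallyEq ?_
    filter_upwards [hK.isClosed.isOpen_compl.mem_nhds fun hy => hO (hs hy)] with y' hy'
    exact h0 y' hy'

theorem ev_eq_loc {i : Fin a.n} {s : A} (h0 : s ∈ B.W 0) {p : P} (hp : p ∈ a.U i) :
    B.ev s p = a.loc i s (a.ψ i p) := by
  unfold loc
  rw [Set.indicator_of_mem (a.ψ_mem i p hp), a.inv0 i p hp s h0]

theorem ext_loc {i : Fin a.n} {K : Set E4} {s t : A} (s0 : s ∈ B.W 0) (t0 : t ∈ B.W 0)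
    (hs : a.Supp i K s) (ht : a.Supp i K t) (h : a.loc i s = a.loc i t) : s = t := by
  refine B.ext' fun p => ?_
  by_cases hp : p ∈ a.U i
  · rw [a.ev_eq_loc s0 hp, a.ev_eq_loc t0 hp, h]
  · have e1 : B.ev s p = 0 := by
      by_contra hc
      exact hp (hs p hc).1
    have e2 : B.ev t p = 0 := by
      by_contra hc
      exact hp (ht p hc).1
    rw [e1, e2]

theorem exists_pou : Nonempty a.POU := by
  classical
  have h : ∀ p : P, ∃ (i : Fin a.n) (χ : A) (K : Set E4), B.Re0 χ ∧ IsCompact K ∧ K ⊆ a.O i ∧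
      a.Supp i K χ ∧ (∀ q, 0 ≤ (B.ev χ q).re) ∧ 0 < (B.ev χ p).re := fun p => by
    obtain ⟨i, hi⟩ := a.cover p
    obtain ⟨χ, K, h1, h2, h3, h4, h5, h6⟩ := a.exists_cut (isCompact_singleton (x := a.ψ i p))
      (Set.singleton_subset_iff.2 (a.ψ_mem i p hi))
    refine ⟨i, χ, K, h1, h2, h3, h4, fun q => (h5 q).1, ?_⟩
    rw [← a.inv0 i p hi χ h1.1, h6.self_of_nhdsSet _ rfl]
    simp
  choose c χ K h1 h2 h3 h4 h5 h6 using h
  obtain ⟨t, ht⟩ := isCompact_univ.elim_finite_subcover (fun p => {q | 0 < (B.ev (χ p) q).re})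
    (fun p => isOpen_lt continuous_const (Complex.continuous_re.comp (B.ev (χ p)).continuous))
    fun p _ => Set.mem_iUnion.2 ⟨p, h6 p⟩
  have hre : ∀ S : Finset P, B.Re0 (∑ p ∈ S, χ p) := fun S =>
    ⟨Submodule.sum_mem _ fun p _ => (h1 p).1, by
      rw [star_sum]; exact Finset.sum_congr rfl fun p _ => (h1 p).2⟩
  have hev : ∀ (S : Finset P) q, (B.ev (∑ p ∈ S, χ p) q).re = ∑ p ∈ S, (B.ev (χ p) q).re :=
    fun S q => by rw [map_sum, ContinuousMap.sum_apply, Complex.re_sum]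
  have hpos : ∀ q, 0 < (B.ev (∑ p ∈ t, χ p) q).re := fun q => by
    obtain ⟨p, hp, hq⟩ := Set.mem_iUnion₂.1 (ht (Set.mem_univ q))
    rw [hev]
    exact Finset.sum_pos' (fun p _ => h5 p q) ⟨p, hp, hq⟩
  obtain ⟨T, T0, hT⟩ := G.exists_inv (hre t).1 fun q e => (hpos q).ne' (by rw [e]; rfl)
  rw [neg_zero] at T0
  have hT' : star T = T := by
    have e := congrArg star hT
    rw [star_mul', (hre t).2, star_one] at e
    rw [← mul_one (star T), ← hT, ← mul_assoc, mul_comm (star T), e, one_mul]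
  have Tim := (B.re0_iff.1 ⟨T0, hT'⟩).2
  have Tpos : ∀ q, 0 ≤ (B.ev T q).re := fun q => by
    have e := congrArg (fun s => (B.ev s q).re) hT
    simp only [map_mul, ContinuousMap.mul_apply, Complex.mul_re, Tim q, mul_zero, sub_zero,
      map_one, ContinuousMap.one_apply, Complex.one_re] at e
    exact (pos_of_mul_pos_left (a := (B.ev T q).re) (by rw [mul_comm, e]; exact one_pos)
      (hpos q).le).le
  refine ⟨⟨fun i => T * ∑ p ∈ t with c p = i, χ p, fun i => ⋃ p ∈ t.filter (fun p => c p = i), K p,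
    fun i => ⟨B.mul_mem' T0 (hre _).1 (add_zero _), by rw [star_mul', hT', (hre _).2]⟩,
    fun i q => ?_, ?_, fun i => Finset.isCompact_biUnion _ fun p _ => h2 p, fun i => ?_,
    fun i => Supp.mul_left (fun q hq => ?_) T⟩⟩
  · rw [map_mul, ContinuousMap.mul_apply, Complex.mul_re, Tim q, zero_mul, sub_zero, hev]
    exact mul_nonneg (Tpos q) (Finset.sum_nonneg fun p _ => h5 p q)
  · rw [← Finset.mul_sum, Finset.sum_fiberwise, mul_comm, hT]
  · refine Set.iUnion₂_subset fun p hp => ?_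
    rw [← (Finset.mem_filter.1 hp).2]
    exact h3 p
  · rw [map_sum, ContinuousMap.sum_apply] at hq
    obtain ⟨p, hp, hq⟩ := Finset.exists_ne_zero_of_sum_ne_zero hq
    obtain ⟨k1, k2⟩ := h4 p q hq
    have e := (Finset.mem_filter.1 hp).2
    subst e
    exact ⟨k1, Set.mem_iUnion₂.2 ⟨p, hp, k2⟩⟩

/-- Coordinate vector fields over a compact part of a chart. -/
theorem exists_field {i : Fin a.n} {K : Set E4} (hK : IsCompact K) (hs : K ⊆ a.O i) (j : Fin 4) :
    ∃ g : Fin 4 → A, (∀ α, g α ∈ B.W (-wt α)) ∧ ∀ s ∈ B.W 0, ∀ y ∈ K,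
      B.ev (∑ α, g α * G.D α s) (a.pr i y) = pd j (fun y => B.ev s (a.pr i y)) y := by
  have h := fun k => a.atlB_ext hK hs (atlB_pd_sm (a.O_open i) (a.sm i (G.e k)) j)
  choose h h0 _ h1 using h
  refine ⟨fun α => ∑ k, G.θ α k * h k, fun α => Submodule.sum_mem _ fun k _ =>
    B.mul_mem' (G.θ_mem α k) (h0 k) (add_zero _), fun s s0 y hy => ?_⟩
  let C : Matrix (Fin 4) (Fin 4) ℂ := Matrix.of fun m α =>
    ∑ k, B.ev (G.θ α k) (a.pr i y) * pd m (fun y => B.ev (G.e k) (a.pr i y)) y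
  have e1 : a.V i y * C = 1 := by
    ext β α
    have e := congrArg (fun s => B.ev s (a.pr i y)) (G.θ_dual α β)
    simp only [map_sum, map_mul, ContinuousMap.sum_apply, ContinuousMap.mul_apply,
      a.der i y (hs hy) _ (G.e_re _).1, Finset.mul_sum] at e
    rw [Finset.sum_comm] at e
    rw [Matrix.mul_apply, Matrix.one_apply]
    simp only [C, Matrix.of_apply, Finset.mul_sum]
    rw [Finset.sum_congr rfl fun m _ => Finset.sum_congr rfl fun k _ => mul_left_comm _ _ _, e]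
    by_cases hαβ : α = β
    · simp [hαβ]
    · simp [hαβ, Ne.symm hαβ]
  have e2 : C * a.V i y = 1 := mul_eq_one_comm.1 e1
  have e3 : ∀ α, B.ev (∑ k, G.θ α k * h k) (a.pr i y) = C j α := fun α => by
    simp only [map_sum, map_mul, ContinuousMap.sum_apply, ContinuousMap.mul_apply,
      fun k => (h1 k).self_of_nhdsSet y hy, C, Matrix.of_apply]
  rw [map_sum, ContinuousMap.sum_apply]
  simp only [map_mul, ContinuousMap.mul_apply, e3, a.der i y (hs hy) s s0, Finset.mul_sum,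
    ← mul_assoc]
  rw [Finset.sum_comm]
  simp only [← Finset.sum_mul, ← Matrix.mul_apply, e2, Matrix.one_apply]
  simp

/-- A vector field in a chart. -/
theorem field_loc (i : Fin a.n) (g : Fin 4 → A) : ∃ v : Fin 4 → E4 → ℂ,
    (∀ j, ContDiffOn ℝ ∞ (v j) (a.O i)) ∧ ∀ s ∈ B.W 0, ∀ y ∈ a.O i,
      B.ev (∑ α, g α * G.D α s) (a.pr i y) =
        ∑ j, v j y * pd j (fun y => B.ev s (a.pr i y)) y := by
  refine ⟨fun j y => ∑ α, B.ev (g α) (a.pr i y) * a.V i y α j,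
    fun j => ContDiffOn.sum fun α _ => (a.sm i _).mul (a.V_sm i α j), fun s s0 y hy => ?_⟩
  rw [map_sum, ContinuousMap.sum_apply]
  simp only [map_mul, ContinuousMap.mul_apply, a.der i y hy s s0, Finset.mul_sum, Finset.sum_mul,
    mul_assoc]
  exact Finset.sum_comm

/-- The wedge product of four differentials in a chart. -/
theorem wg_dd_loc (i : Fin a.n) {y : E4} (hy : y ∈ a.O i) {s : Fin 4 → A} (hs : ∀ m, s m ∈ B.W 0) :
    B.ev (wg (G.dd (s 0) (s 1)) (G.dd (s 2) (s 3))) (a.pr i y) =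
      (a.V i y).det * (Matrix.of fun m j => pd j (fun y => B.ev (s m) (a.pr i y)) y).det := by
  rw [mul_comm, ← Matrix.det_transpose (a.V i y), ← Matrix.det_mul, ← atlB_det]
  have e : ∀ m α, ((Matrix.of fun m j => pd j (fun y => B.ev (s m) (a.pr i y)) y) *
      (a.V i y)ᵀ) m α = B.ev (G.D α (s m)) (a.pr i y) := fun m α => by
    rw [a.der i y hy _ (hs m), Matrix.mul_apply]
    exact Finset.sum_congr rfl fun j _ => mul_comm _ _
  simp only [wg, w1, e, Calc.dd, Calc.d0, map_add, map_sub, map_mul, ContinuousMap.add_apply,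
    ContinuousMap.sub_apply, ContinuousMap.mul_apply]

end Atl

end SW4
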