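import Pool.Agent.P.MP_0a0487_an.SW.DynDefs

/-! Atlases, Euclidean Sobolev norms and Euclidean smoothing kernels. -/

set_option autoImplicit false
set_option linter.unusedSectionVars false

noncomputable section

namespace SW4

open scoped ComplexOrder ContDiff
open Filter Topology

variable {P A : Type} [TopologicalSpace P] [CompactSpace P] [CommRing A] [StarRing A] [Algebra ℂ A]
  [StarModule ℂ A] {B : Base P A}

open MeasureTheory Matrix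

/-- The model space. -/
abbrev E4 := Fin 4 → ℝ

/-- The derivative in the `j`-th coordinate direction. -/
def pd (j : Fin 4) (φ : E4 → ℂ) : E4 → ℂ := fun y => fderiv ℝ φ y (Pi.single j 1)

/-- The Euclidean `L²` norm. -/
def e0 (φ : E4 → ℂ) : ℝ := √(∫ y, ‖φ y‖ ^ 2)

/-- Euclidean Sobolev norms. -/
def en : ℕ → (E4 → ℂ) → ℝ
  | 0, φ => e0 φ
  | k + 1, φ => e0 φ + ∑ j, en k (pd j φ)

/-- A smooth function vanishing outside `K`. -/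
def Test (K : Set E4) (φ : E4 → ℂ) : Prop := ContDiff ℝ ∞ φ ∧ ∀ y, y ∉ K → φ y = 0

/-- A family of smooth kernels with uniform bounds on all derivatives. -/
structure Ker (K : Set E4) (r : ℝ) (k : ℕ → E4 × E4 → ℂ) : Prop where
  smooth : ∀ n, ContDiff ℝ ∞ (k n)
  bdd : ∀ m, ∃ C : ℝ, ∀ n x, ‖iteratedFDeriv ℝ m (k n) x‖ ≤ C
  supp : ∀ n y z, k n (y, z) ≠ 0 → y ∈ K ∧ ‖z‖ ≤ r

/-- The smoothing operator of a kernel at scale `1 / (n + 1)`. -/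
def kop (k : ℕ → E4 × E4 → ℂ) (n : ℕ) (φ : E4 → ℂ) : E4 → ℂ :=
  fun y => ∫ z, k n (y, z) * φ (y - ((n : ℝ) + 1)⁻¹ • z)

/-- A finite atlas of the base manifold with local sections of the frame bundle. -/
structure Atl (G : Calc B) where
  n : ℕ
  O : Fin n → Set E4
  U : Fin n → Set P
  ψ : Fin n → P → E4
  pr : Fin n → E4 → P
  V : Fin n → E4 → Matrix (Fin 4) (Fin 4) ℂ
  O_open : ∀ i, IsOpen (O i)
  O_convex : ∀ i, Convex ℝ (O i)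
  U_open : ∀ i, IsOpen (U i)
  cover : ∀ p, ∃ i, p ∈ U i
  ψ_mem : ∀ i, ∀ p ∈ U i, ψ i p ∈ O i
  ψ_cont : ∀ i, ContinuousOn (ψ i) (U i)
  pr_mem : ∀ i, ∀ y ∈ O i, pr i y ∈ U i
  pr_cont : ∀ i, ContinuousOn (pr i) (O i)
  ψ_pr : ∀ i, ∀ y ∈ O i, ψ i (pr i y) = y
  inv0 : ∀ i, ∀ p ∈ U i, ∀ s ∈ B.W 0, B.ev s (pr i (ψ i p)) = B.ev s p
  E_inj : ∀ i, ∀ p ∈ U i, ∀ q, G.E q = G.E p → q ∈ U i ∧ ψ i q = ψ i p
  closed : ∀ i K, IsCompact K → K ⊆ O i → IsClosed (U i ∩ ψ i ⁻¹' K)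
  trans : ∀ i j, ContDiffOn ℝ ∞ (fun y => ψ j (pr i y)) (O i ∩ pr i ⁻¹' U j)
  sm : ∀ i s, ContDiffOn ℝ ∞ (fun y => B.ev s (pr i y)) (O i)
  V_sm : ∀ i α j, ContDiffOn ℝ ∞ (fun y => V i y α j) (O i)
  der : ∀ i, ∀ y ∈ O i, ∀ s ∈ B.W 0, ∀ α,
    B.ev (G.D α s) (pr i y) = ∑ j, V i y α j * pd j (fun y => B.ev s (pr i y)) y
  glue : ∀ f : P → ℂ, (∀ i, ∀ p ∈ U i, f (pr i (ψ i p)) = f p) →
    (∀ i, ContDiffOn ℝ ∞ (fun y => f (pr i y)) (O i)) → ∃ s ∈ B.W 0, ∀ p, B.ev s p = f p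
  conn : ∀ f : P → ℂ, (∀ i, ∀ p ∈ U i, ∀ q ∈ U i, f p = f q) → ∀ p q, f p = f q

namespace Atl

variable {G : Calc B} (a : Atl G)

/-- The local representative of `s` in the chart `i`, extended by zero. -/
def loc (i : Fin a.n) (s : A) : E4 → ℂ := (a.O i).indicator fun y => B.ev s (a.pr i y)

/-- The density of the volume in the chart `i`. -/
def dens (i : Fin a.n) (y : E4) : ℝ := ‖(a.V i y).det‖⁻¹

/-- `s` vanishes outside the part `K` of the chart `i`. -/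
def Supp (i : Fin a.n) (K : Set E4) (s : A) : Prop :=
  ∀ p, B.ev s p ≠ 0 → p ∈ a.U i ∧ a.ψ i p ∈ K

/-- A partition of unity subordinate to the atlas. -/
structure POU where
  ρ : Fin a.n → A
  K : Fin a.n → Set E4
  re : ∀ i, B.Re0 (ρ i)
  nonneg : ∀ i p, 0 ≤ (B.ev (ρ i) p).re
  sum : ∑ i, ρ i = 1
  cpt : ∀ i, IsCompact (K i)
  sub : ∀ i, K i ⊆ a.O i
  supp : ∀ i, a.Supp i (K i) (ρ i)

/-- Vanishing of the first real Cech cohomology group. -/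
def Cech : Prop := ∀ u : Fin a.n → E4 → ℝ, (∀ i j, ∀ p ∈ a.U i ∩ a.U j, ∀ᶠ q in 𝓝 p,
    u i (a.ψ i q) - u j (a.ψ j q) = u i (a.ψ i p) - u j (a.ψ j p)) →
  ∃ c : Fin a.n → ℝ, ∀ i j, ∀ p ∈ a.U i ∩ a.U j, u i (a.ψ i p) - c i = u j (a.ψ j p) - c j

end Atl

/-- The integral is given in charts by the density. -/
def IsInt (G : Pre B) (a : Atl G.toCalc) : Prop :=
  ∀ i K, IsCompact K → K ⊆ a.O i → ∀ s ∈ B.W 0, a.Supp i K s →
    G.I s = ∫ y, a.loc i s y * a.dens i y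

/-- An orientation preserving diffeomorphism, without the change of variables formula. -/
structure PMap (G : Calc B) where
  pt : P → P
  pt' : P → P
  Φ : A → A
  Φ' : A → A
  J : P → Matrix (Fin 4) (Fin 4) ℝ
  mem : ∀ s ∈ B.W 0, Φ s ∈ B.W 0
  mem' : ∀ s ∈ B.W 0, Φ' s ∈ B.W 0
  ev_eq : ∀ s ∈ B.W 0, ∀ p, B.ev (Φ s) p = B.ev s (pt p)
  ev_eq' : ∀ s ∈ B.W 0, ∀ p, B.ev (Φ' s) p = B.ev s (pt' p)
  inv : ∀ p, G.E (pt' (pt p)) = G.E p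
  inv' : ∀ p, G.E (pt (pt' p)) = G.E p
  chain : ∀ s ∈ B.W 0, ∀ p v, G.dv (Φ s) p v = G.dv s (pt p) (J p *ᵥ v)
  det_pos : ∀ p, 0 < (J p).det

end SW4
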