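import Pool.Agent.P.MP_0a0487_an.SW.Sob

/-! Sobolev norms of products. -/

set_option autoImplicit false
set_option linter.unusedSectionVars false

noncomputable section

namespace SW4

open scoped ComplexOrder ContDiff
open Filter Topology

variable {P A : Type} [TopologicalSpace P] [CompactSpace P] [CommRing A] [StarRing A] [Algebra ℂ A]
  [StarModule ℂ A] {B : Base P A}

namespace Geo

variable (G : Geo B)

theorem prod_step (k : ℕ) (s t : A) {X Y : ℝ} (hX : ∀ α, G.nn k (G.D α s * t) ≤ X)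
    (hY : ∀ α, G.nn k (s * G.D α t) ≤ Y) :
    G.nn (k + 1) (s * t) ≤ G.nrm (s * t) + 4 * (X + Y) := by
  have h : ∀ α, G.nn k (G.D α (s * t)) ≤ X + Y := by
    intro α
    rw [G.D_mul]
    exact (G.nn_add k _ _).trans (add_le_add (hX α) (hY α))
  have h2 : ∑ α, G.nn k (G.D α (s * t)) ≤ 4 * (X + Y) := by
    rw [Fin.sum_univ_four]
    linarith [h 0, h 1, h 2, h 3]
  change G.nrm (s * t) + ∑ α, G.nn k (G.D α (s * t)) ≤ _
  linarith

theorem prod_nrm (s t : A) : G.nrm (s * t) ≤ ‖B.ev t‖ * G.nrm s := by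
  rw [mul_comm s t]
  exact G.nrm_mul_le t s

theorem prod_mid (k : ℕ) : ∃ C : ℝ, 0 ≤ C ∧ ∀ s t, B.Hom s → B.Hom t →
    G.nn k (s * t) ≤ C * (G.nn (k + 1) s * G.nn (k + 1) t) := by
  obtain ⟨C0, hC0, h0⟩ := G.mul4
  induction k with
  | zero => exact ⟨C0, hC0, h0⟩
  | succ k ih =>
    obtain ⟨C, hC, h⟩ := ih
    refine ⟨C0 + 8 * C, by positivity, fun s t hs ht => ?_⟩
    have n1 := G.nn_nonneg
    have h1 := G.prod_step k s t (X := C * (G.nn (k + 2) s * G.nn (k + 2) t))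
      (Y := C * (G.nn (k + 2) s * G.nn (k + 2) t))
      (fun α => (h _ _ (G.D_hom α hs) ht).trans (mul_le_mul_of_nonneg_left
        (mul_le_mul (G.nn_D _ α s) (G.nn_mono (by omega) t) (n1 _ _) (n1 _ _)) hC))
      (fun α => (h _ _ hs (G.D_hom α ht)).trans (mul_le_mul_of_nonneg_left
        (mul_le_mul (G.nn_mono (by omega) s) (G.nn_D _ α t) (n1 _ _) (n1 _ _)) hC))
    have h2 : G.nrm (s * t) ≤ C0 * (G.nn (k + 2) s * G.nn (k + 2) t) :=
      (h0 s t hs ht).trans (mul_le_mul_of_nonneg_left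
        (mul_le_mul (G.nn_mono (by omega) s) (G.nn_mono (by omega) t) (n1 _ _) (n1 _ _)) hC0)
    change _ ≤ (C0 + 8 * C) * (G.nn (k + 2) s * G.nn (k + 2) t)
    linarith

theorem prod_left (k : ℕ) : ∃ C : ℝ, 0 ≤ C ∧ ∀ s t, B.Hom s → B.Hom t →
    G.nn k (s * t) ≤ C * (‖B.ev t‖ * G.nn k s + G.nn k s * G.nn (k + 1) t) := by
  have n1 := G.nn_nonneg
  induction k with
  | zero =>
    refine ⟨1, zero_le_one, fun s t _ _ => ?_⟩
    have h1 : G.nn 0 (s * t) ≤ ‖B.ev t‖ * G.nn 0 s := G.prod_nrm s t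
    have h2 := mul_nonneg (n1 0 s) (n1 (0 + 1) t)
    linarith
  | succ k ih =>
    obtain ⟨C, hC, h⟩ := ih
    obtain ⟨M, hM, hm⟩ := G.prod_mid k
    refine ⟨1 + 4 * C + 4 * M, by positivity, fun s t hs ht => ?_⟩
    have h1 := G.prod_step k s t
      (X := C * (‖B.ev t‖ * G.nn (k + 1) s + G.nn (k + 1) s * G.nn (k + 2) t))
      (Y := M * (G.nn (k + 1) s * G.nn (k + 2) t))
      (fun α => (h _ _ (G.D_hom α hs) ht).trans (mul_le_mul_of_nonneg_left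
        (add_le_add (mul_le_mul_of_nonneg_left (G.nn_D _ α s) (norm_nonneg _))
          (mul_le_mul (G.nn_D _ α s) (G.nn_mono (by omega) t) (n1 _ _) (n1 _ _))) hC))
      (fun α => (hm _ _ hs (G.D_hom α ht)).trans (mul_le_mul_of_nonneg_left
        (mul_le_mul_of_nonneg_left (G.nn_D _ α t) (n1 _ _)) hM))
    have h2 : G.nrm (s * t) ≤ ‖B.ev t‖ * G.nn (k + 1) s :=
      (G.prod_nrm s t).trans (mul_le_mul_of_nonneg_left (G.nrm_le_nn _ s) (norm_nonneg _))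
    have h3 := mul_nonneg (norm_nonneg (B.ev t)) (n1 (k + 1) s)
    have h4 := mul_nonneg (n1 (k + 1) s) (n1 (k + 2) t)
    have h5 := mul_nonneg hM h3
    change _ ≤ (1 + 4 * C + 4 * M) *
      (‖B.ev t‖ * G.nn (k + 1) s + G.nn (k + 1) s * G.nn (k + 2) t)
    nlinarith

theorem prod_eight : ∃ C : ℝ, 0 ≤ C ∧ ∀ (k : ℕ) (s t : A), B.Hom s → B.Hom t →
    G.nrm (s * t) ≤ C * (G.nn 2 s * √(G.nn k t * G.nn (k + 1) t)) := by
  obtain ⟨C, hC, h⟩ := G.mul8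
  have n1 := G.nn_nonneg
  refine ⟨√C, Real.sqrt_nonneg _, fun k s t hs ht => ?_⟩
  have h1 : G.nrm t * G.nn 1 t ≤ G.nn k t * G.nn (k + 1) t :=
    mul_le_mul (G.nrm_le_nn _ t) (G.nn_mono (by omega) t) (n1 _ _) (n1 _ _)
  have h2 : G.nrm (s * t) ^ 2 ≤ (√C * (G.nn 2 s * √(G.nn k t * G.nn (k + 1) t))) ^ 2 := by
    rw [mul_pow, mul_pow, Real.sq_sqrt hC, Real.sq_sqrt (mul_nonneg (n1 _ _) (n1 _ _))]
    exact (h s t hs ht).trans (mul_le_mul_of_nonneg_left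
      (mul_le_mul_of_nonneg_left h1 (sq_nonneg _)) hC)
  exact (pow_le_pow_iff_left₀ (G.nrm_nonneg _)
    (mul_nonneg (Real.sqrt_nonneg _) (mul_nonneg (n1 _ _) (Real.sqrt_nonneg _))) two_ne_zero).1 h2

theorem prod_sqrt (k : ℕ) (α : Fin 4) (t : A) :
    √(G.nn k (G.D α t) * G.nn (k + 1) (G.D α t)) ≤ √(G.nn (k + 1) t * G.nn (k + 2) t) :=
  Real.sqrt_le_sqrt (mul_le_mul (G.nn_D _ α t) (G.nn_D _ α t) (G.nn_nonneg _ _) (G.nn_nonneg _ _))

theorem prod_right (k : ℕ) : ∃ C : ℝ, 0 ≤ C ∧ ∀ s t, B.Hom s → B.Hom t →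
    G.nn k (s * t) ≤
      C * (G.nn 2 s * √(G.nn k t * G.nn (k + 1) t) + G.nn (k + 1) s * G.nn k t) := by
  have n1 := G.nn_nonneg
  obtain ⟨E, hE, he⟩ := G.prod_eight
  induction k with
  | zero =>
    refine ⟨E, hE, fun s t hs ht => ?_⟩
    have h1 : G.nn 0 (s * t) ≤ _ := he 0 s t hs ht
    have h2 := mul_nonneg hE (mul_nonneg (n1 (0 + 1) s) (n1 0 t))
    linarith
  | succ k ih =>
    obtain ⟨C, hC, h⟩ := ih
    obtain ⟨M, hM, hm⟩ := G.prod_mid k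
    refine ⟨E + 4 * C + 4 * M, by positivity, fun s t hs ht => ?_⟩
    have h1 := G.prod_step k s t
      (X := M * (G.nn (k + 2) s * G.nn (k + 1) t))
      (Y := C * (G.nn 2 s * √(G.nn (k + 1) t * G.nn (k + 2) t) + G.nn (k + 2) s * G.nn (k + 1) t))
      (fun α => (hm _ _ (G.D_hom α hs) ht).trans (mul_le_mul_of_nonneg_left
        (mul_le_mul_of_nonneg_right (G.nn_D _ α s) (n1 _ _)) hM))
      (fun α => (h _ _ hs (G.D_hom α ht)).trans (mul_le_mul_of_nonneg_left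
        (add_le_add (mul_le_mul_of_nonneg_left (G.prod_sqrt k α t) (n1 _ _))
          (mul_le_mul (G.nn_mono (by omega) s) (G.nn_D _ α t) (n1 _ _) (n1 _ _))) hC))
    have h2 : G.nrm (s * t) ≤ E * (G.nn 2 s * √(G.nn (k + 1) t * G.nn (k + 2) t)) :=
      he (k + 1) s t hs ht
    have h3 := mul_nonneg (n1 2 s) (Real.sqrt_nonneg (G.nn (k + 1) t * G.nn (k + 2) t))
    have h4 := mul_nonneg (n1 (k + 2) s) (n1 (k + 1) t)
    have h5 := mul_nonneg hM h3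
    have h6 := mul_nonneg hE h4
    change _ ≤ (E + 4 * C + 4 * M) *
      (G.nn 2 s * √(G.nn (k + 1) t * G.nn (k + 2) t) + G.nn (k + 2) s * G.nn (k + 1) t)
    nlinarith

theorem prod_sup (k : ℕ) : ∃ C : ℝ, 0 ≤ C ∧ ∀ s t, B.Hom s → B.Hom t →
    G.nn k (s * t) ≤
      C * (‖B.ev t‖ * G.nn k s + G.nn k s * G.nn k t + ‖B.ev s‖ * G.nn k t) := by
  have n1 := G.nn_nonneg
  cases k with
  | zero =>
    refine ⟨1, zero_le_one, fun s t _ _ => ?_⟩
    have h1 : G.nn 0 (s * t) ≤ ‖B.ev t‖ * G.nn 0 s := G.prod_nrm s t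
    have h2 := mul_nonneg (n1 0 s) (n1 0 t)
    have h3 := mul_nonneg (norm_nonneg (B.ev s)) (n1 0 t)
    linarith
  | succ k =>
    obtain ⟨C, hC, h⟩ := G.prod_left k
    refine ⟨1 + 8 * C, by positivity, fun s t hs ht => ?_⟩
    have h1 := G.prod_step k s t
      (X := C * (‖B.ev t‖ * G.nn (k + 1) s + G.nn (k + 1) s * G.nn (k + 1) t))
      (Y := C * (‖B.ev s‖ * G.nn (k + 1) t + G.nn (k + 1) t * G.nn (k + 1) s))
      (fun α => (h _ _ (G.D_hom α hs) ht).trans (mul_le_mul_of_nonneg_left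
        (add_le_add (mul_le_mul_of_nonneg_left (G.nn_D _ α s) (norm_nonneg _))
          (mul_le_mul_of_nonneg_right (G.nn_D _ α s) (n1 _ _))) hC))
      (fun α => by
        rw [mul_comm s]
        exact (h _ _ (G.D_hom α ht) hs).trans (mul_le_mul_of_nonneg_left
          (add_le_add (mul_le_mul_of_nonneg_left (G.nn_D _ α t) (norm_nonneg _))
            (mul_le_mul_of_nonneg_right (G.nn_D _ α t) (n1 _ _))) hC))
    have h2 : G.nrm (s * t) ≤ ‖B.ev t‖ * G.nn (k + 1) s :=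
      (G.prod_nrm s t).trans (mul_le_mul_of_nonneg_left (G.nrm_le_nn _ s) (norm_nonneg _))
    have h3 := mul_nonneg (norm_nonneg (B.ev t)) (n1 (k + 1) s)
    have h4 := mul_nonneg (n1 (k + 1) s) (n1 (k + 1) t)
    have h5 := mul_nonneg (norm_nonneg (B.ev s)) (n1 (k + 1) t)
    have h6 := mul_nonneg hC h3
    have h7 := mul_nonneg hC h5
    nlinarith

theorem prod_int (k : ℕ) : ∃ C : ℝ, 0 ≤ C ∧ ∀ s t, B.Hom s → B.Hom t →
    G.nn k (s * t) ≤ C * (‖B.ev t‖ * G.nn k s + G.nn k s * G.nn k t +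
      G.nn 2 s * √(G.nn k t * G.nn (k + 1) t)) := by
  have n1 := G.nn_nonneg
  cases k with
  | zero =>
    refine ⟨1, zero_le_one, fun s t _ _ => ?_⟩
    have h1 : G.nn 0 (s * t) ≤ ‖B.ev t‖ * G.nn 0 s := G.prod_nrm s t
    have h2 := mul_nonneg (n1 0 s) (n1 0 t)
    have h3 := mul_nonneg (n1 2 s) (Real.sqrt_nonneg (G.nn 0 t * G.nn (0 + 1) t))
    linarith
  | succ k =>
    obtain ⟨C, hC, h⟩ := G.prod_left k
    obtain ⟨E, hE, he⟩ := G.prod_right k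
    refine ⟨1 + 4 * C + 4 * E, by positivity, fun s t hs ht => ?_⟩
    have h1 := G.prod_step k s t
      (X := C * (‖B.ev t‖ * G.nn (k + 1) s + G.nn (k + 1) s * G.nn (k + 1) t))
      (Y := E * (G.nn 2 s * √(G.nn (k + 1) t * G.nn (k + 2) t) + G.nn (k + 1) s * G.nn (k + 1) t))
      (fun α => (h _ _ (G.D_hom α hs) ht).trans (mul_le_mul_of_nonneg_left
        (add_le_add (mul_le_mul_of_nonneg_left (G.nn_D _ α s) (norm_nonneg _))
          (mul_le_mul_of_nonneg_right (G.nn_D _ α s) (n1 _ _))) hC))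
      (fun α => (he _ _ hs (G.D_hom α ht)).trans (mul_le_mul_of_nonneg_left
        (add_le_add (mul_le_mul_of_nonneg_left (G.prod_sqrt k α t) (n1 _ _))
          (mul_le_mul_of_nonneg_left (G.nn_D _ α t) (n1 _ _))) hE))
    have h2 : G.nrm (s * t) ≤ ‖B.ev t‖ * G.nn (k + 1) s :=
      (G.prod_nrm s t).trans (mul_le_mul_of_nonneg_left (G.nrm_le_nn _ s) (norm_nonneg _))
    have h3 := mul_nonneg (norm_nonneg (B.ev t)) (n1 (k + 1) s)
    have h4 := mul_nonneg (n1 (k + 1) s) (n1 (k + 1) t)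
    have h5 := mul_nonneg (n1 2 s) (Real.sqrt_nonneg (G.nn (k + 1) t * G.nn (k + 2) t))
    have h6 := mul_nonneg hE h3
    have h7 := mul_nonneg hC h5
    change _ ≤ (1 + 4 * C + 4 * E) * (‖B.ev t‖ * G.nn (k + 1) s + G.nn (k + 1) s * G.nn (k + 1) t +
      G.nn 2 s * √(G.nn (k + 1) t * G.nn (k + 2) t))
    nlinarith

/-- The Sobolev spaces of order at least four are closed under products. -/
theorem prod_alg (u v : Wt) {k : ℕ} (hk : 4 ≤ k) : ∃ C : ℝ, 0 ≤ C ∧ ∀ s ∈ B.W u, ∀ t ∈ B.W v,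
    G.nn k (s * t) ≤ C * (G.nn k s * G.nn k t) := by
  have n1 := G.nn_nonneg
  obtain ⟨C, hC, h⟩ := G.prod_sup k
  obtain ⟨U, hU, hu⟩ := G.supW u
  obtain ⟨V, hV, hv⟩ := G.supW v
  refine ⟨C * (V + 1 + U), by positivity, fun s hs t ht => ?_⟩
  have h1 : ‖B.ev s‖ ≤ U * G.nn k s :=
    (hu s hs).trans (mul_le_mul_of_nonneg_left (G.nn_mono hk s) hU)
  have h2 : ‖B.ev t‖ ≤ V * G.nn k t :=
    (hv t ht).trans (mul_le_mul_of_nonneg_left (G.nn_mono hk t) hV)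
  have h3 := mul_le_mul_of_nonneg_right h1 (n1 k t)
  have h4 := mul_le_mul_of_nonneg_right h2 (n1 k s)
  refine (h s t ⟨u, hs⟩ ⟨v, ht⟩).trans ?_
  rw [mul_assoc C]
  refine mul_le_mul_of_nonneg_left ?_ hC
  nlinarith

end Geo

end SW4
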