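import Pool.Agent.P.MP_0a0487_an.SW.Defs

/-! Vanishing of Cech cohomology from the fundamental group. -/

set_option autoImplicit false
set_option linter.unusedSectionVars false

noncomputable section

namespace SW4

open scoped ContDiff
open Filter Topology Matrix

/-- The range of the map induced by a finite covering has finite index, so the covering space
has no nontrivial character with values in the reals. -/
theorem CechT_char {X M : Type} [TopologicalSpace X] [TopologicalSpace M] {p : X → M}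
    (hp : IsCoveringMap p) (x : X) (hfin : (p ⁻¹' {p x}).Finite)
    (H : ∀ S : Subgroup (FundamentalGroup M (p x)), S.FiniteIndex →
      ∀ φ : S →* Multiplicative ℝ, φ = 1)
    (ψ : FundamentalGroup X x →* Multiplicative ℝ) (γ : FundamentalGroup X x) : ψ γ = 1 := by
  let f : FundamentalGroup X x →* FundamentalGroup M (p x) :=
    FundamentalGroup.map ⟨p, hp.continuous⟩ x
  have hf : Function.Injective f := hp.injective_path_homotopic_map x x
  have : Finite (p ⁻¹' {p x}) := hfin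
  have hk : (hp.monodromyPerm (p x)).ker ≤ f.range := by
    intro δ hδ
    have e : hp.monodromy δ ⟨x, rfl⟩ = ⟨x, rfl⟩ :=
      congrArg (fun σ : Equiv.Perm (p ⁻¹' {p x}) => σ ⟨x, rfl⟩) (MonoidHom.mem_ker.1 hδ)
    refine ⟨(hp.liftPathQuotient δ ⟨x, rfl⟩).cast rfl (congrArg Subtype.val e).symm, ?_⟩
    show Path.Homotopic.Quotient.map _ _ = _
    rw [Path.Homotopic.Quotient.map_cast, IsCoveringMap.map_liftPathQuotient]
    exact eq_of_heq ((Path.Homotopic.Quotient.cast_heq _ _).trans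
      (Path.Homotopic.Quotient.cast_heq _ _))
  have h1 := H f.range (Subgroup.finiteIndex_of_le hk)
    (ψ.comp (MonoidHom.ofInjective hf).symm.toMonoidHom)
  have h2 := DFunLike.congr_fun h1 (MonoidHom.ofInjective hf γ)
  simpa using h2

/-- The space of germs of local solutions. -/
structure CechTZ {X ι : Type} (U : ι → Set X) (u : ι → X → ℝ) where
  /-- The base point. -/
  pt : X
  /-- The value. -/
  val : ℝ

instance CechTZ.top {X ι : Type} [TopologicalSpace X] (U : ι → Set X) (u : ι → X → ℝ) :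
    TopologicalSpace (CechTZ U u) where
  IsOpen W := ∀ z ∈ W, ∀ i, z.pt ∈ U i →
    ∀ᶠ y in 𝓝 z.pt, (⟨y, z.val + (u i y - u i z.pt)⟩ : CechTZ U u) ∈ W
  isOpen_univ := fun _ _ _ _ => Eventually.of_forall fun _ => trivial
  isOpen_inter := fun _ _ h₁ h₂ z hz i hi => (h₁ z hz.1 i hi).and (h₂ z hz.2 i hi)
  isOpen_sUnion := fun _ h z ⟨W, hW, hz⟩ i hi => (h W hW z hz i hi).mono fun _ hy => ⟨W, hW, hy⟩

instance CechTZ.act {X ι : Type} (U : ι → Set X) (u : ι → X → ℝ) : AddAction ℝ (CechTZ U u) where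
  vadd g z := ⟨z.pt, g + z.val⟩
  zero_vadd z := congrArg (CechTZ.mk z.pt) (zero_add _)
  add_vadd _ _ z := congrArg (CechTZ.mk z.pt) (add_assoc _ _ _)

theorem CechT_open {X ι : Type} [TopologicalSpace X] {U : ι → Set X} (hU : ∀ i, IsOpen (U i))
    {u : ι → X → ℝ} (h : ∀ i j, ∀ x ∈ U i ∩ U j, ∀ᶠ y in 𝓝 x, u i y - u j y = u i x - u j x)
    (i : ι) (c : ℝ) : IsOpen {z : CechTZ U u | z.pt ∈ U i ∧ z.val = c + u i z.pt} := by
  rintro z ⟨h1, h2⟩ j hj
  filter_upwards [(hU i).mem_nhds h1, h i j z.pt ⟨h1, hj⟩] with y hy hy'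
  exact ⟨hy, show z.val + (u j y - u j z.pt) = c + u i y by linarith⟩

theorem CechT_cover {X ι : Type} [TopologicalSpace X] {U : ι → Set X} (hU : ∀ i, IsOpen (U i))
    (hc : ∀ x, ∃ i, x ∈ U i) {u : ι → X → ℝ}
    (h : ∀ i j, ∀ x ∈ U i ∩ U j, ∀ᶠ y in 𝓝 x, u i y - u j y = u i x - u j x) :
    IsAddQuotientCoveringMap (CechTZ.pt : CechTZ U u → X) ℝ where
  toIsQuotientMap := ⟨isCoinducing_iff.2 fun O =>
    ⟨fun hO => isOpen_iff_mem_nhds.2 fun x hx => (hc x).elim fun i hi => hO ⟨x, 0⟩ hx i hi,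
      fun hO z hz _ _ => hO.mem_nhds hz⟩, fun x => ⟨⟨x, 0⟩, rfl⟩⟩
  continuous_const_vadd g := ⟨fun W hW z hz i hi => (hW (g +ᵥ z) hz i hi).mono fun y hy => by
    have e : g +ᵥ (⟨y, z.val + (u i y - u i z.pt)⟩ : CechTZ U u) =
        ⟨y, (g + z.val) + (u i y - u i z.pt)⟩ := congrArg (CechTZ.mk y) (add_assoc _ _ _).symm
    rw [Set.mem_preimage, e]
    exact hy⟩
  apply_eq_iff_mem_orbit := by
    rintro ⟨x, s⟩ ⟨y, t⟩
    constructor
    · rintro (rfl : x = y)
      exact ⟨s - t, congrArg (CechTZ.mk x) (sub_add_cancel _ _)⟩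
    · rintro ⟨g, hg⟩
      exact (congrArg CechTZ.pt hg).symm
  disjoint z := by
    obtain ⟨i, hi⟩ := hc z.pt
    refine ⟨_, (CechT_open hU h i (z.val - u i z.pt)).mem_nhds ⟨hi, (sub_add_cancel _ _).symm⟩, ?_⟩
    rintro g ⟨_, ⟨w, hw, rfl⟩, hw'⟩
    have e : g + w.val = z.val - u i z.pt + u i w.pt := hw'.2
    linarith [hw.2]

theorem cech_of_pi1 {X M : Type} [TopologicalSpace X] [TopologicalSpace M] [PathConnectedSpace X]
    [LocallyPathConnectedSpace X] {p : X → M} (hp : IsCoveringMap p) {x₀ : M}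
    (hfin : (p ⁻¹' {x₀}).Finite) (hx : x₀ ∈ Set.range p)
    (H : ∀ S : Subgroup (FundamentalGroup M x₀), S.FiniteIndex →
      ∀ φ : S →* Multiplicative ℝ, φ = 1)
    {ι : Type} (U : ι → Set X) (hU : ∀ i, IsOpen (U i)) (hc : ∀ x, ∃ i, x ∈ U i)
    (hconn : ∀ i, IsPreconnected (U i)) (u : ι → X → ℝ)
    (h : ∀ i j, ∀ x ∈ U i ∩ U j, ∀ᶠ y in 𝓝 x, u i y - u j y = u i x - u j x) :
    ∃ c : ι → ℝ, ∀ i j, ∀ x ∈ U i ∩ U j, u i x - c i = u j x - c j := by
  obtain ⟨x₁, rfl⟩ := hx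
  have hq := CechT_cover hU hc h
  let e : (CechTZ.pt : CechTZ U u → X) ⁻¹' {x₁} := ⟨⟨x₁, 0⟩, rfl⟩
  have hr : ∀ γ, γ ∈ (FundamentalGroup.mapOfEq (x := e.1) (y := x₁)
      ⟨CechTZ.pt, hq.continuous⟩ e.2).range := by
    intro γ
    rw [← hq.ker_monodromyPerm e, ← hq.ker_fundamentalGroupToMulOpposite e, MonoidHom.mem_ker]
    have := CechT_char hp x₁ hfin H (MulOpposite.opMulEquiv.symm.toMonoidHom.comp
      (hq.fundamentalGroupToMulOpposite e)) γ
    exact MulOpposite.unop_injective this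
  obtain ⟨F, ⟨-, hF⟩, -⟩ := hq.isCoveringMap.existsUnique_continuousMap_lifts_of_range_le
    (f := ContinuousMap.id X) (a₀ := x₁) (e₀ := e.1) e.2 fun γ _ => hr γ
  have hpt : ∀ x, (F x).pt = x := fun x => congrFun hF x
  have loc : ∀ i, ∀ x ∈ U i, ∀ᶠ y in 𝓝 x, u i y - (F y).val = u i x - (F x).val := by
    intro i x hx
    have := F.continuous.continuousAt (x := x) ((CechT_open hU h i ((F x).val - u i x)).mem_nhds
      ⟨by rwa [hpt], by rw [hpt, sub_add_cancel]⟩)
    filter_upwards [this] with y hy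
    have h2 : (F y).val = (F x).val - u i x + u i (F y).pt := hy.2
    rw [hpt] at h2
    linarith
  have cst : ∀ i, ∃ c : ℝ, ∀ x ∈ U i, u i x - (F x).val = c := by
    intro i
    rcases (U i).eq_empty_or_nonempty with h0 | ⟨x₂, h2⟩
    · exact ⟨0, fun x hx => absurd (h0 ▸ hx) (Set.notMem_empty x)⟩
    · exact ⟨u i x₂ - (F x₂).val, fun x hx => (hconn i).induction₂'
        (fun x y => u i x - (F x).val = u i y - (F y).val)
        (fun z hz => ((loc i z hz).filter_mono nhdsWithin_le_nhds).mono fun y hy => ⟨hy.symm, hy⟩)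
        (fun _ _ _ _ _ _ h₁ h₂ => h₁.trans h₂) hx h2⟩
  choose c hc' using cst
  exact ⟨c, fun i j x hx => by rw [← hc' i x hx.1, ← hc' j x hx.2]; ring⟩

end SW4
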