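import Pool.Agent.P.MP_0a0487_an.SW.FrDefs

/-! Chain transitivity on a finite cover. -/

set_option autoImplicit false
set_option linter.unusedSectionVars false

noncomputable section

namespace SW4

open scoped ContDiff
open Filter Topology Matrix

theorem NonW.symm {M : Type} [TopologicalSpace M] {f : M ≃ₜ M} (h : NonW f) : NonW f.symm := by
  intro S hS hne
  obtain ⟨m, hm, _, ⟨x, hx, rfl⟩, hx'⟩ := h S hS hne
  exact ⟨m, hm, x, ⟨_, hx', (Function.LeftInverse.iterate f.symm_apply_apply m) x⟩, hx⟩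

theorem chainT_count {Y M : Type} [TopologicalSpace Y] [TopologicalSpace M]
    {f : M → M} (hf : NonW f) (F : Y ≃ₜ Y) (π : Y → M)
    (hπ : IsOpenMap π) (hF : ∀ y, π (F y) = f (π y)) {Γ : Type} [Group Γ] [Fintype Γ]
    [MulAction Γ Y] (hc : ∀ g : Γ, Continuous fun y : Y => g • y)
    (comm : ∀ (g : Γ) y, F (g • y) = g • F y) (fib : ∀ y y', π y = π y' → ∃ g : Γ, y' = g • y)
    {k : ℕ} {R W : Set Y} (oR : IsOpen R) (inv : R ⊆ F^[k] ⁻¹' R) (oW : IsOpen W)
    (ne : W.Nonempty) (hW : ∀ w ∈ W, F^[k] w ∈ R ∧ w ∉ R) : False := by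
  classical
  have ci : ∀ (n : ℕ) (g : Γ) y, F^[n] (g • y) = g • F^[n] y := fun n g y =>
    Function.Semiconj.iterate_right (f := fun y => g • y) (fun y => (comm g y).symm) n y |>.symm
  let a : Y → ℕ := fun y => (Finset.univ.filter fun g : Γ => g • y ∈ R).card
  let c : Y → ℕ := fun y => ∑ j ∈ Finset.range k, a (F^[j] y)
  have a1 : ∀ (g : Γ) y, a (g • y) = a y := fun g y =>
    Finset.card_bijective (· * g) (Group.mulRight_bijective g) fun h => by simp [mul_smul]
  have c1 : ∀ (g : Γ) y, c (g • y) = c y := fun g y =>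
    Finset.sum_congr rfl fun j _ => by rw [ci, a1]
  have sub : ∀ y, (Finset.univ.filter fun g : Γ => g • y ∈ R) ⊆
      Finset.univ.filter fun g : Γ => g • F^[k] y ∈ R := fun y g hg => by
    simp only [Finset.mem_filter, Finset.mem_univ, true_and] at hg ⊢
    rw [← ci]
    exact inv hg
  have c2 : ∀ y, c (F y) + a y = c y + a (F^[k] y) := fun y =>
    (Finset.sum_range_succ' (fun j => a (F^[j] y)) k).symm.trans (Finset.sum_range_succ _ k)
  have c3 : ∀ y, c y ≤ c (F y) := fun y => by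
    have h1 : a y ≤ a (F^[k] y) := Finset.card_le_card (sub y)
    have := c2 y
    omega
  have c4 : ∀ y ∈ W, c y < c (F y) := fun y hy => by
    have h1 : a y < a (F^[k] y) := Finset.card_lt_card
      ((Finset.ssubset_iff_of_subset (sub y)).2 ⟨1, by simpa using (hW y hy).1,
        by simpa using (hW y hy).2⟩)
    have := c2 y
    omega
  have c5 : ∀ (n : ℕ) y, c y ≤ c (F^[n] y) := fun n y => by
    induction n with
    | zero => exact le_rfl
    | succ n ih => rw [Function.iterate_succ_apply']; exact ih.trans (c3 _)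
  have bd : BddAbove (c '' W) := ⟨∑ _j ∈ Finset.range k, Fintype.card Γ, by
    rintro _ ⟨y, -, rfl⟩
    exact Finset.sum_le_sum fun j _ => Finset.card_le_univ _⟩
  obtain ⟨y₀, hy₀, e₀⟩ := Nat.sSup_mem (ne.image c) bd
  have ev : ∀ᶠ y in 𝓝 y₀, y ∈ W ∧ c y₀ ≤ c y := by
    have h1 : ∀ᶠ y in 𝓝 y₀, ∀ j ∈ Finset.range k, ∀ g : Γ, g • F^[j] y₀ ∈ R → g • F^[j] y ∈ R := by
      refine (Finset.eventually_all _).2 fun j _ => eventually_all.2 fun g => ?_
      by_cases h : g • F^[j] y₀ ∈ R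
      · filter_upwards [(oR.preimage ((hc g).comp (F.continuous.iterate j))).mem_nhds h]
          with y hy _ using hy
      · exact Eventually.of_forall fun y h' => absurd h' h
    filter_upwards [oW.mem_nhds hy₀, h1] with y h2 h3
    refine ⟨h2, Finset.sum_le_sum fun j hj => Finset.card_le_card fun g hg => ?_⟩
    simp only [Finset.mem_filter, Finset.mem_univ, true_and] at hg ⊢
    exact h3 j hj g hg
  obtain ⟨N, hN, oN, yN⟩ := eventually_nhds_iff.1 ev
  obtain ⟨m, hm, _, ⟨_, ⟨u, hu, rfl⟩, rfl⟩, v, hv, e⟩ := hf _ (hπ N oN) ⟨_, y₀, yN, rfl⟩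
  rw [← Function.Semiconj.iterate_right (f := π) hF m u] at e
  obtain ⟨g, hg⟩ := fib _ _ e.symm
  obtain ⟨n, rfl⟩ := Nat.exists_eq_add_of_le' hm
  have h1 : c v ≤ c y₀ := e₀ ▸ le_csSup bd ⟨v, (hN v hv).1, rfl⟩
  have h2 := c5 n (F u)
  rw [hg, c1, Function.iterate_succ_apply] at h1
  have h3 := c4 u (hN u hu).1
  have h4 := (hN u hu).2
  omega

/-- `F` is a lift of `f` to a space `Y` over `M` whose fibres are the orbits of finitely many
homeomorphisms `σ i` commuting with `F` and permuted by composition. -/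
theorem chain_of_nonW {Y M Z : Type} [TopologicalSpace Y] [CompactSpace Y] [TopologicalSpace M]
    [NormedAddCommGroup Z] {f : M → M} (hf : NonW f) (F : Y ≃ₜ Y) (π : Y → M)
    (hπ : IsOpenMap π) (hF : ∀ y, π (F y) = f (π y)) {Γ : Type} [Group Γ] [Fintype Γ]
    [MulAction Γ Y] (hc : ∀ g : Γ, Continuous fun y : Y => g • y)
    (comm : ∀ (g : Γ) y, F (g • y) = g • F y) (fib : ∀ y y', π y = π y' → ∃ g : Γ, y' = g • y)
    {S : Set Y} (hS : IsClopen S) (hS' : IsPreconnected S) {k : ℕ} (hk : 1 ≤ k)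
    (inv : ∀ y ∈ S, F^[k] y ∈ S) {d : Y → Z} (hd : Continuous d) {ε : ℝ} (hε : 0 < ε) {x y : Y}
    (hx : x ∈ S) (hy : y ∈ S) :
    Relation.ReflTransGen (fun x y => x ∈ S ∧ y ∈ S ∧ ‖d (F^[k] x) - d y‖ ≤ ε) x y := by
  let r : Y → Y → Prop := fun a b => a ∈ S ∧ b ∈ S ∧ ‖d (F^[k] a) - d b‖ < ε
  let R : Set Y := {b | Relation.TransGen r x b}
  have cT : Continuous F^[k] := F.continuous.iterate k
  have RS : R ⊆ S := fun b hb => by
    obtain ⟨a, -, h⟩ := Relation.TransGen.tail'_iff.1 hb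
    exact h.2.1
  have oR : IsOpen R := isOpen_iff_mem_nhds.2 fun b hb => by
    obtain ⟨a, ha, h⟩ := Relation.TransGen.tail'_iff.1 hb
    have o : IsOpen {b | ‖d (F^[k] a) - d b‖ < ε} := isOpen_lt (by fun_prop) continuous_const
    filter_upwards [hS.isOpen.mem_nhds h.2.1, o.mem_nhds h.2.2] with b' h1 h2
    exact Relation.TransGen.tail' ha ⟨h.1, h1, h2⟩
  have xR : F^[k] x ∈ R := Relation.TransGen.single ⟨hx, inv x hx, by simpa using hε⟩
  have cl : closure R ⊆ F^[k] ⁻¹' R := fun z hz => by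
    have o : IsOpen {a | ‖d (F^[k] a) - d (F^[k] z)‖ < ε} :=
      isOpen_lt (by fun_prop) continuous_const
    obtain ⟨a, h1, h2⟩ := mem_closure_iff.1 hz _ o (by simpa using hε)
    exact Relation.TransGen.tail h2
      ⟨RS h2, inv z (closure_minimal RS hS.isClosed hz), h1⟩
  have e : F^[k] ⁻¹' R ⊆ closure R := fun z hz => by
    by_contra hz'
    exact chainT_count hf F π hπ hF hc comm fib oR (subset_closure.trans cl)
      ((oR.preimage cT).sdiff isClosed_closure) ⟨z, hz, hz'⟩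
      fun w hw => ⟨hw.1, fun h => hw.2 (subset_closure h)⟩
  have cm : ∀ n : ℕ, IsClosedMap F^[n] := fun n => by
    induction n with
    | zero => exact IsClosedMap.id
    | succ n ih => exact ih.comp F.isClosedMap
  have cR : IsClosed R := by
    rw [← Set.image_preimage_eq R (F.surjective.iterate k), cl.antisymm' e]
    exact cm k _ isClosed_closure
  have yR : y ∈ R := hS'.subset_isClopen ⟨cR, oR⟩ ⟨_, RS xR, xR⟩ hy
  exact Relation.ReflTransGen.mono (r := r) (fun a b h => ⟨h.1, h.2.1, h.2.2.le⟩) _ _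
    yR.to_reflTransGen

end SW4
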