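import Pool.Agent.P.MP_0a0487_an.SW.Sec

/-! Operators of order zero and one; elliptic estimates. -/

set_option autoImplicit false
set_option linter.unusedSectionVars false

noncomputable section

namespace SW4

open scoped ComplexOrder ContDiff
open Filter Topology

variable {P A : Type} [TopologicalSpace P] [CompactSpace P] [CommRing A] [StarRing A] [Algebra ℂ A]
  [StarModule ℂ A] {B : Base P A}

/-- Control of a Sobolev norm through real vector fields. -/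
theorem Pre.nn_succ_le (G : Pre B) (k : ℕ) : ∃ (m : ℕ) (g : Fin m → Fin 4 → A) (C : ℝ),
    (∀ i α, g i α ∈ B.W (-wt α)) ∧ (∀ i α, star (g i α) = g i (bar α)) ∧ 0 ≤ C ∧ ∀ s,
      G.nn (k + 1) s ≤ C * (G.nrm s + ∑ i, G.nn k (∑ α, g i α * G.D α s)) := by
  choose c hc0 hc using fun (β : Fin 4) (i : Fin G.N) => G.nn_mul_le k (G.D β (G.e i))
  have h0 : 0 ≤ ∑ β, ∑ i, c β i :=
    Finset.sum_nonneg fun β _ => Finset.sum_nonneg fun i _ => hc0 β i
  refine ⟨G.N, fun i α => G.θ α i, 1 + ∑ β, ∑ i, c β i, fun i α => G.θ_mem α i,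
    fun i α => G.θ_star α i, by linarith, fun s => ?_⟩
  obtain ⟨S, hS⟩ : ∃ S, S = ∑ i, G.nn k (∑ α, G.θ α i * G.D α s) := ⟨_, rfl⟩
  have hS0 : 0 ≤ S := hS ▸ Finset.sum_nonneg fun i _ => G.nn_nonneg _ _
  have h1 : ∀ β, G.nn k (G.D β s) ≤ (∑ i, c β i) * S := by
    intro β
    rw [G.form1_eq (fun α => G.D α s) β, Finset.sum_mul]
    refine (G.nn_sum k _ _).trans (Finset.sum_le_sum fun i _ => ?_)
    rw [mul_comm]
    refine (hc β i _).trans (mul_le_mul_of_nonneg_left ?_ (hc0 β i))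
    rw [hS]
    simp only [mul_comm (G.D _ s)]
    exact Finset.single_le_sum (f := fun i => G.nn k (∑ α, G.θ α i * G.D α s))
      (fun i _ => G.nn_nonneg _ _) (Finset.mem_univ i)
  have h2 : ∑ β, G.nn k (G.D β s) ≤ (∑ β, ∑ i, c β i) * S := by
    rw [Finset.sum_mul]
    exact Finset.sum_le_sum fun β _ => h1 β
  have h3 := G.nrm_nonneg s
  rw [← hS, Pre.nn]
  nlinarith [mul_nonneg h0 h3]

namespace Pre

variable {G : Pre B} {ι ι' ι'' : Type} [Fintype ι] [Fintype ι'] [Fintype ι'']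
  {w : ι → Wt} {w' : ι' → Wt} {w'' : ι'' → Wt}

theorem Sec.nS_nonneg (s : G.Sec w) (k : ℕ) : 0 ≤ s.nS k :=
  Finset.sum_nonneg fun _ _ => G.nn_nonneg _ _

theorem Sec.nS_add (s t : G.Sec w) (k : ℕ) : (s + t).nS k ≤ s.nS k + t.nS k := by
  simp only [Sec.nS, ← Finset.sum_add_distrib]
  exact Finset.sum_le_sum fun i _ => G.nn_add k _ _

theorem Sec.nS_sub (s t : G.Sec w) (k : ℕ) : (s - t).nS k ≤ s.nS k + t.nS k := by
  simp only [Sec.nS, ← Finset.sum_add_distrib]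
  exact Finset.sum_le_sum fun i _ => G.nn_sub k _ _

theorem Sec.nS_neg (s : G.Sec w) (k : ℕ) : (-s).nS k = s.nS k :=
  Finset.sum_congr rfl fun _ _ => G.nn_neg k _

theorem Sec.nS_smul (z : ℂ) (s : G.Sec w) (k : ℕ) : (z • s).nS k = ‖z‖ * s.nS k := by
  simp only [Sec.nS, Finset.mul_sum]
  exact Finset.sum_congr rfl fun i _ => G.nn_smul k z _

theorem Sec.nS_rsmul (r : ℝ) (s : G.Sec w) (k : ℕ) : (r • s).nS k = |r| * s.nS k := by
  simp only [Sec.nS, Finset.mul_sum]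
  refine Finset.sum_congr rfl fun i _ => ?_
  rw [Sec.c_rsmul, G.nn_smul, Complex.norm_real, Real.norm_eq_abs]

theorem Sec.nS_mono (s : G.Sec w) {k l : ℕ} (h : k ≤ l) : s.nS k ≤ s.nS l :=
  Finset.sum_le_sum fun _ _ => G.nn_mono h _

theorem Sec.nn_le_nS (s : G.Sec w) (k : ℕ) (i : ι) : G.nn k (s.c i) ≤ s.nS k :=
  Finset.single_le_sum (f := fun i => G.nn k (s.c i)) (fun _ _ => G.nn_nonneg _ _)
    (Finset.mem_univ i)

theorem Sec.nrm_le_norm (s : G.Sec w) (i : ι) : G.nrm (s.c i) ≤ ‖s‖ := by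
  refine le_of_sq_le_sq ?_ (norm_nonneg s)
  rw [norm_sq_eq]
  exact Finset.single_le_sum (f := fun i => G.nrm (s.c i) ^ 2) (fun _ _ => sq_nonneg _)
    (Finset.mem_univ i)

theorem Sec.norm_le_nS (s : G.Sec w) (k : ℕ) : ‖s‖ ≤ s.nS k := by
  refine le_trans ?_ (s.nS_mono (Nat.zero_le k))
  refine le_of_sq_le_sq ?_ (s.nS_nonneg 0)
  rw [norm_sq_eq]
  exact Finset.sum_sq_le_sq_sum_of_nonneg fun _ _ => G.nrm_nonneg _

theorem Sec.nS_zero_le (s : G.Sec w) : s.nS 0 ≤ Fintype.card ι * ‖s‖ := by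
  have h := Finset.sum_le_card_nsmul Finset.univ (fun i => G.nrm (s.c i)) ‖s‖
    fun i _ => s.nrm_le_norm i
  rwa [nsmul_eq_mul] at h

/-- A function of a section which is bounded between Sobolev spaces. -/
def FoBd (k l : ℕ) (f : G.Sec w → A) : Prop :=
  ∃ C : ℝ, 0 ≤ C ∧ ∀ s, G.nn k (f s) ≤ C * s.nS l

theorem FoBd.add {k l : ℕ} {f g : G.Sec w → A} (hf : FoBd k l f) (hg : FoBd k l g) :
    FoBd k l fun s => f s + g s := by
  obtain ⟨C, h0, h⟩ := hf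
  obtain ⟨C', h0', h'⟩ := hg
  exact ⟨C + C', add_nonneg h0 h0', fun s => (G.nn_add k _ _).trans (by
    rw [add_mul]; exact add_le_add (h s) (h' s))⟩

theorem FoBd.sub {k l : ℕ} {f g : G.Sec w → A} (hf : FoBd k l f) (hg : FoBd k l g) :
    FoBd k l fun s => f s - g s := by
  obtain ⟨C, h0, h⟩ := hf
  obtain ⟨C', h0', h'⟩ := hg
  exact ⟨C + C', add_nonneg h0 h0', fun s => (G.nn_sub k _ _).trans (by
    rw [add_mul]; exact add_le_add (h s) (h' s))⟩

theorem FoBd.sum {k l : ℕ} {κ : Type} [Fintype κ] {f : κ → G.Sec w → A}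
    (hf : ∀ i, FoBd k l (f i)) : FoBd k l fun s => ∑ i, f i s := by
  choose C h0 h using hf
  exact ⟨∑ i, C i, Finset.sum_nonneg fun i _ => h0 i, fun s => (G.nn_sum k _ _).trans (by
    rw [Finset.sum_mul]; exact Finset.sum_le_sum fun i _ => h i s)⟩

theorem FoBd.mul {k l : ℕ} {f : G.Sec w → A} (c : A) (hf : FoBd k l f) :
    FoBd k l fun s => c * f s := by
  obtain ⟨C, h0, h⟩ := hf
  obtain ⟨C', h0', h'⟩ := G.nn_mul_le k c
  exact ⟨C' * C, mul_nonneg h0' h0, fun s => (h' _).trans (by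
    rw [mul_assoc]; exact mul_le_mul_of_nonneg_left (h s) h0')⟩

theorem FoBd.star {k l : ℕ} {f : G.Sec w → A} (hf : FoBd k l f) :
    FoBd k l fun s => star (f s) := by
  obtain ⟨C, h0, h⟩ := hf
  exact ⟨C, h0, fun s => by rw [G.nn_star]; exact h s⟩

theorem FoBd.c {k l : ℕ} (h : k ≤ l) (j : ι) : FoBd k l fun s : G.Sec w => s.c j :=
  ⟨1, zero_le_one, fun s => by rw [one_mul]; exact (s.nn_le_nS k j).trans (s.nS_mono h)⟩

theorem FoBd.D (k : ℕ) (α : Fin 4) (j : ι) : FoBd k (k + 1) fun s : G.Sec w => G.D α (s.c j) :=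
  ⟨1, zero_le_one, fun s => by rw [one_mul]; exact (G.nn_D k α _).trans (s.nn_le_nS _ j)⟩

theorem FoBd.congr {k l : ℕ} {f g : G.Sec w → A} (hf : FoBd k l f) (h : ∀ s, g s = f s) :
    FoBd k l g := by
  rwa [funext h]

theorem fo_nS_le {k l : ℕ} {f : G.Sec w → G.Sec w'} (h : ∀ i, FoBd k l fun s => (f s).c i) :
    ∃ C : ℝ, 0 ≤ C ∧ ∀ s, (f s).nS k ≤ C * s.nS l := by
  choose C h0 h using h
  exact ⟨∑ i, C i, Finset.sum_nonneg fun i _ => h0 i, fun s => by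
    rw [Finset.sum_mul]; exact Finset.sum_le_sum fun i _ => h i s⟩

theorem IsZO.zero : IsZO (0 : G.Sec w →ₗ[ℝ] G.Sec w') :=
  ⟨0, 0, fun _ _ => zero_mem _, fun _ _ => zero_mem _, fun s i => by simp⟩

theorem IsZO.id : IsZO (LinearMap.id : G.Sec w →ₗ[ℝ] G.Sec w) := by
  classical
  refine ⟨fun i j => if i = j then 1 else 0, 0, fun i j => ?_, fun _ _ => zero_mem _,
    fun s i => by simp⟩
  by_cases h : i = j
  · simp only [h, if_true, sub_self]
    exact B.one_mem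
  · simp only [h, if_false]
    exact zero_mem _

theorem IsZO.add {Z Z' : G.Sec w →ₗ[ℝ] G.Sec w'} (h : IsZO Z) (h' : IsZO Z') : IsZO (Z + Z') := by
  obtain ⟨b, b', h1, h2, h3⟩ := h
  obtain ⟨c, c', g1, g2, g3⟩ := h'
  refine ⟨b + c, b' + c', fun i j => add_mem (h1 i j) (g1 i j),
    fun i j => add_mem (h2 i j) (g2 i j), fun s i => ?_⟩
  rw [LinearMap.add_apply, Sec.c_add, h3, g3, ← Finset.sum_add_distrib]
  refine Finset.sum_congr rfl fun j _ => ?_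
  simp only [Pi.add_apply]
  ring

theorem IsZO.smul {Z : G.Sec w →ₗ[ℝ] G.Sec w'} (h : IsZO Z) (r : ℝ) : IsZO (r • Z) := by
  obtain ⟨b, b', h1, h2, h3⟩ := h
  refine ⟨fun i j => (r : ℂ) • b i j, fun i j => (r : ℂ) • b' i j,
    fun i j => Submodule.smul_mem _ _ (h1 i j), fun i j => Submodule.smul_mem _ _ (h2 i j),
    fun s i => ?_⟩
  rw [LinearMap.smul_apply, Sec.c_rsmul, h3, Finset.smul_sum]
  simp only [smul_add, smul_mul_assoc]

theorem IsZO.neg {Z : G.Sec w →ₗ[ℝ] G.Sec w'} (h : IsZO Z) : IsZO (-Z) := by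
  rw [← neg_one_smul ℝ Z]
  exact h.smul _

theorem IsZO.comp {Z : G.Sec w' →ₗ[ℝ] G.Sec w''} {Z' : G.Sec w →ₗ[ℝ] G.Sec w'} (h : IsZO Z)
    (h' : IsZO Z') : IsZO (Z ∘ₗ Z') := by
  obtain ⟨b, b', h1, h2, h3⟩ := h
  obtain ⟨c, c', g1, g2, g3⟩ := h'
  refine ⟨fun i l => ∑ j, (b i j * c j l + b' i j * star (c' j l)),
    fun i l => ∑ j, (b i j * c' j l + b' i j * star (c j l)),
    fun i l => Submodule.sum_mem _ fun j _ => add_mem (B.mul_mem' (h1 i j) (g1 j l) (by abel))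
      (B.mul_mem' (h2 i j) (B.star_mem (g2 j l)) (by abel)),
    fun i l => Submodule.sum_mem _ fun j _ => add_mem (B.mul_mem' (h1 i j) (g2 j l) (by abel))
      (B.mul_mem' (h2 i j) (B.star_mem (g1 j l)) (by abel)), fun s i => ?_⟩
  rw [LinearMap.comp_apply, h3]
  simp only [g3, star_sum, star_add, star_mul', star_star, Finset.mul_sum, Finset.sum_mul,
    ← Finset.sum_add_distrib]
  rw [Finset.sum_comm]
  refine Finset.sum_congr rfl fun l _ => Finset.sum_congr rfl fun j _ => ?_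
  ring

theorem IsZO.isFO {Z : G.Sec w →ₗ[ℝ] G.Sec w'} (h : IsZO Z) : IsFO Z :=
  ⟨0, 0, Z, fun _ _ _ => zero_mem _, fun _ _ _ => zero_mem _, h, fun s i => by simp⟩

theorem IsZO.exists_adj {Z : G.Sec w →ₗ[ℝ] G.Sec w'} (h : IsZO Z) :
    ∃ Z' : G.Sec w' →ₗ[ℝ] G.Sec w, IsZO Z' ∧ ∀ s t, inner ℝ (Z s) t = inner ℝ s (Z' t) := by
  obtain ⟨b, b', h1, h2, h3⟩ := h
  have g1 : ∀ j i, star (b i j) ∈ B.W (w j - w' i) := fun j i => B.star_mem' (h1 i j) (by abel)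
  have g2 : ∀ j i, b' i j ∈ B.W (w j + w' i) := fun j i => by rw [add_comm]; exact h2 i j
  refine ⟨{
    toFun := fun t => G.mk' (fun j => ∑ i, (star (b i j) * t.c i + b' i j * star (t.c i)))
      fun j => Submodule.sum_mem _ fun i _ => add_mem (B.mul_mem' (g1 j i) (t.mem i) (by abel))
        (B.mul_mem' (g2 j i) (B.star_mem (t.mem i)) (by abel))
    map_add' := fun s t => Sec.ext fun j => ?_
    map_smul' := fun r s => Sec.ext fun j => ?_ },
    ⟨fun j i => star (b i j), fun j i => b' i j, g1, g2, fun _ _ => rfl⟩, fun s t => ?_⟩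
  · simp only [c_mk', Sec.c_add, star_add, ← Finset.sum_add_distrib]
    refine Finset.sum_congr rfl fun i _ => ?_
    ring
  · simp only [c_mk', Sec.c_rsmul, RingHom.id_apply, star_smul, RCLike.star_def,
      Complex.conj_ofReal, Finset.smul_sum, smul_add, mul_smul_comm]
  · simp only [inner_real, h3, LinearMap.coe_mk, AddHom.coe_mk, c_mk', star_sum, Finset.sum_mul,
      Finset.mul_sum, map_sum, Complex.re_sum]
    rw [Finset.sum_comm]
    refine Finset.sum_congr rfl fun j _ => Finset.sum_congr rfl fun i _ => ?_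
    have e : (G.I (star (b' i j * star (s.c j)) * t.c i)).re =
        (G.I (star (s.c j) * (b' i j * star (t.c i)))).re := by
      rw [← Complex.conj_re, ← G.I_star]
      simp only [star_mul', star_star]
      congr 2
      ring
    rw [star_add, add_mul, mul_add, map_add, map_add, Complex.add_re, Complex.add_re, e, star_mul']
    congr 3
    ring

theorem IsZO.foBd {Z : G.Sec w →ₗ[ℝ] G.Sec w'} (h : IsZO Z) {k l : ℕ} (hkl : k ≤ l) (i : ι') :
    FoBd k l fun s => (Z s).c i := by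
  obtain ⟨b, b', -, -, h3⟩ := h
  exact (FoBd.sum fun j => ((FoBd.c hkl j).mul (b i j)).add
    ((FoBd.c hkl j).star.mul (b' i j))).congr fun s => h3 s i

theorem IsZO.nS_le {Z : G.Sec w →ₗ[ℝ] G.Sec w'} (h : IsZO Z) (k : ℕ) :
    ∃ C : ℝ, 0 ≤ C ∧ ∀ s, (Z s).nS k ≤ C * s.nS k :=
  fo_nS_le (h.foBd le_rfl)

theorem IsZO.norm_le {Z : G.Sec w →ₗ[ℝ] G.Sec w'} (h : IsZO Z) :
    ∃ C : ℝ, 0 ≤ C ∧ ∀ s, ‖Z s‖ ≤ C * ‖s‖ := by
  obtain ⟨C, h0, hC⟩ := h.nS_le 0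
  refine ⟨C * Fintype.card ι, by positivity, fun s => ((Z s).norm_le_nS 0).trans ((hC s).trans ?_)⟩
  rw [mul_assoc]
  exact mul_le_mul_of_nonneg_left s.nS_zero_le h0

theorem IsFO.add {L M : G.Sec w →ₗ[ℝ] G.Sec w'} (h : IsFO L) (h' : IsFO M) : IsFO (L + M) := by
  obtain ⟨b, b', Z, h1, h2, hZ, h3⟩ := h
  obtain ⟨c, c', Z', g1, g2, hZ', g3⟩ := h'
  refine ⟨b + c, b' + c', Z + Z', fun α i j => add_mem (h1 α i j) (g1 α i j),
    fun α i j => add_mem (h2 α i j) (g2 α i j), hZ.add hZ', fun s i => ?_⟩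
  rw [LinearMap.add_apply, LinearMap.add_apply, Sec.c_add, Sec.c_add, h3, g3, add_add_add_comm,
    ← Finset.sum_add_distrib]
  congr 1
  refine Finset.sum_congr rfl fun j _ => ?_
  rw [← Finset.sum_add_distrib]
  refine Finset.sum_congr rfl fun α _ => ?_
  simp only [Pi.add_apply]
  ring

theorem IsFO.nS_le {L : G.Sec w →ₗ[ℝ] G.Sec w'} (h : IsFO L) (k : ℕ) :
    ∃ C : ℝ, 0 ≤ C ∧ ∀ s, (L s).nS k ≤ C * s.nS (k + 1) := by
  obtain ⟨b, b', Z, -, -, hZ, h3⟩ := h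
  exact fo_nS_le fun i => ((hZ.foBd (Nat.le_succ k) i).add (FoBd.sum fun j => FoBd.sum fun α =>
    ((FoBd.D k α j).mul (b α i j)).add ((FoBd.D k α j).star.mul (b' α i j)))).congr
      fun s => h3 s i

theorem Ell.symm {L : G.Sec w →ₗ[ℝ] G.Sec w'} {L' : G.Sec w' →ₗ[ℝ] G.Sec w} (h : Ell L L') :
    Ell L' L :=
  ⟨h.fo', h.fo, fun s t => by rw [real_inner_comm, ← h.adj, real_inner_comm], h.gar', h.gar⟩

theorem fo_gar {L Z : G.Sec w →ₗ[ℝ] G.Sec w'} (hZ : IsZO Z)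
    (hg : ∃ C : ℝ, ∀ s, s.nS 1 ≤ C * (‖L s‖ + ‖s‖)) :
    ∃ C : ℝ, ∀ s, s.nS 1 ≤ C * (‖(L + Z) s‖ + ‖s‖) := by
  obtain ⟨C, hC⟩ := hg
  obtain ⟨C', h0, hC'⟩ := hZ.norm_le
  refine ⟨|C| * (1 + C'), fun s => (hC s).trans ?_⟩
  have h1 : ‖L s‖ ≤ ‖(L + Z) s‖ + ‖Z s‖ := by
    rw [LinearMap.add_apply]
    exact norm_le_add_norm_add _ _
  have h2 := hC' s
  have h3 := norm_nonneg s
  have h4 := norm_nonneg ((L + Z) s)
  refine (mul_le_mul_of_nonneg_right (le_abs_self C) (by positivity)).trans ?_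
  rw [mul_assoc]
  refine mul_le_mul_of_nonneg_left ?_ (abs_nonneg C)
  nlinarith [mul_nonneg h0 h4]

theorem Ell.add_zo {L : G.Sec w →ₗ[ℝ] G.Sec w'} {L' : G.Sec w' →ₗ[ℝ] G.Sec w} (h : Ell L L')
    {Z : G.Sec w →ₗ[ℝ] G.Sec w'} (hZ : IsZO Z) :
    ∃ Z' : G.Sec w' →ₗ[ℝ] G.Sec w, IsZO Z' ∧ Ell (L + Z) (L' + Z') := by
  obtain ⟨Z', hZ', ha⟩ := hZ.exists_adj
  refine ⟨Z', hZ', h.fo.add hZ.isFO, h.fo'.add hZ'.isFO, fun s t => ?_, fo_gar hZ h.gar,
    fo_gar hZ' h.gar'⟩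
  rw [LinearMap.add_apply, LinearMap.add_apply, inner_add_left, inner_add_right, h.adj, ha]

variable (G) in
/-- The vector field with coefficients `g`. -/
def foV (g : Fin 4 → A) : A →ₗ[ℂ] A := ∑ γ, LinearMap.mul ℂ A (g γ) ∘ₗ G.D γ

theorem foV_apply (g : Fin 4 → A) (t : A) : G.foV g t = ∑ γ, g γ * G.D γ t := by
  simp [foV]

theorem foV_mul (g : Fin 4 → A) (s t : A) : G.foV g (s * t) = G.foV g s * t + s * G.foV g t := by
  simp only [foV_apply, G.D_mul, Finset.sum_mul, Finset.mul_sum, ← Finset.sum_add_distrib]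
  refine Finset.sum_congr rfl fun γ _ => ?_
  ring

theorem foV_star {g : Fin 4 → A} (hg : ∀ α, star (g α) = g (bar α)) (t : A) :
    G.foV g (star t) = star (G.foV g t) := by
  simp only [foV_apply, star_sum, star_mul', hg, G.D_star]
  exact (sum_bar fun γ => g γ * G.D γ (star t)).symm

theorem foV_mem {g : Fin 4 → A} (hg : ∀ α, g α ∈ B.W (-wt α)) {u : Wt} {t : A} (ht : t ∈ B.W u) :
    G.foV g t ∈ B.W u := by
  rw [foV_apply]
  exact Submodule.sum_mem _ fun γ _ => B.mul_mem' (hg γ) (G.D_mem γ ht) (by abel)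

theorem foV_comm (g : Fin 4 → A) {u : Wt} {t : A} (ht : t ∈ B.W u) (α : Fin 4) :
    G.D α (G.foV g t) - G.foV g (G.D α t) =
      ∑ γ, (G.D α (g γ) * G.D γ t + g γ * (∑ δ, G.T α γ δ * G.D δ t + G.Fw u α γ * t)) := by
  simp only [foV_apply, map_sum, G.D_mul, ← Finset.sum_sub_distrib, ← G.comm ht]
  refine Finset.sum_congr rfl fun γ _ => ?_
  ring

/-- The vector field acting on sections. -/
def Sec.foV {g : Fin 4 → A} (hg : ∀ α, g α ∈ B.W (-wt α)) (s : G.Sec w) : G.Sec w :=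
  G.mk' (fun j => G.foV g (s.c j)) fun j => foV_mem hg (s.mem j)

theorem foV_nS {g : Fin 4 → A} (hg : ∀ α, g α ∈ B.W (-wt α)) (k : ℕ) :
    ∃ C : ℝ, 0 ≤ C ∧ ∀ s : G.Sec w, (s.foV hg).nS k ≤ C * s.nS (k + 1) :=
  fo_nS_le fun j => (FoBd.sum fun γ => (FoBd.D k γ j).mul (g γ)).congr fun _ => foV_apply _ _

theorem IsFO.foV_comm {L : G.Sec w →ₗ[ℝ] G.Sec w'} (h : IsFO L) {g : Fin 4 → A}
    (hg : ∀ α, g α ∈ B.W (-wt α)) (hg' : ∀ α, star (g α) = g (bar α)) (k : ℕ) :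
    ∃ C : ℝ, 0 ≤ C ∧ ∀ s : G.Sec w, (L (s.foV hg) - (L s).foV hg).nS k ≤ C * s.nS (k + 1) := by
  obtain ⟨b, b', Z, -, -, ⟨c, c', -, -, hZ⟩, h3⟩ := h
  have hc : ∀ j α, FoBd k (k + 1) fun s : G.Sec w =>
      G.D α (G.foV g (s.c j)) - G.foV g (G.D α (s.c j)) := fun j α =>
    (FoBd.sum fun γ => ((FoBd.D k γ j).mul (G.D α (g γ))).add
      (((FoBd.sum fun δ => (FoBd.D k δ j).mul (G.T α γ δ)).add
        ((FoBd.c (Nat.le_succ k) j).mul (G.Fw (w j) α γ))).mul (g γ))).congr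
      fun s => Pre.foV_comm g (s.mem j) α
  refine fo_nS_le fun i => (FoBd.sum fun j => (FoBd.sum fun α =>
    (((hc j α).mul (b α i j)).add ((hc j α).star.mul (b' α i j))).sub
      (((FoBd.D k α j).mul (G.foV g (b α i j))).add
        ((FoBd.D k α j).star.mul (G.foV g (b' α i j))))).sub
    (((FoBd.c (Nat.le_succ k) j).mul (G.foV g (c i j))).add
      ((FoBd.c (Nat.le_succ k) j).star.mul (G.foV g (c' i j))))).congr fun s => ?_
  simp only [Sec.c_sub, Sec.foV, c_mk', h3, hZ, map_add, map_sum, foV_mul, foV_star hg',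
    ← Finset.sum_add_distrib, ← Finset.sum_sub_distrib]
  refine Finset.sum_congr rfl fun j _ => ?_
  simp only [Fin.sum_univ_four, star_sub]
  ring

/-- Elliptic estimates of all orders. -/
theorem IsFO.est {L : G.Sec w →ₗ[ℝ] G.Sec w'} (h : IsFO L)
    (hg : ∃ C : ℝ, ∀ s, s.nS 1 ≤ C * (‖L s‖ + ‖s‖)) (k : ℕ) :
    ∃ C : ℝ, 0 ≤ C ∧ ∀ s, s.nS (k + 1) ≤ C * ((L s).nS k + s.nS k) := by
  induction k with
  | zero =>
    obtain ⟨C, hC⟩ := hg
    refine ⟨|C|, abs_nonneg C, fun s => (hC s).trans ?_⟩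
    exact mul_le_mul (le_abs_self C) (add_le_add ((L s).norm_le_nS 0) (s.norm_le_nS 0))
      (by positivity) (abs_nonneg C)
  | succ k ih =>
    obtain ⟨C, h0, hC⟩ := ih
    obtain ⟨m, g, C₀, hg1, hg2, h1, hC₀⟩ := G.nn_succ_le (k + 1)
    choose a ha0 ha using fun i => h.foV_comm (hg1 i) (hg2 i) k
    choose b hb0 hb using fun i => foV_nS (G := G) (w := w) (hg1 i) k
    choose c hc0 hc using fun i => foV_nS (G := G) (w := w') (hg1 i) k
    have hS : 0 ≤ ∑ i, C * (a i + b i + c i) := Finset.sum_nonneg fun i _ =>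
      mul_nonneg h0 (add_nonneg (add_nonneg (ha0 i) (hb0 i)) (hc0 i))
    refine ⟨C₀ * (1 + ∑ i, C * (a i + b i + c i)), by positivity, fun s => ?_⟩
    have n1 := s.nS_nonneg (k + 1)
    have n2 := (L s).nS_nonneg (k + 1)
    have h2 : s.nS (k + 1 + 1) ≤ C₀ * (s.nS 0 + ∑ i, (s.foV (hg1 i)).nS (k + 1)) := by
      simp only [Sec.nS, Sec.foV, c_mk', foV_apply]
      rw [Finset.sum_comm, ← Finset.sum_add_distrib, Finset.mul_sum]
      exact Finset.sum_le_sum fun j _ => hC₀ _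
    have h3 : ∀ i, (s.foV (hg1 i)).nS (k + 1) ≤
        C * (a i + b i + c i) * ((L s).nS (k + 1) + s.nS (k + 1)) := by
      intro i
      refine (hC _).trans ?_
      rw [mul_assoc]
      refine mul_le_mul_of_nonneg_left ?_ h0
      have e1 := Sec.nS_add (L (s.foV (hg1 i)) - (L s).foV (hg1 i)) ((L s).foV (hg1 i)) k
      rw [sub_add_cancel] at e1
      nlinarith [ha i s, hb i s, hc i (L s), mul_nonneg (ha0 i) n2, mul_nonneg (hb0 i) n2,
        mul_nonneg (hc0 i) n1]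
    refine h2.trans ?_
    rw [mul_assoc]
    refine mul_le_mul_of_nonneg_left ?_ h1
    rw [add_mul, one_mul, Finset.sum_mul]
    refine add_le_add ?_ (Finset.sum_le_sum fun i _ => h3 i)
    have := s.nS_mono (Nat.zero_le (k + 1))
    linarith

end Pre

end SW4
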