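import Pool.Agent.P.MP_0a0487_an.SW.AtlB
import Pool.Agent.P.MP_0a0487_an.SW.EuS
import Pool.Agent.P.MP_0a0487_an.SW.Fo
import Pool.Agent.P.MP_8db816_gt.SZ.EuRellich

/-! Sobolev, Rellich and completeness properties from an atlas. -/

set_option autoImplicit false
set_option linter.unusedSectionVars false

noncomputable section

namespace SW4

open scoped ComplexOrder ContDiff
open Filter Topology

variable {P A : Type} [TopologicalSpace P] [CompactSpace P] [CommRing A] [StarRing A] [Algebra ℂ A]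
  [StarModule ℂ A] {B : Base P A}

open MeasureTheory

theorem chart_en_zero (k : ℕ) : en k 0 = 0 := by
  have h0 : e0 0 = 0 := by simp [e0]
  have hp : ∀ j, pd j 0 = 0 := fun j => by
    funext y
    simp [pd]
  induction k with
  | zero => exact h0
  | succ k ih => simp [en, h0, hp, ih]

theorem chart_en_sum {K : Set E4} (hK : IsCompact K) (k : ℕ) {ι : Type} (S : Finset ι)
    {φ : ι → E4 → ℂ} (h : ∀ j, Test K (φ j)) :
    Test K (∑ j ∈ S, φ j) ∧ en k (∑ j ∈ S, φ j) ≤ ∑ j ∈ S, en k (φ j) := by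
  classical
  induction S using Finset.induction_on with
  | empty => exact ⟨⟨contDiff_const, fun _ _ => rfl⟩, by simp [chart_en_zero]⟩
  | insert j S hj ih =>
    rw [Finset.sum_insert hj, Finset.sum_insert hj]
    exact ⟨EuS_add (h j) ih.1, (en_add hK k (h j) ih.1).trans (add_le_add le_rfl ih.2)⟩

theorem chart_subseq {d : ℕ → ℕ → ℝ}
    (h : ∀ ε > 0, ∃ S ∈ hyperfilter ℕ, ∀ m ∈ S, ∀ n ∈ S, d m n ≤ ε) :
    ∃ φ : ℕ → ℕ, StrictMono φ ∧ ∀ ε > 0, ∃ n₀, ∀ m ≥ n₀, ∀ n ≥ n₀, d (φ m) (φ n) ≤ ε := by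
  choose S hS hd using fun k : ℕ => h (1 / ((k : ℝ) + 1)) Nat.one_div_pos_of_nat
  have h1 : ∀ k : ℕ, ∃ᶠ n in atTop, ∀ j ∈ Finset.range (k + 1), n ∈ S j := fun k => by
    have h2 : ∀ᶠ n in (hyperfilter ℕ : Filter ℕ), ∀ j ∈ Finset.range (k + 1), n ∈ S j :=
      (Filter.eventually_all_finset _).2 fun j _ => hS j
    exact h2.frequently.filter_mono (Nat.cofinite_eq_atTop ▸ hyperfilter_le_cofinite)
  obtain ⟨φ, hφ, h3⟩ := extraction_forall_of_frequently h1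
  refine ⟨φ, hφ, fun ε hε => ?_⟩
  obtain ⟨k, hk⟩ := exists_nat_one_div_lt hε
  exact ⟨k, fun m hm n hn => (hd k _ (h3 m k (Finset.mem_range.2 (by omega))) _
    (h3 n k (Finset.mem_range.2 (by omega)))).trans hk.le⟩

section

variable {G : Calc B} {a : Atl G} {i : Fin a.n} {K : Set E4}

theorem chart_loc_mem (s : A) {y : E4} (hy : y ∈ a.O i) : a.loc i s y = B.ev s (a.pr i y) :=
  Set.indicator_of_mem hy _

theorem chart_loc_not (s : A) {y : E4} (hy : y ∉ a.O i) : a.loc i s y = 0 :=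
  Set.indicator_of_notMem hy _

theorem chart_loc_mul (s t : A) : a.loc i (s * t) = fun y => a.loc i s y * a.loc i t y := by
  funext y
  by_cases hy : y ∈ a.O i
  · simp only [chart_loc_mem _ hy, map_mul, ContinuousMap.mul_apply]
  · simp only [chart_loc_not _ hy, mul_zero]

theorem chart_loc_sub (s t : A) : a.loc i (s - t) = a.loc i s - a.loc i t := by
  funext y
  by_cases hy : y ∈ a.O i
  · simp only [Pi.sub_apply, chart_loc_mem _ hy, map_sub, ContinuousMap.sub_apply]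
  · simp only [Pi.sub_apply, chart_loc_not _ hy, sub_zero]

theorem chart_pd_loc (s : A) {y : E4} (hy : y ∈ a.O i) (j : Fin 4) :
    pd j (a.loc i s) y = pd j (fun y => B.ev s (a.pr i y)) y := by
  have h : a.loc i s =ᶠ[𝓝 y] fun y => B.ev s (a.pr i y) := by
    filter_upwards [(a.O_open i).mem_nhds hy] with z hz
    exact chart_loc_mem s hz
  simp only [pd, h.fderiv_eq]

theorem chart_supp_sub {s t : A} (hs : a.Supp i K s) (ht : a.Supp i K t) : a.Supp i K (s - t) := by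
  intro p hp
  by_cases h : B.ev s p = 0
  · refine ht p fun h' => hp ?_
    rw [map_sub, ContinuousMap.sub_apply, h, h', sub_zero]
  · exact hs p h

theorem chart_supp_field (hK : IsCompact K) (hs : K ⊆ a.O i) {s : A} (s0 : s ∈ B.W 0)
    (h : a.Supp i K s) (g : Fin 4 → A) : a.Supp i K (∑ α, g α * G.D α s) := by
  intro p hp
  rw [map_sum, ContinuousMap.sum_apply] at hp
  obtain ⟨α, -, hα⟩ := Finset.exists_ne_zero_of_sum_ne_zero hp
  exact (h.D hK hs s0 α).mul_left (g α) p hα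

theorem chart_field_mem {g : Fin 4 → A} (hg : ∀ α, g α ∈ B.W (-wt α)) {s : A} (s0 : s ∈ B.W 0) :
    ∑ α, g α * G.D α s ∈ B.W 0 :=
  Submodule.sum_mem _ fun γ _ => B.mul_mem' (hg γ) (G.D_mem γ s0) (by abel)

theorem chart_piece_mem (ρ : a.POU) (i : Fin a.n) {v : A} (hv : v ∈ B.W 0) : ρ.ρ i * v ∈ B.W 0 :=
  B.mul_mem' (ρ.re i).1 hv (add_zero _)

theorem chart_piece_supp (ρ : a.POU) (i : Fin a.n) (v : A) : a.Supp i (ρ.K i) (ρ.ρ i * v) := by
  rw [mul_comm]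
  exact (ρ.supp i).mul_left v

theorem chart_piece_test (ρ : a.POU) (i : Fin a.n) (v : A) :
    Test (ρ.K i) (a.loc i (ρ.ρ i * v)) :=
  a.loc_test (ρ.cpt i) (ρ.sub i) (chart_piece_supp ρ i v)

theorem chart_piece_sum (ρ : a.POU) (v : A) : ∑ i, ρ.ρ i * v = v := by
  rw [← Finset.sum_mul, ρ.sum, one_mul]

end

namespace IsInt

variable {G : Pre B} {a : Atl G.toCalc}

theorem chart_nrm (h : IsInt G a) {i : Fin a.n} {K : Set E4} (hK : IsCompact K) (hs : K ⊆ a.O i)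
    {s : A} (s0 : s ∈ B.W 0) (hS : a.Supp i K s) :
    G.nrm s = e0 fun y => ((√(a.dens i y) : ℝ) : ℂ) * a.loc i s y := by
  unfold Pre.nrm e0
  congr 1
  rw [h i K hK hs _ (B.re0_star_mul s0).1 (hS.mul_left _)]
  have e : ∀ y, a.loc i (star s * s) y * (a.dens i y : ℂ) =
      ((‖((√(a.dens i y) : ℝ) : ℂ) * a.loc i s y‖ ^ 2 : ℝ) : ℂ) := by
    intro y
    by_cases hy : y ∈ a.O i
    · rw [chart_loc_mem _ hy, chart_loc_mem _ hy, integ_ev_sq, norm_mul, mul_pow,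
        Complex.norm_real, Real.norm_of_nonneg (Real.sqrt_nonneg _),
        Real.sq_sqrt (a.dens_pos i hy).le]
      push_cast
      ring
    · simp [chart_loc_not _ hy]
  simp only [e]
  rw [integral_complex_ofReal, Complex.ofReal_re]

theorem chart_sqrt_sm (i : Fin a.n) :
    ContDiffOn ℝ ∞ (fun y => ((√(a.dens i y) : ℝ) : ℂ)) (a.O i) :=
  Complex.ofRealCLM.contDiff.comp_contDiffOn
    ((a.dens_sm i).sqrt fun _ hy => (a.dens_pos i hy).ne')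

theorem chart_le_zero (h : IsInt G a) {i : Fin a.n} {K : Set E4} (hK : IsCompact K)
    (hs : K ⊆ a.O i) : ∃ C : ℝ, 0 ≤ C ∧ ∀ s ∈ B.W 0, a.Supp i K s →
      G.nrm s ≤ C * e0 (a.loc i s) := by
  obtain ⟨C, h0, hC⟩ := en_mul hK (a.O_open i) hs (chart_sqrt_sm i) 0
  refine ⟨C, h0, fun s s0 hS => ?_⟩
  rw [h.chart_nrm hK hs s0 hS]
  exact (hC _ (a.loc_test hK hs hS)).2

theorem chart_ge_zero (h : IsInt G a) {i : Fin a.n} {K : Set E4} (hK : IsCompact K)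
    (hs : K ⊆ a.O i) : ∃ C : ℝ, 0 ≤ C ∧ ∀ s ∈ B.W 0, a.Supp i K s →
      e0 (a.loc i s) ≤ C * G.nrm s := by
  have hne : ∀ y ∈ a.O i, ((√(a.dens i y) : ℝ) : ℂ) ≠ 0 := fun y hy =>
    Complex.ofReal_ne_zero.2 (Real.sqrt_pos.2 (a.dens_pos i hy)).ne'
  obtain ⟨C, h0, hC⟩ := en_mul hK (a.O_open i) hs ((chart_sqrt_sm i).inv hne) 0
  refine ⟨C, h0, fun s s0 hS => ?_⟩
  rw [h.chart_nrm hK hs s0 hS]
  have h1 := (hC _ (EuS_mul hK (a.O_open i) hs (chart_sqrt_sm i) (a.loc_test hK hs hS))).2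
  have e : (fun y => (fun y => ((√(a.dens i y) : ℝ) : ℂ))⁻¹ y *
      (((√(a.dens i y) : ℝ) : ℂ) * a.loc i s y)) = a.loc i s := by
    funext y
    by_cases hy : y ∈ a.O i
    · exact inv_mul_cancel_left₀ (hne y hy) _
    · rw [chart_loc_not _ hy, mul_zero, mul_zero]
  rw [e] at h1
  exact h1

theorem chart_le (h : IsInt G a) {i : Fin a.n} {K : Set E4} (hK : IsCompact K) (hs : K ⊆ a.O i)
    (k : ℕ) : ∃ C : ℝ, 0 ≤ C ∧ ∀ s ∈ B.W 0, a.Supp i K s → G.nn k s ≤ C * en k (a.loc i s) := by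
  induction k with
  | zero => exact h.chart_le_zero hK hs
  | succ k ih =>
    obtain ⟨C₀, h0, H0⟩ := h.chart_le_zero hK hs
    obtain ⟨C₁, h1, H1⟩ := ih
    obtain ⟨m, g, C₂, hg, -, h2, H2⟩ := G.nn_succ_le k
    choose v hv hv' using fun l => a.field_loc i (g l)
    choose C₃ h3 H3 using fun l j => en_mul hK (a.O_open i) hs (hv l j) k
    refine ⟨C₂ * (C₀ + ∑ l, C₁ * ∑ j, C₃ l j), mul_nonneg h2 (add_nonneg h0
      (Finset.sum_nonneg fun l _ => mul_nonneg h1 (Finset.sum_nonneg fun j _ => h3 l j))),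
      fun s s0 hS => (H2 s).trans ?_⟩
    have hT := a.loc_test hK hs hS
    rw [mul_assoc, add_mul, Finset.sum_mul]
    refine mul_le_mul_of_nonneg_left (add_le_add ((H0 s s0 hS).trans (mul_le_mul_of_nonneg_left
      (en_mono (Nat.zero_le (k + 1)) _) h0)) (Finset.sum_le_sum fun l _ => ?_)) h2
    refine (H1 _ (chart_field_mem (hg l) s0) (chart_supp_field hK hs s0 hS _)).trans ?_
    rw [mul_assoc, Finset.sum_mul]
    refine mul_le_mul_of_nonneg_left ?_ h1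
    have e : a.loc i (∑ α, g l α * G.D α s) = ∑ j, fun y => v l j y * pd j (a.loc i s) y := by
      funext y
      rw [Finset.sum_apply]
      by_cases hy : y ∈ a.O i
      · rw [chart_loc_mem _ hy, hv' l s s0 y hy]
        simp only [chart_pd_loc s hy]
      · rw [chart_loc_not _ hy]
        exact (Finset.sum_eq_zero fun j _ => by
          rw [(hT.pd hK j).2 y fun hy' => hy (hs hy'), mul_zero]).symm
    rw [e]
    refine (chart_en_sum hK k _ fun j => (H3 l j _ (hT.pd hK j)).1).2.trans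
      (Finset.sum_le_sum fun j _ => (H3 l j _ (hT.pd hK j)).2.trans ?_)
    exact mul_le_mul_of_nonneg_left (en_pd k j _) (h3 l j)

theorem chart_ge (h : IsInt G a) {i : Fin a.n} {K : Set E4} (hK : IsCompact K) (hs : K ⊆ a.O i)
    (k : ℕ) : ∃ C : ℝ, 0 ≤ C ∧ ∀ s ∈ B.W 0, a.Supp i K s → en k (a.loc i s) ≤ C * G.nn k s := by
  induction k with
  | zero => exact h.chart_ge_zero hK hs
  | succ k ih =>
    obtain ⟨C₀, h0, H0⟩ := h.chart_ge_zero hK hs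
    obtain ⟨C₁, h1, H1⟩ := ih
    choose g hg hg' using fun j => a.exists_field hK hs j
    choose C₃ h3 H3 using fun j α => G.nn_mul_le k (g j α)
    refine ⟨C₀ + ∑ j, C₁ * ∑ α, C₃ j α, add_nonneg h0
      (Finset.sum_nonneg fun j _ => mul_nonneg h1 (Finset.sum_nonneg fun α _ => h3 j α)),
      fun s s0 hS => ?_⟩
    have hT := a.loc_test hK hs hS
    rw [add_mul, Finset.sum_mul]
    refine add_le_add ((H0 s s0 hS).trans (mul_le_mul_of_nonneg_left (G.nrm_le_nn _ s) h0))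
      (Finset.sum_le_sum fun j _ => ?_)
    have hS' := chart_supp_field hK hs s0 hS (g j)
    have e : pd j (a.loc i s) = a.loc i (∑ α, g j α * G.D α s) := by
      funext y
      by_cases hy : y ∈ K
      · rw [chart_loc_mem _ (hs hy), hg' j s s0 y hy, chart_pd_loc s (hs hy)]
      · rw [(hT.pd hK j).2 y hy, (a.loc_test hK hs hS').2 y hy]
    rw [e]
    refine (H1 _ (chart_field_mem (hg j) s0) hS').trans ?_
    rw [mul_assoc, Finset.sum_mul]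
    refine mul_le_mul_of_nonneg_left ((G.nn_sum k _ _).trans
      (Finset.sum_le_sum fun α _ => (H3 j α _).trans ?_)) h1
    exact mul_le_mul_of_nonneg_left (G.nn_D k α s) (h3 j α)

theorem chart_piece (h : IsInt G a) (ρ : a.POU) (i : Fin a.n) (k : ℕ) :
    ∃ C : ℝ, 0 ≤ C ∧ ∀ v ∈ B.W 0, en k (a.loc i (ρ.ρ i * v)) ≤ C * G.nn k v := by
  obtain ⟨C₁, h1, H1⟩ := h.chart_ge (ρ.cpt i) (ρ.sub i) k
  obtain ⟨C₂, h2, H2⟩ := G.nn_mul_le k (ρ.ρ i)
  refine ⟨C₁ * C₂, mul_nonneg h1 h2, fun v hv =>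
    (H1 _ (chart_piece_mem ρ i hv) (chart_piece_supp ρ i v)).trans ?_⟩
  rw [mul_assoc]
  exact mul_le_mul_of_nonneg_left (H2 v) h1

theorem chart_sob (h : IsInt G a) (ρ : a.POU) (i : Fin a.n) :
    ∃ C : ℝ, 0 ≤ C ∧ ∀ v ∈ B.W 0, G.nrm (ρ.ρ i * v * (ρ.ρ i * v)) ≤ C * G.nn 1 v ^ 2 := by
  obtain ⟨C₀, h0, H0⟩ := h.chart_le_zero (ρ.cpt i) (ρ.sub i)
  obtain ⟨C₁, h1, H1⟩ := eu_sob
  obtain ⟨C₂, h2, H2⟩ := h.chart_piece ρ i 1
  refine ⟨C₀ * (C₁ * C₂ ^ 2), by positivity, fun v hv => (H0 _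
    (B.mul_mem' (chart_piece_mem ρ i hv) (chart_piece_mem ρ i hv) (add_zero _))
    ((chart_piece_supp ρ i v).mul_left _)).trans ?_⟩
  rw [chart_loc_mul (ρ.ρ i * v), mul_assoc C₀, mul_assoc C₁, ← mul_pow]
  refine mul_le_mul_of_nonneg_left ((H1 _ (ρ.cpt i) _ (chart_piece_test ρ i v)).trans
    (mul_le_mul_of_nonneg_left ?_ h1)) h0
  exact pow_le_pow_left₀ (en_nonneg _ _) (H2 v hv) 2

theorem chart_rel (h : IsInt G a) (ρ : a.POU) (i : Fin a.n) (v : ℕ → A) (hv : ∀ n, v n ∈ B.W 0)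
    (hb : ∀ n, G.nn 1 (v n) ≤ 1) {ε : ℝ} (hε : 0 < ε) : ∃ S ∈ hyperfilter ℕ, ∀ m ∈ S, ∀ n ∈ S,
      G.nrm (ρ.ρ i * v m - ρ.ρ i * v n) ≤ ε := by
  obtain ⟨C₀, h0, H0⟩ := h.chart_le_zero (ρ.cpt i) (ρ.sub i)
  obtain ⟨C₁, h1, H1⟩ := h.chart_piece ρ i 1
  have hδ : 0 < ε / (2 * (C₀ + 1)) := by positivity
  have hw : ∀ n, en 1 (a.loc i (ρ.ρ i * v n)) ≤ C₁ := fun n =>
    (H1 _ (hv n)).trans (mul_le_of_le_one_right h1 (hb n))
  obtain ⟨t, htS, ht, H⟩ := SZ.rellich (F := ℂ) (ρ.cpt i) (C₁ ^ 2) (pow_pos hδ 2)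
    (Set.range fun n => a.loc i (ρ.ρ i * v n)) (by
      rintro _ ⟨n, rfl⟩
      refine ⟨(chart_piece_test ρ i (v n)).1, (chart_piece_test ρ i (v n)).2, ?_, fun j => ?_⟩
      · exact (Real.sqrt_le_left h1).1 ((en_mono (Nat.zero_le 1) _).trans (hw n))
      · exact (Real.sqrt_le_left h1).1 ((en_pd 0 j _).trans (hw n)))
  have hu : (⋃ w ∈ t, {n | ∫ y, ‖a.loc i (ρ.ρ i * v n) y - w y‖ ^ 2 ≤
      (ε / (2 * (C₀ + 1))) ^ 2}) ∈ hyperfilter ℕ := by
    refine Filter.univ_mem' fun n => ?_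
    obtain ⟨w, hw1, hw2⟩ := H _ ⟨n, rfl⟩
    exact Set.mem_biUnion hw1 hw2
  obtain ⟨w, hwt, hw'⟩ := (Ultrafilter.finite_biUnion_mem_iff ht).1 hu
  obtain ⟨l, rfl⟩ := htS hwt
  have key : ∀ n, ∫ y, ‖a.loc i (ρ.ρ i * v n) y - a.loc i (ρ.ρ i * v l) y‖ ^ 2 ≤
      (ε / (2 * (C₀ + 1))) ^ 2 → G.nrm (ρ.ρ i * v n - ρ.ρ i * v l) ≤ ε / 2 := fun n hn => by
    refine (H0 _ (sub_mem (chart_piece_mem ρ i (hv n)) (chart_piece_mem ρ i (hv l)))
      (chart_supp_sub (chart_piece_supp ρ i _) (chart_piece_supp ρ i _))).trans ?_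
    rw [chart_loc_sub]
    have h2 : e0 (a.loc i (ρ.ρ i * v n) - a.loc i (ρ.ρ i * v l)) ≤ ε / (2 * (C₀ + 1)) :=
      (Real.sqrt_le_left hδ.le).2 hn
    refine (mul_le_mul (le_add_of_nonneg_right zero_le_one) h2 (e0_nonneg _)
      (by positivity)).trans (le_of_eq ?_)
    field_simp
  refine ⟨_, hw', fun m hm n hn => ?_⟩
  have e : ρ.ρ i * v m - ρ.ρ i * v n =
      (ρ.ρ i * v m - ρ.ρ i * v l) - (ρ.ρ i * v n - ρ.ρ i * v l) := by ring
  rw [e]
  exact (G.nn_sub 0 _ _).trans ((add_le_add (key m hm) (key n hn)).trans (add_halves ε).le)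

theorem chart_cpl (h : IsInt G a) (ρ : a.POU) (i : Fin a.n) (v : ℕ → A) (hv : ∀ n, v n ∈ B.W 0)
    (hc : ∀ k, ∀ ε > 0, ∃ n₀, ∀ m ≥ n₀, ∀ n ≥ n₀, G.nn k (v m - v n) ≤ ε) :
    ∃ u ∈ B.W 0, Tendsto (fun n => G.nrm (ρ.ρ i * v n - u)) atTop (𝓝 0) := by
  obtain ⟨C₀, h0, H0⟩ := h.chart_le_zero (ρ.cpt i) (ρ.sub i)
  obtain ⟨φ₀, hφ, hl⟩ := eu_cpl (ρ.cpt i) (φ := fun n => a.loc i (ρ.ρ i * v n))
    (fun n => chart_piece_test ρ i (v n)) (fun k ε hε => by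
      obtain ⟨C, h1, H1⟩ := h.chart_piece ρ i k
      obtain ⟨n₀, hn⟩ := hc k (ε / (C + 1)) (by positivity)
      refine ⟨n₀, fun m hm n hn' => ?_⟩
      rw [← chart_loc_sub, ← mul_sub]
      refine (H1 _ (sub_mem (hv m) (hv n))).trans ((mul_le_mul
        (le_add_of_nonneg_right zero_le_one) (hn m hm n hn') (G.nn_nonneg _ _)
        (by positivity)).trans (le_of_eq ?_))
      field_simp)
  obtain ⟨u, u0, uS, hu⟩ := a.glob (ρ.cpt i) (ρ.sub i) hφ.1.contDiffOn fun y _ hy => hφ.2 y hy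
  have e : a.loc i u = φ₀ := by
    funext y
    by_cases hy : y ∈ a.O i
    · rw [chart_loc_mem _ hy, hu y hy]
    · rw [chart_loc_not _ hy, hφ.2 y fun hy' => hy (ρ.sub i hy')]
  refine ⟨u, u0, squeeze_zero (fun n => G.nrm_nonneg _) (fun n => H0 _
    (sub_mem (chart_piece_mem ρ i (hv n)) u0) (chart_supp_sub (chart_piece_supp ρ i _) uS)) ?_⟩
  simp only [chart_loc_sub, e]
  simpa using hl.const_mul C₀

theorem nn_en (h : IsInt G a) {i : Fin a.n} {K : Set E4} (hK : IsCompact K) (hs : K ⊆ a.O i)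
    (k : ℕ) : ∃ C : ℝ, 0 ≤ C ∧ ∀ s ∈ B.W 0, a.Supp i K s →
      G.nn k s ≤ C * en k (a.loc i s) ∧ en k (a.loc i s) ≤ C * G.nn k s := by
  obtain ⟨C₁, h1, H1⟩ := h.chart_le hK hs k
  obtain ⟨C₂, h2, H2⟩ := h.chart_ge hK hs k
  exact ⟨C₁ + C₂, add_nonneg h1 h2, fun s s0 hS =>
    ⟨(H1 s s0 hS).trans (mul_le_mul_of_nonneg_right (le_add_of_nonneg_right h2) (en_nonneg _ _)),
      (H2 s s0 hS).trans
        (mul_le_mul_of_nonneg_right (le_add_of_nonneg_left h1) (G.nn_nonneg _ _))⟩⟩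

theorem sob (h : IsInt G a) : ∃ C : ℝ, ∀ v ∈ B.W 0, G.nrm (v * v) ≤ C * G.nn 1 v ^ 2 := by
  obtain ⟨ρ⟩ := a.exists_pou
  choose C h0 H using fun i => h.chart_sob ρ i
  refine ⟨∑ i, ∑ j, (C i + C j), fun v hv => ?_⟩
  have e : v * v = ∑ i, ∑ j, ρ.ρ i * v * (ρ.ρ j * v) := by
    rw [← Finset.sum_mul_sum, chart_piece_sum]
  rw [e, Finset.sum_mul]
  refine (G.nrm_sum _ _).trans (Finset.sum_le_sum fun i _ => ?_)
  rw [Finset.sum_mul]
  refine (G.nrm_sum _ _).trans (Finset.sum_le_sum fun j _ => ?_)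
  have hN : 0 ≤ G.nn 1 v ^ 2 := sq_nonneg _
  refine le_of_sq_le_sq ((G.nrm_mul_sq _ _).trans ?_) (mul_nonneg (add_nonneg (h0 i) (h0 j)) hN)
  rw [sq ((C i + C j) * _)]
  exact mul_le_mul
    ((H i v hv).trans (mul_le_mul_of_nonneg_right (le_add_of_nonneg_right (h0 j)) hN))
    ((H j v hv).trans (mul_le_mul_of_nonneg_right (le_add_of_nonneg_left (h0 i)) hN))
    (G.nrm_nonneg _) (mul_nonneg (add_nonneg (h0 i) (h0 j)) hN)

theorem sup (h : IsInt G a) : ∃ C : ℝ, ∀ v ∈ B.W 0, ∀ p, ‖B.ev v p‖ ≤ C * G.nn 4 v := by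
  obtain ⟨ρ⟩ := a.exists_pou
  choose C h0 H using fun i => h.chart_piece ρ i 4
  choose C' h0' H' using fun i => eu_sup (ρ.cpt i)
  refine ⟨∑ i, C' i * C i, fun v hv p => ?_⟩
  have e : B.ev v p = ∑ i, B.ev (ρ.ρ i * v) p := by
    rw [← ContinuousMap.sum_apply, ← map_sum, chart_piece_sum]
  rw [e, Finset.sum_mul]
  refine (norm_sum_le _ _).trans (Finset.sum_le_sum fun i _ => ?_)
  by_cases hp : B.ev (ρ.ρ i * v) p = 0
  · rw [hp, norm_zero]
    exact mul_nonneg (mul_nonneg (h0' i) (h0 i)) (G.nn_nonneg _ _)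
  · rw [a.ev_eq_loc (chart_piece_mem ρ i hv) (chart_piece_supp ρ i v p hp).1, mul_assoc]
    exact (H' i _ (chart_piece_test ρ i v) _).trans (mul_le_mul_of_nonneg_left (H i v hv) (h0' i))

theorem rel (h : IsInt G a) (v : ℕ → A) (hv : ∀ n, v n ∈ B.W 0) (hb : ∀ n, G.nn 1 (v n) ≤ 1) :
    ∃ φ : ℕ → ℕ, StrictMono φ ∧
      ∀ ε > 0, ∃ n₀, ∀ m ≥ n₀, ∀ n ≥ n₀, G.nrm (v (φ m) - v (φ n)) ≤ ε := by
  obtain ⟨ρ⟩ := a.exists_pou
  refine chart_subseq (d := fun m n => G.nrm (v m - v n)) fun ε hε => ?_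
  have hδ : 0 < ε / ((a.n : ℝ) + 1) := by positivity
  choose S hS H using fun i => h.chart_rel ρ i v hv hb hδ
  refine ⟨⋂ i, S i, Filter.iInter_mem.2 hS, fun m hm n hn => ?_⟩
  have e : v m - v n = ∑ i, (ρ.ρ i * v m - ρ.ρ i * v n) := by
    rw [Finset.sum_sub_distrib, chart_piece_sum, chart_piece_sum]
  rw [e]
  refine (G.nrm_sum _ _).trans ((Finset.sum_le_card_nsmul _ _ _ fun i _ =>
    H i m (Set.mem_iInter.1 hm i) n (Set.mem_iInter.1 hn i)).trans ?_)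
  rw [Finset.card_univ, Fintype.card_fin, nsmul_eq_mul]
  refine (mul_le_mul_of_nonneg_right (le_add_of_nonneg_right zero_le_one) hδ.le).trans
    (le_of_eq ?_)
  field_simp

theorem cpl (h : IsInt G a) (v : ℕ → A) (hv : ∀ n, v n ∈ B.W 0)
    (hc : ∀ k, ∀ ε > 0, ∃ n₀, ∀ m ≥ n₀, ∀ n ≥ n₀, G.nn k (v m - v n) ≤ ε) :
    ∃ u ∈ B.W 0, Tendsto (fun n => G.nrm (v n - u)) atTop (𝓝 0) := by
  obtain ⟨ρ⟩ := a.exists_pou
  choose u u0 H using fun i => h.chart_cpl ρ i v hv hc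
  refine ⟨∑ i, u i, Submodule.sum_mem _ fun i _ => u0 i, ?_⟩
  have e : ∀ n, v n - ∑ i, u i = ∑ i, (ρ.ρ i * v n - u i) := fun n => by
    rw [Finset.sum_sub_distrib, chart_piece_sum]
  refine squeeze_zero (fun n => G.nrm_nonneg _) (fun n => (e n).symm ▸ G.nrm_sum _ _) ?_
  simpa using tendsto_finsetSum Finset.univ fun i _ => H i

end IsInt

end SW4
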