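import Pool.Agent.P.MP_0a0487_an.SW.Defs

/-! Changes of frame and reversal of the orientation of the second plane. -/

set_option autoImplicit false
set_option linter.unusedSectionVars false

noncomputable section

namespace SW4

open scoped ComplexOrder ContDiff
open Filter Topology

variable {P A : Type} [TopologicalSpace P] [CompactSpace P] [CommRing A] [StarRing A] [Algebra ℂ A]
  [StarModule ℂ A] {B : Base P A}

/-- An orientation preserving real change of frame. -/
structure Base.Frame (B : Base P A) (g : Matrix (Fin 4) (Fin 4) A) : Prop where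
  mem : ∀ α β, g α β ∈ B.W (wt α - wt β)
  star_eq : ∀ α β, star (g α β) = g (bar α) (bar β)
  pos : ∀ p, 0 < (B.ev g.det p).re

/-- The components of a 2-form in the new frame. -/
def tr2 {R : Type} [CommRing R] (g : Matrix (Fin 4) (Fin 4) R) (b : Fin 4 → Fin 4 → R) :
    Fin 4 → Fin 4 → R := fun α β => ∑ γ, ∑ δ, g α γ * g β δ * b γ δ

/-- `G'` is obtained from `G` by the change of frame `g`. -/
structure Chg (G G' : Pre B) (g : Matrix (Fin 4) (Fin 4) A) : Prop where
  frame : B.Frame g
  D_eq : ∀ α s, G'.D α s = ∑ β, g α β * G.D β s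
  I_eq : ∀ s, G'.I (g.det * s) = G.I s

/-- The transposition of the last two indices. -/
def sw : Fin 4 → Fin 4 := ![0, 1, 3, 2]

/-- The grading with the second weight reversed. -/
def Base.flip (B : Base P A) : Base P A where
  ev := B.ev
  ev_inj := B.ev_inj
  W w := B.W (w.1, -w.2)
  one_mem := B.one_mem
  mul_mem := fun {u v s t} hs ht => by
    have := B.mul_mem hs ht
    rwa [Prod.mk_add_mk, ← neg_add] at this
  star_mem := fun {u s} hs => B.star_mem hs

/-- `G'` is `G` with the orientation of the second plane reversed. -/
structure Flp (G : Pre B) (G' : Pre B.flip) : Prop where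
  D_eq : ∀ α s, G'.D α s = G.D (sw α) s
  I_eq : ∀ s, G'.I s = G.I s

/-- The 2-form with the two given diagonal components (`i` times a real form). -/
def om {R : Type} [CommRing R] (x y : R) : Fin 4 → Fin 4 → R :=
  ![![0, x, 0, 0], ![-x, 0, 0, 0], ![0, 0, 0, y], ![0, 0, -y, 0]]

end SW4
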