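import Pool.Agent.P.MP_0a0487_an.SW.AtlB

/-! The change of variables formula between two charts. -/

set_option autoImplicit false
set_option linter.unusedSectionVars false

noncomputable section

namespace SW4

open scoped ComplexOrder ContDiff
open Filter Topology

variable {P A : Type} [TopologicalSpace P] [CompactSpace P] [CommRing A] [StarRing A] [Algebra ℂ A]
  [StarModule ℂ A] {B : Base P A}

open MeasureTheory Matrix

/-- The point map respects the fibres. -/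
theorem CovA_E_pt {G : Calc B} (a : Atl G) (f : PMap G) {p q : P} (h : G.E q = G.E p) :
    G.E (f.pt q) = G.E (f.pt p) := by
  funext k
  simp only [Calc.E]
  rw [← f.ev_eq _ (G.e_re k).1, ← f.ev_eq _ (G.e_re k).1,
    a.ev_eq_of_E h (f.mem _ (G.e_re k).1)]

/-- The inverse point map respects the fibres. -/
theorem CovA_E_pt' {G : Calc B} (a : Atl G) (f : PMap G) {p q : P} (h : G.E q = G.E p) :
    G.E (f.pt' q) = G.E (f.pt' p) := by
  funext k
  simp only [Calc.E]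
  rw [← f.ev_eq' _ (G.e_re k).1, ← f.ev_eq' _ (G.e_re k).1,
    a.ev_eq_of_E h (f.mem' _ (G.e_re k).1)]

theorem CovA_cont {G : Calc B} (a : Atl G) (f : PMap G) (i : Fin a.n) {y0 : E4}
    (hy : y0 ∈ a.O i) : ContinuousAt (fun y => G.E (f.pt (a.pr i y))) y0 := by
  refine continuousAt_pi.2 fun k => ?_
  have h1 : ContinuousAt (fun y => B.ev (f.Φ (G.e k)) (a.pr i y)) y0 :=
    ((a.sm i (f.Φ (G.e k))).continuousOn y0 hy).continuousAt ((a.O_open i).mem_nhds hy)
  have h2 : (fun y => G.E (f.pt (a.pr i y)) k) =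
      fun y => (B.ev (f.Φ (G.e k)) (a.pr i y)).re := by
    funext y
    simp only [Calc.E]
    rw [f.ev_eq _ (G.e_re k).1]
  rw [h2]
  exact Complex.continuous_re.continuousAt.comp h1

/-- Continuity of the transition map. -/
theorem CovA_ev {G : Calc B} (a : Atl G) (f : PMap G) {i j : Fin a.n} {y0 : E4}
    (hy : y0 ∈ a.O i) (hU : f.pt (a.pr i y0) ∈ a.U j) {N : Set E4}
    (hN : N ∈ 𝓝 (a.ψ j (f.pt (a.pr i y0)))) :
    ∀ᶠ y in 𝓝 y0, y ∈ a.O i ∧ f.pt (a.pr i y) ∈ a.U j ∧ a.ψ j (f.pt (a.pr i y)) ∈ N := by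
  obtain ⟨N', hN'N, hN'o, hN'm⟩ := mem_nhds_iff.1 hN
  have ho : IsOpen (a.U j ∩ a.ψ j ⁻¹' N') :=
    (a.ψ_cont j).isOpen_inter_preimage (a.U_open j) hN'o
  obtain ⟨δ, hδ, hb⟩ := a.exists_ball ho (fun p hp q hq => by
    obtain ⟨h1, h2⟩ := a.E_inj j p hp.1 q hq
    refine ⟨h1, ?_⟩
    show a.ψ j q ∈ N'
    rw [h2]
    exact hp.2) (p := f.pt (a.pr i y0)) ⟨hU, hN'm⟩
  have hc := CovA_cont a f i hy
  have h1 : ∀ᶠ y in 𝓝 y0, dist (G.E (f.pt (a.pr i y))) (G.E (f.pt (a.pr i y0))) < δ :=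
    Metric.tendsto_nhds.1 hc δ hδ
  filter_upwards [h1, (a.O_open i).mem_nhds hy] with y h2 h3
  have h4 := hb (f.pt (a.pr i y)) (by rw [← dist_eq_norm]; exact h2.le)
  exact ⟨h3, h4.1, hN'N h4.2⟩

/-- The matrix of complex coordinates of the basis vectors. -/
def CovA_C : Matrix (Fin 4) (Fin 4) ℂ := Matrix.of fun k α => cx (Pi.single k 1) α

theorem CovA_cx (v : Fin 4 → ℝ) (α : Fin 4) : cx v α = ∑ k, (v k : ℂ) * CovA_C k α := by
  fin_cases α <;> simp [cx, CovA_C, Fin.sum_univ_four, Pi.single_apply] <;> ring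

theorem CovA_det : CovA_C.det ≠ 0 := by
  have h : CovA_C * !![1, -Complex.I, 0, 0; 1, Complex.I, 0, 0; 0, 0, 1, -Complex.I;
      0, 0, 1, Complex.I] = 1 := by
    ext k l
    fin_cases k <;> fin_cases l <;>
      simp [cx, CovA_C, Matrix.mul_apply, Fin.sum_univ_four, Pi.single_apply] <;>
      ring_nf <;> simp [Complex.I_sq]
  exact Matrix.det_ne_zero_of_right_inverse h

theorem CovA_pd_coord (m l : Fin 4) (y : E4) :
    pd l (fun y : E4 => ((y m : ℝ) : ℂ)) y = if m = l then 1 else 0 := by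
  have h : HasFDerivAt (fun y : E4 => ((y m : ℝ) : ℂ))
      (Complex.ofRealCLM.comp (ContinuousLinearMap.proj m)) y :=
    (Complex.ofRealCLM.comp (ContinuousLinearMap.proj m : E4 →L[ℝ] ℝ)).hasFDerivAt
  unfold pd
  rw [h.fderiv]
  by_cases hml : m = l
  · subst hml; simp
  · simp [hml]

/-- Differentiability of the transition map and the Jacobian identity. -/
theorem CovA_jac {G : Calc B} (a : Atl G) (f : PMap G) {i j : Fin a.n} {y0 : E4}
    (hy : y0 ∈ a.O i) (hU : f.pt (a.pr i y0) ∈ a.U j) :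
    DifferentiableAt ℝ (fun y => a.ψ j (f.pt (a.pr i y))) y0 ∧
      (f.J (a.pr i y0)).det * a.dens i y0 =
        |(fderiv ℝ (fun y => a.ψ j (f.pt (a.pr i y))) y0).det| *
          a.dens j (a.ψ j (f.pt (a.pr i y0))) := by
  set τ : E4 → E4 := fun y => a.ψ j (f.pt (a.pr i y)) with hτ
  have hO : τ y0 ∈ a.O j := a.ψ_mem j _ hU
  obtain ⟨x, hx, hxe⟩ := a.exists_coordFun (i := j) (K := {τ y0}) isCompact_singleton
    (Set.singleton_subset_iff.2 hO)
  rw [nhdsSet_singleton] at hxe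
  have hev := CovA_ev a f hy hU hxe
  have hg : ∀ m, (fun y => B.ev (f.Φ (x m)) (a.pr i y)) =ᶠ[𝓝 y0] fun y => ((τ y m : ℝ) : ℂ) := by
    intro m
    filter_upwards [hev] with y h
    rw [f.ev_eq _ (hx m).1, ← a.inv0 j _ h.2.1 _ (hx m).1]
    exact h.2.2 m
  have hgd : ∀ m, DifferentiableAt ℝ (fun y => B.ev (f.Φ (x m)) (a.pr i y)) y0 := fun m =>
    ((a.sm i (f.Φ (x m))).contDiffAt ((a.O_open i).mem_nhds hy)).differentiableAt (by simp)
  have hτd : DifferentiableAt ℝ τ y0 := by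
    refine differentiableAt_pi.2 fun m => ?_
    have h1 : DifferentiableAt ℝ (fun y => (B.ev (f.Φ (x m)) (a.pr i y)).re) y0 :=
      Complex.reCLM.differentiableAt.comp y0 (hgd m)
    refine h1.congr_of_eventuallyEq ?_
    filter_upwards [hg m] with y h
    rw [h, Complex.ofReal_re]
  refine ⟨hτd, ?_⟩
  set M : Matrix (Fin 4) (Fin 4) ℝ := LinearMap.toMatrix' (fderiv ℝ τ y0).toLinearMap with hM
  have hMdet : (fderiv ℝ τ y0).det = M.det := by
    rw [hM, LinearMap.det_toMatrix']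
  have hpd : ∀ m l, pd l (fun y => B.ev (f.Φ (x m)) (a.pr i y)) y0 = (M m l : ℂ) := by
    intro m l
    have h1 : HasFDerivAt (fun y => ((τ y m : ℝ) : ℂ))
        ((Complex.ofRealCLM.comp (ContinuousLinearMap.proj m)).comp (fderiv ℝ τ y0)) y0 :=
      (Complex.ofRealCLM.comp (ContinuousLinearMap.proj m : E4 →L[ℝ] ℝ)).hasFDerivAt.comp y0
        hτd.hasFDerivAt
    unfold pd
    rw [(hg m).fderiv_eq, h1.fderiv, hM, LinearMap.toMatrix'_apply]
    simp
  have hpd' : ∀ m l, pd l (fun y => B.ev (x m) (a.pr j y)) (τ y0) = if m = l then 1 else 0 := by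
    intro m l
    have h1 : (fun y => B.ev (x m) (a.pr j y)) =ᶠ[𝓝 (τ y0)] fun y => ((y m : ℝ) : ℂ) := by
      filter_upwards [hxe] with y h
      exact h m
    rw [← CovA_pd_coord m l (τ y0)]
    unfold pd
    rw [h1.fderiv_eq]
  have hE : G.E (f.pt (a.pr i y0)) = G.E (a.pr j (τ y0)) := (a.E_pr j hU).symm
  choose z hz hze using fun α => a.phase hE (0 + wt α)
  have key : CovA_C * a.V i y0 * (M.map (↑) : Matrix (Fin 4) (Fin 4) ℂ)ᵀ =
      ((f.J (a.pr i y0)).map (↑) : Matrix (Fin 4) (Fin 4) ℂ)ᵀ * CovA_C * Matrix.diagonal z *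
        a.V j (τ y0) := by
    ext k m
    have h1 := f.chain _ (hx m).1 (a.pr i y0) (Pi.single k 1)
    unfold Calc.dv at h1
    have h2 : ∀ α, B.ev (G.D α (f.Φ (x m))) (a.pr i y0) = ∑ l, a.V i y0 α l * (M m l : ℂ) := by
      intro α
      rw [a.der i y0 hy _ (f.mem _ (hx m).1) α]
      simp only [hpd]
    have h3 : ∀ α, B.ev (G.D α (x m)) (f.pt (a.pr i y0)) = z α * a.V j (τ y0) α m := by
      intro α
      rw [hze α _ (G.D_mem α (hx m).1), a.der j _ hO _ (hx m).1 α]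
      simp only [hpd', mul_ite, mul_one, mul_zero, Finset.sum_ite_eq, Finset.mem_univ, if_true]
    simp only [h2, h3] at h1
    have h4 : (CovA_C * a.V i y0 * (M.map (↑) : Matrix (Fin 4) (Fin 4) ℂ)ᵀ) k m =
        ∑ α, cx (Pi.single k 1) α * ∑ l, a.V i y0 α l * (M m l : ℂ) := by
      rw [Matrix.mul_assoc, Matrix.mul_apply]
      refine Finset.sum_congr rfl fun α _ => ?_
      rw [Matrix.mul_apply]
      rfl
    rw [h4, h1, Matrix.mul_apply]
    refine Finset.sum_congr rfl fun α _ => ?_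
    rw [Matrix.mul_diagonal, CovA_cx, Matrix.mul_apply, mul_assoc]
    congr 1
    refine Finset.sum_congr rfl fun n _ => ?_
    simp
  have kd := congrArg Matrix.det key
  have hmap : ∀ N : Matrix (Fin 4) (Fin 4) ℝ,
      (N.map (↑) : Matrix (Fin 4) (Fin 4) ℂ).det = (N.det : ℂ) := fun N =>
    (Complex.ofRealHom.map_det N).symm
  simp only [Matrix.det_mul, Matrix.det_transpose, Matrix.det_diagonal, hmap] at kd
  have kn := congrArg norm kd
  have hz1 : ‖∏ α, z α‖ = 1 := by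
    rw [norm_prod]
    simp [hz]
  simp only [norm_mul, hz1, Complex.norm_real, Real.norm_eq_abs, mul_one] at kn
  rw [abs_of_pos (f.det_pos _)] at kn
  have hC : 0 < ‖CovA_C.det‖ := norm_pos_iff.2 CovA_det
  have hi : 0 < ‖(a.V i y0).det‖ := norm_pos_iff.2 (a.det_ne i hy)
  have hj : 0 < ‖(a.V j (τ y0)).det‖ := norm_pos_iff.2 (a.det_ne j hO)
  rw [hMdet]
  show (f.J (a.pr i y0)).det * ‖(a.V i y0).det‖⁻¹ = |M.det| * ‖(a.V j (τ y0)).det‖⁻¹
  have k2 : ‖(a.V i y0).det‖ * |M.det| = (f.J (a.pr i y0)).det * ‖(a.V j (τ y0)).det‖ := by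
    apply mul_left_cancel₀ hC.ne'
    linarith
  field_simp
  linarith

set_option linter.unusedVariables false in
theorem Atl.cov_chart {G : Calc B} (a : Atl G) (f : PMap G) {i j : Fin a.n} {K K' : Set E4}
    (hK : IsCompact K) (hs : K ⊆ a.O i) (hK' : IsCompact K') (hs' : K' ⊆ a.O j) {s : A}
    (s0 : s ∈ B.W 0) (h' : a.Supp j K' s) (h : a.Supp i K (f.Φ s)) :
    ∫ y, a.loc i (f.Φ s) y * ((f.J (a.pr i y)).det * a.dens i y : ℝ) =
      ∫ y, a.loc j s y * a.dens j y := by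
  set τ : E4 → E4 := fun y => a.ψ j (f.pt (a.pr i y)) with hτ
  set S : Set E4 := {y | y ∈ a.O i ∧ f.pt (a.pr i y) ∈ a.U j} with hS
  have hSo : IsOpen S := by
    refine isOpen_iff_mem_nhds.2 fun y hy => ?_
    filter_upwards [CovA_ev a f hy.1 hy.2 univ_mem] with y' h1
    exact ⟨h1.1, h1.2.1⟩
  have hinj : Set.InjOn τ S := by
    intro y1 h1 y2 h2 h12
    have e1 : G.E (f.pt (a.pr i y1)) = G.E (f.pt (a.pr i y2)) := by
      rw [← a.E_pr j h1.2, ← a.E_pr j h2.2]
      exact congrArg (fun t => G.E (a.pr j t)) h12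
    have e2 : G.E (a.pr i y1) = G.E (a.pr i y2) := by
      rw [← f.inv (a.pr i y1), ← f.inv (a.pr i y2)]
      exact CovA_E_pt' a f e1
    have e3 := (a.E_inj i _ (a.pr_mem i y2 h2.1) _ e2).2
    rwa [a.ψ_pr i y1 h1.1, a.ψ_pr i y2 h2.1] at e3
  have hcv := integral_image_eq_integral_abs_det_fderiv_smul (volume : Measure E4)
    hSo.measurableSet (f := τ) (f' := fun y => fderiv ℝ τ y)
    (fun y hy => (CovA_jac a f hy.1 hy.2).1.hasFDerivAt.hasFDerivWithinAt) hinj
    (fun y => a.loc j s y * a.dens j y)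
  have hR : ∫ y in τ '' S, a.loc j s y * a.dens j y = ∫ y, a.loc j s y * a.dens j y := by
    refine setIntegral_eq_integral_of_forall_compl_eq_zero fun y' hy' => ?_
    by_contra hne
    apply hy'
    have h1 : a.loc j s y' ≠ 0 := left_ne_zero_of_mul hne
    have h2 : y' ∈ a.O j := Set.mem_of_indicator_ne_zero h1
    have h3 : B.ev s (a.pr j y') ≠ 0 := by
      intro h4
      apply h1
      unfold Atl.loc
      rw [Set.indicator_of_mem h2, h4]
    have h4 : B.ev (f.Φ s) (f.pt' (a.pr j y')) ≠ 0 := by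
      rw [f.ev_eq _ s0, a.ev_eq_of_E (f.inv' (a.pr j y')) s0]
      exact h3
    have h5 := (h _ h4).1
    have h6 : G.E (f.pt (a.pr i (a.ψ i (f.pt' (a.pr j y'))))) = G.E (a.pr j y') := by
      rw [← f.inv' (a.pr j y')]
      exact CovA_E_pt a f (a.E_pr i h5)
    obtain ⟨h7, h8⟩ := a.E_inj j _ (a.pr_mem j y' h2) _ h6
    refine ⟨a.ψ i (f.pt' (a.pr j y')), ⟨a.ψ_mem i _ h5, h7⟩, ?_⟩
    show a.ψ j _ = y'
    rw [h8, a.ψ_pr j y' h2]
  have hL : ∫ y in S, a.loc i (f.Φ s) y * ((f.J (a.pr i y)).det * a.dens i y : ℝ) =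
      ∫ y, a.loc i (f.Φ s) y * ((f.J (a.pr i y)).det * a.dens i y : ℝ) := by
    refine setIntegral_eq_integral_of_forall_compl_eq_zero fun y hy => ?_
    by_contra hne
    apply hy
    have h1 : a.loc i (f.Φ s) y ≠ 0 := left_ne_zero_of_mul hne
    have h2 : y ∈ a.O i := Set.mem_of_indicator_ne_zero h1
    refine ⟨h2, (h' _ ?_).1⟩
    intro h4
    apply h1
    unfold Atl.loc
    rw [Set.indicator_of_mem h2, f.ev_eq _ s0, h4]
  rw [← hL, ← hR, hcv]
  refine setIntegral_congr_fun hSo.measurableSet fun y hy => ?_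
  have h1 : a.loc i (f.Φ s) y = a.loc j s (τ y) := by
    rw [← a.ev_eq_loc s0 hy.2, ← f.ev_eq _ s0]
    unfold Atl.loc
    rw [Set.indicator_of_mem hy.1]
  show a.loc i (f.Φ s) y * (((f.J (a.pr i y)).det * a.dens i y : ℝ) : ℂ) =
    |(fderiv ℝ τ y).det| • (a.loc j s (τ y) * a.dens j (τ y))
  rw [(CovA_jac a f hy.1 hy.2).2, h1, Complex.real_smul]
  push_cast
  ring

/-- The identity map. -/
def CovA_id (G : Calc B) : PMap G where
  pt := id
  pt' := id
  Φ := id
  Φ' := id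
  J := fun _ => 1
  mem := fun _ h => h
  mem' := fun _ h => h
  ev_eq := fun _ _ _ => rfl
  ev_eq' := fun _ _ _ => rfl
  inv := fun _ => rfl
  inv' := fun _ => rfl
  chain := fun _ _ _ v => by simp
  det_pos := fun _ => by simp

theorem Atl.cov_id {G : Calc B} (a : Atl G) {i j : Fin a.n} {K K' : Set E4}
    (hK : IsCompact K) (hs : K ⊆ a.O i) (hK' : IsCompact K') (hs' : K' ⊆ a.O j) {s : A}
    (s0 : s ∈ B.W 0) (h' : a.Supp j K' s) (h : a.Supp i K s) :
    ∫ y, a.loc i s y * a.dens i y = ∫ y, a.loc j s y * a.dens j y := by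
  have h1 := a.cov_chart (CovA_id G) hK hs hK' hs' s0 h' h
  simpa [CovA_id] using h1

end SW4
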