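import Pool.Agent.P.MP_0a0487_an.SW.Cur

/-! The Ruelle-Sullivan-Plante current. -/

set_option autoImplicit false
set_option linter.unusedSectionVars false

noncomputable section

namespace SW4

open scoped ComplexOrder ContDiff
open Filter Topology Matrix

variable {P A : Type} [TopologicalSpace P] [CompactSpace P] [CommRing A] [StarRing A] [Algebra ℂ A]
  [StarModule ℂ A] {B : Base P A}

theorem curex_five {a₁ a₂ a₃ a₄ a₅ b₁ b₂ b₃ b₄ b₅ : ℂ} {r s : ℝ}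
    (h₁ : ‖a₁‖ ≤ r) (h₂ : ‖a₂‖ ≤ r) (h₃ : ‖a₃‖ ≤ r) (h₄ : ‖a₄‖ ≤ r) (h₅ : ‖a₅‖ ≤ r)
    (k₁ : ‖b₁‖ ≤ s) (k₂ : ‖b₂‖ ≤ s) (k₃ : ‖b₃‖ ≤ s) (k₄ : ‖b₄‖ ≤ s) (k₅ : ‖b₅‖ ≤ s) :
    ‖-(a₁ * b₁) + a₂ * b₂ + a₃ * b₃ - a₄ * b₄ + a₅ * b₅‖ ≤ 5 * (r * s) := by
  have hr : 0 ≤ r := (norm_nonneg _).trans h₁
  have e : ∀ a b : ℂ, ‖a‖ ≤ r → ‖b‖ ≤ s → ‖a * b‖ ≤ r * s := fun a b ha hb => by
    rw [norm_mul]; exact mul_le_mul ha hb (norm_nonneg _) hr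
  have t1 := norm_add_le (-(a₁ * b₁) + a₂ * b₂ + a₃ * b₃ - a₄ * b₄) (a₅ * b₅)
  have t2 := norm_sub_le (-(a₁ * b₁) + a₂ * b₂ + a₃ * b₃) (a₄ * b₄)
  have t3 := norm_add_le (-(a₁ * b₁) + a₂ * b₂) (a₃ * b₃)
  have t4 := norm_add_le (-(a₁ * b₁)) (a₂ * b₂)
  rw [norm_neg] at t4
  linarith [e _ _ h₁ k₁, e _ _ h₂ k₂, e _ _ h₃ k₃, e _ _ h₄ k₄, e _ _ h₅ k₅]

theorem curex_three {a₁ a₂ a₃ b₁ b₂ b₃ : ℂ} {r s : ℝ}
    (h₁ : ‖a₁‖ ≤ r) (h₂ : ‖a₂‖ ≤ r) (h₃ : ‖a₃‖ ≤ r)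
    (k₁ : ‖b₁‖ ≤ s) (k₂ : ‖b₂‖ ≤ s) (k₃ : ‖b₃‖ ≤ s) :
    ‖a₁ * b₁ - a₂ * b₂ + a₃ * b₃‖ ≤ 3 * (r * s) := by
  have hr : 0 ≤ r := (norm_nonneg _).trans h₁
  have e : ∀ a b : ℂ, ‖a‖ ≤ r → ‖b‖ ≤ s → ‖a * b‖ ≤ r * s := fun a b ha hb => by
    rw [norm_mul]; exact mul_le_mul ha hb (norm_nonneg _) hr
  have t1 := norm_add_le (a₁ * b₁ - a₂ * b₂) (a₃ * b₃)
  have t2 := norm_sub_le (a₁ * b₁) (a₂ * b₂)
  linarith [e _ _ h₁ k₁, e _ _ h₂ k₂, e _ _ h₃ k₃]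

theorem curex_det (a q c d : Fin 4 → ℂ) {r s t : ℝ} (hq : ∀ i, ‖q i‖ ≤ t)
    (ha : ‖a 2‖ ≤ r ∧ ‖a 3‖ ≤ r) (hc : ‖c 2‖ ≤ r ∧ ‖c 3‖ ≤ r) (hd : ‖d 2‖ ≤ r ∧ ‖d 3‖ ≤ r)
    (hcd : ‖w1 c d 0 1‖ ≤ s ∧ ‖w1 c d 0 2‖ ≤ s ∧ ‖w1 c d 1 2‖ ≤ s)
    (had : ‖w1 a d 0 1‖ ≤ s ∧ ‖w1 a d 0 2‖ ≤ s ∧ ‖w1 a d 1 2‖ ≤ s)
    (hac : ‖w1 a c 0 1‖ ≤ s ∧ ‖w1 a c 0 2‖ ≤ s ∧ ‖w1 a c 1 2‖ ≤ s) :
    ‖wg (w1 a q) (w1 c d)‖ ≤ 4 * (t * (3 * (r * s))) := by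
  have e : wg (w1 a q) (w1 c d) =
      -(q 0 * (a 3 * w1 c d 1 2 - c 3 * w1 a d 1 2 + d 3 * w1 a c 1 2)) +
        q 1 * (a 3 * w1 c d 0 2 - c 3 * w1 a d 0 2 + d 3 * w1 a c 0 2) +
        q 3 * (a 2 * w1 c d 0 1 - c 2 * w1 a d 0 1 + d 2 * w1 a c 0 1) -
        q 2 * (a 3 * w1 c d 0 1 - c 3 * w1 a d 0 1 + d 3 * w1 a c 0 1) := by
    simp only [wg, w1]; ring
  have m1 := curex_three ha.2 hc.2 hd.2 hcd.2.2 had.2.2 hac.2.2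
  have m2 := curex_three ha.2 hc.2 hd.2 hcd.2.1 had.2.1 hac.2.1
  have m3 := curex_three ha.1 hc.1 hd.1 hcd.1 had.1 hac.1
  have m4 := curex_three ha.2 hc.2 hd.2 hcd.1 had.1 hac.1
  have ht : 0 ≤ t := (norm_nonneg _).trans (hq 0)
  have e' : ∀ (i : Fin 4) (b : ℂ), ‖b‖ ≤ 3 * (r * s) → ‖q i * b‖ ≤ t * (3 * (r * s)) :=
    fun i b hb => by rw [norm_mul]; exact mul_le_mul (hq i) hb (norm_nonneg _) ht
  rw [e]
  refine (norm_sub_le _ _).trans ?_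
  refine (add_le_add_left ((norm_add_le _ _).trans (add_le_add_left (norm_add_le _ _) _)) _).trans ?_
  rw [norm_neg]
  linarith [e' 0 _ m1, e' 1 _ m2, e' 3 _ m3, e' 2 _ m4]

variable {G : Pre B} {U V : P → Fin 2 → Fin 4 → ℝ}

theorem curex_b2 (B : Base P A) (b : Fin 4 → Fin 4 → A) (p : P) {u v : Fin 4 → ℝ} (hu : ‖u‖ ≤ 1) (hv : ‖v‖ ≤ 1) :
    ‖B.b2 b p u v‖ ≤ 16 * ‖B.ev2 b‖ := by
  refine (Base.b2_le b p u v).trans ?_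
  have h0 : 0 ≤ 16 * ‖B.ev2 b‖ := by positivity
  calc 16 * ‖B.ev2 b‖ * ‖u‖ * ‖v‖ ≤ 16 * ‖B.ev2 b‖ * 1 * 1 := by gcongr
    _ = _ := by ring

/-- the pointwise estimates, with the expansion factor `x` -/
theorem curex_pt (S : Spl G U V) {f : Map G} {ε : ℝ} (h : f.HypAt U V ε) (hε : ε ≤ 1) (p : P) :
    0 ≤ ε ∧ ∃ (x : ℝ) (η : ℝ) (Δ : ℝ), 0 < x ∧ 0 < Δ ∧ S.κ ≤ η ∧ η ≤ 16 * ‖B.ev2 S.ηU‖ ∧
      (∀ b, B.Form2 b → ‖-((Δ : ℂ) / 4) * B.ev (wg (f.pull2 S.ηU) b) p -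
        x * η * B.b2 b p (V p 0) (V p 1)‖ ≤ 5120 * ε ^ 2 * x * ‖B.ev2 S.ηU‖ * ‖B.ev2 b‖) ∧
      ∀ c ∈ B.W 0, ∀ e ∈ B.W 0, ∀ e' ∈ B.W 0, ∀ q ∈ B.W 0, ∀ K : ℝ,
        (∀ p v, ‖G.dv c p v‖ ≤ K * ‖v‖) → (∀ p v, ‖G.dv e p v‖ ≤ K * ‖v‖) →
        (∀ p v, ‖G.dv e' p v‖ ≤ K * ‖v‖) → (∀ p v, ‖G.dv q p v‖ ≤ K * ‖v‖) →
        ‖B.ev2 (G.dd e e')‖ ≤ K → ‖B.ev2 (G.dd c e')‖ ≤ K → ‖B.ev2 (G.dd c e)‖ ≤ K →
        ‖-((Δ : ℂ) / 4) * B.ev (wg (G.dd (f.Φ c) q) (G.dd (f.Φ e) (f.Φ e'))) p‖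
          ≤ 1536 * K ^ 3 * ε * x := by
  obtain ⟨x, hx, hx1, hd⟩ := h.dom S.bdU S.bdV p
  obtain ⟨M, M', -, hV, -, -, -, hM'⟩ := h p
  have hε0 : 0 ≤ ε := (abs_nonneg _).trans (hM' 0 0)
  have hε2 : ε ^ 2 ≤ 1 := pow_le_one₀ hε0 hε
  set u : Matrix (Fin 4) (Fin 4) ℝ := Matrix.of ![U p 0, U p 1, V p 0, V p 1] with hu
  have u0 : u 0 = U p 0 := rfl
  have u1 : u 1 = U p 1 := rfl
  have u2 : u 2 = V p 0 := rfl
  have u3 : u 3 = V p 1 := rfl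
  have hun : ∀ i, ‖u i‖ ≤ 1 := by
    intro i
    fin_cases i
    exacts [S.bdU p 0, S.bdU p 1, S.bdV p 0, S.bdV p 1]
  set η := B.b2 S.ηU (f.pt p) (U (f.pt p) 0) (U (f.pt p) 1) with hη
  have hηe : η = (η.re : ℂ) := by
    apply Complex.ext
    · simp
    · simpa using S.ηU_re.b2_im _ _ _
  refine ⟨hε0, x, η.re, u.det, hx, S.κ_pos.trans_le (S.det_pos p), S.ηU_pos _,
    (Complex.re_le_norm _).trans (curex_b2 B _ _ (S.bdU _ 0) (S.bdU _ 1)), fun b hb => ?_,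
    fun c hc e he e' he' q hq K k1 k2 k3 k4 k5 k6 k7 => ?_⟩
  · obtain ⟨d1, d2, d3, -⟩ := hd S.ηU S.ηU_re.1
    rw [← Base.wg_basis (f.pull2_form S.ηU_re.1) hb p u, ← hηe]
    have d3' : ‖B.b2 (f.pull2 S.ηU) p (V p 0) (V p 1)‖ ≤ 64 * ε ^ 2 * x * ‖B.ev2 S.ηU‖ := by
      refine d3.trans ?_
      have h1 : 1 ≤ 2 * x := by nlinarith
      have h2 : 0 ≤ 32 * ε ^ 2 * ‖B.ev2 S.ηU‖ := by positivity
      calc 32 * ε ^ 2 * ‖B.ev2 S.ηU‖ = 32 * ε ^ 2 * ‖B.ev2 S.ηU‖ * 1 := by ring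
        _ ≤ 32 * ε ^ 2 * ‖B.ev2 S.ηU‖ * (2 * x) := by gcongr
        _ = _ := by ring
    have := curex_five (d2 0 0) (d2 0 1) (d2 1 0) (d2 1 1) d3'
      (curex_b2 B b p (S.bdU p 1) (S.bdV p 1)) (curex_b2 B b p (S.bdU p 1) (S.bdV p 0))
      (curex_b2 B b p (S.bdU p 0) (S.bdV p 1)) (curex_b2 B b p (S.bdU p 0) (S.bdV p 0))
      (curex_b2 B b p (S.bdU p 0) (S.bdU p 1))
    refine le_trans (le_of_eq ?_) (this.trans (le_of_eq (by ring)))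
    congr 1
    simp only [wg, u0, u1, u2, u3, d1]
    ring
  · have hK : 0 ≤ K := (norm_nonneg _).trans k5
    have hJ : ∀ j, ‖f.J p *ᵥ V p j‖ ≤ 2 * ε := by
      intro j
      rw [hV j, Fin.sum_univ_two]
      refine (norm_add_le _ _).trans ?_
      rw [norm_smul, norm_smul, Real.norm_eq_abs, Real.norm_eq_abs]
      have a0 := mul_le_mul (hM' j 0) (S.bdV (f.pt p) 0) (norm_nonneg _) hε0
      have a1 := mul_le_mul (hM' j 1) (S.bdV (f.pt p) 1) (norm_nonneg _) hε0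
      linarith
    have hs : ∀ s ∈ B.W 0, (∀ p v, ‖G.dv s p v‖ ≤ K * ‖v‖) →
        ‖G.dv (f.Φ s) p (u 2)‖ ≤ K * (2 * ε) ∧ ‖G.dv (f.Φ s) p (u 3)‖ ≤ K * (2 * ε) := by
      intro s hs k
      rw [f.chain s hs, f.chain s hs, u2, u3]
      exact ⟨(k _ _).trans (by gcongr; exact hJ 0), (k _ _).trans (by gcongr; exact hJ 1)⟩
    have hw : ∀ s ∈ B.W 0, ∀ t ∈ B.W 0, ‖B.ev2 (G.dd s t)‖ ≤ K →
        ‖w1 (fun i => G.dv (f.Φ s) p (u i)) (fun i => G.dv (f.Φ t) p (u i)) 0 1‖ ≤ 64 * K * x ∧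
        ‖w1 (fun i => G.dv (f.Φ s) p (u i)) (fun i => G.dv (f.Φ t) p (u i)) 0 2‖ ≤ 64 * K * x ∧
        ‖w1 (fun i => G.dv (f.Φ s) p (u i)) (fun i => G.dv (f.Φ t) p (u i)) 1 2‖
          ≤ 64 * K * x := by
      intro s hs t ht k
      obtain ⟨d1, d2, -, -⟩ := hd (G.dd s t) (G.dd_form hs ht)
      rw [f.pull2_dd hs ht] at d1 d2
      have d2' : ∀ i j, ‖B.b2 (G.dd (f.Φ s) (f.Φ t)) p (U p i) (V p j)‖ ≤ 64 * K * x := by
        intro i j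
        refine (d2 i j).trans ?_
        calc 64 * ε ^ 2 * x * ‖B.ev2 (G.dd s t)‖ ≤ 64 * 1 * x * K := by gcongr
          _ = _ := by ring
      simp only [w1, ← G.b2_dd, u0, u1, u2]
      refine ⟨?_, d2' 0 0, d2' 1 0⟩
      rw [d1, norm_mul, Complex.norm_real, Real.norm_eq_abs, abs_of_pos hx]
      have := curex_b2 B (G.dd s t) (f.pt p) (S.bdU (f.pt p) 0) (S.bdU (f.pt p) 1)
      calc x * _ ≤ x * (16 * K) := by gcongr; linarith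
        _ ≤ _ := by nlinarith
    rw [← Base.wg_basis (G.dd_form (f.mem c hc) hq) (G.dd_form (f.mem e he) (f.mem e' he')) p u]
    have := curex_det (fun i => G.dv (f.Φ c) p (u i)) (fun i => G.dv q p (u i))
      (fun i => G.dv (f.Φ e) p (u i)) (fun i => G.dv (f.Φ e') p (u i)) (t := K)
      (fun i => (k4 p (u i)).trans (mul_le_of_le_one_right hK (hun i)))
      (hs c hc k1) (hs e he k2) (hs e' he' k3) (hw e he e' he' k5) (hw c hc e' he' k6)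
      (hw c hc e he k7)
    refine le_trans (le_of_eq ?_) (this.trans (le_of_eq (by ring)))
    congr 2
    · funext i j
      rw [G.b2_dd, w1]
    · funext i j
      rw [G.b2_dd, w1]

/-- the pointwise estimates, relative to the density of the approximate current -/
theorem curex_rel (S : Spl G U V) {f : Map G} {ε : ℝ} (h : f.HypAt U V ε) (hε : ε ≤ 1)
    (hs : 5120 * ε ^ 2 * ‖B.ev2 S.ηU‖ * ‖B.ev2 S.ηV‖ ≤ S.κ ^ 2 / 2) (p : P) :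
    0 < (B.ev (-wg (f.pull2 S.ηU) S.ηV) p).re ∧
      (∀ b, B.Form2 b → ‖B.ev (wg (f.pull2 S.ηU) b) p‖ ≤
        10752 * ‖B.ev2 S.ηU‖ * ‖B.ev2 b‖ / S.κ ^ 2 * (B.ev (-wg (f.pull2 S.ηU) S.ηV) p).re) ∧
      (∀ b, B.Re2 b → 0 ≤ (B.b2 b p (V p 0) (V p 1)).re →
        (B.ev (wg (f.pull2 S.ηU) b) p).re ≤ ε ^ 2 * (10240 * ‖B.ev2 S.ηU‖ * ‖B.ev2 b‖ / S.κ ^ 2) *
          (B.ev (-wg (f.pull2 S.ηU) S.ηV) p).re) ∧
      ∀ c ∈ B.W 0, ∀ e ∈ B.W 0, ∀ e' ∈ B.W 0, ∀ q ∈ B.W 0, ∀ K : ℝ,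
        (∀ p v, ‖G.dv c p v‖ ≤ K * ‖v‖) → (∀ p v, ‖G.dv e p v‖ ≤ K * ‖v‖) →
        (∀ p v, ‖G.dv e' p v‖ ≤ K * ‖v‖) → (∀ p v, ‖G.dv q p v‖ ≤ K * ‖v‖) →
        ‖B.ev2 (G.dd e e')‖ ≤ K → ‖B.ev2 (G.dd c e')‖ ≤ K → ‖B.ev2 (G.dd c e)‖ ≤ K →
        ‖B.ev (wg (G.dd (f.Φ c) q) (G.dd (f.Φ e) (f.Φ e'))) p‖
          ≤ ε * (3072 * K ^ 3 / S.κ ^ 2) * (B.ev (-wg (f.pull2 S.ηU) S.ηV) p).re := by
  obtain ⟨hε0, x, η, Δ, hx, hΔ, hη1, hη2, h1, h2⟩ := curex_pt S h hε p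
  have hκ := S.κ_pos
  have hκ2 : 0 < S.κ ^ 2 := by positivity
  have hε2 : ε ^ 2 ≤ 1 := pow_le_one₀ hε0 hε
  set w := (B.ev (-wg (f.pull2 S.ηU) S.ηV) p).re with hw
  have hre : ∀ b, B.Form2 b → |-(Δ / 4) * (B.ev (wg (f.pull2 S.ηU) b) p).re -
      x * η * (B.b2 b p (V p 0) (V p 1)).re| ≤
      5120 * ε ^ 2 * x * ‖B.ev2 S.ηU‖ * ‖B.ev2 b‖ := by
    intro b hb
    refine le_trans (le_of_eq ?_) ((Complex.abs_re_le_norm _).trans (h1 b hb))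
    congr 1
    have e : -((Δ : ℂ) / 4) = ((-(Δ / 4) : ℝ) : ℂ) := by push_cast; ring
    rw [e, ← Complex.ofReal_mul, Complex.sub_re, Complex.re_ofReal_mul, Complex.re_ofReal_mul]
  have hxw : x ≤ Δ / 4 * (2 / S.κ ^ 2 * w) := by
    have a := (abs_le.1 (hre S.ηV S.ηV_re.1)).1
    have e : (B.ev (wg (f.pull2 S.ηU) S.ηV) p).re = -w := by
      rw [hw, map_neg, ContinuousMap.neg_apply, Complex.neg_re, neg_neg]
    rw [e] at a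
    have b1 : S.κ * S.κ ≤ η * (B.b2 S.ηV p (V p 0) (V p 1)).re :=
      mul_le_mul hη1 (S.ηV_pos p) hκ.le (hκ.le.trans hη1)
    have b2 := mul_le_mul_of_nonneg_left b1 hx.le
    have b3 := mul_le_mul_of_nonneg_left hs hx.le
    have b4 : x * S.κ ^ 2 ≤ Δ / 4 * (2 * w) := by nlinarith
    rw [show Δ / 4 * (2 / S.κ ^ 2 * w) = Δ / 4 * (2 * w) / S.κ ^ 2 by ring, le_div_iff₀ hκ2]
    exact b4
  have hΔ4 : 0 < Δ / 4 := by positivity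
  have key : ∀ y L : ℝ, 0 ≤ L → Δ / 4 * y ≤ L * x → y ≤ L * (2 / S.κ ^ 2 * w) := by
    intro y L hL hy
    refine le_of_mul_le_mul_left (hy.trans ?_) hΔ4
    calc L * x ≤ L * (Δ / 4 * (2 / S.κ ^ 2 * w)) := by gcongr
      _ = _ := by ring
  have hn : ∀ z : ℂ, ‖-((Δ : ℂ) / 4) * z‖ = Δ / 4 * ‖z‖ := by
    intro z
    rw [norm_mul, norm_neg, norm_div, Complex.norm_real, Real.norm_eq_abs, abs_of_pos hΔ]
    norm_num
  refine ⟨?_, fun b hb => ?_, fun b hb hb' => ?_,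
    fun c hc e he e' he' q hq K k1 k2 k3 k4 k5 k6 k7 => ?_⟩
  · have := hx.trans_le hxw
    by_contra hc
    have h3 : 2 / S.κ ^ 2 * w ≤ 0 := mul_nonpos_of_nonneg_of_nonpos (by positivity) (not_lt.1 hc)
    have h4 := mul_nonpos_of_nonneg_of_nonpos hΔ4.le h3
    linarith
  · refine (key _ (5376 * ‖B.ev2 S.ηU‖ * ‖B.ev2 b‖) (by positivity) ?_).trans_eq (by ring)
    rw [← hn]
    have t := norm_le_norm_sub_add (-((Δ : ℂ) / 4) * B.ev (wg (f.pull2 S.ηU) b) p)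
      (x * η * B.b2 b p (V p 0) (V p 1))
    have t2 : ‖(x : ℂ) * η * B.b2 b p (V p 0) (V p 1)‖ ≤
        x * (16 * ‖B.ev2 S.ηU‖) * (16 * ‖B.ev2 b‖) := by
      rw [norm_mul, norm_mul, Complex.norm_real, Complex.norm_real, Real.norm_eq_abs,
        Real.norm_eq_abs, abs_of_pos hx, abs_of_pos (hκ.trans_le hη1)]
      gcongr
      exact curex_b2 B b p (S.bdV p 0) (S.bdV p 1)
    have t3 : 5120 * ε ^ 2 * x * ‖B.ev2 S.ηU‖ * ‖B.ev2 b‖ ≤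
        5120 * 1 * x * ‖B.ev2 S.ηU‖ * ‖B.ev2 b‖ := by gcongr
    linarith [h1 b hb]
  · refine (key _ (5120 * ε ^ 2 * ‖B.ev2 S.ηU‖ * ‖B.ev2 b‖) (by positivity) ?_).trans_eq (by ring)
    have a := (abs_le.1 (hre b hb.1)).1
    have : 0 ≤ x * η * (B.b2 b p (V p 0) (V p 1)).re :=
      mul_nonneg (mul_nonneg hx.le (hκ.le.trans hη1)) hb'
    linarith
  · have hK : 0 ≤ K := (norm_nonneg _).trans k5
    refine (key _ (1536 * K ^ 3 * ε) (by positivity) ?_).trans_eq (by ring)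
    rw [← hn]
    exact h2 c hc e he e' he' q hq K k1 k2 k3 k4 k5 k6 k7

theorem curex_I_le (G : Pre B) {s t : A} {L : ℝ} (h : ∀ p, ‖B.ev s p‖ ≤ L * (B.ev t p).re) :
    ‖G.I s‖ ≤ L * (G.I t).re := by
  have := G.I_norm_le (s := s) (t := (L : ℂ) • t) fun p => by
    rw [map_smul, ContinuousMap.smul_apply, smul_eq_mul, Complex.re_ofReal_mul]
    exact h p
  rwa [map_smul, smul_eq_mul, Complex.re_ofReal_mul] at this

theorem curex_I_re_le (G : Pre B) {s t : A} {L : ℝ}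
    (h : ∀ p, (B.ev s p).re ≤ L * (B.ev t p).re) : (G.I s).re ≤ L * (G.I t).re := by
  have := G.I_re_mono (s := s) (t := (L : ℂ) • t) fun p => by
    rw [map_smul, ContinuousMap.smul_apply, smul_eq_mul, Complex.re_ofReal_mul]
    exact h p
  rwa [map_smul, smul_eq_mul, Complex.re_ofReal_mul] at this

theorem curex_stokes (G : Pre B) {c e e' p q : A} (hc : c ∈ B.W 0) (he : e ∈ B.W 0)
    (he' : e' ∈ B.W 0) (hp : p ∈ B.W 0) (hq : q ∈ B.W 0) :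
    G.I (c * wg (G.dd e e') (G.dd p q)) = -G.I (p * wg (G.dd c q) (G.dd e e')) := by
  have := G.stokes (c * p) (B.mul_mem' hc hp (add_zero _)) q hq e he e' he'
  rw [eq_neg_iff_add_eq_zero, ← map_add, ← this]
  congr 1
  simp only [wg, Calc.dd, w1, Calc.d0, G.D_mul]
  ring

theorem curex_K (G : Pre B) (c e e' q : A) : ∃ K : ℝ,
    (∀ p v, ‖G.dv c p v‖ ≤ K * ‖v‖) ∧ (∀ p v, ‖G.dv e p v‖ ≤ K * ‖v‖) ∧
    (∀ p v, ‖G.dv e' p v‖ ≤ K * ‖v‖) ∧ (∀ p v, ‖G.dv q p v‖ ≤ K * ‖v‖) ∧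
    ‖B.ev2 (G.dd e e')‖ ≤ K ∧ ‖B.ev2 (G.dd c e')‖ ≤ K ∧ ‖B.ev2 (G.dd c e)‖ ≤ K := by
  obtain ⟨K1, a1, b1⟩ := G.dv_le c
  obtain ⟨K2, a2, b2⟩ := G.dv_le e
  obtain ⟨K3, a3, b3⟩ := G.dv_le e'
  obtain ⟨K4, a4, b4⟩ := G.dv_le q
  have n1 := norm_nonneg (B.ev2 (G.dd e e'))
  have n2 := norm_nonneg (B.ev2 (G.dd c e'))
  have n3 := norm_nonneg (B.ev2 (G.dd c e))
  refine ⟨K1 + K2 + K3 + K4 + ‖B.ev2 (G.dd e e')‖ + ‖B.ev2 (G.dd c e')‖ + ‖B.ev2 (G.dd c e)‖,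
    fun p v => (b1 p v).trans ?_, fun p v => (b2 p v).trans ?_, fun p v => (b3 p v).trans ?_,
    fun p v => (b4 p v).trans ?_, by linarith, by linarith, by linarith⟩ <;>
  exact mul_le_mul_of_nonneg_right (by linarith) (norm_nonneg _)

theorem curex_closed (S : Spl G U V) {p q : A} (hp : p ∈ B.W 0) (hq : q ∈ B.W 0) :
    ∃ L : ℝ, ∀ (f : Map G) (ε : ℝ), f.HypAt U V ε → ε ≤ 1 →
      5120 * ε ^ 2 * ‖B.ev2 S.ηU‖ * ‖B.ev2 S.ηV‖ ≤ S.κ ^ 2 / 2 →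
      ‖G.I (wg (f.pull2 S.ηU) (G.dd p q))‖ ≤ ε * L * (G.I (-wg (f.pull2 S.ηU) S.ηV)).re := by
  set c : Fin G.N → Fin G.N → A :=
    fun k l => (1 / 2 : ℂ) • ∑ γ, ∑ δ, S.ηU γ δ * G.θ γ k * G.θ δ l with hc
  have hcm : ∀ k l, c k l ∈ B.W 0 := fun k l => Submodule.smul_mem _ _
    (Submodule.sum_mem _ fun γ _ => Submodule.sum_mem _ fun δ _ =>
      B.mul_mem' (B.mul_mem (S.ηU_re.1 γ δ).1 (G.θ_mem γ k)) (G.θ_mem δ l) (by abel))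
  choose K k1 k2 k3 k4 k5 k6 k7 using fun k l => curex_K G (c k l) (G.e k) (G.e l) q
  refine ⟨∑ k, ∑ l, ‖B.ev p‖ * (3072 * K k l ^ 3 / S.κ ^ 2), fun f ε h hε hs => ?_⟩
  have e : f.pull2 S.ηU = fun α β => ∑ k, ∑ l, f.Φ (c k l) *
      G.dd (f.Φ (G.e k)) (f.Φ (G.e l)) α β := by
    funext α β
    exact f.pull2_eq S.ηU_re.1 α β
  have e2 : G.I (wg (f.pull2 S.ηU) (G.dd p q)) = ∑ k, ∑ l,
      -G.I (p * wg (G.dd (f.Φ (c k l)) q) (G.dd (f.Φ (G.e k)) (f.Φ (G.e l)))) := by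
    rw [e, integ_wg_sum, map_sum]
    refine Finset.sum_congr rfl fun k _ => ?_
    rw [integ_wg_sum, map_sum]
    refine Finset.sum_congr rfl fun l _ => ?_
    rw [integ_wg_mul, curex_stokes G (f.mem _ (hcm k l)) (f.mem _ (G.e_re k).1)
      (f.mem _ (G.e_re l).1) hp hq]
  rw [e2, Finset.mul_sum, Finset.sum_mul]
  refine norm_sum_le_of_le _ fun k _ => ?_
  rw [Finset.mul_sum, Finset.sum_mul]
  refine norm_sum_le_of_le _ fun l _ => ?_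
  rw [norm_neg]
  refine curex_I_le G fun z => ?_
  have := (curex_rel S h hε hs z).2.2.2 _ (hcm k l) _ (G.e_re k).1 _ (G.e_re l).1 q hq (K k l)
    (k1 k l) (k2 k l) (k3 k l) (k4 k l) (k5 k l) (k6 k l) (k7 k l)
  rw [map_mul, ContinuousMap.mul_apply, norm_mul]
  refine (mul_le_mul ((B.ev p).norm_coe_le_norm z) this (norm_nonneg _)
    (norm_nonneg _)).trans_eq (by ring)

theorem Spl.exists_cur [Nonempty P] {G : Pre B} {U V : P → Fin 2 → Fin 4 → ℝ} (S : Spl G U V)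
    (h : Iter G U V) : ∃ C : Cur G V, 0 < (C.l (B.ev2 S.ηV)).re := by
  have hκ := S.κ_pos
  set 𝒰 : Ultrafilter ℕ := Ultrafilter.of atTop with h𝒰
  have hle : (𝒰 : Filter ℕ) ≤ atTop := Ultrafilter.of_le _
  set a : ℕ → Fin 4 → Fin 4 → A := fun m => (h.g m).pull2 S.ηU with ha
  have hare : ∀ m, B.Re2 (a m) := fun m => (h.g m).pull2_re S.ηU_re
  set c : ℕ → ℝ := fun m => (G.I (-wg (a m) S.ηV)).re with hc
  set F : (Fin 4 → Fin 4 → A) → ℕ → ℂ := fun b m => -G.I (wg (a m) b) / c m with hF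
  have ev1 : ∀ᶠ m in atTop, h.ε m ≤ 1 := h.lim.eventually (ge_mem_nhds one_pos)
  have lim2 : Tendsto (fun m => h.ε m ^ 2) atTop (𝓝 0) := by simpa using h.lim.pow 2
  have ev2 : ∀ᶠ m in atTop,
      5120 * h.ε m ^ 2 * ‖B.ev2 S.ηU‖ * ‖B.ev2 S.ηV‖ ≤ S.κ ^ 2 / 2 := by
    have : Tendsto (fun m => 5120 * h.ε m ^ 2 * ‖B.ev2 S.ηU‖ * ‖B.ev2 S.ηV‖) atTop (𝓝 0) := by
      simpa using ((lim2.const_mul 5120).mul_const ‖B.ev2 S.ηU‖).mul_const ‖B.ev2 S.ηV‖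
    exact this.eventually (ge_mem_nhds (by positivity))
  have hrel := (ev1.and ev2).mono fun m hm => curex_rel S (h.hyp m) hm.1 hm.2
  have hpos : ∀ᶠ m in atTop, 0 < c m := hrel.mono fun m hm => by
    have := ((hare m).wg_re S.ηV_re)
    refine G.I_re_pos ⟨neg_mem this.1, by rw [star_neg, this.2]⟩ (fun p => (hm p).1.le) ?_
    exact ⟨Classical.arbitrary P, (hm _).1⟩
  have hnorm : ∀ b m (L : ℝ), 0 < c m → ‖G.I (wg (a m) b)‖ ≤ L * c m → ‖F b m‖ ≤ L := by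
    intro b m L h1 h2
    rw [hF]
    simp only [norm_div, norm_neg, Complex.norm_real, Real.norm_eq_abs, abs_of_pos h1]
    rwa [div_le_iff₀ h1]
  obtain ⟨Cf, hlim⟩ : ∃ Cf : (Fin 4 → Fin 4 → A) → ℂ,
      ∀ b, B.Form2 b → Tendsto (F b) 𝒰 (𝓝 (Cf b)) := by
    refine ⟨fun b => limUnder 𝒰 (F b), fun b hb => ?_⟩
    have hb' : ∀ᶠ m in atTop, F b m ∈ Metric.closedBall (0 : ℂ)
        (10752 * ‖B.ev2 S.ηU‖ * ‖B.ev2 b‖ / S.κ ^ 2) := by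
      filter_upwards [hrel, hpos] with m h1 h2
      rw [mem_closedBall_zero_iff]
      exact hnorm b m _ h2 (curex_I_le G fun p => (h1 p).2.1 b hb)
    obtain ⟨z, -, hz⟩ := (isCompact_closedBall (0 : ℂ) _).ultrafilter_le_nhds (𝒰.map (F b))
      (le_principal_iff.2 (hle hb'))
    exact tendsto_nhds_limUnder ⟨z, hz⟩
  obtain ⟨C, hC⟩ := S.exists_cur_of_fun Cf
    (fun x y hx hy => tendsto_nhds_unique (hlim _ (hx.add hy))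
      (((hlim x hx).add (hlim y hy)).congr fun m => by
        have : wg (a m) (x + y) = wg (a m) x + wg (a m) y := by
          simp only [wg, Pi.add_apply]; ring
        simp only [hF, this, map_add]
        ring))
    (fun z b hb => tendsto_nhds_unique (hlim _ (hb.smul z))
      (((hlim b hb).const_mul z).congr fun m => by
        have : wg (a m) (z • b) = z • wg (a m) b := by
          simp only [wg, Pi.smul_apply, Algebra.smul_def]; ring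
        simp only [hF, this, map_smul, smul_eq_mul]
        ring))
    (fun b hb hb' => by
      rw [Complex.nonneg_iff]
      constructor
      · have t1 : Tendsto (fun m => -(h.ε m ^ 2 *
            (10240 * ‖B.ev2 S.ηU‖ * ‖B.ev2 b‖ / S.κ ^ 2))) 𝒰 (𝓝 0) := by
          simpa using ((lim2.mul_const _).neg.mono_left hle)
        refine le_of_tendsto_of_tendsto t1 ((Complex.continuous_re.tendsto _).comp (hlim b hb.1))
          (hle ?_)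
        filter_upwards [hrel, hpos] with m h1 h2
        have := curex_I_re_le G fun p => (h1 p).2.2.1 b hb (hb' p)
        simp only [Function.comp_apply, hF, Complex.div_ofReal_re, Complex.neg_re]
        rw [le_div_iff₀ h2]
        linarith
      · refine tendsto_nhds_unique tendsto_const_nhds
          (((Complex.continuous_im.tendsto _).comp (hlim b hb.1)).congr fun m => ?_)
        have := G.integ_im (B.re0_iff.1 ((hare m).wg_re hb)).2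
        simp only [Function.comp_apply, hF, Complex.div_ofReal_im, Complex.neg_im, this]
        simp)
    (fun p hp q hq => by
      obtain ⟨L, hL⟩ := curex_closed S hp hq
      refine tendsto_nhds_unique (hlim _ (G.dd_form hp hq)) (Tendsto.mono_left ?_ hle)
      have t1 : Tendsto (fun m => h.ε m * L) atTop (𝓝 0) := by simpa using h.lim.mul_const L
      refine squeeze_zero_norm' ?_ t1
      filter_upwards [ev1, ev2, hpos] with m h1 h2 h3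
      exact hnorm _ m _ h3 (hL (h.g m) _ (h.hyp m) h1 h2))
  refine ⟨C, ?_⟩
  rw [hC _ S.ηV_re.1]
  have t1 : Tendsto (fun m => (F S.ηV m).re) 𝒰 (𝓝 1) := by
    refine tendsto_const_nhds.congr' (hle ?_)
    filter_upwards [hpos] with m h2
    simp only [hF, Complex.div_ofReal_re, ← map_neg]
    exact (div_self h2.ne').symm
  rw [tendsto_nhds_unique ((Complex.continuous_re.tendsto _).comp (hlim _ S.ηV_re.1)) t1]
  exact one_pos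

end SW4
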