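import Pool.Agent.P.MP_0a0487_an.SW.Dirac
import Pool.Agent.P.MP_0a0487_an.SW.Spec

/-! Invariance of the index under bundle isomorphisms. -/

set_option autoImplicit false
set_option linter.unusedSectionVars false

noncomputable section

namespace SW4

open scoped ComplexOrder ContDiff
open Filter Topology

variable {P A : Type} [TopologicalSpace P] [CompactSpace P] [CommRing A] [StarRing A] [Algebra ℂ A]
  [StarModule ℂ A] {B : Base P A}

namespace Pre

section multi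

variable (G : Pre B) {ι κ κ' : Type} [Fintype ι] [Fintype κ] [Fintype κ'] [DecidableEq ι]
  {w : ι → κ → Wt} {w' : ι → κ' → Wt}

/-- Sections over a product of index sets as families of sections. -/
def icCur (w : ι → κ → Wt) : G.Sec (fun p : ι × κ => w p.1 p.2) ≃ₗ[ℝ] ∀ i, G.Sec (w i) where
  toFun s i := G.mk' (fun j => s.c (i, j)) fun j => s.mem (i, j)
  invFun t := G.mk' (fun p => (t p.1).c p.2) fun p => (t p.1).mem p.2
  map_add' _ _ := rfl
  map_smul' _ _ := rfl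
  left_inv _ := rfl
  right_inv _ := rfl

/-- The direct sum of a family of operators. -/
def icSum (L : ∀ i, G.Sec (w i) →ₗ[ℝ] G.Sec (w' i)) :
    G.Sec (fun p : ι × κ => w p.1 p.2) →ₗ[ℝ] G.Sec (fun p : ι × κ' => w' p.1 p.2) :=
  (G.icCur w').symm.toLinearMap ∘ₗ (LinearMap.pi fun i => L i ∘ₗ LinearMap.proj i) ∘ₗ
    (G.icCur w).toLinearMap

variable {G}

theorem icCur_c (s : G.Sec (fun p : ι × κ => w p.1 p.2)) (i : ι) (j : κ) :
    (G.icCur w s i).c j = s.c (i, j) := rfl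

theorem icSum_c (L : ∀ i, G.Sec (w i) →ₗ[ℝ] G.Sec (w' i)) (s) (i : ι) (j : κ') :
    (G.icSum L s).c (i, j) = (L i (G.icCur w s i)).c j := rfl

theorem icSum_cur (L : ∀ i, G.Sec (w i) →ₗ[ℝ] G.Sec (w' i)) (s) (i : ι) :
    G.icCur w' (G.icSum L s) i = L i (G.icCur w s i) := rfl

theorem icCur_norm (s : G.Sec (fun p : ι × κ => w p.1 p.2)) (i : ι) : ‖G.icCur w s i‖ ≤ ‖s‖ := by
  refine (sq_le_sq₀ (norm_nonneg _) (norm_nonneg _)).1 ?_
  rw [norm_sq_eq, norm_sq_eq, Fintype.sum_prod_type]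
  exact Finset.single_le_sum (f := fun i => ∑ j, G.nrm (s.c (i, j)) ^ 2)
    (fun i _ => by positivity) (Finset.mem_univ i)

theorem icSum_index (L : ∀ i, G.Sec (w i) →ₗ[ℝ] G.Sec (w' i))
    [∀ i, FiniteDimensional ℝ (LinearMap.ker (L i))]
    [∀ i, FiniteDimensional ℝ (G.Sec (w' i) ⧸ LinearMap.range (L i))] :
    (G.icSum L).index = ∑ i, (L i).index := by
  rw [← index_pi L]
  exact (index_conj (G.icSum L) _ (G.icCur w) (G.icCur w') fun s =>
    funext fun i => (icSum_cur L s i).symm).symm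

theorem icSum_zo {L : ∀ i, G.Sec (w i) →ₗ[ℝ] G.Sec (w' i)} (h : ∀ i, IsZO (L i)) :
    IsZO (G.icSum L) := by
  choose b b' hb hb' he using h
  refine ⟨fun p q => if p.1 = q.1 then b p.1 p.2 q.2 else 0,
    fun p q => if p.1 = q.1 then b' p.1 p.2 q.2 else 0, ?_, ?_, ?_⟩
  · rintro ⟨i, j⟩ ⟨k, l⟩
    by_cases e : i = k
    · subst e; simpa using hb i j l
    · simp [e]
  · rintro ⟨i, j⟩ ⟨k, l⟩
    by_cases e : i = k
    · subst e; simpa using hb' i j l
    · simp [e]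
  · rintro s ⟨i, j⟩
    rw [icSum_c, he, Fintype.sum_prod_type, Finset.sum_eq_single i]
    · simp [icCur_c]
    · intro k _ e
      simp [e.symm]
    · simp

theorem icSum_fo {L : ∀ i, G.Sec (w i) →ₗ[ℝ] G.Sec (w' i)} (h : ∀ i, IsFO (L i)) :
    IsFO (G.icSum L) := by
  choose b b' Z hb hb' hZ he using h
  refine ⟨fun α p q => if p.1 = q.1 then b p.1 α p.2 q.2 else 0,
    fun α p q => if p.1 = q.1 then b' p.1 α p.2 q.2 else 0, G.icSum Z, ?_, ?_, icSum_zo hZ, ?_⟩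
  · rintro α ⟨i, j⟩ ⟨k, l⟩
    by_cases e : i = k
    · subst e; simpa using hb i α j l
    · simp [e]
  · rintro α ⟨i, j⟩ ⟨k, l⟩
    by_cases e : i = k
    · subst e; simpa using hb' i α j l
    · simp [e]
  · rintro s ⟨i, j⟩
    rw [icSum_c, icSum_c, he, Fintype.sum_prod_type, Finset.sum_eq_single i]
    · simp [icCur_c]
    · intro k _ e
      simp [e.symm]
    · simp

theorem icSum_gar {L : ∀ i, G.Sec (w i) →ₗ[ℝ] G.Sec (w' i)}
    (h : ∀ i, ∃ C : ℝ, ∀ s, s.nS 1 ≤ C * (‖L i s‖ + ‖s‖)) :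
    ∃ C : ℝ, ∀ s, s.nS 1 ≤ C * (‖G.icSum L s‖ + ‖s‖) := by
  choose C hC using h
  refine ⟨∑ i, |C i|, fun s => ?_⟩
  rw [Sec.nS, Fintype.sum_prod_type, Finset.sum_mul]
  refine Finset.sum_le_sum fun i _ => (hC i (G.icCur w s i)).trans ?_
  exact mul_le_mul (le_abs_self _) (add_le_add (icCur_norm (G.icSum L s) i) (icCur_norm s i))
    (by positivity) (abs_nonneg _)

theorem icSum_ell {L : ∀ i, G.Sec (w i) →ₗ[ℝ] G.Sec (w' i)}
    {L' : ∀ i, G.Sec (w' i) →ₗ[ℝ] G.Sec (w i)} (h : ∀ i, Ell (L i) (L' i)) :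
    Ell (G.icSum L) (G.icSum L') where
  fo := icSum_fo fun i => (h i).fo
  fo' := icSum_fo fun i => (h i).fo'
  adj s t := by
    rw [inner_real, inner_real, Fintype.sum_prod_type, Fintype.sum_prod_type]
    exact Finset.sum_congr rfl fun i _ =>
      (inner_real _ _).symm.trans (((h i).adj (G.icCur w s i) (G.icCur w' t i)).trans
        (inner_real _ _))
  gar := icSum_gar fun i => (h i).gar
  gar' := icSum_gar fun i => (h i).gar'

end multi

section act

variable (G : Pre B) {ι ι' κ : Type} [Fintype ι] [Fintype ι'] [Fintype κ] [DecidableEq κ]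
  {w : ι × κ → Wt} {w' : ι' × κ → Wt}

/-- A matrix acting on the first index. -/
def icAct (U : Matrix ι' ι A) (hU : ∀ i k j, U i k ∈ B.W (w' (i, j) - w (k, j))) :
    G.Sec w →ₗ[ℝ] G.Sec w' :=
  G.mkL (fun s p => ∑ k, U p.1 k * s.c (k, p.2))
    (fun s p => Submodule.sum_mem _ fun k _ =>
      B.mul_mem' (hU p.1 k p.2) (s.mem _) (sub_add_cancel _ _))
    (fun s t p => by simp [mul_add, Finset.sum_add_distrib])
    (fun r s p => by simp [Finset.smul_sum, -Complex.coe_smul])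

theorem icAct_c (U : Matrix ι' ι A) (hU : ∀ i k j, U i k ∈ B.W (w' (i, j) - w (k, j))) (s i j) :
    (G.icAct U hU s).c (i, j) = ∑ k, U i k * s.c (k, j) := rfl

theorem icAct_zo (U : Matrix ι' ι A) (hU : ∀ i k j, U i k ∈ B.W (w' (i, j) - w (k, j))) :
    IsZO (G.icAct U hU) := by
  refine ⟨fun p q => if p.2 = q.2 then U p.1 q.1 else 0, 0, ?_, fun _ _ => zero_mem _, ?_⟩
  · rintro ⟨i, j⟩ ⟨k, l⟩
    by_cases e : j = l
    · subst e; simpa using hU i k j
    · simp [e]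
  · rintro s ⟨i, j⟩
    simp [icAct_c, Fintype.sum_prod_type]

theorem icAct_inv [DecidableEq ι'] (U : Matrix ι' ι A) (U' : Matrix ι ι' A)
    (hU : ∀ i k j, U i k ∈ B.W (w' (i, j) - w (k, j)))
    (hU' : ∀ i k j, U' i k ∈ B.W (w (i, j) - w' (k, j))) (h : U * U' = 1) :
    G.icAct U hU ∘ₗ G.icAct U' hU' = LinearMap.id := by
  refine LinearMap.ext fun s => Sec.ext ?_
  rintro ⟨i, j⟩
  simp only [LinearMap.comp_apply, icAct_c, Finset.mul_sum, ← mul_assoc, LinearMap.id_apply]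
  rw [Finset.sum_comm]
  simp only [← Finset.sum_mul, ← Matrix.mul_apply, h]
  simp [Matrix.one_apply]

end act

section cj

variable (G : Pre B) {a a' : Fin 2 → Wt}

/-- Charge conjugation on pairs. -/
def icCj (h0 : -a 1 = a' 0) (h1 : -a 0 = a' 1) : G.Sec a →ₗ[ℝ] G.Sec a' :=
  G.mkL (fun s => ![star (s.c 1), -star (s.c 0)])
    (fun s => mem2 (B.star_mem' (s.mem 1) h0) (neg_mem (B.star_mem' (s.mem 0) h1)))
    (fun s t i => by fin_cases i <;> simp [add_comm])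
    (fun r s i => by fin_cases i <;> simp [-Complex.coe_smul])

theorem icCj_c (h0 : -a 1 = a' 0) (h1 : -a 0 = a' 1) (s : G.Sec a) :
    (G.icCj h0 h1 s).c = ![star (s.c 1), -star (s.c 0)] := rfl

theorem icCj_zo (h0 : -a 1 = a' 0) (h1 : -a 0 = a' 1) : IsZO (G.icCj h0 h1) := by
  refine ⟨0, ![![0, 1], ![-1, 0]], fun _ _ => zero_mem _, fun i j => ?_, fun s i => ?_⟩
  · fin_cases i <;> fin_cases j <;> simp [← h0, ← h1, B.one_mem]
  · fin_cases i <;> simp [icCj_c]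

/-- Charge conjugation as an isomorphism. -/
def icCjE (h0 : -a 1 = a' 0) (h1 : -a 0 = a' 1) : G.Sec a ≃ₗ[ℝ] G.Sec a' :=
  LinearEquiv.ofLinearMap (G.icCj h0 h1) (-G.icCj (by rw [← h1, neg_neg]) (by rw [← h0, neg_neg]))
    (LinearMap.ext fun s => Sec.ext fun i => by fin_cases i <;> simp [icCj_c])
    (LinearMap.ext fun s => Sec.ext fun i => by fin_cases i <;> simp [icCj_c])

theorem icCjE_c (h0 : -a 1 = a' 0) (h1 : -a 0 = a' 1) (s : G.Sec a) :
    (G.icCjE h0 h1 s).c = ![star (s.c 1), -star (s.c 0)] := rfl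

end cj

theorem ic_dirac_c (G : Pre B) (w : Wt) (s : G.Sec (wp w)) : (G.dirac w s).c =
    ![G.D 1 (s.c 0) - G.Dt 2 (s.c 1), G.D 3 (s.c 0) + G.Dt 0 (s.c 1)] := rfl

end Pre

namespace Geo

variable (G : Geo B)

theorem ic_transfer {ι ι' κ κ' : Type} [Fintype ι] [Fintype ι'] [Fintype κ] [Fintype κ']
    {w : ι → Wt} {w' : ι' → Wt} {u : κ → Wt} {u' : κ' → Wt} {L : G.Sec w →ₗ[ℝ] G.Sec w'}
    {L' : G.Sec w' →ₗ[ℝ] G.Sec w} (h : Pre.Ell L L') (S : G.Sec u →ₗ[ℝ] G.Sec u')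
    (e : G.Sec u ≃ₗ[ℝ] G.Sec w) (e' : G.Sec u' ≃ₗ[ℝ] G.Sec w')
    (h1 : Pre.IsZO e.symm.toLinearMap)
    (h2 : Pre.IsZO (e'.toLinearMap ∘ₗ S - L ∘ₗ e.toLinearMap)) : S.index = L.index := by
  rw [← G.index_add_zo h (h2.comp h1)]
  exact (index_conj S _ e e' fun s => by simp).symm

theorem ic_index {ι : Type} [Fintype ι] [DecidableEq ι] (v : ι → Wt) :
    (G.icSum fun i => G.dirac (v i)).index = ∑ i, G.ind (v i) := by
  have h1 := fun i => (G.pair (G.dirac_ell (v i))).ker_fd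
  have h2 := fun i => (G.pair (G.dirac_ell (v i))).coker_fd
  exact Pre.icSum_index _

theorem ind_conj {ι ι' : Type} [Fintype ι] [Fintype ι'] [DecidableEq ι] [DecidableEq ι']
    (v : ι → Wt) (v' : ι' → Wt) (U : Matrix ι' ι A) (U' : Matrix ι ι' A)
    (hU : ∀ i j, U i j ∈ B.W (v' i - v j)) (hU' : ∀ i j, U' i j ∈ B.W (v i - v' j))
    (h : U * U' = 1) (h' : U' * U = 1) : ∑ i, G.ind (v i) = ∑ i, G.ind (v' i) := by
  have p1 : ∀ x y j, wp x j - wp y j = x - y := fun x y j => by fin_cases j <;> simp [wp]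
  have p2 : ∀ x y j, wm x j - wm y j = x - y := fun x y j => by fin_cases j <;> simp [wm]
  rw [← G.ic_index, ← G.ic_index]
  refine G.ic_transfer (Pre.icSum_ell fun i => G.dirac_ell (v' i)) _
    (LinearEquiv.ofLinearMap (G.icAct U fun i k j => (p1 _ _ j).symm ▸ hU i k)
      (G.icAct U' fun i k j => (p1 _ _ j).symm ▸ hU' i k) (G.icAct_inv _ _ _ _ h)
      (G.icAct_inv _ _ _ _ h'))
    (LinearEquiv.ofLinearMap (G.icAct U fun i k j => (p2 _ _ j).symm ▸ hU i k)
      (G.icAct U' fun i k j => (p2 _ _ j).symm ▸ hU' i k) (G.icAct_inv _ _ _ _ h)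
      (G.icAct_inv _ _ _ _ h')) (G.icAct_zo U' fun i k j => (p1 _ _ j).symm ▸ hU' i k) ?_
  refine ⟨fun p q => ![![-G.D 1 (U p.1 q.1), G.D 2 (U p.1 q.1)],
    ![-G.D 3 (U p.1 q.1), -G.D 0 (U p.1 q.1)]] p.2 q.2, 0, ?_, fun _ _ => zero_mem _, ?_⟩
  · rintro ⟨i, j⟩ ⟨k, l⟩
    fin_cases j <;> fin_cases l
    · exact neg_mem (G.D_mem' 1 (hU i k) (by ext <;> simp [wp, wm, wt]; ring))
    · exact G.D_mem' 2 (hU i k) (by ext <;> simp [wp, wm, wt]; ring)
    · exact neg_mem (G.D_mem' 3 (hU i k) (by ext <;> simp [wp, wm, wt]; ring))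
    · exact neg_mem (G.D_mem' 0 (hU i k) (by ext <;> simp [wp, wm, wt]; ring))
  · rintro s ⟨i, j⟩
    fin_cases j <;>
      simp [Pre.icAct_c, Pre.icSum_c, Pre.icCur_c, Pre.ic_dirac_c, Pre.Dt, G.D_mul,
        Fintype.sum_prod_type, Finset.mul_sum, ← Finset.sum_add_distrib,
        ← Finset.sum_sub_distrib] <;>
      exact Finset.sum_congr rfl fun k _ => by ring

theorem ind_unit {v : Wt} {u : A} (hu : u ∈ B.W v) (h : ∀ p, B.ev u p ≠ 0) (w : Wt) :
    G.ind (w + v) = G.ind w := by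
  obtain ⟨t, ht, e⟩ := G.exists_inv hu h
  have := G.ind_conj (fun _ : Unit => w) (fun _ : Unit => w + v) (.of fun _ _ => u) (.of fun _ _ => t)
    (fun _ _ => by simpa using hu) (fun _ _ => by simpa using ht)
    (by ext; simp [Matrix.mul_apply, e]) (by ext; simp [Matrix.mul_apply, mul_comm t, e])
  simpa using this.symm

/-- The Koszul complex of three sections without common zero. -/
theorem ind_koszul (w : Wt) :
    G.ind w + 3 * G.ind (w + (0, 2)) = 3 * G.ind (w + (0, 1)) + G.ind (w + (0, 3)) := by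
  obtain ⟨s0, hs0, hne⟩ := G.gen
  obtain ⟨s, hs, e⟩ := G.exists_normalize hs0 hne
  rw [Fin.sum_univ_three] at e
  have hs' : ∀ i, star (s i) ∈ B.W (0, -1) := fun i => B.star_mem (hs i)
  have a1 : w + (0, 1) - w = (0, 1) := by simp
  have a2 : w + (0, 1) - (w + (0, 2)) = (0, -1) := by simp
  have a3 : w + (0, 3) - (w + (0, 2)) = (0, 1) := by simp
  have a4 : w - (w + (0, 1)) = (0, -1) := by simp
  have a5 : w + (0, 2) - (w + (0, 1)) = (0, 1) := by simp
  have a6 : w + (0, 2) - (w + (0, 3)) = (0, -1) := by simp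
  have hm : !![s 0, 0, star (s 2), -star (s 1); s 1, -star (s 2), 0, star (s 0);
      s 2, star (s 1), -star (s 0), 0; 0, s 0, s 1, s 2] *
      !![star (s 0), star (s 1), star (s 2), 0; 0, -s 2, s 1, star (s 0);
      s 2, 0, -s 0, star (s 1); -s 1, s 0, 0, star (s 2)] = 1 := by
    ext i j
    fin_cases i <;> fin_cases j <;> simp [Matrix.mul_apply, Fin.sum_univ_four] <;>
      first | linear_combination e | ring
  have := G.ind_conj ![w, w + (0, 2), w + (0, 2), w + (0, 2)]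
    ![w + (0, 1), w + (0, 1), w + (0, 1), w + (0, 3)] _ _
    (fun i j => by fin_cases i <;> fin_cases j <;> simp [a1, a2, a3, hs, hs'])
    (fun i j => by fin_cases i <;> fin_cases j <;> simp [a4, a5, a6, hs, hs'])
    hm (mul_eq_one_comm.1 hm)
  simp only [Fin.sum_univ_four, Matrix.cons_val] at this
  linarith

/-- Charge conjugation. -/
theorem ind_serre (w : Wt) : G.ind ((1, 1) - w) = G.ind w := by
  refine (G.ic_transfer (G.dirac_ell ((1, 1) - w)) (G.dirac w)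
    (G.icCjE (by simp [wp]) (by simp [wp])) (G.icCjE (by ext <;> simp [wm]) (by ext <;> simp [wm]))
    (G.icCj_zo _ _).neg ?_).symm
  refine ⟨0, ![![-G.τ 2, star (G.τ 0)], ![G.τ 0, star (G.τ 2)]], fun _ _ => zero_mem _,
    fun i j => ?_, fun s i => ?_⟩
  · have h0 := (G.τ_spec 0).1
    have h2 := (G.τ_spec 2).1
    have hc : ∀ {u v : Wt} {s : A}, s ∈ B.W u → u = v → s ∈ B.W v := fun h e => e ▸ h
    fin_cases i <;> fin_cases j
    · exact neg_mem (hc h2 (by ext <;> simp [wp, wm, wt]))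
    · exact B.star_mem' h0 (by ext <;> simp [wp, wm, wt]; ring)
    · exact hc h0 (by ext <;> simp [wp, wm, wt])
    · exact B.star_mem' h2 (by ext <;> simp [wp, wm, wt]; ring)
  · simp only [LinearMap.sub_apply, LinearMap.comp_apply, LinearEquiv.coe_coe, Pre.Sec.c_sub,
      Pre.icCjE_c, Pre.ic_dirac_c]
    fin_cases i <;> simp [Pre.Dt, G.D_star, bar] <;> ring

theorem Q_index : G.Q.index = -G.ind 0 :=
  (G.index_add_zo (G.dirac_ell 0).symm G.Zq_zo).trans (G.pair (G.dirac_ell 0)).index_adj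

theorem ind_pos [Nonempty P] (h : G.AK) : 0 < G.ind 0 := by
  obtain ⟨Q', hQ⟩ := G.exists_Q_adj
  have e := (G.pair hQ).index_eq
  have := (G.pair hQ).symm.ker_fd
  rw [G.Q_index, LinearMap.ker_eq_bot'.2 fun χ => G.Q_inj h, finrank_bot] at e
  have h1 : Q' G.e1 = 0 := by
    rw [← inner_self_eq_zero (𝕜 := ℝ), ← hQ.adj, real_inner_comm]
    exact congrArg Complex.re (G.inner_e1_Q _)
  have h2 : G.e1 ≠ 0 := fun e0 => by
    have : (1 : A) = 0 := congrArg (fun s => s.c 0) e0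
    simpa using congrArg (fun s => B.ev s (Classical.arbitrary P)) this
  have : 0 < Module.finrank ℝ (LinearMap.ker Q') :=
    Module.finrank_pos_iff_exists_ne_zero.2 ⟨⟨_, h1⟩, fun e0 => h2 (congrArg Subtype.val e0)⟩
  omega

end Geo

end SW4
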