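import Pool.Agent.P.MP_0a0487_an.SW.Weitz
import Pool.Agent.P.MP_0a0487_an.SW.IndConj

/-! If every self-dual form orthogonal to the symplectic form is exact, the index is bounded. -/

set_option autoImplicit false
set_option linter.unusedSectionVars false

noncomputable section

namespace SW4

open scoped ComplexOrder ContDiff
open Filter Topology

variable {P A : Type} [TopologicalSpace P] [CompactSpace P] [CommRing A] [StarRing A] [Algebra ℂ A]
  [StarModule ℂ A] {B : Base P A}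

theorem dim_fun {V : Type} [NormedAddCommGroup V] [InnerProductSpace ℝ V] {n : ℕ}
    {b : Fin n → V} (hb : Orthonormal ℝ b) (φ : V →ₗ[ℝ] ℝ) {K : ℝ} (hK : 0 ≤ K)
    (h : ∀ s, φ s ^ 2 ≤ K * ‖s‖ ^ 2) : ∑ j, φ (b j) ^ 2 ≤ K := by
  have h1 : ‖∑ j, φ (b j) • b j‖ ^ 2 = ∑ j, φ (b j) ^ 2 := by
    rw [← real_inner_self_eq_norm_sq, hb.inner_sum]
    refine Finset.sum_congr rfl fun j _ => ?_
    simp [sq]
  have h2 : φ (∑ j, φ (b j) • b j) = ∑ j, φ (b j) ^ 2 := by
    rw [map_sum]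
    refine Finset.sum_congr rfl fun j _ => ?_
    rw [map_smul, smul_eq_mul, sq]
  have h3 := h (∑ j, φ (b j) • b j)
  rw [h1, h2] at h3
  have h4 : 0 ≤ ∑ j, φ (b j) ^ 2 := Finset.sum_nonneg fun j _ => sq_nonneg _
  generalize ∑ j, φ (b j) ^ 2 = σ at h3 h4
  by_contra hc
  have h5 : K < σ := not_le.1 hc
  nlinarith

theorem dim_ev_re (s : A) (p : P) : (B.ev (star s * s) p).re = ‖B.ev s p‖ ^ 2 := by
  rw [map_mul, ContinuousMap.mul_apply, B.ev_star, Complex.sq_norm, Complex.normSq_apply]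
  simp

/-- evaluation of a component at a point, as a real linear map -/
def dimEv (G : Pre B) {w : Fin 2 → Wt} (S : Submodule ℝ (G.Sec w)) (i : Fin 2) (p : P) :
    S →ₗ[ℝ] ℂ where
  toFun s := B.ev ((s : G.Sec w).c i) p
  map_add' s t := by
    rw [Submodule.coe_add, Pre.Sec.c_add, map_add, ContinuousMap.add_apply]
  map_smul' r s := by
    rw [Submodule.coe_smul, Pre.Sec.c_rsmul, map_smul, ContinuousMap.smul_apply, RingHom.id_apply,
      smul_eq_mul, Complex.real_smul]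

/-- A pointwise bound on a finite-dimensional space of sections bounds its dimension. -/
theorem Pre.finrank_le (G : Pre B) {w : Fin 2 → Wt} (S : Submodule ℝ (G.Sec w))
    [FiniteDimensional ℝ S] {K : ℝ} (hK : 0 ≤ K)
    (h : ∀ s ∈ S, ∀ i p, ‖B.ev (s.c i) p‖ ^ 2 ≤ K * ‖s‖ ^ 2) :
    (Module.finrank ℝ S : ℝ) ≤ 4 * K * (G.I 1).re := by
  have hb := (stdOrthonormalBasis ℝ S).orthonormal
  generalize (stdOrthonormalBasis ℝ S : Fin (Module.finrank ℝ S) → S) = b at hb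
  have hpt : ∀ i p, ∑ j, ‖B.ev ((b j : G.Sec w).c i) p‖ ^ 2 ≤ 2 * K := by
    intro i p
    have h1 := dim_fun hb (Complex.reLm ∘ₗ dimEv G S i p) hK (fun s => by
      have := h s s.2 i p
      rw [Complex.sq_norm, Complex.normSq_apply] at this
      show (B.ev ((s : G.Sec w).c i) p).re ^ 2 ≤ K * ‖(s : G.Sec w)‖ ^ 2
      nlinarith [mul_self_nonneg (B.ev ((s : G.Sec w).c i) p).im])
    have h2 := dim_fun hb (Complex.imLm ∘ₗ dimEv G S i p) hK (fun s => by
      have := h s s.2 i p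
      rw [Complex.sq_norm, Complex.normSq_apply] at this
      show (B.ev ((s : G.Sec w).c i) p).im ^ 2 ≤ K * ‖(s : G.Sec w)‖ ^ 2
      nlinarith [mul_self_nonneg (B.ev ((s : G.Sec w).c i) p).re])
    have h3 : ∑ j, ‖B.ev ((b j : G.Sec w).c i) p‖ ^ 2 =
        ∑ j, (Complex.reLm ∘ₗ dimEv G S i p) (b j) ^ 2 +
          ∑ j, (Complex.imLm ∘ₗ dimEv G S i p) (b j) ^ 2 := by
      rw [← Finset.sum_add_distrib]
      refine Finset.sum_congr rfl fun j _ => ?_
      rw [Complex.sq_norm, Complex.normSq_apply, sq, sq]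
      rfl
    linarith
  have h1 : (Module.finrank ℝ S : ℝ) =
      (G.I (∑ i, ∑ j, star ((b j : G.Sec w).c i) * (b j : G.Sec w).c i)).re := by
    have e : ∀ j, (1 : ℝ) = ∑ i, (G.I (star ((b j : G.Sec w).c i) * (b j : G.Sec w).c i)).re := by
      intro j
      have h2 : ‖(b j : G.Sec w)‖ = 1 := hb.norm_eq_one j
      have h3 := Pre.norm_sq_eq (b j : G.Sec w)
      rw [h2, one_pow] at h3
      simpa only [G.nrm_sq] using h3
    rw [Finset.sum_comm]
    simp only [map_sum, Complex.re_sum, ← e]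
    simp
  have h2 : (G.I (((4 * K : ℝ) : ℂ) • (1 : A))).re = 4 * K * (G.I 1).re := by
    rw [map_smul, smul_eq_mul, Complex.re_ofReal_mul]
  rw [h1, ← h2]
  apply G.I_re_mono
  intro p
  have h3 : (B.ev (∑ i, ∑ j, star ((b j : G.Sec w).c i) * (b j : G.Sec w).c i) p).re =
      ∑ i, ∑ j, ‖B.ev ((b j : G.Sec w).c i) p‖ ^ 2 := by
    simp only [map_sum, ContinuousMap.sum_apply, Complex.re_sum, dim_ev_re]
  have h4 : (B.ev (((4 * K : ℝ) : ℂ) • (1 : A)) p).re = 4 * K := by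
    rw [map_smul, map_one, ContinuousMap.smul_apply, ContinuousMap.one_apply, smul_eq_mul, mul_one,
      Complex.ofReal_re]
  rw [h3, h4, Fin.sum_univ_two]
  linarith [hpt 0 p, hpt 1 p]

theorem dim_flat (G : Geo B) (h : G.AK) (hF : ∀ j, G.I (lam (G.F j)) = 0)
    (hQ : ∀ ξ : G.Sec (wp 0), inner ℂ G.e1 ξ = 0 → ∃ χ, G.Q χ = ξ) (w : Wt) :
    ∃ χ : G.Sec (wm 0), lam (G.curv w χ.form) = 0 ∧ G.curv w χ.form 1 3 = 0 := by
  have hm0 : lam (G.Fw w) ∈ B.W 0 := by
    have h1 := (G.Fw_form w 0 1).1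
    have h2 := (G.Fw_form w 2 3).1
    have e1 : wt 0 + wt 1 = 0 := by decide
    have e2 : wt 2 + wt 3 = 0 := by decide
    rw [e1] at h1
    rw [e2] at h2
    exact add_mem h1 h2
  have hm1 : G.Fw w 1 3 ∈ B.W (wp 0 1) := by
    have h1 := (G.Fw_form w 1 3).1
    have e1 : wt 1 + wt 3 = wp 0 1 := by decide
    rwa [e1] at h1
  have hst : star (lam (G.Fw w)) = lam (G.Fw w) := by
    have h1 := (G.Fw_form w 0 1).2
    have h2 := (G.Fw_form w 2 3).2
    have e1 : star (G.Fw w 0 1) = -G.Fw w 1 0 := G.Fw_star w 0 1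
    have e2 : star (G.Fw w 2 3) = -G.Fw w 3 2 := G.Fw_star w 2 3
    rw [lam, star_add, e1, e2, h1, h2, neg_neg, neg_neg]
  have hI : G.I (lam (G.Fw w)) = 0 := by
    have e : lam (G.Fw w) = (w.1 : ℂ) • lam (G.F 0) + (w.2 : ℂ) • lam (G.F 1) := by
      simp only [lam, Calc.Fw, smul_add]
      abel
    rw [e, map_add, map_smul, map_smul, hF, hF, smul_zero, smul_zero, add_zero]
  obtain ⟨χ, hχ⟩ := hQ (G.mk' ![(-(Complex.I / 2)) • lam (G.Fw w), (-Complex.I) • G.Fw w 1 3]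
    (mem2 (Submodule.smul_mem _ _ hm0) (Submodule.smul_mem _ _ hm1))) (by
      rw [Pre.inner_complex, Fin.sum_univ_two]
      simp [Pre.e1, hI])
  have q0 : (G.Q χ).c 0 = (-(Complex.I / 2)) • lam (G.Fw w) := by rw [hχ]; rfl
  have q1 : (G.Q χ).c 1 = (-Complex.I) • G.Fw w 1 3 := by rw [hχ]; rfl
  have r0 := Pre.AK.Q_zero h χ
  have r1 := G.Q_one χ
  refine ⟨χ, ?_, ?_⟩
  · have e : lam (G.curv w χ.form) = lam (G.Fw w) + Complex.I • lam (G.d1 χ.form) := by
      simp only [lam, Pre.curv, smul_add]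
      abel
    have e2 : lam (G.d1 χ.form) = Complex.I • lam (G.Fw w) := by
      rw [q0, star_smul, hst, ← sub_smul] at r0
      have e3 : -(Complex.I / 2) - star (-(Complex.I / 2)) = -Complex.I := by
        simp
        ring
      rw [e3, neg_smul, neg_inj] at r0
      exact r0.symm
    rw [e, e2, smul_smul, Complex.I_mul_I, neg_smul, one_smul, add_neg_cancel]
  · rw [q1, neg_smul, neg_inj] at r1
    rw [Pre.curv, ← r1, smul_smul, Complex.I_mul_I, neg_smul, one_smul, add_neg_cancel]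

theorem Geo.ind_bdd (G : Geo B) (h : G.AK) (hF : ∀ j, G.I (lam (G.F j)) = 0)
    (hQ : ∀ ξ : G.Sec (wp 0), inner ℂ G.e1 ξ = 0 → ∃ χ, G.Q χ = ξ) :
    ∃ K : ℤ, ∀ w, G.ind w ≤ K := by
  obtain ⟨C, -, hC⟩ := G.weitz
  obtain ⟨K, hK, hM⟩ := G.moser C
  refine ⟨⌈4 * K * (G.I 1).re⌉, fun w => ?_⟩
  obtain ⟨χ, h1, h2⟩ := dim_flat G h hF hQ w
  obtain ⟨Z', -, hE⟩ := (G.dirac_ell w).add_zo (G.rho_zo w χ)
  have hP := G.pair hE
  have hfd := hP.ker_fd
  have hi : G.ind w = (G.dirac w + G.rho w χ).index :=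
    (G.index_add_zo (G.dirac_ell w) (G.rho_zo w χ)).symm
  have hle := Pre.finrank_le G.toPre (LinearMap.ker (G.dirac w + G.rho w χ)) hK (by
    intro s hs i p
    have hD := (G.dirEq_iff w χ s).1 hs
    have hW := hC w χ.form (s.c 0) (s.c 1) χ.form_re (s.mem 0) (s.mem 1) hD
    have hpt : ∀ q, (B.ev (star (s.c 0) * s.c 0 + star (s.c 1) * s.c 1) q).re =
        ‖B.ev (s.c 0) q‖ ^ 2 + ‖B.ev (s.c 1) q‖ ^ 2 := by
      intro q
      rw [map_add, ContinuousMap.add_apply, Complex.add_re, dim_ev_re, dim_ev_re]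
    have hre : B.Re0 (star (s.c 0) * s.c 0 + star (s.c 1) * s.c 1) := by
      have a0 := B.re0_star_mul (s.mem 0)
      have a1 := B.re0_star_mul (s.mem 1)
      exact ⟨add_mem a0.1 a1.1, by rw [star_add, a0.2, a1.2]⟩
    have hu := hM _ hre (fun q => by rw [hpt]; positivity) (fun q => by
      have := hW q
      rw [h1, h2] at this
      simpa using this) p
    have hn : (G.I (star (s.c 0) * s.c 0 + star (s.c 1) * s.c 1)).re = ‖s‖ ^ 2 := by
      rw [Pre.norm_sq_eq, Fin.sum_univ_two, G.nrm_sq, G.nrm_sq, map_add, Complex.add_re]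
    rw [hn, hpt] at hu
    fin_cases i
    · show ‖B.ev (s.c 0) p‖ ^ 2 ≤ _
      linarith [sq_nonneg ‖B.ev (s.c 1) p‖]
    · show ‖B.ev (s.c 1) p‖ ^ 2 ≤ _
      linarith [sq_nonneg ‖B.ev (s.c 0) p‖])
  rw [hi, hP.index_eq]
  have h3 : ((Module.finrank ℝ (LinearMap.ker (G.dirac w + G.rho w χ)) : ℤ) : ℝ)
      ≤ (⌈4 * K * (G.I 1).re⌉ : ℤ) := by
    rw [Int.cast_natCast]
    exact hle.trans (Int.le_ceil _)
  have h4 := Int.cast_le.1 h3
  omega

end SW4
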