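import Pool.Agent.P.MP_0a0487_an.SW.Defs

/-! Smooth maps, hyperbolic splittings, positive currents and the Thom form of the diagonal. -/

set_option autoImplicit false
set_option linter.unusedSectionVars false

noncomputable section

namespace SW4

open scoped ComplexOrder ContDiff
open Filter Topology

variable {P A : Type} [TopologicalSpace P] [CompactSpace P] [CommRing A] [StarRing A] [Algebra ℂ A]
  [StarModule ℂ A] {B : Base P A}

open Matrix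

/-- Complex coordinates of a real tangent vector: the vector `v` is `∑ α, cx v α • D α`. -/
def cx (v : Fin 4 → ℝ) : Fin 4 → ℂ :=
  ![(v 0 + v 1 * Complex.I) / 2, (v 0 - v 1 * Complex.I) / 2,
    (v 2 + v 3 * Complex.I) / 2, (v 2 - v 3 * Complex.I) / 2]

/-- The value of a 2-form on two real tangent vectors. -/
def Base.b2 (B : Base P A) (b : Fin 4 → Fin 4 → A) (p : P) (v v' : Fin 4 → ℝ) : ℂ :=
  ∑ α, ∑ β, cx v α * cx v' β * B.ev (b α β) p

/-- A 2-form as a family of continuous functions. -/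
def Base.ev2 (B : Base P A) (b : Fin 4 → Fin 4 → A) : Fin 4 → Fin 4 → C(P, ℂ) :=
  fun α β => B.ev (b α β)

namespace Calc

variable (G : Calc B)

/-- The derivative of `s` at `p` along the real tangent vector `v`. -/
def dv (s : A) (p : P) (v : Fin 4 → ℝ) : ℂ := ∑ α, cx v α * B.ev (G.D α s) p

/-- The embedding of the base manifold in Euclidean space. -/
def E (p : P) : Fin G.N → ℝ := fun k => (B.ev (G.e k) p).re

/-- The derivative of the embedding. -/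
def dE (p : P) (v : Fin 4 → ℝ) : Fin G.N → ℝ := fun k => (G.dv (G.e k) p v).re

/-- A left inverse of the derivative of the embedding. -/
def co (p : P) (z : Fin G.N → ℝ) : Fin 4 → ℝ :=
  ![2 * (∑ k, B.ev (G.θ 0 k) p * z k).re, 2 * (∑ k, B.ev (G.θ 0 k) p * z k).im,
    2 * (∑ k, B.ev (G.θ 2 k) p * z k).re, 2 * (∑ k, B.ev (G.θ 2 k) p * z k).im]

/-- The bivector in Euclidean space spanned by a pair of tangent vectors. -/
def biv (V : P → Fin 2 → Fin 4 → ℝ) (p : P) (k l : Fin G.N) : ℝ :=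
  G.dE p (V p 0) k * G.dE p (V p 1) l - G.dE p (V p 1) k * G.dE p (V p 0) l

/-- Uniform continuity with respect to the distance of the base manifold. -/
def UC (f : P → ℝ) : Prop :=
  ∀ ε > 0, ∃ δ > 0, ∀ p q, ‖G.E q - G.E p‖ ≤ δ → |f q - f p| ≤ ε

/-- Uniform first-order Taylor expansion of functions. -/
def Tay : Prop := ∀ s ∈ B.W 0, ∀ ε > 0, ∃ δ > 0, ∀ p q, ‖G.E q - G.E p‖ ≤ δ →
  ‖B.ev s q - B.ev s p - G.dv s p (G.co p (G.E q - G.E p))‖ ≤ ε * ‖G.E q - G.E p‖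

end Calc

/-- The composition `φ ∘ u`. -/
def Base.app (B : Base P A) (φ : ℝ → ℝ) (u : A) : A :=
  Classical.epsilon fun v => v ∈ B.W 0 ∧ ∀ p, B.ev v p = (φ (B.ev u p).re : ℝ)

/-- An orientation preserving diffeomorphism of the base manifold. -/
structure Map (G : Pre B) where
  pt : P → P
  Φ : A → A
  J : P → Matrix (Fin 4) (Fin 4) ℝ
  mem : ∀ s ∈ B.W 0, Φ s ∈ B.W 0
  surj : ∀ s ∈ B.W 0, ∃ t ∈ B.W 0, Φ t = s
  ev_eq : ∀ s ∈ B.W 0, ∀ p, B.ev (Φ s) p = B.ev s (pt p)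
  chain : ∀ s ∈ B.W 0, ∀ p v, G.dv (Φ s) p v = G.dv s (pt p) (J p *ᵥ v)
  cov : ∀ s ∈ B.W 0, ∀ p ∈ B.W 0, ∀ q ∈ B.W 0, ∀ r ∈ B.W 0, ∀ t ∈ B.W 0,
    G.I (Φ s * wg (G.dd (Φ p) (Φ q)) (G.dd (Φ r) (Φ t))) = G.I (s * wg (G.dd p q) (G.dd r t))

namespace Map

variable {G : Pre B} (f : Map G)

/-- The pull-back of a 1-form. -/
def pull1 (a : Fin 4 → A) : Fin 4 → A :=
  fun α => ∑ k, f.Φ (∑ γ, a γ * G.θ γ k) * G.D α (f.Φ (G.e k))

/-- The pull-back of a 2-form. -/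
def pull2 (b : Fin 4 → Fin 4 → A) : Fin 4 → Fin 4 → A := fun α β =>
  ∑ k, ∑ l, f.Φ (∑ γ, ∑ δ, b γ δ * G.θ γ k * G.θ δ l) *
    (G.D α (f.Φ (G.e k)) * G.D β (f.Φ (G.e l)))

/-- `f` preserves the oriented planes spanned by `U` and by `V`, expands the first one and contracts
the second one by the factor `ε`. -/
def HypAt (U V : P → Fin 2 → Fin 4 → ℝ) (ε : ℝ) : Prop :=
  ∀ p, ∃ M M' : Matrix (Fin 2) (Fin 2) ℝ,
    (∀ i, f.J p *ᵥ U p i = ∑ j, M i j • U (f.pt p) j) ∧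
    (∀ i, f.J p *ᵥ V p i = ∑ j, M' i j • V (f.pt p) j) ∧
    0 < M.det ∧ 0 < M'.det ∧ (∀ i j, |M i j| ≤ ε * M.det) ∧ ∀ i j, |M' i j| ≤ ε

/-- Chain transitivity. -/
def ChainTr : Prop := ∀ ε > 0, ∀ p q,
  Relation.ReflTransGen (fun x y => ‖G.E (f.pt x) - G.E y‖ ≤ ε) p q

/-- The diagonal blocks of the derivative preserve the orientation. -/
def Blk : Prop := ∀ p, 0 < f.J p 0 0 * f.J p 1 1 - f.J p 0 1 * f.J p 1 0 ∧
  0 < f.J p 2 2 * f.J p 3 3 - f.J p 2 3 * f.J p 3 2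

end Map

/-- The iterates of a chain transitive map expanding `U` and contracting `V`. -/
structure Iter (G : Pre B) (U V : P → Fin 2 → Fin 4 → ℝ) where
  g : ℕ → Map G
  comp : ∀ m n, ∀ s ∈ B.W 0, (g (m + n)).Φ s = (g m).Φ ((g n).Φ s)
  ε : ℕ → ℝ
  lim : Tendsto ε atTop (𝓝 0)
  hyp : ∀ m, (g m).HypAt U V (ε m)
  chain : ∀ m, 1 ≤ m → (g m).ChainTr

/-- A continuous splitting into the oriented planes spanned by `U` and by `V`. -/
structure Spl (G : Pre B) (U V : P → Fin 2 → Fin 4 → ℝ) where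
  κ : ℝ
  κ_pos : 0 < κ
  bdU : ∀ p i, ‖U p i‖ ≤ 1
  bdV : ∀ p i, ‖V p i‖ ≤ 1
  det_pos : ∀ p, κ ≤ (Matrix.of ![U p 0, U p 1, V p 0, V p 1]).det
  ucU : ∀ k l, G.UC fun p => G.biv U p k l
  ucV : ∀ k l, G.UC fun p => G.biv V p k l
  ηU : Fin 4 → Fin 4 → A
  ηV : Fin 4 → Fin 4 → A
  ηU_re : B.Re2 ηU
  ηV_re : B.Re2 ηV
  ηU_pos : ∀ p, κ ≤ (B.b2 ηU p (U p 0) (U p 1)).re
  ηV_pos : ∀ p, κ ≤ (B.b2 ηV p (V p 0) (V p 1)).re
  tay : G.Tay

/-- A closed positive current tangent to the planes spanned by `V`. -/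
structure Cur (G : Pre B) (V : P → Fin 2 → Fin 4 → ℝ) where
  l : (Fin 4 → Fin 4 → C(P, ℂ)) →L[ℂ] ℂ
  pos : ∀ b, B.Re2 b → (∀ p, 0 ≤ (B.b2 b p (V p 0) (V p 1)).re) → 0 ≤ l (B.ev2 b)
  closed : ∀ p ∈ B.W 0, ∀ q ∈ B.W 0, l (B.ev2 (G.dd p q)) = 0

/-- The support of a current; `η` is a form positive on the planes. -/
def Cur.supp {G : Pre B} {V : P → Fin 2 → Fin 4 → ℝ} (C : Cur G V) (η : Fin 4 → Fin 4 → A) :
    Set P :=
  {x | ∀ s, B.Re0 s → (∀ p, 0 ≤ (B.ev s p).re) → 0 < (B.ev s x).re →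
    0 < (C.l (B.ev2 fun α β => s * η α β)).re}

/-- The planes are graphs of small slope over the planes of the frame. -/
structure Graph (U V : P → Fin 2 → Fin 4 → ℝ) : Prop where
  U0 : ∀ p, U p 0 0 = 1 ∧ U p 0 1 = 0 ∧ U p 1 0 = 0 ∧ U p 1 1 = 1
  V0 : ∀ p, V p 0 2 = 1 ∧ V p 0 3 = 0 ∧ V p 1 2 = 0 ∧ V p 1 3 = 1
  U1 : ∀ p i, |U p i 2| ≤ 1 / 10 ∧ |U p i 3| ≤ 1 / 10
  V1 : ∀ p i, |V p i 0| ≤ 1 / 10 ∧ |V p i 1| ≤ 1 / 10

/-- The data provided by a chain transitive Anosov diffeomorphism. -/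
structure Dyn (G : Pre B) where
  U : P → Fin 2 → Fin 4 → ℝ
  V : P → Fin 2 → Fin 4 → ℝ
  graph : Graph U V
  ucU : ∀ k l, G.UC fun p => G.biv U p k l
  ucV : ∀ k l, G.UC fun p => G.biv V p k l
  tay : G.Tay
  h : Iter G U V
  g : Iter G V U
  blk_h : (h.g 1).Blk
  blk_g : (g.g 1).Blk

namespace Calc

variable (G : Calc B) (φ κ : ℝ → ℝ) (z : Fin G.N → ℝ)

/-- The section `θ (z - E)` vanishing on the diagonal. -/
def σ (a : Fin 4) : A := ∑ k, G.θ a k * (algebraMap ℂ A (z k) - G.e k)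

/-- The squared norm of its component in the plane `j`. -/
def ρ (j : Fin 2) : A := G.σ z (![1, 3] j) * G.σ z (![0, 2] j)

/-- The squared Euclidean distance to `z`. -/
def r2 : A := ∑ k, (algebraMap ℂ A (z k) - G.e k) ^ 2

/-- The `(2,0)` component of the Thom form of the plane `j`. -/
def txx (j : Fin 2) (α β : Fin 4) : A :=
  -B.app (deriv φ) (G.ρ z j) * G.dd (G.σ z (![1, 3] j)) (G.σ z (![0, 2] j)) α β +
    B.app φ (G.ρ z j) * G.F j α β

/-- The `(1,1)` component. -/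
def txz (j : Fin 2) (α : Fin 4) (k : Fin G.N) : A :=
  -B.app (deriv φ) (G.ρ z j) * (G.D α (G.σ z (![1, 3] j)) * G.θ (![0, 2] j) k -
    G.θ (![1, 3] j) k * G.D α (G.σ z (![0, 2] j)))

/-- The `(0,2)` component. -/
def tzz (j : Fin 2) (k l : Fin G.N) : A :=
  -B.app (deriv φ) (G.ρ z j) * w1 (G.θ (![1, 3] j)) (G.θ (![0, 2] j)) k l

/-- The `(2,2)` component of the Thom form of the diagonal. -/
def thom (k l : Fin G.N) (α β : Fin 4) : A :=
  B.app κ (G.r2 z) * (G.txx φ z 0 α β * G.tzz φ z 1 k l - G.txz φ z 0 α k * G.txz φ z 1 β l +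
    G.txz φ z 0 α l * G.txz φ z 1 β k + G.txz φ z 0 β k * G.txz φ z 1 α l -
    G.txz φ z 0 β l * G.txz φ z 1 α k + G.tzz φ z 0 k l * G.txx φ z 1 α β)

/-- The cut-off function is constant near the support of the Thom form. -/
def CutOK : Prop := ∀ p, deriv κ (B.ev (G.r2 z) p).re ≠ 0 →
  ∃ j, φ (B.ev (G.ρ z j) p).re = 0 ∧ deriv φ (B.ev (G.ρ z j) p).re = 0

end Calc

end SW4
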