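import Pool.Agent.P.MP_0a0487_an.SW.CurEx
import Pool.Agent.P.MP_0a0487_an.SW.Loc

/-! A closed positive current with full support. -/

set_option autoImplicit false
set_option linter.unusedSectionVars false

noncomputable section

namespace SW4

open scoped ComplexOrder ContDiff
open Filter Topology

variable {P A : Type} [TopologicalSpace P] [CompactSpace P] [CommRing A] [StarRing A] [Algebra ℂ A]
  [StarModule ℂ A] {B : Base P A}

variable {G : Pre B} {U V : P → Fin 2 → Fin 4 → ℝ}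

open Matrix

theorem Full_ev2_add (a b : Fin 4 → Fin 4 → A) : B.ev2 (a + b) = B.ev2 a + B.ev2 b := by
  funext α β
  simp [Base.ev2]

theorem Full_ev2_smul (c : ℂ) (b : Fin 4 → Fin 4 → A) : B.ev2 (c • b) = c • B.ev2 b := by
  funext α β
  simp [Base.ev2]

theorem Full_ev_im {s : A} (hs : B.Re0 s) (p : P) : (B.ev s p).im = 0 := by
  have h : B.ev (star s) p = star (B.ev s p) := by rw [map_star]; rfl
  rw [hs.2] at h
  exact Complex.conj_eq_iff_im.1 h.symm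

/-- The push-forward of a current by a map expanding its planes. -/
theorem Full_push (S : Spl G U V) {f : Map G} {ε : ℝ} (hf : f.HypAt V U ε) (C : Cur G V) :
    ∃ C' : Cur G V, ∀ b, B.Form2 b → C'.l (B.ev2 b) = C.l (B.ev2 (f.pull2 b)) := by
  refine S.exists_cur_of_fun (fun b => C.l (B.ev2 (f.pull2 b))) ?_ ?_ ?_ ?_
  · intro a b ha hb
    rw [f.pull2_add ha hb, Full_ev2_add, map_add]
  · intro c b hb
    rw [f.pull2_smul c hb, Full_ev2_smul, map_smul, smul_eq_mul]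
  · intro b hb h
    refine C.pos _ (f.pull2_re hb) fun p => ?_
    obtain ⟨x, hx, -, h1⟩ := hf.dom S.bdV S.bdU p
    rw [(h1 b hb.1).1, Complex.re_ofReal_mul]
    exact mul_nonneg hx.le (h _)
  · intro p hp q hq
    rw [f.pull2_dd hp hq]
    exact C.closed _ (f.mem _ hp) _ (f.mem _ hq)

theorem Full_dom (S : Spl G U V) {f : Map G} {ε : ℝ} (hf : f.HypAt V U ε) :
    ∃ c : ℝ, 0 < c ∧ ∀ p, c * (B.b2 S.ηV p (V p 0) (V p 1)).re ≤
      (B.b2 (f.pull2 S.ηV) p (V p 0) (V p 1)).re := by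
  have hκ := S.κ_pos
  refine ⟨S.κ / ((2 * ε ^ 2 + 1) * (16 * ‖B.ev2 S.ηV‖ + 1)), by positivity, fun p => ?_⟩
  obtain ⟨x, hx, hx1, h1⟩ := hf.dom S.bdV S.bdU p
  rw [(h1 _ S.ηV_re.1).1, Complex.re_ofReal_mul]
  have h2 : (B.b2 S.ηV p (V p 0) (V p 1)).re ≤ 16 * ‖B.ev2 S.ηV‖ + 1 := by
    have h3 := (Complex.re_le_norm _).trans (B.b2_le S.ηV p (V p 0) (V p 1))
    have h4 : 16 * ‖B.ev2 S.ηV‖ * ‖V p 0‖ * ‖V p 1‖ ≤ 16 * ‖B.ev2 S.ηV‖ * 1 * 1 := by
      gcongr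
      · exact S.bdV p 0
      · exact S.bdV p 1
    linarith
  have h5 := S.ηV_pos (f.pt p)
  calc S.κ / ((2 * ε ^ 2 + 1) * (16 * ‖B.ev2 S.ηV‖ + 1)) * (B.b2 S.ηV p (V p 0) (V p 1)).re
      ≤ S.κ / ((2 * ε ^ 2 + 1) * (16 * ‖B.ev2 S.ηV‖ + 1)) * (16 * ‖B.ev2 S.ηV‖ + 1) := by
        gcongr
    _ = S.κ / (2 * ε ^ 2 + 1) := by field_simp
    _ ≤ x * S.κ := by
        rw [div_le_iff₀ (by positivity)]
        nlinarith [mul_le_mul_of_nonneg_left hx1 hκ.le, mul_pos hx hκ]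
    _ ≤ _ := mul_le_mul_of_nonneg_left h5 hx.le

theorem Full_pos_pull (S : Spl G U V) {f : Map G} {ε : ℝ} (hf : f.HypAt V U ε) (C : Cur G V)
    {s : A} (hs : B.Re0 s) (h0 : ∀ p, 0 ≤ (B.ev s p).re)
    (h : 0 < (C.l (B.ev2 fun α β => s * S.ηV α β)).re) :
    0 < (C.l (B.ev2 fun α β => s * f.pull2 S.ηV α β)).re := by
  obtain ⟨c, hc, h1⟩ := Full_dom S hf
  have h2 := C.mono ((S.ηV_re.mul hs).smul c) ((f.pull2_re S.ηV_re).mul hs) fun p => by
    rw [Base.b2_smul, Base.b2_mul, Base.b2_mul, Complex.re_ofReal_mul, Complex.mul_re,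
      Complex.mul_re, Full_ev_im hs p]
    nlinarith [mul_le_mul_of_nonneg_left (h1 p) (h0 p)]
  rw [Full_ev2_smul, map_smul, smul_eq_mul, Complex.re_ofReal_mul] at h2
  exact (mul_pos hc h).trans_le h2

theorem Full_nonneg (S : Spl G U V) (C : Cur G V) {s : A} (hs : B.Re0 s)
    (h0 : ∀ p, 0 ≤ (B.ev s p).re) : 0 ≤ (C.l (B.ev2 fun α β => s * S.ηV α β)).re := by
  have h := C.pos _ (S.ηV_re.mul hs) fun p => by
    rw [Base.b2_mul, Complex.mul_re, Full_ev_im hs p]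
    have := S.κ_pos.le.trans (S.ηV_pos p)
    nlinarith [mul_nonneg (h0 p) this]
  exact (Complex.nonneg_iff.1 h).1

/-- A convergent positive combination of a sequence of currents. -/
theorem Full_sum (c : ℕ → Cur G V) : ∃ (C : Cur G V) (w : ℕ → ℝ), (∀ n, 0 < w n) ∧
    ∀ x, HasSum (fun n => w n * ((c n).l x).re) (C.l x).re := by
  set w : ℕ → ℝ := fun n => (1 / 2) ^ n / (1 + ‖(c n).l‖) with hw
  have hw0 : ∀ n, 0 < w n := fun n => by positivity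
  have hs : Summable fun n => (w n : ℂ) • (c n).l := by
    refine Summable.of_norm_bounded summable_geometric_two fun n => ?_
    rw [norm_smul, Complex.norm_real, Real.norm_of_nonneg (hw0 n).le, hw]
    rw [div_mul_eq_mul_div, div_le_iff₀ (by positivity)]
    gcongr
    linarith
  have key : ∀ x, HasSum (fun n => (w n : ℂ) * (c n).l x) ((∑' n, (w n : ℂ) • (c n).l) x) := by
    intro x
    simpa using (ContinuousLinearMap.apply ℂ ℂ x).hasSum hs.hasSum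
  refine ⟨⟨∑' n, (w n : ℂ) • (c n).l, fun b hb h => ?_, fun p hp q hq => ?_⟩, w, hw0, fun x => ?_⟩
  · exact (key _).nonneg fun n =>
      mul_nonneg (Complex.zero_le_real.2 (hw0 n).le) ((c n).pos b hb h)
  · refine (key _).unique ?_
    simp [fun n => (c n).closed p hp q hq]
  · simpa using Complex.reCLM.hasSum (key x)

theorem Spl.exists_inv_cur (S : Spl G U V) (g : Iter G V U) (C : Cur G V)
    (h : 0 < (C.l (B.ev2 S.ηV)).re) : ∃ C' : Cur G V, 0 < (C'.l (B.ev2 S.ηV)).re ∧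
      ∀ m, ∀ x ∈ C'.supp S.ηV, (g.g m).pt x ∈ C'.supp S.ηV := by
  choose c hc using fun n => Full_push S (g.hyp n) C
  obtain ⟨C', w, hw, hsum⟩ := Full_sum c
  have lower : ∀ s, B.Re0 s → (∀ p, 0 ≤ (B.ev s p).re) → ∀ n,
      0 < ((c n).l (B.ev2 fun α β => s * S.ηV α β)).re →
      0 < (C'.l (B.ev2 fun α β => s * S.ηV α β)).re := fun s hs h0 n hn =>
    (mul_pos (hw n) hn).trans_le (le_hasSum (hsum _) n fun j _ =>
      mul_nonneg (hw j).le (Full_nonneg S (c j) hs h0))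
  have h1 : B.Re0 1 := ⟨B.one_mem, star_one _⟩
  have h10 : ∀ p, 0 ≤ (B.ev 1 p).re := fun p => by simp
  refine ⟨C', ?_, fun m x hx s hs h0 hpos => ?_⟩
  · have h2 := lower 1 h1 h10 0 (by
      have h3 := Full_pos_pull S (g.hyp 0) C h1 h10 (by simpa using h)
      simp only [one_mul] at h3 ⊢
      rw [hc 0 _ S.ηV_re.1]
      exact h3)
    simpa using h2
  · have hΦ := (g.g m).Φ_re hs
    have hΦ0 : ∀ p, 0 ≤ (B.ev ((g.g m).Φ s) p).re := fun p => by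
      rw [(g.g m).ev_eq s hs.1]
      exact h0 _
    have h2 := hx _ hΦ hΦ0 (by rw [(g.g m).ev_eq s hs.1]; exact hpos)
    obtain ⟨n, hn⟩ : ∃ n, 0 < ((c n).l (B.ev2 fun α β => (g.g m).Φ s * S.ηV α β)).re := by
      by_contra hcon
      push Not at hcon
      exact absurd ((hsum _).nonpos fun n => mul_nonpos_of_nonneg_of_nonpos (hw n).le (hcon n))
        (not_le.2 h2)
    have h3 := Full_pos_pull S (g.hyp m) (c n) hΦ hΦ0 hn
    refine lower s hs h0 (n + m) ?_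
    have hF := S.ηV_re.1.mul hs.1
    rw [hc _ _ hF, g.pull2_comp n m hF, ← hc n _ ((g.g m).pull2_form hF),
      (g.g m).pull2_mul hs.1 S.ηV_re.1]
    exact h3

theorem Full_norm_comb {W : Fin 2 → Fin 4 → ℝ} {r : ℝ} (hW : ∀ i, ‖W i‖ ≤ r) (t : Fin 2 → ℝ) :
    ‖∑ i, t i • W i‖ ≤ 2 * r * ‖t‖ := by
  have h : ∀ i, ‖t i • W i‖ ≤ ‖t‖ * r := fun i => by
    rw [norm_smul]
    exact mul_le_mul (norm_le_pi_norm t i) (hW i) (norm_nonneg _) (norm_nonneg _)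
  rw [Fin.sum_univ_two]
  linarith [norm_add_le (t 0 • W 0) (t 1 • W 1), h 0, h 1]

theorem Full_contract {f : Map G} {ε : ℝ} (hf : f.HypAt V U ε) (hU : ∀ p i, ‖U p i‖ ≤ 1) (p : P)
    (t : Fin 2 → ℝ) : ‖f.J p *ᵥ ∑ i, t i • U p i‖ ≤ 4 * |ε| * ‖t‖ := by
  obtain ⟨M, M', -, h2, -, -, -, h3⟩ := hf p
  have h4 : ∀ i, ‖f.J p *ᵥ U p i‖ ≤ 2 * |ε| := fun i => by
    rw [h2 i]
    have h5 : ‖M' i‖ ≤ |ε| :=
      (pi_norm_le_iff_of_nonneg (abs_nonneg _)).2 fun j => (h3 i j).trans (le_abs_self _)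
    have h6 := Full_norm_comb (hU (f.pt p)) (M' i)
    linarith
  have h7 : f.J p *ᵥ ∑ i, t i • U p i = ∑ i, t i • f.J p *ᵥ U p i := by
    simp only [Fin.sum_univ_two, mulVec_add, mulVec_smul]
  rw [h7]
  have := Full_norm_comb h4 t
  linarith

/-- Near the support, a high iterate halves the distance to the support. -/
theorem Full_half (S : Spl G U V) (g : Iter G V U) : ∃ m, 1 ≤ m ∧ ∃ δ > 0, ∀ C : Cur G V,
    ∀ x ∈ C.supp S.ηV, ∀ y, ‖G.E x - G.E y‖ ≤ δ → ∃ x' ∈ C.supp S.ηV,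
      ‖G.E ((g.g m).pt x') - G.E ((g.g m).pt y)‖ ≤ ‖G.E x - G.E y‖ / 2 := by
  obtain ⟨C₀, hC₀, hloc⟩ := S.loc
  obtain ⟨K, hK, hdE, -⟩ := G.exists_bound
  have hK0 : 0 < K := by linarith
  obtain ⟨m, hm, hε⟩ : ∃ m, 1 ≤ m ∧ |g.ε m| ≤ 1 / (32 * K * C₀) := by
    have h1 : ∀ᶠ m in atTop, |g.ε m| < 1 / (32 * K * C₀) := by
      have h2 : Tendsto (fun m => |g.ε m|) atTop (𝓝 0) := by simpa using g.lim.abs
      exact h2.eventually (gt_mem_nhds (by positivity))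
    obtain ⟨m, h3, h4⟩ := (h1.and (eventually_ge_atTop 1)).exists
    exact ⟨m, h4, h3.le⟩
  set f := g.g m with hf
  have hmem : ∀ k, f.Φ (G.e k) ∈ B.W 0 := fun k => f.mem _ (G.e_re k).1
  choose L hL0 hL using fun k => G.dv_le (f.Φ (G.e k))
  obtain ⟨L', hL'⟩ := Finite.exists_le L
  set L₀ := max L' 1 with hL₀
  have hL₀0 : 0 < L₀ := lt_max_of_lt_right one_pos
  have hLL : ∀ k, L k ≤ L₀ := fun k => (hL' k).trans (le_max_left _ _)
  choose δt hδt htay using fun k => S.tay _ (hmem k) (1 / (8 * C₀)) (by positivity)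
  obtain ⟨⟨δ₁, hδ₁⟩, hδ₁'⟩ := Finite.exists_ge (α := {x : ℝ // 0 < x}) fun k => ⟨δt k, hδt k⟩
  obtain ⟨δ₂, hδ₂, hl⟩ := hloc (1 / (16 * L₀)) (by positivity)
  refine ⟨m, hm, min δ₂ (δ₁ / C₀), by positivity, fun C x hx y hxy => ?_⟩
  obtain ⟨x', hx', h1, t, u, hco, ht, hu⟩ := hl C x hx y (hxy.trans (min_le_left _ _))
  refine ⟨x', hx', ?_⟩
  set d := ‖G.E x - G.E y‖ with hd
  have hd0 : 0 ≤ d := norm_nonneg _
  have h2 : C₀ * d ≤ δ₁ := by
    have := hxy.trans (min_le_right _ _)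
    rwa [le_div_iff₀' hC₀] at this
  refine (pi_norm_le_iff_of_nonneg (by positivity)).2 fun k => ?_
  have h3 := htay k y x' (h1.trans (h2.trans (hδ₁' k)))
  rw [hco, G.dv_add_vec, f.chain _ (G.e_re k).1 y (∑ i, t i • U y i), G.dv_e,
    f.ev_eq _ (G.e_re k).1, f.ev_eq _ (G.e_re k).1, G.ev_e, G.ev_e] at h3
  have h4 : ‖((G.dE (f.pt y) (f.J y *ᵥ ∑ i, t i • U y i) k : ℝ) : ℂ)‖ ≤ d / 8 := by
    rw [Complex.norm_real]
    calc _ ≤ ‖G.dE (f.pt y) (f.J y *ᵥ ∑ i, t i • U y i)‖ := norm_le_pi_norm _ k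
      _ ≤ K * ‖f.J y *ᵥ ∑ i, t i • U y i‖ := hdE _ _
      _ ≤ K * (4 * |g.ε m| * ‖t‖) := by
          gcongr
          exact Full_contract (g.hyp m) S.bdU y t
      _ ≤ K * (4 * (1 / (32 * K * C₀)) * (C₀ * d)) := by gcongr
      _ = d / 8 := by field_simp; ring
  have h5 : ‖G.dv (f.Φ (G.e k)) y (∑ i, u i • V y i)‖ ≤ d / 8 := by
    calc _ ≤ L k * ‖∑ i, u i • V y i‖ := hL k _ _
      _ ≤ L₀ * (2 * 1 * ‖u‖) :=
          mul_le_mul (hLL k) (Full_norm_comb (S.bdV y) u) (norm_nonneg _) hL₀0.le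
      _ ≤ L₀ * (2 * 1 * (1 / (16 * L₀) * d)) := by gcongr
      _ = d / 8 := by field_simp; ring
  have h6 : 1 / (8 * C₀) * ‖G.E x' - G.E y‖ ≤ d / 8 := by
    calc _ ≤ 1 / (8 * C₀) * (C₀ * d) := by gcongr
      _ = d / 8 := by field_simp
  have h7 : ‖(G.E (f.pt x') - G.E (f.pt y)) k‖ =
      ‖((G.E (f.pt x') k : ℝ) : ℂ) - (G.E (f.pt y) k : ℝ)‖ := by
    rw [← Complex.ofReal_sub, Complex.norm_real, Pi.sub_apply]
  rw [h7]
  have h8 := norm_add_le (((G.E (f.pt x') k : ℝ) : ℂ) - (G.E (f.pt y) k : ℝ) -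
    ((G.dE (f.pt y) (f.J y *ᵥ ∑ i, t i • U y i) k : ℝ) +
      G.dv (f.Φ (G.e k)) y (∑ i, u i • V y i)))
    ((G.dE (f.pt y) (f.J y *ᵥ ∑ i, t i • U y i) k : ℝ) + G.dv (f.Φ (G.e k)) y (∑ i, u i • V y i))
  rw [sub_add_cancel] at h8
  have h9 := norm_add_le ((G.dE (f.pt y) (f.J y *ᵥ ∑ i, t i • U y i) k : ℝ) : ℂ)
    (G.dv (f.Φ (G.e k)) y (∑ i, u i • V y i))
  linarith

theorem Spl.supp_eq_univ (S : Spl G U V) (g : Iter G V U) (C : Cur G V)
    (h : 0 < (C.l (B.ev2 S.ηV)).re) (inv : ∀ m, ∀ x ∈ C.supp S.ηV, (g.g m).pt x ∈ C.supp S.ηV) :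
    C.supp S.ηV = Set.univ := by
  obtain ⟨x₀, hx₀⟩ := S.supp_nonempty C h
  obtain ⟨m, hm, δ, hδ, hhalf⟩ := Full_half S g
  have hK : IsCompact (G.E '' C.supp S.ηV) :=
    (C.supp_closed S.ηV).isCompact.image G.continuous_E
  have hne : (G.E '' C.supp S.ηV).Nonempty := ⟨_, x₀, hx₀, rfl⟩
  have step : ∀ y, Metric.infDist (G.E y) (G.E '' C.supp S.ηV) ≤ δ →
      Metric.infDist (G.E ((g.g m).pt y)) (G.E '' C.supp S.ηV) ≤
        Metric.infDist (G.E y) (G.E '' C.supp S.ηV) / 2 := by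
    intro y hy
    obtain ⟨_, ⟨x, hx, rfl⟩, hxy⟩ := hK.exists_infDist_eq_dist hne (G.E y)
    rw [hxy, dist_comm, dist_eq_norm] at hy
    obtain ⟨x', hx', h1⟩ := hhalf C x hx y hy
    rw [hxy, dist_comm, dist_eq_norm]
    refine (Metric.infDist_le_dist_of_mem (Set.mem_image_of_mem G.E (inv m x' hx'))).trans ?_
    rwa [dist_comm, dist_eq_norm]
  have small : ∀ r > 0, r ≤ δ → ∀ q, Metric.infDist (G.E q) (G.E '' C.supp S.ηV) ≤ r := by
    intro r hr hrδ q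
    have hc := g.chain m hm (r / 2) (half_pos hr) x₀ q
    induction hc with
    | refl =>
      rw [Metric.infDist_zero_of_mem (Set.mem_image_of_mem G.E hx₀)]
      exact hr.le
    | @tail a b _ hab ih =>
      have h1 := step a (ih.trans hrδ)
      have h2 := Metric.infDist_le_infDist_add_dist (x := G.E b) (y := G.E ((g.g m).pt a))
        (s := G.E '' C.supp S.ηV)
      rw [dist_comm, dist_eq_norm] at h2
      linarith
  refine Set.eq_univ_of_forall fun q => ?_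
  obtain ⟨_, ⟨x, hx, rfl⟩, hxq⟩ := hK.exists_infDist_eq_dist hne (G.E q)
  refine S.supp_sat C (x := x) (dist_le_zero.1 ?_) hx
  rw [← hxq]
  refine le_of_forall_pos_le_add fun r hr => ?_
  have := small (min r δ) (lt_min hr hδ) (min_le_right _ _) q
  linarith [min_le_left r δ]

theorem Spl.exists_full [Nonempty P] (S : Spl G U V) (h : Iter G U V) (g : Iter G V U) :
    ∃ C : Cur G V, C.supp S.ηV = Set.univ := by
  obtain ⟨C, hC⟩ := S.exists_cur h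
  obtain ⟨C', h1, h2⟩ := S.exists_inv_cur g C hC
  exact ⟨C', S.supp_eq_univ g C' h1 h2⟩

end SW4
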