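import Pool.Agent.P.MP_0a0487_an.SW.ThomP
import Pool.Agent.P.MP_0a0487_an.SW.Full

/-! A smooth closed form positive on the transverse planes. -/

set_option autoImplicit false
set_option linter.unusedSectionVars false

noncomputable section

namespace SW4

open scoped ComplexOrder ContDiff
open Filter Topology

variable {P A : Type} [TopologicalSpace P] [CompactSpace P] [CommRing A] [StarRing A] [Algebra ℂ A]
  [StarModule ℂ A] {B : Base P A}

variable {G : Pre B} {U V : P → Fin 2 → Fin 4 → ℝ}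

theorem eta_cyc {ι : Type} [Fintype ι] (a T : ι → ι → ι → ℂ)
    (ha : ∀ k l m, a k l m + a l m k + a m k l = 0) (hT : ∀ k l m, T k l m = T l m k) :
    ∑ k, ∑ l, ∑ m, a m k l * T m k l = 0 := by
  have rot : ∀ f : ι → ι → ι → ℂ, ∑ k, ∑ l, ∑ m, f k l m = ∑ k, ∑ l, ∑ m, f l m k := by
    intro f
    rw [Finset.sum_comm (f := fun k l => ∑ m, f l m k)]
    exact Finset.sum_congr rfl fun l _ => Finset.sum_comm
  have h1 := rot fun k l m => a m k l * T m k l
  have h2 := rot fun k l m => a k l m * T k l m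
  have h3 : ∑ k, ∑ l, ∑ m, a m k l * T m k l + ∑ k, ∑ l, ∑ m, a k l m * T k l m +
      ∑ k, ∑ l, ∑ m, a l m k * T l m k = 0 := by
    simp only [← Finset.sum_add_distrib]
    refine Finset.sum_eq_zero fun k _ => Finset.sum_eq_zero fun l _ =>
      Finset.sum_eq_zero fun m _ => ?_
    rw [hT m k l, ← hT k l m]
    linear_combination T k l m * ha k l m
  linear_combination (1 / 3 : ℂ) * h3 + (2 / 3 : ℂ) * h1 + (1 / 3 : ℂ) * h2

theorem eta_re2_sum {ι : Type} (S : Finset ι) {b : ι → Fin 4 → Fin 4 → A}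
    (hb : ∀ i ∈ S, B.Re2 (b i)) : B.Re2 fun α β => ∑ i ∈ S, b i α β := by
  refine ⟨fun α β => ⟨Submodule.sum_mem _ fun i hi => ((hb i hi).1 α β).1, ?_⟩, fun α β => ?_⟩
  · rw [← Finset.sum_neg_distrib]
    exact Finset.sum_congr rfl fun i hi => ((hb i hi).1 α β).2
  · rw [star_sum]
    exact Finset.sum_congr rfl fun i hi => (hb i hi).2 α β

theorem eta_b2_sum {ι : Type} (S : Finset ι) (b : ι → Fin 4 → Fin 4 → A) (p : P)
    (u v : Fin 4 → ℝ) : B.b2 (fun α β => ∑ i ∈ S, b i α β) p u v = ∑ i ∈ S, B.b2 (b i) p u v := by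
  simp only [Base.b2, map_sum, ContinuousMap.sum_apply, Finset.mul_sum]
  rw [Finset.sum_comm (s := S)]
  exact Finset.sum_congr rfl fun α _ => Finset.sum_comm

theorem eta_ev2_sum {ι : Type} (S : Finset ι) (b : ι → Fin 4 → Fin 4 → A) :
    B.ev2 (fun α β => ∑ i ∈ S, b i α β) = ∑ i ∈ S, B.ev2 (b i) := by
  funext α β
  simp only [Base.ev2, map_sum, Finset.sum_apply]

theorem eta_ev2_smul (c : ℂ) (b : Fin 4 → Fin 4 → A) : B.ev2 (c • b) = c • B.ev2 b := by
  funext α β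
  simp only [Base.ev2, map_smul, Pi.smul_apply]

theorem eta_wg_sub_left (a b c : Fin 4 → Fin 4 → A) : wg (a - b) c = wg a c - wg b c := by
  simp only [wg, Pi.sub_apply]
  ring

theorem eta_wg_sub_right (a b c : Fin 4 → Fin 4 → A) : wg c (a - b) = wg c a - wg c b := by
  simp only [wg, Pi.sub_apply]
  ring

theorem Spl.eta_of_full [Nonempty P] (S : Spl G U V) (C : Cur G V)
    (hC : C.supp S.ηV = Set.univ) : ∃ η, B.Re2 η ∧ G.Closed η ∧
      ∃ κ : ℝ, 0 < κ ∧ ∀ p, κ ≤ (B.b2 η p (U p 0) (U p 1)).re := by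
  obtain ⟨φ, κ, hφ, hκ, hcut, hpos⟩ := S.thom_pos
  let L : (Fin 4 → Fin 4 → C(P, ℂ)) →L[ℝ] ℝ := -(Complex.reCLM.comp (C.l.restrictScalars ℝ))
  have hL : ∀ x, L x = -(C.l x).re := fun x => rfl
  have hv : ∀ k l : Fin G.N, ∃ v, B.Re0 v ∧
      (∀ p, B.ev v p = (L (B.ev2 (G.thom φ κ (G.E p) k l)) : ℝ)) ∧
      ∀ α p, B.ev (G.D α v) p = ∑ m,
        (L (fderiv ℝ (fun y => B.ev2 (G.thom φ κ y k l)) (G.E p) (Pi.single m 1)) : ℝ) *
          B.ev (G.D α (G.e m)) p := by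
    intro k l
    have hs := G.thom_smooth hφ hκ k l
    obtain ⟨v, h1, h2, h3⟩ := G.fc (fun z => L (B.ev2 (G.thom φ κ z k l))) Set.univ isOpen_univ
      (L.contDiff.comp hs).contDiffOn G.e G.e_re (fun _ => Set.mem_univ _)
    refine ⟨v, h1, h2, fun α p => ?_⟩
    rw [h3]
    have hd := (L.hasFDerivAt.comp (G.E p)
      (hs.differentiable (by simp) (G.E p)).hasFDerivAt).fderiv
    refine Finset.sum_congr rfl fun m _ => ?_
    congr 2
    exact congrArg (fun T : (Fin G.N → ℝ) →L[ℝ] ℝ => T (Pi.single m 1)) hd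
  choose v v1 v2 v3 using hv
  have hre : B.Re2 fun μ ν => ∑ k, ∑ l, v k l * G.dd (G.e k) (G.e l) μ ν :=
    eta_re2_sum _ fun k _ => eta_re2_sum _ fun l _ =>
      (G.dd_re (G.e_re k) (G.e_re l)).mul (v1 k l)
  refine ⟨_, hre, G.closed_of_d2 hre.1 fun α β γ => ?_, ?_⟩
  · rw [G.integ_d2_sum Finset.univ fun k μ ν => ∑ l, v k l * G.dd (G.e k) (G.e l) μ ν]
    simp only [G.integ_d2_sum Finset.univ fun l μ ν => v _ l * G.dd (G.e _) (G.e l) μ ν,
      G.d2_mul_dd _ (G.e_re _).1 (G.e_re _).1]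
    refine B.ext' fun p => ?_
    have key := eta_cyc (fun m k l =>
        ((L (fderiv ℝ (fun y => B.ev2 (G.thom φ κ y k l)) (G.E p) (Pi.single m 1)) : ℝ) : ℂ))
      (fun m k l => B.ev (G.D α (G.e m)) p * B.ev (G.dd (G.e k) (G.e l) β γ) p +
        B.ev (G.D β (G.e m)) p * B.ev (G.dd (G.e k) (G.e l) γ α) p +
        B.ev (G.D γ (G.e m)) p * B.ev (G.dd (G.e k) (G.e l) α β) p)
      (by
        intro k l m
        obtain ⟨T, hT, e⟩ := G.thom_closed hφ hκ (hcut p) k l m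
        rw [← Complex.ofReal_add, ← Complex.ofReal_add, ← map_add, ← map_add, e, hL,
          C.closed_d1 hT]
        simp)
      (by
        intro k l m
        simp only [Calc.dd, Calc.d0, w1, map_sub, map_mul, ContinuousMap.sub_apply,
          ContinuousMap.mul_apply]
        ring)
    rw [map_zero, ContinuousMap.zero_apply, ← key]
    simp only [map_sum, map_add, map_mul, ContinuousMap.sum_apply, ContinuousMap.add_apply,
      ContinuousMap.mul_apply, v3, Finset.sum_mul, ← Finset.sum_add_distrib]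
    refine Finset.sum_congr rfl fun k _ => Finset.sum_congr rfl fun l _ =>
      Finset.sum_congr rfl fun m _ => ?_
    ring
  · have hc := (S.tay.b2_uc S.bdU S.ucU hre.1).continuous
    obtain ⟨y, -, hy⟩ := isCompact_univ.exists_isMinOn Set.univ_nonempty hc.continuousOn
    refine ⟨_, ?_, fun p => hy (Set.mem_univ p)⟩
    obtain ⟨s, s1, s2, s3, s4⟩ := hpos y
    have hy' : y ∈ C.supp S.ηV := hC ▸ Set.mem_univ y
    have hb : B.Re2 fun μ ν => ∑ k, ∑ l,
        (((-G.biv U y k l : ℝ) : ℂ) • G.thom φ κ (G.E y) k l) μ ν :=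
      eta_re2_sum _ fun k _ => eta_re2_sum _ fun l _ => (G.thom_re hφ hκ _ k l).smul _
    refine (hy' s s1 s2 s3).trans_le ((C.mono (S.ηV_re.mul s1) hb fun p => ?_).trans_eq ?_)
    · rw [B.b2_mul, Complex.mul_re, (B.re0_iff.1 s1).2 p, zero_mul, sub_zero]
      refine (s4 p).trans_eq ?_
      rw [eta_b2_sum Finset.univ fun k μ ν => ∑ l,
        (((-G.biv U y k l : ℝ) : ℂ) • G.thom φ κ (G.E y) k l) μ ν, Complex.re_sum,
        ← Finset.sum_neg_distrib]
      refine Finset.sum_congr rfl fun k _ => ?_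
      rw [eta_b2_sum Finset.univ fun l => ((-G.biv U y k l : ℝ) : ℂ) • G.thom φ κ (G.E y) k l,
        Complex.re_sum, ← Finset.sum_neg_distrib]
      refine Finset.sum_congr rfl fun l _ => ?_
      rw [B.b2_smul, Complex.re_ofReal_mul]
      ring
    · beta_reduce
      rw [eta_ev2_sum Finset.univ fun k μ ν => ∑ l,
        (((-G.biv U y k l : ℝ) : ℂ) • G.thom φ κ (G.E y) k l) μ ν, map_sum, Complex.re_sum,
        eta_b2_sum Finset.univ fun k μ ν => ∑ l, v k l * G.dd (G.e k) (G.e l) μ ν, Complex.re_sum]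
      refine Finset.sum_congr rfl fun k _ => ?_
      rw [eta_ev2_sum Finset.univ fun l => ((-G.biv U y k l : ℝ) : ℂ) • G.thom φ κ (G.E y) k l,
        map_sum, Complex.re_sum,
        eta_b2_sum Finset.univ fun l μ ν => v k l * G.dd (G.e k) (G.e l) μ ν, Complex.re_sum]
      refine Finset.sum_congr rfl fun l _ => ?_
      rw [eta_ev2_smul, map_smul, smul_eq_mul, Complex.re_ofReal_mul, B.b2_mul, G.b2_dd, v2, hL,
        G.dv_e, G.dv_e, G.dv_e, G.dv_e, Complex.re_ofReal_mul, ← Complex.ofReal_mul,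
        ← Complex.ofReal_mul, ← Complex.ofReal_sub, Complex.ofReal_re, Calc.biv]
      ring

theorem Spl.exists_eta [Nonempty P] (S : Spl G U V) (h : Iter G U V) (g : Iter G V U)
    (hb : (h.g 1).Blk) : ∃ η, B.Re2 η ∧ G.Closed η ∧ (∀ j, G.I (wg (G.F j) η) = 0) ∧
      ∃ κ : ℝ, 0 < κ ∧ ∀ p, κ ≤ (B.b2 η p (U p 0) (U p 1)).re := by
  obtain ⟨C, hC⟩ := S.exists_full h g
  obtain ⟨η, h1, h2, κ, hκ, h3⟩ := S.eta_of_full C hC
  have hlim : Tendsto (fun m => 2 * h.ε m ^ 2 * (16 * ‖B.ev2 η‖ + 1)) atTop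
      (𝓝 (2 * 0 ^ 2 * (16 * ‖B.ev2 η‖ + 1))) := ((h.lim.pow 2).const_mul 2).mul_const _
  have hev := hlim.eventually (gt_mem_nhds (show 2 * (0 : ℝ) ^ 2 * (16 * ‖B.ev2 η‖ + 1) < κ by
    simpa using hκ))
  obtain ⟨m, hm, hm1⟩ := (hev.and (eventually_ge_atTop 1)).exists
  refine ⟨(h.g m).pull2 η - η, ((h.g m).pull2_re h1).sub h1, fun p hp q hq => ?_, fun j => ?_,
    1, one_pos, fun p => ?_⟩
  · rw [eta_wg_sub_left, map_sub, (h.g m).pull2_closed h1.1 h2 p hp q hq, h2 p hp q hq, sub_self]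
  · rw [eta_wg_sub_right, map_sub, h.I_wg_F hb hm1 j h1.1 h2, sub_self]
  · obtain ⟨x, hx, hx1, hx2⟩ := (h.hyp m).dom S.bdU S.bdV p
    rw [B.b2_sub, (hx2 η h1.1).1, Complex.sub_re, Complex.re_ofReal_mul]
    have a1 := mul_le_mul_of_nonneg_left (h3 ((h.g m).pt p)) hx.le
    have a2 : (B.b2 η p (U p 0) (U p 1)).re ≤ 16 * ‖B.ev2 η‖ := by
      refine (Complex.re_le_norm _).trans ((B.b2_le η p _ _).trans ?_)
      have b0 := S.bdU p 0
      have b1 := S.bdU p 1
      have : 16 * ‖B.ev2 η‖ * ‖U p 0‖ * ‖U p 1‖ ≤ 16 * ‖B.ev2 η‖ * 1 * 1 := by gcongr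
      linarith
    have a3 := mul_le_mul_of_nonneg_left hm.le hx.le
    have a4 := mul_le_mul_of_nonneg_right hx1 (show 0 ≤ 16 * ‖B.ev2 η‖ + 1 by positivity)
    nlinarith

end SW4
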