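import Pool.Agent.P.MP_0a0487_an.SW.AtlDefs

/-! Euclidean smoothing kernels: algebra of kernels. -/

set_option autoImplicit false
set_option linter.unusedSectionVars false

noncomputable section

namespace SW4

open scoped ComplexOrder ContDiff
open Filter Topology

variable {P A : Type} [TopologicalSpace P] [CompactSpace P] [CommRing A] [StarRing A] [Algebra ℂ A]
  [StarModule ℂ A] {B : Base P A}

open MeasureTheory

variable {K : Set E4} {r : ℝ} {k k' : ℕ → E4 × E4 → ℂ}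

theorem EuK_le (m : ℕ) : (m : WithTop ℕ∞) ≤ ∞ := by exact_mod_cast le_top

theorem EuK_bdd {E : Type} [NormedAddCommGroup E] [NormedSpace ℝ E] {c : E → ℂ}
    (hc : ContDiff ℝ ∞ c) (hs : HasCompactSupport c) (m : ℕ) :
    ∃ C : ℝ, ∀ y, ‖iteratedFDeriv ℝ m c y‖ ≤ C :=
  (hc.continuous_iteratedFDeriv (EuK_le m)).bounded_above_of_compact_support (hs.iteratedFDeriv m)

theorem EuK_mul (h : Ker K r k) {g : ℕ → E4 × E4 → ℂ} (hg : ∀ n, ContDiff ℝ ∞ (g n))
    (hb : ∀ m, ∃ C : ℝ, ∀ n x, ‖x.2‖ ≤ r → ‖iteratedFDeriv ℝ m (g n) x‖ ≤ C) :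
    Ker K r fun n x => k n x * g n x := by
  refine ⟨fun n => (h.smooth n).mul (hg n), fun m => ?_,
    fun n y z hne => h.supp n y z (left_ne_zero_of_mul hne)⟩
  choose C hC using h.bdd
  choose D hD using hb
  refine ⟨∑ i ∈ Finset.range (m + 1), (m.choose i : ℝ) * |C i| * |D (m - i)|, fun n x => ?_⟩
  by_cases hx : ‖x.2‖ ≤ r
  · refine (norm_iteratedFDeriv_mul_le (h.smooth n) (hg n) x (EuK_le m)).trans
      (Finset.sum_le_sum fun i _ => ?_)
    have h1 := (hC i n x).trans (le_abs_self _)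
    have h2 := (hD (m - i) n x hx).trans (le_abs_self _)
    gcongr
  · have h1 : tsupport (fun x => k n x * g n x) ⊆ {x | ‖x.2‖ ≤ r} :=
      closure_minimal (fun x hx => (h.supp n x.1 x.2 (left_ne_zero_of_mul hx)).2)
        (isClosed_le (by fun_prop) continuous_const)
    have h2 : iteratedFDeriv ℝ m (fun x => k n x * g n x) x = 0 := by
      by_contra h3
      exact hx (h1 (support_iteratedFDeriv_subset m h3))
    rw [h2, norm_zero]
    positivity

/-- The linear map `x ↦ x.1 - t • x.2`. -/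
def EuK_L (t : ℝ) : E4 × E4 →L[ℝ] E4 :=
  ContinuousLinearMap.fst ℝ E4 E4 - t • ContinuousLinearMap.snd ℝ E4 E4

theorem EuK_L_sub {s t : ℝ} : ‖EuK_L s - EuK_L t‖ ≤ |t - s| := by
  refine ContinuousLinearMap.opNorm_le_bound _ (abs_nonneg _) fun x => ?_
  have h1 : (EuK_L s - EuK_L t) x = (t - s) • x.2 := by
    change x.1 - s • x.2 - (x.1 - t • x.2) = _
    rw [sub_smul]
    abel
  rw [h1, norm_smul, Real.norm_eq_abs]
  exact mul_le_mul_of_nonneg_left (norm_snd_le x) (abs_nonneg _)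

theorem EuK_L_le {t : ℝ} (ht : |t| ≤ 1) : ‖EuK_L t‖ ≤ 2 := by
  refine ContinuousLinearMap.opNorm_le_bound _ zero_le_two fun x => ?_
  change ‖x.1 - t • x.2‖ ≤ _
  refine (norm_sub_le _ _).trans ?_
  rw [norm_smul, Real.norm_eq_abs]
  nlinarith [norm_fst_le x, norm_snd_le x, norm_nonneg x.2, abs_nonneg t]

theorem EuK_t (n : ℕ) : |((n : ℝ) + 1)⁻¹| ≤ 1 := by
  rw [abs_of_pos (by positivity)]
  exact inv_le_one_of_one_le₀ (by simp)

theorem EuK_comp {c : E4 → ℂ} (hc : ContDiff ℝ ∞ c) (hs : HasCompactSupport c) (m : ℕ) :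
    ∃ C : ℝ, ∀ (L : E4 × E4 →L[ℝ] E4), ‖L‖ ≤ 2 → ∀ x, ‖iteratedFDeriv ℝ m (c ∘ L) x‖ ≤ C := by
  obtain ⟨C, hC⟩ := EuK_bdd hc hs m
  refine ⟨|C| * 2 ^ m, fun L hL x => ?_⟩
  rw [L.iteratedFDeriv_comp_right hc x (EuK_le m)]
  refine (ContinuousMultilinearMap.norm_compContinuousLinearMap_le _ _).trans ?_
  rw [Finset.prod_const, Finset.card_univ, Fintype.card_fin]
  have h1 := (hC (L x)).trans (le_abs_self _)
  gcongr

theorem EuK_diff {c : E4 → ℂ} (hc : ContDiff ℝ ∞ c) (hs : HasCompactSupport c) (r : ℝ) (m : ℕ) :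
    ∃ C : ℝ, ∀ t : ℝ, |t| ≤ 1 → ∀ x : E4 × E4, ‖x.2‖ ≤ r →
      ‖iteratedFDeriv ℝ m (c ∘ EuK_L 0) x - iteratedFDeriv ℝ m (c ∘ EuK_L t) x‖ ≤ C * |t| := by
  obtain ⟨C, hC⟩ := EuK_bdd hc hs m
  obtain ⟨D, hD⟩ := EuK_bdd hc hs (m + 1)
  let Φ := ContinuousMultilinearMap.compContinuousLinearMapContinuousMultilinear ℝ
    (fun _ : Fin m => E4 × E4) (fun _ : Fin m => E4) ℂ
  refine ⟨|D| * r * 2 ^ m + ‖Φ‖ * m * 2 ^ (m - 1) * |C|, fun t ht x hx => ?_⟩
  have h0 : ‖EuK_L 0‖ ≤ 2 := EuK_L_le (by simp)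
  have h1 : ‖EuK_L t‖ ≤ 2 := EuK_L_le ht
  rw [(EuK_L 0).iteratedFDeriv_comp_right hc x (EuK_le m),
    (EuK_L t).iteratedFDeriv_comp_right hc x (EuK_le m)]
  set S := iteratedFDeriv ℝ m c (EuK_L 0 x) with hS
  set T := iteratedFDeriv ℝ m c (EuK_L t x) with hT
  have h2 : ‖S - T‖ ≤ |D| * (|t| * r) := by
    have h3 := convex_univ.norm_image_sub_le_of_norm_fderiv_le (𝕜 := ℝ)
      (f := iteratedFDeriv ℝ m c) (C := |D|)
      (fun y _ => hc.differentiable_iteratedFDeriv (by exact_mod_cast ENat.natCast_lt_top m) y)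
      (fun y _ => by rw [norm_fderiv_iteratedFDeriv]; exact (hD y).trans (le_abs_self _))
      (Set.mem_univ (EuK_L t x)) (Set.mem_univ (EuK_L 0 x))
    refine h3.trans (mul_le_mul_of_nonneg_left ?_ (abs_nonneg _))
    have h4 : EuK_L 0 x - EuK_L t x = t • x.2 := by
      change x.1 - (0 : ℝ) • x.2 - (x.1 - t • x.2) = _
      rw [zero_smul]
      abel
    rw [h4, norm_smul, Real.norm_eq_abs]
    exact mul_le_mul_of_nonneg_left hx (abs_nonneg _)
  have h3 : ‖(S - T).compContinuousLinearMap fun _ => EuK_L 0‖ ≤ |D| * (|t| * r) * 2 ^ m := by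
    refine (ContinuousMultilinearMap.norm_compContinuousLinearMap_le _ _).trans ?_
    rw [Finset.prod_const, Finset.card_univ, Fintype.card_fin]
    have h4 := (norm_nonneg _).trans h2
    gcongr
  have h4 : ‖Φ (fun _ => EuK_L 0) - Φ fun _ => EuK_L t‖ ≤ ‖Φ‖ * m * 2 ^ (m - 1) * |t| := by
    refine (Φ.norm_image_sub_le _ _).trans ?_
    rw [Fintype.card_fin]
    have h5 : max ‖fun _ : Fin m => EuK_L 0‖ ‖fun _ : Fin m => EuK_L t‖ ≤ 2 :=
      max_le ((pi_norm_le_iff_of_nonneg zero_le_two).2 fun _ => h0)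
        ((pi_norm_le_iff_of_nonneg zero_le_two).2 fun _ => h1)
    have h6 : ‖(fun _ : Fin m => EuK_L 0) - fun _ : Fin m => EuK_L t‖ ≤ |t| :=
      (pi_norm_le_iff_of_nonneg (abs_nonneg t)).2 fun _ => EuK_L_sub.trans (by rw [sub_zero])
    gcongr
  have h5 : ‖(Φ (fun _ => EuK_L 0) - Φ fun _ => EuK_L t) T‖ ≤
      ‖Φ‖ * m * 2 ^ (m - 1) * |t| * |C| :=
    (ContinuousLinearMap.le_opNorm _ _).trans
      (mul_le_mul h4 ((hC _).trans (le_abs_self _)) (norm_nonneg _) (by positivity))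
  have h6 : ((S.compContinuousLinearMap fun _ => EuK_L 0) -
      T.compContinuousLinearMap fun _ => EuK_L t) =
      ((S - T).compContinuousLinearMap fun _ => EuK_L 0) +
        (Φ (fun _ => EuK_L 0) - Φ fun _ => EuK_L t) T := by
    ext v
    change S _ - T _ = (S _ - T _) + (T _ - T _)
    exact (sub_add_sub_cancel _ _ _).symm
  rw [h6]
  refine (norm_add_le _ _).trans ((add_le_add h3 h5).trans_eq ?_)
  ring

theorem Ker.zero : Ker K r 0 :=
  ⟨fun _ => contDiff_const, fun m => ⟨0, fun n x => by simp⟩, fun _ _ _ h => absurd rfl h⟩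

theorem Ker.add (h : Ker K r k) (h' : Ker K r k') : Ker K r (k + k') := by
  refine ⟨fun n => (h.smooth n).add (h'.smooth n), fun m => ?_, fun n y z hne => ?_⟩
  · obtain ⟨C, hC⟩ := h.bdd m
    obtain ⟨D, hD⟩ := h'.bdd m
    refine ⟨C + D, fun n x => ?_⟩
    rw [Pi.add_apply, iteratedFDeriv_add_apply ((h.smooth n).of_le (EuK_le m)).contDiffAt
      ((h'.smooth n).of_le (EuK_le m)).contDiffAt]
    exact norm_add_le_of_le (hC n x) (hD n x)
  · by_cases h0 : k n (y, z) = 0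
    · refine h'.supp n y z fun h1 => hne ?_
      simp [h0, h1]
    · exact h.supp n y z h0

theorem Ker.neg (h : Ker K r k) : Ker K r (-k) := by
  refine ⟨fun n => (h.smooth n).neg, fun m => ?_,
    fun n y z hne => h.supp n y z (neg_ne_zero.1 hne)⟩
  obtain ⟨C, hC⟩ := h.bdd m
  refine ⟨C, fun n x => ?_⟩
  rw [Pi.neg_apply, iteratedFDeriv_neg_apply, norm_neg]
  exact hC n x

theorem Ker.conj (h : Ker K r k) : Ker K r fun n x => (starRingEnd ℂ) (k n x) := by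
  refine ⟨fun n => Complex.conjCLE.contDiff.comp (h.smooth n), fun m => ?_,
    fun n y z hne => h.supp n y z ((map_ne_zero _).1 hne)⟩
  obtain ⟨C, hC⟩ := h.bdd m
  exact ⟨C, fun n x => (Complex.conjLIE.norm_iteratedFDeriv_comp_left (k n) x m).trans_le (hC n x)⟩

theorem Ker.left (h : Ker K r k) {c : E4 → ℂ} (hc : ContDiff ℝ ∞ c) (hs : HasCompactSupport c) :
    Ker K r fun n x => c x.1 * k n x := by
  simp only [mul_comm (c _)]
  refine EuK_mul h (fun _ => hc.comp contDiff_fst) fun m => ?_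
  obtain ⟨C, hC⟩ := EuK_comp hc hs m
  exact ⟨C, fun _ x _ => hC (ContinuousLinearMap.fst ℝ E4 E4)
    ((ContinuousLinearMap.norm_fst_le ℝ E4 E4).trans one_le_two) x⟩

theorem Ker.right (h : Ker K r k) {c : E4 → ℂ} (hc : ContDiff ℝ ∞ c) (hs : HasCompactSupport c) :
    Ker K r fun n x => k n x * c (x.1 - ((n : ℝ) + 1)⁻¹ • x.2) := by
  refine EuK_mul h (fun n => hc.comp (EuK_L _).contDiff) fun m => ?_
  obtain ⟨C, hC⟩ := EuK_comp hc hs m
  exact ⟨C, fun n x _ => hC (EuK_L _) (EuK_L_le (EuK_t n)) x⟩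

theorem Ker.fderiv (hK : IsClosed K) (h : Ker K r k) (v : E4 × E4) :
    Ker K r fun n x => fderiv ℝ (k n) x v := by
  have h1 : ∀ n, ContDiff ℝ ∞ (_root_.fderiv ℝ (k n)) := fun n =>
    (contDiff_infty_iff_fderiv.1 (h.smooth n)).2
  refine ⟨fun n => (h1 n).clm_apply contDiff_const, fun m => ?_, fun n y z hne => ?_⟩
  · obtain ⟨C, hC⟩ := h.bdd (m + 1)
    refine ⟨‖v‖ * C, fun n x => ?_⟩
    refine (norm_iteratedFDeriv_clm_apply_const (h1 n).contDiffAt (EuK_le m)).trans ?_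
    rw [norm_iteratedFDeriv_fderiv]
    exact mul_le_mul_of_nonneg_left (hC n x) (norm_nonneg v)
  · have h2 : tsupport (k n) ⊆ {x | x.1 ∈ K ∧ ‖x.2‖ ≤ r} :=
      closure_minimal (fun x hx => h.supp n x.1 x.2 hx)
        ((hK.preimage continuous_fst).inter (isClosed_le continuous_snd.norm continuous_const))
    refine h2 (a := (y, z)) (support_fderiv_subset ℝ (f := k n) fun h3 => hne ?_)
    rw [h3, zero_apply]

theorem Ker.scale (h : Ker K r k) : Ker K r fun n x => (((n : ℝ) + 1)⁻¹ : ℝ) * k n x := by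
  refine ⟨fun n => contDiff_const.mul (h.smooth n), fun m => ?_,
    fun n y z hne => h.supp n y z (right_ne_zero_of_mul hne)⟩
  obtain ⟨C, hC⟩ := h.bdd m
  refine ⟨C, fun n x => ?_⟩
  simp only [← Complex.real_smul]
  rw [iteratedFDeriv_const_smul_apply' ((h.smooth n).of_le (EuK_le m)).contDiffAt, norm_smul,
    Real.norm_eq_abs]
  exact (mul_le_of_le_one_left (norm_nonneg _) (EuK_t n)).trans (hC n x)

/-- The difference quotient of a coefficient. -/
theorem Ker.diff (h : Ker K r k) {c : E4 → ℂ} (hc : ContDiff ℝ ∞ c) (hs : HasCompactSupport c) :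
    Ker K r fun n x => k n x * (((n : ℂ) + 1) * (c x.1 - c (x.1 - ((n : ℝ) + 1)⁻¹ • x.2))) := by
  refine EuK_mul h (fun n => contDiff_const.mul
    ((hc.comp contDiff_fst).sub (hc.comp (EuK_L _).contDiff))) fun m => ?_
  obtain ⟨C, hC⟩ := EuK_diff hc hs r m
  refine ⟨C, fun n x hx => ?_⟩
  have h0 : ContDiff ℝ m (c ∘ EuK_L 0) := (hc.of_le (EuK_le m)).comp (EuK_L _).contDiff
  have h1 : ContDiff ℝ m (c ∘ EuK_L ((n : ℝ) + 1)⁻¹) :=
    (hc.of_le (EuK_le m)).comp (EuK_L _).contDiff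
  have h2 : (fun x : E4 × E4 => ((n : ℂ) + 1) * (c x.1 - c (x.1 - ((n : ℝ) + 1)⁻¹ • x.2))) =
      ((n : ℝ) + 1) • (c ∘ EuK_L 0 - c ∘ EuK_L ((n : ℝ) + 1)⁻¹) := by
    funext x
    change _ = ((n : ℝ) + 1) • (c (x.1 - (0 : ℝ) • x.2) - c (x.1 - ((n : ℝ) + 1)⁻¹ • x.2))
    rw [zero_smul, sub_zero, Complex.real_smul]
    push_cast
    rfl
  have h3 : (0 : ℝ) < (n : ℝ) + 1 := by positivity
  have h4 : ContDiff ℝ m (c ∘ EuK_L 0 - c ∘ EuK_L ((n : ℝ) + 1)⁻¹) := h0.sub h1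
  rw [h2, iteratedFDeriv_const_smul_apply h4.contDiffAt,
    iteratedFDeriv_sub_apply h0.contDiffAt h1.contDiffAt, norm_smul, Real.norm_eq_abs,
    abs_of_pos h3]
  refine (mul_le_mul_of_nonneg_left (hC _ (EuK_t n) x hx) h3.le).trans_eq ?_
  rw [abs_of_pos (inv_pos.2 h3)]
  field_simp

theorem Ker.prod {c η : E4 → ℂ} (hK : IsCompact K) (hc : Test K c) (hη : ContDiff ℝ ∞ η)
    (hs : ∀ z, η z ≠ 0 → ‖z‖ ≤ r) : Ker K r fun _ x => c x.1 * η x.2 := by
  have h1 : ContDiff ℝ ∞ fun x : E4 × E4 => c x.1 * η x.2 :=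
    (hc.1.comp contDiff_fst).mul (hη.comp contDiff_snd)
  have h2 : ∀ y z, c y * η z ≠ 0 → y ∈ K ∧ ‖z‖ ≤ r := fun y z h =>
    ⟨by_contra fun h3 => left_ne_zero_of_mul h (hc.2 y h3), hs z (right_ne_zero_of_mul h)⟩
  refine ⟨fun _ => h1, fun m => ?_, fun _ => h2⟩
  have h3 : HasCompactSupport fun x : E4 × E4 => c x.1 * η x.2 :=
    HasCompactSupport.intro (hK.prod (isCompact_closedBall (0 : E4) r)) fun x hx =>
      by_contra fun h4 => hx ⟨(h2 _ _ h4).1, mem_closedBall_zero_iff.2 (h2 _ _ h4).2⟩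
  obtain ⟨C, hC⟩ := EuK_bdd h1 h3 m
  exact ⟨C, fun _ => hC⟩

end SW4
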