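import Pool.Agent.P.MP_0a0487_an.SW.EuK

/-! Euclidean smoothing operators. -/

set_option autoImplicit false
set_option linter.unusedSectionVars false

noncomputable section

namespace SW4

open scoped ComplexOrder ContDiff
open Filter Topology

variable {P A : Type} [TopologicalSpace P] [CompactSpace P] [CommRing A] [StarRing A] [Algebra ℂ A]
  [StarModule ℂ A] {B : Base P A}

open MeasureTheory

variable {K : Set E4} {r : ℝ} {k k' : ℕ → E4 × E4 → ℂ}

theorem eum_t_pos (n : ℕ) : (0 : ℝ) < ((n : ℝ) + 1)⁻¹ := by positivity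

theorem eum_t_le (n : ℕ) : ((n : ℝ) + 1)⁻¹ ≤ 1 :=
  inv_le_one_of_one_le₀ (by have : (0 : ℝ) ≤ n := Nat.cast_nonneg n; linarith)

theorem eum_norm_le (n : ℕ) {z : E4} (hz : ‖z‖ ≤ r) : ‖((n : ℝ) + 1)⁻¹ • z‖ ≤ r := by
  rw [norm_smul, Real.norm_of_nonneg (eum_t_pos n).le]
  have := eum_t_le n
  have := norm_nonneg z
  nlinarith

theorem eum_cs {F : E4 × E4 → ℂ} (hs : ∀ y z, F (y, z) ≠ 0 → ‖z‖ ≤ r) (y : E4) :
    HasCompactSupport fun z => F (y, z) := by
  refine HasCompactSupport.intro (isCompact_closedBall (0 : E4) r) fun z hz => ?_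
  by_contra h
  exact hz (by simpa using hs y z h)

theorem eum_int {F : E4 × E4 → ℂ} (hF : Continuous F) (hs : ∀ y z, F (y, z) ≠ 0 → ‖z‖ ≤ r)
    (y : E4) : Integrable fun z => F (y, z) :=
  (hF.comp (Continuous.prodMk_right y)).integrable_of_hasCompactSupport (eum_cs hs y)

theorem eum_smooth {F : E4 × E4 → ℂ} (hF : ContDiff ℝ ∞ F)
    (hs : ∀ y z, F (y, z) ≠ 0 → ‖z‖ ≤ r) : ContDiff ℝ ∞ fun y => ∫ z, F (y, z) := by
  have h := contDiffOn_convolution_right_with_param_comp (μ := (volume : Measure E4)) (n := ⊤)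
    (ContinuousLinearMap.lsmul ℝ ℝ : ℝ →L[ℝ] ℂ →L[ℝ] ℂ) (s := (Set.univ : Set E4))
    (v := fun _ => (0 : E4)) contDiffOn_const (f := fun _ => (1 : ℝ))
    (g := fun y z => F (y, -z)) (k := Metric.closedBall (0 : E4) r) isOpen_univ
    (isCompact_closedBall _ _) (fun p x _ hx => by
      by_contra h
      exact hx (by simpa using hs p (-x) h))
    (continuous_const.locallyIntegrable)
    ((hF.comp (contDiff_fst.prodMk contDiff_snd.neg)).contDiffOn)
  rw [contDiffOn_univ] at h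
  have e : (fun y => ∫ z, F (y, z)) = fun x : E4 =>
      (convolution (fun _ : E4 => (1 : ℝ)) (fun z => F (x, -z))
        (ContinuousLinearMap.lsmul ℝ ℝ : ℝ →L[ℝ] ℂ →L[ℝ] ℂ) volume) 0 := by
    funext y
    simp [convolution_def]
  rw [e]
  exact h

theorem eum_fz {F : E4 × E4 → ℂ} (hs : ∀ y z, F (y, z) ≠ 0 → ‖z‖ ≤ r) (y z : E4)
    (h : _root_.fderiv ℝ F (y, z) ≠ 0) : ‖z‖ ≤ r := by
  by_contra hz
  apply h
  have ho : IsOpen {x : E4 × E4 | r < ‖x.2‖} := isOpen_lt continuous_const continuous_snd.norm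
  have : F =ᶠ[𝓝 (y, z)] fun _ => 0 := by
    filter_upwards [ho.mem_nhds (show (y, z) ∈ {x : E4 × E4 | r < ‖x.2‖} from not_le.1 hz)]
      with x hx
    by_contra h0
    exact absurd (hs x.1 x.2 h0) (not_le.2 hx)
  rw [this.fderiv_eq]
  simp

theorem eum_deriv {F : E4 × E4 → ℂ} (hF : ContDiff ℝ ∞ F)
    (hs : ∀ y z, F (y, z) ≠ 0 → ‖z‖ ≤ r) (y v : E4) :
    _root_.fderiv ℝ (fun y => ∫ z, F (y, z)) y v = ∫ z, _root_.fderiv ℝ F (y, z) (v, 0) := by
  have hc : Continuous (_root_.fderiv ℝ F) := hF.continuous_fderiv (by simp)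
  have hd : Differentiable ℝ F := hF.differentiable (by simp)
  let F' : E4 → E4 → E4 →L[ℝ] ℂ := fun x z =>
    (_root_.fderiv ℝ F (x, z)).comp (ContinuousLinearMap.inl ℝ E4 E4)
  have hc' : Continuous fun x : E4 × E4 => F' x.1 x.2 := hc.clm_comp continuous_const
  obtain ⟨C, hC⟩ := ((isCompact_closedBall y 1).prod
    (isCompact_closedBall (0 : E4) r)).exists_bound_of_continuousOn hc'.continuousOn
  have hz : ∀ x z, z ∉ Metric.closedBall (0 : E4) r → F' x z = 0 := fun x z hz => by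
    have : _root_.fderiv ℝ F (x, z) = 0 := by
      by_contra h
      exact hz (by simpa using eum_fz hs x z h)
    simp [F', this]
  have hi : Integrable (F' y) :=
    (hc'.comp (Continuous.prodMk_right y)).integrable_of_hasCompactSupport
      (HasCompactSupport.intro (isCompact_closedBall (0 : E4) r) (hz y))
  have H := hasFDerivAt_integral_of_dominated_of_fderiv_le (𝕜 := ℝ) (μ := (volume : Measure E4))
    (F := fun x z => F (x, z)) (F' := F') (x₀ := y) (s := Metric.closedBall y 1)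
    (bound := (Metric.closedBall (0 : E4) r).indicator fun _ => C)
    (Metric.closedBall_mem_nhds y one_pos)
    (Eventually.of_forall fun x => (eum_int hF.continuous hs x).aestronglyMeasurable)
    (eum_int hF.continuous hs y) hi.aestronglyMeasurable
    (Eventually.of_forall fun z x hx => by
      by_cases h : z ∈ Metric.closedBall (0 : E4) r
      · rw [Set.indicator_of_mem h]
        exact hC (x, z) ⟨hx, h⟩
      · rw [Set.indicator_of_notMem h, hz x z h, norm_zero])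
    ((integrable_indicator_iff measurableSet_closedBall).2
      (integrableOn_const (measure_closedBall_lt_top.ne)))
    (Eventually.of_forall fun z x _ =>
      (hd (x, z)).hasFDerivAt.comp x (hasFDerivAt_prodMk_left x z))
  rw [H.fderiv, ContinuousLinearMap.integral_apply hi]
  simp [F']

theorem eum_ibp {F : E4 × E4 → ℂ} (hF : ContDiff ℝ ∞ F)
    (hs : ∀ y z, F (y, z) ≠ 0 → ‖z‖ ≤ r) (y v : E4) :
    ∫ z, _root_.fderiv ℝ F (y, z) (0, v) = 0 := by
  have hc : Continuous (_root_.fderiv ℝ F) := hF.continuous_fderiv (by simp)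
  have hd : Differentiable ℝ F := hF.differentiable (by simp)
  have e : ∀ z, _root_.fderiv ℝ (fun z => F (y, z)) z v = _root_.fderiv ℝ F (y, z) (0, v) := by
    intro z
    have := ((hd (y, z)).hasFDerivAt.comp z (hasFDerivAt_prodMk_right y z)).fderiv
    have e2 : (fun z => F (y, z)) = F ∘ fun z => (y, z) := rfl
    rw [e2, this]
    simp
  have hi : Integrable fun z => _root_.fderiv ℝ F (y, z) (0, v) :=
    eum_int (F := fun x => _root_.fderiv ℝ F x (0, v)) (hc.clm_apply continuous_const)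
      (fun y z h => eum_fz hs y z fun h0 => h (by simp [h0])) y
  have H := integral_mul_fderiv_eq_neg_fderiv_mul_of_integrable (μ := (volume : Measure E4))
    (f := fun _ : E4 => (1 : ℂ)) (g := fun z => F (y, z)) (v := v) (by simp)
    (by simpa [e] using hi) (by simpa using eum_int hF.continuous hs y)
    (fun _ _ => differentiableAt_const _)
    (fun z _ => (hd (y, z)).comp z (hasFDerivAt_prodMk_right y z).differentiableAt)
  simpa [e] using H

theorem eum_supp (h : Ker K r k) (n : ℕ) (φ : E4 × E4 → ℂ) (y z : E4)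
    (h0 : k n (y, z) * φ (y, z) ≠ 0) : ‖z‖ ≤ r := (h.supp n y z (left_ne_zero_of_mul h0)).2

theorem eum_cshift (n : ℕ) : Continuous fun x : E4 × E4 => x.1 - ((n : ℝ) + 1)⁻¹ • x.2 := by
  fun_prop

theorem eum_sshift (n : ℕ) : ContDiff ℝ ∞ fun x : E4 × E4 => x.1 - ((n : ℝ) + 1)⁻¹ • x.2 := by
  fun_prop

theorem eum_kint (h : Ker K r k) (n : ℕ) {φ : E4 → ℂ} (hφ : Continuous φ) (y : E4) :
    Integrable fun z => k n (y, z) * φ (y - ((n : ℝ) + 1)⁻¹ • z) :=
  eum_int (F := fun x => k n x * φ (x.1 - ((n : ℝ) + 1)⁻¹ • x.2))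
    ((h.smooth n).continuous.mul (hφ.comp (eum_cshift n)))
    (eum_supp h n fun x => φ (x.1 - ((n : ℝ) + 1)⁻¹ • x.2)) y

theorem eum_fd (h : Ker K r k) (n : ℕ) {φ : E4 → ℂ} (hφ : ContDiff ℝ ∞ φ) (x : E4 × E4)
    (v w : E4) :
    _root_.fderiv ℝ (fun x : E4 × E4 => k n x * φ (x.1 - ((n : ℝ) + 1)⁻¹ • x.2)) x (v, w) =
      _root_.fderiv ℝ (k n) x (v, w) * φ (x.1 - ((n : ℝ) + 1)⁻¹ • x.2) +
        k n x * _root_.fderiv ℝ φ (x.1 - ((n : ℝ) + 1)⁻¹ • x.2) (v - ((n : ℝ) + 1)⁻¹ • w) := by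
  have h1 := ((h.smooth n).differentiable (by simp) x).hasFDerivAt
  have h2 : HasFDerivAt (fun x : E4 × E4 => x.1 - ((n : ℝ) + 1)⁻¹ • x.2)
      (ContinuousLinearMap.fst ℝ E4 E4 - ((n : ℝ) + 1)⁻¹ • ContinuousLinearMap.snd ℝ E4 E4) x :=
    (ContinuousLinearMap.fst ℝ E4 E4 -
      ((n : ℝ) + 1)⁻¹ • ContinuousLinearMap.snd ℝ E4 E4).hasFDerivAt
  have h3 := (hφ.differentiable (by simp) (x.1 - ((n : ℝ) + 1)⁻¹ • x.2)).hasFDerivAt.comp x h2
  have h4 := (h1.mul h3).fderiv
  have e : (fun x : E4 × E4 => k n x * φ (x.1 - ((n : ℝ) + 1)⁻¹ • x.2)) =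
      k n * (φ ∘ fun x : E4 × E4 => x.1 - ((n : ℝ) + 1)⁻¹ • x.2) := rfl
  rw [e, h4]
  simp only [add_apply, smul_apply, smul_eq_mul,
    ContinuousLinearMap.comp_apply, sub_apply, ContinuousLinearMap.coe_fst',
    ContinuousLinearMap.coe_snd', Function.comp_apply]
  ring

theorem eum_pd_cont {φ : E4 → ℂ} (hφ : ContDiff ℝ ∞ φ) (j : Fin 4) : Continuous (pd j φ) :=
  (hφ.continuous_fderiv (by simp)).clm_apply continuous_const

theorem eum_pd (hK : IsClosed K) (h : Ker K r k) (n : ℕ) {φ : E4 → ℂ} (hφ : ContDiff ℝ ∞ φ)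
    (j : Fin 4) (y : E4) :
    pd j (kop k n φ) y =
      kop (fun n x => _root_.fderiv ℝ (k n) x (Pi.single j 1, 0)) n φ y + kop k n (pd j φ) y := by
  have H := eum_deriv (F := fun x => k n x * φ (x.1 - ((n : ℝ) + 1)⁻¹ • x.2))
    ((h.smooth n).mul (hφ.comp (eum_sshift n)))
    (eum_supp h n fun x => φ (x.1 - ((n : ℝ) + 1)⁻¹ • x.2)) y (Pi.single j 1)
  simp only [eum_fd h n hφ, smul_zero, sub_zero] at H
  exact H.trans (integral_add (eum_kint (h.fderiv hK _) n hφ.continuous y)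
    (eum_kint h n (eum_pd_cont hφ j) y))

theorem eum_parts (hK : IsClosed K) (h : Ker K r k) (n : ℕ) {φ : E4 → ℂ} (hφ : ContDiff ℝ ∞ φ)
    (j : Fin 4) (y : E4) :
    kop k n (pd j φ) y =
      ((n : ℂ) + 1) * kop (fun n x => _root_.fderiv ℝ (k n) x (0, Pi.single j 1)) n φ y := by
  have H := eum_ibp (F := fun x => k n x * φ (x.1 - ((n : ℝ) + 1)⁻¹ • x.2))
    ((h.smooth n).mul (hφ.comp (eum_sshift n)))
    (eum_supp h n fun x => φ (x.1 - ((n : ℝ) + 1)⁻¹ • x.2)) y (Pi.single j 1)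
  have e : ∀ z : E4, k n (y, z) * _root_.fderiv ℝ φ (y - ((n : ℝ) + 1)⁻¹ • z)
      (0 - ((n : ℝ) + 1)⁻¹ • Pi.single j 1) =
      -((n : ℂ) + 1)⁻¹ * (k n (y, z) * pd j φ (y - ((n : ℝ) + 1)⁻¹ • z)) := by
    intro z
    rw [zero_sub, map_neg, map_smul]
    simp only [pd, Complex.real_smul]
    push_cast
    ring
  simp only [eum_fd h n hφ, e] at H
  rw [integral_add (eum_kint (h.fderiv hK _) n hφ.continuous y)
    ((eum_kint h n (eum_pd_cont hφ j) y).const_mul _), integral_const_mul] at H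
  have hn : ((n : ℂ) + 1) ≠ 0 := by exact_mod_cast Nat.succ_ne_zero n
  have H2 : kop (fun n x => _root_.fderiv ℝ (k n) x (0, Pi.single j 1)) n φ y +
      -((n : ℂ) + 1)⁻¹ * kop k n (pd j φ) y = 0 := H
  field_simp at H2
  linear_combination -H2

theorem eum_sum {ι : Type} (s : Finset ι) {q : ι → ℕ → E4 × E4 → ℂ} (h : ∀ i, Ker K r (q i)) :
    Ker K r (∑ i ∈ s, q i) := by
  classical
  induction s using Finset.induction_on with
  | empty => simpa using Ker.zero
  | insert a s ha ih => rw [Finset.sum_insert ha]; exact (h a).add ih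

theorem eum_kop_sum {ι : Type} (s : Finset ι) {q : ι → ℕ → E4 × E4 → ℂ}
    (h : ∀ i, Ker K r (q i)) (n : ℕ) {φ : E4 → ℂ} (hφ : Continuous φ) (y : E4) :
    kop (∑ i ∈ s, q i) n φ y = ∑ i ∈ s, kop (q i) n φ y := by
  simp only [kop, Finset.sum_apply, Finset.sum_mul]
  exact integral_finsetSum s fun i _ => eum_kint (h i) n hφ y

theorem eum_sq {μ : Measure E4} [IsFiniteMeasure μ] {g : E4 → ℝ} (h1 : Integrable g μ)
    (h2 : Integrable (fun z => g z ^ 2) μ) :
    (∫ z, g z ∂μ) ^ 2 ≤ μ.real Set.univ * ∫ z, g z ^ 2 ∂μ := by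
  set V := μ.real Set.univ with hV
  set S := ∫ z, g z ∂μ with hS
  rcases (measureReal_nonneg (μ := μ) (s := Set.univ)).eq_or_lt with h0 | h0
  · have : μ = 0 := by
      rw [← Measure.measure_univ_eq_zero]
      exact (measureReal_eq_zero_iff).1 h0.symm
    simp [hS, hV, this]
  · have H : 0 ≤ ∫ z, (V * g z - S) ^ 2 ∂μ := integral_nonneg fun z => sq_nonneg _
    have e : (fun z => (V * g z - S) ^ 2) =
        fun z => (V ^ 2 * g z ^ 2 - 2 * V * S * g z) + S ^ 2 := by
      funext z; ring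
    have h3 : Integrable (fun z => V ^ 2 * g z ^ 2 - 2 * V * S * g z) μ :=
      (h2.const_mul _).sub (h1.const_mul _)
    rw [e, integral_add h3 (integrable_const _),
      integral_sub (h2.const_mul _) (h1.const_mul _), integral_const_mul, integral_const_mul,
      integral_const, smul_eq_mul, ← hS, ← hV] at H
    have : 0 ≤ V * (V * ∫ z, g z ^ 2 ∂μ - S ^ 2) := by nlinarith
    have := (mul_nonneg_iff_of_pos_left h0).1 this
    linarith

theorem eum_sqint {φ : E4 → ℂ} (hφ : Continuous φ) (hs : HasCompactSupport φ) :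
    Integrable fun y => ‖φ y‖ ^ 2 := by
  have c1 : Continuous fun y => ‖φ y‖ ^ 2 := hφ.norm.pow 2
  have c2 : HasCompactSupport fun y => ‖φ y‖ ^ 2 :=
    HasCompactSupport.intro hs.isCompact fun y hy => by
      rw [image_eq_zero_of_notMem_tsupport hy]; simp
  exact c1.integrable_of_hasCompactSupport c2

theorem Ker.kop_test (h : Ker K r k) (n : ℕ) {φ : E4 → ℂ} (hφ : ContDiff ℝ ∞ φ) :
    Test K (kop k n φ) := by
  refine ⟨eum_smooth (F := fun x => k n x * φ (x.1 - ((n : ℝ) + 1)⁻¹ • x.2))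
    ((h.smooth n).mul (hφ.comp (eum_sshift n)))
    (eum_supp h n fun x => φ (x.1 - ((n : ℝ) + 1)⁻¹ • x.2)), fun y hy => ?_⟩
  have : ∀ z, k n (y, z) = 0 := fun z => by
    by_contra h0
    exact hy (h.supp n y z h0).1
  simp [kop, this]

theorem Ker.kop_add (h : Ker K r k) (n : ℕ) {φ φ' : E4 → ℂ} (hφ : Continuous φ)
    (hφ' : Continuous φ') : kop k n (φ + φ') = kop k n φ + kop k n φ' := by
  funext y
  simp only [kop, Pi.add_apply, mul_add]
  exact integral_add (eum_kint h n hφ y) (eum_kint h n hφ' y)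

theorem kop_smul (n : ℕ) (c : ℂ) (φ : E4 → ℂ) : kop k n (c • φ) = c • kop k n φ := by
  funext y
  simp only [kop, Pi.smul_apply, smul_eq_mul]
  rw [← integral_const_mul]
  exact integral_congr_ae (Eventually.of_forall fun z => by ring)

theorem Ker.add_kop (h : Ker K r k) (h' : Ker K r k') (n : ℕ) {φ : E4 → ℂ} (hφ : Continuous φ) :
    kop (k + k') n φ = kop k n φ + kop k' n φ := by
  funext y
  simp only [kop, Pi.add_apply, add_mul]
  exact integral_add (eum_kint h n hφ y) (eum_kint h' n hφ y)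

theorem Ker.kop_congr (h : Ker K r k) (n : ℕ) {φ φ' : E4 → ℂ}
    (e : ∀ y ∈ Metric.cthickening r K, φ y = φ' y) : kop k n φ = kop k n φ' := by
  funext y
  refine integral_congr_ae (Eventually.of_forall fun z => ?_)
  by_cases h0 : k n (y, z) = 0
  · simp [h0]
  · obtain ⟨hy, hz⟩ := h.supp n y z h0
    have : y - ((n : ℝ) + 1)⁻¹ • z ∈ Metric.cthickening r K :=
      Metric.mem_cthickening_of_dist_le _ y r K hy (by
        rw [dist_eq_norm, sub_sub_cancel_left, norm_neg]; exact eum_norm_le n hz)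
    simp only [e _ this]

theorem Ker.kop_bdd (h : Ker K r k) : ∃ C : ℝ, 0 ≤ C ∧ ∀ n φ, Continuous φ →
    HasCompactSupport φ → e0 (kop k n φ) ≤ C * e0 φ := by
  obtain ⟨C, hC⟩ := h.bdd 0
  simp only [norm_iteratedFDeriv_zero] at hC
  have hC0 : 0 ≤ C := (norm_nonneg _).trans (hC 0 0)
  let μ : Measure E4 := volume.restrict (Metric.closedBall (0 : E4) r)
  have : IsFiniteMeasure μ := ⟨by simpa [μ] using measure_closedBall_lt_top⟩
  set V := μ.real Set.univ with hV
  have hV0 : 0 ≤ V := measureReal_nonneg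
  refine ⟨C * V, mul_nonneg hC0 hV0, fun n φ hφ hs => ?_⟩
  have hq := eum_sqint hφ hs
  have hcont : Continuous fun x : E4 × E4 => φ (x.1 - ((n : ℝ) + 1)⁻¹ • x.2) :=
    hφ.comp (eum_cshift n)
  have hprod : Integrable (fun x : E4 × E4 => ‖φ (x.1 - ((n : ℝ) + 1)⁻¹ • x.2)‖ ^ 2)
      (volume.prod μ) := by
    have c2 : Continuous fun x : E4 × E4 => ‖φ (x.1 - ((n : ℝ) + 1)⁻¹ • x.2)‖ ^ 2 :=
      hcont.norm.pow 2
    refine (integrable_prod_iff' c2.aestronglyMeasurable).2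
      ⟨Eventually.of_forall fun z => hq.comp_sub_right (((n : ℝ) + 1)⁻¹ • z), ?_⟩
    have : (fun z : E4 => ∫ y : E4, ‖‖φ (y - ((n : ℝ) + 1)⁻¹ • z)‖ ^ 2‖) =
        fun _ => ∫ y : E4, ‖‖φ y‖ ^ 2‖ := by
      funext z
      exact integral_sub_right_eq_self (fun y => ‖‖φ y‖ ^ 2‖) _
    simp only [this]
    exact integrable_const _
  have hsw : ∫ y, ∫ z, ‖φ (y - ((n : ℝ) + 1)⁻¹ • z)‖ ^ 2 ∂μ = V * ∫ y, ‖φ y‖ ^ 2 := by
    rw [integral_integral_swap hprod]
    have : (fun z : E4 => ∫ y : E4, ‖φ (y - ((n : ℝ) + 1)⁻¹ • z)‖ ^ 2) =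
        fun _ => ∫ y : E4, ‖φ y‖ ^ 2 := by
      funext z
      exact integral_sub_right_eq_self (fun y => ‖φ y‖ ^ 2) _
    rw [this, integral_const, smul_eq_mul]
  have hpt : ∀ y, ‖kop k n φ y‖ ^ 2 ≤
      C ^ 2 * V * ∫ z, ‖φ (y - ((n : ℝ) + 1)⁻¹ • z)‖ ^ 2 ∂μ := by
    intro y
    have c1 : Continuous fun z : E4 => ‖φ (y - ((n : ℝ) + 1)⁻¹ • z)‖ :=
      (hcont.comp (Continuous.prodMk_right y)).norm
    have i1 : Integrable (fun z : E4 => ‖φ (y - ((n : ℝ) + 1)⁻¹ • z)‖) μ :=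
      c1.continuousOn.integrableOn_compact (isCompact_closedBall _ _)
    have i2 : Integrable (fun z : E4 => ‖φ (y - ((n : ℝ) + 1)⁻¹ • z)‖ ^ 2) μ :=
      (c1.pow 2).continuousOn.integrableOn_compact (isCompact_closedBall _ _)
    have e1 : kop k n φ y = ∫ z, k n (y, z) * φ (y - ((n : ℝ) + 1)⁻¹ • z) ∂μ := by
      refine (setIntegral_eq_integral_of_forall_compl_eq_zero fun z hz => ?_).symm
      have : k n (y, z) = 0 := by
        by_contra h0
        exact hz (by simpa using (h.supp n y z h0).2)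
      simp [this]
    have e2 : ‖kop k n φ y‖ ≤ C * ∫ z, ‖φ (y - ((n : ℝ) + 1)⁻¹ • z)‖ ∂μ := by
      rw [e1, ← integral_const_mul]
      refine norm_integral_le_of_norm_le (i1.const_mul C) (Eventually.of_forall fun z => ?_)
      rw [norm_mul]
      exact mul_le_mul_of_nonneg_right (hC n _) (norm_nonneg _)
    have e3 := eum_sq i1 i2
    calc ‖kop k n φ y‖ ^ 2 ≤ (C * ∫ z, ‖φ (y - ((n : ℝ) + 1)⁻¹ • z)‖ ∂μ) ^ 2 :=
          pow_le_pow_left₀ (norm_nonneg _) e2 2
      _ = C ^ 2 * (∫ z, ‖φ (y - ((n : ℝ) + 1)⁻¹ • z)‖ ∂μ) ^ 2 := by ring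
      _ ≤ _ := by
          rw [mul_assoc]
          exact mul_le_mul_of_nonneg_left e3 (sq_nonneg _)
  have hle : ∫ y, ‖kop k n φ y‖ ^ 2 ≤ (C * V) ^ 2 * ∫ y, ‖φ y‖ ^ 2 := by
    calc ∫ y, ‖kop k n φ y‖ ^ 2
        ≤ ∫ y, C ^ 2 * V * ∫ z, ‖φ (y - ((n : ℝ) + 1)⁻¹ • z)‖ ^ 2 ∂μ :=
          integral_mono_of_nonneg (Eventually.of_forall fun y => sq_nonneg _)
            (hprod.integral_prod_left.const_mul _) (Eventually.of_forall hpt)
      _ = _ := by rw [integral_const_mul, hsw]; ring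
  unfold e0
  refine (Real.sqrt_le_sqrt hle).trans (le_of_eq ?_)
  rw [Real.sqrt_mul (sq_nonneg _), Real.sqrt_sq (mul_nonneg hC0 hV0)]

/-- A derivative costs one power of `n + 1`. -/
theorem Ker.exists_der (hK : IsClosed K) (h : Ker K r k) {v : Fin 4 → E4 → ℂ}
    (hv : ∀ j, ContDiff ℝ ∞ (v j)) (hs : ∀ j, HasCompactSupport (v j)) :
    ∃ k', Ker K r k' ∧ ∀ (n : ℕ) φ, ContDiff ℝ ∞ φ → ∀ y,
      ((n : ℂ) + 1) * kop k' n φ y = ∑ j, v j y * pd j (kop k n φ) y := by
  have hq := fun j : Fin 4 => (((h.fderiv hK (Pi.single j 1, 0)).scale).add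
    (h.fderiv hK (0, Pi.single j 1))).left (hv j) (hs j)
  refine ⟨_, eum_sum Finset.univ hq, fun n φ hφ y => ?_⟩
  rw [eum_kop_sum _ hq n hφ.continuous, Finset.mul_sum]
  refine Finset.sum_congr rfl fun j _ => ?_
  rw [eum_pd hK h n hφ, eum_parts hK h n hφ]
  have hn : ((n : ℂ) + 1) ≠ 0 := by exact_mod_cast Nat.succ_ne_zero n
  simp only [kop, Pi.add_apply]
  rw [← integral_const_mul, ← integral_const_mul, ← integral_add
    (eum_kint (h.fderiv hK _) n hφ.continuous y)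
    ((eum_kint (h.fderiv hK _) n hφ.continuous y).const_mul _), ← integral_const_mul]
  refine integral_congr_ae (Eventually.of_forall fun z => ?_)
  push_cast
  field_simp

/-- Commutators with vector fields. -/
theorem Ker.exists_ad (hK : IsClosed K) (h : Ker K r k) {v : Fin 4 → E4 → ℂ}
    (hv : ∀ j, ContDiff ℝ ∞ (v j)) (hs : ∀ j, HasCompactSupport (v j)) :
    ∃ k', Ker K r k' ∧ ∀ n φ, ContDiff ℝ ∞ φ → ∀ y,
      kop k' n φ y = ∑ j, v j y * pd j (kop k n φ) y -
        kop k n (fun x => ∑ j, v j x * pd j φ x) y := by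
  have hq := fun j : Fin 4 => ((h.fderiv hK (Pi.single j 1, 0)).left (hv j) (hs j)).add
    ((h.diff (hv j) (hs j)).fderiv hK (0, Pi.single j 1))
  refine ⟨_, eum_sum Finset.univ hq, fun n φ hφ y => ?_⟩
  have hc : ∀ j, Continuous fun x => v j x * pd j φ x := fun j =>
    (hv j).continuous.mul (eum_pd_cont hφ j)
  have e : kop k n (fun x => ∑ j, v j x * pd j φ x) y =
      ∑ j, kop k n (fun x => v j x * pd j φ x) y := by
    simp only [kop, Finset.mul_sum]
    exact integral_finsetSum _ fun j _ => eum_kint h n (hc j) y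
  rw [eum_kop_sum _ hq n hφ.continuous, e, ← Finset.sum_sub_distrib]
  refine Finset.sum_congr rfl fun j _ => ?_
  have hn : ((n : ℂ) + 1) ≠ 0 := by exact_mod_cast Nat.succ_ne_zero n
  have e1 := eum_parts hK (h.diff (hv j) (hs j)) n hφ j y
  rw [Ker.add_kop ((h.fderiv hK _).left (hv j) (hs j)) ((h.diff (hv j) (hs j)).fderiv hK _) n
    hφ.continuous, eum_pd hK h n hφ, Pi.add_apply]
  have e2 : kop (fun n x => v j x.1 * _root_.fderiv ℝ (k n) x (Pi.single j 1, 0)) n φ y =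
      v j y * kop (fun n x => _root_.fderiv ℝ (k n) x (Pi.single j 1, 0)) n φ y := by
    simp only [kop]
    rw [← integral_const_mul]
    exact integral_congr_ae (Eventually.of_forall fun z => by ring)
  have e3 : kop (fun n x => k n x *
      (((n : ℂ) + 1) * (v j x.1 - v j (x.1 - ((n : ℝ) + 1)⁻¹ • x.2)))) n (pd j φ) y =
      ((n : ℂ) + 1) * (v j y * kop k n (pd j φ) y - kop k n (fun x => v j x * pd j φ x) y) := by
    simp only [kop]
    rw [← integral_const_mul, ← integral_sub ((eum_kint h n (eum_pd_cont hφ j) y).const_mul _)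
      (eum_kint h n (hc j) y), ← integral_const_mul]
    exact integral_congr_ae (Eventually.of_forall fun z => by ring)
  rw [e3] at e1
  rw [e2, ← mul_left_cancel₀ hn e1]
  ring

theorem exists_unit {r : ℝ} (hr : 0 < r) : ∃ η : E4 → ℂ, ContDiff ℝ ∞ η ∧
    (∀ z, η z ≠ 0 → ‖z‖ ≤ r) ∧ ∫ z, η z = 1 := by
  let f : ContDiffBump (0 : E4) := ⟨r / 2, r, by positivity, by linarith⟩
  refine ⟨fun z => (f.normed volume z : ℝ), Complex.ofRealCLM.contDiff.comp f.contDiff_normed,
    fun z hz => ?_, ?_⟩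
  · have : z ∈ Function.support (f.normed volume) := fun h0 => hz (by simp [h0])
    rw [f.support_normed_eq] at this
    exact (mem_ball_zero_iff.1 this).le
  · simp only []
    rw [integral_complex_ofReal, f.integral_normed]
    simp

theorem kop_lim {c η : E4 → ℂ} (hK : IsCompact K) (hc : Test K c) (hη : ContDiff ℝ ∞ η)
    (hs : ∀ z, η z ≠ 0 → ‖z‖ ≤ r) (h1 : ∫ z, η z = 1) {φ : E4 → ℂ} (hφ : Continuous φ) :
    Tendsto (fun n => e0 fun y => kop (fun _ x => c x.1 * η x.2) n φ y - c y * φ y) atTop (𝓝 0) := by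
  have hηi : Integrable η := eum_int (F := fun x => η x.2) (hη.continuous.comp continuous_snd)
    (fun _ z => hs z) 0
  have hq := eum_sqint hc.1.continuous (HasCompactSupport.intro hK hc.2)
  set M := ∫ z, ‖η z‖ with hM
  have hM0 : 0 ≤ M := integral_nonneg fun z => norm_nonneg _
  have he0 : 0 ≤ e0 c := Real.sqrt_nonneg _
  have huc := (hK.cthickening (r := r)).uniformContinuousOn_of_continuous hφ.continuousOn
  rw [Metric.uniformContinuousOn_iff] at huc
  rw [Metric.tendsto_atTop]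
  intro ε hε
  obtain ⟨δ, hδ, hd⟩ := huc (ε / (M * e0 c + 1)) (by positivity)
  obtain ⟨N, hN⟩ := exists_nat_gt (|r| / δ)
  refine ⟨N, fun n hn => ?_⟩
  set ε' := ε / (M * e0 c + 1) with hε'
  have hε0 : 0 < ε' := by positivity
  have hpt : ∀ y, ‖kop (fun _ x => c x.1 * η x.2) n φ y - c y * φ y‖ ^ 2 ≤
      (M * ε') ^ 2 * ‖c y‖ ^ 2 := by
    intro y
    by_cases hy : y ∈ K
    · have i1 : Integrable fun z => η z * φ (y - ((n : ℝ) + 1)⁻¹ • z) :=
        eum_int (F := fun x => η x.2 * φ (x.1 - ((n : ℝ) + 1)⁻¹ • x.2))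
          ((hη.continuous.comp continuous_snd).mul (hφ.comp (eum_cshift n)))
          (fun _ z h0 => hs z (left_ne_zero_of_mul h0)) y
      have e1 : kop (fun _ x => c x.1 * η x.2) n φ y - c y * φ y =
          c y * ∫ z, η z * (φ (y - ((n : ℝ) + 1)⁻¹ • z) - φ y) := by
        simp only [kop, mul_sub, mul_assoc]
        rw [integral_const_mul, integral_sub i1 (hηi.mul_const _), integral_mul_const, h1]
        ring
      have e2 : ‖∫ z, η z * (φ (y - ((n : ℝ) + 1)⁻¹ • z) - φ y)‖ ≤ M * ε' := by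
        rw [hM, ← integral_mul_const]
        refine norm_integral_le_of_norm_le (hηi.norm.mul_const _)
          (Eventually.of_forall fun z => ?_)
        rw [norm_mul]
        by_cases h0 : η z = 0
        · simp [h0]
        · have hz := hs z h0
          refine mul_le_mul_of_nonneg_left ?_ (norm_nonneg _)
          rw [← dist_eq_norm]
          refine (hd _ (Metric.mem_cthickening_of_dist_le _ y r K hy (by
            rw [dist_eq_norm, sub_sub_cancel_left, norm_neg]; exact eum_norm_le n hz)) y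
            (Metric.self_subset_cthickening K hy) ?_).le
          rw [dist_eq_norm, sub_sub_cancel_left, norm_neg, norm_smul,
            Real.norm_of_nonneg (eum_t_pos n).le, inv_mul_lt_iff₀ (by positivity)]
          have h2 : (N : ℝ) ≤ n := by exact_mod_cast hn
          rw [div_lt_iff₀ hδ] at hN
          have := le_abs_self r
          nlinarith
      rw [e1, norm_mul, mul_comm, ← mul_pow]
      exact pow_le_pow_left₀ (by positivity)
        (mul_le_mul_of_nonneg_right e2 (norm_nonneg _)) 2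
    · simp [kop, hc.2 y hy]
  have hle : ∫ y, ‖kop (fun _ x => c x.1 * η x.2) n φ y - c y * φ y‖ ^ 2 ≤
      (M * ε') ^ 2 * ∫ y, ‖c y‖ ^ 2 := by
    rw [← integral_const_mul]
    exact integral_mono_of_nonneg (Eventually.of_forall fun y => sq_nonneg _)
      (hq.const_mul _) (Eventually.of_forall hpt)
  have h3 : e0 (fun y => kop (fun _ x => c x.1 * η x.2) n φ y - c y * φ y) ≤ M * ε' * e0 c := by
    unfold e0
    refine (Real.sqrt_le_sqrt hle).trans (le_of_eq ?_)
    rw [Real.sqrt_mul (sq_nonneg _), Real.sqrt_sq (by positivity)]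
  rw [Real.dist_eq, sub_zero, abs_of_nonneg (show 0 ≤ e0 _ from Real.sqrt_nonneg _)]
  refine h3.trans_lt ?_
  have h4 : ε' * (M * e0 c + 1) = ε := by rw [hε']; field_simp
  nlinarith

/-- The adjoint of a smoothing operator. -/
theorem Ker.exists_adj (hK : IsCompact K) (h : Ker K r k) (n : ℕ) :
    ∃ T : (E4 → ℂ) → E4 → ℂ,
      (∀ φ, ContDiff ℝ ∞ φ → Test (Metric.cthickening r K) (T φ)) ∧
      (∀ φ φ', Continuous φ → Continuous φ' → T (φ + φ') = T φ + T φ') ∧
      (∀ (c : ℂ) φ, T (c • φ) = c • T φ) ∧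
      ∀ φ φ', Continuous φ → Continuous φ' →
        ∫ y, (starRingEnd ℂ) (kop k n φ y) * φ' y = ∫ y, (starRingEnd ℂ) (φ y) * T φ' y := by
  have hp : ContDiff ℝ ∞ fun x : E4 × E4 => x.1 + ((n : ℝ) + 1)⁻¹ • x.2 := by fun_prop
  have hk : ContDiff ℝ ∞ fun x : E4 × E4 =>
      (starRingEnd ℂ) (k n (x.1 + ((n : ℝ) + 1)⁻¹ • x.2, x.2)) :=
    (h.conj.smooth n).comp (hp.prodMk contDiff_snd)
  have hsup : ∀ (φ : E4 → ℂ) (y z : E4), (starRingEnd ℂ) (k n (y + ((n : ℝ) + 1)⁻¹ • z, z)) *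
      φ (y + ((n : ℝ) + 1)⁻¹ • z) ≠ 0 → y ∈ Metric.cthickening r K ∧ ‖z‖ ≤ r := by
    intro φ y z h0
    obtain ⟨hy, hz⟩ := h.conj.supp n _ z (left_ne_zero_of_mul h0)
    exact ⟨Metric.mem_cthickening_of_dist_le _ _ r K hy (by
      rw [dist_eq_norm, sub_add_cancel_left, norm_neg]; exact eum_norm_le n hz), hz⟩
  have hint : ∀ φ : E4 → ℂ, Continuous φ → ∀ y : E4, Integrable fun z =>
      (starRingEnd ℂ) (k n (y + ((n : ℝ) + 1)⁻¹ • z, z)) * φ (y + ((n : ℝ) + 1)⁻¹ • z) :=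
    fun φ hφ y => eum_int (F := fun x => (starRingEnd ℂ) (k n (x.1 + ((n : ℝ) + 1)⁻¹ • x.2, x.2)) *
      φ (x.1 + ((n : ℝ) + 1)⁻¹ • x.2)) (hk.continuous.mul (hφ.comp hp.continuous))
      (fun y z h0 => (hsup φ y z h0).2) y
  refine ⟨fun φ y => ∫ z, (starRingEnd ℂ) (k n (y + ((n : ℝ) + 1)⁻¹ • z, z)) *
    φ (y + ((n : ℝ) + 1)⁻¹ • z), fun φ hφ => ⟨?_, fun y hy => ?_⟩, fun φ φ' hφ hφ' => ?_,
    fun c φ => ?_, fun φ φ' hφ hφ' => ?_⟩
  · exact eum_smooth (F := fun x => (starRingEnd ℂ) (k n (x.1 + ((n : ℝ) + 1)⁻¹ • x.2, x.2)) *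
      φ (x.1 + ((n : ℝ) + 1)⁻¹ • x.2)) (hk.mul (hφ.comp hp)) fun y z h0 => (hsup φ y z h0).2
  · have : ∀ z, (starRingEnd ℂ) (k n (y + ((n : ℝ) + 1)⁻¹ • z, z)) *
        φ (y + ((n : ℝ) + 1)⁻¹ • z) = 0 := fun z => by
      by_contra h0
      exact hy (hsup φ y z h0).1
    simp only [this, integral_zero]
  · funext y
    simp only [Pi.add_apply, mul_add]
    exact integral_add (hint φ hφ y) (hint φ' hφ' y)
  · funext y
    simp only [Pi.smul_apply, smul_eq_mul]
    rw [← integral_const_mul]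
    exact integral_congr_ae (Eventually.of_forall fun z => by ring)
  · have i1 : Integrable (fun x : E4 × E4 => (starRingEnd ℂ) (k n x) *
        (starRingEnd ℂ) (φ (x.1 - ((n : ℝ) + 1)⁻¹ • x.2)) * φ' x.1) (volume.prod volume) := by
      refine ((((h.conj.smooth n).continuous.mul (Complex.continuous_conj.comp
        (hφ.comp (eum_cshift n)))).mul
        (hφ'.comp continuous_fst)).integrable_of_hasCompactSupport
        (HasCompactSupport.intro (hK.prod (isCompact_closedBall (0 : E4) r)) fun x hx => ?_))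
      by_contra h0
      obtain ⟨hy, hz⟩ := h.conj.supp n x.1 x.2 (left_ne_zero_of_mul (left_ne_zero_of_mul h0))
      exact hx ⟨hy, by simpa using hz⟩
    have i2 : Integrable (fun x : E4 × E4 => (starRingEnd ℂ) (φ x.1) *
        ((starRingEnd ℂ) (k n (x.1 + ((n : ℝ) + 1)⁻¹ • x.2, x.2)) *
          φ' (x.1 + ((n : ℝ) + 1)⁻¹ • x.2))) (volume.prod volume) := by
      refine (((Complex.continuous_conj.comp (hφ.comp continuous_fst)).mul
        (hk.continuous.mul (hφ'.comp hp.continuous))).integrable_of_hasCompactSupport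
        (HasCompactSupport.intro ((hK.cthickening (r := r)).prod
          (isCompact_closedBall (0 : E4) r)) fun x hx => ?_))
      by_contra h0
      obtain ⟨hy, hz⟩ := hsup φ' x.1 x.2 (right_ne_zero_of_mul h0)
      exact hx ⟨hy, by simpa using hz⟩
    calc ∫ y, (starRingEnd ℂ) (kop k n φ y) * φ' y
        = ∫ y, ∫ z, (starRingEnd ℂ) (k n (y, z)) *
            (starRingEnd ℂ) (φ (y - ((n : ℝ) + 1)⁻¹ • z)) * φ' y := by
          refine integral_congr_ae (Eventually.of_forall fun y => ?_)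
          simp only [kop]
          rw [integral_mul_const, ← integral_conj]
          simp only [map_mul]
      _ = ∫ z, ∫ y, (starRingEnd ℂ) (k n (y, z)) *
            (starRingEnd ℂ) (φ (y - ((n : ℝ) + 1)⁻¹ • z)) * φ' y := integral_integral_swap i1
      _ = ∫ z, ∫ y, (starRingEnd ℂ) (φ y) * ((starRingEnd ℂ) (k n (y + ((n : ℝ) + 1)⁻¹ • z, z)) *
            φ' (y + ((n : ℝ) + 1)⁻¹ • z)) := by
          refine integral_congr_ae (Eventually.of_forall fun z => ?_)
          simp only []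
          rw [← integral_add_right_eq_self _ (((n : ℝ) + 1)⁻¹ • z)]
          refine integral_congr_ae (Eventually.of_forall fun y => ?_)
          simp only [add_sub_cancel_right]
          ring
      _ = ∫ y, ∫ z, (starRingEnd ℂ) (φ y) * ((starRingEnd ℂ) (k n (y + ((n : ℝ) + 1)⁻¹ • z, z)) *
            φ' (y + ((n : ℝ) + 1)⁻¹ • z)) := (integral_integral_swap i2).symm
      _ = _ := by simp only [integral_const_mul]

end SW4
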