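import Pool.Agent.P.MP_0a0487_an.SW.FrDefs

/-! Basic properties of framed atlases. -/

set_option autoImplicit false
set_option linter.unusedSectionVars false

noncomputable section

namespace SW4

open scoped ContDiff
open Filter Topology Matrix

theorem rot_mul (z z' : Fin 2 → ℂ) : rot (z * z') = rot z * rot z' := by
  ext i j
  fin_cases i <;> fin_cases j <;>
    simp [rot, Matrix.mul_apply, Fin.sum_univ_four] <;> ring

theorem rot_one : rot 1 = 1 := by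
  ext i j
  fin_cases i <;> fin_cases j <;> simp [rot]

theorem FrB_rot_mulVec (z : Fin 2 → ℂ) (v : Fin 4 → ℝ) : rot z *ᵥ v =
    ![(z 0).re * v 0 - (z 0).im * v 1, (z 0).im * v 0 + (z 0).re * v 1,
      (z 1).re * v 2 - (z 1).im * v 3, (z 1).im * v 2 + (z 1).re * v 3] := by
  ext i
  fin_cases i <;> simp [rot, Matrix.mulVec, dotProduct, Fin.sum_univ_four] <;> ring

theorem cx_rot (z : Fin 2 → ℂ) (v : Fin 4 → ℝ) : cx (rot z *ᵥ v) =
    ![z 0 * cx v 0, (starRingEnd ℂ) (z 0) * cx v 1, z 1 * cx v 2, (starRingEnd ℂ) (z 1) * cx v 3] := by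
  rw [FrB_rot_mulVec]
  ext i
  fin_cases i <;> apply Complex.ext <;> simp [cx] <;> ring

theorem continuous_rot : Continuous rot := by
  refine continuous_pi fun i => continuous_pi fun j => ?_
  fin_cases i <;> fin_cases j <;> simp [rot] <;> fun_prop

theorem FrB_refl_one : refl (fun _ => 1) = 1 := by
  ext i j
  fin_cases i <;> fin_cases j <;> simp [refl]

theorem FrB_rot_transpose (z : Fin 2 → ℂ) : (rot z)ᵀ = rot (fun m => (starRingEnd ℂ) (z m)) := by
  ext i j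
  fin_cases i <;> fin_cases j <;> simp [rot]

theorem FrB_sq {w : ℂ} (h : ‖w‖ = 1) : w.re * w.re + w.im * w.im = 1 := by
  rw [← Complex.normSq_apply, Complex.normSq_eq_norm_sq, h]; norm_num

theorem IsRot.isOrt {R : M4} (h : IsRot R) : IsOrt R := by
  obtain ⟨z, hz, rfl⟩ := h
  exact ⟨z, fun _ => 1, hz, fun _ => Or.inl rfl, by rw [FrB_refl_one, mul_one]⟩

theorem IsRot.mul {R R' : M4} (h : IsRot R) (h' : IsRot R') : IsRot (R * R') := by
  obtain ⟨z, hz, rfl⟩ := h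
  obtain ⟨z', hz', rfl⟩ := h'
  exact ⟨z * z', fun m => by simp [hz m, hz' m], (rot_mul z z').symm⟩

theorem IsRot.transpose {R : M4} (h : IsRot R) : IsRot Rᵀ := by
  obtain ⟨z, hz, rfl⟩ := h
  exact ⟨_, fun m => by simp [hz m], FrB_rot_transpose z⟩

theorem IsRot.det {R : M4} (h : IsRot R) : R.det = 1 := by
  obtain ⟨z, hz, rfl⟩ := h
  have h0 := FrB_sq (hz 0)
  have h1 := FrB_sq (hz 1)
  have : (rot z).det = ((z 0).re * (z 0).re + (z 0).im * (z 0).im) *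
      ((z 1).re * (z 1).re + (z 1).im * (z 1).im) := by
    simp [rot, Matrix.det_succ_row_zero, Fin.sum_univ_succ, Fin.succAbove]
    ring
  rw [this, h0, h1, mul_one]

theorem IsRot.top2 {R : M4} (h : IsRot R) (v v' : Fin 4 → ℝ) :
    top2 (R *ᵥ v) (R *ᵥ v') = top2 v v' := by
  obtain ⟨z, hz, rfl⟩ := h
  have h0 := FrB_sq (hz 0)
  simp only [FrB_rot_mulVec, SW4.top2, Matrix.cons_val_zero, Matrix.cons_val_one]
  linear_combination (v 0 * v' 1 - v 1 * v' 0) * h0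

theorem IsRot.bot2 {R : M4} (h : IsRot R) (v v' : Fin 4 → ℝ) :
    bot2 (R *ᵥ v) (R *ᵥ v') = bot2 v v' := by
  obtain ⟨z, hz, rfl⟩ := h
  have h1 := FrB_sq (hz 1)
  simp only [FrB_rot_mulVec, SW4.bot2, Matrix.cons_val]
  linear_combination (v 2 * v' 3 - v 3 * v' 2) * h1

theorem FrB_ort_eq (z : Fin 2 → ℂ) (σ : Fin 2 → ℝ) : rot z * refl σ =
    !![(z 0).re, -(z 0).im * σ 0, 0, 0; (z 0).im, (z 0).re * σ 0, 0, 0;
    0, 0, (z 1).re, -(z 1).im * σ 1; 0, 0, (z 1).im, (z 1).re * σ 1] := by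
  ext i j
  fin_cases i <;> fin_cases j <;> simp [rot, refl, Matrix.mul_diagonal]

theorem FrB_sig {σ : ℝ} (h : σ = 1 ∨ σ = -1) : σ * σ = 1 := by
  rcases h with h | h <;> rw [h] <;> norm_num

theorem IsOrt.mul_transpose {R : M4} (h : IsOrt R) : R * Rᵀ = 1 ∧ Rᵀ * R = 1 := by
  obtain ⟨z, σ, hz, hσ, rfl⟩ := h
  have h1 : rot z * (rot z)ᵀ = 1 := by
    rw [FrB_rot_transpose, ← rot_mul, ← rot_one]
    congr 1
    ext m : 1
    simp [Complex.mul_conj, Complex.normSq_eq_norm_sq, hz m]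
  have h2 : refl σ * (refl σ)ᵀ = 1 := by
    have a0 := FrB_sig (hσ 0)
    have a1 := FrB_sig (hσ 1)
    rw [refl, Matrix.diagonal_transpose, Matrix.diagonal_mul_diagonal, ← Matrix.diagonal_one]
    congr 1
    ext i
    fin_cases i <;> simp [a0, a1]
  have h3 : rot z * refl σ * (rot z * refl σ)ᵀ = 1 := by
    rw [Matrix.transpose_mul, Matrix.mul_assoc, ← Matrix.mul_assoc (refl σ), h2, Matrix.one_mul, h1]
  exact ⟨h3, mul_eq_one_comm.mp h3⟩

theorem IsOrt.transpose {R : M4} (h : IsOrt R) : IsOrt Rᵀ := by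
  obtain ⟨z, σ, hz, hσ, rfl⟩ := h
  refine ⟨fun m => ⟨(z m).re, -(σ m) * (z m).im⟩, σ, fun m => ?_, hσ, ?_⟩
  · have a := FrB_sig (hσ m)
    have b := FrB_sq (hz m)
    rw [Complex.norm_def, Complex.normSq_mk, Real.sqrt_eq_one]
    linear_combination b + (z m).im * (z m).im * a
  · have a0 := FrB_sig (hσ 0)
    have a1 := FrB_sig (hσ 1)
    rw [FrB_ort_eq, FrB_ort_eq]
    ext i j
    fin_cases i <;> fin_cases j <;> simp
    · linear_combination (-(z 0).im) * a0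
    · ring
    · linear_combination (-(z 1).im) * a1
    · ring

theorem IsOrt.comm_P0 {R : M4} (h : IsOrt R) : R * P0 = P0 * R := by
  obtain ⟨z, σ, hz, hσ, rfl⟩ := h
  rw [FrB_ort_eq]
  ext i j
  fin_cases i <;> fin_cases j <;> simp [P0, Matrix.mul_diagonal, Matrix.diagonal_mul]

theorem FrB_two {p q s x y N : ℝ} (hp : |p| ≤ 1) (hq : |q| ≤ 1) (hs : |s| = 1) (hx : |x| ≤ N)
    (hy : |y| ≤ N) : |p * x + q * s * y| ≤ 2 * N := by
  have h0 : 0 ≤ N := (abs_nonneg _).trans hx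
  calc |p * x + q * s * y| ≤ |p * x| + |q * s * y| := abs_add_le _ _
    _ = |p| * |x| + |q| * |y| := by rw [abs_mul, abs_mul, abs_mul, hs, mul_one]
    _ ≤ 1 * N + 1 * N := by gcongr
    _ = 2 * N := by ring

theorem FrB_norm_le {R : M4} (h : IsOrt R) (v : Fin 4 → ℝ) : ‖R *ᵥ v‖ ≤ 2 * ‖v‖ := by
  obtain ⟨z, σ, hz, hσ, rfl⟩ := h
  have hre : ∀ m, |(z m).re| ≤ 1 := fun m => (Complex.abs_re_le_norm _).trans (hz m).le
  have him : ∀ m, |(z m).im| ≤ 1 := fun m => (Complex.abs_im_le_norm _).trans (hz m).le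
  have him' : ∀ m, |-(z m).im| ≤ 1 := fun m => by rw [abs_neg]; exact him m
  have hs : ∀ m, |σ m| = 1 := fun m => by rcases hσ m with h | h <;> simp [h]
  have hv : ∀ i, |v i| ≤ ‖v‖ := fun i => norm_le_pi_norm v i
  rw [pi_norm_le_iff_of_nonneg (by positivity), FrB_ort_eq]
  intro i
  rw [Real.norm_eq_abs]
  fin_cases i
  · have := FrB_two (hre 0) (him' 0) (hs 0) (hv 0) (hv 1)
    simpa [Matrix.mulVec, dotProduct, Fin.sum_univ_four] using this
  · have := FrB_two (him 0) (hre 0) (hs 0) (hv 0) (hv 1)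
    simpa [Matrix.mulVec, dotProduct, Fin.sum_univ_four] using this
  · have := FrB_two (hre 1) (him' 1) (hs 1) (hv 2) (hv 3)
    simpa [Matrix.mulVec, dotProduct, Fin.sum_univ_four] using this
  · have := FrB_two (him 1) (hre 1) (hs 1) (hv 2) (hv 3)
    simpa [Matrix.mulVec, dotProduct, Fin.sum_univ_four] using this

theorem IsOrt.norm_le {R : M4} (h : IsOrt R) (v : Fin 4 → ℝ) :
    ‖R *ᵥ v‖ ≤ 2 * ‖v‖ ∧ ‖v‖ ≤ 2 * ‖R *ᵥ v‖ := by
  refine ⟨FrB_norm_le h v, ?_⟩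
  have := FrB_norm_le h.transpose (R *ᵥ v)
  rwa [Matrix.mulVec_mulVec, h.mul_transpose.2, Matrix.one_mulVec] at this

/-- The minor of `R` on the indices `p`, `q`. -/
def FrBminor (p q : Fin 4) (R : M4) : ℝ := R p p * R q q - R p q * R q p

/-- The graph basis of the range of `R` over the coordinates `p`, `q`. -/
def FrBgraph (p q : Fin 4) (R : M4) : Fin 2 → Fin 4 → ℝ :=
  ![fun i => (R i p * R q q - R i q * R q p) / FrBminor p q R,
    fun i => (R i q * R p p - R i p * R p q) / FrBminor p q R]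

theorem FrB_graph_cont (p q : Fin 4) {S : Set M4} {F : M4 → M4} (hF : Continuous F)
    (hS : ∀ Q ∈ S, FrBminor p q (F Q) ≠ 0) : ContinuousOn (fun Q => FrBgraph p q (F Q)) S := by
  have he : ∀ i j, Continuous fun Q => F Q i j := fun i j =>
    (continuous_apply j).comp ((continuous_apply i).comp hF)
  have hm : Continuous fun Q => FrBminor p q (F Q) :=
    ((he _ _).mul (he _ _)).sub ((he _ _).mul (he _ _))
  refine continuousOn_pi.2 fun m => continuousOn_pi.2 fun i => ?_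
  fin_cases m
  · exact (((he _ _).mul (he _ _)).sub ((he _ _).mul (he _ _))).continuousOn.div
      hm.continuousOn hS
  · exact (((he _ _).mul (he _ _)).sub ((he _ _).mul (he _ _))).continuousOn.div
      hm.continuousOn hS

theorem FrB_graph_fix (p q : Fin 4) {R : M4} (hR : R * R = R) (m : Fin 2) :
    R *ᵥ FrBgraph p q R m = FrBgraph p q R m := by
  have h : ∀ i j, R i 0 * R 0 j + R i 1 * R 1 j + R i 2 * R 2 j + R i 3 * R 3 j = R i j := by
    intro i j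
    have := congrFun (congrFun hR i) j
    rwa [Matrix.mul_apply, Fin.sum_univ_four] at this
  ext i
  fin_cases m
  · simp only [FrBgraph, Matrix.mulVec, dotProduct, Fin.sum_univ_four, Fin.zero_eta,
      Matrix.cons_val_zero]
    linear_combination (R q q / FrBminor p q R) * h i p - (R q p / FrBminor p q R) * h i q
  · simp only [FrBgraph, Matrix.mulVec, dotProduct, Fin.sum_univ_four, Fin.mk_one,
      Matrix.cons_val_one, Matrix.cons_val_zero]
    linear_combination (R p p / FrBminor p q R) * h i q - (R p q / FrBminor p q R) * h i p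

theorem FrB_graph_val (p q : Fin 4) {R : M4} (hR : FrBminor p q R ≠ 0) :
    FrBgraph p q R 0 p = 1 ∧ FrBgraph p q R 0 q = 0 ∧ FrBgraph p q R 1 p = 0 ∧
      FrBgraph p q R 1 q = 1 := by
  simp only [FrBgraph, Matrix.cons_val_one, Matrix.cons_val_zero]
  refine ⟨div_self hR, by rw [div_eq_zero_iff]; left; ring,
    by rw [div_eq_zero_iff]; left; ring, ?_⟩
  rw [div_eq_one_iff_eq hR, FrBminor]; ring

theorem FrB_norm_bound {p q r s : Fin 4} (hall : ∀ i, i = p ∨ i = q ∨ i = r ∨ i = s)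
    {v : Fin 4 → ℝ} {δ c : ℝ} (hδ : δ ≤ 1 / 100) (hp : |v p| ≤ c) (hq : |v q| ≤ c)
    (hr : |v r| ≤ δ * ‖v‖) (hs : |v s| ≤ δ * ‖v‖) : ‖v‖ ≤ c := by
  have hc : 0 ≤ c := (abs_nonneg _).trans hp
  by_contra hlt
  push Not at hlt
  have hv : 0 < ‖v‖ := hc.trans_lt hlt
  have h1 : δ * ‖v‖ < ‖v‖ := by nlinarith
  have : ‖v‖ < ‖v‖ := by
    refine (pi_norm_lt_iff hv).2 fun i => ?_
    rw [Real.norm_eq_abs]
    rcases hall i with rfl | rfl | rfl | rfl
    · exact hp.trans_lt hlt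
    · exact hq.trans_lt hlt
    · exact hr.trans_lt h1
    · exact hs.trans_lt h1
  exact lt_irrefl _ this

theorem FrB_graph_main {p q r s : Fin 4} (hall : ∀ i, i = p ∨ i = q ∨ i = r ∨ i = s)
    {R : M4} (hR : R * R = R) (hm : FrBminor p q R ≠ 0) {δ : ℝ} (h0 : 0 ≤ δ) (hδ : δ ≤ 1 / 100)
    (hb : ∀ v, R *ᵥ v = v → |v r| ≤ δ * ‖v‖ ∧ |v s| ≤ δ * ‖v‖) :
    (∀ i, |FrBgraph p q R i r| ≤ δ ∧ |FrBgraph p q R i s| ≤ δ) ∧
      ∀ v, R *ᵥ v = v ↔ v = v p • FrBgraph p q R 0 + v q • FrBgraph p q R 1 := by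
  obtain ⟨a1, a2, a3, a4⟩ := FrB_graph_val p q hm
  refine ⟨fun i => ?_, fun v => ⟨fun hv => ?_, fun hv => ?_⟩⟩
  · obtain ⟨b1, b2⟩ := hb _ (FrB_graph_fix p q hR i)
    have hn : ‖FrBgraph p q R i‖ ≤ 1 := by
      refine FrB_norm_bound hall hδ ?_ ?_ b1 b2
      · fin_cases i
        · simp [a1]
        · simp [a3]
      · fin_cases i
        · simp [a2]
        · simp [a4]
    have : δ * ‖FrBgraph p q R i‖ ≤ δ := by nlinarith
    exact ⟨b1.trans this, b2.trans this⟩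
  · set w := v - (v p • FrBgraph p q R 0 + v q • FrBgraph p q R 1) with hw
    have hfix : R *ᵥ w = w := by
      rw [hw, Matrix.mulVec_sub, Matrix.mulVec_add, Matrix.mulVec_smul, Matrix.mulVec_smul,
        FrB_graph_fix p q hR, FrB_graph_fix p q hR, hv]
    obtain ⟨b1, b2⟩ := hb _ hfix
    have hn : ‖w‖ ≤ 0 := by
      refine FrB_norm_bound hall hδ ?_ ?_ b1 b2
      · simp [hw, a1, a3]
      · simp [hw, a2, a4]
    exact sub_eq_zero.1 (norm_le_zero_iff.1 hn)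
  · rw [hv, Matrix.mulVec_add, Matrix.mulVec_smul, Matrix.mulVec_smul,
      FrB_graph_fix p q hR, FrB_graph_fix p q hR]

theorem FrB_entry {D : M4} {δ : ℝ} (h : ∀ v, ‖D *ᵥ v‖ ≤ δ * ‖v‖) (i j : Fin 4) : |D i j| ≤ δ := by
  have h1 := h (Pi.single j 1)
  rw [Pi.norm_single, norm_one, mul_one, Matrix.mulVec_single_one] at h1
  exact (norm_le_pi_norm (D.col j) i).trans h1

theorem FrB_minor_ne {a b c d : ℝ} (ha : |a - 1| ≤ 1 / 100) (hb : |b| ≤ 1 / 100)
    (hc : |c| ≤ 1 / 100) (hd : |d - 1| ≤ 1 / 100) : a * d - b * c ≠ 0 := by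
  rw [abs_le] at ha hb hc hd
  have h1 : 99 / 100 * (99 / 100) ≤ a * d := by
    apply mul_le_mul <;> linarith
  have h2 : b * c ≤ 1 / 100 := by nlinarith
  intro h
  linarith

theorem FrB_minorU {Q : M4} (h : ∀ v, ‖(Q - P0) *ᵥ v‖ ≤ 1 / 100 * ‖v‖) : FrBminor 0 1 Q ≠ 0 := by
  refine FrB_minor_ne ?_ ?_ ?_ ?_
  · simpa [P0] using FrB_entry h 0 0
  · simpa [P0] using FrB_entry h 0 1
  · simpa [P0] using FrB_entry h 1 0
  · simpa [P0] using FrB_entry h 1 1

theorem FrB_minorV {Q : M4} (h : ∀ v, ‖(Q - P0) *ᵥ v‖ ≤ 1 / 100 * ‖v‖) :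
    FrBminor 2 3 (1 - Q) ≠ 0 := by
  refine FrB_minor_ne ?_ ?_ ?_ ?_
  · simpa [P0] using FrB_entry h 2 2
  · simpa [P0] using FrB_entry h 2 3
  · simpa [P0] using FrB_entry h 3 2
  · simpa [P0] using FrB_entry h 3 3

/-- Graph bases of the range and the kernel of an idempotent close to `P0`. -/
theorem exists_graph : ∃ gU gV : M4 → Fin 2 → Fin 4 → ℝ,
    ContinuousOn gU {Q | ∀ v, ‖(Q - P0) *ᵥ v‖ ≤ 1 / 100 * ‖v‖} ∧
    ContinuousOn gV {Q | ∀ v, ‖(Q - P0) *ᵥ v‖ ≤ 1 / 100 * ‖v‖} ∧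
    ∀ (Q : M4) (δ : ℝ), Q * Q = Q → δ ≤ 1 / 100 → (∀ v, ‖(Q - P0) *ᵥ v‖ ≤ δ * ‖v‖) →
      (gU Q 0 0 = 1 ∧ gU Q 0 1 = 0 ∧ gU Q 1 0 = 0 ∧ gU Q 1 1 = 1) ∧
      (gV Q 0 2 = 1 ∧ gV Q 0 3 = 0 ∧ gV Q 1 2 = 0 ∧ gV Q 1 3 = 1) ∧
      (∀ i, |gU Q i 2| ≤ δ ∧ |gU Q i 3| ≤ δ) ∧ (∀ i, |gV Q i 0| ≤ δ ∧ |gV Q i 1| ≤ δ) ∧
      (∀ v, Q *ᵥ v = v ↔ v = v 0 • gU Q 0 + v 1 • gU Q 1) ∧
      ∀ v, Q *ᵥ v = 0 ↔ v = v 2 • gV Q 0 + v 3 • gV Q 1 := by
  refine ⟨fun Q => FrBgraph 0 1 Q, fun Q => FrBgraph 2 3 (1 - Q),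
    FrB_graph_cont 0 1 continuous_id fun Q hQ => FrB_minorU hQ,
    FrB_graph_cont 2 3 (continuous_const.sub continuous_id) fun Q hQ => FrB_minorV hQ, ?_⟩
  intro Q δ hQ hδ h
  have h0 : 0 ≤ δ := (abs_nonneg _).trans (FrB_entry h 0 0)
  have h' : ∀ v, ‖(Q - P0) *ᵥ v‖ ≤ 1 / 100 * ‖v‖ := fun v =>
    (h v).trans (mul_le_mul_of_nonneg_right hδ (norm_nonneg _))
  have hQ' : (1 - Q) * (1 - Q) = 1 - Q := by
    rw [Matrix.sub_mul, Matrix.mul_sub, Matrix.mul_sub, hQ]; simp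
  have hker : ∀ v, (1 - Q) *ᵥ v = v ↔ Q *ᵥ v = 0 := fun v => by
    rw [Matrix.sub_mulVec, Matrix.one_mulVec, sub_eq_self]
  have hc : ∀ v i, |((Q - P0) *ᵥ v) i| ≤ δ * ‖v‖ := fun v i =>
    (norm_le_pi_norm ((Q - P0) *ᵥ v) i).trans (h v)
  obtain ⟨u1, u2⟩ := FrB_graph_main (p := 0) (q := 1) (r := 2) (s := 3) (by decide) hQ
    (FrB_minorU h') h0 hδ fun v hv => by
      have a2 := hc v 2
      have a3 := hc v 3
      rw [Matrix.sub_mulVec, hv] at a2 a3
      exact ⟨by simpa [P0, Matrix.mulVec_diagonal] using a2,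
        by simpa [P0, Matrix.mulVec_diagonal] using a3⟩
  obtain ⟨v1, v2⟩ := FrB_graph_main (p := 2) (q := 3) (r := 0) (s := 1) (by decide) hQ'
    (FrB_minorV h') h0 hδ fun v hv => by
      have a2 := hc v 0
      have a3 := hc v 1
      rw [Matrix.sub_mulVec, (hker v).1 hv] at a2 a3
      exact ⟨by simpa [P0, Matrix.mulVec_diagonal] using a2,
        by simpa [P0, Matrix.mulVec_diagonal] using a3⟩
  exact ⟨FrB_graph_val 0 1 (FrB_minorU h'), FrB_graph_val 2 3 (FrB_minorV h'), u1, v1, u2,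
    fun v => (hker v).symm.trans (v2 v)⟩

variable {X : Type} [TopologicalSpace X]

namespace Fr

variable (a : Fr X)

theorem V_det_ne (i : Fin a.n) {y : E4} (hy : y ∈ (a.φ i).target) : (a.V i y).det ≠ 0 := by
  intro h
  obtain ⟨v, hv, h0⟩ := Matrix.exists_mulVec_eq_zero_iff.2 h
  exact hv (a.indep i y hy v (by rw [h0, map_zero]))

theorem Sm.continuous {a : Fr X} {F : Type} [NormedAddCommGroup F] [NormedSpace ℝ F] {f : X → F}
    (h : a.Sm f) : Continuous f := by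
  refine continuous_iff_continuousAt.2 fun x => ?_
  obtain ⟨i, hi⟩ := a.cover x
  have h1 : ContinuousAt (fun y => f ((a.φ i).symm y)) (a.φ i x) :=
    (h i).continuousOn.continuousAt ((a.φ i).open_target.mem_nhds ((a.φ i).map_source hi))
  refine (h1.comp ((a.φ i).continuousAt hi)).congr ?_
  filter_upwards [(a.φ i).open_source.mem_nhds hi] with x' hx'
  simp only [Function.comp, (a.φ i).left_inv hx']

theorem sm_e : a.Sm a.e := a.e_sm

theorem smMap_id : a.SmMap id := ⟨continuous_id, a.trans⟩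

theorem FrB_open {g : X → X} (hg : Continuous g) (i j : Fin a.n) :
    IsOpen ((a.φ i).target ∩ (fun y => g ((a.φ i).symm y)) ⁻¹' (a.φ j).source) :=
  (hg.comp_continuousOn (a.φ i).continuousOn_symm).isOpen_inter_preimage (a.φ i).open_target
    (a.φ j).open_source

theorem FrB_at {g : X → X} (hg : a.SmMap g) {i j : Fin a.n} {y : E4} (hy : y ∈ (a.φ i).target)
    (hj : g ((a.φ i).symm y) ∈ (a.φ j).source) :
    ContDiffAt ℝ ∞ (fun y => a.φ j (g ((a.φ i).symm y))) y :=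
  (hg.2 i j).contDiffAt ((a.FrB_open hg.1 i j).mem_nhds ⟨hy, hj⟩)

theorem FrB_ev {F : Type} (f : X → F) {g : X → X} (hg : Continuous g) {i j : Fin a.n} {y : E4}
    (hy : y ∈ (a.φ i).target) (hj : g ((a.φ i).symm y) ∈ (a.φ j).source) :
    (fun y => f (g ((a.φ i).symm y))) =ᶠ[𝓝 y]
      (fun y => f ((a.φ j).symm y)) ∘ fun y => a.φ j (g ((a.φ i).symm y)) := by
  filter_upwards [(a.FrB_open hg i j).mem_nhds ⟨hy, hj⟩] with y' hy'
  simp only [Function.comp, (a.φ j).left_inv hy'.2]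

theorem FrB_comp_at {F : Type} [NormedAddCommGroup F] [NormedSpace ℝ F] {f : X → F}
    {g : X → X} (hg : a.SmMap g) {i j : Fin a.n} {y : E4} (hy : y ∈ (a.φ i).target)
    (hj : g ((a.φ i).symm y) ∈ (a.φ j).source)
    (hf : ContDiffAt ℝ ∞ (fun y => f ((a.φ j).symm y)) (a.φ j (g ((a.φ i).symm y)))) :
    ContDiffAt ℝ ∞ (fun y => f (g ((a.φ i).symm y))) y :=
  (hf.comp y (a.FrB_at hg hy hj)).congr_of_eventuallyEq (a.FrB_ev f hg.1 hy hj)

theorem Sm.comp {a : Fr X} {F : Type} [NormedAddCommGroup F] [NormedSpace ℝ F] {f : X → F}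
    (hf : a.Sm f) {g : X → X} (hg : a.SmMap g) : a.Sm fun x => f (g x) := by
  intro i y hy
  obtain ⟨j, hj⟩ := a.cover (g ((a.φ i).symm y))
  exact (a.FrB_comp_at hg hy hj ((hf j).contDiffAt
    ((a.φ j).open_target.mem_nhds ((a.φ j).map_source hj)))).contDiffWithinAt

theorem SmMap.comp {a : Fr X} {g g' : X → X} (hg : a.SmMap g) (hg' : a.SmMap g') :
    a.SmMap (g ∘ g') := by
  refine ⟨hg.1.comp hg'.1, fun i k y hy => ?_⟩
  obtain ⟨j, hj⟩ := a.cover (g' ((a.φ i).symm y))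
  refine (a.FrB_comp_at (f := fun x => a.φ k (g x)) hg' hy.1 hj
    (a.FrB_at hg ((a.φ j).map_source hj) ?_)).contDiffWithinAt
  rw [(a.φ j).left_inv hj]
  exact hy.2

theorem SmMap.iterate {a : Fr X} {g : X → X} (hg : a.SmMap g) (m : ℕ) : a.SmMap g^[m] := by
  induction m with
  | zero => exact a.smMap_id
  | succ m ih => rw [Function.iterate_succ]; exact ih.comp hg

theorem Jm_id (i : Fin a.n) {x : X} (hx : x ∈ (a.φ i).source) : a.Jm id i i x = 1 := by
  have ht := (a.φ i).map_source hx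
  have h1 : (fun y => a.φ i (id ((a.φ i).symm y))) =ᶠ[𝓝 (a.φ i x)] id := by
    filter_upwards [(a.φ i).open_target.mem_nhds ht] with y hy
    exact (a.φ i).right_inv hy
  rw [Jm, h1.fderiv_eq, fderiv_id, ContinuousLinearMap.coe_id, LinearMap.toMatrix'_id,
    Matrix.mul_one]
  exact Matrix.nonsing_inv_mul _ (isUnit_iff_ne_zero.2 (a.V_det_ne i ht))

theorem FrB_fderiv {F : Type} [NormedAddCommGroup F] [NormedSpace ℝ F] {f : X → F}
    {g : X → X} (hg : a.SmMap g) {i j : Fin a.n} {x : X} (hi : x ∈ (a.φ i).source)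
    (hj : g x ∈ (a.φ j).source)
    (hf : ContDiffAt ℝ ∞ (fun y => f ((a.φ j).symm y)) (a.φ j (g x))) :
    fderiv ℝ (fun y => f (g ((a.φ i).symm y))) (a.φ i x) =
      (fderiv ℝ (fun y => f ((a.φ j).symm y)) (a.φ j (g x))).comp
        (fderiv ℝ (fun y => a.φ j (g ((a.φ i).symm y))) (a.φ i x)) := by
  have ht := (a.φ i).map_source hi
  have hl := (a.φ i).left_inv hi
  have hj' : g ((a.φ i).symm (a.φ i x)) ∈ (a.φ j).source := by rwa [hl]
  rw [(a.FrB_ev f hg.1 ht hj').fderiv_eq, fderiv_comp _ (by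
    simpa only [hl] using hf.differentiableAt (by simp))
    ((a.FrB_at hg ht hj').differentiableAt (by simp))]
  simp only [hl]

theorem Jm_comp {g g' : X → X} (hg : a.SmMap g) (hg' : a.SmMap g') {i j k : Fin a.n} {x : X}
    (hi : x ∈ (a.φ i).source) (hj : g' x ∈ (a.φ j).source) (hk : g (g' x) ∈ (a.φ k).source) :
    a.Jm (g ∘ g') i k x = a.Jm g j k (g' x) * a.Jm g' i j x := by
  have ht := (a.φ j).map_source hj
  have h1 := a.FrB_fderiv (f := fun x => a.φ k (g x)) hg' hi hj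
    (a.FrB_at hg ht (by rwa [(a.φ j).left_inv hj]))
  have h2 := Matrix.mul_nonsing_inv _ (isUnit_iff_ne_zero.2 (a.V_det_ne j ht))
  simp only [Jm, Function.comp]
  rw [h1, ContinuousLinearMap.toLinearMap_comp, LinearMap.toMatrix'_comp]
  simp only [Matrix.mul_assoc]
  rw [← Matrix.mul_assoc (a.V j _), h2, Matrix.one_mul]

theorem FrB_V_cont (i : Fin a.n) : ContinuousOn (a.V i) (a.φ i).target :=
  continuousOn_pi.2 fun p => continuousOn_pi.2 fun q => (a.V_sm i p q).continuousOn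

theorem Jm_cont {g : X → X} (hg : a.SmMap g) (i j : Fin a.n) :
    ContinuousOn (a.Jm g i j) ((a.φ i).source ∩ g ⁻¹' (a.φ j).source) := by
  have c1 : ContinuousOn (fun x => a.V i (a.φ i x)) ((a.φ i).source ∩ g ⁻¹' (a.φ j).source) :=
    (a.FrB_V_cont i).comp ((a.φ i).continuousOn.mono Set.inter_subset_left)
      fun x hx => (a.φ i).map_source hx.1
  have c2 : ContinuousOn (fun x => a.V j (a.φ j (g x)))
      ((a.φ i).source ∩ g ⁻¹' (a.φ j).source) :=
    (a.FrB_V_cont j).comp ((a.φ j).continuousOn.comp hg.1.continuousOn fun x hx => hx.2)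
      fun x hx => (a.φ j).map_source hx.2
  have c3 : ContinuousOn (fun x => (a.V j (a.φ j (g x)))⁻¹)
      ((a.φ i).source ∩ g ⁻¹' (a.φ j).source) := by
    intro x hx
    refine ContinuousAt.comp_continuousWithinAt (f := fun x => a.V j (a.φ j (g x)))
      (continuousAt_matrix_inv _ ?_) (c2 x hx)
    rw [Ring.inverse_eq_inv']
    exact continuousAt_inv₀ (a.V_det_ne j ((a.φ j).map_source hx.2))
  have c4 : ContinuousOn (fun x => fderiv ℝ (fun y => a.φ j (g ((a.φ i).symm y))) (a.φ i x))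
      ((a.φ i).source ∩ g ⁻¹' (a.φ j).source) :=
    ((hg.2 i j).continuousOn_fderiv_of_isOpen (a.FrB_open hg.1 i j) (by simp)).comp
      ((a.φ i).continuousOn.mono Set.inter_subset_left) fun x hx =>
        ⟨(a.φ i).map_source hx.1, by
          have := hx.2
          simpa only [Set.mem_preimage, (a.φ i).left_inv hx.1] using this⟩
  have c5 : Continuous fun L : E4 →L[ℝ] E4 => LinearMap.toMatrix' (L : E4 →ₗ[ℝ] E4) := by
    refine continuous_pi fun p => continuous_pi fun q => ?_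
    simp only [LinearMap.toMatrix'_apply, ContinuousLinearMap.coe_coe]
    exact (continuous_apply p).comp (continuous_id.clm_apply continuous_const)
  exact (c3.mul (c5.comp_continuousOn c4)).mul c1

/-- The chain rule for functions. -/
theorem fderiv_comp_Jm {F : Type} [NormedAddCommGroup F] [NormedSpace ℝ F] {f : X → F}
    (hf : a.Sm f) {g : X → X} (hg : a.SmMap g) {i j : Fin a.n} {x : X} (hi : x ∈ (a.φ i).source)
    (hj : g x ∈ (a.φ j).source) (v : Fin 4 → ℝ) :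
    fderiv ℝ (fun y => f (g ((a.φ i).symm y))) (a.φ i x) (a.V i (a.φ i x) *ᵥ v) =
      fderiv ℝ (fun y => f ((a.φ j).symm y)) (a.φ j (g x))
        (a.V j (a.φ j (g x)) *ᵥ (a.Jm g i j x *ᵥ v)) := by
  have ht := (a.φ j).map_source hj
  have h2 := Matrix.mul_nonsing_inv _ (isUnit_iff_ne_zero.2 (a.V_det_ne j ht))
  rw [a.FrB_fderiv hg hi hj ((hf j).contDiffAt ((a.φ j).open_target.mem_nhds ht)),
    Matrix.mulVec_mulVec, Jm, ← Matrix.mul_assoc, ← Matrix.mul_assoc, h2, Matrix.one_mul,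
    ← Matrix.mulVec_mulVec, LinearMap.toMatrix'_mulVec]
  rfl

end Fr

theorem FrB_orP_inv {Q Q' J J' : M4} {δ : ℝ} (hQ : Q * Q = Q) (hδ : δ ≤ 1 / 100)
    (hn : ∀ v, ‖(Q - P0) *ᵥ v‖ ≤ δ * ‖v‖) (ho : OrP Q J) (hJ : J * J' = 1)
    (hc : J' * Q' = Q * J') : OrP Q' J' := by
  obtain ⟨gU, gV, -, -, hg⟩ := exists_graph
  obtain ⟨⟨u1, u2, u3, u4⟩, ⟨w1, w2, w3, w4⟩, -, -, hU, hV⟩ := hg Q δ hQ hδ hn
  have hback : ∀ v, J *ᵥ (J' *ᵥ v) = v := fun v => by
    rw [Matrix.mulVec_mulVec, hJ, Matrix.one_mulVec]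
  have hcomm : ∀ v, Q *ᵥ (J' *ᵥ v) = J' *ᵥ (Q' *ᵥ v) := fun v => by
    rw [Matrix.mulVec_mulVec, Matrix.mulVec_mulVec, hc]
  constructor
  · intro v v' hv hv' hpos
    have g0 : Q *ᵥ gU Q 0 = gU Q 0 := (hU _).2 (by simp [u1, u2])
    have g1 : Q *ᵥ gU Q 1 = gU Q 1 := (hU _).2 (by simp [u3, u4])
    have hp := ho.1 _ _ g0 g1 (by simp [top2, u1, u2, u3, u4])
    have e1 := congrArg (J *ᵥ ·) ((hU (J' *ᵥ v)).1 (by rw [hcomm, hv]))
    have e2 := congrArg (J *ᵥ ·) ((hU (J' *ᵥ v')).1 (by rw [hcomm, hv']))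
    simp only [hback, Matrix.mulVec_add, Matrix.mulVec_smul] at e1 e2
    have : top2 v v' = top2 (J' *ᵥ v) (J' *ᵥ v') * top2 (J *ᵥ gU Q 0) (J *ᵥ gU Q 1) := by
      have a0 := congrFun e1 0
      have a1 := congrFun e1 1
      have b0 := congrFun e2 0
      have b1 := congrFun e2 1
      simp only [Pi.add_apply, Pi.smul_apply, smul_eq_mul] at a0 a1 b0 b1
      simp only [top2]
      generalize J' *ᵥ v = u at *
      generalize J' *ᵥ v' = u' at *
      rw [a0, a1, b0, b1]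
      ring
    rw [this] at hpos
    exact (pos_iff_pos_of_mul_pos hpos).2 hp
  · intro v v' hv hv' hpos
    have g0 : Q *ᵥ gV Q 0 = 0 := (hV _).2 (by simp [w1, w2])
    have g1 : Q *ᵥ gV Q 1 = 0 := (hV _).2 (by simp [w3, w4])
    have hp := ho.2 _ _ g0 g1 (by simp [bot2, w1, w2, w3, w4])
    have e1 := congrArg (J *ᵥ ·) ((hV (J' *ᵥ v)).1 (by rw [hcomm, hv, Matrix.mulVec_zero]))
    have e2 := congrArg (J *ᵥ ·) ((hV (J' *ᵥ v')).1 (by rw [hcomm, hv', Matrix.mulVec_zero]))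
    simp only [hback, Matrix.mulVec_add, Matrix.mulVec_smul] at e1 e2
    have : bot2 v v' = bot2 (J' *ᵥ v) (J' *ᵥ v') * bot2 (J *ᵥ gV Q 0) (J *ᵥ gV Q 1) := by
      have a0 := congrFun e1 2
      have a1 := congrFun e1 3
      have b0 := congrFun e2 2
      have b1 := congrFun e2 3
      simp only [Pi.add_apply, Pi.smul_apply, smul_eq_mul] at a0 a1 b0 b1
      simp only [bot2]
      generalize J' *ᵥ v = u at *
      generalize J' *ᵥ v' = u' at *
      rw [a0, a1, b0, b1]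
      ring
    rw [this] at hpos
    exact (pos_iff_pos_of_mul_pos hpos).2 hp

namespace FDyn

variable {a : Fr X} {k : ℕ} (d : FDyn a k)

theorem FrB_left (m : ℕ) : Function.LeftInverse d.h.symm^[m] d.h^[m] :=
  Function.LeftInverse.iterate d.h.symm_apply_apply m

theorem FrB_right (m : ℕ) : Function.LeftInverse d.h^[m] d.h.symm^[m] :=
  Function.LeftInverse.iterate d.h.apply_symm_apply m

theorem Jm_symm {i j : Fin a.n} {x : X} (m : ℕ) (hi : x ∈ (a.φ i).source)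
    (hj : d.h^[m] x ∈ (a.φ j).source) :
    a.Jm d.h.symm^[m] j i (d.h^[m] x) * a.Jm d.h^[m] i j x = 1 ∧
      a.Jm d.h^[m] i j x * a.Jm d.h.symm^[m] j i (d.h^[m] x) = 1 := by
  have h1 : a.Jm d.h.symm^[m] j i (d.h^[m] x) * a.Jm d.h^[m] i j x = 1 := by
    rw [← a.Jm_comp (d.sm'.iterate m) (d.sm.iterate m) hi hj (by rwa [d.FrB_left m x]),
      (d.FrB_left m).comp_eq_id, a.Jm_id i hi]
  exact ⟨h1, mul_eq_one_comm.1 h1⟩

theorem Q_iter (m : ℕ) : a.All d.h^[m] fun i j x =>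
    a.Jm d.h^[m] i j x * d.Q i x = d.Q j (d.h^[m] x) * a.Jm d.h^[m] i j x := by
  induction m with
  | zero => exact d.Q_id
  | succ m ih =>
    rw [Function.iterate_succ']
    intro i j x hi hj
    obtain ⟨l, hl⟩ := a.cover (d.h^[m] x)
    have h1 := ih i l x hi hl
    have h2 := d.Q_h l j _ hl hj
    simp only at h1 h2 ⊢
    rw [a.Jm_comp d.sm (d.sm.iterate m) hi hl hj, Matrix.mul_assoc, h1, ← Matrix.mul_assoc, h2,
      Matrix.mul_assoc]
    rfl

theorem Q_iter_symm (m : ℕ) : a.All d.h.symm^[m] fun i j x =>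
    a.Jm d.h.symm^[m] i j x * d.Q i x = d.Q j (d.h.symm^[m] x) * a.Jm d.h.symm^[m] i j x := by
  intro i j x hi hj
  have hi' : d.h^[m] (d.h.symm^[m] x) ∈ (a.φ i).source := by rwa [d.FrB_right m x]
  have h1 := d.Q_iter m j i _ hj hi'
  obtain ⟨h2, h3⟩ := d.Jm_symm m hj hi'
  simp only [d.FrB_right m x] at h1 h2 h3 ⊢
  calc a.Jm d.h.symm^[m] i j x * d.Q i x
      = a.Jm d.h.symm^[m] i j x * (d.Q i x * a.Jm d.h^[m] j i (d.h.symm^[m] x)) *
        a.Jm d.h.symm^[m] i j x := by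
        rw [Matrix.mul_assoc, Matrix.mul_assoc, h3, Matrix.mul_one]
    _ = _ := by rw [← h1, ← Matrix.mul_assoc, h2, Matrix.one_mul]

theorem δ_le : d.δ ≤ 1 / 10000 := by
  rcases le_total d.δ 0 with h | h
  · linarith
  · exact (le_mul_of_one_le_right h (one_le_pow₀ d.one_le)).trans d.small

theorem or_iter (ho : a.Ori) (h : d.Or) (m : ℕ) :
    (a.All d.h^[m] fun i j x => OrP (d.Q i x) (a.Jm d.h^[m] i j x)) ∧
      a.All d.h.symm^[m] fun i j x => OrP (d.Q i x) (a.Jm d.h.symm^[m] i j x) := by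
  have H : a.All d.h^[m] fun i j x => OrP (d.Q i x) (a.Jm d.h^[m] i j x) := by
    induction m with
    | zero =>
      intro i j x hi hj
      have hr : IsRot (a.Jm id i j x) := ho i j x hi hj
      exact ⟨fun v v' _ _ hp => (hr.top2 v v').symm ▸ hp,
        fun v v' _ _ hp => (hr.bot2 v v').symm ▸ hp⟩
    | succ m ih =>
      rw [Function.iterate_succ']
      intro i j x hi hj
      obtain ⟨l, hl⟩ := a.cover (d.h^[m] x)
      have h1 : OrP (d.Q i x) (a.Jm d.h^[m] i l x) := ih i l x hi hl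
      have h2 : OrP (d.Q l (d.h^[m] x)) (a.Jm d.h l j (d.h^[m] x)) := h l j _ hl hj
      have h3 : ∀ v, d.Q l (d.h^[m] x) *ᵥ (a.Jm d.h^[m] i l x *ᵥ v) =
          a.Jm d.h^[m] i l x *ᵥ (d.Q i x *ᵥ v) := fun v => by
        have h4 := d.Q_iter m i l x hi hl
        simp only at h4
        rw [Matrix.mulVec_mulVec, Matrix.mulVec_mulVec, h4]
      rw [a.Jm_comp d.sm (d.sm.iterate m) hi hl hj]
      refine ⟨fun v v' hv hv' hp => ?_, fun v v' hv hv' hp => ?_⟩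
      · rw [← Matrix.mulVec_mulVec, ← Matrix.mulVec_mulVec]
        exact h2.1 _ _ (by rw [h3, hv]) (by rw [h3, hv']) (h1.1 v v' hv hv' hp)
      · rw [← Matrix.mulVec_mulVec, ← Matrix.mulVec_mulVec]
        exact h2.2 _ _ (by rw [h3, hv, Matrix.mulVec_zero]) (by rw [h3, hv', Matrix.mulVec_zero])
          (h1.2 v v' hv hv' hp)
  refine ⟨H, fun i j x hi hj => ?_⟩
  have hi' : d.h^[m] (d.h.symm^[m] x) ∈ (a.φ i).source := by rwa [d.FrB_right m x]
  have h3 := (d.Jm_symm m hj hi').2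
  rw [d.FrB_right m x] at h3
  exact FrB_orP_inv (d.Q_idem j _ hj) (d.δ_le.trans (by norm_num)) (d.near j _ hj)
    (H j i _ hj hi') h3 (d.Q_iter_symm m i j x hi hj)

end FDyn

end SW4
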