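import Pool.Agent.P.MP_0a0487_an.SW.AtlDefs

/-! Framed atlases on a topological space, and hyperbolic dynamics written in frames. -/

set_option autoImplicit false
set_option linter.unusedSectionVars false

noncomputable section

namespace SW4

open scoped ContDiff
open Filter Topology Matrix

/-- Real four by four matrices. -/
abbrev M4 := Matrix (Fin 4) (Fin 4) ℝ

/-- A finite smooth atlas with convex chart images, an injective smooth map `e` to Euclidean space,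
and a smooth frame over each chart (the columns of `V i y`) on which `de` is injective. -/
structure Fr (X : Type) [TopologicalSpace X] where
  n : ℕ
  φ : Fin n → OpenPartialHomeomorph X E4
  cover : ∀ x, ∃ i, x ∈ (φ i).source
  convex : ∀ i, Convex ℝ (φ i).target
  trans : ∀ i j, ContDiffOn ℝ ∞ (fun y => φ j ((φ i).symm y))
    ((φ i).target ∩ (φ i).symm ⁻¹' (φ j).source)
  N : ℕ
  e : X → Fin N → ℝ
  e_inj : Function.Injective e
  e_sm : ∀ i, ContDiffOn ℝ ∞ (fun y => e ((φ i).symm y)) (φ i).target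
  V : Fin n → E4 → M4
  V_sm : ∀ i a b, ContDiffOn ℝ ∞ (fun y => V i y a b) (φ i).target
  indep : ∀ i, ∀ y ∈ (φ i).target, ∀ v,
    fderiv ℝ (fun y => e ((φ i).symm y)) y (V i y *ᵥ v) = 0 → v = 0

/-- Rotations of the two coordinate planes. -/
def rot (z : Fin 2 → ℂ) : M4 :=
  !![(z 0).re, -(z 0).im, 0, 0; (z 0).im, (z 0).re, 0, 0;
    0, 0, (z 1).re, -(z 1).im; 0, 0, (z 1).im, (z 1).re]

/-- Reflections of the two coordinate planes. -/
def refl (σ : Fin 2 → ℝ) : M4 := Matrix.diagonal ![1, σ 0, 1, σ 1]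

/-- A rotation of the two coordinate planes. -/
def IsRot (R : M4) : Prop := ∃ z : Fin 2 → ℂ, (∀ m, ‖z m‖ = 1) ∧ R = rot z

/-- An orthogonal map preserving the two coordinate planes. -/
def IsOrt (R : M4) : Prop := ∃ (z : Fin 2 → ℂ) (σ : Fin 2 → ℝ), (∀ m, ‖z m‖ = 1) ∧
  (∀ m, σ m = 1 ∨ σ m = -1) ∧ R = rot z * refl σ

/-- The projection onto the first coordinate plane. -/
def P0 : M4 := Matrix.diagonal ![1, 1, 0, 0]

/-- The area form of the first coordinate plane. -/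
def top2 (v v' : Fin 4 → ℝ) : ℝ := v 0 * v' 1 - v 1 * v' 0

/-- The area form of the second coordinate plane. -/
def bot2 (v v' : Fin 4 → ℝ) : ℝ := v 2 * v' 3 - v 3 * v' 2

/-- `J` preserves the orientations of the range and of the kernel of `Q`. -/
def OrP (Q J : M4) : Prop :=
  (∀ v v', Q *ᵥ v = v → Q *ᵥ v' = v' → 0 < top2 v v' → 0 < top2 (J *ᵥ v) (J *ᵥ v')) ∧
  ∀ v v', Q *ᵥ v = 0 → Q *ᵥ v' = 0 → 0 < bot2 v v' → 0 < bot2 (J *ᵥ v) (J *ᵥ v')

variable {X : Type} [TopologicalSpace X]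

namespace Fr

variable (a : Fr X)

/-- A smooth function. -/
def Sm {F : Type} [NormedAddCommGroup F] [NormedSpace ℝ F] (f : X → F) : Prop :=
  ∀ i, ContDiffOn ℝ ∞ (fun y => f ((a.φ i).symm y)) (a.φ i).target

/-- A smooth map. -/
def SmMap (g : X → X) : Prop := Continuous g ∧ ∀ i j,
  ContDiffOn ℝ ∞ (fun y => a.φ j (g ((a.φ i).symm y)))
    ((a.φ i).target ∩ (fun y => g ((a.φ i).symm y)) ⁻¹' (a.φ j).source)

/-- The matrix of the derivative of `g` at `x` in the frames of the charts `i` and `j`. -/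
def Jm (g : X → X) (i j : Fin a.n) (x : X) : M4 :=
  (a.V j (a.φ j (g x)))⁻¹ * LinearMap.toMatrix'
    (fderiv ℝ (fun y => a.φ j (g ((a.φ i).symm y))) (a.φ i x) : E4 →ₗ[ℝ] E4) * a.V i (a.φ i x)

/-- A property of the derivative of `g` in all pairs of charts. -/
def All (g : X → X) (p : Fin a.n → Fin a.n → X → Prop) : Prop :=
  ∀ i j x, x ∈ (a.φ i).source → g x ∈ (a.φ j).source → p i j x

/-- The frames differ by rotations of the two planes. -/
def Ori : Prop := a.All id fun i j x => IsRot (a.Jm id i j x)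

/-- The frames differ by orthogonal maps of the two planes. -/
def Ort : Prop := a.All id fun i j x => IsOrt (a.Jm id i j x)

/-- Vanishing of the first real Cech cohomology group of the atlas. -/
def Cech : Prop := ∀ u : Fin a.n → X → ℝ, (∀ i j, ∀ x ∈ (a.φ i).source ∩ (a.φ j).source,
    ∀ᶠ y in 𝓝 x, u i y - u j y = u i x - u j x) →
  ∃ c : Fin a.n → ℝ, ∀ i j, ∀ x ∈ (a.φ i).source ∩ (a.φ j).source, u i x - c i = u j x - c j

/-- Chain transitivity. -/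
def Chain (g : X → X) : Prop := ∀ ε > 0, ∀ x y,
  Relation.ReflTransGen (fun x y => ‖a.e (g x) - a.e y‖ ≤ ε) x y

end Fr

/-- An Anosov diffeomorphism `h` whose unstable and stable bundles (range and kernel of `Q`) are
close to the two planes of the frames. -/
structure FDyn (a : Fr X) (k : ℕ) where
  h : X ≃ₜ X
  sm : a.SmMap h
  sm' : a.SmMap h.symm
  Q : Fin a.n → X → M4
  Q_cont : ∀ i, ContinuousOn (Q i) (a.φ i).source
  Q_idem : ∀ i, ∀ x ∈ (a.φ i).source, Q i x * Q i x = Q i x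
  Q_id : a.All id fun i j x => a.Jm id i j x * Q i x = Q j x * a.Jm id i j x
  Q_h : a.All h fun i j x => a.Jm h i j x * Q i x = Q j (h x) * a.Jm h i j x
  δ : ℝ
  L : ℝ
  one_le : 1 ≤ L
  small : δ * L ^ k ≤ 1 / 10000
  near : ∀ i, ∀ x ∈ (a.φ i).source, ∀ v, ‖(Q i x - P0) *ᵥ v‖ ≤ δ * ‖v‖
  bd : a.All h fun i j x => ∀ v, ‖a.Jm h i j x *ᵥ v‖ ≤ L * ‖v‖ ∧ ‖v‖ ≤ L * ‖a.Jm h i j x *ᵥ v‖
  ε : ℕ → ℝ
  lim : Tendsto ε atTop (𝓝 0)
  hyp : ∀ m, a.All h^[m] fun i j x => ∀ v,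
    (Q i x *ᵥ v = v → ‖v‖ ≤ ε m * ‖a.Jm h^[m] i j x *ᵥ v‖) ∧
    (Q i x *ᵥ v = 0 → ‖a.Jm h^[m] i j x *ᵥ v‖ ≤ ε m * ‖v‖)

/-- The diffeomorphism preserves the orientations of both bundles. -/
def FDyn.Or {a : Fr X} {k : ℕ} (d : FDyn a k) : Prop :=
  a.All d.h fun i j x => OrP (d.Q i x) (a.Jm d.h i j x)

/-- All iterates are chain transitive. -/
def FDyn.Ch {a : Fr X} {k : ℕ} (d : FDyn a k) : Prop :=
  ∀ m, 1 ≤ m → a.Chain d.h^[m] ∧ a.Chain d.h.symm^[m]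

/-- No wandering open set. -/
def NonW (h : X → X) : Prop :=
  ∀ S : Set X, IsOpen S → S.Nonempty → ∃ m, 1 ≤ m ∧ (h^[m] '' S ∩ S).Nonempty

variable {P A : Type} [TopologicalSpace P] [CommRing A] [StarRing A] [Algebra ℂ A] {B : Base P A}

/-- The calculus `G` describes the framed manifold `a`. -/
structure Link (a : Fr X) (G : Calc B) where
  π : P → X
  π_cont : Continuous π
  π_surj : Function.Surjective π
  E_dist : ∀ p q, ‖G.E p - G.E q‖ = ‖a.e (π p) - a.e (π q)‖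
  fn : ∀ s ∈ B.W 0, ∃ f : X → ℂ, a.Sm f ∧ ∀ p, B.ev s p = f (π p)
  fn' : ∀ f : X → ℂ, a.Sm f → ∃ s ∈ B.W 0, ∀ p, B.ev s p = f (π p)
  R : Fin a.n → P → M4
  R_rot : ∀ i p, π p ∈ (a.φ i).source → IsRot (R i p)
  R_cont : ∀ i, ContinuousOn (R i) (π ⁻¹' (a.φ i).source)
  dv_eq : ∀ i p, π p ∈ (a.φ i).source → ∀ s ∈ B.W 0, ∀ f : X → ℂ, (∀ q, B.ev s q = f (π q)) →
    ∀ v, G.dv s p v = fderiv ℝ (fun y => f ((a.φ i).symm y)) (a.φ i (π p))
      (a.V i (a.φ i (π p)) *ᵥ (R i p *ᵥ v))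

/-- An Anosov diffeomorphism with two-dimensional bundles, in charts. `Q i y` is the projection onto
the unstable bundle along the stable one, in the coordinates of the chart `i`. -/
structure CA (M : Type) [TopologicalSpace M] where
  ι : Type
  φ : ι → OpenPartialHomeomorph M E4
  cover : ∀ x, ∃ i, x ∈ (φ i).source
  N : ℕ
  e : M → EuclideanSpace ℝ (Fin N)
  e_inj : Function.Injective e
  e_sm : ∀ i, ContDiffOn ℝ ∞ (fun y => e ((φ i).symm y)) (φ i).target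
  imm : ∀ i, ∀ y ∈ (φ i).target, Function.Injective (fderiv ℝ (fun y => e ((φ i).symm y)) y)
  f : M ≃ₜ M
  sm : ∀ g ∈ ({id, ⇑f, ⇑f.symm} : Set (M → M)), ∀ i j,
    ContDiffOn ℝ ∞ (fun y => φ j (g ((φ i).symm y)))
      ((φ i).target ∩ (fun y => g ((φ i).symm y)) ⁻¹' (φ j).source)
  Q : ι → M → E4 →L[ℝ] E4
  Q_cont : ∀ i, ContinuousOn (Q i) (φ i).source
  Q_idem : ∀ i, ∀ x ∈ (φ i).source, ∀ w, Q i x (Q i x w) = Q i x w
  Q_rank : ∀ i, ∀ x ∈ (φ i).source, Module.finrank ℝ (LinearMap.range (Q i x : E4 →ₗ[ℝ] E4)) = 2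
  Q_inv : ∀ g ∈ ({id, ⇑f} : Set (M → M)), ∀ i j, ∀ x ∈ (φ i).source, g x ∈ (φ j).source → ∀ w,
    fderiv ℝ (fun y => φ j (g ((φ i).symm y))) (φ i x) (Q i x w) =
      Q j (g x) (fderiv ℝ (fun y => φ j (g ((φ i).symm y))) (φ i x) w)
  ε : ℕ → ℝ
  lim : Tendsto ε atTop (𝓝 0)
  hyp : ∀ m i, ∀ x ∈ (φ i).source, ∀ w,
    (Q i x w = w → ‖fderiv ℝ (fun y => e ((φ i).symm y)) (φ i x) w‖ ≤
      ε m * ‖fderiv ℝ (fun y => e (f^[m] ((φ i).symm y))) (φ i x) w‖) ∧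
    (Q i x w = 0 → ‖fderiv ℝ (fun y => e (f^[m] ((φ i).symm y))) (φ i x) w‖ ≤
      ε m * ‖fderiv ℝ (fun y => e ((φ i).symm y)) (φ i x) w‖)

/-- The signs of an element of `{±1}²`. -/
def sgn (s : Fin 2 → ℤˣ) : Fin 2 → ℝ := fun m => ((s m : ℤ) : ℝ)

/-- `b` is the orientation cover of `a`. -/
structure Cov {M Y : Type} [TopologicalSpace M] [TopologicalSpace Y]
    [MulAction (Fin 2 → ℤˣ) Y] (a : Fr M) (b : Fr Y) where
  π : Y → M
  π_cont : Continuous π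
  ix : Fin a.n × (Fin 2 → ℤˣ) ≃ Fin b.n
  sg : Fin a.n → Y → Fin 2 → ℤˣ
  mem : ∀ i s y, y ∈ (b.φ (ix (i, s))).source ↔ π y ∈ (a.φ i).source ∧ sg i y = s
  φ_eq : ∀ i s, ∀ y ∈ (b.φ (ix (i, s))).source, b.φ (ix (i, s)) y = a.φ i (π y)
  target : ∀ i s, (b.φ (ix (i, s))).target = (a.φ i).target
  V_eq : ∀ i s w, b.V (ix (i, s)) w = a.V i w * refl (sgn s)
  act_cont : ∀ g : Fin 2 → ℤˣ, Continuous fun y : Y => g • y
  π_act : ∀ (g : Fin 2 → ℤˣ) y, π (g • y) = π y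
  sg_act : ∀ i (g : Fin 2 → ℤˣ) y, π y ∈ (a.φ i).source → sg i (g • y) = g * sg i y
  ori : b.Ori

namespace CA

variable {M : Type} [TopologicalSpace M] (c : CA M)

/-- The derivative of `e ∘ g` in the chart `i`. -/
def De (g : M → M) (i : c.ι) (x : M) : E4 →L[ℝ] EuclideanSpace ℝ (Fin c.N) :=
  fderiv ℝ (fun y => c.e (g ((c.φ i).symm y))) (c.φ i x)

/-- A smooth splitting close to the invariant one, given by ambient projections. -/
structure Proj (K δ : ℝ) where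
  p : Fin 2 → M → EuclideanSpace ℝ (Fin c.N) →L[ℝ] EuclideanSpace ℝ (Fin c.N)
  sm : ∀ m i, ContDiffOn ℝ ∞ (fun y => p m ((c.φ i).symm y)) (c.φ i).target
  idem : ∀ m x u, p m x (p m x u) = p m x u
  orth : ∀ x u, p 0 x (p 1 x u) = 0 ∧ p 1 x (p 0 x u) = 0
  rng : ∀ i, ∀ x ∈ (c.φ i).source, ∀ m u, ∃ w, p m x u = c.De id i x w
  sum : ∀ i, ∀ x ∈ (c.φ i).source, ∀ w,
    p 0 x (c.De id i x w) + p 1 x (c.De id i x w) = c.De id i x w
  rank : ∀ m x, Module.finrank ℝ (LinearMap.range (p m x).toLinearMap) = 2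
  bd : ∀ m x, ‖p m x‖ ≤ K
  near : ∀ i, ∀ x ∈ (c.φ i).source, ∀ w,
    ‖c.De id i x (c.Q i x w) - p 0 x (c.De id i x w)‖ ≤ δ * ‖c.De id i x w‖

/-- A smooth frame on a ball, orthonormal in each plane. -/
structure Proj.IsFrame {c : CA M} {K δ : ℝ} (π : c.Proj K δ) (i : c.ι) (S : Set E4)
    (V : E4 → M4) : Prop where
  sub : S ⊆ (c.φ i).target
  sm : ∀ a b, ContDiffOn ℝ ∞ (fun y => V y a b) S
  orth : ∀ y ∈ S, ∀ m : Fin 2, Orthonormal ℝ fun l : Fin 2 =>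
    c.De id i ((c.φ i).symm y) (V y *ᵥ Pi.single (![![0, 1], ![2, 3]] m l) 1)
  mem : ∀ y ∈ S, ∀ m l : Fin 2, π.p m ((c.φ i).symm y)
      (c.De id i ((c.φ i).symm y) (V y *ᵥ Pi.single (![![0, 1], ![2, 3]] m l) 1)) =
    c.De id i ((c.φ i).symm y) (V y *ᵥ Pi.single (![![0, 1], ![2, 3]] m l) 1)

end CA

end SW4
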