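import Pool.Agent.P.MP_456758_an.Brouwer

/-! The finite-dimensional cobordism argument. -/

set_option autoImplicit false

noncomputable section

namespace SW4

open Filter Topology Module Set

open Pool.Agent.P.MP_456758_an in
/-- A nondegenerate unique zero in a convex body survives homotopies without boundary zeros. -/
theorem Top_deg {E E' : Type} [NormedAddCommGroup E] [NormedSpace ℝ E] [FiniteDimensional ℝ E]
    [NormedAddCommGroup E'] [NormedSpace ℝ E'] [FiniteDimensional ℝ E']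
    (hd : finrank ℝ E = finrank ℝ E') {K : Set E} (hc : Convex ℝ K) (hcl : IsClosed K)
    (h0 : K ∈ 𝓝 (0 : E)) (hb : Bornology.IsBounded K) (G : ℝ × E → E') (hG : Continuous G)
    (hfr : ∀ s ∈ Icc (0 : ℝ) 1, ∀ x ∈ K, x ∉ interior K → G (s, x) ≠ 0)
    (h1 : ∀ x ∈ K, G (1, x) ≠ 0) (hu : ∀ x ∈ K, G (0, x) = 0 → x = 0) (hG0 : G (0, 0) = 0)
    (T : E →L[ℝ] E') (hT : HasFDerivAt (fun x => G (0, x)) T 0) (hinj : Function.Injective T) :
    False := by
  let A : E' ≃L[ℝ] E :=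
    (LinearMap.linearEquivOfInjective (T : E →ₗ[ℝ] E') hinj hd).symm.toContinuousLinearEquiv
  have hA : ∀ x, A (T x) = x := fun x =>
    (LinearMap.linearEquivOfInjective (T : E →ₗ[ℝ] E') hinj hd).symm_apply_apply x
  have hA0 : ∀ y, A y = 0 → y = 0 := fun y hy => A.injective (hy.trans (map_zero A).symm)
  have hT' : HasFDerivAt (fun x => A (G (0, x))) ((A : E' →L[ℝ] E).comp T) 0 :=
    A.hasFDerivAt.comp 0 hT
  have hev : ∀ᶠ x in 𝓝 (0 : E), ‖A (G (0, x)) - x‖ ≤ 1 / 2 * ‖x‖ := by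
    have := hT'.isLittleO.bound (c := 1 / 2) (by norm_num)
    simpa [hG0, hA] using this
  obtain ⟨ε, hε, hball⟩ := Metric.nhds_basis_closedBall.eventually_iff.1 (hev.and h0)
  have hεx : ∀ x : E, ‖x‖ = 1 → ε • x ∈ Metric.closedBall (0 : E) ε := by
    intro x hx
    rw [mem_closedBall_zero_iff, norm_smul, hx, mul_one, Real.norm_of_nonneg hε.le]
  have hvb : Bornology.IsVonNBounded ℝ K := NormedSpace.isVonNBounded_of_isBounded ℝ hb
  have hden : ∀ x : E, 0 < gauge K x + |1 - ‖x‖| := by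
    intro x
    by_cases hx : x = 0
    · simp [hx]
    · exact add_pos_of_pos_of_nonneg ((gauge_pos (absorbent_nhds_zero h0) hvb).2 hx) (abs_nonneg _)
  let lam : E → ℝ := fun x => (gauge K x + |1 - ‖x‖|)⁻¹
  have hlc : Continuous lam :=
    ((continuous_gauge hc h0).add (by fun_prop)).inv₀ fun x => (hden x).ne'
  have hlp : ∀ x, 0 < lam x := fun x => inv_pos.2 (hden x)
  have hlg : ∀ x, gauge K (lam x • x) = gauge K x / (gauge K x + |1 - ‖x‖|) := by
    intro x
    rw [gauge_smul_of_nonneg (hlp x).le, smul_eq_mul, div_eq_inv_mul]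
  have hlK : ∀ x, lam x • x ∈ K := by
    intro x
    rw [← hcl.closure_eq, ← gauge_le_one_iff_mem_closure hc h0, hlg, div_le_one (hden x)]
    exact le_add_of_nonneg_right (abs_nonneg _)
  have hlI : ∀ x, ‖x‖ = 1 → lam x • x ∉ interior K := by
    intro x hx
    rw [← gauge_lt_one_iff_mem_interior hc h0, hlg, div_lt_one (hden x), hx]
    simp
  have e1 : Ess fun x : E => ε⁻¹ • A (G (0, ε • x)) := by
    have := Ess.homotopy (E := E) (F := fun s x => s • x + (1 - s) • ε⁻¹ • A (G (0, ε • x)))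
      (by fun_prop) ?_ (by simpa using ess_id (E := E))
    · simpa using this
    · intro s hs x hx h
      have h2 := (hball (hεx x hx)).1
      rw [norm_smul, hx, mul_one, Real.norm_of_nonneg hε.le] at h2
      have h3 : x = -((1 - s) • ε⁻¹ • (A (G (0, ε • x)) - ε • x)) := by
        rw [smul_sub, smul_smul ε⁻¹ ε, inv_mul_cancel₀ hε.ne', one_smul, smul_sub,
          eq_neg_of_add_eq_zero_right h]
        module
      have h4 := congrArg norm h3
      rw [hx, norm_neg, norm_smul, norm_smul, Real.norm_of_nonneg (sub_nonneg.2 hs.2),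
        Real.norm_of_nonneg (inv_nonneg.2 hε.le)] at h4
      have h5 : ε⁻¹ * ‖A (G (0, ε • x)) - ε • x‖ ≤ 1 / 2 := by
        rw [inv_mul_le_iff₀ hε]
        linarith
      have h6 : 0 ≤ ε⁻¹ * ‖A (G (0, ε • x)) - ε • x‖ := by positivity
      nlinarith [hs.1]
  have e2 : Ess fun x : E => ε⁻¹ • A (G (0, lam x • x)) := by
    have := Ess.homotopy (E := E)
      (F := fun s x => ε⁻¹ • A (G (0, s • ε • x + (1 - s) • lam x • x)))
      (by fun_prop) ?_ (by simpa using e1)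
    · simpa using this
    · intro s hs x hx h
      have h2 := hu _ (hc (hball (hεx x hx)).2 (hlK x) hs.1 (sub_nonneg.2 hs.2) (by ring))
        (hA0 _ ((smul_eq_zero.1 h).resolve_left (inv_ne_zero hε.ne')))
      rw [smul_smul, smul_smul, ← add_smul, smul_eq_zero] at h2
      rcases h2 with h2 | h2
      · have h3 := hlp x
        rcases hs.1.eq_or_lt with h4 | h4
        · rw [← h4] at h2
          simp at h2
          exact h3.ne' h2
        · nlinarith [mul_pos h4 hε, mul_nonneg (sub_nonneg.2 hs.2) h3.le]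
      · rw [h2, norm_zero] at hx
        exact zero_ne_one hx
  have e3 : Ess fun x : E => ε⁻¹ • A (G (1, lam x • x)) := by
    have := Ess.homotopy (E := E) (F := fun s x => ε⁻¹ • A (G (1 - s, lam x • x)))
      (by fun_prop) ?_ (by simpa using e2)
    · simpa using this
    · intro s hs x hx h
      exact hfr (1 - s) ⟨sub_nonneg.2 hs.2, sub_le_self _ hs.1⟩ _ (hlK x) (hlI x hx)
        (hA0 _ ((smul_eq_zero.1 h).resolve_left (inv_ne_zero hε.ne')))
  obtain ⟨x, -, hx⟩ := e3 _ (by fun_prop) fun _ _ => rfl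
  exact h1 _ (hlK x) (hA0 _ ((smul_eq_zero.1 hx).resolve_left (inv_ne_zero hε.ne')))

theorem Top_cont {E : Type} [NormedAddCommGroup E] [NormedSpace ℝ E] [FiniteDimensional ℝ E]
    (N : Seminorm ℝ E) : Continuous N :=
  continuousOn_univ.1 (N.convexOn.continuousOn isOpen_univ)

theorem Top_bdd {E : Type} [NormedAddCommGroup E] [NormedSpace ℝ E] [FiniteDimensional ℝ E]
    (N : Seminorm ℝ E) (hN : ∀ x, N x = 0 → x = 0) (R : ℝ) :
    ∃ M : ℝ, ∀ x, N x ≤ R → ‖x‖ ≤ M := by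
  rcases (Metric.sphere (0 : E) 1).eq_empty_or_nonempty with h | h
  · refine ⟨0, fun x _ => ?_⟩
    by_contra hx
    have hx0 : x ≠ 0 := fun h0 => hx (by simp [h0])
    have : ‖x‖⁻¹ • x ∈ Metric.sphere (0 : E) 1 := by
      rw [mem_sphere_zero_iff_norm]
      exact norm_smul_inv_norm (𝕜 := ℝ) hx0
    rw [h] at this
    exact this
  obtain ⟨v, hv, hmin⟩ := (isCompact_sphere (0 : E) 1).exists_isMinOn h (Top_cont N).continuousOn
  have hv0 : 0 < N v := by
    refine (apply_nonneg N v).lt_of_ne' fun h0 => ?_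
    rw [hN v h0] at hv
    simp at hv
  refine ⟨max 0 (R / N v), fun x hx => ?_⟩
  by_cases hx0 : x = 0
  · simp [hx0]
  have h1 : ‖x‖⁻¹ • x ∈ Metric.sphere (0 : E) 1 := by
    rw [mem_sphere_zero_iff_norm]
    exact norm_smul_inv_norm (𝕜 := ℝ) hx0
  have h2 : N v ≤ N (‖x‖⁻¹ • x) := hmin h1
  rw [map_smul_eq_mul, norm_inv, norm_norm, le_inv_mul_iff₀ (norm_pos_iff.2 hx0)] at h2
  exact le_max_of_le_right ((le_div_iff₀ hv0).2 (h2.trans hx))

/-- Generic equivariant perturbations have no zero with `u ≠ 0` on a complex hyperplane. -/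
theorem Top_generic {U U' Y Y' : Type} [NormedAddCommGroup U] [NormedSpace ℂ U]
    [FiniteDimensional ℂ U] [NormedAddCommGroup U'] [NormedSpace ℂ U'] [FiniteDimensional ℂ U']
    [NormedAddCommGroup Y] [NormedSpace ℝ Y] [FiniteDimensional ℝ Y]
    [NormedAddCommGroup Y'] [NormedSpace ℝ Y'] [FiniteDimensional ℝ Y']
    (hdim : 2 * finrank ℂ U + finrank ℝ Y = 2 * finrank ℂ U' + finrank ℝ Y' + 1)
    (F : ℝ × U × Y → U' × Y') (hF : ContDiff ℝ 1 F)
    (eqv : ∀ (t : ℝ) (z : ℂ) (u : U) (y : Y), ‖z‖ = 1 →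
      F (t, z • u, y) = (z • (F (t, u, y)).1, (F (t, u, y)).2))
    {ι : Type} [Fintype ι] (b : Basis ι ℂ U) (i₀ : ι) :
    Dense {p : (ι → U') × Y' | ∀ (t : ℝ) (u : U) (y : Y), b.repr u i₀ = 0 → u ≠ 0 →
      F (t, u, y) + (∑ i, b.repr u i • p.1 i, p.2) ≠ 0} := by
  classical
  let φ : ι → U →L[ℝ] ℂ := fun i => ((b.coord i).toContinuousLinearMap).restrictScalars ℝ
  have hφ : ∀ i u, φ i u = b.repr u i := fun _ _ => rfl
  let L : ι → (ℝ × U × Y) × (ι → U') →ₗ[ℝ] ℂ × ℝ × U' := fun j =>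
    { toFun := fun q => (φ i₀ q.1.2.1, (φ j q.1.2.1).im, q.2 j)
      map_add' := by
        intro q q'
        simp
      map_smul' := by
        intro c q
        simp }
  let S : ι → Set ((ℝ × U × Y) × (ι → U')) := fun j => {q | 0 < (φ j q.1.2.1).re}
  let Φ : ι → (ℝ × U × Y) × (ι → U') → (ι → U') × Y' := fun j q =>
    (q.2 - Pi.single j (((φ j q.1.2.1).re)⁻¹ • ((F q.1).1 + ∑ i, φ i q.1.2.1 • q.2 i)), -(F q.1).2)
  have hS : ∀ j, Convex ℝ (S j) := by
    intro j
    refine convex_halfSpace_gt (f := fun q : (ℝ × U × Y) × (ι → U') => (φ j q.1.2.1).re) ⟨?_, ?_⟩ 0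
    · intro q q'
      simp
    · intro c q
      simp
  have hΦ : ∀ j, ContDiffOn ℝ 1 (Φ j) (S j) := by
    intro j
    have h1 : ContDiff ℝ 1 fun q : (ℝ × U × Y) × (ι → U') => F q.1 := hF.comp contDiff_fst
    have h2 : ∀ i, ContDiff ℝ 1 fun q : (ℝ × U × Y) × (ι → U') => φ i q.1.2.1 := fun i =>
      (φ i).contDiff.comp (by fun_prop)
    have h3 : ContDiffOn ℝ 1 (fun q : (ℝ × U × Y) × (ι → U') => ((φ j q.1.2.1).re)⁻¹) (S j) :=
      (Complex.reCLM.contDiff.comp (h2 j)).contDiffOn.inv fun q hq => ne_of_gt hq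
    have h4 : ContDiff ℝ 1 fun q : (ℝ × U × Y) × (ι → U') => ∑ i, φ i q.1.2.1 • q.2 i :=
      ContDiff.sum fun i _ => (h2 i).smul (by fun_prop)
    have h5 : ContDiffOn ℝ 1 (fun q : (ℝ × U × Y) × (ι → U') =>
        ((φ j q.1.2.1).re)⁻¹ • ((F q.1).1 + ∑ i, φ i q.1.2.1 • q.2 i)) (S j) :=
      h3.smul (h1.fst.add h4).contDiffOn
    refine ContDiffOn.prodMk (contDiff_snd.contDiffOn.sub ?_) h1.snd.neg.contDiffOn
    exact (ContinuousLinearMap.single ℝ (fun _ : ι => U') j).contDiff.comp_contDiffOn h5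
  have hker : ∀ j, j ≠ i₀ → finrank ℝ (LinearMap.ker (L j)) < finrank ℝ ((ι → U') × Y') := by
    intro j hj
    have hs : LinearMap.range (L j) = ⊤ := by
      rw [LinearMap.range_eq_top]
      rintro ⟨z, r, v⟩
      refine ⟨((0, z • b i₀ + ((r : ℂ) * Complex.I) • b j, 0), Pi.single j v), ?_⟩
      simp [L, hφ, hj, hj.symm]
    have h1 := LinearMap.finrank_range_add_finrank_ker (L j)
    rw [hs, finrank_top] at h1
    simp only [finrank_prod, finrank_self, Complex.finrank_real_complex,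
      finrank_real_of_complex U, finrank_real_of_complex U'] at h1 ⊢
    omega
  have hdense : Dense (⋃ j : {j // j ≠ i₀}, Φ j '' (S j ∩ LinearMap.ker (L j)))ᶜ := by
    rcases isEmpty_or_nonempty {j // j ≠ i₀} with he | ⟨⟨j₀, hj₀⟩⟩
    · rw [iUnion_of_empty, compl_empty]
      exact dense_univ
    refine dense_compl_of_dimH_lt_finrank ?_
    rw [dimH_iUnion]
    refine lt_of_le_of_lt (b := ((finrank ℝ ((ι → U') × Y') - 1 : ℕ) : ENNReal))
      (iSup_le fun j => ?_) ?_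
    · refine ((hΦ j).dimH_image_le (hS j) inter_subset_left).trans ?_
      refine (dimH_mono (t := range (LinearMap.ker (L j)).subtypeL) ?_).trans ?_
      · intro q hq
        exact ⟨⟨q, hq.2⟩, rfl⟩
      · refine (ContDiff.dimH_range_le (LinearMap.ker (L j)).subtypeL.contDiff).trans ?_
        have := hker j j.2
        exact Nat.cast_le.2 (by omega)
    · have := hker j₀ hj₀
      exact Nat.cast_lt.2 (by omega)
  refine hdense.mono ?_
  rintro ⟨a, η⟩ hp t u y hu0 hu h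
  apply hp
  obtain ⟨j, hj⟩ : ∃ j, b.repr u j ≠ 0 := by
    by_contra hcon
    push Not at hcon
    exact hu (b.repr.map_eq_zero_iff.1 (Finsupp.ext hcon))
  have hji : j ≠ i₀ := fun e => hj (e ▸ hu0)
  have hw : (0 : ℝ) < ‖b.repr u j‖ := norm_pos_iff.2 hj
  set z : ℂ := (‖b.repr u j‖ : ℂ) / b.repr u j with hz
  have hz1 : ‖z‖ = 1 := by
    rw [hz, norm_div, Complex.norm_real, norm_norm, div_self hw.ne']
  have hzj : φ j (z • u) = (‖b.repr u j‖ : ℂ) := by
    rw [hφ, map_smul, Finsupp.smul_apply, smul_eq_mul, hz, div_mul_cancel₀ _ hj]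
  have h1 : (F (t, u, y)).1 + ∑ i, b.repr u i • a i = 0 := congrArg Prod.fst h
  have h2 : (F (t, u, y)).2 + η = 0 := congrArg Prod.snd h
  refine mem_iUnion.2 ⟨⟨j, hji⟩, ((t, z • u, y), a - Pi.single j (a j)), ⟨?_, ?_⟩, ?_⟩
  · change 0 < (φ j (z • u)).re
    rw [hzj, Complex.ofReal_re]
    exact hw
  · change (φ i₀ (z • u), (φ j (z • u)).im, (a - Pi.single j (a j) : ι → U') j) = 0
    rw [hzj, hφ, map_smul, Finsupp.smul_apply, hu0]
    simp
  · have h3 : (F (t, z • u, y)).1 + ∑ i, φ i (z • u) • (a - Pi.single j (a j) : ι → U') i =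
        -(‖b.repr u j‖ • a j) := by
      have h4 : ∑ i, φ i (z • u) • (Pi.single j (a j) : ι → U') i = ‖b.repr u j‖ • a j := by
        rw [Finset.sum_eq_single j (fun i _ hi => by rw [Pi.single_eq_of_ne hi, smul_zero])
          (fun hi => absurd (Finset.mem_univ j) hi), hzj, Pi.single_eq_same, Complex.coe_smul]
      have h5 : ∑ i, φ i (z • u) • a i = z • ∑ i, b.repr u i • a i := by
        rw [Finset.smul_sum]
        refine Finset.sum_congr rfl fun i _ => ?_
        rw [hφ, map_smul, Finsupp.smul_apply, smul_assoc]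
      simp only [Pi.sub_apply, smul_sub, Finset.sum_sub_distrib]
      rw [h4, h5, eqv t z u y hz1, ← add_sub_assoc, ← smul_add, h1, smul_zero, zero_sub]
    simp only [Φ]
    rw [h3, hzj, Complex.ofReal_re, smul_neg, smul_smul, inv_mul_cancel₀ hw.ne', one_smul,
      eqv t z u y hz1, Pi.single_neg, sub_neg_eq_add, sub_add_cancel,
      neg_eq_of_add_eq_zero_right h2]

theorem top {U U' Y Y' : Type} [NormedAddCommGroup U] [NormedSpace ℂ U] [FiniteDimensional ℂ U]
    [NormedAddCommGroup U'] [NormedSpace ℂ U'] [FiniteDimensional ℂ U']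
    [NormedAddCommGroup Y] [NormedSpace ℝ Y] [FiniteDimensional ℝ Y]
    [NormedAddCommGroup Y'] [NormedSpace ℝ Y'] [FiniteDimensional ℝ Y']
    (hdim : 2 * finrank ℂ U + finrank ℝ Y = 2 * finrank ℂ U' + finrank ℝ Y' + 1)
    (F : ℝ × U × Y → U' × Y') (hF : ContDiff ℝ 1 F)
    (eqv : ∀ (t : ℝ) (z : ℂ) (u : U) (y : Y), ‖z‖ = 1 →
      F (t, z • u, y) = (z • (F (t, u, y)).1, (F (t, u, y)).2))
    (N : Seminorm ℝ (U × Y)) (hN : ∀ x, N x = 0 → x = 0)
    (hNz : ∀ (z : ℂ) (u : U) (y : Y), ‖z‖ = 1 → N (z • u, y) = N (u, y)) (R : ℝ)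
    (h1 : ∀ t ∈ Icc (0 : ℝ) 1, ∀ x, N x = R → F (t, x) ≠ 0)
    (h2 : ∀ t ∈ Icc (0 : ℝ) 1, ∀ y, N (0, y) ≤ R → F (t, 0, y) ≠ 0)
    (h3 : ∀ x, N x ≤ R → F (1, x) ≠ 0)
    (u₀ : U) (y₀ : Y) (hR : N (u₀, y₀) ≤ R) (hz : F (0, u₀, y₀) = 0)
    (uniq : ∀ u y, N (u, y) ≤ R → F (0, u, y) = 0 → ∃ z : ℂ, ‖z‖ = 1 ∧ u = z • u₀ ∧ y = y₀)
    (nd : ∀ u y, fderiv ℝ F (0, u₀, y₀) (0, u, y) = 0 →
      ∃ c : ℝ, u = ((c : ℂ) * Complex.I) • u₀ ∧ y = 0) : False := by
  classical
  have _ := hNz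
  have h01 : (0 : ℝ) ∈ Icc (0 : ℝ) 1 := left_mem_Icc.2 zero_le_one
  have hu₀ : u₀ ≠ 0 := by
    rintro rfl
    exact h2 0 h01 y₀ hR hz
  have hlt : N (u₀, y₀) < R := hR.lt_of_ne fun h => h1 0 h01 _ h hz
  have hNc := Top_cont N
  have hFc := hF.continuous
  obtain ⟨M, hM⟩ := Top_bdd N hN R
  let b := Module.finBasis ℂ U
  obtain ⟨i₀, hi₀⟩ : ∃ j, b.repr u₀ j ≠ 0 := by
    by_contra hcon
    push Not at hcon
    exact hu₀ (b.repr.map_eq_zero_iff.1 (Finsupp.ext hcon))
  let φ : Fin (finrank ℂ U) → U →L[ℂ] ℂ := fun i => (b.coord i).toContinuousLinearMap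
  have hφ : ∀ i u, φ i u = b.repr u i := fun _ _ => rfl
  let ℓ : U →L[ℂ] ℂ := (b.repr u₀ i₀)⁻¹ • φ i₀
  have hℓ₀ : ℓ u₀ = 1 := inv_mul_cancel₀ hi₀
  have hℓ : ∀ u, ℓ u = 0 → b.repr u i₀ = 0 := fun u hu =>
    (mul_eq_zero.1 hu).resolve_left (inv_ne_zero hi₀)
  let pert : (Fin (finrank ℂ U) → U') × Y' → U → U' × Y' := fun p u => (∑ i, φ i u • p.1 i, p.2)
  -- small perturbations keep the non-vanishing statements
  let Cs : Set (ℝ × ℝ × U × Y) := {q | q.1 ∈ Icc (0 : ℝ) 1 ∧ q.2.1 ∈ Icc (0 : ℝ) 1 ∧ N q.2.2 ≤ R ∧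
    (N q.2.2 = R ∨ (q.2.1 = 0 ∧ ℓ q.2.2.1 = 0) ∨ q.2.2.1 = 0 ∨ q.2.1 = 1)}
  have hCs : IsCompact Cs := by
    refine ((isCompact_Icc (a := (0 : ℝ)) (b := 1)).prod ((isCompact_Icc (a := (0 : ℝ)) (b := 1)).prod
      (isCompact_closedBall (0 : U × Y) M))).of_isClosed_subset ?_ ?_
    · have c1 : Continuous fun q : ℝ × ℝ × U × Y => q.2.1 := by fun_prop
      have c2 : Continuous fun q : ℝ × ℝ × U × Y => N q.2.2 := by fun_prop
      have c3 : Continuous fun q : ℝ × ℝ × U × Y => ℓ q.2.2.1 := by fun_prop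
      have c4 : Continuous fun q : ℝ × ℝ × U × Y => q.2.2.1 := by fun_prop
      exact IsClosed.and (isClosed_Icc.preimage continuous_fst)
        (IsClosed.and (isClosed_Icc.preimage c1) (IsClosed.and (isClosed_le c2 continuous_const)
          (IsClosed.union (isClosed_eq c2 continuous_const)
            (IsClosed.union (IsClosed.and (isClosed_eq c1 continuous_const)
              (isClosed_eq c3 continuous_const))
            (IsClosed.union (isClosed_eq c4 continuous_const)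
              (isClosed_eq c1 continuous_const))))))
    · rintro q ⟨q1, q2, q3, -⟩
      exact ⟨q1, q2, mem_closedBall_zero_iff.2 (hM _ q3)⟩
  have hsmall : ∀ᶠ p in 𝓝 (0 : (Fin (finrank ℂ U) → U') × Y'), ∀ q ∈ Cs,
      F q.2 + q.1 • pert p q.2.2.1 ≠ 0 := by
    refine hCs.eventually_forall_of_forall_eventually ?_
    rintro ⟨σ, t, u, y⟩ ⟨-, q2, q3, q4⟩
    have hc : Continuous fun z : ((Fin (finrank ℂ U) → U') × Y') × ℝ × ℝ × U × Y =>
        F z.2.2 + z.2.1 • pert z.1 z.2.2.2.1 := by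
      simp only [pert]
      fun_prop
    refine hc.continuousAt.eventually_ne ?_
    have h0 : pert 0 u = 0 := by simp [pert]
    simp only [h0, smul_zero, add_zero]
    rcases q4 with h | ⟨h, h'⟩ | h | h
    · exact h1 t q2 _ h
    · simp only at h h'
      subst h
      intro hF0
      obtain ⟨z, hz1, rfl, -⟩ := uniq u y q3 hF0
      rw [map_smul, hℓ₀, smul_eq_mul, mul_one] at h'
      rw [h', norm_zero] at hz1
      exact zero_ne_one hz1
    · simp only at h
      subst h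
      exact h2 t q2 y q3
    · simp only at h
      subst h
      exact h3 _ q3
  obtain ⟨p, hpg, hps⟩ := (Top_generic hdim F hF eqv b i₀).inter_nhds_nonempty hsmall
  -- the slice
  let lam : U × Y →ₗ[ℝ] ℝ :=
    { toFun := fun x => (ℓ x.1).im
      map_add' := by
        intro x x'
        simp
      map_smul' := by
        intro c x
        simp }
  let H := LinearMap.ker lam
  have hH : finrank ℝ H = finrank ℝ (U' × Y') := by
    have hs : LinearMap.range lam = ⊤ := by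
      rw [LinearMap.range_eq_top]
      intro r
      refine ⟨(((r : ℂ) * Complex.I) • u₀, 0), ?_⟩
      change (ℓ (((r : ℂ) * Complex.I) • u₀)).im = r
      rw [map_smul, hℓ₀]
      simp
    have h4 := LinearMap.finrank_range_add_finrank_ker lam
    rw [hs, finrank_top] at h4
    simp only [finrank_prod, finrank_self, finrank_real_of_complex U,
      finrank_real_of_complex U'] at h4 ⊢
    change _ + finrank ℝ H = _ at h4
    omega
  have hHim : ∀ v : H, (ℓ (u₀ + (v : U × Y).1)).im = 0 := by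
    intro v
    have : (ℓ (v : U × Y).1).im = 0 := v.2
    rw [map_add, hℓ₀, Complex.add_im, this]
    simp
  let K : Set H := {v | 0 ≤ (ℓ (u₀ + (v : U × Y).1)).re ∧ N ((u₀, y₀) + (v : U × Y)) ≤ R}
  have c1 : Continuous fun v : H => (ℓ (u₀ + (v : U × Y).1)).re := by fun_prop
  have c2 : Continuous fun v : H => N ((u₀, y₀) + (v : U × Y)) := by fun_prop
  have hopen : IsOpen {v : H | 0 < (ℓ (u₀ + (v : U × Y).1)).re ∧ N ((u₀, y₀) + (v : U × Y)) < R} :=
    IsOpen.and (isOpen_lt continuous_const c1) (isOpen_lt c2 continuous_const)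
  have hint : {v : H | 0 < (ℓ (u₀ + (v : U × Y).1)).re ∧ N ((u₀, y₀) + (v : U × Y)) < R} ⊆
      interior K := interior_maximal (fun v hv => ⟨hv.1.le, hv.2.le⟩) hopen
  let G : ℝ × H → U' × Y' := fun q => F (max (2 * q.1 - 1) 0, (u₀, y₀) + (q.2 : U × Y)) +
    min (2 * q.1) 1 • pert p (u₀ + (q.2 : U × Y).1)
  have hG0 : ∀ v : H, G (0, v) = F (0, (u₀, y₀) + (v : U × Y)) := by
    intro v
    simp [G]
  let ι : H →L[ℝ] ℝ × U × Y := (ContinuousLinearMap.inr ℝ ℝ (U × Y)).comp H.subtypeL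
  refine Top_deg hH (K := K) ?_ ?_ ?_ ?_ G ?_ ?_ ?_ ?_ ?_
    ((fderiv ℝ F (0, u₀, y₀)).comp ι) ?_ ?_
  · intro v hv w hw a c ha hc hac
    have e : (u₀, y₀) + ((a • v + c • w : H) : U × Y) =
        a • ((u₀, y₀) + (v : U × Y)) + c • ((u₀, y₀) + (w : U × Y)) := by
      rw [smul_add, smul_add, add_add_add_comm, ← add_smul, hac, one_smul]
      rfl
    constructor
    · have e1 : u₀ + ((a • v + c • w : H) : U × Y).1 =
          a • (u₀ + (v : U × Y).1) + c • (u₀ + (w : U × Y).1) := congrArg Prod.fst e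
      rw [e1, map_add, ℓ.map_smul_of_tower, ℓ.map_smul_of_tower, Complex.add_re, Complex.smul_re,
        Complex.smul_re]
      exact add_nonneg (smul_nonneg ha hv.1) (smul_nonneg hc hw.1)
    · rw [e]
      refine (N.convexOn.2 (mem_univ _) (mem_univ _) ha hc hac).trans ?_
      have := add_le_add (smul_le_smul_of_nonneg_left hv.2 ha) (smul_le_smul_of_nonneg_left hw.2 hc)
      rwa [← add_smul, hac, one_smul] at this
  · exact IsClosed.and (isClosed_le continuous_const c1) (isClosed_le c2 continuous_const)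
  · refine mem_interior_iff_mem_nhds.1 (hint ⟨?_, ?_⟩)
    · simp [hℓ₀]
    · simpa using hlt
  · refine isBounded_iff_forall_norm_le.2 ⟨M + ‖(u₀, y₀)‖, fun v hv => ?_⟩
    have h4 := hM _ hv.2
    have h5 : (v : U × Y) = (u₀, y₀) + (v : U × Y) - (u₀, y₀) := by abel
    change ‖(v : U × Y)‖ ≤ _
    rw [h5]
    exact (norm_sub_le _ _).trans (by gcongr)
  · simp only [G, pert]
    fun_prop
  · intro s hs v hv hvi
    have ht : max (2 * s - 1) 0 ∈ Icc (0 : ℝ) 1 :=
      ⟨le_max_right _ _, max_le (by linarith [hs.2]) zero_le_one⟩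
    have hσ : min (2 * s) 1 ∈ Icc (0 : ℝ) 1 :=
      ⟨le_min (by linarith [hs.1]) zero_le_one, min_le_right _ _⟩
    by_cases hq : N ((u₀, y₀) + (v : U × Y)) = R ∨ (max (2 * s - 1) 0 = 0 ∧
        ℓ (u₀ + (v : U × Y).1) = 0) ∨ u₀ + (v : U × Y).1 = 0 ∨ max (2 * s - 1) 0 = 1
    · exact hps (min (2 * s) 1, max (2 * s - 1) 0, (u₀, y₀) + (v : U × Y)) ⟨hσ, ht, hv.2, hq⟩
    push Not at hq
    obtain ⟨q1, q2, q3, -⟩ := hq
    have hl0 : ℓ (u₀ + (v : U × Y).1) = 0 := by
      refine Complex.ext ?_ (hHim v)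
      by_contra hne
      exact hvi (hint ⟨hv.1.lt_of_ne' hne, hv.2.lt_of_ne q1⟩)
    have hs1 : min (2 * s) 1 = 1 := by
      refine min_eq_right ?_
      by_contra hlt'
      exact q2 (max_eq_right (by linarith)) hl0
    have := hpg (max (2 * s - 1) 0) (u₀ + (v : U × Y).1) (y₀ + (v : U × Y).2) (hℓ _ hl0) q3
    simp only [G, hs1, one_smul]
    exact this
  · intro v hv
    have := hps (1, 1, (u₀, y₀) + (v : U × Y))
      ⟨right_mem_Icc.2 zero_le_one, right_mem_Icc.2 zero_le_one, hv.2, Or.inr (Or.inr (Or.inr rfl))⟩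
    have e1 : max (2 * (1 : ℝ) - 1) 0 = 1 := by norm_num
    have e2 : min (2 * (1 : ℝ)) 1 = 1 := by norm_num
    simp only [G, e1, e2]
    exact this
  · intro v hv h0
    rw [hG0] at h0
    obtain ⟨z, hz1, e1, e2⟩ := uniq (u₀ + (v : U × Y).1) (y₀ + (v : U × Y).2) hv.2 h0
    have e3 : ℓ (u₀ + (v : U × Y).1) = z := by rw [e1, map_smul, hℓ₀, smul_eq_mul, mul_one]
    have e4 : z = 1 := by
      have i1 := hHim v
      have i2 := hv.1
      rw [e3] at i1 i2
      have i3 : z = (z.re : ℂ) := Complex.ext rfl (by simpa using i1)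
      rw [i3, Complex.norm_real, Real.norm_of_nonneg i2] at hz1
      rw [i3, hz1, Complex.ofReal_one]
    rw [e4, one_smul] at e1
    exact Subtype.ext (Prod.ext (by simpa using e1) (by simpa using e2))
  · rw [hG0]
    simpa using hz
  · simp only [hG0]
    have h4 : HasFDerivAt (fun v : H => ((0 : ℝ), u₀, y₀) + ι v) ι 0 := ι.hasFDerivAt.const_add _
    have h5 : HasFDerivAt F (fderiv ℝ F (0, u₀, y₀)) (((0 : ℝ), u₀, y₀) + ι 0) := by
      rw [map_zero, add_zero]
      exact (hF.differentiable one_ne_zero _).hasFDerivAt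
    have h6 := HasFDerivAt.comp (f := fun v : H => ((0 : ℝ), u₀, y₀) + ι v) 0 h5 h4
    refine h6.congr_of_eventuallyEq (Eventually.of_forall fun v => ?_)
    simp [ι]
  · rw [injective_iff_map_eq_zero]
    intro v hv
    obtain ⟨c, e1, e2⟩ := nd (v : U × Y).1 (v : U × Y).2 hv
    have i1 : (ℓ (v : U × Y).1).im = 0 := v.2
    rw [e1, map_smul, hℓ₀] at i1
    have hc : c = 0 := by simpa using i1
    rw [hc] at e1
    exact Subtype.ext (Prod.ext (by simpa using e1) e2)

end SW4
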