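import Pool.Agent.P.MP_0a0487_an.SW.Gal1
import Pool.Agent.P.MP_0a0487_an.SW.Top
import Pool.Agent.P.MP_0a0487_an.SW.IndConj

/-! The finite-dimensional approximation at a fixed level. -/

set_option autoImplicit false
set_option linter.unusedSectionVars false

noncomputable section

namespace SW4

open scoped ComplexOrder ContDiff
open Filter Topology

theorem gal2_quad {X Z : Type} [NormedAddCommGroup X] [NormedSpace ℝ X] [FiniteDimensional ℝ X]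
    [NormedAddCommGroup Z] [NormedSpace ℝ Z] {F : X → Z} (a : Z) (L : X →ₗ[ℝ] Z)
    (M : X →ₗ[ℝ] X →ₗ[ℝ] Z) (hF : ∀ x, F x = a + L x + M x x) :
    ContDiff ℝ 1 F ∧ ∀ x v, fderiv ℝ F x v = L v + (M v x + M x v) := by
  let L' : X →L[ℝ] Z := LinearMap.toContinuousLinearMap L
  let M' : X →L[ℝ] X →L[ℝ] Z := LinearMap.toContinuousLinearMap
    ((LinearMap.toContinuousLinearMap : (X →ₗ[ℝ] Z) ≃ₗ[ℝ] X →L[ℝ] Z).toLinearMap ∘ₗ M)
  obtain rfl : F = fun x => a + L' x + M' x x := funext hF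
  refine ⟨(contDiff_const.add L'.contDiff).add (M'.contDiff.clm_apply contDiff_id), fun x v => ?_⟩
  have h := ((hasFDerivAt_const a x).add L'.hasFDerivAt).add
    (M'.hasFDerivAt.clm_apply (hasFDerivAt_id x))
  refine (congrArg (fun f : X →L[ℝ] Z => f v) h.fderiv).trans ?_
  simp [L', M', add_comm]

theorem gal2_cx {V : Type} [AddCommGroup V] [Module ℝ V] [Module ℂ V] [IsScalarTower ℝ ℂ V]
    (E : Submodule ℝ V) [FiniteDimensional ℝ E] (hE : ∀ z : ℂ, ∀ s ∈ E, z • s ∈ E) :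
    ∃ U : Submodule ℂ V, (∀ s, s ∈ U ↔ s ∈ E) ∧ FiniteDimensional ℂ U ∧
      Module.finrank ℝ E = 2 * Module.finrank ℂ U := by
  let U : Submodule ℂ V := ⟨E.toAddSubmonoid, fun z s hs => hE z s hs⟩
  let e : E ≃ₗ[ℝ] U :=
    { toFun := fun x => ⟨x.1, x.2⟩
      invFun := fun x => ⟨x.1, x.2⟩
      map_add' := fun _ _ => rfl
      map_smul' := fun _ _ => rfl
      left_inv := fun _ => rfl
      right_inv := fun _ => rfl }
  have := e.finiteDimensional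
  refine ⟨U, fun _ => Iff.rfl, Module.Finite.of_restrictScalars_finite ℝ ℂ U, ?_⟩
  rw [e.finrank_eq, ← Module.finrank_mul_finrank ℝ ℂ U, Complex.finrank_real_complex]

theorem gal2_perp {V : Type} [NormedAddCommGroup V] [InnerProductSpace ℝ V] (E : Submodule ℝ V)
    [FiniteDimensional ℝ E] {e : V} (he : e ∈ E) (h0 : e ≠ 0) :
    ∃ (Y : Submodule ℝ V) (q : V →ₗ[ℝ] Y), FiniteDimensional ℝ Y ∧
      Module.finrank ℝ E = Module.finrank ℝ Y + 1 ∧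
      ∀ x, inner ℝ e x = 0 → q x = 0 → ∀ u ∈ E, inner ℝ x u = 0 := by
  have h1 : (ℝ ∙ e) ≤ E := (Submodule.span_singleton_le_iff_mem _ _).2 he
  have : FiniteDimensional ℝ ((ℝ ∙ e)ᗮ ⊓ E : Submodule ℝ V) :=
    Submodule.finiteDimensional_of_le inf_le_right
  have : CompleteSpace ((ℝ ∙ e)ᗮ ⊓ E : Submodule ℝ V) := FiniteDimensional.complete ℝ _
  refine ⟨(ℝ ∙ e)ᗮ ⊓ E, ((ℝ ∙ e)ᗮ ⊓ E).orthogonalProjectionOnto.toLinearMap, inferInstance, ?_,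
    fun x hx hq u hu => ?_⟩
  · rw [← Submodule.finrank_add_inf_finrank_orthogonal h1, finrank_span_singleton h0, add_comm]
  · have h2 := Submodule.orthogonalProjectionOnto_eq_zero_iff.1 hq
    have h3 : inner ℝ e e ≠ 0 := inner_self_ne_zero.2 h0
    have h4 := h2 (u - (inner ℝ e u / inner ℝ e e) • e)
      ⟨Submodule.mem_orthogonal_singleton_iff_inner_right.2 (by
        rw [inner_sub_right, real_inner_smul_right, div_mul_cancel₀ _ h3, sub_self]),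
        E.sub_mem hu (E.smul_mem _ he)⟩
    rwa [inner_sub_left, real_inner_smul_left, hx, mul_zero, sub_zero, real_inner_comm] at h4

theorem gal2_top {V V' U U' Y Y' : Type} [AddCommGroup V] [Module ℝ V] [Module ℂ V]
    [IsScalarTower ℝ ℂ V] [AddCommGroup V'] [Module ℝ V'] [Module ℂ V'] [IsScalarTower ℝ ℂ V']
    [NormedAddCommGroup U] [NormedSpace ℂ U] [FiniteDimensional ℂ U]
    [NormedAddCommGroup U'] [NormedSpace ℂ U'] [FiniteDimensional ℂ U']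
    [NormedAddCommGroup Y] [NormedSpace ℝ Y] [FiniteDimensional ℝ Y]
    [NormedAddCommGroup Y'] [NormedSpace ℝ Y'] [FiniteDimensional ℝ Y']
    (hdim : 2 * Module.finrank ℂ U + Module.finrank ℝ Y =
      2 * Module.finrank ℂ U' + Module.finrank ℝ Y' + 1)
    (i : U →ₗ[ℂ] V) (j : Y →ₗ[ℝ] V') (p : V' →ₗ[ℂ] U') (q : V →ₗ[ℝ] Y')
    (hi : Function.Injective i) (hj : Function.Injective j)
    (D : V →ₗ[ℝ] V') (Q : V' →ₗ[ℝ] V) (ρ : V' →ₗ[ℝ] V →ₗ[ℝ] V') (σ : V →ₗ[ℝ] V →ₗ[ℝ] V)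
    (ξ₀ ξ₁ ζ : V) (hD : ∀ (z : ℂ) s, D (z • s) = z • D s)
    (hρ : ∀ χ (z : ℂ) s, ρ χ (z • s) = z • ρ χ s)
    (hσ : ∀ z : ℂ, ‖z‖ = 1 → ∀ s, σ (z • s) (z • s) = σ s s)
    (n : Seminorm ℝ V) (n' : Seminorm ℝ V') (hn : ∀ s, n s = 0 → s = 0)
    (hn' : ∀ s, n' s = 0 → s = 0) (hz : ∀ z : ℂ, ‖z‖ = 1 → ∀ s, n (z • s) = n s) (R : ℝ)
    (h1 : ∀ t ∈ Set.Icc (0 : ℝ) 1, ∀ u y, p (D (i u) + ρ (j y) (i u)) = 0 →
      q (Q (j y) + σ (i u) (i u) - ((1 - t) • ξ₀ + t • ξ₁ + (t * (1 - t)) • ζ)) = 0 →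
      n (i u) + n' (j y) ≤ R → n (i u) + n' (j y) ≠ R ∧ i u ≠ 0 ∧ t ≠ 1)
    (u₀ : U) (hR : n (i u₀) ≤ R) (z1 : D (i u₀) = 0) (z2 : σ (i u₀) (i u₀) = ξ₀)
    (uniq : ∀ u y, p (D (i u) + ρ (j y) (i u)) = 0 → q (Q (j y) + σ (i u) (i u) - ξ₀) = 0 →
      n (i u) + n' (j y) ≤ R → j y = 0 ∧ ∃ z : ℂ, ‖z‖ = 1 ∧ i u = z • i u₀)
    (nd : i u₀ ≠ 0 → ∀ u y, p (D (i u) + ρ (j y) (i u₀)) = 0 →
      q (Q (j y) + (σ (i u) (i u₀) + σ (i u₀) (i u))) = 0 →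
      j y = 0 ∧ ∃ t : ℝ, i u = ((t : ℂ) * Complex.I) • i u₀) : False := by
  let a : ℝ × U × Y →ₗ[ℝ] V :=
    i.restrictScalars ℝ ∘ₗ LinearMap.fst ℝ U Y ∘ₗ LinearMap.snd ℝ ℝ (U × Y)
  let b : ℝ × U × Y →ₗ[ℝ] V' := j ∘ₗ LinearMap.snd ℝ U Y ∘ₗ LinearMap.snd ℝ ℝ (U × Y)
  let τ : ℝ × U × Y →ₗ[ℝ] ℝ := LinearMap.fst ℝ ℝ (U × Y)
  let F : ℝ × U × Y → U' × Y' := fun x => (p (D (i x.2.1) + ρ (j x.2.2) (i x.2.1)),
    q (Q (j x.2.2) + σ (i x.2.1) (i x.2.1) -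
      ((1 - x.1) • ξ₀ + x.1 • ξ₁ + (x.1 * (1 - x.1)) • ζ)))
  obtain ⟨hF, hF'⟩ := gal2_quad (F := F) (0, -q ξ₀)
    ((p.restrictScalars ℝ ∘ₗ D ∘ₗ a).prod (q ∘ₗ (Q ∘ₗ b - τ.smulRight (ξ₁ - ξ₀ + ζ))))
    ((ρ.compl₁₂ b a).compr₂ (LinearMap.inl ℝ U' Y' ∘ₗ p.restrictScalars ℝ) +
      (σ.compl₁₂ a a + τ.smulRight (τ.smulRight ζ)).compr₂ (LinearMap.inr ℝ U' Y' ∘ₗ q))
    fun x => by
      refine Prod.ext (by simp [F, a, b]) ?_
      simp only [F, a, b, τ, Prod.snd_add, LinearMap.prod_apply, Function.prod, LinearMap.add_apply,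
        LinearMap.compr₂_apply, LinearMap.compl₁₂_apply, LinearMap.comp_apply,
        LinearMap.sub_apply, LinearMap.smulRight_apply, LinearMap.smul_apply, LinearMap.inl_apply,
        LinearMap.inr_apply, LinearMap.fst_apply, LinearMap.snd_apply,
        LinearMap.restrictScalars_apply, map_add, map_sub, map_smul, Prod.smul_snd]
      module
  let N : Seminorm ℝ (U × Y) :=
    n.comp (i.restrictScalars ℝ ∘ₗ LinearMap.fst ℝ U Y) + n'.comp (j ∘ₗ LinearMap.snd ℝ U Y)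
  have hN : ∀ x, N x = n (i x.1) + n' (j x.2) := fun _ => rfl
  have k1 : ∀ t ∈ Set.Icc (0 : ℝ) 1, ∀ x, F (t, x) = 0 → N x ≤ R → N x ≠ R ∧ i x.1 ≠ 0 ∧ t ≠ 1 :=
    fun t ht x h => h1 t ht x.1 x.2 (congrArg Prod.fst h) (congrArg Prod.snd h)
  have k2 : N (u₀, 0) ≤ R := by simpa [hN] using hR
  have k3 : F (0, u₀, 0) = 0 := Prod.ext (by simp [F, z1]) (by simp [F, z2])
  refine top hdim F hF (fun t z u y h => ?_) N (fun x h => ?_) (fun z u y h => ?_) R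
    (fun t ht x h h0 => (k1 t ht x h0 h.le).1 h)
    (fun t ht y h h0 => (k1 t ht _ h0 h).2.1 (map_zero i))
    (fun x h h0 => (k1 1 ⟨zero_le_one, le_rfl⟩ x h0 h).2.2 rfl) u₀ 0 k2 k3 (fun u y h h0 => ?_)
    fun u y h => ?_
  · simp only [F, map_smul, hD, hρ, hσ z h, ← smul_add]
  · rw [hN, add_eq_zero_iff_of_nonneg (apply_nonneg _ _) (apply_nonneg _ _)] at h
    exact Prod.ext (hi ((hn _ h.1).trans (map_zero i).symm))
      (hj ((hn' _ h.2).trans (map_zero j).symm))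
  · rw [hN, hN, map_smul, hz z h]
  · obtain ⟨c1, z, c2, c3⟩ := uniq u y (congrArg Prod.fst h0)
      (by simpa [F] using congrArg Prod.snd h0) h
    exact ⟨z, c2, hi (c3.trans (map_smul i _ _).symm), hj (c1.trans (map_zero j).symm)⟩
  · rw [hF'] at h
    obtain ⟨c1, t, c2⟩ := nd (k1 0 ⟨le_rfl, zero_le_one⟩ _ k3 k2).2.1 u y
      (by simpa [a, b, τ] using congrArg Prod.fst h) (by simpa [a, b, τ] using congrArg Prod.snd h)
    exact ⟨t, hi (c2.trans (map_smul i _ _).symm), hj (c1.trans (map_zero j).symm)⟩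

variable {P A : Type} [TopologicalSpace P] [CompactSpace P] [CommRing A] [StarRing A] [Algebra ℂ A]
  [StarModule ℂ A] {B : Base P A}

theorem Geo.gal_top [Nonempty P] (G : Geo B) {Q' : G.Sec (wp 0) →ₗ[ℝ] G.Sec (wm 0)}
    (hQ : Pre.Ell G.Q Q') {c : ℝ} (ξ₁ ζ : G.Sec (wp 0)) (o₁ : inner ℝ G.e1 ξ₁ = 0)
    (o₂ : inner ℝ G.e1 ζ = 0) (Λ R : ℝ)
    (h1 : ∀ t ∈ Set.Icc (0 : ℝ) 1, ∀ ψ χ, G.GalSol Q' Λ
      ((1 - t) • (((c : ℂ) ^ 2 * Complex.I / 2) • G.e1) + t • ξ₁ + (t * (1 - t)) • ζ) ψ χ →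
      ψ.nS 4 + χ.nS 4 ≤ R → ψ.nS 4 + χ.nS 4 ≠ R ∧ ψ ≠ 0 ∧ t ≠ 1)
    (hR : ((c : ℂ) • G.e1).nS 4 ≤ R)
    (uniq : ∀ ψ χ, G.GalSol Q' Λ (((c : ℂ) ^ 2 * Complex.I / 2) • G.e1) ψ χ →
      ψ.nS 4 + χ.nS 4 ≤ R → χ = 0 ∧ ∃ z : ℂ, ‖z‖ = 1 ∧ ψ = z • (c : ℂ) • G.e1)
    (nd : ∀ ψ ∈ eig (G.dirac 0) (G.diracAdj 0) Λ, ∀ χ ∈ eig G.Q Q' Λ,
      (∀ u ∈ eig (G.diracAdj 0) (G.dirac 0) Λ,
        inner ℝ (G.dirac 0 ψ + c • G.rho 0 χ G.e1) u = 0) →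
      (∀ u ∈ eig Q' G.Q Λ, inner ℝ (G.Q χ + (2 * c) • G.sig G.e1 ψ) u = 0) →
      χ = 0 ∧ ∃ t : ℝ, ψ = ((t : ℂ) * Complex.I) • G.e1) : False := by
  have hD := G.pair (G.dirac_ell 0)
  have hQ' := G.pair hQ
  have := hD.eig_fd Λ
  have := hD.symm.eig_fd Λ
  have := hQ'.eig_fd Λ
  have := hQ'.symm.eig_fd Λ
  have e0 : G.e1 ≠ 0 := fun h => by
    have h2 : (1 : A) = 0 := congrArg (·.c 0) h
    obtain ⟨p⟩ := (inferInstance : Nonempty P)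
    simpa using congrArg (B.ev · p) h2
  have cr : ∀ {w : Fin 2 → Wt} (s t : G.Sec w), inner ℝ s t = (inner ℂ s t).re := fun _ _ => rfl
  have cs : ∀ {w : Fin 2 → Wt} (r : ℝ) (s : G.Sec w), (r : ℂ) • s = r • s := fun _ _ => rfl
  have eQ : ∀ χ, inner ℝ G.e1 (G.Q χ) = 0 := fun χ => by rw [cr, G.inner_e1_Q]; rfl
  have eE : G.e1 ∈ eig Q' G.Q Λ := ker_le_eig _ _ _ ((inner_self_eq_zero (𝕜 := ℝ)).1 (by
    rw [← hQ.adj, real_inner_comm, eQ]))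
  have o₀ : inner ℝ G.e1 (((c : ℂ) ^ 2 * Complex.I / 2) • G.e1) = 0 := by
    rw [cr, inner_smul_right, inner_self_eq_norm_sq_to_K]
    simp [← Complex.ofReal_pow]
  obtain ⟨U, hU, _, dU⟩ := gal2_cx (eig (G.dirac 0) (G.diracAdj 0) Λ) fun z s hs =>
    eig_symm Λ ((LinearMap.lsmul ℂ _ z).restrictScalars ℝ)
      (fun s => by simp [G.dirac_smul, G.diracAdj_smul]) hs
  obtain ⟨U', hU', _, dU'⟩ := gal2_cx (eig (G.diracAdj 0) (G.dirac 0) Λ) fun z s hs =>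
    eig_symm Λ ((LinearMap.lsmul ℂ _ z).restrictScalars ℝ)
      (fun s => by simp [G.dirac_smul, G.diracAdj_smul]) hs
  obtain ⟨Y', q, _, dY, hq⟩ := gal2_perp _ eE e0
  have : CompleteSpace U' := FiniteDimensional.complete ℂ _
  have hp : ∀ x, U'.orthogonalProjectionOnto x = 0 →
      ∀ u ∈ eig (G.diracAdj 0) (G.dirac 0) Λ, inner ℝ x u = 0 := fun x hx u hu => by
    rw [real_inner_comm, cr,
      Submodule.orthogonalProjectionOnto_eq_zero_iff.1 hx u ((hU' u).2 hu)]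
    rfl
  have i1 : G.ind 0 = _ := hD.index_eig Λ
  have i2 := hQ'.index_eig Λ
  have i3 := G.Q_index
  have n0 : ∀ {w : Fin 2 → Wt} (s : G.Sec w), s.nS 4 = 0 → s = 0 := fun s h =>
    norm_le_zero_iff.1 (h ▸ s.norm_le_nS 4)
  let n : ∀ w : Fin 2 → Wt, Seminorm ℝ (G.Sec w) := fun w =>
    Seminorm.of (fun s => s.nS 4) (fun s t => s.nS_add t 4) fun r s => Pre.Sec.nS_rsmul r s 4
  let ρ : G.Sec (wm 0) →ₗ[ℝ] G.Sec (wp 0) →ₗ[ℝ] G.Sec (wm 0) :=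
    { toFun := G.rho 0
      map_add' := fun χ χ' => LinearMap.ext (G.rho_add_left 0 χ χ')
      map_smul' := fun r χ => LinearMap.ext (G.rho_smul_left 0 r χ) }
  let σ : G.Sec (wp 0) →ₗ[ℝ] G.Sec (wp 0) →ₗ[ℝ] G.Sec (wp 0) :=
    { toFun := G.sig
      map_add' := fun s t => LinearMap.ext fun u => by
        rw [LinearMap.add_apply, G.sig_comm, map_add, G.sig_comm s, G.sig_comm t]
      map_smul' := fun r s => LinearMap.ext fun u => by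
        rw [LinearMap.smul_apply, G.sig_comm, map_smul, G.sig_comm s, RingHom.id_apply] }
  have z1 : G.dirac 0 ((c : ℂ) • G.e1) = 0 := by rw [G.dirac_smul, G.dirac_e1, smul_zero]
  refine gal2_top (U := U) (U' := U') (Y := eig G.Q Q' Λ) (Y' := Y') (by omega) U.subtype
    (eig G.Q Q' Λ).subtype U'.orthogonalProjectionOnto.toLinearMap q U.subtype_injective
    (Submodule.subtype_injective _) (G.dirac 0) G.Q ρ σ (((c : ℂ) ^ 2 * Complex.I / 2) • G.e1) ξ₁ ζ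
    (G.dirac_smul 0) (G.rho_smul 0) (fun z hz s => G.sig_unit z hz s s) (n _) (n _) n0 n0
    (fun z hz s => (Pre.Sec.nS_smul z s 4).trans (by rw [hz, one_mul]; rfl)) R
    (fun t ht u y a1 a2 => h1 t ht u y ⟨(hU _).1 u.2, y.2, hp _ a1, hq _ ?_ a2⟩)
    ⟨(c : ℂ) • G.e1, (hU _).2 (ker_le_eig _ _ _ z1)⟩ hR z1 ?_
    (fun u y a1 a2 => uniq u y ⟨(hU _).1 u.2, y.2, hp _ a1, hq _ ?_ a2⟩) fun h0 u y a1 a2 => ?_
  · simp only [inner_sub_right, inner_add_right, real_inner_smul_right, eQ, G.inner_e1_sig, o₀, o₁,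
      o₂, mul_zero, add_zero, sub_zero]
  · change G.sig ((c : ℂ) • G.e1) ((c : ℂ) • G.e1) = _
    rw [cs, map_smul, G.sig_comm, map_smul, G.sig_e1, ← cs, ← cs, smul_smul, smul_smul]
    congr 1
    ring
  · rw [inner_sub_right, inner_add_right, eQ, G.inner_e1_sig, o₀, add_zero, sub_zero]
  · have c0 : (c : ℂ) ≠ 0 := fun h => h0 (by
      change (c : ℂ) • G.e1 = 0
      rw [h, zero_smul])
    have b1 : G.rho 0 y ((c : ℂ) • G.e1) = c • G.rho 0 y G.e1 := by rw [cs, map_smul]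
    have b2 : G.sig u ((c : ℂ) • G.e1) + G.sig ((c : ℂ) • G.e1) u = (2 * c) • G.sig G.e1 u := by
      rw [G.sig_comm _ u.1, cs, map_smul, G.sig_comm, two_mul, add_smul]
    obtain ⟨c1, t, c2⟩ := nd u ((hU _).1 u.2) y y.2 (b1 ▸ hp _ a1) (b2 ▸ hq _ (by
      rw [inner_add_right, inner_add_right, eQ, G.inner_e1_sig, G.inner_e1_sig, add_zero,
        add_zero]) a2)
    refine ⟨c1, t / c, c2.trans ?_⟩
    change _ = _ • (c : ℂ) • G.e1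
    rw [smul_smul]
    congr 1
    push_cast
    field_simp

end SW4
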