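import Pool.Agent.P.MP_0a0487_an.SW.CovA
import Pool.Agent.P.MP_0a0487_an.SW.IntAux

/-! Construction of the integral; Stokes' formula; change of variables. -/

set_option autoImplicit false
set_option linter.unusedSectionVars false

noncomputable section

namespace SW4

open scoped ComplexOrder ContDiff
open Filter Topology

variable {P A : Type} [TopologicalSpace P] [CompactSpace P] [CommRing A] [StarRing A] [Algebra ℂ A]
  [StarModule ℂ A] {B : Base P A}

open MeasureTheory Matrix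

section

variable {G : Calc B} {a : Atl G}

theorem int_loc_add (i : Fin a.n) (s t : A) (y : E4) :
    a.loc i (s + t) y = a.loc i s y + a.loc i t y := by
  by_cases hy : y ∈ a.O i <;> simp [Atl.loc, hy]

theorem int_loc_smul (i : Fin a.n) (c : ℂ) (s : A) (y : E4) :
    a.loc i (c • s) y = c * a.loc i s y := by
  by_cases hy : y ∈ a.O i <;> simp [Atl.loc, hy]

theorem int_loc_sum {ι : Type} (T : Finset ι) (i : Fin a.n) (s : ι → A) (y : E4) :
    a.loc i (∑ j ∈ T, s j) y = ∑ j ∈ T, a.loc i (s j) y := by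
  by_cases hy : y ∈ a.O i <;> simp [Atl.loc, hy]

theorem int_loc_of_mem {i : Fin a.n} (s : A) {y : E4} (hy : y ∈ a.O i) :
    a.loc i s y = B.ev s (a.pr i y) := Set.indicator_of_mem hy _

theorem int_loc_ev {i : Fin a.n} (s : A) {y : E4} (hy : y ∈ a.O i) :
    a.loc i s =ᶠ[𝓝 y] fun y => B.ev s (a.pr i y) := by
  filter_upwards [(a.O_open i).mem_nhds hy] with z hz using int_loc_of_mem s hz

theorem int_supp_right {i : Fin a.n} {K : Set E4} {s : A} (h : a.Supp i K s) (t : A) :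
    a.Supp i K (s * t) := mul_comm t s ▸ h.mul_left t

theorem int_contOn {i : Fin a.n} {K : Set E4} (hK : IsCompact K) (hs : K ⊆ a.O i) {s : A}
    (h : a.Supp i K s) : ContinuousOn (fun y => a.loc i s y * a.dens i y) (a.O i) :=
  (a.loc_test hK hs h).1.continuous.continuousOn.mul
    (Complex.continuous_ofReal.comp_continuousOn (a.dens_sm i).continuousOn)

theorem int_integrable {i : Fin a.n} {K : Set E4} (hK : IsCompact K) (hs : K ⊆ a.O i) {s : A}
    (h : a.Supp i K s) : Integrable fun y => a.loc i s y * a.dens i y := by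
  refine (integrableOn_iff_integrable_of_support_subset (s := K) fun y hy => ?_).1
    (((int_contOn hK hs h).mono hs).integrableOn_compact hK)
  by_contra hn
  exact hy (by simp only [(a.loc_test hK hs h).2 y hn, zero_mul])

/-- The integral defined by a partition of unity. -/
def intI (π : a.POU) : A →ₗ[ℂ] ℂ where
  toFun s := ∑ i, ∫ y, a.loc i (π.ρ i * s) y * a.dens i y
  map_add' s t := by
    rw [← Finset.sum_add_distrib]
    refine Finset.sum_congr rfl fun i _ => ?_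
    rw [← integral_add (int_integrable (π.cpt i) (π.sub i) (int_supp_right (π.supp i) s))
      (int_integrable (π.cpt i) (π.sub i) (int_supp_right (π.supp i) t))]
    simp only [mul_add, int_loc_add, add_mul]
  map_smul' c s := by
    simp only [mul_smul_comm, int_loc_smul, mul_assoc, integral_const_mul, RingHom.id_apply,
      smul_eq_mul, Finset.mul_sum]

theorem intI_apply (π : a.POU) (s : A) :
    intI π s = ∑ i, ∫ y, a.loc i (π.ρ i * s) y * a.dens i y := rfl

theorem int_rho_nonneg (π : a.POU) (i : Fin a.n) (p : P) : 0 ≤ B.ev (π.ρ i) p := by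
  refine Complex.nonneg_iff.2 ⟨π.nonneg i p, ?_⟩
  have h := B.ev_star (π.ρ i) p
  rw [(π.re i).2] at h
  exact (Complex.conj_eq_iff_im.1 h.symm).symm

theorem int_term_nonneg (π : a.POU) {s : A} (h : ∀ p, 0 ≤ B.ev s p) (i : Fin a.n) (y : E4) :
    0 ≤ a.loc i (π.ρ i * s) y * a.dens i y := by
  refine mul_nonneg ?_ (Complex.zero_le_real.2 (inv_nonneg.2 (norm_nonneg _)))
  by_cases hy : y ∈ a.O i
  · rw [int_loc_of_mem _ hy, map_mul]
    exact mul_nonneg (int_rho_nonneg π i _) (h _)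
  · rw [Atl.loc, Set.indicator_of_notMem hy]

theorem intI_nonneg (π : a.POU) (s : A) (h : ∀ p, 0 ≤ B.ev s p) : 0 ≤ intI π s :=
  Finset.sum_nonneg fun i _ => integral_nonneg (int_term_nonneg π h i)

theorem int_sum_rho (π : a.POU) (s : A) : ∑ i, π.ρ i * s = s := by
  rw [← Finset.sum_mul, π.sum, one_mul]

theorem intI_def (π : a.POU) (s : A) (s0 : s ∈ B.W 0) (h : ∀ p, 0 ≤ B.ev s p)
    (h0 : intI π s = 0) : s = 0 := by
  have h1 := (Finset.sum_eq_zero_iff_of_nonneg (s := Finset.univ)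
    fun i _ => integral_nonneg (μ := volume) (int_term_nonneg π h i)).1 h0
  rw [← int_sum_rho π s]
  refine Finset.sum_eq_zero fun i hi => B.ext' fun p => ?_
  have sp := int_supp_right (π.supp i) s
  have hI := int_integrable (π.cpt i) (π.sub i) sp
  have h2 : ∫ y, (a.loc i (π.ρ i * s) y * a.dens i y).re = 0 := by
    have := integral_re hI
    simp only [RCLike.re_to_complex] at this
    rw [this, h1 i hi, Complex.zero_re]
  have h3 := (integral_eq_zero_iff_of_nonneg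
    (fun y => (Complex.nonneg_iff.1 (int_term_nonneg π h i y)).1) hI.re).1 h2
  have h4 : (fun y => a.loc i (π.ρ i * s) y * a.dens i y) =ᵐ[volume] fun _ => 0 := by
    filter_upwards [h3] with y hy
    exact Complex.ext hy (Complex.nonneg_iff.1 (int_term_nonneg π h i y)).2.symm
  have h5 := Measure.eqOn_open_of_ae_eq (ae_restrict_of_ae h4) (a.O_open i)
    (int_contOn (π.cpt i) (π.sub i) sp) continuousOn_const
  rw [map_zero, ContinuousMap.zero_apply]
  by_contra hn
  have hp := (sp p hn).1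
  have h6 : a.loc i (π.ρ i * s) (a.ψ i p) * a.dens i (a.ψ i p) = 0 := h5 (a.ψ_mem i p hp)
  rw [← a.ev_eq_loc (B.mul_mem' (π.re i).1 s0 (add_zero _)) hp] at h6
  exact mul_ne_zero hn (Complex.ofReal_ne_zero.2 (a.dens_pos i (a.ψ_mem i p hp)).ne') h6

theorem intI_loc (π : a.POU) (i : Fin a.n) (K : Set E4) (hK : IsCompact K) (hs : K ⊆ a.O i)
    (s : A) (s0 : s ∈ B.W 0) (h : a.Supp i K s) :
    intI π s = ∫ y, a.loc i s y * a.dens i y := by
  have e : ∀ j, ∫ y, a.loc j (π.ρ j * s) y * a.dens j y =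
      ∫ y, a.loc i (π.ρ j * s) y * a.dens i y := fun j =>
    (a.cov_id hK hs (π.cpt j) (π.sub j) (B.mul_mem' (π.re j).1 s0 (add_zero _))
      (int_supp_right (π.supp j) s) (h.mul_left _)).symm
  rw [intI_apply, Finset.sum_congr rfl fun j _ => e j,
    ← integral_finsetSum _ fun j _ => int_integrable hK hs (h.mul_left _)]
  simp only [← Finset.sum_mul, ← int_loc_sum, π.sum, one_mul]

theorem int_wg_supp {i : Fin a.n} {K : Set E4} (hK : IsCompact K) (hs : K ⊆ a.O i) {p : A}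
    (p0 : p ∈ B.W 0) (h : a.Supp i K p) (q : A) (b : Fin 4 → Fin 4 → A) :
    a.Supp i K (wg (G.dd p q) b) := by
  intro x hx
  by_contra hn
  have h0 : ∀ α, B.ev (G.D α p) x = 0 := fun α => by
    by_contra h1
    exact hn (Atl.Supp.D hK hs p0 h α x h1)
  exact hx (by simp [wg, Calc.dd, w1, Calc.d0, h0])

theorem int_stokes_loc {i : Fin a.n} {K : Set E4} (hK : IsCompact K) (hs : K ⊆ a.O i)
    {s : Fin 4 → A} (s0 : ∀ m, s m ∈ B.W 0) (h : a.Supp i K (s 0)) :
    ∫ y, a.loc i (wg (G.dd (s 0) (s 1)) (G.dd (s 2) (s 3))) y * a.dens i y = 0 := by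
  obtain ⟨c, -, hc⟩ := a.det_sign i
  obtain ⟨χ, K', -, hK', hs', hχ, -, h1⟩ := a.exists_cut hK hs
  have t0 := a.loc_test hK hs (h.mul_left χ)
  have e : ∀ y, a.loc i (wg (G.dd (s 0) (s 1)) (G.dd (s 2) (s 3))) y * a.dens i y =
      c * (Matrix.of fun m j => pd j (a.loc i (χ * s m)) y).det := by
    intro y
    by_cases hy : y ∈ K
    · have e1 : ∀ m j, pd j (a.loc i (χ * s m)) y = pd j (fun y => B.ev (s m) (a.pr i y)) y := by
        intro m j
        refine int_pd_congr ?_ j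
        filter_upwards [int_loc_ev (χ * s m) (hs hy), h1.filter_mono (nhds_le_nhdsSet hy)]
          with z hz hz'
        rw [hz, map_mul, ContinuousMap.mul_apply, hz', one_mul]
      simp only [e1]
      rw [int_loc_of_mem _ (hs hy), a.wg_dd_loc i (hs hy) s0, ← hc y (hs hy)]
      ring
    · have e1 : ∀ j, pd j (a.loc i (χ * s 0)) y = 0 := by
        intro j
        have : a.loc i (χ * s 0) =ᶠ[𝓝 y] fun _ => 0 := by
          filter_upwards [hK.isClosed.isOpen_compl.mem_nhds hy] with z hz using t0.2 z hz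
        rw [int_pd_congr this]
        simp [pd]
      rw [(a.loc_test hK hs (int_wg_supp hK hs (s0 0) h _ _)).2 y hy,
        Matrix.det_eq_zero_of_row_eq_zero 0 e1, zero_mul, mul_zero]
  simp only [e]
  rw [integral_const_mul, int_det_zero (φ := fun m => a.loc i (χ * s m))
    (fun m => (a.loc_test hK' hs' (int_supp_right hχ _)).1) (HasCompactSupport.intro hK t0.2),
    mul_zero]

theorem int_wg_sum {ι : Type} (T : Finset ι) (p : ι → A) (q : A) (b : Fin 4 → Fin 4 → A) :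
    wg (G.dd (∑ i ∈ T, p i) q) b = ∑ i ∈ T, wg (G.dd (p i) q) b := by
  simp only [wg, Calc.dd, w1, Calc.d0, map_sum, Finset.sum_mul, ← Finset.sum_sub_distrib,
    ← Finset.sum_add_distrib]

theorem intI_stokes (π : a.POU) (p : A) (p0 : p ∈ B.W 0) (q : A) (q0 : q ∈ B.W 0) (r : A)
    (r0 : r ∈ B.W 0) (s : A) (s0 : s ∈ B.W 0) : intI π (wg (G.dd p q) (G.dd r s)) = 0 := by
  rw [← int_sum_rho π p, int_wg_sum, map_sum]
  refine Finset.sum_eq_zero fun i _ => ?_
  have m0 : π.ρ i * p ∈ B.W 0 := B.mul_mem' (π.re i).1 p0 (add_zero _)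
  have sp := int_supp_right (π.supp i) p
  rw [intI_loc π i _ (π.cpt i) (π.sub i) _ ((G.dd_form m0 q0).wg_mem (G.dd_form r0 s0))
    (int_wg_supp (π.cpt i) (π.sub i) m0 sp _ _)]
  refine int_stokes_loc (s := ![π.ρ i * p, q, r, s]) (π.cpt i) (π.sub i) (fun m => ?_) sp
  fin_cases m
  exacts [m0, q0, r0, s0]

theorem int_wg_pull (f : PMap G) {p q r t : A} (p0 : p ∈ B.W 0) (q0 : q ∈ B.W 0) (r0 : r ∈ B.W 0)
    (t0 : t ∈ B.W 0) (x : P) :
    B.ev (wg (G.dd (f.Φ p) (f.Φ q)) (G.dd (f.Φ r) (f.Φ t))) x =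
      (f.J x).det * B.ev (wg (G.dd p q) (G.dd r t)) (f.pt x) := by
  have h1 := B.wg_basis (G.dd_form (f.mem p p0) (f.mem q q0)) (G.dd_form (f.mem r r0) (f.mem t t0))
    x 1
  have h2 := B.wg_basis (G.dd_form p0 q0) (G.dd_form r0 t0) (f.pt x) (f.J x)ᵀ
  have e : ∀ i, f.J x *ᵥ (1 : Matrix (Fin 4) (Fin 4) ℝ) i = (f.J x)ᵀ i := fun i => by
    funext j
    simp [Matrix.mulVec, dotProduct, Matrix.one_apply]
  simp only [G.b2_dd, f.chain _ p0, f.chain _ q0, f.chain _ r0, f.chain _ t0, e] at h1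
  simp only [G.b2_dd] at h2
  rw [h1, Matrix.det_one, Matrix.det_transpose] at h2
  push_cast at h2
  linear_combination (-4 : ℂ) * h2

end

theorem Atl.exists_int {G : Calc B} (a : Atl G) : ∃ (I : A →ₗ[ℂ] ℂ) (h₁ : _) (h₂ : _) (h₃ : _),
    IsInt (⟨G, I, h₁, h₂, h₃⟩ : Pre B) a := by
  obtain ⟨π⟩ := a.exists_pou
  exact ⟨intI π, intI_nonneg π, intI_def π, intI_stokes π, intI_loc π⟩

theorem int_cov {G : Pre B} {a : Atl G.toCalc} (h : IsInt G a) (f : PMap G.toCalc) {X m : A}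
    (X0 : X ∈ B.W 0) (m0 : m ∈ B.W 0) (e : ∀ x, B.ev X x = (f.J x).det * B.ev m (f.pt x)) :
    G.I X = G.I m := by
  obtain ⟨π⟩ := a.exists_pou
  have ρ0 := fun i => (π.re i).1
  have s1 : ∑ j, f.Φ (π.ρ j) = 1 := B.ext' fun x => by
    rw [map_sum, ContinuousMap.sum_apply, Finset.sum_congr rfl fun j _ => f.ev_eq _ (ρ0 j) x,
      ← ContinuousMap.sum_apply, ← map_sum, π.sum, map_one]
    rfl
  have s2 : ∑ j, f.Φ' (π.ρ j) = 1 := B.ext' fun x => by
    rw [map_sum, ContinuousMap.sum_apply, Finset.sum_congr rfl fun j _ => f.ev_eq' _ (ρ0 j) x,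
      ← ContinuousMap.sum_apply, ← map_sum, π.sum, map_one]
    rfl
  have eX : X = ∑ i, ∑ j, π.ρ i * (f.Φ (π.ρ j) * X) := by
    simp only [← Finset.mul_sum, ← Finset.sum_mul, s1, π.sum, one_mul]
  have em : m = ∑ i, ∑ j, π.ρ j * (f.Φ' (π.ρ i) * m) := by
    simp only [← Finset.sum_mul, s2, π.sum, one_mul]
  rw [eX, em]
  simp only [map_sum]
  refine Finset.sum_congr rfl fun i _ => Finset.sum_congr rfl fun j _ => ?_
  have n0 : π.ρ j * (f.Φ' (π.ρ i) * m) ∈ B.W 0 :=
    B.mul_mem' (ρ0 j) (B.mul_mem' (f.mem' _ (ρ0 i)) m0 (add_zero _)) (add_zero _)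
  have Y0 : π.ρ i * (f.Φ (π.ρ j) * X) ∈ B.W 0 :=
    B.mul_mem' (ρ0 i) (B.mul_mem' (f.mem _ (ρ0 j)) X0 (add_zero _)) (add_zero _)
  have e1 : ∀ x, B.ev (f.Φ (π.ρ j * (f.Φ' (π.ρ i) * m))) x =
      B.ev (π.ρ i) x * (B.ev (π.ρ j) (f.pt x) * B.ev m (f.pt x)) := fun x => by
    rw [f.ev_eq _ n0, map_mul, map_mul, ContinuousMap.mul_apply, ContinuousMap.mul_apply,
      f.ev_eq' _ (ρ0 i), a.ev_eq_of_E (f.inv x) (ρ0 i)]
    ring
  have sp : a.Supp i (π.K i) (f.Φ (π.ρ j * (f.Φ' (π.ρ i) * m))) := fun x hx =>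
    π.supp i x fun h0 => hx (by rw [e1, h0, zero_mul])
  rw [h i _ (π.cpt i) (π.sub i) _ Y0 (int_supp_right (π.supp i) _),
    h j _ (π.cpt j) (π.sub j) _ n0 (int_supp_right (π.supp j) _),
    ← a.cov_chart f (π.cpt i) (π.sub i) (π.cpt j) (π.sub j) n0 (int_supp_right (π.supp j) _) sp]
  refine integral_congr_ae (Eventually.of_forall fun y => ?_)
  by_cases hy : y ∈ a.O i
  · simp only [int_loc_of_mem _ hy, e1, map_mul, ContinuousMap.mul_apply, f.ev_eq _ (ρ0 j), e]
    push_cast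
    ring
  · simp only [Atl.loc, Set.indicator_of_notMem hy, zero_mul]

theorem IsInt.exists_map {G : Pre B} {a : Atl G.toCalc} (h : IsInt G a) (f : PMap G.toCalc) :
    ∃ f' : Map G, f'.pt = f.pt ∧ f'.Φ = f.Φ ∧ f'.J = f.J := by
  refine ⟨⟨f.pt, f.Φ, f.J, f.mem, fun s s0 => ⟨f.Φ' s, f.mem' s s0, B.ext' fun x => ?_⟩, f.ev_eq,
    f.chain, fun s s0 p p0 q q0 r r0 t t0 => int_cov h f ?_ ?_ fun x => ?_⟩, rfl, rfl, rfl⟩
  · rw [f.ev_eq _ (f.mem' s s0), f.ev_eq' _ s0, a.ev_eq_of_E (f.inv x) s0]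
  · exact B.mul_mem' (f.mem s s0) ((G.dd_form (f.mem p p0) (f.mem q q0)).wg_mem
      (G.dd_form (f.mem r r0) (f.mem t t0))) (add_zero _)
  · exact B.mul_mem' s0 ((G.dd_form p0 q0).wg_mem (G.dd_form r0 t0)) (add_zero _)
  · rw [map_mul, map_mul, ContinuousMap.mul_apply, ContinuousMap.mul_apply,
      int_wg_pull f p0 q0 r0 t0, f.ev_eq _ s0]
    ring

end SW4
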