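import Pool.Agent.P.MP_0a0487_an.SW.FrB

/-! Linear algebra of hyperbolic four by four matrices. -/

set_option autoImplicit false
set_option linter.unusedSectionVars false

noncomputable section

namespace SW4

open scoped ContDiff
open Filter Topology Matrix

/-- Graph bases for an idempotent close to `P0`. -/
structure GB (Q : M4) (δ : ℝ) (U V : Fin 2 → Fin 4 → ℝ) : Prop where
  U0 : U 0 0 = 1 ∧ U 0 1 = 0 ∧ U 1 0 = 0 ∧ U 1 1 = 1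
  V0 : V 0 2 = 1 ∧ V 0 3 = 0 ∧ V 1 2 = 0 ∧ V 1 3 = 1
  U1 : ∀ i, |U i 2| ≤ δ ∧ |U i 3| ≤ δ
  V1 : ∀ i, |V i 0| ≤ δ ∧ |V i 1| ≤ δ
  rng : ∀ v, Q *ᵥ v = v ↔ v = v 0 • U 0 + v 1 • U 1
  ker : ∀ v, Q *ᵥ v = 0 ↔ v = v 2 • V 0 + v 3 • V 1

variable {Q Q' J : M4} {δ : ℝ} {U V U' V' : Fin 2 → Fin 4 → ℝ}

theorem lin4_abs {a b x y m δ : ℝ} (ha : |a| ≤ m) (hb : |b| ≤ m) (hx : |x| ≤ δ) (hy : |y| ≤ δ)
    (hδ : δ ≤ 1 / 10) : |a * x + b * y| ≤ m := by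
  have h1 : |a * x| ≤ m * δ := by
    rw [abs_mul]
    exact mul_le_mul ha hx (abs_nonneg _) ((abs_nonneg _).trans ha)
  have h2 : |b * y| ≤ m * δ := by
    rw [abs_mul]
    exact mul_le_mul hb hy (abs_nonneg _) ((abs_nonneg _).trans hb)
  have h3 := abs_add_le (a * x) (b * y)
  nlinarith [(abs_nonneg _).trans ha]

theorem GB.normU (h : GB Q δ U V) (hδ : δ ≤ 1 / 10) (a b : ℝ) :
    ‖a • U 0 + b • U 1‖ = max |a| |b| := by
  obtain ⟨h1, h2, h3, h4⟩ := h.U0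
  refine le_antisymm ((pi_norm_le_iff_of_nonneg (le_max_of_le_left (abs_nonneg a))).2 fun k => ?_)
    (max_le ?_ ?_)
  · fin_cases k
    · simp [h1, h3]
    · simp [h2, h4]
    · exact lin4_abs (le_max_left _ _) (le_max_right _ _) (h.U1 0).1 (h.U1 1).1 hδ
    · exact lin4_abs (le_max_left _ _) (le_max_right _ _) (h.U1 0).2 (h.U1 1).2 hδ
  · simpa [h1, h3] using norm_le_pi_norm (a • U 0 + b • U 1) 0
  · simpa [h2, h4] using norm_le_pi_norm (a • U 0 + b • U 1) 1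

theorem GB.normV (h : GB Q δ U V) (hδ : δ ≤ 1 / 10) (a b : ℝ) :
    ‖a • V 0 + b • V 1‖ = max |a| |b| := by
  obtain ⟨h1, h2, h3, h4⟩ := h.V0
  refine le_antisymm ((pi_norm_le_iff_of_nonneg (le_max_of_le_left (abs_nonneg a))).2 fun k => ?_)
    (max_le ?_ ?_)
  · fin_cases k
    · exact lin4_abs (le_max_left _ _) (le_max_right _ _) (h.V1 0).1 (h.V1 1).1 hδ
    · exact lin4_abs (le_max_left _ _) (le_max_right _ _) (h.V1 0).2 (h.V1 1).2 hδ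
    · simp [h1, h3]
    · simp [h2, h4]
  · simpa [h1, h3] using norm_le_pi_norm (a • V 0 + b • V 1) 2
  · simpa [h2, h4] using norm_le_pi_norm (a • V 0 + b • V 1) 3

theorem GB.fixU (h : GB Q δ U V) (a b : ℝ) : Q *ᵥ (a • U 0 + b • U 1) = a • U 0 + b • U 1 := by
  obtain ⟨h1, h2, h3, h4⟩ := h.U0
  rw [h.rng]
  simp [h1, h2, h3, h4]

theorem GB.killV (h : GB Q δ U V) (a b : ℝ) : Q *ᵥ (a • V 0 + b • V 1) = 0 := by
  obtain ⟨h1, h2, h3, h4⟩ := h.V0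
  rw [h.ker]
  simp [h1, h2, h3, h4]

theorem GB.fixU' (h : GB Q δ U V) (i : Fin 2) : Q *ᵥ U i = U i := by
  fin_cases i
  · simpa using h.fixU 1 0
  · simpa using h.fixU 0 1

theorem GB.killV' (h : GB Q δ U V) (i : Fin 2) : Q *ᵥ V i = 0 := by
  fin_cases i
  · simpa using h.killV 1 0
  · simpa using h.killV 0 1

theorem GB.matU (h : GB Q δ U V) (h' : GB Q' δ U' V') (hJ : J * Q = Q' * J) (ho : OrP Q J) :
    ∃ M : Matrix (Fin 2) (Fin 2) ℝ, (∀ i, J *ᵥ U i = ∑ j, M i j • U' j) ∧ 0 < M.det := by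
  obtain ⟨h1, h2, h3, h4⟩ := h.U0
  refine ⟨Matrix.of fun i j => (J *ᵥ U i) (![0, 1] j), fun i => ?_, ?_⟩
  · rw [Fin.sum_univ_two]
    refine (h'.rng _).1 ?_
    rw [mulVec_mulVec, ← hJ, ← mulVec_mulVec, h.fixU']
  · rw [det_fin_two]
    exact ho.1 _ _ (h.fixU' 0) (h.fixU' 1) (by simp [top2, h1, h2, h3, h4])

theorem GB.matV (h : GB Q δ U V) (h' : GB Q' δ U' V') (hJ : J * Q = Q' * J) (ho : OrP Q J) :
    ∃ M : Matrix (Fin 2) (Fin 2) ℝ, (∀ i, J *ᵥ V i = ∑ j, M i j • V' j) ∧ 0 < M.det := by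
  obtain ⟨h1, h2, h3, h4⟩ := h.V0
  refine ⟨Matrix.of fun i j => (J *ᵥ V i) (![2, 3] j), fun i => ?_, ?_⟩
  · rw [Fin.sum_univ_two]
    refine (h'.ker _).1 ?_
    rw [mulVec_mulVec, ← hJ, ← mulVec_mulVec, h.killV', mulVec_zero]
  · rw [det_fin_two]
    exact ho.2 _ _ (h.killV' 0) (h.killV' 1) (by simp [bot2, h1, h2, h3, h4])

section abstr

variable {W W' : Fin 2 → Fin 4 → ℝ} {M : Matrix (Fin 2) (Fin 2) ℝ} {ε : ℝ}

theorem lin4_img (hM : ∀ i, J *ᵥ W i = ∑ j, M i j • W' j) (a b : ℝ) :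
    J *ᵥ (a • W 0 + b • W 1) =
      (a * M 0 0 + b * M 1 0) • W' 0 + (a * M 0 1 + b * M 1 1) • W' 1 := by
  rw [mulVec_add, mulVec_smul, mulVec_smul, hM, hM, Fin.sum_univ_two, Fin.sum_univ_two]
  module

theorem lin4_expand (hW : ∀ a b : ℝ, ‖a • W 0 + b • W 1‖ = max |a| |b|)
    (hW' : ∀ a b : ℝ, ‖a • W' 0 + b • W' 1‖ = max |a| |b|)
    (hM : ∀ i, J *ᵥ W i = ∑ j, M i j • W' j) (hd : 0 < M.det)
    (e : ∀ a b : ℝ, ‖a • W 0 + b • W 1‖ ≤ ε * ‖J *ᵥ (a • W 0 + b • W 1)‖) (i j : Fin 2) :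
    |M i j| ≤ ε * M.det := by
  have h1 := e (M 1 1) (-M 0 1)
  have h2 := e (-M 1 0) (M 0 0)
  rw [lin4_img hM, hW, hW'] at h1 h2
  rw [show M 1 1 * M 0 0 + -M 0 1 * M 1 0 = M.det by rw [det_fin_two]; ring,
    show M 1 1 * M 0 1 + -M 0 1 * M 1 1 = 0 by ring, abs_zero, abs_neg, abs_of_pos hd,
    max_eq_left hd.le, max_le_iff] at h1
  rw [show -M 1 0 * M 0 1 + M 0 0 * M 1 1 = M.det by rw [det_fin_two]; ring,
    show -M 1 0 * M 0 0 + M 0 0 * M 1 0 = 0 by ring, abs_zero, abs_neg, abs_of_pos hd,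
    max_eq_right hd.le, max_le_iff] at h2
  fin_cases i <;> fin_cases j
  exacts [h2.2, h1.2, h2.1, h1.1]

theorem lin4_contract (hW : ∀ a b : ℝ, ‖a • W 0 + b • W 1‖ = max |a| |b|)
    (hW' : ∀ a b : ℝ, ‖a • W' 0 + b • W' 1‖ = max |a| |b|)
    (hM : ∀ i, J *ᵥ W i = ∑ j, M i j • W' j)
    (e : ∀ a b : ℝ, ‖J *ᵥ (a • W 0 + b • W 1)‖ ≤ ε * ‖a • W 0 + b • W 1‖) (i j : Fin 2) :
    |M i j| ≤ ε := by
  have h1 := e 1 0
  have h2 := e 0 1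
  rw [lin4_img hM, hW, hW'] at h1 h2
  simp only [one_mul, zero_mul, add_zero, zero_add, abs_one, abs_zero, zero_le_one, max_eq_left,
    max_eq_right, mul_one, max_le_iff] at h1 h2
  fin_cases i <;> fin_cases j
  exacts [h1.1, h1.2, h2.1, h2.2]

theorem lin4_blk {L : ℝ} (hW : ∀ a b : ℝ, ‖a • W 0 + b • W 1‖ = max |a| |b|)
    (hW' : ∀ a b : ℝ, ‖a • W' 0 + b • W' 1‖ = max |a| |b|)
    (hM : ∀ i, J *ᵥ W i = ∑ j, M i j • W' j) (hd : 0 < M.det) (hL : 1 ≤ L)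
    (hδ : δ * L ^ 4 ≤ 1 / 8) (hδ' : δ ≤ 1 / 100) (e : ∀ v, ‖v‖ ≤ L * ‖J *ᵥ v‖)
    {n₀ n₁ n₂ n₃ : ℝ} (h0 : |n₀| ≤ L * δ) (h1 : |n₁| ≤ L * δ) (h2 : |n₂| ≤ L * δ)
    (h3 : |n₃| ≤ L * δ) :
    0 < (M 0 0 - n₀) * (M 1 1 - n₃) - (M 1 0 - n₂) * (M 0 1 - n₁) := by
  have hb := lin4_expand hW hW' hM hd fun a b => e _
  have hL0 : 0 < L := by linarith
  have hδ0 : 0 ≤ δ := nonneg_of_mul_nonneg_right ((abs_nonneg _).trans h0) hL0
  have h4 : 1 ≤ L * (L * M.det) := by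
    have h5 := e ((1 : ℝ) • W 0 + (0 : ℝ) • W 1)
    rw [lin4_img hM, hW, hW'] at h5
    simp only [one_mul, zero_mul, add_zero, abs_one, abs_zero, zero_le_one, max_eq_left] at h5
    exact h5.trans (mul_le_mul_of_nonneg_left (max_le (hb 0 0) (hb 0 1)) hL0.le)
  have pr : ∀ {x y a b : ℝ}, |x| ≤ a → |y| ≤ b → |x * y| ≤ a * b := fun hx hy => by
    rw [abs_mul]
    exact mul_le_mul hx hy (abs_nonneg _) ((abs_nonneg _).trans hx)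
  have p1 := abs_le.1 (pr (hb 0 0) h3)
  have p2 := abs_le.1 (pr (hb 1 1) h0)
  have p3 := abs_le.1 (pr (hb 1 0) h1)
  have p4 := abs_le.1 (pr (hb 0 1) h2)
  have p5 := abs_le.1 (pr h0 h3)
  have p6 := abs_le.1 (pr h2 h1)
  have hL2 : L ^ 2 ≤ L ^ 4 := pow_le_pow_right₀ hL (by norm_num)
  have q1 : L * M.det * (L * δ) ≤ M.det / 8 := by
    have : δ * L ^ 2 ≤ 1 / 8 := (mul_le_mul_of_nonneg_left hL2 hδ0).trans hδ
    nlinarith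
  have q2 : L * δ * (L * δ) ≤ M.det / 800 := by
    have i1 : L * δ * (L * δ) ≤ L * δ * (L * δ) * (L * (L * M.det)) :=
      le_mul_of_one_le_right (by positivity) h4
    have i2 : δ * (δ * L ^ 4) ≤ 1 / 100 * (1 / 8) :=
      mul_le_mul hδ' hδ (by positivity) (by norm_num)
    nlinarith
  have hdet := det_fin_two M
  nlinarith

end abstr

theorem GB.basis_det (h : GB Q δ U V) (hδ : δ ≤ 1 / 10) :
    0 < (Matrix.of fun k i => ![U 0, U 1, V 0, V 1] i k : M4).det := by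
  obtain ⟨h1, h2, h3, h4⟩ := h.U0
  obtain ⟨h5, h6, h7, h8⟩ := h.V0
  have e : (Matrix.of fun k i => ![U 0, U 1, V 0, V 1] i k : M4).det =
      (1 - (U 0 2 * V 0 0 + U 1 2 * V 0 1)) * (1 - (U 0 3 * V 1 0 + U 1 3 * V 1 1)) -
        (U 0 2 * V 1 0 + U 1 2 * V 1 1) * (U 0 3 * V 0 0 + U 1 3 * V 0 1) := by
    rw [Matrix.det_succ_row_zero]
    simp [Fin.sum_univ_four, Matrix.det_fin_three, Fin.succAbove, h1, h2, h3, h4, h5, h6, h7, h8]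
    ring
  have b1 := abs_le.1 ((lin4_abs (h.U1 0).1 (h.U1 1).1 (h.V1 0).1 (h.V1 0).2 hδ).trans hδ)
  have b2 := abs_le.1 ((lin4_abs (h.U1 0).2 (h.U1 1).2 (h.V1 1).1 (h.V1 1).2 hδ).trans hδ)
  have b3 := abs_le.1 ((lin4_abs (h.U1 0).1 (h.U1 1).1 (h.V1 1).1 (h.V1 1).2 hδ).trans hδ)
  have b4 := abs_le.1 ((lin4_abs (h.U1 0).2 (h.U1 1).2 (h.V1 0).1 (h.V1 0).2 hδ).trans hδ)
  rw [e]
  nlinarith [mul_nonneg (sub_nonneg.2 b1.2) (sub_nonneg.2 b2.2),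
    mul_nonneg (sub_nonneg.2 b3.2) (sub_nonneg.2 b4.1)]

/-- The matrices of `J` in the graph bases, expansion of `U`. -/
theorem GB.hypU (h : GB Q δ U V) (h' : GB Q' δ U' V') (hδ : δ ≤ 1 / 10) (hJ : J * Q = Q' * J)
    (ho : OrP Q J) {ε : ℝ} (e1 : ∀ v, Q *ᵥ v = v → ‖v‖ ≤ ε * ‖J *ᵥ v‖)
    (e2 : ∀ v, Q *ᵥ v = 0 → ‖J *ᵥ v‖ ≤ ε * ‖v‖) : ∃ M M' : Matrix (Fin 2) (Fin 2) ℝ,
      (∀ i, J *ᵥ U i = ∑ j, M i j • U' j) ∧ (∀ i, J *ᵥ V i = ∑ j, M' i j • V' j) ∧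
      0 < M.det ∧ 0 < M'.det ∧ (∀ i j, |M i j| ≤ ε * M.det) ∧ ∀ i j, |M' i j| ≤ ε := by
  obtain ⟨M, hM, hd⟩ := h.matU h' hJ ho
  obtain ⟨M', hM', hd'⟩ := h.matV h' hJ ho
  exact ⟨M, M', hM, hM', hd, hd',
    lin4_expand (h.normU hδ) (h'.normU hδ) hM hd fun a b => e1 _ (h.fixU a b),
    lin4_contract (h.normV hδ) (h'.normV hδ) hM' fun a b => e2 _ (h.killV a b)⟩

/-- The same, expansion of `V`. -/
theorem GB.hypV (h : GB Q δ U V) (h' : GB Q' δ U' V') (hδ : δ ≤ 1 / 10) (hJ : J * Q = Q' * J)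
    (ho : OrP Q J) {ε : ℝ} (e1 : ∀ v, Q *ᵥ v = 0 → ‖v‖ ≤ ε * ‖J *ᵥ v‖)
    (e2 : ∀ v, Q *ᵥ v = v → ‖J *ᵥ v‖ ≤ ε * ‖v‖) : ∃ M M' : Matrix (Fin 2) (Fin 2) ℝ,
      (∀ i, J *ᵥ V i = ∑ j, M i j • V' j) ∧ (∀ i, J *ᵥ U i = ∑ j, M' i j • U' j) ∧
      0 < M.det ∧ 0 < M'.det ∧ (∀ i j, |M i j| ≤ ε * M.det) ∧ ∀ i j, |M' i j| ≤ ε := by
  obtain ⟨M, hM, hd⟩ := h.matV h' hJ ho
  obtain ⟨M', hM', hd'⟩ := h.matU h' hJ ho
  exact ⟨M, M', hM, hM', hd, hd',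
    lin4_expand (h.normV hδ) (h'.normV hδ) hM hd fun a b => e1 _ (h.killV a b),
    lin4_contract (h.normU hδ) (h'.normU hδ) hM' fun a b => e2 _ (h.fixU a b)⟩

theorem GB.det_pos (h : GB Q δ U V) (h' : GB Q' δ U' V') (hδ : δ ≤ 1 / 10) (hJ : J * Q = Q' * J)
    (ho : OrP Q J) : 0 < J.det := by
  obtain ⟨M, hM, hd⟩ := h.matU h' hJ ho
  obtain ⟨M', hM', hd'⟩ := h.matV h' hJ ho
  have e : J * (Matrix.of fun k i => ![U 0, U 1, V 0, V 1] i k : M4) =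
      (Matrix.of fun k i => ![U' 0, U' 1, V' 0, V' 1] i k : M4) *
        !![M 0 0, M 1 0, 0, 0; M 0 1, M 1 1, 0, 0; 0, 0, M' 0 0, M' 1 0; 0, 0, M' 0 1, M' 1 1] := by
    ext k i
    have a0 := congrFun (hM 0) k
    have a1 := congrFun (hM 1) k
    have a2 := congrFun (hM' 0) k
    have a3 := congrFun (hM' 1) k
    simp only [mulVec, dotProduct, Fin.sum_univ_two, Fin.sum_univ_four, Pi.add_apply,
      Pi.smul_apply, smul_eq_mul] at a0 a1 a2 a3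
    fin_cases i <;> simp [Matrix.mul_apply, Fin.sum_univ_four] <;> linarith
  have e2 : (!![M 0 0, M 1 0, 0, 0; M 0 1, M 1 1, 0, 0; 0, 0, M' 0 0, M' 1 0;
      0, 0, M' 0 1, M' 1 1] : M4).det = M.det * M'.det := by
    rw [Matrix.det_succ_row_zero, det_fin_two, det_fin_two]
    simp [Fin.sum_univ_four, Matrix.det_fin_three, Fin.succAbove]
    ring
  have e3 := congrArg Matrix.det e
  rw [det_mul, det_mul, e2] at e3
  exact (pos_iff_pos_of_mul_pos (e3 ▸ mul_pos (h'.basis_det hδ) (mul_pos hd hd'))).2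
    (h.basis_det hδ)

/-- The diagonal blocks have positive determinant. -/
theorem GB.blk (h : GB Q δ U V) (h' : GB Q' δ U' V') (hJ : J * Q = Q' * J) (ho : OrP Q J) {L : ℝ}
    (hL : 1 ≤ L) (hδ : δ * L ^ 4 ≤ 1 / 8) (hδ' : δ ≤ 1 / 100)
    (bd : ∀ v, ‖J *ᵥ v‖ ≤ L * ‖v‖ ∧ ‖v‖ ≤ L * ‖J *ᵥ v‖) :
    0 < J 0 0 * J 1 1 - J 0 1 * J 1 0 ∧ 0 < J 2 2 * J 3 3 - J 2 3 * J 3 2 := by
  have hδ1 : δ ≤ 1 / 10 := by linarith
  have hδ0 : 0 ≤ δ := (abs_nonneg _).trans (h.U1 0).1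
  obtain ⟨M, hM, hd⟩ := h.matU h' hJ ho
  obtain ⟨M', hM', hd'⟩ := h.matV h' hJ ho
  obtain ⟨h1, h2, h3, h4⟩ := h.U0
  obtain ⟨h5, h6, h7, h8⟩ := h.V0
  obtain ⟨g1, g2, g3, g4⟩ := h'.U0
  obtain ⟨g5, g6, g7, g8⟩ := h'.V0
  have key : ∀ (v : Fin 4 → ℝ), (∀ l, |v l| ≤ δ) → ∀ k, |(J *ᵥ v) k| ≤ L * δ := fun v hv k =>
    (norm_le_pi_norm (J *ᵥ v) k).trans ((bd v).1.trans (mul_le_mul_of_nonneg_left
      ((pi_norm_le_iff_of_nonneg hδ0).2 hv) (by linarith)))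
  have kU : ∀ i k, |J k 2 * U i 2 + J k 3 * U i 3| ≤ L * δ := fun i k => by
    simpa [mulVec, dotProduct, Fin.sum_univ_four] using key ![0, 0, U i 2, U i 3]
      (fun l => by fin_cases l <;> simp [hδ0, (h.U1 i).1, (h.U1 i).2]) k
  have kV : ∀ i k, |J k 0 * V i 0 + J k 1 * V i 1| ≤ L * δ := fun i k => by
    simpa [mulVec, dotProduct, Fin.sum_univ_four] using key ![V i 0, V i 1, 0, 0]
      (fun l => by fin_cases l <;> simp [hδ0, (h.V1 i).1, (h.V1 i).2]) k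
  constructor
  · have b := lin4_blk (h.normU hδ1) (h'.normU hδ1) hM hd hL hδ hδ' (fun v => (bd v).2)
      (kU 0 0) (kU 0 1) (kU 1 0) (kU 1 1)
    have a0 := congrFun (hM 0) 0
    have a1 := congrFun (hM 0) 1
    have a2 := congrFun (hM 1) 0
    have a3 := congrFun (hM 1) 1
    simp only [mulVec, dotProduct, Fin.sum_univ_two, Fin.sum_univ_four, Pi.add_apply,
      Pi.smul_apply, smul_eq_mul, h1, h2, h3, h4, g1, g2, g3, g4, mul_one, mul_zero, add_zero,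
      zero_add] at a0 a1 a2 a3
    rw [← a0, ← a1, ← a2, ← a3] at b
    linarith
  · have b := lin4_blk (h.normV hδ1) (h'.normV hδ1) hM' hd' hL hδ hδ' (fun v => (bd v).2)
      (kV 0 2) (kV 0 3) (kV 1 2) (kV 1 3)
    have a0 := congrFun (hM' 0) 2
    have a1 := congrFun (hM' 0) 3
    have a2 := congrFun (hM' 1) 2
    have a3 := congrFun (hM' 1) 3
    simp only [mulVec, dotProduct, Fin.sum_univ_two, Fin.sum_univ_four, Pi.add_apply,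
      Pi.smul_apply, smul_eq_mul, h5, h6, h7, h8, g5, g6, g7, g8, mul_one, mul_zero, add_zero,
      zero_add] at a0 a1 a2 a3
    rw [← a0, ← a1, ← a2, ← a3] at b
    linarith

theorem OrP.conj {R R' : M4} (ho : OrP Q J) (hR : IsRot R) (hR' : IsRot R') {Q₁ J₁ : M4}
    (h1 : R * Q₁ = Q * R) (h2 : R' * J₁ = J * R) : OrP Q₁ J₁ := by
  refine ⟨fun v v' hv hv' h => ?_, fun v v' hv hv' h => ?_⟩
  · have h3 := ho.1 (R *ᵥ v) (R *ᵥ v') (by rw [mulVec_mulVec, ← h1, ← mulVec_mulVec, hv])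
      (by rw [mulVec_mulVec, ← h1, ← mulVec_mulVec, hv']) (by rwa [hR.top2])
    rwa [mulVec_mulVec, mulVec_mulVec, ← h2, ← mulVec_mulVec, ← mulVec_mulVec, hR'.top2] at h3
  · have h3 := ho.2 (R *ᵥ v) (R *ᵥ v')
      (by rw [mulVec_mulVec, ← h1, ← mulVec_mulVec, hv, mulVec_zero])
      (by rw [mulVec_mulVec, ← h1, ← mulVec_mulVec, hv', mulVec_zero]) (by rwa [hR.bot2])
    rwa [mulVec_mulVec, mulVec_mulVec, ← h2, ← mulVec_mulVec, ← mulVec_mulVec, hR'.bot2] at h3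

end SW4
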