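import Pool.Agent.P.MP_0a0487_an.SW.MapA

/-! Pull-backs of forms and invariance of the curvature classes. -/

set_option autoImplicit false
set_option linter.unusedSectionVars false

noncomputable section

namespace SW4

open scoped ComplexOrder ContDiff
open Filter Topology

variable {P A : Type} [TopologicalSpace P] [CompactSpace P] [CommRing A] [StarRing A] [Algebra ℂ A]
  [StarModule ℂ A] {B : Base P A}

open Matrix

theorem mapB_wg_sum {R ι κ : Type} [CommRing R] [Fintype ι] [Fintype κ] (x : ι → R) (y : κ → R)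
    (b : ι → Fin 4 → Fin 4 → R) (c : κ → Fin 4 → Fin 4 → R) :
    wg (fun α β => ∑ i, x i * b i α β) (fun α β => ∑ j, y j * c j α β) =
      ∑ i, ∑ j, x i * y j * wg (b i) (c j) := by
  rw [integ_wg_sum]
  refine Finset.sum_congr rfl fun i _ => ?_
  rw [integ_wg_mul, integ_wg_comm, integ_wg_sum, Finset.mul_sum]
  refine Finset.sum_congr rfl fun j _ => ?_
  rw [integ_wg_mul, integ_wg_comm, mul_assoc]

theorem mapB_form_sum {ι : Type} (S : Finset ι) {b : ι → Fin 4 → Fin 4 → A}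
    (hb : ∀ i ∈ S, B.Form2 (b i)) : B.Form2 fun α β => ∑ i ∈ S, b i α β := fun α β =>
  ⟨Submodule.sum_mem _ fun i hi => (hb i hi α β).1, by
    rw [← Finset.sum_neg_distrib]
    exact Finset.sum_congr rfl fun i hi => (hb i hi α β).2⟩

theorem mapB_b2_sum {ι : Type} (S : Finset ι) (b : ι → Fin 4 → Fin 4 → A) (p : P)
    (u v : Fin 4 → ℝ) :
    B.b2 (fun α β => ∑ i ∈ S, b i α β) p u v = ∑ i ∈ S, B.b2 (b i) p u v := by
  simp only [Base.b2, map_sum, ContinuousMap.coe_sum, Finset.sum_apply, Finset.mul_sum]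
  rw [Finset.sum_comm (s := S)]
  exact Finset.sum_congr rfl fun α _ => Finset.sum_comm

theorem mapB_b2_two {b : Fin 4 → Fin 4 → A} (hb : B.Form2 b) (p : P)
    (M : Matrix (Fin 2) (Fin 2) ℝ) (u : Fin 2 → Fin 4 → ℝ) :
    B.b2 b p (∑ j, M 0 j • u j) (∑ j, M 1 j • u j) = M.det * B.b2 b p (u 0) (u 1) := by
  have h0 : ∀ v, B.b2 b p v v = 0 := fun v => by
    linear_combination (1 / 2 : ℂ) * hb.b2_anti p v v
  simp only [Fin.sum_univ_two, B.b2_add_left, B.b2_add_right, B.b2_smul_left, B.b2_smul_right,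
    h0, hb.b2_anti p (u 0) (u 1), Matrix.det_fin_two]
  push_cast
  ring

theorem mapB_norm_two {M : Fin 2 → ℝ} {u : Fin 2 → Fin 4 → ℝ} {c : ℝ} (hM : ∀ j, |M j| ≤ c)
    (hu : ∀ j, ‖u j‖ ≤ 1) : ‖∑ j, M j • u j‖ ≤ 2 * c := by
  have h : ∀ j, ‖M j • u j‖ ≤ c := fun j => by
    rw [norm_smul, Real.norm_eq_abs]
    exact (mul_le_of_le_one_right (abs_nonneg _) (hu j)).trans (hM j)
  rw [Fin.sum_univ_two]
  linarith [norm_add_le (M 0 • u 0) (M 1 • u 1), h 0, h 1]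

theorem mapB_det_two {M : Matrix (Fin 2) (Fin 2) ℝ} {c : ℝ} (hM : ∀ i j, |M i j| ≤ c) :
    M.det ≤ 2 * c ^ 2 := by
  have h : ∀ i j k l, |M i j * M k l| ≤ c ^ 2 := fun i j k l => by
    rw [abs_mul, sq]
    exact mul_le_mul (hM i j) (hM k l) (abs_nonneg _) ((abs_nonneg _).trans (hM i j))
  rw [Matrix.det_fin_two]
  linarith [abs_le.1 (h 0 0 1 1), abs_le.1 (h 0 1 1 0)]

theorem mapB_det_four (M M' : Matrix (Fin 2) (Fin 2) ℝ) (u v : Fin 2 → Fin 4 → ℝ) :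
    (Matrix.of ![∑ j, M 0 j • u j, ∑ j, M 1 j • u j, ∑ j, M' 0 j • v j, ∑ j, M' 1 j • v j]).det =
      M.det * M'.det * (Matrix.of ![u 0, u 1, v 0, v 1]).det := by
  have e : Matrix.of ![∑ j, M 0 j • u j, ∑ j, M 1 j • u j, ∑ j, M' 0 j • v j, ∑ j, M' 1 j • v j] =
      !![M 0 0, M 0 1, 0, 0; M 1 0, M 1 1, 0, 0; 0, 0, M' 0 0, M' 0 1; 0, 0, M' 1 0, M' 1 1] *
        Matrix.of ![u 0, u 1, v 0, v 1] := by
    ext i k
    fin_cases i <;> simp [Matrix.mul_apply, Fin.sum_univ_four]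
  rw [e, Matrix.det_mul, Matrix.det_fin_two, Matrix.det_fin_two]
  congr 1
  simp [Matrix.det_succ_row_zero, Fin.sum_univ_succ, Fin.succAbove]
  ring

theorem mapB_det_le {u v : Fin 2 → Fin 4 → ℝ} (hu : ∀ j, ‖u j‖ ≤ 1) (hv : ∀ j, ‖v j‖ ≤ 1) :
    |(Matrix.of ![u 0, u 1, v 0, v 1]).det| ≤ 24 := by
  have h := Matrix.det_le (A := Matrix.of ![u 0, u 1, v 0, v 1]) (abv := AbsoluteValue.abs)
    (x := 1) fun i k => by
      have h1 : ∀ j, |u j k| ≤ 1 := fun j => (norm_le_pi_norm (u j) k).trans (hu j)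
      have h2 : ∀ j, |v j k| ≤ 1 := fun j => (norm_le_pi_norm (v j) k).trans (hv j)
      fin_cases i
      exacts [h1 0, h1 1, h2 0, h2 1]
  simpa [Nat.factorial] using h

namespace Calc

variable (G : Calc B)

theorem mapB_key (b : Fin 4 → Fin 4 → A) (α β : Fin 4) :
    b α β = ∑ k, ∑ l, (∑ γ, ∑ δ, b γ δ * G.θ γ k * G.θ δ l) *
      (G.D α (G.e k) * G.D β (G.e l)) := by
  rw [G.form1_eq (b α) β, Finset.sum_comm]
  refine Finset.sum_congr rfl fun l _ => ?_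
  rw [G.form1_eq (fun γ => ∑ δ, b γ δ * G.θ δ l) α, Finset.sum_mul]
  refine Finset.sum_congr rfl fun k _ => ?_
  rw [mul_assoc]
  refine congrArg (· * _) (Finset.sum_congr rfl fun γ _ => ?_)
  rw [Finset.sum_mul]
  exact Finset.sum_congr rfl fun δ _ => by ring

theorem mapB_coef_mem {b : Fin 4 → Fin 4 → A} (hb : B.Form2 b) (k l : Fin G.N) :
    ∑ γ, ∑ δ, b γ δ * G.θ γ k * G.θ δ l ∈ B.W 0 :=
  Submodule.sum_mem _ fun γ _ => Submodule.sum_mem _ fun δ _ =>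
    B.mul_mem' (B.mul_mem (hb γ δ).1 (G.θ_mem γ k)) (G.θ_mem δ l) (by abel)

theorem mapB_coef_anti {b : Fin 4 → Fin 4 → A} (hb : B.Form2 b) (k l : Fin G.N) :
    ∑ γ, ∑ δ, b γ δ * G.θ γ l * G.θ δ k = -∑ γ, ∑ δ, b γ δ * G.θ γ k * G.θ δ l := by
  rw [Finset.sum_comm, ← Finset.sum_neg_distrib]
  refine Finset.sum_congr rfl fun γ _ => ?_
  rw [← Finset.sum_neg_distrib]
  refine Finset.sum_congr rfl fun δ _ => ?_
  rw [(hb γ δ).2]
  ring

theorem mapB_coef_re {b : Fin 4 → Fin 4 → A} (hb : B.Re2 b) (k l : Fin G.N) :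
    B.Re0 (∑ γ, ∑ δ, b γ δ * G.θ γ k * G.θ δ l) := by
  refine ⟨G.mapB_coef_mem hb.1 k l, ?_⟩
  simp only [star_sum, star_mul', hb.2, G.θ_star]
  rw [sum_bar fun γ => ∑ δ, b γ (bar δ) * G.θ γ k * G.θ (bar δ) l]
  exact Finset.sum_congr rfl fun γ _ => sum_bar fun δ => b γ δ * G.θ γ k * G.θ δ l

theorem mapB_b2_DD (s t : A) (p : P) (u v : Fin 4 → ℝ) :
    B.b2 (fun α β => G.D α s * G.D β t) p u v = G.dv s p u * G.dv t p v := by
  simp only [Base.b2, dv, map_mul, ContinuousMap.mul_apply, Finset.sum_mul_sum]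
  exact Finset.sum_congr rfl fun _ _ => Finset.sum_congr rfl fun _ _ => by ring

theorem mapB_b2_coef (c : Fin G.N → Fin G.N → A) (s : Fin G.N → A) (p : P) (u v : Fin 4 → ℝ) :
    B.b2 (fun α β => ∑ k, ∑ l, c k l * (G.D α (s k) * G.D β (s l))) p u v =
      ∑ k, ∑ l, B.ev (c k l) p * (G.dv (s k) p u * G.dv (s l) p v) := by
  rw [mapB_b2_sum]
  refine Finset.sum_congr rfl fun k _ => ?_
  rw [mapB_b2_sum]
  refine Finset.sum_congr rfl fun l _ => ?_
  rw [B.b2_mul (c k l) fun α β => G.D α (s k) * G.D β (s l), G.mapB_b2_DD]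

theorem mapB_d1_sum {ι : Type} (S : Finset ι) (a : ι → Fin 4 → A) (α β : Fin 4) :
    G.d1 (fun γ => ∑ i ∈ S, a i γ) α β = ∑ i ∈ S, G.d1 (a i) α β := by
  simp only [d1, map_sum, Finset.sum_sub_distrib, Finset.mul_sum]
  rw [Finset.sum_comm]

theorem mapB_θ_dv (a : Fin 4) (p : P) (v : Fin 4 → ℝ) :
    ∑ k, B.ev (G.θ a k) p * G.dv (G.e k) p v = cx v a := by
  have e : ∀ γ, ∑ k, B.ev (G.θ a k) p * B.ev (G.D γ (G.e k)) p = if a = γ then 1 else 0 := by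
    intro γ
    have := congrArg (fun s => B.ev s p) (G.θ_dual a γ)
    split_ifs at this ⊢ <;> simpa using this
  calc _ = ∑ γ, cx v γ * ∑ k, B.ev (G.θ a k) p * B.ev (G.D γ (G.e k)) p := by
        simp only [dv, Finset.mul_sum]
        rw [Finset.sum_comm]
        exact Finset.sum_congr rfl fun _ _ => Finset.sum_congr rfl fun _ _ => by ring
    _ = cx v a := by simp [e]

/-- The curvature of a line bundle given by a projection matrix of rank one. -/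
theorem mapB_proj {ι : Type} [Fintype ι] {w : Wt} {s t : ι → A} (hs : ∀ i, s i ∈ B.W w)
    (h : ∑ i, t i * s i = 1) (α β : Fin 4) :
    ∑ i, ∑ j, ∑ k, s i * t j * G.dd (s j * t k) (s k * t i) α β =
      G.d1 (fun γ => ∑ i, t i * G.D γ (s i)) α β - G.Fw w α β := by
  obtain ⟨c, hc⟩ : ∃ c : Fin 4 → A, ∀ γ, c γ = ∑ i, t i * G.D γ (s i) := ⟨_, fun _ => rfl⟩
  have hc' : ∀ γ, ∑ i, s i * G.D γ (t i) = -c γ := by
    intro γ
    have e := congrArg (G.D γ) h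
    rw [G.D_one, map_sum] at e
    rw [eq_neg_iff_add_eq_zero, hc, ← Finset.sum_add_distrib, ← e]
    exact Finset.sum_congr rfl fun i _ => by rw [G.D_mul]; ring
  have h1 : ∀ γ k, ∑ j, t j * G.D γ (s j * t k) = c γ * t k + G.D γ (t k) := by
    intro γ k
    rw [← one_mul (G.D γ (t k)), ← h, hc, Finset.sum_mul, Finset.sum_mul, ← Finset.sum_add_distrib]
    exact Finset.sum_congr rfl fun i _ => by rw [G.D_mul]; ring
  have h2 : ∀ γ k, ∑ i, s i * G.D γ (s k * t i) = G.D γ (s k) - s k * c γ := by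
    intro γ k
    rw [sub_eq_add_neg, ← mul_neg, ← hc', ← one_mul (G.D γ (s k)), ← h, Finset.sum_mul,
      Finset.mul_sum, ← Finset.sum_add_distrib]
    exact Finset.sum_congr rfl fun i _ => by rw [G.D_mul]; ring
  have h3 : ∀ γ δ, ∑ i, ∑ j, ∑ k, s i * t j * (G.D γ (s j * t k) * G.D δ (s k * t i)) =
      ∑ k, G.D γ (t k) * G.D δ (s k) + c γ * c δ := by
    intro γ δ
    calc _ = ∑ k, (∑ i, s i * G.D δ (s k * t i)) * ∑ j, t j * G.D γ (s j * t k) := by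
          simp only [Finset.sum_mul_sum]
          rw [Finset.sum_comm (f := fun k i => ∑ j, s i * G.D δ (s k * t i) *
            (t j * G.D γ (s j * t k)))]
          refine Finset.sum_congr rfl fun i _ => ?_
          rw [Finset.sum_comm]
          exact Finset.sum_congr rfl fun _ _ => Finset.sum_congr rfl fun _ _ => by ring
      _ = ∑ k, G.D γ (t k) * G.D δ (s k) + c γ * ∑ k, t k * G.D δ (s k) -
            c γ * c δ * ∑ k, t k * s k - c δ * ∑ k, s k * G.D γ (t k) := by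
          simp only [h1, h2, Finset.mul_sum, ← Finset.sum_add_distrib, ← Finset.sum_sub_distrib]
          exact Finset.sum_congr rfl fun _ _ => by ring
      _ = _ := by
          rw [← hc, h, hc']
          ring
  have h4 : G.d1 (fun γ => ∑ i, t i * G.D γ (s i)) α β =
      ∑ k, G.D α (t k) * G.D β (s k) - ∑ k, G.D β (t k) * G.D α (s k) + G.Fw w α β := by
    rw [G.mapB_d1_sum, ← mul_one (G.Fw w α β), ← h, Finset.mul_sum, ← Finset.sum_sub_distrib,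
      ← Finset.sum_add_distrib]
    refine Finset.sum_congr rfl fun i _ => ?_
    have e := G.comm (hs i) α β
    simp only [d1, G.D_mul, Fin.sum_univ_four] at e ⊢
    linear_combination t i * e
  rw [h4]
  simp only [dd, w1, d0, mul_sub, Finset.sum_sub_distrib, h3]
  ring

end Calc

namespace Map

variable {G : Pre B} (f : Map G)

theorem Φ_add {s t : A} (hs : s ∈ B.W 0) (ht : t ∈ B.W 0) : f.Φ (s + t) = f.Φ s + f.Φ t :=
  B.ext' fun p => by
    simp only [map_add, ContinuousMap.add_apply, f.ev_eq _ (add_mem hs ht), f.ev_eq _ hs,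
      f.ev_eq _ ht]

theorem Φ_mul {s t : A} (hs : s ∈ B.W 0) (ht : t ∈ B.W 0) : f.Φ (s * t) = f.Φ s * f.Φ t :=
  B.ext' fun p => by
    simp only [map_mul, ContinuousMap.mul_apply, f.ev_eq _ (B.mul_mem' hs ht (add_zero _)),
      f.ev_eq _ hs, f.ev_eq _ ht]

theorem Φ_smul (c : ℂ) {s : A} (hs : s ∈ B.W 0) : f.Φ (c • s) = c • f.Φ s :=
  B.ext' fun p => by
    simp only [map_smul, ContinuousMap.smul_apply, f.ev_eq _ (Submodule.smul_mem _ c hs),
      f.ev_eq _ hs]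

theorem Φ_star {s : A} (hs : s ∈ B.W 0) : f.Φ (star s) = star (f.Φ s) :=
  B.ext' fun p => by
    rw [f.ev_eq _ (B.star_mem' hs neg_zero), B.ev_star, B.ev_star, f.ev_eq _ hs]

theorem Φ_one : f.Φ 1 = 1 :=
  B.ext' fun p => by
    rw [f.ev_eq _ B.one_mem, map_one]
    rfl

theorem Φ_sum {ι : Type} (S : Finset ι) {s : ι → A} (hs : ∀ i ∈ S, s i ∈ B.W 0) :
    f.Φ (∑ i ∈ S, s i) = ∑ i ∈ S, f.Φ (s i) :=
  B.ext' fun p => by
    rw [f.ev_eq _ (Submodule.sum_mem _ hs)]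
    simp only [map_sum, ContinuousMap.coe_sum, Finset.sum_apply]
    exact Finset.sum_congr rfl fun i hi => (f.ev_eq _ (hs i hi) p).symm

theorem Φ_re {s : A} (hs : B.Re0 s) : B.Re0 (f.Φ s) :=
  ⟨f.mem _ hs.1, by rw [← f.Φ_star hs.1, hs.2]⟩

theorem pull1_form {a : Fin 4 → A} (ha : B.Form1 a) : B.Form1 (f.pull1 a) := fun α =>
  Submodule.sum_mem _ fun k _ => B.mul_mem' (f.mem _ (G.form1_coef_mem ha k))
    (G.D_mem α (f.mem _ (G.e_re k).1)) (by abel)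

theorem b2_pull2 {b : Fin 4 → Fin 4 → A} (hb : B.Form2 b) (p : P) (u v : Fin 4 → ℝ) :
    B.b2 (f.pull2 b) p u v = B.b2 b (f.pt p) (f.J p *ᵥ u) (f.J p *ᵥ v) := by
  have e : b = fun α β => ∑ k, ∑ l, (∑ γ, ∑ δ, b γ δ * G.θ γ k * G.θ δ l) *
      (G.D α (G.e k) * G.D β (G.e l)) := funext fun α => funext fun β => G.mapB_key b α β
  conv_rhs => rw [e]
  unfold pull2
  rw [G.mapB_b2_coef, G.mapB_b2_coef]
  refine Finset.sum_congr rfl fun k _ => Finset.sum_congr rfl fun l _ => ?_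
  rw [f.ev_eq _ (G.mapB_coef_mem hb k l), f.chain _ (G.e_re k).1, f.chain _ (G.e_re l).1]

theorem pull2_form {b : Fin 4 → Fin 4 → A} (hb : B.Form2 b) : B.Form2 (f.pull2 b) := by
  intro α β
  refine ⟨Submodule.sum_mem _ fun k _ => Submodule.sum_mem _ fun l _ =>
    B.mul_mem' (f.mem _ (G.mapB_coef_mem hb k l)) (B.mul_mem (G.D_mem α (f.mem _ (G.e_re k).1))
      (G.D_mem β (f.mem _ (G.e_re l).1))) (by abel), ?_⟩
  unfold pull2
  rw [Finset.sum_comm, ← Finset.sum_neg_distrib]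
  refine Finset.sum_congr rfl fun k _ => ?_
  rw [← Finset.sum_neg_distrib]
  refine Finset.sum_congr rfl fun l _ => ?_
  rw [G.mapB_coef_anti hb, ← neg_one_smul ℂ, f.Φ_smul _ (G.mapB_coef_mem hb k l), neg_one_smul]
  ring

theorem pull2_re {b : Fin 4 → Fin 4 → A} (hb : B.Re2 b) : B.Re2 (f.pull2 b) := by
  refine ⟨f.pull2_form hb.1, fun α β => ?_⟩
  simp only [pull2, star_sum, star_mul', G.D_star, (f.Φ_re (G.e_re _)).2,
    (f.Φ_re (G.mapB_coef_re hb _ _)).2]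

theorem pull2_add {a b : Fin 4 → Fin 4 → A} (ha : B.Form2 a) (hb : B.Form2 b) :
    f.pull2 (a + b) = f.pull2 a + f.pull2 b :=
  B.ext_b2 fun p u v => by
    rw [B.b2_add, f.b2_pull2 (ha.add hb), f.b2_pull2 ha, f.b2_pull2 hb, B.b2_add]

theorem pull2_smul (c : ℂ) {b : Fin 4 → Fin 4 → A} (hb : B.Form2 b) :
    f.pull2 (c • b) = c • f.pull2 b :=
  B.ext_b2 fun p u v => by
    rw [B.b2_smul, f.b2_pull2 (hb.smul c), f.b2_pull2 hb, B.b2_smul]

theorem pull2_mul {s : A} (hs : s ∈ B.W 0) {b : Fin 4 → Fin 4 → A} (hb : B.Form2 b) :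
    f.pull2 (fun α β => s * b α β) = fun α β => f.Φ s * f.pull2 b α β :=
  B.ext_b2 fun p u v => by
    rw [B.b2_mul, f.b2_pull2 (hb.mul hs), f.b2_pull2 hb, B.b2_mul, f.ev_eq _ hs]

theorem mapB_pull2_sum {ι : Type} (S : Finset ι) {b : ι → Fin 4 → Fin 4 → A}
    (hb : ∀ i ∈ S, B.Form2 (b i)) :
    f.pull2 (fun α β => ∑ i ∈ S, b i α β) = fun α β => ∑ i ∈ S, f.pull2 (b i) α β :=
  B.ext_b2 fun p u v => by
    rw [f.b2_pull2 (mapB_form_sum S hb), mapB_b2_sum, mapB_b2_sum]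
    exact Finset.sum_congr rfl fun i hi => (f.b2_pull2 (hb i hi) p u v).symm

theorem pull2_dd {p q : A} (hp : p ∈ B.W 0) (hq : q ∈ B.W 0) :
    f.pull2 (G.dd p q) = G.dd (f.Φ p) (f.Φ q) :=
  B.ext_b2 fun x u v => by
    rw [f.b2_pull2 (G.dd_form hp hq), G.b2_dd, G.b2_dd, f.chain _ hp, f.chain _ hp, f.chain _ hq,
      f.chain _ hq]

theorem mapB_pull2_comb {ι : Type} [Fintype ι] {s p q : ι → A} (hs : ∀ i, s i ∈ B.W 0)
    (hp : ∀ i, p i ∈ B.W 0) (hq : ∀ i, q i ∈ B.W 0) :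
    f.pull2 (fun α β => ∑ i, s i * G.dd (p i) (q i) α β) =
      fun α β => ∑ i, f.Φ (s i) * G.dd (f.Φ (p i)) (f.Φ (q i)) α β := by
  rw [f.mapB_pull2_sum _ fun i _ => (G.dd_form (hp i) (hq i)).mul (hs i)]
  funext α β
  refine Finset.sum_congr rfl fun i _ => ?_
  rw [f.pull2_mul (hs i) (G.dd_form (hp i) (hq i)), f.pull2_dd (hp i) (hq i)]

theorem pull2_eq {b : Fin 4 → Fin 4 → A} (hb : B.Form2 b) (α β : Fin 4) :
    f.pull2 b α β = ∑ k, ∑ l, f.Φ ((1 / 2 : ℂ) • ∑ γ, ∑ δ, b γ δ * G.θ γ k * G.θ δ l) *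
      G.dd (f.Φ (G.e k)) (f.Φ (G.e l)) α β := by
  have h := (f.pull2_form hb α β).2
  simp only [f.Φ_smul _ (G.mapB_coef_mem hb _ _), Calc.dd, w1, Calc.d0, mul_sub, smul_mul_assoc,
    Finset.sum_sub_distrib, ← Finset.smul_sum]
  change _ = (1 / 2 : ℂ) • f.pull2 b α β - (1 / 2 : ℂ) • f.pull2 b β α
  rw [h]
  module

theorem mapB_pull2_eq {b : Fin 4 → Fin 4 → A} (hb : B.Form2 b) :
    f.pull2 b = fun α β => ∑ i : Fin G.N × Fin G.N,
      f.Φ ((1 / 2 : ℂ) • ∑ γ, ∑ δ, b γ δ * G.θ γ i.1 * G.θ δ i.2) *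
        G.dd (f.Φ (G.e i.1)) (f.Φ (G.e i.2)) α β := by
  funext α β
  rw [f.pull2_eq hb, Fintype.sum_prod_type]

theorem pull2_d1 {a : Fin 4 → A} (ha : B.Form1 a) : f.pull2 (G.d1 a) = G.d1 (f.pull1 a) := by
  rw [G.integ_d1_eq a, f.mapB_pull2_sum _ fun k _ =>
    G.dd_form (G.form1_coef_mem ha k) (G.e_re k).1]
  funext α β
  unfold pull1
  rw [G.mapB_d1_sum]
  refine Finset.sum_congr rfl fun k _ => ?_
  rw [f.pull2_dd (G.form1_coef_mem ha k) (G.e_re k).1, G.d1_mul_d0 _ (f.mem _ (G.e_re k).1)]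

theorem I_wg_pull {a b : Fin 4 → Fin 4 → A} (ha : B.Form2 a) (hb : B.Form2 b) :
    G.I (wg (f.pull2 a) (f.pull2 b)) = G.I (wg a b) := by
  have e : ∀ {b : Fin 4 → Fin 4 → A}, B.Form2 b → b = fun α β => ∑ i : Fin G.N × Fin G.N,
      ((1 / 2 : ℂ) • ∑ γ, ∑ δ, b γ δ * G.θ γ i.1 * G.θ δ i.2) *
        G.dd (G.e i.1) (G.e i.2) α β := by
    intro b hb
    funext α β
    rw [G.form2_eq (fun α β => (hb α β).2) α β, Fintype.sum_prod_type]
  conv_rhs => rw [e ha, e hb]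
  rw [f.mapB_pull2_eq ha, f.mapB_pull2_eq hb, mapB_wg_sum, mapB_wg_sum, map_sum, map_sum]
  refine Finset.sum_congr rfl fun i _ => ?_
  rw [map_sum, map_sum]
  refine Finset.sum_congr rfl fun j _ => ?_
  have h1 := Submodule.smul_mem _ (1 / 2 : ℂ) (G.mapB_coef_mem ha i.1 i.2)
  have h2 := Submodule.smul_mem _ (1 / 2 : ℂ) (G.mapB_coef_mem hb j.1 j.2)
  rw [← f.Φ_mul h1 h2]
  exact f.cov _ (B.mul_mem' h1 h2 (add_zero _)) _ (G.e_re _).1 _ (G.e_re _).1 _ (G.e_re _).1 _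
    (G.e_re _).1

theorem pull2_closed {b : Fin 4 → Fin 4 → A} (hb : B.Form2 b) (hc : G.Closed b) :
    G.Closed (f.pull2 b) := by
  intro p hp q hq
  obtain ⟨p', hp', rfl⟩ := f.surj p hp
  obtain ⟨q', hq', rfl⟩ := f.surj q hq
  rw [← f.pull2_dd hp' hq', f.I_wg_pull hb (G.dd_form hp' hq')]
  exact hc p' hp' q' hq'

/-- The pull-back of a form by a hyperbolic map is dominated by one component. -/
theorem HypAt.dom {f : Map G} {U V : P → Fin 2 → Fin 4 → ℝ} {ε : ℝ} (h : f.HypAt U V ε)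
    (hU : ∀ p i, ‖U p i‖ ≤ 1) (hV : ∀ p i, ‖V p i‖ ≤ 1) (p : P) :
    ∃ x : ℝ, 0 < x ∧ 1 ≤ 2 * ε ^ 2 * x ∧ ∀ b, B.Form2 b →
      B.b2 (f.pull2 b) p (U p 0) (U p 1) = x * B.b2 b (f.pt p) (U (f.pt p) 0) (U (f.pt p) 1) ∧
      (∀ i j, ‖B.b2 (f.pull2 b) p (U p i) (V p j)‖ ≤ 64 * ε ^ 2 * x * ‖B.ev2 b‖) ∧
      ‖B.b2 (f.pull2 b) p (V p 0) (V p 1)‖ ≤ 32 * ε ^ 2 * ‖B.ev2 b‖ ∧
      ∀ b', B.Form2 b' → ‖B.ev (wg (f.pull2 b) (f.pull2 b')) p‖ *
        |(Matrix.of ![U p 0, U p 1, V p 0, V p 1]).det| ≤ 48 * ε ^ 2 * x * ‖B.ev (wg b b')‖ := by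
  obtain ⟨M, M', h1, h2, h3, h4, h5, h6⟩ := h p
  have h7 := mapB_det_two h6
  refine ⟨M.det, h3, ?_, fun b hb => ⟨?_, fun i j => ?_, ?_, fun b' hb' => ?_⟩⟩
  · refine le_of_mul_le_mul_right ?_ h3
    linarith [mapB_det_two h5]
  · rw [f.b2_pull2 hb, h1, h1, mapB_b2_two hb]
  · rw [f.b2_pull2 hb, h1, h2]
    refine (B.b2_le _ _ _ _).trans ?_
    have e1 := mapB_norm_two (h5 i) (hU (f.pt p))
    have e2 := mapB_norm_two (h6 j) (hV (f.pt p))
    calc _ ≤ 16 * ‖B.ev2 b‖ * (2 * (ε * M.det)) * (2 * ε) :=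
          mul_le_mul (mul_le_mul_of_nonneg_left e1 (by positivity)) e2 (norm_nonneg _)
            (mul_nonneg (by positivity) ((norm_nonneg _).trans e1))
      _ = _ := by ring
  · rw [f.b2_pull2 hb, h2, h2, mapB_b2_two hb, norm_mul, Complex.norm_real, Real.norm_eq_abs,
      abs_of_pos h4]
    have e1 : ‖B.b2 b (f.pt p) (V (f.pt p) 0) (V (f.pt p) 1)‖ ≤ 16 * ‖B.ev2 b‖ := by
      refine (B.b2_le _ _ _ _).trans ?_
      rw [mul_assoc]
      exact mul_le_of_le_one_right (by positivity)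
        (mul_le_one₀ (hV _ 0) (norm_nonneg _) (hV _ 1))
    calc _ ≤ 2 * ε ^ 2 * (16 * ‖B.ev2 b‖) := mul_le_mul h7 e1 (norm_nonneg _) (by positivity)
      _ = _ := by ring
  · obtain ⟨u, hu⟩ : ∃ u, u = Matrix.of ![U p 0, U p 1, V p 0, V p 1] := ⟨_, rfl⟩
    have e1 := Base.wg_basis (f.pull2_form hb) (f.pull2_form hb') p u
    have e2 := Base.wg_basis hb hb' (f.pt p) (Matrix.of fun i => f.J p *ᵥ u i)
    have e3 : (Matrix.of fun i => f.J p *ᵥ u i).det = M.det * M'.det *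
        (Matrix.of ![U (f.pt p) 0, U (f.pt p) 1, V (f.pt p) 0, V (f.pt p) 1]).det := by
      rw [← mapB_det_four, ← h1, ← h1, ← h2, ← h2, hu]
      congr 1
      ext i k
      fin_cases i <;> rfl
    simp only [f.b2_pull2 hb, f.b2_pull2 hb'] at e1
    have e4 : (u.det : ℂ) * B.ev (wg (f.pull2 b) (f.pull2 b')) p =
        ((Matrix.of fun i => f.J p *ᵥ u i).det : ℂ) * B.ev (wg b b') (f.pt p) := by
      linear_combination 4 * (e1.symm.trans e2).symm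
    have e5 := congrArg norm e4
    rw [norm_mul, norm_mul, Complex.norm_real, Complex.norm_real, Real.norm_eq_abs,
      Real.norm_eq_abs, e3, abs_mul, abs_mul, abs_of_pos h3, abs_of_pos h4] at e5
    rw [← hu, mul_comm, e5]
    calc _ ≤ M.det * (2 * ε ^ 2) * 24 * ‖B.ev (wg b b')‖ :=
          mul_le_mul (mul_le_mul (mul_le_mul_of_nonneg_left h7 h3.le) (mapB_det_le (hU _) (hV _))
            (abs_nonneg _) (by positivity)) (ContinuousMap.norm_coe_le_norm _ _) (norm_nonneg _)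
            (by positivity)
      _ = _ := by ring

theorem mapB_lam (h : f.Blk) (j : Fin 2) (p : P) :
    ∑ k, B.ev (G.θ (![0, 2] j) k) (f.pt p) * B.ev (G.D (![0, 2] j) (f.Φ (G.e k))) p ≠ 0 := by
  have key : ∀ (a : Fin 4) (u v : Fin 4 → ℝ),
      ∑ k, B.ev (G.θ a k) (f.pt p) * (G.dv (f.Φ (G.e k)) p u - Complex.I * G.dv (f.Φ (G.e k)) p v) =
        cx (f.J p *ᵥ u) a - Complex.I * cx (f.J p *ᵥ v) a := by
    intro a u v
    rw [← G.mapB_θ_dv a (f.pt p), ← G.mapB_θ_dv a (f.pt p), Finset.mul_sum,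
      ← Finset.sum_sub_distrib]
    refine Finset.sum_congr rfl fun k _ => ?_
    rw [f.chain _ (G.e_re k).1, f.chain _ (G.e_re k).1]
    ring
  have aux : ∀ a b c d : ℝ, 0 < a * d - b * c →
      ((a : ℂ) + c * Complex.I) / 2 - Complex.I * ((b + d * Complex.I) / 2) ≠ 0 := by
    intro a b c d h0 h1
    have h2 : ((a + d : ℝ) : ℂ) + (c - b : ℝ) * Complex.I = 0 := by
      push_cast
      linear_combination 2 * h1 + d * Complex.I_mul_I
    have h3 : a + d = 0 := by simpa using congrArg Complex.re h2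
    have h4 : c - b = 0 := by simpa using congrArg Complex.im h2
    rw [eq_neg_of_add_eq_zero_left h3, sub_eq_zero.1 h4] at h0
    nlinarith [sq_nonneg b, sq_nonneg d]
  fin_cases j
  · change ∑ k, B.ev (G.θ 0 k) (f.pt p) * B.ev (G.D 0 (f.Φ (G.e k))) p ≠ 0
    simp only [G.ev_D_zero, key]
    simpa [cx] using aux _ _ _ _ (h p).1
  · change ∑ k, B.ev (G.θ 2 k) (f.pt p) * B.ev (G.D 2 (f.Φ (G.e k))) p ≠ 0
    simp only [G.ev_D_two, key]
    simpa [cx] using aux _ _ _ _ (h p).2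

theorem curv_inv (h : f.Blk) (j : Fin 2) :
    ∃ c, B.Form1 c ∧ f.pull2 (G.F j) = G.F j + G.d1 c := by
  obtain ⟨n, s, hs, h1⟩ := G.exists_gens (wt (![0, 2] j))
  obtain ⟨l, hl⟩ : ∃ l : P → ℂ, ∀ p, l p =
      ∑ k, B.ev (G.θ (![0, 2] j) k) (f.pt p) * B.ev (G.D (![0, 2] j) (f.Φ (G.e k))) p :=
    ⟨_, fun _ => rfl⟩
  have hl0 : ∀ p, l p ≠ 0 := fun p => by rw [hl]; exact f.mapB_lam h j p
  obtain ⟨s', hs', h2⟩ : ∃ s' : Fin n → A, (∀ i, s' i ∈ B.W (wt (![0, 2] j))) ∧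
      ∀ i p, B.ev (s' i) p = B.ev (s i) (f.pt p) * l p := by
    have hm : ∀ i k, s i * G.θ (![0, 2] j) k ∈ B.W 0 := fun i k =>
      B.mul_mem' (hs i) (G.θ_mem _ k) (add_neg_cancel _)
    refine ⟨fun i => ∑ k, f.Φ (s i * G.θ (![0, 2] j) k) * G.D (![0, 2] j) (f.Φ (G.e k)),
      fun i => Submodule.sum_mem _ fun k _ => B.mul_mem' (f.mem _ (hm i k))
        (G.D_mem _ (f.mem _ (G.e_re k).1)) (by abel), fun i p => ?_⟩
    simp only [map_sum, map_mul, ContinuousMap.coe_sum, Finset.sum_apply, ContinuousMap.mul_apply,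
      f.ev_eq _ (hm i _), hl, Finset.mul_sum, mul_assoc]
  have h3 : ∀ p, B.ev (∑ i, star (s' i) * s' i) p = (starRingEnd ℂ) (l p) * l p := by
    intro p
    have e := congrArg (fun x => B.ev x (f.pt p)) h1
    simp only [map_sum, map_mul, map_one, ContinuousMap.coe_sum, Finset.sum_apply,
      ContinuousMap.mul_apply, ContinuousMap.one_apply, B.ev_star, h2] at e ⊢
    rw [← one_mul ((starRingEnd ℂ) (l p) * l p), ← e, Finset.sum_mul]
    exact Finset.sum_congr rfl fun _ _ => by ring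
  obtain ⟨r, hr, h4⟩ := G.exists_inv (w := 0) (s := ∑ i, star (s' i) * s' i)
    (Submodule.sum_mem _ fun i _ => (B.re0_star_mul (hs' i)).1) fun p => by
      rw [h3]
      exact mul_ne_zero ((map_ne_zero _).2 (hl0 p)) (hl0 p)
  have h5 : ∑ i, star (s' i) * r * s' i = 1 := by
    rw [← h4, Finset.sum_mul]
    exact Finset.sum_congr rfl fun _ _ => by ring
  have hπ : ∀ i k, s i * star (s k) ∈ B.W 0 := fun i k =>
    B.mul_mem' (hs i) (B.star_mem (hs k)) (add_neg_cancel _)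
  have h6 : ∀ i k, f.Φ (s i * star (s k)) = s' i * (star (s' k) * r) := fun i k =>
    B.ext' fun p => by
      have e := congrArg (fun x => B.ev x p) h4
      simp only [map_mul, map_one, ContinuousMap.mul_apply, ContinuousMap.one_apply, h3] at e
      simp only [f.ev_eq _ (hπ i k), map_mul, ContinuousMap.mul_apply, B.ev_star, h2]
      linear_combination -(B.ev (s i) (f.pt p) * (starRingEnd ℂ) (B.ev (s k) (f.pt p))) * e
  have hc : B.Form1 fun γ => ∑ i, star (s i) * G.D γ (s i) := fun γ =>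
    Submodule.sum_mem _ fun i _ => B.mul_mem' (B.star_mem (hs i)) (G.D_mem γ (hs i)) (by abel)
  have hc' : B.Form1 fun γ => ∑ i, star (s' i) * r * G.D γ (s' i) := fun γ =>
    Submodule.sum_mem _ fun i _ => B.mul_mem' (B.mul_mem (B.star_mem (hs' i)) hr)
      (G.D_mem γ (hs' i)) (by abel)
  have h7 := f.mapB_pull2_comb (ι := Fin n × Fin n × Fin n) (fun x => hπ x.1 x.2.1)
    (fun x => hπ x.2.1 x.2.2) fun x => hπ x.2.2 x.1
  simp only [Fintype.sum_prod_type, h6, G.mapB_proj hs h1, G.mapB_proj hs' h5,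
    G.basic_Fw_wt] at h7
  have h8 : (fun α β => G.d1 (fun γ => ∑ i, star (s i) * G.D γ (s i)) α β - G.F j α β) =
      G.d1 (fun γ => ∑ i, star (s i) * G.D γ (s i)) + (-1 : ℂ) • G.F j := by
    funext α β
    simp [sub_eq_add_neg]
  rw [h8, f.pull2_add (G.d1_form hc) ((G.F_form j).smul _), f.pull2_smul _ (G.F_form j),
    f.pull2_d1 hc] at h7
  refine ⟨f.pull1 (fun γ => ∑ i, star (s i) * G.D γ (s i)) +
    (-1 : ℂ) • fun γ => ∑ i, star (s' i) * r * G.D γ (s' i), fun γ =>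
      add_mem (f.pull1_form hc γ) (Submodule.smul_mem _ _ (hc' γ)), ?_⟩
  funext α β
  have h9 := congrFun (congrFun h7 α) β
  simp only [Pi.add_apply, Pi.neg_apply, neg_smul, one_smul] at h9
  rw [Pi.add_apply, Pi.add_apply, G.d1_add, G.d1_smul, neg_smul, one_smul]
  linear_combination -h9

end Map

namespace Iter

variable {G : Pre B} {U V : P → Fin 2 → Fin 4 → ℝ} (g : Iter G U V)

theorem pull2_comp (m n : ℕ) {b : Fin 4 → Fin 4 → A} (hb : B.Form2 b) :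
    (g.g (m + n)).pull2 b = (g.g m).pull2 ((g.g n).pull2 b) := by
  have h : ∀ i : Fin G.N × Fin G.N,
      (1 / 2 : ℂ) • ∑ γ, ∑ δ, b γ δ * G.θ γ i.1 * G.θ δ i.2 ∈ B.W 0 := fun i =>
    Submodule.smul_mem _ _ (G.mapB_coef_mem hb i.1 i.2)
  rw [(g.g n).mapB_pull2_eq hb, (g.g (m + n)).mapB_pull2_eq hb, (g.g m).mapB_pull2_comb
    (fun i => (g.g n).mem _ (h i)) (fun i => (g.g n).mem _ (G.e_re _).1)
    fun i => (g.g n).mem _ (G.e_re _).1]
  simp only [g.comp m n _ (h _), g.comp m n _ (G.e_re _).1]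

theorem curv_inv (h : (g.g 1).Blk) {m : ℕ} (hm : 1 ≤ m) (j : Fin 2) :
    ∃ c, B.Form1 c ∧ (g.g m).pull2 (G.F j) = G.F j + G.d1 c := by
  obtain ⟨c₁, h1, h2⟩ := (g.g 1).curv_inv h j
  induction m, hm using Nat.le_induction with
  | base => exact ⟨c₁, h1, h2⟩
  | succ m hm ih =>
    obtain ⟨c, h3, h4⟩ := ih
    refine ⟨c + (g.g m).pull1 c₁, fun α => add_mem (h3 α) ((g.g m).pull1_form h1 α), ?_⟩
    rw [g.pull2_comp m 1 (G.F_form j), h2, (g.g m).pull2_add (G.F_form j) (G.d1_form h1), h4,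
      (g.g m).pull2_d1 h1]
    funext α β
    simp only [Pi.add_apply, G.d1_add, add_assoc]

theorem I_wg_F (h : (g.g 1).Blk) {m : ℕ} (hm : 1 ≤ m) (j : Fin 2) {b : Fin 4 → Fin 4 → A}
    (hb : B.Form2 b) (hc : G.Closed b) :
    G.I (wg (G.F j) ((g.g m).pull2 b)) = G.I (wg (G.F j) b) := by
  obtain ⟨c, h1, h2⟩ := g.curv_inv h hm j
  have h3 := ((g.g m).pull2_closed hb hc).d1 h1
  have e : wg (G.F j + G.d1 c) ((g.g m).pull2 b) =
      wg (G.F j) ((g.g m).pull2 b) + wg ((g.g m).pull2 b) (G.d1 c) := by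
    simp only [wg, Pi.add_apply]
    ring
  rw [← (g.g m).I_wg_pull (G.F_form j) hb, h2, e, map_add, h3, add_zero]

end Iter

end SW4
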