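import Pool.Agent.P.MP_0a0487_an.SW.AtlDefs

/-! Local calculus in a chart for the construction of the calculus of a framed manifold. -/

set_option autoImplicit false

noncomputable section

namespace SW4

open scoped ContDiff
open Filter Topology Matrix

variable {S : Set E4} {y : E4} {φ χ : E4 → ℂ}

theorem m3_diff (hS : IsOpen S) (hy : y ∈ S) (h : ContDiffOn ℝ ∞ φ S) :
    HasFDerivAt φ (fderiv ℝ φ y) y :=
  ((h.contDiffAt (hS.mem_nhds hy)).differentiableAt (by simp)).hasFDerivAt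

theorem m3_pd_sm (hS : IsOpen S) (h : ContDiffOn ℝ ∞ φ S) (j : Fin 4) :
    ContDiffOn ℝ ∞ (pd j φ) S :=
  (h.fderiv_of_isOpen (m := ∞) hS (by simp)).clm_apply contDiffOn_const

theorem m3_pd_congr (hS : IsOpen S) (hy : y ∈ S) (h : ∀ x ∈ S, φ x = χ x) (j : Fin 4) :
    pd j φ y = pd j χ y := by
  have e : φ =ᶠ[𝓝 y] χ := by
    filter_upwards [hS.mem_nhds hy] with x hx using h x hx
  rw [pd, pd, e.fderiv_eq]

theorem m3_pd_mul (hS : IsOpen S) (hy : y ∈ S) (h : ContDiffOn ℝ ∞ φ S) (h' : ContDiffOn ℝ ∞ χ S)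
    (j : Fin 4) : pd j (fun x => φ x * χ x) y = pd j φ y * χ y + φ y * pd j χ y := by
  rw [pd, ((m3_diff hS hy h).fun_mul (m3_diff hS hy h')).fderiv]
  simp only [_root_.add_apply, _root_.smul_apply, smul_eq_mul, pd]
  ring

theorem m3_pd_star (φ : E4 → ℂ) (j : Fin 4) (y : E4) :
    pd j (fun x => (starRingEnd ℂ) (φ x)) y = (starRingEnd ℂ) (pd j φ y) := by
  have h := Complex.conjCLE.comp_fderiv (f := φ) (x := y)
  exact congrArg (fun L : E4 →L[ℝ] ℂ => L (Pi.single j 1)) h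

theorem m3_pd_comm (hS : IsOpen S) (hy : y ∈ S) (h : ContDiffOn ℝ ∞ φ S) (i j : Fin 4) :
    pd i (pd j φ) y = pd j (pd i φ) y := by
  have d : DifferentiableAt ℝ (fderiv ℝ φ) y :=
    ((h.fderiv_of_isOpen (m := ∞) hS (by simp)).contDiffAt (hS.mem_nhds hy)).differentiableAt
      (by simp)
  have e : ∀ i j : Fin 4, pd i (pd j φ) y =
      fderiv ℝ (fderiv ℝ φ) y (Pi.single i 1) (Pi.single j 1) := fun i j => by
    have e := (d.hasFDerivAt.clm_apply (hasFDerivAt_const (Pi.single j 1 : E4) y)).fderiv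
    change fderiv ℝ (fun y => fderiv ℝ φ y (Pi.single j 1)) y (Pi.single i 1) = _
    rw [e]
    simp
  rw [e, e]
  refine ((h.contDiffAt (hS.mem_nhds hy)).isSymmSndFDerivAt ?_).eq _ _
  rw [minSmoothness_of_isRCLikeNormedField]
  exact WithTop.coe_le_coe.2 le_top

/-- The derivative of a first-order expression. -/
theorem m3_pd_op (hS : IsOpen S) (hy : y ∈ S) (h : ContDiffOn ℝ ∞ φ S) {c : Fin 4 → E4 → ℂ}
    (hc : ∀ k, ContDiffOn ℝ ∞ (c k) S) {g₀ g₁ : E4 → ℂ} (h₀ : ContDiffOn ℝ ∞ g₀ S)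
    (h₁ : ContDiffOn ℝ ∞ g₁ S) (u v : ℂ) (j : Fin 4) :
    pd j (fun x => ∑ k, c k x * pd k φ x + (u * g₀ x + v * g₁ x) * φ x) y =
      ∑ k, (pd j (c k) y * pd k φ y + c k y * pd j (pd k φ) y) +
        ((u * pd j g₀ y + v * pd j g₁ y) * φ y + (u * g₀ y + v * g₁ y) * pd j φ y) := by
  have d := (HasFDerivAt.fun_sum fun k (_ : k ∈ Finset.univ) =>
    (m3_diff hS hy (hc k)).fun_mul (m3_diff hS hy (m3_pd_sm hS h k))).fun_add
    ((((m3_diff hS hy h₀).const_mul u).fun_add ((m3_diff hS hy h₁).const_mul v)).fun_mul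
      (m3_diff hS hy h))
  rw [pd, d.fderiv]
  simp only [_root_.add_apply, _root_.smul_apply, _root_.sum_apply, smul_eq_mul]
  simp only [pd, Fin.sum_univ_four]
  ring

theorem m3_det_sm {n : Type} [Fintype n] [DecidableEq n] {M : E4 → Matrix n n ℂ}
    (h : ∀ i j, ContDiffOn ℝ ∞ (fun x => M x i j) S) :
    ContDiffOn ℝ ∞ (fun x => (M x).det) S := by
  simp only [Matrix.det_apply']
  exact ContDiffOn.sum fun σ _ => contDiffOn_const.mul (contDiffOn_prod fun i _ => h _ _)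

theorem m3_inv_sm {n : Type} [Fintype n] [DecidableEq n] {M : E4 → Matrix n n ℂ}
    (h : ∀ i j, ContDiffOn ℝ ∞ (fun x => M x i j) S) (h0 : ∀ x ∈ S, (M x).det ≠ 0) (i j : n) :
    ContDiffOn ℝ ∞ (fun x => (M x)⁻¹ i j) S := by
  simp only [Matrix.inv_def, Ring.inverse_eq_inv', Matrix.smul_apply, smul_eq_mul,
    Matrix.adjugate_apply]
  refine ((m3_det_sm h).inv h0).mul (m3_det_sm fun k l => ?_)
  simp only [Matrix.updateRow_apply]
  by_cases e : k = j
  · simp only [e, if_true]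
    exact contDiffOn_const
  · simp only [e, if_false]
    exact h k l

theorem m3_clm {ι F : Type} [Fintype ι] [DecidableEq ι] [NormedAddCommGroup F] [NormedSpace ℝ F]
    (L : (ι → ℝ) →L[ℝ] F) (w : ι → ℝ) : L w = ∑ i, w i • L (Pi.single i 1) := by
  conv_lhs => rw [pi_eq_sum_univ' w]
  simp only [map_sum, map_smul]

theorem m3_chain {ι : Type} [Fintype ι] [DecidableEq ι] {Φ : (ι → ℝ) → ℝ} {U : Set (ι → ℝ)}
    (hU : IsOpen U) (hΦ : ContDiffOn ℝ ∞ Φ U) (hS : IsOpen S) (hy : y ∈ S) {u : ι → E4 → ℂ}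
    (hu : ∀ i, ContDiffOn ℝ ∞ (u i) S) (hr : ∀ i x, (starRingEnd ℂ) (u i x) = u i x)
    (hm : (fun i => (u i y).re) ∈ U) (j : Fin 4) :
    pd j (fun x => (Φ fun i => (u i x).re : ℝ)) y =
      ∑ i, (fderiv ℝ Φ (fun i => (u i y).re) (Pi.single i 1) : ℝ) * pd j (u i) y := by
  have d1 : HasFDerivAt (fun x i => (u i x).re)
      (ContinuousLinearMap.pi fun i => Complex.reCLM.comp (fderiv ℝ (u i) y)) y :=
    hasFDerivAt_pi.2 fun i => Complex.reCLM.hasFDerivAt.comp y (m3_diff hS hy (hu i))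
  have d2 := ((hΦ.contDiffAt (hU.mem_nhds hm)).differentiableAt (by simp)).hasFDerivAt
  have d3 : HasFDerivAt (fun x => ((Φ fun i => (u i x).re : ℝ) : ℂ)) _ y :=
    Complex.ofRealCLM.hasFDerivAt.comp y (d2.comp y d1)
  have e : ∀ i, ((pd j (u i) y).re : ℂ) = pd j (u i) y := fun i => by
    refine Complex.conj_eq_iff_re.1 ?_
    rw [← m3_pd_star]
    simp only [hr]
  rw [pd, d3.fderiv]
  simp only [ContinuousLinearMap.comp_apply, Complex.ofRealCLM_apply]
  rw [m3_clm]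
  push_cast
  refine Finset.sum_congr rfl fun i _ => ?_
  rw [← e i, smul_eq_mul, mul_comm]
  push_cast
  rfl

end SW4
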