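import Pool.Agent.P.MP_0a0487_an.SW.Chart
import Pool.Agent.P.MP_0a0487_an.SW.EuM

/-! Mollifiers on the manifold. -/

set_option autoImplicit false
set_option linter.unusedSectionVars false

noncomputable section

namespace SW4

open scoped ComplexOrder ContDiff
open Filter Topology

variable {P A : Type} [TopologicalSpace P] [CompactSpace P] [CommRing A] [StarRing A] [Algebra ℂ A]
  [StarModule ℂ A] {B : Base P A}

open MeasureTheory

/-- Local data for smoothing operators in a chart. -/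
structure MollMD {G : Calc B} (a : Atl G) (i : Fin a.n) where
  K : Set E4
  r : ℝ
  χ : A
  K' : Set E4
  r_pos : 0 < r
  cK : IsCompact K
  sL : Metric.cthickening r K ⊆ a.O i
  re : B.Re0 χ
  cK' : IsCompact K'
  sK' : K' ⊆ a.O i
  supp : a.Supp i K' χ
  one : ∀ᶠ y in 𝓝ˢ (Metric.cthickening r K), B.ev χ (a.pr i y) = 1

section basic

variable {G : Calc B} {a : Atl G} {i : Fin a.n}

theorem mollM_exists {K : Set E4} (hK : IsCompact K) (hs : K ⊆ a.O i) :
    ∃ d : MollMD a i, d.K = K := by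
  obtain ⟨r, hr, h⟩ := hK.exists_cthickening_subset_open (a.O_open i) hs
  obtain ⟨χ, K', h1, h2, h3, h4, -, h5⟩ := a.exists_cut (hK.cthickening (r := r)) h
  exact ⟨⟨K, r, χ, K', hr, hK, h, h1, h2, h3, h4, h5⟩, rfl⟩

theorem mollM_loc_of_mem (s : A) {y : E4} (hy : y ∈ a.O i) :
    a.loc i s y = B.ev s (a.pr i y) := Set.indicator_of_mem hy _

theorem mollM_loc_of_not (s : A) {y : E4} (hy : y ∉ a.O i) : a.loc i s y = 0 :=
  Set.indicator_of_notMem hy _

theorem mollM_loc_ev (s : A) {y : E4} (hy : y ∈ a.O i) :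
    a.loc i s =ᶠ[𝓝 y] fun y => B.ev s (a.pr i y) := by
  filter_upwards [(a.O_open i).mem_nhds hy] with x hx using mollM_loc_of_mem s hx

theorem mollM_loc_add (s t : A) : a.loc i (s + t) = a.loc i s + a.loc i t := by
  funext y
  by_cases hy : y ∈ a.O i
  · simp [mollM_loc_of_mem _ hy]
  · simp [mollM_loc_of_not _ hy]

theorem mollM_loc_smul (c : ℂ) (s : A) : a.loc i (c • s) = c • a.loc i s := by
  funext y
  by_cases hy : y ∈ a.O i
  · simp [mollM_loc_of_mem _ hy]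
  · simp [mollM_loc_of_not _ hy]

theorem mollM_supp_add {K : Set E4} {s t : A} (hs : a.Supp i K s) (ht : a.Supp i K t) :
    a.Supp i K (s + t) := fun p hp => by
  by_cases h : B.ev s p = 0
  · refine ht p fun h' => hp ?_
    simp [h, h']
  · exact hs p h

theorem mollM_supp_sub {K : Set E4} {s t : A} (hs : a.Supp i K s) (ht : a.Supp i K t) :
    a.Supp i K (s - t) := fun p hp => by
  by_cases h : B.ev s p = 0
  · refine ht p fun h' => hp ?_
    simp [h, h']
  · exact hs p h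

theorem mollM_supp_smul {K : Set E4} {s : A} (hs : a.Supp i K s) (c : ℂ) :
    a.Supp i K (c • s) := fun p hp => hs p fun h => hp (by simp [h])

theorem mollM_supp_star {K : Set E4} {s : A} (hs : a.Supp i K s) :
    a.Supp i K (star s) := fun p hp => hs p fun h => hp (by simp [map_star, h])

theorem mollM_supp_field {K : Set E4} (hK : IsCompact K) (hs : K ⊆ a.O i) {s : A}
    (h0 : s ∈ B.W 0) (h : a.Supp i K s) (g : Fin 4 → A) :
    a.Supp i K (∑ α, g α * G.D α s) := fun p hp => by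
  by_contra hc
  apply hp
  rw [map_sum, ContinuousMap.sum_apply]
  refine Finset.sum_eq_zero fun α _ => ?_
  by_contra h'
  exact hc (((h.D hK hs h0 α).mul_left (g α)) p h')

theorem mollM_field_mem {g : Fin 4 → A} (hg : ∀ α, g α ∈ B.W (-wt α)) {s : A} (h0 : s ∈ B.W 0) :
    ∑ α, g α * G.D α s ∈ B.W 0 :=
  Submodule.sum_mem _ fun α _ => by
    have := B.mul_mem (hg α) (G.D_mem α h0)
    simpa using this

theorem mollM_mul_mem {s t : A} (hs : s ∈ B.W 0) (ht : t ∈ B.W 0) : s * t ∈ B.W 0 := by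
  simpa using B.mul_mem hs ht

theorem mollM_star_mem {s : A} (hs : s ∈ B.W 0) : star s ∈ B.W 0 := by
  simpa using B.star_mem hs

theorem mollM_ext {K : Set E4} (hK : IsCompact K) (hs : K ⊆ a.O i) {s t : A} (s0 : s ∈ B.W 0)
    (t0 : t ∈ B.W 0) (h1 : a.Supp i K s) (h2 : a.Supp i K t)
    (h : ∀ y ∈ K, B.ev s (a.pr i y) = B.ev t (a.pr i y)) : s = t := by
  refine a.ext_loc s0 t0 h1 h2 (funext fun y => ?_)
  by_cases hy : y ∈ K
  · rw [mollM_loc_of_mem _ (hs hy), mollM_loc_of_mem _ (hs hy), h y hy]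
  · rw [(a.loc_test hK hs h1).2 y hy, (a.loc_test hK hs h2).2 y hy]

theorem mollM_lin {L : Set E4} (hL : IsCompact L) (hs : L ⊆ a.O i) (F : A → E4 → ℂ)
    (ht : ∀ s, Test L (F s)) (hadd : ∀ s t, F (s + t) = F s + F t)
    (hsm : ∀ (c : ℂ) s, F (c • s) = c • F s) :
    ∃ M : A →ₗ[ℂ] A, ∀ s, M s ∈ B.W 0 ∧ a.Supp i L (M s) ∧ a.loc i (M s) = F s := by
  have key : ∀ s, ∃ x ∈ B.W 0, a.Supp i L x ∧ a.loc i x = F s := fun s => by
    obtain ⟨x, h0, h1, h2⟩ := a.glob hL hs (ht s).1.contDiffOn fun y _ hy => (ht s).2 y hy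
    refine ⟨x, h0, h1, funext fun y => ?_⟩
    by_cases hy : y ∈ a.O i
    · rw [mollM_loc_of_mem _ hy, h2 y hy]
    · rw [mollM_loc_of_not _ hy, (ht s).2 y fun h => hy (hs h)]
  choose M h0 h1 h2 using key
  refine ⟨⟨⟨M, fun s t => ?_⟩, fun c s => ?_⟩, fun s => ⟨h0 s, h1 s, h2 s⟩⟩
  · refine a.ext_loc (h0 _) (add_mem (h0 s) (h0 t)) (h1 _) (mollM_supp_add (h1 s) (h1 t)) ?_
    rw [mollM_loc_add, h2, h2, h2, hadd]
  · refine a.ext_loc (h0 _) (Submodule.smul_mem _ _ (h0 s)) (h1 _) (mollM_supp_smul (h1 s) c) ?_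
    rw [RingHom.id_apply, mollM_loc_smul, h2, h2, hsm]

namespace MollMD

variable (d : MollMD a i)

theorem cL : IsCompact (Metric.cthickening d.r d.K) := d.cK.cthickening

theorem sKL : d.K ⊆ Metric.cthickening d.r d.K := Metric.self_subset_cthickening _

theorem sK : d.K ⊆ a.O i := d.sKL.trans d.sL

/-- The local representative, cut off. -/
def cut (s : A) : E4 → ℂ := a.loc i (s * d.χ)

theorem cut_test (s : A) : Test d.K' (d.cut s) := a.loc_test d.cK' d.sK' (d.supp.mul_left s)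

theorem cut_sm (s : A) : ContDiff ℝ ∞ (d.cut s) := (d.cut_test s).1

theorem cut_cont (s : A) : Continuous (d.cut s) := (d.cut_sm s).continuous

theorem cut_cs (s : A) : HasCompactSupport (d.cut s) :=
  HasCompactSupport.intro d.cK' (d.cut_test s).2

theorem cut_ev (s : A) {y : E4} (hy : y ∈ Metric.cthickening d.r d.K) :
    d.cut s =ᶠ[𝓝 y] fun y => B.ev s (a.pr i y) := by
  filter_upwards [(a.O_open i).mem_nhds (d.sL hy), d.one.filter_mono (nhds_le_nhdsSet hy)]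
    with x hx h1
  rw [cut, mollM_loc_of_mem _ hx, map_mul, ContinuousMap.mul_apply, h1, mul_one]

theorem cut_eq (s : A) {y : E4} (hy : y ∈ Metric.cthickening d.r d.K) :
    d.cut s y = B.ev s (a.pr i y) := (d.cut_ev s hy).eq_of_nhds

theorem cut_add (s t : A) : d.cut (s + t) = d.cut s + d.cut t := by
  rw [cut, add_mul, mollM_loc_add]; rfl

theorem cut_smul (c : ℂ) (s : A) : d.cut (c • s) = c • d.cut s := by
  rw [cut, smul_mul_assoc, mollM_loc_smul]; rfl

theorem cut_mul {v : E4 → ℂ} (hv : ContDiffOn ℝ ∞ v (a.O i)) (s : A) :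
    Test d.K' fun y => v y * d.cut s y := by
  obtain ⟨C, -, h⟩ := en_mul d.cK' (a.O_open i) d.sK' hv 0
  exact (h _ (d.cut_test s)).1

theorem exists_atom {k : ℕ → E4 × E4 → ℂ} (hk : Ker d.K d.r k) (n : ℕ) :
    ∃ M : A →ₗ[ℂ] A, ∀ s, M s ∈ B.W 0 ∧ a.Supp i d.K (M s) ∧ a.loc i (M s) = kop k n (d.cut s) :=
  mollM_lin d.cK d.sK (fun s => kop k n (d.cut s)) (fun s => hk.kop_test n (d.cut_sm s))
    (fun s t => by rw [d.cut_add, hk.kop_add n (d.cut_cont s) (d.cut_cont t)])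
    (fun c s => by rw [d.cut_smul, kop_smul])

/-- The smoothing operator of a kernel. -/
def atom {k : ℕ → E4 × E4 → ℂ} (hk : Ker d.K d.r k) (n : ℕ) : A →ₗ[ℂ] A :=
  (d.exists_atom hk n).choose

variable {k : ℕ → E4 × E4 → ℂ} (hk : Ker d.K d.r k)

theorem atom_mem (n : ℕ) (s : A) : d.atom hk n s ∈ B.W 0 := ((d.exists_atom hk n).choose_spec s).1

theorem atom_supp (n : ℕ) (s : A) : a.Supp i d.K (d.atom hk n s) :=
  ((d.exists_atom hk n).choose_spec s).2.1

theorem atom_loc (n : ℕ) (s : A) : a.loc i (d.atom hk n s) = kop k n (d.cut s) :=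
  ((d.exists_atom hk n).choose_spec s).2.2

theorem atom_ev (n : ℕ) (s : A) {y : E4} (hy : y ∈ d.K) :
    B.ev (d.atom hk n s) (a.pr i y) = kop k n (d.cut s) y := by
  rw [← d.atom_loc hk, mollM_loc_of_mem _ (d.sK hy)]

theorem atom_pd (n : ℕ) (s : A) {y : E4} (hy : y ∈ d.K) (j : Fin 4) :
    pd j (fun y => B.ev (d.atom hk n s) (a.pr i y)) y = pd j (kop k n (d.cut s)) y := by
  rw [← d.atom_loc hk]
  unfold pd
  rw [(mollM_loc_ev (d.atom hk n s) (d.sK hy)).fderiv_eq]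

theorem atom_add {k' : ℕ → E4 × E4 → ℂ} (hk' : Ker d.K d.r k') (n : ℕ) (s : A) :
    d.atom (hk.add hk') n s = d.atom hk n s + d.atom hk' n s := by
  refine a.ext_loc (d.atom_mem _ _ _) (add_mem (d.atom_mem _ _ _) (d.atom_mem _ _ _))
    (d.atom_supp _ _ _) (mollM_supp_add (d.atom_supp _ _ _) (d.atom_supp _ _ _)) ?_
  rw [mollM_loc_add, atom_loc, atom_loc, atom_loc, hk.add_kop hk' n (d.cut_cont s)]

theorem atom_left {c : A} (hc : c ∈ B.W 0) (n : ℕ) (s : A) :
    d.atom (hk.left (d.cut_sm c) (d.cut_cs c)) n s = c * d.atom hk n s := by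
  refine mollM_ext d.cK d.sK (d.atom_mem _ _ _) (mollM_mul_mem hc (d.atom_mem _ _ _))
    (d.atom_supp _ _ _) ((d.atom_supp _ _ _).mul_left c) fun y hy => ?_
  rw [map_mul, ContinuousMap.mul_apply, d.atom_ev _ _ _ hy, d.atom_ev _ _ _ hy,
    ← d.cut_eq c (d.sKL hy)]
  unfold kop
  rw [← integral_const_mul]
  simp only [mul_assoc]

theorem atom_right (c : A) (n : ℕ) (s : A) :
    d.atom (hk.right (d.cut_sm c) (d.cut_cs c)) n s = d.atom hk n (c * s) := by
  refine a.ext_loc (d.atom_mem _ _ _) (d.atom_mem _ _ _) (d.atom_supp _ _ _)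
    (d.atom_supp _ _ _) ?_
  rw [atom_loc, atom_loc, hk.kop_congr n (φ := d.cut (c * s))
    (φ' := fun y => d.cut c y * d.cut s y) fun y hy => by
      rw [d.cut_eq _ hy, d.cut_eq _ hy, d.cut_eq _ hy, map_mul, ContinuousMap.mul_apply]]
  funext y
  unfold kop
  simp only [mul_assoc]

theorem atom_conj (n : ℕ) (s : A) :
    d.atom hk.conj n s = star (d.atom hk n (star s)) := by
  refine mollM_ext d.cK d.sK (d.atom_mem _ _ _) (mollM_star_mem (d.atom_mem _ _ _))
    (d.atom_supp _ _ _) (mollM_supp_star (d.atom_supp _ _ _)) fun y hy => ?_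
  rw [map_star, ContinuousMap.star_apply, d.atom_ev _ _ _ hy, d.atom_ev _ _ _ hy,
    hk.kop_congr n (φ := d.cut (star s)) (φ' := fun y => (starRingEnd ℂ) (d.cut s y))
      fun y hy => by
        rw [d.cut_eq _ hy, d.cut_eq _ hy, map_star, ContinuousMap.star_apply]; rfl]
  unfold kop
  change _ = (starRingEnd ℂ) _
  rw [← integral_conj]
  simp

theorem atom_ad {g : Fin 4 → A} (hg : ∀ α, g α ∈ B.W (-wt α)) :
    ∃ (k' : ℕ → E4 × E4 → ℂ) (hk' : Ker d.K d.r k'), ∀ n, ∀ s ∈ B.W 0, d.atom hk' n s =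
      ∑ α, g α * G.D α (d.atom hk n s) - d.atom hk n (∑ α, g α * G.D α s) := by
  obtain ⟨v, hv, e⟩ := a.field_loc i g
  have t := fun j => d.cut_mul (hv j) 1
  obtain ⟨k', hk', e'⟩ := hk.exists_ad d.cK.isClosed (v := fun j y => v j y * d.cut 1 y)
    (fun j => (t j).1) fun j => HasCompactSupport.intro d.cK' (t j).2
  have one : ∀ y ∈ Metric.cthickening d.r d.K, d.cut 1 y = 1 := fun y hy => by
    rw [d.cut_eq _ hy]; simp
  refine ⟨k', hk', fun n s hs => ?_⟩
  refine mollM_ext d.cK d.sK (d.atom_mem _ _ _)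
    (sub_mem (mollM_field_mem hg (d.atom_mem _ _ _)) (d.atom_mem _ _ _)) (d.atom_supp _ _ _)
    (mollM_supp_sub (mollM_supp_field d.cK d.sK (d.atom_mem _ _ _) (d.atom_supp _ _ _) g)
      (d.atom_supp _ _ _)) fun y hy => ?_
  rw [map_sub, ContinuousMap.sub_apply, e _ (d.atom_mem _ _ _) y (d.sK hy), d.atom_ev _ _ _ hy,
    d.atom_ev _ _ _ hy, e' n _ (d.cut_sm s) y,
    hk.kop_congr n (φ := d.cut (∑ α, g α * G.D α s))
      (φ' := fun x => ∑ j, v j x * d.cut 1 x * pd j (d.cut s) x) fun x hx => ?_]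
  · simp only [one y (d.sKL hy), mul_one, d.atom_pd hk n s hy]
  · rw [d.cut_eq _ hx, e s hs x (d.sL hx)]
    refine Finset.sum_congr rfl fun j _ => ?_
    rw [one x hx, mul_one]
    unfold pd
    rw [(d.cut_ev s hx).fderiv_eq]

theorem atom_der {g : Fin 4 → A} (hg : ∀ α, g α ∈ B.W (-wt α)) :
    ∃ (k' : ℕ → E4 × E4 → ℂ) (hk' : Ker d.K d.r k'), ∀ (n : ℕ) (s : A),
      ((n : ℂ) + 1) • d.atom hk' n s = ∑ α, g α * G.D α (d.atom hk n s) := by
  obtain ⟨v, hv, e⟩ := a.field_loc i g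
  have t := fun j => d.cut_mul (hv j) 1
  obtain ⟨k', hk', e'⟩ := hk.exists_der d.cK.isClosed (v := fun j y => v j y * d.cut 1 y)
    (fun j => (t j).1) fun j => HasCompactSupport.intro d.cK' (t j).2
  have one : ∀ y ∈ Metric.cthickening d.r d.K, d.cut 1 y = 1 := fun y hy => by
    rw [d.cut_eq _ hy]; simp
  refine ⟨k', hk', fun n s => ?_⟩
  refine mollM_ext d.cK d.sK (Submodule.smul_mem _ _ (d.atom_mem _ _ _))
    (mollM_field_mem hg (d.atom_mem _ _ _)) (mollM_supp_smul (d.atom_supp _ _ _) _)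
    (mollM_supp_field d.cK d.sK (d.atom_mem _ _ _) (d.atom_supp _ _ _) g) fun y hy => ?_
  rw [map_smul, ContinuousMap.smul_apply, smul_eq_mul, e _ (d.atom_mem _ _ _) y (d.sK hy),
    d.atom_ev _ _ _ hy, e' n _ (d.cut_sm s) y]
  simp only [one y (d.sKL hy), mul_one, d.atom_pd hk n s hy]

end MollMD

end basic

namespace MollMD

variable {G : Pre B} {a : Atl G.toCalc} {i : Fin a.n} (d : MollMD a i)
  {k : ℕ → E4 × E4 → ℂ} (hk : Ker d.K d.r k)

theorem atom_bdd (h : IsInt G a) :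
    ∃ C : ℝ, ∀ n, ∀ s ∈ B.W 0, G.nrm (d.atom hk n s) ≤ C * G.nrm s := by
  obtain ⟨C1, p1, h1⟩ := h.nn_en d.cK d.sK 0
  obtain ⟨C2, p2, h2⟩ := hk.kop_bdd
  obtain ⟨C3, p3, h3⟩ := h.nn_en d.cK' d.sK' 0
  refine ⟨C1 * (C2 * (C3 * ‖B.ev d.χ‖)), fun n s hs => ?_⟩
  have a1 : G.nrm (d.atom hk n s) ≤ C1 * e0 (a.loc i (d.atom hk n s)) :=
    (h1 _ (d.atom_mem hk n s) (d.atom_supp hk n s)).1
  have a2 := h2 n _ (d.cut_cont s) (d.cut_cs s)
  have a3 : e0 (d.cut s) ≤ C3 * G.nrm (s * d.χ) :=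
    (h3 _ (mollM_mul_mem hs d.re.1) (d.supp.mul_left s)).2
  have a4 : G.nrm (s * d.χ) ≤ ‖B.ev d.χ‖ * G.nrm s := by
    rw [mul_comm s]; exact G.nrm_mul_le _ _
  rw [d.atom_loc] at a1
  calc _ ≤ C1 * (C2 * (C3 * (‖B.ev d.χ‖ * G.nrm s))) :=
        a1.trans (mul_le_mul_of_nonneg_left (a2.trans (mul_le_mul_of_nonneg_left
          (a3.trans (mul_le_mul_of_nonneg_left a4 p3)) p2)) p1)
    _ = _ := by ring

theorem atom_lim (h : IsInt G a) {ρ : A} (h0 : ρ ∈ B.W 0) (hρ : a.Supp i d.K ρ) {η : E4 → ℂ}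
    (hη : ContDiff ℝ ∞ η) (hs : ∀ z, η z ≠ 0 → ‖z‖ ≤ d.r) (h1 : ∫ z, η z = 1) {s : A}
    (s0 : s ∈ B.W 0) :
    Tendsto (fun n => G.nrm (d.atom (Ker.prod d.cK (a.loc_test d.cK d.sK hρ) hη hs) n s - s * ρ))
      atTop (𝓝 0) := by
  obtain ⟨C, p, hC⟩ := h.nn_en d.cK d.sK 0
  have l := (kop_lim d.cK (a.loc_test d.cK d.sK hρ) hη hs h1 (d.cut_cont s)).const_mul C
  rw [mul_zero] at l
  refine squeeze_zero (fun n => G.nrm_nonneg _) (fun n => ?_) l
  set hk := Ker.prod d.cK (a.loc_test d.cK d.sK hρ) hη hs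
  have sp := mollM_supp_sub (d.atom_supp hk n s) (hρ.mul_left s)
  have a1 : G.nrm (d.atom hk n s - s * ρ) ≤ C * e0 (a.loc i (d.atom hk n s - s * ρ)) :=
    (hC _ (sub_mem (d.atom_mem hk n s) (mollM_mul_mem s0 h0)) sp).1
  refine a1.trans (le_of_eq ?_)
  refine congrArg (fun f => C * e0 f) (funext fun y => ?_)
  by_cases hy : y ∈ d.K
  · rw [mollM_loc_of_mem _ (d.sK hy), mollM_loc_of_mem _ (d.sK hy), map_sub,
      ContinuousMap.sub_apply, d.atom_ev _ _ _ hy, map_mul, ContinuousMap.mul_apply,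
      d.cut_eq _ (d.sKL hy), mul_comm]
  · rw [(a.loc_test d.cK d.sK sp).2 y hy, (a.loc_test d.cK d.sK hρ).2 y hy,
      (hk.kop_test n (d.cut_sm s)).2 y hy]
    simp

theorem atom_adj (h : IsInt G a) (n : ℕ) : ∃ J' : A →ₗ[ℂ] A, (∀ t, J' t ∈ B.W 0) ∧
    ∀ s ∈ B.W 0, ∀ t ∈ B.W 0, G.I (star (d.atom hk n s) * t) = G.I (star s * J' t) := by
  obtain ⟨T, t1, t2, t3, t4⟩ := hk.exists_adj d.cK n
  have sd : ContDiffOn ℝ ∞ (fun y => (a.dens i y : ℂ)) (a.O i) :=
    Complex.ofRealCLM.contDiff.comp_contDiffOn (a.dens_sm i)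
  have nd : ∀ y ∈ a.O i, (a.dens i y : ℂ) ≠ 0 := fun y hy => by
    exact_mod_cast (a.dens_pos i hy).ne'
  have sd' : ContDiffOn ℝ ∞ (fun y => (a.dens i y : ℂ)⁻¹) (a.O i) := sd.inv nd
  have u := fun t => d.cut_mul sd t
  obtain ⟨C, -, hC⟩ := en_mul d.cL (a.O_open i) d.sL sd' 0
  obtain ⟨M, hM⟩ := mollM_lin d.cL d.sL
    (fun t y => (a.dens i y : ℂ)⁻¹ * T (fun y => (a.dens i y : ℂ) * d.cut t y) y)
    (fun t => (hC _ (t1 _ (u t).1)).1)
    (fun s t => by
      have e : (fun y => (a.dens i y : ℂ) * d.cut (s + t) y) =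
          (fun y => (a.dens i y : ℂ) * d.cut s y) + fun y => (a.dens i y : ℂ) * d.cut t y := by
        funext y; rw [d.cut_add]; simp [mul_add]
      funext y
      rw [e, t2 _ _ (u s).1.continuous (u t).1.continuous]
      simp [mul_add])
    (fun c s => by
      have e : (fun y => (a.dens i y : ℂ) * d.cut (c • s) y) =
          c • fun y => (a.dens i y : ℂ) * d.cut s y := by
        funext y; rw [d.cut_smul]; simp [mul_left_comm]
      funext y
      rw [e, t3]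
      simp [mul_left_comm])
  refine ⟨M, fun t => (hM t).1, fun s hs t ht => ?_⟩
  have s1 : a.Supp i d.K (star (d.atom hk n s) * t) := by
    rw [mul_comm]; exact (mollM_supp_star (d.atom_supp hk n s)).mul_left t
  have s2 := (hM t).2.1.mul_left (star s)
  rw [h i _ d.cK d.sK _ (mollM_mul_mem (mollM_star_mem (d.atom_mem hk n s)) ht) s1,
    h i _ d.cL d.sL _ (mollM_mul_mem (mollM_star_mem hs) (hM t).1) s2]
  have e := t4 _ _ (d.cut_cont s) (u t).1.continuous
  refine Eq.trans ?_ (e.trans ?_)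
  · refine congrArg _ (funext fun y => ?_)
    by_cases hy : y ∈ d.K
    · rw [mollM_loc_of_mem _ (d.sK hy), map_mul, map_star, ContinuousMap.mul_apply,
        ContinuousMap.star_apply, d.atom_ev _ _ _ hy, d.cut_eq _ (d.sKL hy)]
      change (starRingEnd ℂ) _ * _ * _ = _
      ring
    · rw [(a.loc_test d.cK d.sK s1).2 y hy, (hk.kop_test n (d.cut_sm s)).2 y hy]
      simp
  · refine congrArg _ (funext fun y => ?_)
    by_cases hy : y ∈ Metric.cthickening d.r d.K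
    · rw [mollM_loc_of_mem _ (d.sL hy), map_mul, map_star, ContinuousMap.mul_apply,
        ContinuousMap.star_apply, ← mollM_loc_of_mem (M t) (d.sL hy), (hM t).2.2,
        d.cut_eq _ hy]
      have := nd y (d.sL hy)
      change _ = (starRingEnd ℂ) _ * _ * _
      field_simp
    · rw [(a.loc_test d.cL d.sL s2).2 y hy, (t1 _ (u t).1).2 y hy]
      simp

end MollMD

theorem IsInt.moll {G : Pre B} {a : Atl G.toCalc} (h : IsInt G a) : Nonempty (Moll G) := by
  obtain ⟨u⟩ := a.exists_pou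
  choose d hd using fun i => mollM_exists (u.cpt i) (u.sub i)
  choose η η1 η2 η3 using fun i => exists_unit (d i).r_pos
  have sp : ∀ i, a.Supp i (d i).K (u.ρ i) := fun i => by rw [hd]; exact u.supp i
  let S : (k : Fin a.n → ℕ → E4 × E4 → ℂ) → (∀ i, Ker (d i).K (d i).r (k i)) → ℕ → A →ₗ[ℂ] A :=
    fun k hk n => ∑ i, (d i).atom (hk i) n
  have hS : ∀ k hk n s, S k hk n s = ∑ i, (d i).atom (hk i) n s := fun k hk n s =>
    LinearMap.sum_apply _ _ _
  let Kc : (ℕ → A →ₗ[ℂ] A) → Prop := fun K => ∃ k hk, ∀ n, ∀ s ∈ B.W 0, K n s = S k hk n s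
  have hK : ∀ k hk, Kc (S k hk) := fun k hk => ⟨k, hk, fun _ _ _ => rfl⟩
  let hJ := fun i => Ker.prod (d i).cK (a.loc_test (d i).cK (d i).sK (sp i)) (η1 i) (η2 i)
  refine ⟨⟨Kc, ?_, ?_, ?_, ?_, ?_, ?_, ?_, ?_, S _ hJ, hK _ _, ?_, ?_⟩⟩
  · rintro K ⟨k, hk, e⟩ n s hs
    rw [e n s hs, hS]
    exact Submodule.sum_mem _ fun i _ => (d i).atom_mem _ _ _
  · rintro K ⟨k, hk, e⟩
    choose C hC using fun i => (d i).atom_bdd (hk i) h
    refine ⟨∑ i, C i, fun n s hs => ?_⟩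
    rw [e n s hs, hS, Finset.sum_mul]
    exact (G.nrm_sum _ _).trans (Finset.sum_le_sum fun i _ => hC i n s hs)
  · rintro K K' ⟨k, hk, e⟩ ⟨k', hk', e'⟩
    refine ⟨_, hK _ fun i => (hk i).add (hk' i), fun n s hs => ?_⟩
    rw [e n s hs, e' n s hs, hS, hS, hS, ← Finset.sum_add_distrib]
    exact Finset.sum_congr rfl fun i _ => (d i).atom_add _ _ n s
  · rintro K ⟨k, hk, e⟩ c hc
    refine ⟨_, hK _ fun i => (hk i).left ((d i).cut_sm c) ((d i).cut_cs c), fun n s hs => ?_⟩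
    rw [e n s hs, hS, hS, Finset.mul_sum]
    exact Finset.sum_congr rfl fun i _ => (d i).atom_left _ hc n s
  · rintro K ⟨k, hk, e⟩ c hc
    refine ⟨_, hK _ fun i => (hk i).right ((d i).cut_sm c) ((d i).cut_cs c), fun n s hs => ?_⟩
    rw [e n _ (mollM_mul_mem hc hs), hS, hS]
    exact Finset.sum_congr rfl fun i _ => (d i).atom_right _ c n s
  · rintro K ⟨k, hk, e⟩
    refine ⟨_, hK _ fun i => (hk i).conj, fun n s hs => ?_⟩
    rw [e n _ (mollM_star_mem hs), hS, hS, star_sum]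
    exact Finset.sum_congr rfl fun i _ => (d i).atom_conj _ n s
  · rintro K ⟨k, hk, e⟩ g hg
    choose k' hk' e' using fun i => (d i).atom_ad (hk i) hg
    refine ⟨_, hK k' hk', fun n s hs => ?_⟩
    rw [e n s hs, e n _ (mollM_field_mem hg hs), hS, hS, hS]
    simp only [e' _ n s hs, map_sum (G.D _), Finset.mul_sum, Finset.sum_sub_distrib]
    rw [Finset.sum_comm]
  · rintro K ⟨k, hk, e⟩ g hg
    choose k' hk' e' using fun i => (d i).atom_der (hk i) hg
    refine ⟨_, hK k' hk', fun n s hs => ?_⟩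
    rw [e n s hs, hS, hS, Finset.smul_sum]
    simp only [e' _ n s, map_sum (G.D _), Finset.mul_sum]
    rw [Finset.sum_comm]
  · intro s hs
    have l := tendsto_finsetSum Finset.univ fun i _ =>
      (d i).atom_lim h (u.re i).1 (sp i) (η1 i) (η2 i) (η3 i) hs
    rw [Finset.sum_const_zero] at l
    refine squeeze_zero (fun n => G.nrm_nonneg _) (fun n => ?_) l
    refine le_trans (le_of_eq ?_) (G.nrm_sum _ _)
    rw [hS, Finset.sum_sub_distrib, ← Finset.mul_sum, u.sum, mul_one]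
  · intro n
    choose J' h1 h2 using fun i => (d i).atom_adj (hJ i) h n
    refine ⟨∑ i, J' i, fun t _ => ?_, fun s hs t ht => ?_⟩
    · rw [LinearMap.sum_apply]
      exact Submodule.sum_mem _ fun i _ => h1 i t
    · rw [hS, LinearMap.sum_apply, star_sum, Finset.sum_mul, Finset.mul_sum, map_sum, map_sum]
      exact Finset.sum_congr rfl fun i _ => h2 i s hs t ht

end SW4
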