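import Pool.Agent.P.MP_0a0487_an.SW.Pencil
import Pool.Agent.P.MP_0a0487_an.SW.Eta

/-! No chain transitive hyperbolic dynamics when the first Betti number vanishes. -/

set_option autoImplicit false
set_option linter.unusedSectionVars false

noncomputable section

namespace SW4

open scoped ComplexOrder ContDiff
open Filter Topology

theorem noDyn_mul {a b s t : ℝ} (ha : |a| ≤ s) (hb : |b| ≤ t) :
    -(s * t) ≤ a * b ∧ a * b ≤ s * t := by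
  rw [← abs_le, abs_mul]
  exact mul_le_mul ha hb (abs_nonneg _) ((abs_nonneg _).trans ha)

theorem noDyn_lo {X Y : Fin 4 → Fin 4 → ℝ} {s t : ℝ} (x1 : |X 0 2| ≤ s) (x2 : |X 0 3| ≤ s)
    (x3 : |X 1 2| ≤ s) (x4 : |X 1 3| ≤ s) (x5 : |X 2 3| ≤ s) (y1 : |Y 0 2| ≤ t)
    (y2 : |Y 0 3| ≤ t) (y3 : |Y 1 2| ≤ t) (y4 : |Y 1 3| ≤ t) (y5 : |Y 0 1| ≤ t) :
    X 0 1 * Y 2 3 - 5 * (s * t) ≤ wg X Y := by
  have h1 := noDyn_mul x1 y4
  have h2 := noDyn_mul x2 y3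
  have h3 := noDyn_mul x3 y2
  have h4 := noDyn_mul x4 y1
  have h5 := noDyn_mul x5 y5
  unfold wg
  linarith [h1.1, h1.2, h2.1, h3.1, h4.2, h5.1]

theorem noDyn_up {X Y : Fin 4 → Fin 4 → ℝ} {s t : ℝ} (x0 : |X 0 1| ≤ s) (x1 : |X 0 2| ≤ s)
    (x2 : |X 0 3| ≤ s) (x3 : |X 1 2| ≤ s) (x4 : |X 1 3| ≤ s) (x5 : |X 2 3| ≤ s)
    (y0 : |Y 2 3| ≤ t) (y1 : |Y 0 2| ≤ t) (y2 : |Y 0 3| ≤ t) (y3 : |Y 1 2| ≤ t)
    (y4 : |Y 1 3| ≤ t) (y5 : |Y 0 1| ≤ t) : |wg X Y| ≤ 6 * (s * t) := by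
  have h0 := noDyn_mul x0 y0
  have h1 := noDyn_mul x1 y4
  have h2 := noDyn_mul x2 y3
  have h3 := noDyn_mul x3 y2
  have h4 := noDyn_mul x4 y1
  have h5 := noDyn_mul x5 y5
  unfold wg
  rw [abs_le]
  constructor <;>
    linarith [h0.1, h0.2, h1.1, h1.2, h2.1, h2.2, h3.1, h3.2, h4.1, h4.2, h5.1, h5.2]

theorem noDyn_det (u : Matrix (Fin 4) (Fin 4) ℝ) : u.det =
    (u 0 0 * u 1 1 - u 0 1 * u 1 0) * (u 2 2 * u 3 3 - u 2 3 * u 3 2) -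
    (u 0 0 * u 1 2 - u 0 2 * u 1 0) * (u 2 1 * u 3 3 - u 2 3 * u 3 1) +
    (u 0 0 * u 1 3 - u 0 3 * u 1 0) * (u 2 1 * u 3 2 - u 2 2 * u 3 1) +
    (u 0 1 * u 1 2 - u 0 2 * u 1 1) * (u 2 0 * u 3 3 - u 2 3 * u 3 0) -
    (u 0 1 * u 1 3 - u 0 3 * u 1 1) * (u 2 0 * u 3 2 - u 2 2 * u 3 0) +
    (u 0 2 * u 1 3 - u 0 3 * u 1 2) * (u 2 0 * u 3 1 - u 2 1 * u 3 0) := by
  simp [Matrix.det_succ_row_zero, Fin.sum_univ_succ, Fin.succAbove]
  ring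

theorem noDyn_det_swap (a b c d : Fin 4 → ℝ) :
    (Matrix.of ![c, d, a, b]).det = (Matrix.of ![a, b, c, d]).det := by
  rw [noDyn_det, noDyn_det]
  simp
  ring

theorem noDyn_main {κ K t x y Δ r w : ℝ} (hκ : 0 < κ) (hκ1 : κ ≤ 1)
    (ht : t * K = κ ^ 2 / 20) (hx : 0 < x) (hy : 0 < y) (d1 : 9 / 10 ≤ Δ) (d2 : Δ ≤ 11 / 10)
    (w2 : κ * x * (κ * y) ≤ w) (w1 : w - 5 * (t * K * x * (t * K * y)) ≤ -(Δ / 4) * r) :
    0 < -r ∧ κ ^ 2 * (x * y) ≤ -r := by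
  rw [ht] at w1
  have h0 : 0 < κ ^ 2 * (x * y) := by positivity
  have h1 : κ ^ 2 * (κ ^ 2 * (x * y)) ≤ 1 * (κ ^ 2 * (x * y)) := by
    gcongr; nlinarith
  have w4 : κ ^ 2 * (x * y) / 2 ≤ Δ / 4 * -r := by nlinarith
  have rpos : 0 < -r := by
    by_contra hc
    have : Δ / 4 * -r ≤ 0 := mul_nonpos_of_nonneg_of_nonpos (by linarith) (not_lt.1 hc)
    linarith
  exact ⟨rpos, by nlinarith⟩

theorem noDyn_diag_lo {κ K t Δ z w i : ℝ} (hκ : 0 < κ) (hκ1 : κ ≤ 1)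
    (ht : t * K = κ ^ 2 / 20) (d1 : 9 / 10 ≤ Δ) (d2 : Δ ≤ 11 / 10) (hz : 0 < z) (h1 : κ * z ≤ w)
    (h2 : w - 5 * (t * K * z) ≤ -(Δ / 4) * (-2 * i)) : κ * z / 2 ≤ i := by
  rw [ht] at h2
  have k2 : κ ^ 2 ≤ κ := by nlinarith
  have h3 : κ ^ 2 * z ≤ κ * z := mul_le_mul_of_nonneg_right k2 hz.le
  have h4 : 0 < κ * z := by positivity
  have h5 : κ * z / 2 ≤ Δ / 2 * i := by linarith
  have h6 : 0 < i := by
    by_contra hc
    have : Δ / 2 * i ≤ 0 := mul_nonpos_of_nonneg_of_nonpos (by linarith) (not_lt.1 hc)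
    linarith
  have h7 : 3 / 4 * (κ * z) ≤ Δ / 2 * i := by linarith
  nlinarith

theorem noDyn_diag_up {Δ z i : ℝ} (d1 : 9 / 10 ≤ Δ) (h1 : |-(Δ / 4) * (-2 * i)| ≤ 6 * z) :
    |i| ≤ 14 * z := by
  have e : -(Δ / 4) * (-2 * i) = Δ / 2 * i := by ring
  rw [e, abs_mul, abs_of_pos (by linarith : 0 < Δ / 2)] at h1
  nlinarith [abs_nonneg i]

theorem noDyn_tK {κ K t : ℝ} (hκ : 0 < κ) (hκ1 : κ ≤ 1) (hK : 1 ≤ K)
    (ht : t * K = κ ^ 2 / 20) : t * K ≤ K := by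
  rw [ht]; nlinarith

/-- The numerical inequalities. -/
theorem noDyn_num {κ K t x y r aa ia nb : ℝ} (hκ : 0 < κ) (hκ1 : κ ≤ 1) (hK : 1 ≤ K)
    (ht : t * K = κ ^ 2 / 20) (hx : 0 < x) (hy : 0 < y) (hx1 : 1 ≤ 2 * t * x)
    (hy1 : 1 ≤ 2 * t * y) (hr : κ ^ 2 * (x * y) ≤ r) (haa : aa ≤ t * K * x)
    (hia : κ * x / 2 ≤ ia) (hnb0 : 0 ≤ nb) (hnb : nb ≤ 14 * (K * y)) :
    aa ≤ r / 100 ∧ aa * nb < r * ia := by
  rw [ht] at haa
  have k2 : 0 < κ ^ 2 := by positivity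
  have k21 : κ ^ 2 ≤ κ := by nlinarith
  have hKx : K ≤ κ ^ 2 / 10 * x := by
    calc K = K * 1 := by ring
      _ ≤ K * (2 * t * x) := mul_le_mul_of_nonneg_left hx1 (by linarith)
      _ = 2 * (t * K) * x := by ring
      _ = κ ^ 2 / 10 * x := by rw [ht]; ring
  have hKy : K ≤ κ ^ 2 / 10 * y := by
    calc K = K * 1 := by ring
      _ ≤ K * (2 * t * y) := mul_le_mul_of_nonneg_left hy1 (by linarith)
      _ = 2 * (t * K) * y := by ring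
      _ = κ ^ 2 / 10 * y := by rw [ht]; ring
  have hy10 : 10 ≤ y := by nlinarith
  have hxy : 0 < x * y := mul_pos hx hy
  constructor
  · have : κ ^ 2 * x * 10 ≤ κ ^ 2 * x * y := mul_le_mul_of_nonneg_left hy10 (by positivity)
    nlinarith
  · have h1 : nb ≤ 14 * (κ / 10 * x * y) := by
      refine hnb.trans ?_
      have : K ≤ κ / 10 * x := hKx.trans (by nlinarith)
      nlinarith
    calc aa * nb ≤ κ ^ 2 / 20 * x * (14 * (κ / 10 * x * y)) :=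
          mul_le_mul haa h1 hnb0 (by positivity)
      _ = 7 / 100 * (κ ^ 3 * x ^ 2 * y) := by ring
      _ < 1 / 2 * (κ ^ 3 * x ^ 2 * y) := by
          have : 0 < κ ^ 3 * x ^ 2 * y := by positivity
          linarith
      _ = κ ^ 2 * (x * y) * (κ * x / 2) := by ring
      _ ≤ r * ia := mul_le_mul hr hia (by positivity) (le_trans (by positivity) hr)

variable {P A : Type} [TopologicalSpace P] [CompactSpace P] [CommRing A] [StarRing A] [Algebra ℂ A]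
  [StarModule ℂ A] {B : Base P A}

section graph

variable {U V : P → Fin 2 → Fin 4 → ℝ}

theorem Graph.noDyn_U (h : Graph U V) (p : P) (i : Fin 2) : ‖U p i‖ ≤ 1 := by
  obtain ⟨a1, a2, a3, a4⟩ := h.U0 p
  obtain ⟨b1, b2⟩ := h.U1 p i
  refine (pi_norm_le_iff_of_nonneg zero_le_one).2 fun k => ?_
  rw [Real.norm_eq_abs]
  fin_cases k
  · fin_cases i <;> simp [a1, a3]
  · fin_cases i <;> simp [a2, a4]
  · exact b1.trans (by norm_num)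
  · exact b2.trans (by norm_num)

theorem Graph.noDyn_V (h : Graph U V) (p : P) (i : Fin 2) : ‖V p i‖ ≤ 1 := by
  obtain ⟨a1, a2, a3, a4⟩ := h.V0 p
  obtain ⟨b1, b2⟩ := h.V1 p i
  refine (pi_norm_le_iff_of_nonneg zero_le_one).2 fun k => ?_
  rw [Real.norm_eq_abs]
  fin_cases k
  · exact b1.trans (by norm_num)
  · exact b2.trans (by norm_num)
  · fin_cases i <;> simp [a1, a3]
  · fin_cases i <;> simp [a2, a4]

theorem Graph.noDyn_det (h : Graph U V) (p : P) :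
    9 / 10 ≤ (Matrix.of ![U p 0, U p 1, V p 0, V p 1]).det ∧
      (Matrix.of ![U p 0, U p 1, V p 0, V p 1]).det ≤ 11 / 10 := by
  obtain ⟨a1, a2, a3, a4⟩ := h.U0 p
  obtain ⟨c1, c2, c3, c4⟩ := h.V0 p
  obtain ⟨u1, u2⟩ := h.U1 p 0
  obtain ⟨u3, u4⟩ := h.U1 p 1
  obtain ⟨v1, v2⟩ := h.V1 p 0
  obtain ⟨v3, v4⟩ := h.V1 p 1
  have e : (Matrix.of ![U p 0, U p 1, V p 0, V p 1]).det =
      1 - U p 1 2 * V p 0 1 - U p 1 3 * V p 1 1 - U p 0 2 * V p 0 0 - U p 0 3 * V p 1 0 +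
        (U p 0 2 * U p 1 3 - U p 0 3 * U p 1 2) * (V p 0 0 * V p 1 1 - V p 0 1 * V p 1 0) := by
    rw [SW4.noDyn_det]
    simp [a1, a2, a3, a4, c1, c2, c3, c4]
    ring
  have m1 := noDyn_mul u3 v2
  have m2 := noDyn_mul u4 v4
  have m3 := noDyn_mul u1 v1
  have m4 := noDyn_mul u2 v3
  have n1 := noDyn_mul u1 u4
  have n2 := noDyn_mul u2 u3
  have n3 := noDyn_mul v1 v4
  have n4 := noDyn_mul v2 v3
  have k1 : |U p 0 2 * U p 1 3 - U p 0 3 * U p 1 2| ≤ 1 / 10 :=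
    abs_le.2 ⟨by linarith [n1.1, n2.2], by linarith [n1.2, n2.1]⟩
  have k2 : |V p 0 0 * V p 1 1 - V p 0 1 * V p 1 0| ≤ 1 / 10 :=
    abs_le.2 ⟨by linarith [n3.1, n4.2], by linarith [n3.2, n4.1]⟩
  have m5 := noDyn_mul k1 k2
  rw [e]
  constructor <;> linarith [m1.1, m1.2, m2.1, m2.2, m3.1, m3.2, m4.1, m4.2, m5.1, m5.2]

end graph

/-- The area form of the first plane of the frame. -/
def noDynU (A : Type) [CommRing A] [Algebra ℂ A] : Fin 4 → Fin 4 → A :=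
  (2 * Complex.I) • om (1 : A) 0

/-- The area form of the second plane of the frame. -/
def noDynV (A : Type) [CommRing A] [Algebra ℂ A] : Fin 4 → Fin 4 → A :=
  (2 * Complex.I) • om (0 : A) 1

theorem noDynU_re (B : Base P A) : B.Re2 (noDynU A) := by
  have h1 : (2 * Complex.I) • (1 : A) ∈ B.W 0 := Submodule.smul_mem _ _ B.one_mem
  refine ⟨fun α β => ⟨?_, ?_⟩, fun α β => ?_⟩
  · fin_cases α <;> fin_cases β <;> simp [noDynU, om, wt] <;> exact h1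
  · fin_cases α <;> fin_cases β <;> simp [noDynU, om]
  · fin_cases α <;> fin_cases β <;> simp [noDynU, om, bar]

theorem noDynV_re (B : Base P A) : B.Re2 (noDynV A) := by
  have h1 : (2 * Complex.I) • (1 : A) ∈ B.W 0 := Submodule.smul_mem _ _ B.one_mem
  refine ⟨fun α β => ⟨?_, ?_⟩, fun α β => ?_⟩
  · fin_cases α <;> fin_cases β <;> simp [noDynV, om, wt] <;> exact h1
  · fin_cases α <;> fin_cases β <;> simp [noDynV, om]
  · fin_cases α <;> fin_cases β <;> simp [noDynV, om, bar]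

theorem noDynU_b2 (B : Base P A) (p : P) (u v : Fin 4 → ℝ) :
    (B.b2 (noDynU A) p u v).re = u 0 * v 1 - u 1 * v 0 := by
  have : B.b2 (noDynU A) p u v = ((u 0 * v 1 - u 1 * v 0 : ℝ) : ℂ) := by
    simp [Base.b2, noDynU, om, cx, Fin.sum_univ_four]
    linear_combination ((u 1 : ℂ) * v 0 - u 0 * v 1) * Complex.I_mul_I
  rw [this, Complex.ofReal_re]

theorem noDynV_b2 (B : Base P A) (p : P) (u v : Fin 4 → ℝ) :
    (B.b2 (noDynV A) p u v).re = u 2 * v 3 - u 3 * v 2 := by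
  have : B.b2 (noDynV A) p u v = ((u 2 * v 3 - u 3 * v 2 : ℝ) : ℂ) := by
    simp [Base.b2, noDynV, om, cx, Fin.sum_univ_four]
    linear_combination ((u 3 : ℂ) * v 2 - u 2 * v 3) * Complex.I_mul_I
  rw [this, Complex.ofReal_re]

theorem Dyn.exists_spl {G : Pre B} (d : Dyn G) : Nonempty (Spl G d.U d.V) :=
  ⟨{ κ := 9 / 10
     κ_pos := by norm_num
     bdU := d.graph.noDyn_U
     bdV := d.graph.noDyn_V
     det_pos := fun p => (d.graph.noDyn_det p).1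
     ucU := d.ucU
     ucV := d.ucV
     ηU := noDynU A
     ηV := noDynV A
     ηU_re := noDynU_re B
     ηV_re := noDynV_re B
     ηU_pos := fun p => by
       obtain ⟨a1, a2, a3, a4⟩ := d.graph.U0 p
       rw [noDynU_b2, a1, a2, a3, a4]; norm_num
     ηV_pos := fun p => by
       obtain ⟨a1, a2, a3, a4⟩ := d.graph.V0 p
       rw [noDynV_b2, a1, a2, a3, a4]; norm_num
     tay := d.tay }⟩

/-- The real values of a form in a basis. -/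
def Base.noDynR (B : Base P A) (a : Fin 4 → Fin 4 → A) (p : P) (u : Matrix (Fin 4) (Fin 4) ℝ) :
    Fin 4 → Fin 4 → ℝ := fun i j => (B.b2 a p (u i) (u j)).re

theorem noDyn_wg {a b : Fin 4 → Fin 4 → A} (ha : B.Re2 a) (hb : B.Re2 b) (p : P)
    (u : Matrix (Fin 4) (Fin 4) ℝ) :
    wg (B.noDynR a p u) (B.noDynR b p u) = -(u.det / 4) * (B.ev (wg a b) p).re := by
  have h := congrArg Complex.re (Base.wg_basis ha.1 hb.1 p u)
  have e : -((u.det : ℂ) / 4) = ((-(u.det / 4) : ℝ) : ℂ) := by push_cast; rfl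
  rw [e, Complex.re_ofReal_mul] at h
  rw [← h]
  simp only [wg, Base.noDynR, Complex.add_re, Complex.sub_re, Complex.mul_re, ha.b2_im, hb.b2_im,
    mul_zero, sub_zero]

theorem noDyn_wgV (a : Fin 4 → Fin 4 → A) (p : P) :
    (B.ev (wg a (noDynV A)) p).re = -2 * (B.ev (a 0 1) p).im := by
  simp [wg, noDynV, om]

theorem noDyn_wgU (a : Fin 4 → Fin 4 → A) (p : P) :
    (B.ev (wg (noDynU A) a) p).re = -2 * (B.ev (a 2 3) p).im := by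
  simp [wg, noDynU, om]

theorem noDyn_norm01 {a : Fin 4 → Fin 4 → A} (ha : B.Re2 a) (p : P) :
    ‖B.ev (a 0 1) p‖ = |(B.ev (a 0 1) p).im| := by
  refine (Complex.abs_im_eq_norm.2 ?_).symm
  rw [ha.1.ev_zero_one]
  simp [ha.b2_im]

theorem noDyn_norm23 {a : Fin 4 → Fin 4 → A} (ha : B.Re2 a) (p : P) :
    ‖B.ev (a 2 3) p‖ = |(B.ev (a 2 3) p).im| := by
  refine (Complex.abs_im_eq_norm.2 ?_).symm
  rw [ha.1.ev_two_three]
  simp [ha.b2_im]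

theorem noDyn_side {G : Pre B} {U V : P → Fin 2 → Fin 4 → ℝ} {f : Map G} {ε t κ K : ℝ}
    (h : f.HypAt U V ε) (hU : ∀ p i, ‖U p i‖ ≤ 1) (hV : ∀ p i, ‖V p i‖ ≤ 1)
    {η : Fin 4 → Fin 4 → A} (hη : B.Re2 η) (hκ : ∀ p, κ ≤ (B.b2 η p (U p 0) (U p 1)).re)
    (hε : ε ^ 2 ≤ t) (ht : t ≤ 1) (hK1 : 64 * ‖B.ev2 η‖ ≤ K) (hK2 : 60 * ‖B.ev (wg η η)‖ ≤ K)
    (p : P) (hd : 9 / 10 ≤ (Matrix.of ![U p 0, U p 1, V p 0, V p 1]).det) :
    ∃ x : ℝ, 0 < x ∧ 1 ≤ 2 * t * x ∧ κ * x ≤ (B.b2 (f.pull2 η) p (U p 0) (U p 1)).re ∧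
      |(B.b2 (f.pull2 η) p (U p 0) (U p 1)).re| ≤ K * x ∧
      (∀ i j, |(B.b2 (f.pull2 η) p (U p i) (V p j)).re| ≤ t * K * x) ∧
      |(B.b2 (f.pull2 η) p (V p 0) (V p 1)).re| ≤ t * K * x ∧
      ‖B.ev (wg (f.pull2 η) (f.pull2 η)) p‖ ≤ t * K * x := by
  obtain ⟨x, hx, hx1, hb⟩ := h.dom hU hV p
  obtain ⟨b1, b2, b3, b4⟩ := hb η hη.1
  have n0 : 0 ≤ ‖B.ev2 η‖ := norm_nonneg _
  have w0 : 0 ≤ ‖B.ev (wg η η)‖ := norm_nonneg _
  have e0 : 0 ≤ ε ^ 2 := sq_nonneg ε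
  have t0 : 0 ≤ t := e0.trans hε
  have hx2 : 1 ≤ 2 * t * x := hx1.trans (by gcongr)
  have key : ∀ c : ℝ, 0 ≤ c → c ≤ K → ε ^ 2 * x * c ≤ t * K * x := by
    intro c hc0 hc
    calc ε ^ 2 * x * c ≤ t * x * K := by gcongr
      _ = t * K * x := by ring
  refine ⟨x, hx, hx2, ?_, ?_, fun i j => ?_, ?_, ?_⟩
  · rw [b1, Complex.re_ofReal_mul, mul_comm]
    exact mul_le_mul_of_nonneg_left (hκ _) hx.le
  · rw [b1, Complex.re_ofReal_mul, abs_mul, abs_of_pos hx, mul_comm]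
    refine mul_le_mul_of_nonneg_right ((Complex.abs_re_le_norm _).trans ?_) hx.le
    refine (Base.b2_le _ _ _ _).trans ?_
    calc 16 * ‖B.ev2 η‖ * ‖U (f.pt p) 0‖ * ‖U (f.pt p) 1‖ ≤ 16 * ‖B.ev2 η‖ * 1 * 1 := by
          gcongr
          · exact hU _ _
          · exact hU _ _
      _ ≤ K := by linarith
  · refine (Complex.abs_re_le_norm _).trans ((b2 i j).trans ?_)
    have := key _ (by positivity) hK1
    linarith
  · refine (Complex.abs_re_le_norm _).trans (b3.trans ?_)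
    have h1 := key _ (by positivity) hK1
    have h2 : 1 ≤ 2 * x := hx2.trans (by nlinarith)
    have h3 : 32 * ε ^ 2 * ‖B.ev2 η‖ * 1 ≤ 32 * ε ^ 2 * ‖B.ev2 η‖ * (2 * x) := by gcongr
    linarith
  · have h1 := b4 η hη.1
    have h2 := key _ (by positivity) hK2
    rw [abs_of_pos (by linarith)] at h1
    have h3 : ‖B.ev (wg (f.pull2 η) (f.pull2 η)) p‖ * (9 / 10) ≤
        ‖B.ev (wg (f.pull2 η) (f.pull2 η)) p‖ *
          (Matrix.of ![U p 0, U p 1, V p 0, V p 1]).det := by gcongr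
    have h4 : 0 ≤ ε ^ 2 * x * ‖B.ev (wg η η)‖ := by positivity
    linarith

theorem noDyn_point {U V : P → Fin 2 → Fin 4 → ℝ} (hg : Graph U V) {a b : Fin 4 → Fin 4 → A}
    (ha : B.Re2 a) (hb : B.Re2 b) (p : P) {κ K t x y : ℝ} (hκ : 0 < κ) (hκ1 : κ ≤ 1) (hK : 1 ≤ K)
    (ht : t * K = κ ^ 2 / 20) (hx : 0 < x) (hy : 0 < y) (hx1 : 1 ≤ 2 * t * x)
    (hy1 : 1 ≤ 2 * t * y)
    (a1 : κ * x ≤ (B.b2 a p (U p 0) (U p 1)).re) (a2 : |(B.b2 a p (U p 0) (U p 1)).re| ≤ K * x)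
    (a3 : ∀ i j, |(B.b2 a p (U p i) (V p j)).re| ≤ t * K * x)
    (a4 : |(B.b2 a p (V p 0) (V p 1)).re| ≤ t * K * x) (a5 : ‖B.ev (wg a a) p‖ ≤ t * K * x)
    (b1 : κ * y ≤ (B.b2 b p (V p 0) (V p 1)).re) (b2 : |(B.b2 b p (V p 0) (V p 1)).re| ≤ K * y)
    (b3' : ∀ i j, |(B.b2 b p (V p i) (U p j)).re| ≤ t * K * y)
    (b4 : |(B.b2 b p (U p 0) (U p 1)).re| ≤ t * K * y) (b5 : ‖B.ev (wg b b) p‖ ≤ t * K * y) :
    0 < -(B.ev (wg a b) p).re ∧ ‖B.ev (wg a a) p‖ ≤ -(B.ev (wg a b) p).re / 100 ∧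
      ‖B.ev (wg b b) p‖ ≤ -(B.ev (wg a b) p).re / 100 ∧
      ‖B.ev (wg a a) p‖ * ‖B.ev (b 0 1) p‖ < -(B.ev (wg a b) p).re * (B.ev (a 0 1) p).im ∧
      ‖B.ev (wg b b) p‖ * ‖B.ev (a 2 3) p‖ < -(B.ev (wg a b) p).re * (B.ev (b 2 3) p).im := by
  have b3 : ∀ i j, |(B.b2 b p (U p i) (V p j)).re| ≤ t * K * y := by
    intro i j
    rw [hb.1.b2_anti, Complex.neg_re, abs_neg]
    exact b3' j i
  obtain ⟨d1, d2⟩ := hg.noDyn_det p
  set u : Matrix (Fin 4) (Fin 4) ℝ := Matrix.of ![U p 0, U p 1, V p 0, V p 1] with hu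
  obtain ⟨u1, u2, u3, u4⟩ := hg.U0 p
  obtain ⟨v1, v2, v3, v4⟩ := hg.V0 p
  obtain ⟨s1, s2⟩ := hg.U1 p 0
  obtain ⟨s3, s4⟩ := hg.U1 p 1
  obtain ⟨r1, r2⟩ := hg.V1 p 0
  obtain ⟨r3, r4⟩ := hg.V1 p 1
  have r0 : u 0 = U p 0 := rfl
  have r1' : u 1 = U p 1 := rfl
  have r2' : u 2 = V p 0 := rfl
  have r3' : u 3 = V p 1 := rfl
  have n1 := noDyn_mul s1 s4
  have n2 := noDyn_mul s2 s3
  have n3 := noDyn_mul r1 r4
  have n4 := noDyn_mul r2 r3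
  have HV : ∀ i j, B.noDynR (noDynV A) p u i j = u i 2 * u j 3 - u i 3 * u j 2 :=
    fun i j => noDynV_b2 B p _ _
  have HU : ∀ i j, B.noDynR (noDynU A) p u i j = u i 0 * u j 1 - u i 1 * u j 0 :=
    fun i j => noDynU_b2 B p _ _
  have V23 : B.noDynR (noDynV A) p u 2 3 = 1 := by rw [HV, r2', r3', v1, v2, v3, v4]; norm_num
  have V02 : |B.noDynR (noDynV A) p u 0 2| ≤ 1 := by
    rw [HV, r0, r2', v1, v2]; simpa using s2.trans (by norm_num)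
  have V03 : |B.noDynR (noDynV A) p u 0 3| ≤ 1 := by
    rw [HV, r0, r3', v3, v4]; simpa using s1.trans (by norm_num)
  have V12 : |B.noDynR (noDynV A) p u 1 2| ≤ 1 := by
    rw [HV, r1', r2', v1, v2]; simpa using s4.trans (by norm_num)
  have V13 : |B.noDynR (noDynV A) p u 1 3| ≤ 1 := by
    rw [HV, r1', r3', v3, v4]; simpa using s3.trans (by norm_num)
  have V01 : |B.noDynR (noDynV A) p u 0 1| ≤ 1 := by
    rw [HV, r0, r1']
    exact abs_le.2 ⟨by linarith [n1.1, n2.2], by linarith [n1.2, n2.1]⟩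
  have U01 : B.noDynR (noDynU A) p u 0 1 = 1 := by rw [HU, r0, r1', u1, u2, u3, u4]; norm_num
  have U02 : |B.noDynR (noDynU A) p u 0 2| ≤ 1 := by
    rw [HU, r0, r2', u1, u2]; simpa using r2.trans (by norm_num)
  have U03 : |B.noDynR (noDynU A) p u 0 3| ≤ 1 := by
    rw [HU, r0, r3', u1, u2]; simpa using r4.trans (by norm_num)
  have U12 : |B.noDynR (noDynU A) p u 1 2| ≤ 1 := by
    rw [HU, r1', r2', u3, u4]; simpa using r1.trans (by norm_num)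
  have U13 : |B.noDynR (noDynU A) p u 1 3| ≤ 1 := by
    rw [HU, r1', r3', u3, u4]; simpa using r3.trans (by norm_num)
  have U23 : |B.noDynR (noDynU A) p u 2 3| ≤ 1 := by
    rw [HU, r2', r3']
    exact abs_le.2 ⟨by linarith [n3.1, n4.2], by linarith [n3.2, n4.1]⟩
  have tK := noDyn_tK hκ hκ1 hK ht
  have tKx : t * K * x ≤ K * x := mul_le_mul_of_nonneg_right tK hx.le
  have tKy : t * K * y ≤ K * y := mul_le_mul_of_nonneg_right tK hy.le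
  have w1 := noDyn_lo (X := B.noDynR a p u) (Y := B.noDynR b p u) (a3 0 0) (a3 0 1) (a3 1 0)
    (a3 1 1) a4 (b3 0 0) (b3 0 1) (b3 1 0) (b3 1 1) b4
  rw [noDyn_wg ha hb] at w1
  have w2 : κ * x * (κ * y) ≤ B.noDynR a p u 0 1 * B.noDynR b p u 2 3 :=
    mul_le_mul a1 b1 (by positivity) (le_trans (by positivity) a1)
  obtain ⟨rpos, hrr⟩ := noDyn_main hκ hκ1 ht hx hy d1 d2 w2 w1
  have x1 := noDyn_lo (X := B.noDynR a p u) (Y := B.noDynR (noDynV A) p u) (a3 0 0) (a3 0 1)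
    (a3 1 0) (a3 1 1) a4 V02 V03 V12 V13 V01
  rw [noDyn_wg ha (noDynV_re B), noDyn_wgV, V23, mul_one, mul_one] at x1
  have x2 := noDyn_lo (X := B.noDynR (noDynU A) p u) (Y := B.noDynR b p u) U02 U03 U12 U13 U23
    (b3 0 0) (b3 0 1) (b3 1 0) (b3 1 1) b4
  rw [noDyn_wg (noDynU_re B) hb, noDyn_wgU, U01, one_mul, one_mul] at x2
  have y1 := noDyn_up (X := B.noDynR b p u) (Y := B.noDynR (noDynV A) p u) (b4.trans tKy)
    ((b3 0 0).trans tKy) ((b3 0 1).trans tKy) ((b3 1 0).trans tKy) ((b3 1 1).trans tKy) b2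
    (by rw [V23, abs_one]) V02 V03 V12 V13 V01
  rw [noDyn_wg hb (noDynV_re B), noDyn_wgV, mul_one] at y1
  have y2 := noDyn_up (X := B.noDynR (noDynU A) p u) (Y := B.noDynR a p u)
    (by rw [U01, abs_one]) U02 U03 U12 U13 U23 (a4.trans tKx)
    ((a3 0 0).trans tKx) ((a3 0 1).trans tKx) ((a3 1 0).trans tKx) ((a3 1 1).trans tKx) a2
  rw [noDyn_wg (noDynU_re B) ha, noDyn_wgU, one_mul] at y2
  have z1 := noDyn_num hκ hκ1 hK ht hx hy hx1 hy1 hrr a5 (noDyn_diag_lo hκ hκ1 ht d1 d2 hx a1 x1)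
    (norm_nonneg (B.ev (b 0 1) p)) (by rw [noDyn_norm01 hb]; exact noDyn_diag_up d1 y1)
  have z2 := noDyn_num hκ hκ1 hK ht hy hx hy1 hx1 (mul_comm x y ▸ hrr) b5 
    (noDyn_diag_lo hκ hκ1 ht d1 d2 hy b1 x2)
    (norm_nonneg (B.ev (a 2 3) p)) (by rw [noDyn_norm23 ha]; exact noDyn_diag_up d1 y2)
  exact ⟨rpos, z1.1, z2.1, z1.2, z2.2⟩

theorem Geo.noDyn [Nonempty P] (G : Geo B) (d : Dyn G.toPre) : False := by
  obtain ⟨S⟩ := d.exists_spl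
  obtain ⟨S'⟩ := S.exists_swap
  obtain ⟨ηA, rA, cA, fA, κA, hκA, pA⟩ := S.exists_eta d.h d.g d.blk_h
  obtain ⟨ηB, rB, cB, fB, κB, hκB, pB⟩ := S'.exists_eta d.g d.h d.blk_g
  set κ : ℝ := min 1 (min κA κB) with hκ
  have κ0 : 0 < κ := lt_min one_pos (lt_min hκA hκB)
  have κ1 : κ ≤ 1 := min_le_left _ _
  have κA' : κ ≤ κA := (min_le_right _ _).trans (min_le_left _ _)
  have κB' : κ ≤ κB := (min_le_right _ _).trans (min_le_right _ _)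
  set K : ℝ := 1 + 64 * ‖B.ev2 ηA‖ + 64 * ‖B.ev2 ηB‖ + 60 * ‖B.ev (wg ηA ηA)‖ +
    60 * ‖B.ev (wg ηB ηB)‖ with hK
  have n1 : 0 ≤ ‖B.ev2 ηA‖ := norm_nonneg _
  have n2 : 0 ≤ ‖B.ev2 ηB‖ := norm_nonneg _
  have n3 : 0 ≤ ‖B.ev (wg ηA ηA)‖ := norm_nonneg _
  have n4 : 0 ≤ ‖B.ev (wg ηB ηB)‖ := norm_nonneg _
  have K1 : 1 ≤ K := by linarith
  set t : ℝ := κ ^ 2 / 20 / K with ht
  have t0 : 0 < t := by positivity
  have tK : t * K = κ ^ 2 / 20 := div_mul_cancel₀ _ (by linarith)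
  have t1 : t ≤ 1 := by nlinarith
  have ev : ∀ e : ℕ → ℝ, Tendsto e atTop (𝓝 0) → ∀ᶠ m in atTop, e m ^ 2 ≤ t := by
    intro e he
    have := he.pow 2
    rw [zero_pow two_ne_zero] at this
    exact this.eventually (ge_mem_nhds t0)
  obtain ⟨m, hm1, hm2, hm3⟩ :=
    ((eventually_ge_atTop 1).and ((ev _ d.h.lim).and (ev _ d.g.lim))).exists
  have ra := (d.h.g m).pull2_re rA
  have rb := (d.g.g m).pull2_re rB
  choose x hx hx1 a1 a2 a3 a4 a5 using fun p => noDyn_side (κ := κ) (K := K) (d.h.hyp m)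
    d.graph.noDyn_U d.graph.noDyn_V rA (fun q => κA'.trans (pA q)) hm2 t1 (by linarith)
    (by linarith) p (d.graph.noDyn_det p).1
  choose y hy hy1 b1 b2 b3 b4 b5 using fun p => noDyn_side (κ := κ) (K := K) (d.g.hyp m)
    d.graph.noDyn_V d.graph.noDyn_U rB (fun q => κB'.trans (pB q)) hm3 t1 (by linarith)
    (by linarith) p (by rw [noDyn_det_swap]; exact (d.graph.noDyn_det p).1)
  have key := fun p => noDyn_point d.graph ra rb p κ0 κ1 K1 tK (hx p) (hy p) (hx1 p) (hy1 p)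
    (a1 p) (a2 p) (a3 p) (a4 p) (a5 p) (b1 p) (b2 p) (b3 p) (b4 p) (b5 p)
  exact G.pencil ra rb ((d.h.g m).pull2_closed rA.1 cA) ((d.g.g m).pull2_closed rB.1 cB)
    (fun j => (d.h.I_wg_F d.blk_h hm1 j rA.1 cA).trans (fA j))
    (fun j => (d.g.I_wg_F d.blk_g hm1 j rB.1 cB).trans (fB j)) _ (fun _ => rfl)
    (fun p => (key p).1) (fun p => (key p).2.1) (fun p => (key p).2.2.1)
    (fun p => (key p).2.2.2.1) (fun p => (key p).2.2.2.2)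

end SW4
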