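import Pool.Agent.P.MP_0a0487_an.SW.ODyn2
import Pool.Agent.P.MP_0a0487_an.SW.Model4
import Pool.Agent.P.MP_0a0487_an.SW.MollM
import Pool.Agent.P.MP_0a0487_an.SW.NoDyn

/-! No oriented hyperbolic dynamics when the first Cech cohomology vanishes. -/

set_option autoImplicit false
set_option linter.unusedSectionVars false

noncomputable section

namespace SW4

open scoped ContDiff
open Filter Topology Matrix

theorem Fr.noODyn {X : Type} [TopologicalSpace X] [CompactSpace X] [T2Space X] [ConnectedSpace X]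
    (a : Fr X) (ho : a.Ori) (hc : a.Cech) (d : FDyn a 4) (h1 : d.Or) (h2 : d.Ch) : False := by
  obtain ⟨P, A, _, _, _, _, _, _, B, G, t, ⟨l⟩, ht⟩ := a.exists_model ho
  obtain ⟨I, i1, i2, i3, hI⟩ := t.exists_int
  haveI : Nonempty P := by
    obtain ⟨p, -⟩ := l.π_surj (Classical.arbitrary X)
    exact ⟨p⟩
  let G' : Geo B :=
    { toPre := ⟨G, I, i1, i2, i3⟩
      sob := hI.sob
      sup := hI.sup
      rel := hI.rel
      cpl := hI.cpl
      moll := hI.moll
      const := fun s hs h => t.const hs h
      ex := t.ex (ht hc)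
      gen := t.gen (0, 1) }
  obtain ⟨D⟩ := l.exists_dyn hI ho d h1 h2
  exact G'.noDyn D

end SW4
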