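import Pool.Agent.P.MP_0a0487_an.SW.Chg
import Pool.Agent.P.MP_0a0487_an.SW.Dirac
import Pool.Agent.P.MP_0a0487_an.SW.Spec

/-! Invariance of the index under small rescalings of the frame. -/

set_option autoImplicit false
set_option linter.unusedSectionVars false

noncomputable section

namespace SW4

open scoped ComplexOrder ContDiff
open Filter Topology

variable {P A : Type} [TopologicalSpace P] [CompactSpace P] [CommRing A] [StarRing A] [Algebra ℂ A]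
  [StarModule ℂ A] {B : Base P A}

/-- The identity map between the spaces of sections of two geometries. -/
def scaleEquiv (G G' : Pre B) {ι : Type} [Fintype ι] (w : ι → Wt) : G.Sec w ≃ₗ[ℝ] G'.Sec w where
  toFun s := G'.mk' s.c s.mem
  invFun s := G.mk' s.c s.mem
  map_add' _ _ := Pre.Sec.ext fun _ => rfl
  map_smul' _ _ := Pre.Sec.ext fun _ => rfl
  left_inv _ := Pre.Sec.ext fun _ => rfl
  right_inv _ := Pre.Sec.ext fun _ => rfl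

theorem scale_D {G G' : Pre B} {d : Fin 4 → A} (h : Chg G G' (Matrix.diagonal d)) (α : Fin 4)
    (s : A) : G'.D α s = d α * G.D α s := by
  rw [h.D_eq, Finset.sum_eq_single α]
  · simp
  · intro β _ hβ
    rw [Matrix.diagonal_apply_ne _ (Ne.symm hβ), zero_mul]
  · simp

theorem scale_nrm (G : Pre B) {u : A} (hu : ∀ p, ‖B.ev u p - 1‖ ≤ 1 / 4) (s : A) :
    G.nrm ((u - 1) * s) ≤ 1 / 4 * G.nrm s := by
  refine G.nrm_mono (by norm_num) fun p => ?_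
  rw [map_mul, map_sub, map_one, ContinuousMap.mul_apply, norm_mul, ContinuousMap.sub_apply,
    ContinuousMap.one_apply]
  exact mul_le_mul_of_nonneg_right (hu p) (norm_nonneg _)

theorem scale_nrm3 (G : Pre B) {u v : A} (hu : ∀ p, ‖B.ev u p - 1‖ ≤ 1 / 4)
    (hv : ∀ p, ‖B.ev v p - 1‖ ≤ 1 / 4) (a b c s : A) :
    G.nrm ((u - 1) * a + (v - 1) * b + c * s) ≤
      (G.nrm a + G.nrm b) / 4 + ‖B.ev c‖ * G.nrm s := by
  have h1 := G.nrm_add ((u - 1) * a + (v - 1) * b) (c * s)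
  have h2 := G.nrm_add ((u - 1) * a) ((v - 1) * b)
  have h3 := scale_nrm G hu a
  have h4 := scale_nrm G hv b
  have h5 := G.nrm_mul_le c s
  linarith

theorem scale_arith {n₀ n₁ a b c d K x l C N : ℝ} (h₀ : 0 ≤ n₀) (h₁ : 0 ≤ n₁) (hN : 0 ≤ N)
    (hx : 0 ≤ x) (hl : 0 ≤ l) (e : N ^ 2 = n₀ ^ 2 + n₁ ^ 2) (b₀ : n₀ ≤ (a + b) / 4 + K * x)
    (b₁ : n₁ ≤ (c + d) / 4 + K * x) (g : a ^ 2 + b ^ 2 + c ^ 2 + d ^ 2 ≤ 4 * l ^ 2 + C * x ^ 2) :
    N ≤ 3 / 4 * l + (|C| + 18 * K ^ 2 + 1) * x := by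
  have q₀ : n₀ ^ 2 ≤ 9 / 64 * (a ^ 2 + b ^ 2) + 9 * (K * x) ^ 2 := by
    have := pow_le_pow_left₀ h₀ b₀ 2
    nlinarith [sq_nonneg (a - b), sq_nonneg ((a + b) / 4 - 8 * (K * x))]
  have q₁ : n₁ ^ 2 ≤ 9 / 64 * (c ^ 2 + d ^ 2) + 9 * (K * x) ^ 2 := by
    have := pow_le_pow_left₀ h₁ b₁ 2
    nlinarith [sq_nonneg (c - d), sq_nonneg ((c + d) / 4 - 8 * (K * x))]
  set M := |C| + 18 * K ^ 2 + 1 with hM
  have hM1 : 1 ≤ M := by
    have := abs_nonneg C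
    nlinarith [sq_nonneg K]
  have hC : C * x ^ 2 ≤ |C| * x ^ 2 := mul_le_mul_of_nonneg_right (le_abs_self C) (sq_nonneg x)
  have hC0 : 0 ≤ |C| * x ^ 2 := by positivity
  have hM2 : M * x ^ 2 ≤ (M * x) ^ 2 := by
    rw [mul_pow]
    exact mul_le_mul_of_nonneg_right (by nlinarith) (sq_nonneg x)
  have hM3 : M * x ^ 2 = |C| * x ^ 2 + 18 * (K * x) ^ 2 + x ^ 2 := by
    rw [hM]
    ring
  have h2 : 0 ≤ l * (M * x) := by positivity
  exact (sq_le_sq₀ hN (by positivity)).1 (by nlinarith [sq_nonneg x])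

theorem Chg.ind_le {G G' : Geo B} {u v : A}
    (h : Chg G.toPre G'.toPre (Matrix.diagonal ![u, u, v, v]))
    (hu : ∀ p, ‖B.ev u p - 1‖ ≤ 1 / 4) (hv : ∀ p, ‖B.ev v p - 1‖ ≤ 1 / 4) (w : Wt) :
    G'.ind w ≤ G.ind w := by
  set e := scaleEquiv G.toPre G'.toPre (wp w) with he
  set e' := scaleEquiv G.toPre G'.toPre (wm w) with he'
  set M : G.Sec (wp w) →ₗ[ℝ] G.Sec (wm w) :=
    e'.symm.toLinearMap ∘ₗ G'.dirac w ∘ₗ e.toLinearMap with hM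
  have hi : (G'.dirac w).index = M.index :=
    index_conj M (G'.dirac w) e e' fun s => by simp [hM]
  have hr : (LinearMap.range (G'.dirac w)).map e'.symm.toLinearMap = LinearMap.range M := by
    rw [hM, LinearMap.range_comp, LinearMap.range_comp, LinearEquiv.range, Submodule.map_top]
  have i1 := (G'.pair (G'.dirac_ell w)).coker_fd
  have i2 : FiniteDimensional ℝ (G.Sec (wm w) ⧸ LinearMap.range M) :=
    (Submodule.Quotient.equiv _ _ e'.symm hr).finiteDimensional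
  obtain ⟨C, hC⟩ := G.garding w
  set K := ‖B.ev (G.τ 2 - G'.τ 2)‖ + ‖B.ev (G'.τ 0 - G.τ 0)‖ with hK
  unfold Pre.ind
  rw [hi]
  refine (G.pair (G.dirac_ell w)).pert M (ε := 3 / 4) (C := |C| + 18 * K ^ 2 + 1)
    (by norm_num) fun s => ?_
  have c0 : (M s - G.dirac w s).c 0 =
      (u - 1) * G.D 1 (s.c 0) + (v - 1) * (-G.D 2 (s.c 1)) + (G.τ 2 - G'.τ 2) * s.c 1 := by
    have : (M s).c 0 = G'.D 1 (s.c 0) - (G'.D 2 (s.c 1) + G'.τ 2 * s.c 1) := rfl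
    have h2 : (G.dirac w s).c 0 = G.D 1 (s.c 0) - (G.D 2 (s.c 1) + G.τ 2 * s.c 1) := rfl
    rw [Pre.Sec.c_sub, this, h2, scale_D h, scale_D h]
    simp only [Matrix.cons_val_one, Matrix.cons_val_zero, Matrix.cons_val]
    ring
  have c1 : (M s - G.dirac w s).c 1 =
      (u - 1) * G.D 0 (s.c 1) + (v - 1) * G.D 3 (s.c 0) + (G'.τ 0 - G.τ 0) * s.c 1 := by
    have : (M s).c 1 = G'.D 3 (s.c 0) + (G'.D 0 (s.c 1) + G'.τ 0 * s.c 1) := rfl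
    have h2 : (G.dirac w s).c 1 = G.D 3 (s.c 0) + (G.D 0 (s.c 1) + G.τ 0 * s.c 1) := rfl
    rw [Pre.Sec.c_sub, this, h2, scale_D h, scale_D h]
    simp only [Matrix.cons_val_one, Matrix.cons_val_zero, Matrix.cons_val]
    ring
  have n1 := s.nrm_le_norm 1
  have n0 := G.nrm_nonneg (s.c 1)
  have k0 := norm_nonneg (B.ev (G.τ 2 - G'.τ 2))
  have k1 := norm_nonneg (B.ev (G'.τ 0 - G.τ 0))
  have b0 := scale_nrm3 G.toPre hu hv (G.D 1 (s.c 0)) (-G.D 2 (s.c 1)) (G.τ 2 - G'.τ 2) (s.c 1)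
  have b1 := scale_nrm3 G.toPre hu hv (G.D 0 (s.c 1)) (G.D 3 (s.c 0)) (G'.τ 0 - G.τ 0) (s.c 1)
  rw [← c0, G.nrm_neg] at b0
  rw [← c1] at b1
  refine scale_arith (G.nrm_nonneg _) (G.nrm_nonneg _) (norm_nonneg _) (norm_nonneg _)
    (norm_nonneg _) (by rw [Pre.norm_sq_eq, Fin.sum_univ_two])
    (b0.trans (add_le_add le_rfl (mul_le_mul (by linarith) n1 n0 (by linarith))))
    (b1.trans (add_le_add le_rfl (mul_le_mul (by linarith) n1 n0 (by linarith))))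
    (le_trans ?_ (hC s))
  simp only [Fin.sum_univ_two, Fin.sum_univ_four]
  linarith [sq_nonneg (G.nrm (G.D 0 (s.c 0))), sq_nonneg (G.nrm (G.D 2 (s.c 0))),
    sq_nonneg (G.nrm (G.D 1 (s.c 1))), sq_nonneg (G.nrm (G.D 3 (s.c 1)))]

theorem scale_frame {u v : A} (hu : B.Re0 u) (hv : B.Re0 v) (pu : ∀ p, B.ev u p ≠ 0)
    (pv : ∀ p, B.ev v p ≠ 0) : B.Frame (Matrix.diagonal ![u, u, v, v]) where
  mem α β := by
    by_cases hαβ : α = β
    · subst hαβ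
      rw [Matrix.diagonal_apply_eq, sub_self]
      fin_cases α
      exacts [hu.1, hu.1, hv.1, hv.1]
    · rw [Matrix.diagonal_apply_ne _ hαβ]
      exact zero_mem _
  star_eq α β := by
    fin_cases α <;> fin_cases β <;> simp [bar, hu.2, hv.2]
  pos p := by
    have h1 := (B.re0_iff.1 hu).2 p
    have h2 := (B.re0_iff.1 hv).2 p
    have h3 : (B.ev u p).re ≠ 0 := fun h0 => pu p (Complex.ext h0 h1)
    have h4 : (B.ev v p).re ≠ 0 := fun h0 => pv p (Complex.ext h0 h2)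
    have : (B.ev (Matrix.diagonal ![u, u, v, v]).det p).re =
        (B.ev u p).re ^ 2 * (B.ev v p).re ^ 2 := by
      simp [Matrix.det_diagonal, Fin.prod_univ_four, h1, h2]
      ring
    rw [this]
    positivity

theorem scale_root (G : Calc B) {x : A} (hx : B.Re0 x) (h : ∀ p, 0 < (B.ev x p).re) :
    ∃ r a, B.Re0 r ∧ B.Re0 a ∧ r * r = x ∧ r * a = 1 ∧ (∀ p, 0 < (B.ev r p).re) ∧
      (∀ p, B.ev r p ≠ 0) ∧ ∀ p, B.ev a p ≠ 0 := by
  obtain ⟨r, hr, pr, er⟩ := G.exists_sqrt hx h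
  have nr : ∀ p, B.ev r p ≠ 0 := fun p h0 => by simpa [h0] using pr p
  obtain ⟨a, ha, ea⟩ := G.exists_inv hr.1 nr
  refine ⟨r, a, hr, ⟨by simpa using ha, ?_⟩, er, ea, pr, nr, fun p h0 => ?_⟩
  · have h1 : r * star a = 1 := by
      have := congrArg star ea
      rwa [star_mul', hr.2, star_one] at this
    linear_combination a * h1 - star a * ea
  · have := congrArg (fun s => B.ev s p) ea
    simp [h0] at this

theorem scale_close {r s b : A} (hr : B.Re0 r) (hs : B.Re0 s) (hb : s * b = 1) (p : P)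
    (pr : 0 < (B.ev r p).re) (ps : 0 < (B.ev s p).re)
    (h1 : 9 / 16 * (B.ev (s * s) p).re ≤ (B.ev (r * r) p).re)
    (h2 : (B.ev (r * r) p).re ≤ 25 / 16 * (B.ev (s * s) p).re) :
    ‖B.ev (b * r) p - 1‖ ≤ 1 / 4 := by
  have i1 := (B.re0_iff.1 hr).2 p
  have i2 := (B.re0_iff.1 hs).2 p
  have e1 : B.ev r p = ((B.ev r p).re : ℂ) := Complex.ext rfl i1
  have e2 : B.ev s p = ((B.ev s p).re : ℂ) := Complex.ext rfl i2
  simp only [map_mul, ContinuousMap.mul_apply, Complex.mul_re, i1, i2, mul_zero, sub_zero] at h1 h2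
  have e3 : B.ev s p * B.ev b p = 1 := by
    simpa using congrArg (fun s => B.ev s p) hb
  generalize (B.ev r p).re = R at *
  generalize (B.ev s p).re = S at *
  have e4 : B.ev (b * r) p - 1 = (((R - S) / S : ℝ) : ℂ) := by
    have hS : (S : ℂ) ≠ 0 := Complex.ofReal_ne_zero.2 ps.ne'
    rw [map_mul, ContinuousMap.mul_apply, e1]
    rw [e2] at e3
    push_cast
    field_simp
    linear_combination (R : ℂ) * e3
  rw [e4, Complex.norm_real, Real.norm_eq_abs, abs_le, le_div_iff₀ ps, div_le_iff₀ ps]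
  constructor <;> nlinarith

theorem scale_form {x y : A} (hx : x ∈ B.W 0) (hy : y ∈ B.W 0) : B.Form2 (om x y) := by
  have hx' : x ∈ B.W (0, 0) := hx
  have hy' : y ∈ B.W (0, 0) := hy
  intro α β
  fin_cases α <;> fin_cases β <;> simp [om, wt, hx', hy']

theorem scale_tr2 {R : Type} [CommRing R] (a b x y : R) :
    tr2 (Matrix.diagonal ![a, a, b, b]) (om x y) = om (a * a * x) (b * b * y) := by
  funext α β
  fin_cases α <;> fin_cases β <;> simp [tr2, om, Fin.sum_univ_four, Matrix.diagonal]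

theorem scale_diag {R : Type} [CommRing R] (a b c d : R) :
    Matrix.diagonal ![a, a, b, b] * Matrix.diagonal ![c, c, d, d] =
      Matrix.diagonal ![a * c, a * c, b * d, b * d] := by
  rw [Matrix.diagonal_mul_diagonal]
  congr 1
  funext α
  fin_cases α <;> simp

theorem scale_rel {G G₁ G₂ : Pre B} {r₀ r₁ a₀ a₁ b₀ b₁ : A} (hf : B.Frame
      (Matrix.diagonal ![r₀, r₀, r₁, r₁])) (e₀ : r₀ * a₀ = 1) (e₁ : r₁ * a₁ = 1)
    (h₁ : Chg G G₁ (Matrix.diagonal ![a₀, a₀, a₁, a₁]))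
    (h₂ : Chg G G₂ (Matrix.diagonal ![b₀, b₀, b₁, b₁])) :
    Chg G₁ G₂ (Matrix.diagonal ![b₀ * r₀, b₀ * r₀, b₁ * r₁, b₁ * r₁]) := by
  rw [← scale_diag]
  refine (h₁.symm hf ?_).trans h₂
  rw [scale_diag, e₀, e₁, ← Matrix.diagonal_one]
  congr 1
  funext α
  fin_cases α <;> simp

/-- Normalisation of a pair of diagonal forms. -/
theorem Geo.exists_normal (G : Geo B) {x₀ x₁ y₀ y₁ : A} (hx₀ : B.Re0 x₀) (hx₁ : B.Re0 x₁)
    (hy₀ : B.Re0 y₀) (hy₁ : B.Re0 y₁)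
    (p₀ : ∀ p, 0 < (B.ev y₀ p).re ∧ 9 / 10 * (B.ev y₀ p).re ≤ (B.ev x₀ p).re ∧
      (B.ev x₀ p).re ≤ 11 / 10 * (B.ev y₀ p).re)
    (p₁ : ∀ p, 0 < (B.ev y₁ p).re ∧ 9 / 10 * (B.ev y₁ p).re ≤ (B.ev x₁ p).re ∧
      (B.ev x₁ p).re ≤ 11 / 10 * (B.ev y₁ p).re)
    (c₁ : G.Closed (om x₀ x₁)) (c₂ : G.Closed (om y₀ (-y₁)))
    (f₁ : ∀ j, G.I (wg (G.F j) (om x₀ x₁)) = 0) (f₂ : ∀ j, G.I (wg (G.F j) (om y₀ (-y₁))) = 0) :
    ∃ G₁ G₂ : Geo B, G₁.AK ∧ (∀ j, G₁.I (lam (G₁.F j)) = 0) ∧ G₂.Closed (om 1 (-1)) ∧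
      (∀ j, G₂.I (wg (G₂.F j) (om 1 (-1))) = 0) ∧ ∀ w, G₁.ind w = G₂.ind w := by
  obtain ⟨r₀, a₀, hr₀, ha₀, er₀, ea₀, pr₀, nr₀, na₀⟩ :=
    scale_root G.toCalc hx₀ fun p => by linarith [(p₀ p).1, (p₀ p).2.1]
  obtain ⟨r₁, a₁, hr₁, ha₁, er₁, ea₁, pr₁, nr₁, na₁⟩ :=
    scale_root G.toCalc hx₁ fun p => by linarith [(p₁ p).1, (p₁ p).2.1]
  obtain ⟨s₀, b₀, hs₀, hb₀, es₀, eb₀, ps₀, ns₀, nb₀⟩ := scale_root G.toCalc hy₀ fun p => (p₀ p).1
  obtain ⟨s₁, b₁, hs₁, hb₁, es₁, eb₁, ps₁, ns₁, nb₁⟩ := scale_root G.toCalc hy₁ fun p => (p₁ p).1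
  obtain ⟨G₁, h₁⟩ := G.exists_chg (scale_frame ha₀ ha₁ na₀ na₁)
  obtain ⟨G₂, h₂⟩ := G.exists_chg (scale_frame hb₀ hb₁ nb₀ nb₁)
  have key : ∀ {r a x : A}, r * r = x → r * a = 1 → a * a * x = 1 := fun {r a x} e1 e2 => by
    linear_combination (-(a * a)) * e1 + (r * a + 1) * e2
  have t₁ : tr2 (Matrix.diagonal ![a₀, a₀, a₁, a₁]) (om x₀ x₁) = om 1 1 := by
    rw [scale_tr2, key er₀ ea₀, key er₁ ea₁]
  have t₂ : tr2 (Matrix.diagonal ![b₀, b₀, b₁, b₁]) (om y₀ (-y₁)) = om 1 (-1) := by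
    rw [scale_tr2, mul_neg, key es₀ eb₀, key es₁ eb₁]
  have o₁ : B.Form2 (om x₀ x₁) := scale_form hx₀.1 hx₁.1
  have o₂ : B.Form2 (om y₀ (-y₁)) := scale_form hy₀.1 (neg_mem hy₁.1)
  have l₁ : ∀ b : Fin 4 → Fin 4 → A, lam b = wg (om 1 1) b := fun b => by
    simp [lam, wg, om, add_comm]
  have l₂ : ∀ b : Fin 4 → Fin 4 → A, lam b = wg b (om 1 1) := fun b => by
    simp [lam, wg, om]
  refine ⟨G₁, G₂, fun p hp q hq => ?_, fun j => ?_, t₂ ▸ h₂.closed o₂ c₂, fun j => ?_,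
    fun w => le_antisymm ?_ ?_⟩
  · rw [l₁, ← t₁]
    exact h₁.closed o₁ c₁ p hp q hq
  · rw [l₂, ← t₁, h₁.F_eq, h₁.I_wg (G.F_form j) o₁, f₁]
  · rw [← t₂, h₂.F_eq, h₂.I_wg (G.F_form j) o₂, f₂]
  · refine (scale_rel (scale_frame hs₀ hs₁ ns₀ ns₁) eb₀ eb₁ h₂ h₁).ind_le (fun p => ?_)
      (fun p => ?_) w
    · refine scale_close hs₀ hr₀ ea₀ p (ps₀ p) (pr₀ p) ?_ ?_ <;> rw [er₀, es₀] <;>
        linarith [(p₀ p).1, (p₀ p).2.1, (p₀ p).2.2]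
    · refine scale_close hs₁ hr₁ ea₁ p (ps₁ p) (pr₁ p) ?_ ?_ <;> rw [er₁, es₁] <;>
        linarith [(p₁ p).1, (p₁ p).2.1, (p₁ p).2.2]
  · refine (scale_rel (scale_frame hr₀ hr₁ nr₀ nr₁) ea₀ ea₁ h₁ h₂).ind_le (fun p => ?_)
      (fun p => ?_) w
    · refine scale_close hr₀ hs₀ eb₀ p (pr₀ p) (ps₀ p) ?_ ?_ <;> rw [er₀, es₀] <;>
        linarith [(p₀ p).1, (p₀ p).2.1, (p₀ p).2.2]
    · refine scale_close hr₁ hs₁ eb₁ p (pr₁ p) (ps₁ p) ?_ ?_ <;> rw [er₁, es₁] <;>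
        linarith [(p₁ p).1, (p₁ p).2.1, (p₁ p).2.2]

end SW4
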