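import Pool.Agent.P.MP_0a0487_an.SW.Gal2
import Pool.Agent.P.MP_0a0487_an.SW.Ends
import Pool.Agent.P.MP_0a0487_an.SW.Dim
import Pool.Agent.P.MP_0a0487_an.SW.Scale
import Pool.Agent.P.MP_0a0487_an.SW.Flip

/-! No pair of symplectic forms of opposite orientations orthogonal to both curvatures. -/

set_option autoImplicit false
set_option linter.unusedSectionVars false

noncomputable section

namespace SW4

open scoped ComplexOrder ContDiff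
open Filter Topology

variable {P A : Type} [TopologicalSpace P] [CompactSpace P] [CommRing A] [StarRing A] [Algebra ℂ A]
  [StarModule ℂ A] {B : Base P A}

theorem Geo.noPair_re (G : Geo B) (s t : G.Sec (wp 0)) : inner ℝ s t = (inner ℂ s t).re := rfl

theorem Geo.noPair_e1 [Nonempty P] (G : Geo B) : inner ℂ G.e1 G.e1 ≠ 0 := by
  have h : inner ℂ G.e1 G.e1 = G.I 1 := by
    rw [Pre.inner_complex, Fin.sum_univ_two]
    simp [Pre.e1]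
  rw [h]
  intro h0
  have := G.I_one_pos
  rw [h0] at this
  exact lt_irrefl _ this

/-- No reducible solution along the path. -/
theorem Geo.noPair_irr [Nonempty P] (G : Geo B) {ζ φ : G.Sec (wp 0)} (h1 : inner ℂ G.e1 ζ = 0)
    (h2 : ∀ χ, inner ℝ (G.Q χ) ζ = 0) (hφ : inner ℂ G.e1 φ = 0) {k : ℂ} (hk : k ≠ 0) {κ : ℝ}
    (hκ : inner ℝ φ ζ / 2 + κ * inner ℝ ζ ζ / 4 ≠ 0) (t : ℝ) (χ : G.Sec (wm 0)) :
    ¬ G.SW ((1 - t) • k • G.e1 + t • (φ - k • G.e1) + (t * (1 - t)) • κ • ζ) 0 χ := by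
  rintro ⟨-, h⟩
  rw [map_zero, add_zero] at h
  have e1 := G.inner_e1_Q χ
  rw [h] at e1
  simp only [← Complex.coe_smul, inner_add_right, inner_smul_right, inner_sub_right, h1, hφ] at e1
  have e2 : ((1 - 2 * t : ℝ) : ℂ) * (k * inner ℂ G.e1 G.e1) = 0 := by
    push_cast at e1 ⊢
    linear_combination e1
  have e3 : t = 1 / 2 := by
    have := Complex.ofReal_eq_zero.1
      ((mul_eq_zero.1 e2).resolve_right (mul_ne_zero hk G.noPair_e1))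
    linarith
  have e4 := h2 χ
  have e5 : G.Q χ = (1 / 2 : ℝ) • φ + (κ / 4) • ζ := by
    rw [h, e3]
    module
  rw [e5, inner_add_left, real_inner_smul_left, real_inner_smul_left] at e4
  exact hκ (by linarith)

/-- The boundary conditions hold for the projected equations of large level. -/
theorem Geo.noPair_bd (G : Geo B) {Q' : G.Sec (wp 0) →ₗ[ℝ] G.Sec (wm 0)} (hQ : Pre.Ell G.Q Q')
    (ξ₀ ξ₁ ζ : G.Sec (wp 0)) {R : ℝ}
    (h : ∀ t ∈ Set.Icc (0 : ℝ) 1, ∀ ψ χ, G.SW ((1 - t) • ξ₀ + t • ξ₁ + (t * (1 - t)) • ζ) ψ χ →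
      ψ.nS 4 + χ.nS 4 < R ∧ ψ ≠ 0 ∧ t ≠ 1) :
    ∃ Λ₀ : ℝ, ∀ Λ ≥ Λ₀, ∀ t ∈ Set.Icc (0 : ℝ) 1, ∀ ψ χ,
      G.GalSol Q' Λ ((1 - t) • ξ₀ + t • ξ₁ + (t * (1 - t)) • ζ) ψ χ →
      ψ.nS 4 + χ.nS 4 ≤ R → ψ.nS 4 + χ.nS 4 ≠ R ∧ ψ ≠ 0 ∧ t ≠ 1 := by
  by_contra hc
  have hc' : ∀ n : ℕ, ∃ Λ : ℝ, (n : ℝ) ≤ Λ ∧ ∃ t ∈ Set.Icc (0 : ℝ) 1, ∃ ψ χ,
      G.GalSol Q' Λ ((1 - t) • ξ₀ + t • ξ₁ + (t * (1 - t)) • ζ) ψ χ ∧
      ψ.nS 4 + χ.nS 4 ≤ R ∧ ¬ (ψ.nS 4 + χ.nS 4 ≠ R ∧ ψ ≠ 0 ∧ t ≠ 1) := fun n => by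
    by_contra hn
    exact hc ⟨n, fun Λ hΛ t ht ψ χ h1 h2 => by_contra fun h3 =>
      hn ⟨Λ, hΛ, t, ht, ψ, χ, h1, h2, h3⟩⟩
  choose Λ hΛ t ht ψ χ h1 h2 h3 using hc'
  obtain ⟨φ, t₀, ψ₀, χ₀, -, l1, l2, l3⟩ := G.gal_lim hQ ξ₀ ξ₁ ζ
    (tendsto_atTop_mono hΛ tendsto_natCast_atTop_atTop) t ht ψ χ h1 h2
  obtain ⟨k1, k2, k3⟩ := h t₀
    (isClosed_Icc.mem_of_tendsto l1 (Eventually.of_forall fun n => ht _)) ψ₀ χ₀ l3
  have k4 : 0 < ψ₀.nS 4 := (norm_pos_iff.2 k2).trans_le (ψ₀.norm_le_nS 4)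
  obtain ⟨n, ⟨n1, n2⟩, n3⟩ := ((((l2 4).eventually_lt_const (sub_pos.2 k1)).and
    ((l2 4).eventually_lt_const k4)).and (l1.eventually_ne k3)).exists
  refine h3 (φ n) ⟨ne_of_lt ?_, fun h0 => ?_, n3⟩
  · have a1 := (ψ (φ n) - ψ₀).nS_add ψ₀ 4
    have a2 := (χ (φ n) - χ₀).nS_add χ₀ 4
    rw [sub_add_cancel] at a1 a2
    linarith
  · rw [h0, zero_sub, Pre.Sec.nS_neg] at n2
    linarith [(χ (φ n) - χ₀).nS_nonneg 4]

/-- Taubes' theorem: if `b⁺ > 1` and the canonical class is orthogonal to the symplectic form, then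
the canonical bundle is trivial. -/
theorem Geo.canonical_trivial [Nonempty P] (G : Geo B) (h : G.AK)
    (hF : ∀ j, G.I (lam (G.F j)) = 0) {ζ : G.Sec (wp 0)} (h0 : ζ ≠ 0)
    (h1 : inner ℂ G.e1 ζ = 0) (h2 : ∀ χ, inner ℝ (G.Q χ) ζ = 0) :
    ∃ u ∈ B.W (1, 1), ∀ p, B.ev u p ≠ 0 := by
  by_contra hno
  obtain ⟨Q', hQ⟩ := G.exists_Q_adj
  obtain ⟨c₀, e₀⟩ := G.end_zero h
  obtain ⟨c₁, e₁⟩ := G.end_lin h
  obtain ⟨φ, hφ, c₂, e₂⟩ := G.end_one h hF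
  obtain ⟨c, hc, d₀, d₁, d₂⟩ : ∃ c : ℝ, 0 < c ∧ c₀ ≤ c ∧ c₁ ≤ c ∧ c₂ ≤ c :=
    ⟨max 1 (max c₀ (max c₁ c₂)), by simp, by simp, by simp, by simp⟩
  obtain ⟨κ, hκ⟩ : ∃ κ : ℝ, inner ℝ φ ζ / 2 + κ * inner ℝ ζ ζ / 4 ≠ 0 := by
    by_cases h3 : inner ℝ φ ζ = 0
    · exact ⟨1, by simpa [h3] using h0⟩
    · exact ⟨0, by simpa using h3⟩
  set k : ℂ := (c : ℂ) ^ 2 * Complex.I / 2 with hk
  have k0 : k ≠ 0 := by simp [hk, hc.ne']
  obtain ⟨R, hR⟩ := G.apriori h ((k • G.e1).nS 4 + (φ - k • G.e1).nS 4 + (κ • ζ).nS 4)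
  obtain ⟨Λ₀, b₀⟩ := G.noPair_bd hQ (k • G.e1) (φ - k • G.e1) (κ • ζ)
    (R := max R (((c : ℂ) • G.e1).nS 4)) fun t ht ψ χ hs => by
      refine ⟨lt_max_of_lt_left (hR _ _ _ hs ?_), fun h3 => ?_, fun h3 => ?_⟩
      · have a : ∀ (r : ℝ) (s : G.Sec (wp 0)), 0 ≤ r → r ≤ 1 → (r • s).nS 4 ≤ s.nS 4 :=
          fun r s r0 r1 => by
            rw [Pre.Sec.nS_rsmul, abs_of_nonneg r0]
            exact mul_le_of_le_one_left (s.nS_nonneg 4) r1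
        refine (Pre.Sec.nS_add _ _ 4).trans (add_le_add ((Pre.Sec.nS_add _ _ 4).trans
          (add_le_add (a _ _ ?_ ?_) (a _ _ ht.1 ht.2))) (a _ _ ?_ ?_))
        all_goals nlinarith [ht.1, ht.2]
      · rw [h3] at hs
        exact G.noPair_irr h1 h2 hφ k0 hκ t χ hs
      · rw [h3, sub_self, zero_smul, zero_add, one_smul, mul_zero, zero_smul, add_zero] at hs
        exact hno (e₂ c d₂ ψ χ hs)
  obtain ⟨Λ₁, b₁⟩ := G.gal_uniq hQ hc (e₀ c d₀) (e₁ c d₁) (max R (((c : ℂ) • G.e1).nS 4))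
  obtain ⟨Λ₂, b₂⟩ := G.gal_nd hQ (e₁ c d₁)
  refine G.gal_top hQ (φ - k • G.e1) (κ • ζ) ?_ ?_ (max Λ₀ (max Λ₁ Λ₂)) _ (b₀ _ (by simp))
    (le_max_right _ _) (b₁ _ (by simp)) (b₂ _ (by simp))
  · rw [G.noPair_re, inner_sub_right, inner_smul_right, hφ, inner_self_eq_norm_sq_to_K, hk]
    simp [← Complex.ofReal_pow]
  · rw [real_inner_smul_right, G.noPair_re, h1]
    simp

theorem Geo.dichotomy [Nonempty P] (G : Geo B) (h : G.AK) (hF : ∀ j, G.I (lam (G.F j)) = 0) :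
    (∀ b : ℤ, G.ind (0, -b) = G.ind (0, b)) ∨ ∃ K : ℤ, ∀ w, G.ind w ≤ K := by
  by_cases hζ : ∃ ζ : G.Sec (wp 0), ζ ≠ 0 ∧ inner ℂ G.e1 ζ = 0 ∧ ∀ χ, inner ℝ (G.Q χ) ζ = 0
  · obtain ⟨ζ, h0, h1, h2⟩ := hζ
    obtain ⟨u, hu, hu'⟩ := G.canonical_trivial h hF h0 h1 h2
    refine Or.inl fun b => ?_
    rw [← G.ind_unit hu hu' (0, -b), ← G.ind_serre (0, b)]
    congr 1
    ext
    · simp
    · simp only [Prod.snd_add, Prod.snd_sub]
      ring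
  · refine Or.inr (G.ind_bdd h hF fun ξ hξ => ?_)
    obtain ⟨Q', hQ⟩ := G.exists_Q_adj
    refine (G.pair hQ).solve fun t ht => ?_
    have key : ∀ (s : G.Sec (wp 0)) (a : ℂ), inner ℂ G.e1 s = 0 → inner ℝ s (a • G.e1) = 0 :=
      fun s a hs => by
        rw [G.noPair_re, inner_smul_right, inner_eq_zero_symm.1 hs, mul_zero, Complex.zero_re]
    have h0 : t - (inner ℂ G.e1 t / inner ℂ G.e1 G.e1) • G.e1 = 0 := by
      by_contra h0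
      refine hζ ⟨_, h0, ?_, fun χ => ?_⟩
      · rw [inner_sub_right, inner_smul_right, div_mul_cancel₀ _ G.noPair_e1, sub_self]
      · rw [inner_sub_right, key _ _ (G.inner_e1_Q χ), hQ.adj, ht, inner_zero_right, sub_zero]
    rw [sub_eq_zero.1 h0]
    exact key _ _ hξ

theorem arith {q : ℤ → ℤ} (h3 : ∀ b, q b + 3 * q (b + 2) = 3 * q (b + 1) + q (b + 3))
    (h0 : 0 < q 0) (h1 : q 1 < 0) (h : (∀ b, q (-b) = q b) ∨ ∃ K, ∀ b, q b ≤ K)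
    (h' : (∀ b, q (1 + b) = q (1 - b)) ∨ ∃ K, ∀ b, -q b ≤ K) : False := by
  obtain ⟨s, hs⟩ : ∃ s, ∀ b, q (b + 2) - 2 * q (b + 1) + q b = s := by
    refine ⟨q (0 + 2) - 2 * q (0 + 1) + q 0, fun b => ?_⟩
    induction b using Int.induction_on with
    | zero => rfl
    | succ n ih =>
      have := h3 n
      rw [show (n : ℤ) + 1 + 2 = n + 3 by ring, show (n : ℤ) + 1 + 1 = n + 2 by ring]
      linarith
    | pred n ih =>
      have := h3 (-n - 1)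
      rw [show -(n : ℤ) - 1 + 3 = -n + 2 by ring] at this
      rw [show -(n : ℤ) - 1 + 2 = -n + 1 by ring, show -(n : ℤ) - 1 + 1 = -n by ring] at this ⊢
      linarith
  have hd : ∀ b, q (b + 1) - q b = q 1 - q 0 + s * b := fun b => by
    induction b using Int.induction_on with
    | zero => simp
    | succ n ih =>
      have := hs n
      rw [show (n : ℤ) + 1 + 1 = n + 2 by ring]
      linarith
    | pred n ih =>
      have := hs (-n - 1)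
      rw [show -(n : ℤ) - 1 + 2 = -n + 1 by ring] at this
      rw [show -(n : ℤ) - 1 + 1 = -n by ring] at this ⊢
      linarith
  have hq : ∀ b, 2 * q b = 2 * q 0 + 2 * (q 1 - q 0) * b + s * (b * (b - 1)) := fun b => by
    induction b using Int.induction_on with
    | zero => simp
    | succ n ih => linear_combination ih + 2 * hd n
    | pred n ih =>
      have := hd (-n - 1)
      rw [show -(n : ℤ) - 1 + 1 = -n by ring] at this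
      linear_combination ih - 2 * this
  have s1 : s < 0 := by
    rcases h with h | ⟨K, h⟩
    · have := hq (-1)
      rw [h 1] at this
      linarith
    · by_contra hs0
      have k0 := h 0
      have k1 := h (-K)
      have k2 := hq (-K)
      have k3 : 0 ≤ s * (-K * (-K - 1)) := mul_nonneg (not_lt.1 hs0) (by nlinarith)
      nlinarith
  rcases h' with h' | ⟨K, h'⟩
  · have k1 := hq (1 + 1)
    rw [h' 1, sub_self] at k1
    linarith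
  · have k0 := h' 1
    have k1 := h' (K + q 0 + 1)
    have k2 := hq (K + q 0 + 1)
    have k3 : s * ((K + q 0 + 1) * (K + q 0 + 1 - 1)) ≤ 0 :=
      mul_nonpos_of_nonpos_of_nonneg s1.le (by nlinarith)
    nlinarith

theorem Geo.noPair [Nonempty P] (G : Geo B) {x₀ x₁ y₀ y₁ : A} (hx₀ : B.Re0 x₀) (hx₁ : B.Re0 x₁)
    (hy₀ : B.Re0 y₀) (hy₁ : B.Re0 y₁)
    (p₀ : ∀ p, 0 < (B.ev y₀ p).re ∧ 9 / 10 * (B.ev y₀ p).re ≤ (B.ev x₀ p).re ∧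
      (B.ev x₀ p).re ≤ 11 / 10 * (B.ev y₀ p).re)
    (p₁ : ∀ p, 0 < (B.ev y₁ p).re ∧ 9 / 10 * (B.ev y₁ p).re ≤ (B.ev x₁ p).re ∧
      (B.ev x₁ p).re ≤ 11 / 10 * (B.ev y₁ p).re)
    (c₁ : G.Closed (om x₀ x₁)) (c₂ : G.Closed (om y₀ (-y₁)))
    (f₁ : ∀ j, G.I (wg (G.F j) (om x₀ x₁)) = 0) (f₂ : ∀ j, G.I (wg (G.F j) (om y₀ (-y₁))) = 0) :
    False := by
  obtain ⟨G₁, G₂, a₁, g₁, a₂, g₂, e⟩ := G.exists_normal hx₀ hx₁ hy₀ hy₁ p₀ p₁ c₁ c₂ f₁ f₂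
  obtain ⟨G₃, hf⟩ := G₂.exists_flp
  have e' : ∀ b : ℤ, G₃.ind (0, b) = -G₁.ind (0, 1 - b) := fun b => by rw [hf.ind_eq, e]
  refine arith (q := fun b => G₁.ind (0, b)) (fun b => ?_) (G₁.ind_pos a₁) ?_ ?_ ?_
  · simpa using G₁.ind_koszul (0, b)
  · have := (G₃.ind_pos (hf.ak a₂)).trans_eq (e' 0)
    simpa using this
  · exact (G₁.dichotomy a₁ g₁).imp id fun ⟨K, hK⟩ => ⟨K, fun b => hK _⟩
  · refine (G₃.dichotomy (hf.ak a₂) (hf.I_lam_F g₂)).imp (fun h b => ?_) fun ⟨K, hK⟩ =>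
      ⟨K, fun b => ?_⟩
    · have := h b
      rwa [e', e', neg_inj, sub_neg_eq_add] at this
    · have := hK (0, 1 - b)
      rwa [e', sub_sub_cancel] at this

end SW4
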