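import Pool.Agent.P.MP_0a0487_an.SW.FrB

/-! Squares and restrictions to components. -/

set_option autoImplicit false
set_option linter.unusedSectionVars false

noncomputable section

namespace SW4

open scoped ContDiff
open Filter Topology Matrix

variable {X : Type} [TopologicalSpace X]

theorem Fr.source_preconnected (a : Fr X) (i : Fin a.n) : IsPreconnected (a.φ i).source := by
  rw [← (a.φ i).symm_image_target_eq_source]
  exact (a.convex i).isPreconnected.image _ (a.φ i).continuousOn_symm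

theorem Fr.locallyPathConnectedSpace (a : Fr X) : LocallyPathConnectedSpace X := by
  choose c hc using a.cover
  let _ : ChartedSpace E4 X :=
    { atlas := Set.range a.φ
      chartAt := fun x => a.φ (c x)
      mem_chart_source := hc
      chart_mem_atlas := fun x => ⟨c x, rfl⟩ }
  exact ChartedSpace.locallyPathConnectedSpace E4 X

theorem FDyn.exists_sq {a : Fr X} (ho : a.Ori) (d : FDyn a 8) (h : d.Or) :
    ∃ d' : FDyn a 4, d'.Or ∧ ∀ x, d'.h x = d.h (d.h x) := by
  have hL : 0 ≤ d.L := zero_le_one.trans d.one_le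
  have hit : ∀ m, (⇑(d.h.trans d.h))^[m] = (⇑d.h)^[2 * m] := fun m => by
    rw [Function.iterate_mul]
    rfl
  refine ⟨{
    h := d.h.trans d.h
    sm := d.sm.comp d.sm
    sm' := d.sm'.comp d.sm'
    Q := d.Q
    Q_cont := d.Q_cont
    Q_idem := d.Q_idem
    Q_id := d.Q_id
    Q_h := d.Q_iter 2
    δ := d.δ
    L := d.L ^ 2
    one_le := one_le_pow₀ d.one_le
    small := by rw [← pow_mul]; exact d.small
    near := d.near
    bd := ?_
    ε := fun m => d.ε (2 * m)
    lim := d.lim.comp (tendsto_id.const_mul_atTop' two_pos)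
    hyp := fun m => by rw [hit]; exact d.hyp (2 * m) }, (d.or_iter ho h 2).1, fun _ => rfl⟩
  intro i k x hi hk v
  obtain ⟨j, hj⟩ := a.cover (d.h x)
  have e : a.Jm (d.h.trans d.h) i k x = a.Jm d.h j k (d.h x) * a.Jm d.h i j x :=
    a.Jm_comp d.sm d.sm hi hj hk
  have h1 := d.bd i j x hi hj v
  have h2 := d.bd j k (d.h x) hj hk (a.Jm d.h i j x *ᵥ v)
  rw [e, ← Matrix.mulVec_mulVec, sq, mul_assoc, mul_assoc]
  exact ⟨h2.1.trans (mul_le_mul_of_nonneg_left h1.1 hL),
    h1.2.trans (mul_le_mul_of_nonneg_left h2.2 hL)⟩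

section Restr

variable (a : Fr X) {S : Set X} (hS : IsClopen S) [Nonempty S]

/-- The restriction of a chart. -/
def Restr_φ (i : Fin a.n) : OpenPartialHomeomorph S E4 :=
  (hS.isOpen.isOpenEmbedding_subtypeVal.toOpenPartialHomeomorph Subtype.val).trans (a.φ i)

theorem Restr_apply (i : Fin a.n) (x : S) : Restr_φ a hS i x = a.φ i x := by
  simp [Restr_φ]

theorem Restr_source (i : Fin a.n) (x : S) :
    x ∈ (Restr_φ a hS i).source ↔ (x : X) ∈ (a.φ i).source := by
  simp [Restr_φ]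

theorem Restr_target (i : Fin a.n) (y : E4) :
    y ∈ (Restr_φ a hS i).target ↔ y ∈ (a.φ i).target ∧ (a.φ i).symm y ∈ S := by
  simp [Restr_φ]

theorem Restr_symm (i : Fin a.n) {y : E4} (hy : y ∈ (Restr_φ a hS i).target) :
    (((Restr_φ a hS i).symm y : S) : X) = (a.φ i).symm y := by
  have h1 := (Restr_target a hS i y).1 hy
  have h2 := (Restr_φ a hS i).right_inv hy
  rw [Restr_apply] at h2
  have h3 := (Restr_source a hS i _).1 ((Restr_φ a hS i).map_target hy)
  rw [← (a.φ i).left_inv h3, h2]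

theorem Restr_convex (i : Fin a.n) : Convex ℝ (Restr_φ a hS i).target := by
  rcases (Restr_φ a hS i).target.eq_empty_or_nonempty with h | ⟨y, hy⟩
  · rw [h]
    exact convex_empty
  · have h1 := (Restr_target a hS i y).1 hy
    have h2 : (a.φ i).source ⊆ S :=
      (a.source_preconnected i).subset_isClopen hS ⟨_, (a.φ i).map_target h1.1, h1.2⟩
    have h3 : (Restr_φ a hS i).target = (a.φ i).target := by
      ext w
      rw [Restr_target]
      exact ⟨fun h => h.1, fun h => ⟨h, h2 ((a.φ i).map_target h)⟩⟩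
    rw [h3]
    exact a.convex i

theorem Restr_fderiv {F : Type} [NormedAddCommGroup F] [NormedSpace ℝ F] (f : X → F)
    (i : Fin a.n) {y : E4} (hy : y ∈ (Restr_φ a hS i).target) :
    fderiv ℝ (fun y => f ((Restr_φ a hS i).symm y : S)) y =
      fderiv ℝ (fun y => f ((a.φ i).symm y)) y := by
  refine EventuallyEq.fderiv_eq ?_
  filter_upwards [(Restr_φ a hS i).open_target.mem_nhds hy] with w hw
  rw [Restr_symm a hS i hw]

theorem Restr_sm {g : X → X} {g' : S → S} (hg : ∀ x, (g' x : X) = g x) {i j : Fin a.n}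
    (h : ContDiffOn ℝ ∞ (fun y => a.φ j (g ((a.φ i).symm y)))
      ((a.φ i).target ∩ (fun y => g ((a.φ i).symm y)) ⁻¹' (a.φ j).source)) :
    ContDiffOn ℝ ∞ (fun y => Restr_φ a hS j (g' ((Restr_φ a hS i).symm y)))
      ((Restr_φ a hS i).target ∩
        (fun y => g' ((Restr_φ a hS i).symm y)) ⁻¹' (Restr_φ a hS j).source) := by
  refine (h.mono fun y hy => ⟨((Restr_target a hS i y).1 hy.1).1, ?_⟩).congr fun y hy => ?_
  · have h1 := (Restr_source a hS j _).1 hy.2
    rw [hg, Restr_symm a hS i hy.1] at h1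
    exact h1
  · rw [Restr_apply, hg, Restr_symm a hS i hy.1]

/-- The restriction of a framed atlas to a clopen set. -/
def Restr_fr : Fr S where
  n := a.n
  φ := Restr_φ a hS
  cover x := (a.cover x).imp fun i hi => (Restr_source a hS i x).2 hi
  convex := Restr_convex a hS
  trans i j := Restr_sm a hS (g := id) (g' := id) (fun _ => rfl) (a.trans i j)
  N := a.N
  e x := a.e x
  e_inj := a.e_inj.comp Subtype.val_injective
  e_sm i := ((a.e_sm i).mono fun y hy => ((Restr_target a hS i y).1 hy).1).congr fun y hy => by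
    rw [Restr_symm a hS i hy]
  V := a.V
  V_sm i p q := (a.V_sm i p q).mono fun y hy => ((Restr_target a hS i y).1 hy).1
  indep i y hy v h := a.indep i y ((Restr_target a hS i y).1 hy).1 v (by
    rw [← Restr_fderiv a hS a.e i hy]
    exact h)

theorem Restr_smMap {g : X → X} {g' : S → S} (hg : ∀ x, (g' x : X) = g x) (h : a.SmMap g) :
    (Restr_fr a hS).SmMap g' := by
  refine ⟨continuous_induced_rng.2 ?_, fun i j => Restr_sm a hS hg (h.2 i j)⟩
  have e : Subtype.val ∘ g' = g ∘ Subtype.val := funext hg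
  rw [e]
  exact h.1.comp continuous_subtype_val

theorem Restr_Jm {g : X → X} {g' : S → S} (hg : ∀ x, (g' x : X) = g x) (i j : Fin a.n) {x : S}
    (hx : (x : X) ∈ (a.φ i).source) : (Restr_fr a hS).Jm g' i j x = a.Jm g i j x := by
  have h1 : Restr_φ a hS i x ∈ (Restr_φ a hS i).target :=
    (Restr_φ a hS i).map_source ((Restr_source a hS i x).2 hx)
  have h2 := Restr_fderiv a hS (fun x => a.φ j (g x)) i h1
  show (a.V j (Restr_φ a hS j (g' x)))⁻¹ * LinearMap.toMatrix'
    (fderiv ℝ (fun y => Restr_φ a hS j (g' ((Restr_φ a hS i).symm y))) (Restr_φ a hS i x) :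
      E4 →ₗ[ℝ] E4) * a.V i (Restr_φ a hS i x) = _
  simp only [Restr_apply, hg] at h2 ⊢
  rw [h2]
  rfl

theorem Restr_all {g : X → X} {g' : S → S} (hg : ∀ x, (g' x : X) = g x)
    {p : Fin a.n → Fin a.n → X → X → M4 → Prop}
    (h : a.All g fun i j x => p i j x (g x) (a.Jm g i j x)) :
    (Restr_fr a hS).All g' fun i j x => p i j x (g' x) ((Restr_fr a hS).Jm g' i j x) := by
  intro i j x hi hj
  have h1 := (Restr_source a hS i x).1 hi
  have h2 := (Restr_source a hS j _).1 hj
  rw [hg] at h2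
  have h3 := h i j x h1 h2
  show p i j x (g' x) ((Restr_fr a hS).Jm g' i j x)
  rw [Restr_Jm a hS hg i j h1, hg]
  exact h3

end Restr

theorem FDyn.exists_restr {a : Fr X} (ho : a.Ori) {k : ℕ} (d : FDyn a k) (h : d.Or) {S : Set X}
    (hS : IsClopen S) [Nonempty S] (inv : ∀ x, d.h x ∈ S ↔ x ∈ S) :
    ∃ (a' : Fr S) (d' : FDyn a' k), a'.Ori ∧ d'.Or ∧ (∀ x : S, (d'.h x : X) = d.h x) ∧
      ∀ x y : S, ‖a'.e x - a'.e y‖ = ‖a.e x - a.e y‖ := by
  let h' : S ≃ₜ S := d.h.subtype fun x => (inv x).symm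
  have e1 : ∀ x : S, (h' x : X) = d.h x := fun _ => rfl
  have e2 : ∀ x : S, (h'.symm x : X) = d.h.symm x := fun _ => rfl
  have e3 : ∀ m, ∀ x : S, (h'^[m] x : X) = d.h^[m] x := fun m =>
    Function.Semiconj.iterate_right (f := Subtype.val) e1 m
  have e0 : ∀ x : S, ((id x : S) : X) = id (x : X) := fun _ => rfl
  refine ⟨Restr_fr a hS, {
    h := h'
    sm := Restr_smMap a hS e1 d.sm
    sm' := Restr_smMap a hS e2 d.sm'
    Q := fun i x => d.Q i x
    Q_cont := fun i => (d.Q_cont i).comp continuous_subtype_val.continuousOn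
      fun x hx => (Restr_source a hS i x).1 hx
    Q_idem := fun i x hx => d.Q_idem i x ((Restr_source a hS i x).1 hx)
    Q_id := Restr_all a hS e0 (p := fun i j x _ J => J * d.Q i x = d.Q j x * J) d.Q_id
    Q_h := Restr_all a hS e1 (p := fun i j x y J => J * d.Q i x = d.Q j y * J) d.Q_h
    δ := d.δ
    L := d.L
    one_le := d.one_le
    small := d.small
    near := fun i x hx => d.near i x ((Restr_source a hS i x).1 hx)
    bd := Restr_all a hS e1
      (p := fun _ _ _ _ J => ∀ v, ‖J *ᵥ v‖ ≤ d.L * ‖v‖ ∧ ‖v‖ ≤ d.L * ‖J *ᵥ v‖) d.bd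
    ε := d.ε
    lim := d.lim
    hyp := fun m => Restr_all a hS (e3 m)
      (p := fun i _ x _ J => ∀ v, (d.Q i x *ᵥ v = v → ‖v‖ ≤ d.ε m * ‖J *ᵥ v‖) ∧
        (d.Q i x *ᵥ v = 0 → ‖J *ᵥ v‖ ≤ d.ε m * ‖v‖)) (d.hyp m) },
    Restr_all a hS e0 (p := fun _ _ _ _ J => IsRot J) ho,
    Restr_all a hS e1 (p := fun i _ x _ J => OrP (d.Q i x) J) h, e1, fun _ _ => rfl⟩

end SW4
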