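import Pool.Agent.P.MP_0a0487_an.SW.ODyn1
import Pool.Agent.P.MP_0a0487_an.SW.Lin4
import Pool.Agent.P.MP_0a0487_an.SW.Misc

/-! The dynamical data on the calculus of a framed manifold. -/

set_option autoImplicit false
set_option linter.unusedSectionVars false

noncomputable section

namespace SW4

open scoped ComplexOrder ContDiff
open Filter Topology

variable {P A : Type} [TopologicalSpace P] [CompactSpace P] [CommRing A] [StarRing A] [Algebra ℂ A]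
  [StarModule ℂ A] {B : Base P A}

open Matrix

variable {X : Type} [TopologicalSpace X] {a : Fr X}

theorem odyn2_graph : ∃ gU gV : M4 → Fin 2 → Fin 4 → ℝ,
    ContinuousOn gU {Q | ∀ v, ‖(Q - P0) *ᵥ v‖ ≤ 1 / 100 * ‖v‖} ∧
    ContinuousOn gV {Q | ∀ v, ‖(Q - P0) *ᵥ v‖ ≤ 1 / 100 * ‖v‖} ∧
    ∀ (Q : M4) (δ : ℝ), Q * Q = Q → δ ≤ 1 / 100 → (∀ v, ‖(Q - P0) *ᵥ v‖ ≤ δ * ‖v‖) →
      GB Q δ (gU Q) (gV Q) := by
  obtain ⟨gU, gV, h1, h2, h3⟩ := exists_graph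
  refine ⟨gU, gV, h1, h2, fun Q δ e1 e2 e3 => ?_⟩
  obtain ⟨a1, a2, a3, a4, a5, a6⟩ := h3 Q δ e1 e2 e3
  exact ⟨a1, a2, a3, a4, a5, a6⟩

theorem odyn2_cancel {R M N : M4} (hR : IsRot R) (h : R * M = R * N) : M = N := by
  have h1 := hR.isOrt.mul_transpose.2
  calc M = Rᵀ * R * M := by rw [h1, Matrix.one_mul]
    _ = Rᵀ * R * N := by rw [Matrix.mul_assoc, h, Matrix.mul_assoc]
    _ = N := by rw [h1, Matrix.one_mul]

theorem odyn2_det {k : ℕ} (d : FDyn a k) {g : X → X}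
    (hQ : a.All g fun i j x => a.Jm g i j x * d.Q i x = d.Q j (g x) * a.Jm g i j x)
    (hO : a.All g fun i j x => OrP (d.Q i x) (a.Jm g i j x)) :
    a.All g fun i j x => 0 < (a.Jm g i j x).det := by
  intro i j x hi hj
  obtain ⟨gU, gV, -, -, hg⟩ := odyn2_graph
  have hδ := d.δ_le
  exact (hg _ d.δ (d.Q_idem i x hi) (by linarith) (d.near i x hi)).det_pos
    (hg _ d.δ (d.Q_idem j _ hj) (by linarith) (d.near j _ hj)) (by linarith) (hQ i j x hi hj)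
    (hO i j x hi hj)

theorem odyn2_contE (G : Calc B) {v : P → Fin 4 → ℝ} (hv : Continuous v) (k : Fin G.N) :
    Continuous fun p => G.dE p (v p) k := by
  have h0 : ∀ i, Continuous fun p => ((v p i : ℝ) : ℂ) := fun i =>
    Complex.continuous_ofReal.comp ((continuous_apply i).comp hv)
  have h1 : ∀ α, Continuous fun p => cx (v p) α := by
    intro α
    have h00 := h0 0
    have h01 := h0 1
    have h02 := h0 2
    have h03 := h0 3
    fin_cases α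
    · exact (h00.add (h01.mul continuous_const)).div_const 2
    · exact (h00.sub (h01.mul continuous_const)).div_const 2
    · exact (h02.add (h03.mul continuous_const)).div_const 2
    · exact (h02.sub (h03.mul continuous_const)).div_const 2
  exact Complex.continuous_re.comp (continuous_finsetSum _ fun α _ =>
    (h1 α).mul (B.ev (G.D α (G.e k))).continuous)

theorem odyn2_contBiv (G : Calc B) {V : P → Fin 2 → Fin 4 → ℝ} (hV : Continuous V)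
    (k l : Fin G.N) : Continuous fun p => G.biv V p k l := by
  have h0 := (continuous_apply 0).comp hV
  have h1 := (continuous_apply 1).comp hV
  exact ((odyn2_contE G h0 k).mul (odyn2_contE G h1 l)).sub
    ((odyn2_contE G h1 k).mul (odyn2_contE G h0 l))

theorem odyn2_biv (G : Calc B) {V : P → Fin 2 → Fin 4 → ℝ} {p q : P} {R : M4}
    (hR : ∀ v, G.dE q (R *ᵥ v) = G.dE p v) {c : Fin 2 → Fin 2 → ℝ}
    (hc : ∀ i, R *ᵥ V p i = c i 0 • V q 0 + c i 1 • V q 1)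
    (h1 : c 0 0 * c 1 1 - c 0 1 * c 1 0 = 1) (k l : Fin G.N) :
    G.biv V p k l = G.biv V q k l := by
  simp only [Calc.biv, ← hR, hc, G.dE_add, G.dE_smul, Pi.add_apply, Pi.smul_apply, smul_eq_mul]
  linear_combination (G.dE q (V q 0) k * G.dE q (V q 1) l - G.dE q (V q 1) k * G.dE q (V q 0) l) * h1

theorem odyn2_uc {G : Calc B} (l : Link a G) {Q : P → M4} {Q' : Fin a.n → X → M4}
    (hQ : ∀ i p, l.π p ∈ (a.φ i).source → l.R i p * Q p = Q' i (l.π p) * l.R i p) {δ : ℝ}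
    {U V : P → Fin 2 → Fin 4 → ℝ} (hU : Continuous U) (hV : Continuous V)
    (hg : ∀ p, GB (Q p) δ (U p) (V p)) :
    (∀ k m, G.UC fun p => G.biv U p k m) ∧ ∀ k m, G.UC fun p => G.biv V p k m := by
  have key : ∀ p q, G.E p = G.E q → ∃ R : M4, IsRot R ∧ (∀ v, G.dE q (R *ᵥ v) = G.dE p v) ∧
      R * Q p = Q q * R := by
    intro p q h
    have hπ := (l.E_eq_iff p q).1 h
    obtain ⟨i, hi⟩ := a.cover (l.π p)
    have hq : l.π q ∈ (a.φ i).source := hπ ▸ hi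
    have rp := l.R_rot i p hi
    have rq := l.R_rot i q hq
    refine ⟨(l.R i q)ᵀ * l.R i p, rq.transpose.mul rp, l.dE_rot hπ hi, odyn2_cancel rq ?_⟩
    have e1 := rq.isOrt.mul_transpose.1
    calc l.R i q * ((l.R i q)ᵀ * l.R i p * Q p) = (l.R i q * (l.R i q)ᵀ) * (l.R i p * Q p) := by
          simp only [Matrix.mul_assoc]
      _ = Q' i (l.π q) * (l.R i q * (l.R i q)ᵀ) * l.R i p := by
          rw [e1, hQ i p hi, hπ, Matrix.one_mul, Matrix.mul_one]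
      _ = (Q' i (l.π q) * l.R i q) * ((l.R i q)ᵀ * l.R i p) := by simp only [Matrix.mul_assoc]
      _ = _ := by rw [← hQ i q hq, Matrix.mul_assoc]
  constructor
  · intro k m
    refine G.uc_of_continuous (odyn2_contBiv G hU k m) fun p q h => ?_
    obtain ⟨R, hR, h1, h2⟩ := key p q h
    obtain ⟨u1, u2, u3, u4⟩ := (hg p).U0
    refine odyn2_biv G h1 (c := fun i j => (R *ᵥ U p i) (![0, 1] j)) (fun i => ?_) ?_ k m
    · have h3 : Q p *ᵥ U p i = U p i := by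
        rw [(hg p).rng]
        fin_cases i <;> simp [u1, u2, u3, u4]
      refine ((hg q).rng _).1 ?_
      rw [Matrix.mulVec_mulVec, ← h2, ← Matrix.mulVec_mulVec, h3]
    · have h3 := hR.top2 (U p 0) (U p 1)
      simp only [top2, u1, u2, u3, u4] at h3
      simp only [Matrix.cons_val_zero, Matrix.cons_val_one]
      linarith
  · intro k m
    refine G.uc_of_continuous (odyn2_contBiv G hV k m) fun p q h => ?_
    obtain ⟨R, hR, h1, h2⟩ := key p q h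
    obtain ⟨u1, u2, u3, u4⟩ := (hg p).V0
    refine odyn2_biv G h1 (c := fun i j => (R *ᵥ V p i) (![2, 3] j)) (fun i => ?_) ?_ k m
    · have h3 : Q p *ᵥ V p i = 0 := by
        rw [(hg p).ker]
        fin_cases i <;> simp [u1, u2, u3, u4]
      refine ((hg q).ker _).1 ?_
      rw [Matrix.mulVec_mulVec, ← h2, ← Matrix.mulVec_mulVec, h3, Matrix.mulVec_zero]
    · have h3 := hR.bot2 (V p 0) (V p 1)
      simp only [bot2, u1, u2, u3, u4] at h3
      simp only [Matrix.cons_val_zero, Matrix.cons_val_one]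
      linarith

/-- Linear algebra of conjugation by rotations. -/
theorem odyn2_conj {R R' Q Q' J Q₁ Q₁' J₁ : M4} (hR : IsRot R) (hR' : IsRot R')
    (h1 : R * Q₁ = Q * R) (h1' : R' * Q₁' = Q' * R') (h2 : R' * J₁ = J * R)
    (hJ : J * Q = Q' * J) : J₁ * Q₁ = Q₁' * J₁ ∧
      (∀ v, Q₁ *ᵥ v = v → Q *ᵥ (R *ᵥ v) = R *ᵥ v) ∧ (∀ v, Q₁ *ᵥ v = 0 → Q *ᵥ (R *ᵥ v) = 0) ∧
      (∀ (c : ℝ) v, ‖R *ᵥ v‖ ≤ c * ‖J *ᵥ (R *ᵥ v)‖ → ‖v‖ ≤ 4 * |c| * ‖J₁ *ᵥ v‖) ∧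
      ∀ (c : ℝ) v, ‖J *ᵥ (R *ᵥ v)‖ ≤ c * ‖R *ᵥ v‖ → ‖J₁ *ᵥ v‖ ≤ 4 * |c| * ‖v‖ := by
  have e : ∀ v, J *ᵥ (R *ᵥ v) = R' *ᵥ (J₁ *ᵥ v) := fun v => by
    rw [Matrix.mulVec_mulVec, Matrix.mulVec_mulVec, h2]
  refine ⟨odyn2_cancel hR' ?_, fun v hv => ?_, fun v hv => ?_, fun c v hv => ?_, fun c v hv => ?_⟩
  · rw [← Matrix.mul_assoc, h2, Matrix.mul_assoc, h1, ← Matrix.mul_assoc, hJ, Matrix.mul_assoc,
      ← h2, ← Matrix.mul_assoc, ← h1', Matrix.mul_assoc]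
  · rw [Matrix.mulVec_mulVec, ← h1, ← Matrix.mulVec_mulVec, hv]
  · rw [Matrix.mulVec_mulVec, ← h1, ← Matrix.mulVec_mulVec, hv, Matrix.mulVec_zero]
  · rw [e] at hv
    have a1 := (hR.isOrt.norm_le v).2
    have a2 := (hR'.isOrt.norm_le (J₁ *ᵥ v)).1
    have a3 : c * ‖R' *ᵥ (J₁ *ᵥ v)‖ ≤ |c| * (2 * ‖J₁ *ᵥ v‖) :=
      (mul_le_mul_of_nonneg_right (le_abs_self c) (norm_nonneg _)).trans
        (mul_le_mul_of_nonneg_left a2 (abs_nonneg c))
    linarith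
  · rw [e] at hv
    have a1 := (hR.isOrt.norm_le v).1
    have a2 := (hR'.isOrt.norm_le (J₁ *ᵥ v)).2
    have a3 : c * ‖R *ᵥ v‖ ≤ |c| * (2 * ‖v‖) :=
      (mul_le_mul_of_nonneg_right (le_abs_self c) (norm_nonneg _)).trans
        (mul_le_mul_of_nonneg_left a1 (abs_nonneg c))
    linarith

theorem odyn2_chain {G : Pre B} (l : Link a G.toCalc) {f : Map G} {g : X → X}
    (hf : ∀ p, l.π (f.pt p) = g (l.π p)) (hc : a.Chain g) : f.ChainTr := by
  intro ε hε p q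
  have key : ∀ y, Relation.ReflTransGen (fun x y => ‖a.e (g x) - a.e y‖ ≤ ε) (g (l.π p)) y →
      ∀ q, l.π q = y →
        Relation.ReflTransGen (fun x y => ‖G.E (f.pt x) - G.E y‖ ≤ ε) p q := by
    intro y hy
    induction hy with
    | refl =>
      intro q hq
      refine Relation.ReflTransGen.single ?_
      rw [l.E_dist, hf, hq, sub_self, norm_zero]
      exact hε.le
    | @tail y z _ h ih =>
      intro q hq
      obtain ⟨q', hq'⟩ := l.π_surj y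
      refine (ih q' hq').tail ?_
      rw [l.E_dist, hf, hq, hq']
      exact h
  exact key _ (hc ε hε _ _) q rfl

theorem odyn2_comp {G : Pre B} (l : Link a G.toCalc) {f : ℕ → Map G} {g : X → X}
    (hf : ∀ m p, l.π ((f m).pt p) = g^[m] (l.π p)) (m n : ℕ) (s : A) (hs : s ∈ B.W 0) :
    (f (m + n)).Φ s = (f m).Φ ((f n).Φ s) := by
  refine B.ext' fun p => ?_
  obtain ⟨u, -, hu⟩ := l.fn s hs
  rw [(f _).ev_eq s hs, (f m).ev_eq _ ((f n).mem s hs), (f n).ev_eq s hs, hu, hu, hf, hf, hf,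
    add_comm m n, Function.iterate_add_apply]

/-- The estimates for the inverse iterates in charts. -/
theorem odyn2_inv {k : ℕ} (d : FDyn a k) (m : ℕ) {i j : Fin a.n} {x : X}
    (hi : x ∈ (a.φ i).source) (hj : d.h.symm^[m] x ∈ (a.φ j).source) :
    d.h^[m] (d.h.symm^[m] x) ∈ (a.φ i).source ∧ ∀ v,
      a.Jm d.h^[m] j i (d.h.symm^[m] x) *ᵥ (a.Jm d.h.symm^[m] i j x *ᵥ v) = v := by
  have e : d.h^[m] (d.h.symm^[m] x) = x :=
    Function.RightInverse.iterate d.h.apply_symm_apply m x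
  have hi' : d.h^[m] (d.h.symm^[m] x) ∈ (a.φ i).source := by rw [e]; exact hi
  refine ⟨hi', fun v => ?_⟩
  have h := (d.Jm_symm m hj hi').2
  rw [e] at h
  rw [Matrix.mulVec_mulVec, h, Matrix.one_mulVec]

theorem Link.exists_dyn {G : Pre B} {t : Atl G.toCalc} (hI : IsInt G t) (l : Link a G.toCalc)
    (ho : a.Ori) (d : FDyn a 4) (h1 : d.Or) (h2 : d.Ch) : Nonempty (Dyn G) := by
  obtain ⟨Q, Qc, Qi, Qn, QR⟩ := l.exists_Q d
  obtain ⟨gU, gV, cU, cV, hg⟩ := odyn2_graph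
  have hδ := d.δ_le
  have hL := d.one_le
  have hb : ∀ p, GB (Q p) (4 * d.δ) (gU (Q p)) (gV (Q p)) := fun p =>
    hg _ _ (Qi p) (by linarith) (Qn p)
  have hm : ∀ p, Q p ∈ {Q : M4 | ∀ v, ‖(Q - P0) *ᵥ v‖ ≤ 1 / 100 * ‖v‖} := fun p v =>
    (Qn p v).trans (mul_le_mul_of_nonneg_right (by linarith) (norm_nonneg _))
  obtain ⟨ucU, ucV⟩ := odyn2_uc l QR (cU.comp_continuous Qc hm) (cV.comp_continuous Qc hm) hb
  have li : ∀ m, Function.LeftInverse d.h.symm^[m] d.h^[m] := fun m =>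
    Function.LeftInverse.iterate d.h.symm_apply_apply m
  have ri : ∀ m, Function.RightInverse d.h.symm^[m] d.h^[m] := fun m =>
    Function.RightInverse.iterate d.h.apply_symm_apply m
  choose f f1 f2 using fun m => l.exists_map hI (d.sm.iterate m) (d.sm'.iterate m) (li m) (ri m)
    (odyn2_det d (d.Q_iter m) (d.or_iter ho h1 m).1)
  choose g g1 g2 using fun m => l.exists_map hI (d.sm'.iterate m) (d.sm.iterate m) (ri m) (li m)
    (odyn2_det d (d.Q_iter_symm m) (d.or_iter ho h1 m).2)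
  have lim : Tendsto (fun m => 4 * |d.ε m|) atTop (𝓝 0) := by
    simpa using d.lim.abs.const_mul 4
  have hF : ∀ m p, (f m).J p * Q p = Q ((f m).pt p) * (f m).J p ∧ OrP (Q p) ((f m).J p) ∧
      (∀ v, Q p *ᵥ v = v → ‖v‖ ≤ 4 * |d.ε m| * ‖(f m).J p *ᵥ v‖) ∧
      (∀ v, Q p *ᵥ v = 0 → ‖(f m).J p *ᵥ v‖ ≤ 4 * |d.ε m| * ‖v‖) ∧
      (m = 1 → ∀ v, ‖(f m).J p *ᵥ v‖ ≤ 4 * d.L * ‖v‖ ∧ ‖v‖ ≤ 4 * d.L * ‖(f m).J p *ᵥ v‖) := by
    intro m p
    obtain ⟨i, hi⟩ := a.cover (l.π p)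
    obtain ⟨j, hj⟩ := a.cover (d.h^[m] (l.π p))
    have hj' : l.π ((f m).pt p) ∈ (a.φ j).source := by rw [f1]; exact hj
    have e1 := QR j _ hj'
    rw [f1] at e1
    obtain ⟨c1, c2, c3, c4, c5⟩ := odyn2_conj (l.R_rot i p hi) (l.R_rot j _ hj') (QR i p hi) e1
      (f2 m i j p hi hj) (d.Q_iter m i j _ hi hj)
    refine ⟨c1, ((d.or_iter ho h1 m).1 i j _ hi hj).conj (l.R_rot i p hi) (l.R_rot j _ hj')
      (QR i p hi) (f2 m i j p hi hj), fun v hv => c4 _ v ((d.hyp m i j _ hi hj _).1 (c2 v hv)),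
      fun v hv => c5 _ v ((d.hyp m i j _ hi hj _).2 (c3 v hv)), ?_⟩
    rintro rfl v
    have e2 := d.bd i j _ hi hj (l.R i p *ᵥ v)
    have e3 := c5 _ v e2.1
    have e4 := c4 _ v e2.2
    rw [abs_of_nonneg (by linarith)] at e3 e4
    exact ⟨e3, e4⟩
  have hG : ∀ m p, (g m).J p * Q p = Q ((g m).pt p) * (g m).J p ∧ OrP (Q p) ((g m).J p) ∧
      (∀ v, Q p *ᵥ v = 0 → ‖v‖ ≤ 4 * |d.ε m| * ‖(g m).J p *ᵥ v‖) ∧
      (∀ v, Q p *ᵥ v = v → ‖(g m).J p *ᵥ v‖ ≤ 4 * |d.ε m| * ‖v‖) ∧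
      (m = 1 → ∀ v, ‖(g m).J p *ᵥ v‖ ≤ 4 * d.L * ‖v‖ ∧ ‖v‖ ≤ 4 * d.L * ‖(g m).J p *ᵥ v‖) := by
    intro m p
    obtain ⟨i, hi⟩ := a.cover (l.π p)
    obtain ⟨j, hj⟩ := a.cover (d.h.symm^[m] (l.π p))
    have hj' : l.π ((g m).pt p) ∈ (a.φ j).source := by rw [g1]; exact hj
    have e1 := QR j _ hj'
    rw [g1] at e1
    have e0 := d.Q_iter_symm m i j _ hi hj
    obtain ⟨c1, c2, c3, c4, c5⟩ := odyn2_conj (l.R_rot i p hi) (l.R_rot j _ hj') (QR i p hi) e1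
      (g2 m i j p hi hj) e0
    obtain ⟨hi', inv⟩ := odyn2_inv d m hi hj
    have e5 : ∀ w, d.Q j (d.h.symm^[m] (l.π p)) *ᵥ (a.Jm d.h.symm^[m] i j (l.π p) *ᵥ w) =
        a.Jm d.h.symm^[m] i j (l.π p) *ᵥ (d.Q i (l.π p) *ᵥ w) := fun w => by
      rw [Matrix.mulVec_mulVec, Matrix.mulVec_mulVec, e0]
    refine ⟨c1, ((d.or_iter ho h1 m).2 i j _ hi hj).conj (l.R_rot i p hi) (l.R_rot j _ hj')
      (QR i p hi) (g2 m i j p hi hj), fun v hv => c4 _ v ?_, fun v hv => c5 _ v ?_, ?_⟩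
    · have e6 := (d.hyp m j i _ hj hi' (a.Jm d.h.symm^[m] i j (l.π p) *ᵥ (l.R i p *ᵥ v))).2
        (by rw [e5, c3 v hv, Matrix.mulVec_zero])
      rwa [inv] at e6
    · have e6 := (d.hyp m j i _ hj hi' (a.Jm d.h.symm^[m] i j (l.π p) *ᵥ (l.R i p *ᵥ v))).1
        (by rw [e5, c2 v hv])
      rwa [inv] at e6
    · rintro rfl v
      have e2 := d.bd j i _ hj hi' (a.Jm d.h.symm^[1] i j (l.π p) *ᵥ (l.R i p *ᵥ v))
      have inv' : a.Jm d.h j i (d.h.symm^[1] (l.π p)) *ᵥ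
        (a.Jm d.h.symm^[1] i j (l.π p) *ᵥ (l.R i p *ᵥ v)) = l.R i p *ᵥ v := inv _
      rw [inv'] at e2
      have e3 := c5 _ v e2.2
      have e4 := c4 _ v e2.1
      rw [abs_of_nonneg (by linarith)] at e3 e4
      exact ⟨e3, e4⟩
  have sm : 4 * d.δ * (4 * d.L) ^ 4 ≤ 1 / 8 := by
    have := d.small
    rw [mul_pow]
    linarith
  refine ⟨⟨fun p => gU (Q p), fun p => gV (Q p), ⟨fun p => (hb p).U0, fun p => (hb p).V0,
    fun p i => ?_, fun p i => ?_⟩, ucU, ucV, t.tay,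
    ⟨f, odyn2_comp l f1, _, lim, fun m p => ?_, fun m hm => odyn2_chain l (f1 m) (h2 m hm).1⟩,
    ⟨g, odyn2_comp l g1, _, lim, fun m p => ?_, fun m hm => odyn2_chain l (g1 m) (h2 m hm).2⟩,
    fun p => ?_, fun p => ?_⟩⟩
  · obtain ⟨e1, e2⟩ := (hb p).U1 i
    constructor <;> linarith
  · obtain ⟨e1, e2⟩ := (hb p).V1 i
    constructor <;> linarith
  · obtain ⟨e1, e2, e3, e4, -⟩ := hF m p
    exact (hb p).hypU (hb _) (by linarith) e1 e2 e3 e4
  · obtain ⟨e1, e2, e3, e4, -⟩ := hG m p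
    exact (hb p).hypV (hb _) (by linarith) e1 e2 e3 e4
  · obtain ⟨e1, e2, -, -, e5⟩ := hF 1 p
    exact (hb p).blk (hb _) e1 e2 (by linarith) sm (by linarith) (e5 rfl)
  · obtain ⟨e1, e2, -, -, e5⟩ := hG 1 p
    exact (hb p).blk (hb _) e1 e2 (by linarith) sm (by linarith) (e5 rfl)

end SW4
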