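import Pool.Agent.P.MP_0a0487_an.SW.AtlDefs
import Pool.Agent.P.MP_0a0487_an.SW.Idem

/-! Left inverses of injective linear maps, ranks of close idempotents. -/

set_option autoImplicit false
set_option linter.unusedSectionVars false

noncomputable section

namespace SW4

open scoped ContDiff InnerProductSpace
open Filter Topology

variable {F : Type} [NormedAddCommGroup F] [InnerProductSpace ℝ F] [FiniteDimensional ℝ F]

/-- The transpose of `D`. -/
def proj1Adj (D : E4 →L[ℝ] F) : F →L[ℝ] E4 :=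
  ContinuousLinearMap.pi fun b => innerSL ℝ (D (Pi.single b 1))

theorem proj1Adj_apply (D : E4 →L[ℝ] F) (u : F) (b : Fin 4) :
    proj1Adj D u b = ⟪D (Pi.single b 1), u⟫_ℝ := rfl

theorem proj1_inner (D : E4 →L[ℝ] F) (w : E4) (u : F) :
    ⟪D w, u⟫_ℝ = ∑ b, w b * proj1Adj D u b := by
  conv_lhs => rw [pi_eq_sum_univ' w]
  rw [map_sum, sum_inner]
  refine Finset.sum_congr rfl fun b _ => ?_
  rw [map_smul, real_inner_smul_left, proj1Adj_apply]

theorem proj1Adj_sm : ContDiff ℝ ∞ (proj1Adj : (E4 →L[ℝ] F) → F →L[ℝ] E4) := by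
  refine contDiff_clm_apply_iff.2 fun u => contDiff_pi.2 fun b => ?_
  exact ContDiff.inner ℝ (f := fun D : E4 →L[ℝ] F => D (Pi.single b 1)) (g := fun _ => u)
    (by fun_prop) contDiff_const

theorem proj1_unit {D : E4 →L[ℝ] F} (h : Function.Injective D) : IsUnit (proj1Adj D ∘L D) := by
  have h1 : Function.Injective (proj1Adj D ∘L D) := by
    refine (injective_iff_map_eq_zero _).2 fun w hw => h ?_
    have h2 := proj1_inner D w (D w)
    rw [show proj1Adj D (D w) = 0 from hw] at h2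
    simp only [Pi.zero_apply, mul_zero, Finset.sum_const_zero] at h2
    rw [map_zero]
    exact inner_self_eq_zero.1 h2
  rw [ContinuousLinearMap.isUnit_iff_bijective]
  exact ⟨h1, LinearMap.injective_iff_surjective.1
    (show Function.Injective (proj1Adj D ∘L D : E4 →L[ℝ] E4).toLinearMap from h1)⟩

/-- The left inverse of `D` that kills the orthogonal complement of the range. -/
def proj1Li (D : E4 →L[ℝ] F) : F →L[ℝ] E4 := Ring.inverse (proj1Adj D ∘L D) ∘L proj1Adj D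

theorem proj1Li_apply {D : E4 →L[ℝ] F} (h : Function.Injective D) (w : E4) :
    proj1Li D (D w) = w := by
  have h1 := Ring.inverse_mul_cancel _ (proj1_unit h)
  exact DFunLike.congr_fun h1 w

theorem proj1Adj_li {D : E4 →L[ℝ] F} (h : Function.Injective D) (u : F) :
    proj1Adj D (D (proj1Li D u)) = proj1Adj D u := by
  have h1 := Ring.mul_inverse_cancel _ (proj1_unit h)
  exact DFunLike.congr_fun h1 (proj1Adj D u)

theorem proj1Li_sm {D : E4 →L[ℝ] F} (h : Function.Injective D) :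
    ContDiffAt ℝ ∞ (proj1Li : (E4 →L[ℝ] F) → F →L[ℝ] E4) D := by
  obtain ⟨u, hu⟩ := proj1_unit h
  have h1 : ContDiffAt ℝ ∞ (Ring.inverse : (E4 →L[ℝ] E4) → E4 →L[ℝ] E4) (proj1Adj D ∘L D) :=
    hu ▸ contDiffAt_ringInverse ℝ u
  have h2 : ContDiff ℝ ∞ fun D : E4 →L[ℝ] F => proj1Adj D ∘L D :=
    proj1Adj_sm.clm_comp contDiff_id
  exact (ContDiffAt.comp (f := fun D : E4 →L[ℝ] F => proj1Adj D ∘L D) D h1 h2.contDiffAt).clm_comp
    proj1Adj_sm.contDiffAt

/-- Change of coordinates. -/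
theorem proj1Li_comp {D D' : E4 →L[ℝ] F} {T : E4 →L[ℝ] E4} (h : Function.Injective D)
    (h' : Function.Injective D') (e : ∀ w, D' w = D (T w)) (u : F) :
    T (proj1Li D' u) = proj1Li D u := by
  have hT : Function.Surjective T := LinearMap.injective_iff_surjective.1
    (show Function.Injective T.toLinearMap from fun a b hab => h' (by
      rw [e, e]; exact congrArg D hab))
  have h1 : proj1Adj D (D (T (proj1Li D' u))) = proj1Adj D u := by
    funext b
    obtain ⟨w, hw⟩ := hT (Pi.single b 1)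
    rw [proj1Adj_apply, proj1Adj_apply, ← hw, ← e, ← e, proj1_inner, proj1_inner, proj1Adj_li h']
  rw [← proj1Li_apply h (T (proj1Li D' u))]
  exact congrArg (Ring.inverse (proj1Adj D ∘L D) : E4 →L[ℝ] E4) h1

theorem proj1_rank_le {P P' : F →L[ℝ] F} (hP : ∀ u, P (P u) = P u) (h : ‖P - P'‖ < 1) :
    Module.finrank ℝ (LinearMap.range P.toLinearMap) ≤
      Module.finrank ℝ (LinearMap.range P'.toLinearMap) := by
  refine LinearMap.finrank_le_finrank_of_injective
    (f := P'.toLinearMap.rangeRestrict ∘ₗ (LinearMap.range P.toLinearMap).subtype)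
    ((injective_iff_map_eq_zero _).2 ?_)
  rintro ⟨_, u, rfl⟩ hu
  have h1 : P' (P u) = 0 := congrArg Subtype.val hu
  have h2 := (P - P').le_opNorm (P u)
  rw [sub_apply, hP, h1, sub_zero] at h2
  refine Subtype.ext (norm_le_zero_iff.1 ?_)
  show ‖P u‖ ≤ 0
  nlinarith [norm_nonneg (P u)]

theorem proj1_rank_eq {P P' : F →L[ℝ] F} (hP : ∀ u, P (P u) = P u) (hP' : ∀ u, P' (P' u) = P' u)
    (h : ‖P - P'‖ < 1) : Module.finrank ℝ (LinearMap.range P.toLinearMap) =
      Module.finrank ℝ (LinearMap.range P'.toLinearMap) :=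
  le_antisymm (proj1_rank_le hP h) (proj1_rank_le hP' (by rwa [norm_sub_rev]))

theorem proj1_rank_conj {D : E4 →L[ℝ] F} (h : Function.Injective D) (Q : E4 →L[ℝ] E4) :
    Module.finrank ℝ (LinearMap.range ((D ∘L Q) ∘L proj1Li D).toLinearMap) =
      Module.finrank ℝ (LinearMap.range Q.toLinearMap) := by
  have h1 : LinearMap.range ((D ∘L Q) ∘L proj1Li D).toLinearMap =
      (LinearMap.range Q.toLinearMap).map D.toLinearMap := by
    ext v
    constructor
    · rintro ⟨u, rfl⟩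
      exact ⟨_, ⟨_, rfl⟩, rfl⟩
    · rintro ⟨_, ⟨w, rfl⟩, rfl⟩
      exact ⟨D w, congrArg (fun a => D (Q a)) (proj1Li_apply h w)⟩
  rw [h1]
  exact (Submodule.equivMapOfInjective _ h _).finrank_eq.symm

theorem proj1_rank_sub {Q : E4 →L[ℝ] E4} (hQ : ∀ w, Q (Q w) = Q w)
    (h : Module.finrank ℝ (LinearMap.range Q.toLinearMap) = 2) :
    Module.finrank ℝ (LinearMap.range (1 - Q : E4 →L[ℝ] E4).toLinearMap) = 2 := by
  have h1 : LinearMap.range (1 - Q : E4 →L[ℝ] E4).toLinearMap = LinearMap.ker Q.toLinearMap := by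
    ext v
    constructor
    · rintro ⟨w, rfl⟩
      simp [hQ]
    · intro h
      exact ⟨v, by simpa using h⟩
  have h2 := Q.toLinearMap.finrank_range_add_finrank_ker
  rw [h, Module.finrank_fin_fun] at h2
  rw [h1]
  omega

/-- A smooth idempotent below `Θ` close to a given one. -/
theorem proj1_ring (R : Type) [NormedRing R] [NormedAlgebra ℝ R] [CompleteSpace R] {K δ : ℝ}
    (hK : 1 ≤ K) (hδ : 0 < δ) : ∃ η > 0, ∃ q : R × R → R, ∀ Θ P S : R, Θ * Θ = Θ → P * P = P →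
      Θ * P = P → P * Θ = P → ‖Θ‖ ≤ K → ‖P‖ ≤ K → ‖S - P‖ ≤ η →
      ContDiffAt ℝ ∞ q (Θ, S) ∧ q (Θ, S) * q (Θ, S) = q (Θ, S) ∧ Θ * q (Θ, S) = q (Θ, S) ∧
        q (Θ, S) * Θ = q (Θ, S) ∧ ‖q (Θ, S) - P‖ ≤ δ := by
  obtain ⟨pr, η, C, hη, hC, h⟩ := exists_idem R
  obtain ⟨a, ha, a1, a2, a3⟩ : ∃ a > 0, a ≤ 1 ∧ a * (2 * K + 2) < η ∧
      (C * (K + 2) * (2 * K + 2) + 1) * K * a ≤ δ := by
    have c1 : Tendsto (fun a : ℝ => a * (2 * K + 2)) (𝓝 0) (𝓝 (0 * (2 * K + 2))) :=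
      Continuous.tendsto (by fun_prop) 0
    have c2 : Tendsto (fun a : ℝ => (C * (K + 2) * (2 * K + 2) + 1) * K * a) (𝓝 0)
      (𝓝 ((C * (K + 2) * (2 * K + 2) + 1) * K * 0)) := Continuous.tendsto (by fun_prop) 0
    have e := (eventually_le_nhds (zero_lt_one' ℝ)).and
      ((c1.eventually (eventually_lt_nhds (b := η) (by rwa [zero_mul]))).and
        (c2.eventually (eventually_le_nhds (b := δ) (by rwa [mul_zero]))))
    exact (eventually_mem_nhdsWithin.and (e.filter_mono nhdsWithin_le_nhds) :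
      ∀ᶠ a in 𝓝[>] (0 : ℝ), _).exists
  have hK0 : 0 < K := one_pos.trans_le hK
  refine ⟨a / (K * K), by positivity, fun p => pr (p.1 * p.2 * p.1) * p.1,
    fun Θ P S h1 h2 h3 h4 n1 n2 n3 => ?_⟩
  have n4 : ‖Θ * S * Θ - P‖ ≤ a := by
    have e : Θ * S * Θ - P = Θ * (S - P) * Θ := by rw [mul_sub, sub_mul, h3, h4]
    rw [e]
    calc _ ≤ ‖Θ‖ * ‖S - P‖ * ‖Θ‖ :=
          (norm_mul_le _ _).trans (mul_le_mul_of_nonneg_right (norm_mul_le _ _) (norm_nonneg _))
      _ ≤ K * (a / (K * K)) * K := by gcongr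
      _ = a := by field_simp
  have c1 : Θ * (Θ * S * Θ) = Θ * S * Θ * Θ := by
    rw [← mul_assoc, ← mul_assoc, h1, mul_assoc _ Θ Θ, h1]
  have c0 : ContDiffAt ℝ ∞ (fun p : R × R => p.1 * p.2 * p.1) (Θ, S) := by fun_prop
  generalize hx : Θ * S * Θ = x at n4 c1
  have n5 : ‖x‖ ≤ K + 1 := by linarith [norm_le_norm_add_norm_sub' x P]
  have n6 : ‖x * x - x‖ ≤ a * (2 * K + 2) := by
    have e : x * x - x = (x - P) * x + P * (x - P) - (x - P) := by
      rw [sub_mul, mul_sub, h2]; abel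
    rw [e]
    calc _ ≤ ‖x - P‖ * ‖x‖ + ‖P‖ * ‖x - P‖ + ‖x - P‖ := (norm_sub_le _ _).trans
          (add_le_add_left ((norm_add_le _ _).trans (add_le_add (norm_mul_le _ _) (norm_mul_le _ _))) _)
      _ ≤ a * (K + 1) + K * a + a := by gcongr
      _ = _ := by ring
  obtain ⟨p1, p2, p3, p4⟩ := h x (n6.trans_lt a2)
  have c2 := p3 Θ c1
  simp only [hx]
  refine ⟨((hx ▸ p1 : ContDiffAt ℝ ∞ pr (Θ * S * Θ)).comp (Θ, S) c0).mul contDiffAt_fst,
    ?_, ?_, ?_, ?_⟩
  · rw [mul_assoc, ← mul_assoc Θ, c2, mul_assoc _ Θ Θ, h1, ← mul_assoc, p2]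
  · rw [← mul_assoc, c2, mul_assoc, h1]
  · rw [mul_assoc, h1]
  · have e : pr x * Θ - P = (pr x - x + (x - P)) * Θ := by
      rw [sub_add_sub_cancel, sub_mul, h4]
    rw [e]
    calc _ ≤ (‖pr x - x‖ + ‖x - P‖) * ‖Θ‖ :=
          (norm_mul_le _ _).trans (mul_le_mul_of_nonneg_right (norm_add_le _ _) (norm_nonneg _))
      _ ≤ (C * (1 + (K + 1)) * (a * (2 * K + 2)) + a) * K := by
          gcongr
          exact p4.trans (by gcongr)
      _ = (C * (K + 2) * (2 * K + 2) + 1) * K * a := by ring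
      _ ≤ δ := a3

end SW4
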