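import Pool.Agent.P.MP_0a0487_an.SW.FrDefs
import Pool.Agent.P.MP_0a0487_an.SW.Idem
import Pool.Agent.P.MP_0a0487_an.SW.Proj1AuxA

/-! Smooth approximation of the invariant splitting. -/

set_option autoImplicit false
set_option linter.unusedSectionVars false

noncomputable section

namespace SW4

open scoped ContDiff
open Filter Topology Matrix

variable {M : Type} [TopologicalSpace M]

namespace CA

variable (c : CA M)

/-- Functions that are smooth in all charts. -/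
def Proj1Sm {V : Type} [NormedAddCommGroup V] [NormedSpace ℝ V] (h : M → V) : Prop :=
  ∀ i, ContDiffOn ℝ ∞ (fun y => h ((c.φ i).symm y)) (c.φ i).target

theorem proj1_cont_of {V : Type} [TopologicalSpace V] {h : M → V}
    (H : ∀ i, ContinuousOn h (c.φ i).source) : Continuous h :=
  continuous_iff_continuousAt.2 fun x => by
    obtain ⟨i, hi⟩ := c.cover x
    exact (H i).continuousAt ((c.φ i).open_source.mem_nhds hi)

theorem proj1_contOn {V : Type} [TopologicalSpace V] {h : M → V} {i : c.ι}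
    (H : ContinuousOn (fun y => h ((c.φ i).symm y)) (c.φ i).target) :
    ContinuousOn h (c.φ i).source :=
  (H.comp (c.φ i).continuousOn (c.φ i).mapsTo).congr fun x hx => by
    simp only [Function.comp_apply, (c.φ i).left_inv hx]

theorem e_cont : Continuous c.e :=
  c.proj1_cont_of fun i => c.proj1_contOn (c.e_sm i).continuousOn

theorem proj1_ev {g : M → M} (hg : g ∈ ({id, ⇑c.f, ⇑c.f.symm} : Set (M → M))) {i j : c.ι}
    {x : M} (hi : x ∈ (c.φ i).source) (hj : g x ∈ (c.φ j).source) :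
    (c.φ i).target ∩ (fun y => g ((c.φ i).symm y)) ⁻¹' (c.φ j).source ∈ 𝓝 (c.φ i x) := by
  have h : Continuous g := by
    rcases hg with rfl | rfl | rfl
    exacts [continuous_id, c.f.continuous, c.f.symm.continuous]
  exact inter_mem ((c.φ i).open_target.mem_nhds ((c.φ i).map_source hi))
    (((h.tendsto x).comp ((c.φ i).tendsto_symm hi)) ((c.φ j).open_source.mem_nhds hj))

theorem proj1_eq {V : Type} (h : M → V) {g : M → M}
    (hg : g ∈ ({id, ⇑c.f, ⇑c.f.symm} : Set (M → M))) {i j : c.ι}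
    {x : M} (hi : x ∈ (c.φ i).source) (hj : g x ∈ (c.φ j).source) :
    (fun y => h (g ((c.φ i).symm y))) =ᶠ[𝓝 (c.φ i x)]
      (fun z => h ((c.φ j).symm z)) ∘ fun y => c.φ j (g ((c.φ i).symm y)) := by
  filter_upwards [c.proj1_ev hg hi hj] with y hy
  simp only [Function.comp_apply, (c.φ j).left_inv hy.2]

theorem proj1_at {V : Type} [NormedAddCommGroup V] [NormedSpace ℝ V] {h : M → V}
    (H : c.Proj1Sm h) {g : M → M} {i j : c.ι}
    {x : M} (hi : x ∈ (c.φ i).source) (hj : g x ∈ (c.φ j).source) :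
    ContDiffAt ℝ ∞ (fun z => h ((c.φ j).symm z)) (c.φ j (g ((c.φ i).symm (c.φ i x)))) := by
  rw [(c.φ i).left_inv hi]
  exact (H j).contDiffAt ((c.φ j).open_target.mem_nhds ((c.φ j).map_source hj))

theorem proj1_sm_comp {V : Type} [NormedAddCommGroup V] [NormedSpace ℝ V] {h : M → V}
    (H : c.Proj1Sm h) {g : M → M} (hg : g ∈ ({id, ⇑c.f, ⇑c.f.symm} : Set (M → M))) :
    c.Proj1Sm fun x => h (g x) := by
  intro i y hy
  obtain ⟨x, hi, rfl⟩ : ∃ x ∈ (c.φ i).source, c.φ i x = y :=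
    ⟨_, (c.φ i).map_target hy, (c.φ i).right_inv hy⟩
  obtain ⟨j, hj⟩ := c.cover (g x)
  exact ((ContDiffAt.comp (f := fun y => c.φ j (g ((c.φ i).symm y))) (c.φ i x) (c.proj1_at H hi hj)
    ((c.sm g hg i j).contDiffAt
    (c.proj1_ev hg hi hj))).congr_of_eventuallyEq (c.proj1_eq h hg hi hj)).contDiffWithinAt

theorem proj1_sm_iter (m : ℕ) : c.Proj1Sm fun x => c.e (c.f^[m] x) := by
  induction m with
  | zero => exact c.e_sm
  | succ m ih => exact c.proj1_sm_comp ih (Or.inr (Or.inl rfl))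

/-- The chain rule for a change of chart or for the diffeomorphism. -/
theorem De_comp {g : M → M} (hg : g ∈ ({id, ⇑c.f, ⇑c.f.symm} : Set (M → M))) (m : ℕ) {i j : c.ι}
    {x : M} (hi : x ∈ (c.φ i).source) (hj : g x ∈ (c.φ j).source) (w : E4) :
    c.De (fun x => c.f^[m] (g x)) i x w =
      c.De c.f^[m] j (g x) (fderiv ℝ (fun y => c.φ j (g ((c.φ i).symm y))) (c.φ i x) w) := by
  have h1 := (c.proj1_at (c.proj1_sm_iter m) hi hj).differentiableAt (by simp)
  have h2 := ((c.sm g hg i j).contDiffAt (c.proj1_ev hg hi hj)).differentiableAt (by simp)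
  have h3 := (c.proj1_eq (fun x => c.e (c.f^[m] x)) hg hi hj).fderiv_eq (𝕜 := ℝ)
  rw [fderiv_comp (f := fun y => c.φ j (g ((c.φ i).symm y))) (c.φ i x) h1 h2,
    (c.φ i).left_inv hi] at h3
  exact DFunLike.congr_fun h3 w

theorem proj1_De_sm (m : ℕ) (i : c.ι) :
    ContDiffOn ℝ ∞ (fun y => c.De c.f^[m] i ((c.φ i).symm y)) (c.φ i).target :=
  ((c.proj1_sm_iter m i).fderiv_of_isOpen (c.φ i).open_target (by simp)).congr fun y hy => by
    rw [De, (c.φ i).right_inv hy]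

theorem proj1_inj {i : c.ι} {x : M} (hi : x ∈ (c.φ i).source) : Function.Injective (c.De id i x) :=
  c.imm i _ ((c.φ i).map_source hi)

theorem proj1_inj' {i : c.ι} {x : M} (hi : x ∈ (c.φ i).source) :
    Function.Injective (c.De c.f i x) := by
  obtain ⟨j, hj⟩ := c.cover (c.f x)
  have h1 := fun w => c.De_comp (Or.inr (Or.inl rfl)) 0 hi hj w
  have h2 := fun w => c.De_comp (Or.inr (Or.inr rfl)) 1 hj
    (show c.f.symm (c.f x) ∈ (c.φ i).source by rwa [c.f.symm_apply_apply]) w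
  simp only [Function.iterate_one, Homeomorph.apply_symm_apply, Homeomorph.symm_apply_apply] at h2
  have h3 : Function.Surjective
      (fderiv ℝ (fun y => c.φ j (c.f ((c.φ i).symm y))) (c.φ i x)).toLinearMap :=
    fun w => ⟨_, c.proj1_inj hj ((h1 _).symm.trans (h2 w).symm)⟩
  intro a b hab
  exact LinearMap.injective_iff_surjective.2 h3
    (c.proj1_inj hj ((h1 a).symm.trans (hab.trans (h1 b))))

/-- Gluing of operators given in charts. -/
theorem proj1_glue {A B : c.ι → M → E4 →L[ℝ] EuclideanSpace ℝ (Fin c.N)}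
    (hB : ∀ i, ∀ x ∈ (c.φ i).source, Function.Injective (B i x))
    (hT : ∀ i j, ∀ x ∈ (c.φ i).source, x ∈ (c.φ j).source → ∃ T : E4 →L[ℝ] E4,
      (∀ w, A i x w = A j x (T w)) ∧ ∀ w, B i x w = B j x (T w)) :
    ∃ H : M → EuclideanSpace ℝ (Fin c.N) →L[ℝ] EuclideanSpace ℝ (Fin c.N),
      ∀ i, ∀ x ∈ (c.φ i).source, H x = A i x ∘L proj1Li (B i x) := by
  choose ix hix using c.cover
  refine ⟨fun x => A (ix x) x ∘L proj1Li (B (ix x) x), fun i x hx => ?_⟩
  obtain ⟨T, h1, h2⟩ := hT (ix x) i x (hix x) hx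
  ext1 u
  exact (h1 _).trans (congrArg (A i x) (proj1Li_comp (hB i x hx) (hB _ x (hix x)) h2 u))

theorem proj1_glue_cont {A B : c.ι → M → E4 →L[ℝ] EuclideanSpace ℝ (Fin c.N)}
    (hB : ∀ i, ∀ x ∈ (c.φ i).source, Function.Injective (B i x))
    (cA : ∀ i, ContinuousOn (A i) (c.φ i).source) (cB : ∀ i, ContinuousOn (B i) (c.φ i).source)
    {H : M → EuclideanSpace ℝ (Fin c.N) →L[ℝ] EuclideanSpace ℝ (Fin c.N)}
    (hH : ∀ i, ∀ x ∈ (c.φ i).source, H x = A i x ∘L proj1Li (B i x)) : Continuous H :=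
  c.proj1_cont_of fun i => ((cA i).clm_comp fun x hx =>
    (proj1Li_sm (hB i x hx)).continuousAt.comp_continuousWithinAt (cB i x hx)).congr (hH i)

theorem proj1_bd [CompactSpace M] {V : Type} [NormedAddCommGroup V] {H : M → V}
    (h : Continuous H) : ∃ K : ℝ, 1 ≤ K ∧ ∀ x, ‖H x‖ ≤ K := by
  obtain ⟨K, hK⟩ := isCompact_univ.exists_bound_of_continuousOn h.continuousOn
  exact ⟨max 1 K, le_max_left _ _, fun x => (hK x trivial).trans (le_max_right _ _)⟩

theorem proj1_cmp [CompactSpace M] {A B : c.ι → M → E4 →L[ℝ] EuclideanSpace ℝ (Fin c.N)}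
    (hB : ∀ i, ∀ x ∈ (c.φ i).source, Function.Injective (B i x))
    (hT : ∀ i j, ∀ x ∈ (c.φ i).source, x ∈ (c.φ j).source → ∃ T : E4 →L[ℝ] E4,
      (∀ w, A i x w = A j x (T w)) ∧ ∀ w, B i x w = B j x (T w))
    (cA : ∀ i, ContinuousOn (A i) (c.φ i).source) (cB : ∀ i, ContinuousOn (B i) (c.φ i).source) :
    ∃ L : ℝ, 1 ≤ L ∧ ∀ i, ∀ x ∈ (c.φ i).source, ∀ w, ‖A i x w‖ ≤ L * ‖B i x w‖ := by
  obtain ⟨H, hH⟩ := c.proj1_glue hB hT
  obtain ⟨L, h1, h2⟩ := proj1_bd (c.proj1_glue_cont hB cA cB hH)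
  refine ⟨L, h1, fun i x hx w => ?_⟩
  have h3 := (H x).le_of_opNorm_le (h2 x) (B i x w)
  rwa [hH i x hx, ContinuousLinearMap.comp_apply, proj1Li_apply (hB i x hx)] at h3

theorem exists_L [CompactSpace M] : ∃ L : ℝ, 1 ≤ L ∧ ∀ i, ∀ x ∈ (c.φ i).source, ∀ w,
    ‖c.De c.f i x w‖ ≤ L * ‖c.De id i x w‖ ∧ ‖c.De id i x w‖ ≤ L * ‖c.De c.f i x w‖ := by
  have c0 : ∀ i, ContinuousOn (c.De id i) (c.φ i).source := fun i =>
    c.proj1_contOn (c.proj1_De_sm 0 i).continuousOn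
  have c1 : ∀ i, ContinuousOn (c.De c.f i) (c.φ i).source := fun i =>
    c.proj1_contOn (c.proj1_De_sm 1 i).continuousOn
  obtain ⟨L, h1, h2⟩ := c.proj1_cmp (A := c.De c.f) (B := c.De id) (fun _ _ => c.proj1_inj)
    (fun i j x hi hj => ⟨_, c.De_comp (Or.inl rfl) 1 hi hj, c.De_comp (Or.inl rfl) 0 hi hj⟩) c1 c0
  obtain ⟨L', -, h4⟩ := c.proj1_cmp (A := c.De id) (B := c.De c.f) (fun _ _ => c.proj1_inj')
    (fun i j x hi hj => ⟨_, c.De_comp (Or.inl rfl) 0 hi hj, c.De_comp (Or.inl rfl) 1 hi hj⟩) c0 c1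
  exact ⟨max L L', h1.trans (le_max_left _ _), fun i x hx w =>
    ⟨(h2 i x hx w).trans (mul_le_mul_of_nonneg_right (le_max_left _ _) (norm_nonneg _)),
      (h4 i x hx w).trans (mul_le_mul_of_nonneg_right (le_max_right _ _) (norm_nonneg _))⟩⟩

theorem proj1_approx [CompactSpace M] {V : Type} [NormedAddCommGroup V] [NormedSpace ℝ V]
    [FiniteDimensional ℝ V] {H : M → V} (h : Continuous H) {η : ℝ} (hη : 0 < η) :
    ∃ S : M → V, c.Proj1Sm S ∧ ∀ x, ‖S x - H x‖ ≤ η := by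
  have : TietzeExtension.{0, 0} V := TietzeExtension.of_tvs ℝ
  obtain ⟨g, hg⟩ := ContinuousMap.exists_extension' (c.e_cont.isClosedEmbedding c.e_inj) ⟨H, h⟩
  obtain ⟨s, h1, h2, -⟩ := g.continuous.exists_contDiff_approx ⊤ (ε := fun _ => η)
    continuous_const fun _ => hη
  refine ⟨fun x => s (c.e x), fun i => h1.comp_contDiffOn (c.e_sm i), fun x => ?_⟩
  have h3 := (h2 (c.e x)).le
  rwa [dist_eq_norm, show g (c.e x) = H x from congrFun hg x] at h3

theorem exists_proj [CompactSpace M] [T2Space M] :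
    ∃ K : ℝ, 1 ≤ K ∧ ∀ δ > 0, Nonempty (c.Proj K δ) := by
  have c0 : ∀ i, ContinuousOn (c.De id i) (c.φ i).source := fun i =>
    c.proj1_contOn (c.proj1_De_sm 0 i).continuousOn
  have hB : ∀ i, ∀ x ∈ (c.φ i).source, Function.Injective (c.De id i x) := fun _ _ => c.proj1_inj
  obtain ⟨Θ, hΘ⟩ := c.proj1_glue (A := c.De id) hB fun i j x hi hj =>
    ⟨_, c.De_comp (Or.inl rfl) 0 hi hj, c.De_comp (Or.inl rfl) 0 hi hj⟩
  obtain ⟨P, hP⟩ := c.proj1_glue (A := fun i x => c.De id i x ∘L c.Q i x) hB fun i j x hi hj =>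
    ⟨_, fun w => (c.De_comp (Or.inl rfl) 0 hi hj _).trans
      (congrArg (c.De id j x) (c.Q_inv id (Or.inl rfl) i j x hi hj w)),
      c.De_comp (Or.inl rfl) 0 hi hj⟩
  have cP := c.proj1_glue_cont hB (fun i => (c0 i).clm_comp (c.Q_cont i)) c0 hP
  obtain ⟨K₁, k1, k2⟩ := proj1_bd (c.proj1_glue_cont hB c0 c0 hΘ)
  obtain ⟨K₂, -, k3⟩ := proj1_bd cP
  have sΘ : c.Proj1Sm Θ := fun i =>
    ((c.proj1_De_sm 0 i).clm_comp fun y hy =>
      ContDiffAt.comp_contDiffWithinAt (g := proj1Li) y (proj1Li_sm (hB i _ ((c.φ i).map_target hy)))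
        (c.proj1_De_sm 0 i y hy)).congr fun y hy => hΘ i _ ((c.φ i).map_target hy)
  have ΘD : ∀ i, ∀ x ∈ (c.φ i).source, ∀ w, Θ x (c.De id i x w) = c.De id i x w := fun i x hx w => by
    rw [hΘ i x hx, ContinuousLinearMap.comp_apply, proj1Li_apply (hB i x hx)]
  have PD : ∀ i, ∀ x ∈ (c.φ i).source, ∀ w, P x (c.De id i x w) = c.De id i x (c.Q i x w) :=
    fun i x hx w => by
      rw [hP i x hx, ContinuousLinearMap.comp_apply, proj1Li_apply (hB i x hx)]; rfl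
  have alg : ∀ x, Θ x * Θ x = Θ x ∧ P x * P x = P x ∧ Θ x * P x = P x ∧ P x * Θ x = P x := by
    intro x
    obtain ⟨i, hx⟩ := c.cover x
    have e1 : ∀ u, Θ x u = c.De id i x (proj1Li (c.De id i x) u) := fun u => by rw [hΘ i x hx]; rfl
    have e2 : ∀ u, P x u = c.De id i x (c.Q i x (proj1Li (c.De id i x) u)) := fun u => by
      rw [hP i x hx]; rfl
    refine ⟨?_, ?_, ?_, ?_⟩ <;> ext1 u <;> rw [mul_apply_eq_comp]
    · rw [e1 u, ΘD i x hx]
    · rw [e2 u, PD i x hx, c.Q_idem i x hx]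
    · rw [e2 u, ΘD i x hx]
    · rw [e1 u, PD i x hx, e2 u]
  have hK : 1 ≤ max K₁ K₂ := k1.trans (le_max_left _ _)
  refine ⟨2 * max K₁ K₂ + 1, by linarith, fun δ hδ => ?_⟩
  obtain ⟨η, hη, q, hq⟩ := proj1_ring (EuclideanSpace ℝ (Fin c.N) →L[ℝ] EuclideanSpace ℝ (Fin c.N))
    hK (lt_min hδ one_half_pos)
  obtain ⟨S, sS, hS⟩ := c.proj1_approx cP hη
  have hq' := fun x => hq (Θ x) (P x) (S x) (alg x).1 (alg x).2.1 (alg x).2.2.1 (alg x).2.2.2
    ((k2 x).trans (le_max_left _ _)) ((k3 x).trans (le_max_right _ _)) (hS x)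
  have sq : c.Proj1Sm fun x => q (Θ x, S x) := fun i y hy =>
    (hq' _).1.comp_contDiffWithinAt y ((sΘ i y hy).prodMk (sS i y hy))
  generalize hp : (fun x => q (Θ x, S x)) = p at sq
  have hp' : ∀ x, p x * p x = p x ∧ Θ x * p x = p x ∧ p x * Θ x = p x ∧
      ‖p x - P x‖ ≤ min δ (1 / 2) := fun x => hp ▸ (hq' x).2
  have i1 : ∀ x, (Θ x - p x) * (Θ x - p x) = Θ x - p x := fun x => by
    rw [sub_mul, mul_sub, mul_sub, (alg x).1, (hp' x).1, (hp' x).2.1, (hp' x).2.2.1, sub_self,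
      sub_zero]
  have n1 : ∀ x, ‖p x - P x‖ < 1 := fun x =>
    ((hp' x).2.2.2.trans (min_le_right _ _)).trans_lt one_half_lt_one
  have n2 : ∀ x, ‖p x‖ ≤ max K₁ K₂ + 1 := fun x => by
    linarith [norm_le_norm_add_norm_sub' (p x) (P x), n1 x, k3 x, le_max_right K₁ K₂]
  refine ⟨⟨![p, fun x => Θ x - p x], Fin.forall_fin_two.2 ⟨sq, fun i => (sΘ i).sub (sq i)⟩,
    Fin.forall_fin_two.2 ⟨fun x => DFunLike.congr_fun (hp' x).1, fun x => DFunLike.congr_fun (i1 x)⟩,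
    fun x u => ⟨?_, ?_⟩, fun i x hx => Fin.forall_fin_two.2 ⟨fun u => ?_, fun u => ?_⟩,
    fun i x hx w => ?_, Fin.forall_fin_two.2 ⟨fun x => ?_, fun x => ?_⟩,
    Fin.forall_fin_two.2 ⟨fun x => ?_, fun x => ?_⟩, fun i x hx w => ?_⟩⟩
  · show (p x * (Θ x - p x)) u = 0
    rw [mul_sub, (hp' x).1, (hp' x).2.2.1, sub_self]; rfl
  · show ((Θ x - p x) * p x) u = 0
    rw [sub_mul, (hp' x).1, (hp' x).2.1, sub_self]; rfl
  · refine ⟨proj1Li (c.De id i x) (p x u), ?_⟩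
    have := DFunLike.congr_fun (hp' x).2.1 u
    rw [hΘ i x hx] at this
    exact this.symm
  · refine ⟨proj1Li (c.De id i x) (u - p x u), ?_⟩
    have : Θ x * (1 - p x) = Θ x - p x := by rw [mul_sub, mul_one, (hp' x).2.1]
    have h2 := DFunLike.congr_fun this u
    nth_rw 1 [hΘ i x hx] at h2
    exact h2.symm
  · show p x _ + (Θ x _ - p x _) = _
    rw [add_sub_cancel, ΘD i x hx]
  · obtain ⟨i, hx⟩ := c.cover x
    refine (proj1_rank_eq (DFunLike.congr_fun (hp' x).1) (DFunLike.congr_fun (alg x).2.1)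
      (n1 x)).trans ?_
    rw [hP i x hx, proj1_rank_conj (hB i x hx), c.Q_rank i x hx]
  · obtain ⟨i, hx⟩ := c.cover x
    have i2 : (Θ x - P x) * (Θ x - P x) = Θ x - P x := by
      rw [sub_mul, mul_sub, mul_sub, (alg x).1, (alg x).2.1, (alg x).2.2.1, (alg x).2.2.2, sub_self,
        sub_zero]
    refine (proj1_rank_eq (P := Θ x - p x) (P' := Θ x - P x) (DFunLike.congr_fun (i1 x))
      (DFunLike.congr_fun i2)
      (by rw [sub_sub_sub_cancel_left, norm_sub_rev]; exact n1 x)).trans ?_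
    have e : Θ x - P x = (c.De id i x ∘L (1 - c.Q i x)) ∘L proj1Li (c.De id i x) := by
      rw [hP i x hx, hΘ i x hx]
      ext1 u
      exact (map_sub (c.De id i x) _ _).symm
    rw [e, proj1_rank_conj (hB i x hx), proj1_rank_sub (c.Q_idem i x hx) (c.Q_rank i x hx)]
  · show ‖p x‖ ≤ _
    linarith [n2 x]
  · show ‖Θ x - p x‖ ≤ _
    linarith [norm_sub_le (Θ x) (p x), n2 x, k2 x, le_max_left K₁ K₂]
  · rw [← PD i x hx, norm_sub_rev]
    exact (p x - P x).le_of_opNorm_le ((hp' x).2.2.2.trans (min_le_left _ _)) _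

end CA

end SW4
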