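import Pool.Agent.P.MP_0a0487_an.SW.Integ

/-! Sobolev, Rellich and completeness statements for sections of all weights. -/

set_option autoImplicit false
set_option linter.unusedSectionVars false

noncomputable section

namespace SW4

open scoped ComplexOrder ContDiff
open Filter Topology

variable {P A : Type} [TopologicalSpace P] [CompactSpace P] [CommRing A] [StarRing A] [Algebra ℂ A]
  [StarModule ℂ A] {B : Base P A}

/-- A common subsequence for finitely many properties. -/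
theorem sob_common {ι : Type} (S : Finset ι) (Q : ι → (ℕ → ℕ) → Prop)
    (hsub : ∀ (i : ι) (φ ψ : ℕ → ℕ), StrictMono ψ → Q i φ → Q i (φ ∘ ψ))
    (hex : ∀ (i : ι) (φ : ℕ → ℕ), ∃ ψ : ℕ → ℕ, StrictMono ψ ∧ Q i (φ ∘ ψ)) :
    ∃ φ : ℕ → ℕ, StrictMono φ ∧ ∀ i ∈ S, Q i φ := by
  classical
  induction S using Finset.induction_on with
  | empty => exact ⟨id, strictMono_id, fun i hi => absurd hi (Finset.notMem_empty i)⟩
  | insert a S _ ih =>
    obtain ⟨φ, hφ, h⟩ := ih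
    obtain ⟨ψ, hψ, h'⟩ := hex a φ
    refine ⟨φ ∘ ψ, hφ.comp hψ, fun i hi => ?_⟩
    rcases Finset.mem_insert.1 hi with rfl | hi
    · exact h'
    · exact hsub i φ ψ hψ (h i hi)

theorem sob_decomp {n : ℕ} {t : Fin n → A} (ht : ∑ i, star (t i) * t i = 1) (s : A) :
    s = ∑ i, t i * (star (t i) * s) := by
  have : ∑ i, t i * (star (t i) * s) = (∑ i, star (t i) * t i) * s := by
    rw [Finset.sum_mul]
    exact Finset.sum_congr rfl fun i _ => by ring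
  rw [this, ht, one_mul]

theorem sob_mem {w : Wt} {t s : A} (ht : t ∈ B.W w) (hs : s ∈ B.W w) : star t * s ∈ B.W 0 :=
  B.mul_mem' (B.star_mem ht) hs (neg_add_cancel w)

namespace Geo

variable (G : Geo B)

theorem sob_nn_one (s : A) : G.nn 1 s = G.nrm s + ∑ α, G.nrm (G.D α s) := rfl

/-- Kato's inequality. -/
theorem sob_kato {w : Wt} {s : A} (hs : s ∈ B.W w) {ε : ℝ} (hε : 0 < ε) :
    ∃ v ∈ B.W 0, G.nrm (s * s) ≤ G.nrm (v * v) ∧ G.nn 1 v ≤ G.nn 1 s + ε * G.nrm 1 := by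
  set u : A := star s * s + algebraMap ℂ A ((ε : ℂ) ^ 2) with hu
  have hev : ∀ p, B.ev u p = ((‖B.ev s p‖ ^ 2 + ε ^ 2 : ℝ) : ℂ) := by
    intro p
    rw [hu, map_add, map_mul, ContinuousMap.add_apply, ContinuousMap.mul_apply, B.ev_star,
      AlgHomClass.commutes, Complex.conj_mul']
    simp
  have hure : B.Re0 u := by
    rw [B.re0_iff]
    refine ⟨(B.W 0).add_mem (sob_mem hs hs) (B.algebraMap_mem _), fun p => ?_⟩
    rw [hev, Complex.ofReal_im]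
  obtain ⟨v, hv, hvp, hvv⟩ := G.toCalc.exists_sqrt hure (fun p => by
    rw [hev, Complex.ofReal_re]
    positivity)
  have hvn : ∀ p, ‖B.ev v p‖ ^ 2 = ‖B.ev s p‖ ^ 2 + ε ^ 2 := by
    intro p
    have h1 : B.ev v p * B.ev v p = ((‖B.ev s p‖ ^ 2 + ε ^ 2 : ℝ) : ℂ) := by
      rw [← hev, ← hvv, map_mul, ContinuousMap.mul_apply]
    have h2 := congrArg norm h1
    rw [norm_mul, Complex.norm_real, Real.norm_of_nonneg (by positivity)] at h2
    rw [← h2, sq]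
  have hsv : ∀ p, ‖B.ev s p‖ ≤ ‖B.ev v p‖ := fun p =>
    le_of_sq_le_sq (by rw [hvn]; nlinarith [sq_nonneg ε]) (norm_nonneg _)
  have hv0 : ∀ p, B.ev v p ≠ 0 := fun p h => by
    have := hvp p
    rw [h] at this
    simp at this
  obtain ⟨t, -, hvt⟩ := G.toCalc.exists_inv hv.1 hv0
  have ht : ∀ p, ‖B.ev t p‖ * ‖B.ev s p‖ ≤ 1 := by
    intro p
    have h1 : B.ev v p * B.ev t p = 1 := by
      rw [← ContinuousMap.mul_apply, ← map_mul, hvt, map_one, ContinuousMap.one_apply]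
    have h2 := congrArg norm h1
    rw [norm_mul, norm_one] at h2
    calc ‖B.ev t p‖ * ‖B.ev s p‖ ≤ ‖B.ev t p‖ * ‖B.ev v p‖ :=
          mul_le_mul_of_nonneg_left (hsv p) (norm_nonneg _)
      _ = 1 := by rw [mul_comm, h2]
  refine ⟨v, hv.1, ?_, ?_⟩
  · have := G.toPre.nrm_mono (s := s * s) (t := v * v) zero_le_one (fun p => by
      rw [one_mul, map_mul, map_mul, ContinuousMap.mul_apply, ContinuousMap.mul_apply, norm_mul,
        norm_mul]
      exact mul_le_mul (hsv p) (hsv p) (norm_nonneg _) (norm_nonneg _))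
    rwa [one_mul] at this
  · have h0 : G.nrm v ≤ G.nrm s + ε * G.nrm 1 := by
      have e1 : G.nrm v ^ 2 = G.nrm s ^ 2 + (ε * G.nrm 1) ^ 2 := by
        rw [mul_pow, G.toPre.nrm_sq, G.toPre.nrm_sq, G.toPre.nrm_sq, hv.2, hvv, hu, map_add,
          Complex.add_re, star_one, one_mul, Algebra.algebraMap_eq_smul_one, map_smul,
          smul_eq_mul, ← Complex.ofReal_pow, Complex.re_ofReal_mul]
      have a1 := G.toPre.nrm_nonneg s
      have a2 : 0 ≤ ε * G.nrm 1 := mul_nonneg hε.le (G.toPre.nrm_nonneg 1)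
      refine le_of_sq_le_sq ?_ (add_nonneg a1 a2)
      rw [e1]
      nlinarith [mul_nonneg a1 a2]
    have h1 : ∀ α, G.nrm (G.D α v) ≤
        (1 / 2) * (G.nrm (G.D (bar α) s) + G.nrm (G.D α s)) := by
      intro α
      have e1 : G.D α v * v + v * G.D α v = star (G.D (bar α) s) * s + star s * G.D α s := by
        rw [← G.D_mul, hvv, hu, map_add, G.toCalc.D_algebraMap, add_zero, G.D_mul, G.D_star,
          bar_bar]
      have e2 : (2 : ℂ) • G.D α v =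
          (t * s) * star (G.D (bar α) s) + (t * star s) * G.D α s := by
        rw [two_smul]
        linear_combination t * e1 - 2 * G.D α v * hvt
      have b1 : G.nrm ((t * s) * star (G.D (bar α) s)) ≤ G.nrm (G.D (bar α) s) := by
        have := G.toPre.nrm_mono (s := (t * s) * star (G.D (bar α) s))
          (t := star (G.D (bar α) s)) zero_le_one (fun p => by
            rw [map_mul, map_mul, ContinuousMap.mul_apply, ContinuousMap.mul_apply, norm_mul,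
              norm_mul]
            exact mul_le_mul_of_nonneg_right (ht p) (norm_nonneg _))
        rwa [one_mul, G.toPre.nrm_star] at this
      have b2 : G.nrm ((t * star s) * G.D α s) ≤ G.nrm (G.D α s) := by
        have := G.toPre.nrm_mono (s := (t * star s) * G.D α s) (t := G.D α s) zero_le_one
          (fun p => by
            rw [map_mul, map_mul, ContinuousMap.mul_apply, ContinuousMap.mul_apply, norm_mul,
              norm_mul, B.ev_star, RCLike.norm_conj]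
            exact mul_le_mul_of_nonneg_right (ht p) (norm_nonneg _))
        rwa [one_mul] at this
      have b3 := G.toPre.nrm_smul 2 (G.D α v)
      rw [e2, Complex.norm_ofNat] at b3
      have b4 := G.toPre.nrm_add ((t * s) * star (G.D (bar α) s)) ((t * star s) * G.D α s)
      linarith
    have h2 : ∑ α, G.nrm (G.D α v) ≤ ∑ α, G.nrm (G.D α s) := by
      refine (Finset.sum_le_sum fun α _ => h1 α).trans (le_of_eq ?_)
      rw [← Finset.mul_sum, Finset.sum_add_distrib, sum_bar (fun α => G.nrm (G.D α s))]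
      ring
    rw [G.sob_nn_one, G.sob_nn_one]
    linarith

/-- `L²₁ ⊂ L⁴`, with a constant that does not depend on the weight (Kato's inequality). -/
theorem sob4 : ∃ C : ℝ, 0 ≤ C ∧ ∀ s, B.Hom s → G.nrm (s * s) ≤ C * G.nn 1 s ^ 2 := by
  obtain ⟨C, hC⟩ := G.sob
  refine ⟨4 * |C|, by positivity, fun s ⟨w, hs⟩ => ?_⟩
  have h1 := G.toPre.nrm_nonneg 1
  rcases (G.toPre.nn_nonneg 1 s).eq_or_lt with h0 | h0
  · have h2 : G.nrm s = 0 :=
      le_antisymm ((G.toPre.nrm_le_nn 1 s).trans h0.symm.le) (G.toPre.nrm_nonneg s)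
    rw [G.toPre.nrm_eq_zero ⟨w, hs⟩ h2, mul_zero, G.toPre.nrm_zero]
    positivity
  · obtain ⟨v, hv, h2, h3⟩ := G.sob_kato hs (ε := G.nn 1 s / (1 + G.nrm 1)) (by positivity)
    have h4 : G.nn 1 s / (1 + G.nrm 1) * G.nrm 1 ≤ G.nn 1 s := by
      rw [div_mul_eq_mul_div, div_le_iff₀ (by positivity)]
      nlinarith
    have h5 : G.nn 1 v ^ 2 ≤ (2 * G.nn 1 s) ^ 2 :=
      pow_le_pow_left₀ (G.toPre.nn_nonneg 1 v) (by linarith) 2
    calc G.nrm (s * s) ≤ C * G.nn 1 v ^ 2 := h2.trans (hC v hv)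
      _ ≤ |C| * G.nn 1 v ^ 2 := mul_le_mul_of_nonneg_right (le_abs_self C) (sq_nonneg _)
      _ ≤ |C| * (2 * G.nn 1 s) ^ 2 := mul_le_mul_of_nonneg_left h5 (abs_nonneg C)
      _ = 4 * |C| * G.nn 1 s ^ 2 := by ring

theorem mul4 : ∃ C : ℝ, 0 ≤ C ∧ ∀ s t, B.Hom s → B.Hom t →
    G.nrm (s * t) ≤ C * (G.nn 1 s * G.nn 1 t) := by
  obtain ⟨C, hC0, hC⟩ := G.sob4
  refine ⟨C, hC0, fun s t hs ht => ?_⟩
  have a1 := G.toPre.nn_nonneg 1 s
  have a2 := G.toPre.nn_nonneg 1 t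
  refine le_of_sq_le_sq ?_ (by positivity)
  calc G.nrm (s * t) ^ 2 ≤ G.nrm (s * s) * G.nrm (t * t) := G.toPre.nrm_mul_sq s t
    _ ≤ (C * G.nn 1 s ^ 2) * (C * G.nn 1 t ^ 2) :=
        mul_le_mul (hC s hs) (hC t ht) (G.toPre.nrm_nonneg _) (by positivity)
    _ = (C * (G.nn 1 s * G.nn 1 t)) ^ 2 := by ring

theorem sob_mul_one : ∃ C : ℝ, 0 ≤ C ∧ ∀ s t, B.Hom s → B.Hom t →
    G.nn 1 (s * t) ≤ C * (G.nn 2 s * G.nn 2 t) := by
  obtain ⟨C, hC0, hC⟩ := G.mul4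
  refine ⟨9 * C, by positivity, fun s t hs ht => ?_⟩
  have a1 := G.toPre.nn_nonneg 2 s
  have s1 : G.nn 1 s ≤ G.nn 2 s := G.toPre.nn_mono (by norm_num) s
  have t1 : G.nn 1 t ≤ G.nn 2 t := G.toPre.nn_mono (by norm_num) t
  have key : ∀ a b, B.Hom a → B.Hom b → G.nn 1 a ≤ G.nn 2 s → G.nn 1 b ≤ G.nn 2 t →
      G.nrm (a * b) ≤ C * (G.nn 2 s * G.nn 2 t) := fun a b ha hb h1 h2 =>
    (hC a b ha hb).trans (mul_le_mul_of_nonneg_left
      (mul_le_mul h1 h2 (G.toPre.nn_nonneg 1 b) a1) hC0)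
  have h1 : ∀ α, G.nrm (G.D α (s * t)) ≤ 2 * (C * (G.nn 2 s * G.nn 2 t)) := by
    intro α
    rw [G.D_mul]
    have b1 := key _ _ (G.toCalc.D_hom α hs) ht (G.toPre.nn_D 1 α s) t1
    have b2 := key _ _ hs (G.toCalc.D_hom α ht) s1 (G.toPre.nn_D 1 α t)
    have b3 := G.toPre.nrm_add (G.D α s * t) (s * G.D α t)
    linarith
  have h2 := key s t hs ht s1 t1
  rw [G.sob_nn_one, Fin.sum_univ_four]
  linarith [h1 0, h1 1, h1 2, h1 3]

/-- `L⁸ × L^(8/3) → L²`. -/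
theorem mul8 : ∃ C : ℝ, 0 ≤ C ∧ ∀ s t, B.Hom s → B.Hom t →
    G.nrm (s * t) ^ 2 ≤ C * (G.nn 2 s ^ 2 * (G.nrm t * G.nn 1 t)) := by
  obtain ⟨C, hC0, hC⟩ := G.mul4
  obtain ⟨K, hK0, hK⟩ := G.sob_mul_one
  refine ⟨C * K, by positivity, fun s t hs ht => ?_⟩
  have e : star (s * t) * (s * t) = star t * (star s * s * t) := by
    rw [star_mul]
    ring
  have h1 : G.nrm (s * t) ^ 2 ≤ G.nrm t * G.nrm (star s * s * t) := by
    rw [G.toPre.nrm_sq, e]
    exact (Complex.re_le_norm _).trans (G.toPre.norm_I_le _ _)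
  have h2 := hC _ _ (hs.star.mul hs) ht
  have h3 := hK _ _ hs.star hs
  rw [G.toPre.nn_star] at h3
  have h4 : G.nrm (star s * s * t) ≤ C * (K * (G.nn 2 s * G.nn 2 s) * G.nn 1 t) :=
    h2.trans (mul_le_mul_of_nonneg_left
      (mul_le_mul_of_nonneg_right h3 (G.toPre.nn_nonneg 1 t)) hC0)
  calc G.nrm (s * t) ^ 2 ≤ G.nrm t * (C * (K * (G.nn 2 s * G.nn 2 s) * G.nn 1 t)) :=
        h1.trans (mul_le_mul_of_nonneg_left h4 (G.toPre.nrm_nonneg t))
    _ = C * K * (G.nn 2 s ^ 2 * (G.nrm t * G.nn 1 t)) := by ring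

theorem supW (w : Wt) : ∃ C : ℝ, 0 ≤ C ∧ ∀ s ∈ B.W w, ‖B.ev s‖ ≤ C * G.nn 4 s := by
  obtain ⟨C, hC⟩ := G.sup
  obtain ⟨n, t, ht, h1⟩ := G.toCalc.exists_gens w
  choose K hK0 hK using fun i => G.toPre.nn_mul_le 4 (star (t i))
  have hnn : 0 ≤ ∑ i, ‖B.ev (t i)‖ * (|C| * K i) :=
    Finset.sum_nonneg fun i _ => mul_nonneg (norm_nonneg _) (mul_nonneg (abs_nonneg C) (hK0 i))
  refine ⟨∑ i, ‖B.ev (t i)‖ * (|C| * K i), hnn, fun s hs => ?_⟩
  have h2 : ∀ i, ‖B.ev (star (t i) * s)‖ ≤ |C| * K i * G.nn 4 s := by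
    intro i
    have a1 := G.toPre.nn_nonneg 4 s
    have a2 := hK0 i
    rw [ContinuousMap.norm_le _ (by positivity)]
    intro p
    calc ‖B.ev (star (t i) * s) p‖ ≤ C * G.nn 4 (star (t i) * s) := hC _ (sob_mem (ht i) hs) p
      _ ≤ |C| * G.nn 4 (star (t i) * s) :=
          mul_le_mul_of_nonneg_right (le_abs_self C) (G.toPre.nn_nonneg _ _)
      _ ≤ |C| * (K i * G.nn 4 s) := mul_le_mul_of_nonneg_left (hK i s) (abs_nonneg C)
      _ = |C| * K i * G.nn 4 s := by ring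
  conv_lhs => rw [sob_decomp h1 s]
  rw [map_sum, Finset.sum_mul]
  refine (norm_sum_le _ _).trans (Finset.sum_le_sum fun i _ => ?_)
  rw [map_mul, mul_assoc]
  exact (norm_mul_le _ _).trans (mul_le_mul_of_nonneg_left (h2 i) (norm_nonneg _))

theorem sob_rel_zero (v : ℕ → A) (hv : ∀ n, v n ∈ B.W 0) (C : ℝ) (hb : ∀ n, G.nn 1 (v n) ≤ C) :
    ∃ φ : ℕ → ℕ, StrictMono φ ∧
      ∀ ε > 0, ∃ n₀, ∀ m ≥ n₀, ∀ n ≥ n₀, G.nrm (v (φ m) - v (φ n)) ≤ ε := by
  have hc : 0 < |C| + 1 := by positivity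
  have hn : ‖(((|C| + 1)⁻¹ : ℝ) : ℂ)‖ = (|C| + 1)⁻¹ := by
    rw [Complex.norm_real, Real.norm_of_nonneg (inv_pos.2 hc).le]
  obtain ⟨φ, hφ, h⟩ := G.rel (fun n => (((|C| + 1)⁻¹ : ℝ) : ℂ) • v n)
    (fun n => (B.W 0).smul_mem _ (hv n)) (fun n => by
      rw [G.toPre.nn_smul, hn, inv_mul_le_iff₀ hc]
      linarith [hb n, le_abs_self C])
  refine ⟨φ, hφ, fun ε hε => ?_⟩
  obtain ⟨n₀, h0⟩ := h ((|C| + 1)⁻¹ * ε) (by positivity)
  refine ⟨n₀, fun m hm n hn' => ?_⟩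
  have := h0 m hm n hn'
  rw [← smul_sub, G.toPre.nrm_smul, hn] at this
  exact le_of_mul_le_mul_left this (inv_pos.2 hc)

theorem sob_nrm_decomp {n : ℕ} {t : Fin n → A} (x : Fin n → A) :
    G.nrm (∑ i, t i * x i) ≤ ∑ i, ‖B.ev (t i)‖ * G.nrm (x i) :=
  (G.toPre.nrm_sum _ _).trans (Finset.sum_le_sum fun _ _ => G.toPre.nrm_mul_le _ _)

theorem sob_cauchy_sub {ι : Type} (x : ι → ℕ → A) (i : ι) (φ ψ : ℕ → ℕ) (hψ : StrictMono ψ)
    (h : ∀ ε > 0, ∃ n₀, ∀ m ≥ n₀, ∀ n ≥ n₀, G.nrm (x i (φ m) - x i (φ n)) ≤ ε) :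
    ∀ ε > 0, ∃ n₀, ∀ m ≥ n₀, ∀ n ≥ n₀, G.nrm (x i ((φ ∘ ψ) m) - x i ((φ ∘ ψ) n)) ≤ ε := by
  intro ε hε
  obtain ⟨n₀, h0⟩ := h ε hε
  exact ⟨n₀, fun m hm n hn => h0 _ (le_trans hm (hψ.id_le m)) _ (le_trans hn (hψ.id_le n))⟩

theorem relW (w : Wt) (v : ℕ → A) (hv : ∀ n, v n ∈ B.W w) (C : ℝ) (hb : ∀ n, G.nn 1 (v n) ≤ C) :
    ∃ φ : ℕ → ℕ, StrictMono φ ∧
      ∀ ε > 0, ∃ n₀, ∀ m ≥ n₀, ∀ n ≥ n₀, G.nrm (v (φ m) - v (φ n)) ≤ ε := by
  obtain ⟨N, t, ht, h1⟩ := G.toCalc.exists_gens w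
  choose K hK0 hK using fun i => G.toPre.nn_mul_le 1 (star (t i))
  obtain ⟨φ, hφ, h⟩ := sob_common (Finset.univ : Finset (Fin N))
    (fun i φ => ∀ ε > 0, ∃ n₀, ∀ m ≥ n₀, ∀ n ≥ n₀,
      G.nrm (star (t i) * v (φ m) - star (t i) * v (φ n)) ≤ ε)
    (G.sob_cauchy_sub fun i n => star (t i) * v n)
    (fun i φ => G.sob_rel_zero (fun n => star (t i) * v (φ n)) (fun n => sob_mem (ht i) (hv _))
      (K i * C) (fun n => (hK i _).trans (mul_le_mul_of_nonneg_left (hb _) (hK0 i))))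
  refine ⟨φ, hφ, fun ε hε => ?_⟩
  have hS : 0 ≤ ∑ i, ‖B.ev (t i)‖ := Finset.sum_nonneg fun i _ => norm_nonneg _
  choose M hM using fun i => h i (Finset.mem_univ i) (ε / (∑ i, ‖B.ev (t i)‖ + 1)) (by positivity)
  refine ⟨Finset.univ.sup M, fun m hm n hn => ?_⟩
  rw [sob_decomp h1 (v (φ m) - v (φ n))]
  refine (G.sob_nrm_decomp _).trans ?_
  calc ∑ i, ‖B.ev (t i)‖ * G.nrm (star (t i) * (v (φ m) - v (φ n)))
      ≤ ∑ i, ‖B.ev (t i)‖ * (ε / (∑ i, ‖B.ev (t i)‖ + 1)) := by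
        refine Finset.sum_le_sum fun i _ => mul_le_mul_of_nonneg_left ?_ (norm_nonneg _)
        rw [mul_sub]
        have hi : M i ≤ Finset.univ.sup M := Finset.le_sup (Finset.mem_univ i)
        exact hM i m (le_trans hi hm) n (le_trans hi hn)
    _ ≤ ε := by
        rw [← Finset.sum_mul, ← mul_div_assoc, div_le_iff₀ (by positivity)]
        nlinarith

theorem cplW (w : Wt) (v : ℕ → A) (hv : ∀ n, v n ∈ B.W w)
    (hc : ∀ k, ∀ ε > 0, ∃ n₀, ∀ m ≥ n₀, ∀ n ≥ n₀, G.nn k (v m - v n) ≤ ε) :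
    ∃ u ∈ B.W w, ∀ k, Tendsto (fun n => G.nn k (v n - u)) atTop (𝓝 0) := by
  obtain ⟨N, t, ht, h1⟩ := G.toCalc.exists_gens w
  have hx : ∀ i, ∃ u ∈ B.W 0, Tendsto (fun n => G.nrm (star (t i) * v n - u)) atTop (𝓝 0) := by
    intro i
    refine G.cpl (fun n => star (t i) * v n) (fun n => sob_mem (ht i) (hv n)) fun k ε hε => ?_
    obtain ⟨K, hK0, hK⟩ := G.toPre.nn_mul_le k (star (t i))
    obtain ⟨n₀, h0⟩ := hc k (ε / (K + 1)) (by positivity)
    refine ⟨n₀, fun m hm n hn => ?_⟩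
    rw [← mul_sub]
    refine (hK _).trans ((mul_le_mul_of_nonneg_left (h0 m hm n hn) hK0).trans ?_)
    rw [← mul_div_assoc, div_le_iff₀ (by positivity)]
    nlinarith
  choose u hu hlim using hx
  have hU : ∑ i, t i * u i ∈ B.W w :=
    (B.W w).sum_mem fun i _ => B.mul_mem' (ht i) (hu i) (add_zero w)
  refine ⟨∑ i, t i * u i, hU, G.toPre.tendsto_nn (w := w) (v := fun n => v n - ∑ i, t i * u i)
    (fun n => (B.W w).sub_mem (hv n) hU) (fun k => ?_) ?_⟩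
  · obtain ⟨n₀, h0⟩ := hc k 1 one_pos
    have hS : ∀ j ∈ Finset.range (n₀ + 1), G.nn k (v j - ∑ i, t i * u i) ≤
        ∑ j ∈ Finset.range (n₀ + 1), G.nn k (v j - ∑ i, t i * u i) := fun j hj =>
      Finset.single_le_sum (f := fun j => G.nn k (v j - ∑ i, t i * u i))
        (fun j _ => G.toPre.nn_nonneg k _) hj
    refine ⟨1 + ∑ j ∈ Finset.range (n₀ + 1), G.nn k (v j - ∑ i, t i * u i), fun n => ?_⟩
    rcases le_total n n₀ with h | h
    · have := hS n (Finset.mem_range.2 (Nat.lt_succ_of_le h))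
      linarith
    · have a1 := hS n₀ (Finset.mem_range.2 (Nat.lt_succ_self n₀))
      have a2 := h0 n h n₀ le_rfl
      have a3 := G.toPre.nn_add k (v n - v n₀) (v n₀ - ∑ i, t i * u i)
      rw [sub_add_sub_cancel] at a3
      linarith
  · have hlim2 : Tendsto (fun n => ∑ i, ‖B.ev (t i)‖ * G.nrm (star (t i) * v n - u i)) atTop
        (𝓝 0) := by
      have := tendsto_finsetSum (Finset.univ : Finset (Fin N))
        fun i _ => (hlim i).const_mul ‖B.ev (t i)‖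
      simpa only [mul_zero, Finset.sum_const_zero] using this
    refine squeeze_zero (fun n => G.toPre.nrm_nonneg _) (fun n => ?_) hlim2
    have e : v n - ∑ i, t i * u i = ∑ i, t i * (star (t i) * v n - u i) := by
      conv_lhs => rw [sob_decomp h1 (v n)]
      rw [← Finset.sum_sub_distrib]
      exact Finset.sum_congr rfl fun i _ => by ring
    rw [e]
    exact G.sob_nrm_decomp _

/-- Families bounded in all Sobolev norms are relatively compact. -/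
theorem montel {ι : Type} [Fintype ι] (w : ι → Wt) (v : ℕ → ι → A)
    (hv : ∀ n i, v n i ∈ B.W (w i)) (hb : ∀ k, ∃ C : ℝ, ∀ n i, G.nn k (v n i) ≤ C) :
    ∃ (φ : ℕ → ℕ) (u : ι → A), StrictMono φ ∧ (∀ i, u i ∈ B.W (w i)) ∧
      ∀ k i, Tendsto (fun n => G.nn k (v (φ n) i - u i)) atTop (𝓝 0) := by
  obtain ⟨C, hC⟩ := hb 1
  obtain ⟨φ, hφ, h⟩ := sob_common (Finset.univ : Finset ι)
    (fun i φ => ∀ ε > 0, ∃ n₀, ∀ m ≥ n₀, ∀ n ≥ n₀, G.nrm (v (φ m) i - v (φ n) i) ≤ ε)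
    (G.sob_cauchy_sub fun i n => v n i)
    (fun i φ => G.relW (w i) (fun n => v (φ n) i) (fun n => hv _ i) C (fun n => hC _ i))
  have hx : ∀ i, ∃ u ∈ B.W (w i),
      ∀ k, Tendsto (fun n => G.nn k (v (φ n) i - u)) atTop (𝓝 0) := fun i =>
    G.cplW (w i) (fun n => v (φ n) i) (fun n => hv _ i)
      (G.toPre.cauchy_nn (v := fun n => v (φ n) i) (fun n => hv _ i)
        (fun k => (hb k).imp fun _ h n => h _ i) (h i (Finset.mem_univ i)))
  choose u hu hlim using hx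
  exact ⟨φ, u, hφ, hu, fun k i => hlim i k⟩

end Geo

end SW4
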