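import Pool.Agent.P.MP_0a0487_an.SW.MapA
import Pool.Agent.P.MP_0a0487_an.SW.ThomAAux

/-! The Thom form of the diagonal is smooth, real and closed. -/

set_option autoImplicit false
set_option linter.unusedSectionVars false

noncomputable section

namespace SW4

open scoped ComplexOrder ContDiff
open Filter Topology

variable {P A : Type} [TopologicalSpace P] [CompactSpace P] [CommRing A] [StarRing A] [Algebra ℂ A]
  [StarModule ℂ A] {B : Base P A}

section Sm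

variable {Z : Type} [NormedAddCommGroup Z] [NormedSpace ℝ Z]

/-- A smooth family of functions. -/
def Base.ThomSm (B : Base P A) (u : Z → A) : Prop := ContDiff ℝ ∞ fun z => B.ev (u z)

namespace Base.ThomSm

variable {u v : Z → A}

theorem const (c : A) : B.ThomSm fun _ : Z => c := contDiff_const

theorem add (hu : B.ThomSm u) (hv : B.ThomSm v) : B.ThomSm fun z => u z + v z := by
  simpa only [ThomSm, map_add] using ContDiff.add hu hv

theorem sub (hu : B.ThomSm u) (hv : B.ThomSm v) : B.ThomSm fun z => u z - v z := by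
  simpa only [ThomSm, map_sub] using ContDiff.sub hu hv

theorem neg (hu : B.ThomSm u) : B.ThomSm fun z => -u z := by
  simpa only [ThomSm, map_neg] using ContDiff.neg hu

theorem mul (hu : B.ThomSm u) (hv : B.ThomSm v) : B.ThomSm fun z => u z * v z := by
  simpa only [ThomSm, map_mul] using ContDiff.mul hu hv

theorem sq (hu : B.ThomSm u) : B.ThomSm fun z => u z ^ 2 := by
  simpa only [pow_two] using hu.mul hu

theorem sum {ι : Type} [Fintype ι] {u : ι → Z → A} (hu : ∀ i, B.ThomSm (u i)) :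
    B.ThomSm fun z => ∑ i, u i z := by
  simpa only [ThomSm, map_sum] using ContDiff.sum (fun i _ => hu i)

theorem coord {n : ℕ} (k : Fin n) : B.ThomSm fun z : Fin n → ℝ => algebraMap ℂ A (z k) := by
  have e : (fun z : Fin n → ℝ => B.ev (algebraMap ℂ A (z k))) =
      fun z => z k • (1 : C(P, ℂ)) := by
    funext z
    rw [AlgHomClass.commutes]
    ext p
    simp
  rw [ThomSm, e]
  exact (contDiff_apply ℝ ℝ k).smul contDiff_const

end Base.ThomSm

/-- The derivative of a family of functions along the vector `v`. -/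
def Base.ThomDz (B : Base P A) (z v : Z) (u : Z → A) (u' : A) : Prop :=
  ∀ p, HasDerivAt (fun t : ℝ => B.ev (u (z + t • v)) p) (B.ev u' p) 0

namespace Base.ThomDz

variable {z w : Z} {u v : Z → A} {u' v' : A}

theorem const (c : A) : B.ThomDz z w (fun _ : Z => c) 0 := fun p => by
  simpa using hasDerivAt_const (0 : ℝ) (B.ev c p)

theorem congr (hu : B.ThomDz z w u u') (h : u' = v') : B.ThomDz z w u v' := h ▸ hu

theorem add (hu : B.ThomDz z w u u') (hv : B.ThomDz z w v v') :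
    B.ThomDz z w (fun y => u y + v y) (u' + v') := fun p => by
  simpa only [map_add, ContinuousMap.add_apply] using (hu p).fun_add (hv p)

theorem sub (hu : B.ThomDz z w u u') (hv : B.ThomDz z w v v') :
    B.ThomDz z w (fun y => u y - v y) (u' - v') := fun p => by
  simpa only [map_sub, ContinuousMap.sub_apply] using (hu p).fun_sub (hv p)

theorem neg (hu : B.ThomDz z w u u') : B.ThomDz z w (fun y => -u y) (-u') := fun p => by
  simpa only [map_neg, ContinuousMap.neg_apply] using (hu p).fun_neg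

theorem mul (hu : B.ThomDz z w u u') (hv : B.ThomDz z w v v') :
    B.ThomDz z w (fun y => u y * v y) (u' * v z + u z * v') := fun p => by
  simpa only [map_add, map_mul, ContinuousMap.add_apply, ContinuousMap.mul_apply, zero_smul,
    add_zero] using (hu p).fun_mul (hv p)

theorem sum {ι : Type} [Fintype ι] {u : ι → Z → A} {u' : ι → A}
    (hu : ∀ i, B.ThomDz z w (u i) (u' i)) : B.ThomDz z w (fun y => ∑ i, u i y) (∑ i, u' i) :=
  fun p => by
    simpa only [map_sum, ContinuousMap.sum_apply] using HasDerivAt.fun_sum (fun i _ => hu i p)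

theorem coord {n : ℕ} (z : Fin n → ℝ) (k m : Fin n) :
    B.ThomDz z (Pi.single k 1) (fun y : Fin n → ℝ => algebraMap ℂ A (y m))
      (if m = k then 1 else 0) := by
  intro p
  simp only [AlgHomClass.commutes]
  have h := (((hasDerivAt_id (0 : ℝ)).mul_const ((Pi.single k 1 : Fin n → ℝ) m)).const_add
    (z m)).ofReal_comp
  have e : (B.ev (if m = k then 1 else 0)) p =
      ((1 * (Pi.single k 1 : Fin n → ℝ) m : ℝ) : ℂ) := by
    by_cases hk : m = k <;> simp [hk]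
  rw [e]
  simpa using h

theorem app (G : Calc B) {φ : ℝ → ℝ} (hφ : ContDiff ℝ ∞ φ) (hr : ∀ y, B.Re0 (u y))
    (hu : B.ThomDz z w u u') :
    B.ThomDz z w (fun y => B.app φ (u y)) (B.app (deriv φ) (u z) * u') := by
  intro p
  obtain ⟨h1, h2⟩ := contDiff_infty_iff_deriv.1 hφ
  have h3 : HasDerivAt (fun t : ℝ => (B.ev (u (z + t • w)) p).re) (B.ev u' p).re 0 :=
    Complex.reCLM.hasFDerivAt.comp_hasDerivAt 0 (hu p)
  have h4 : B.ev u' p = (B.ev u' p).re := by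
    refine (hu p).unique (h3.ofReal_comp.congr_of_eventuallyEq (Eventually.of_forall fun t => ?_))
    exact Complex.ext rfl (by simpa using (B.re0_iff.1 (hr _)).2 p)
  have h5 := ((h1 _).hasDerivAt.comp 0 h3).ofReal_comp
  simp only [(G.app_spec hφ (hr _)).2.1, map_mul, ContinuousMap.mul_apply,
    (G.app_spec h2 (hr _)).2.1]
  rw [h4]
  simpa using h5

theorem fderiv_eq {b : Z → Fin 4 → Fin 4 → A} {b' : Fin 4 → Fin 4 → A}
    (hs : ContDiff ℝ ∞ fun y => B.ev2 (b y))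
    (hb : ∀ α β, B.ThomDz z w (fun y => b y α β) (b' α β)) :
    fderiv ℝ (fun y => B.ev2 (b y)) z w = B.ev2 b' := by
  ext α β p
  have h1 : HasDerivAt (fun t : ℝ => z + t • w) w 0 := by
    simpa using ((hasDerivAt_id (0 : ℝ)).smul_const w).const_add z
  have h2 := (hs.differentiable (by simp) (z + (0 : ℝ) • w)).hasFDerivAt.comp_hasDerivAt 0 h1
  have h3 := (ContinuousMap.evalCLM ℝ p).hasFDerivAt.comp_hasDerivAt 0
    (hasDerivAt_pi.1 (hasDerivAt_pi.1 h2 α) β)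
  rw [zero_smul, add_zero] at h3
  exact h3.unique (hb α β p)

end Base.ThomDz

end Sm

namespace Calc

variable (G : Calc B) {φ κ : ℝ → ℝ}

include G in
theorem contDiff_app {Z : Type} [NormedAddCommGroup Z] [NormedSpace ℝ Z] (hφ : ContDiff ℝ ∞ φ)
    {u : Z → A} (hu : ∀ z, B.Re0 (u z)) (hc : ContDiff ℝ ∞ fun z => B.ev (u z)) :
    ContDiff ℝ ∞ fun z => B.ev (B.app φ (u z)) := by
  let R : C(P, ℂ) →L[ℝ] C(P, ℝ) := Complex.reCLM.compLeftContinuous ℝ P
  let J : C(P, ℝ) →L[ℝ] C(P, ℂ) := Complex.ofRealCLM.compLeftContinuous ℝ P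
  have e : (fun z => B.ev (B.app φ (u z))) =
      fun z => J ((⟨φ, hφ.continuous⟩ : C(ℝ, ℝ)).comp (R (B.ev (u z)))) := by
    funext z
    ext p
    exact (G.app_spec hφ (hu z)).2.1 p
  rw [e]
  exact J.contDiff.comp ((thomA_contDiff hφ).comp (R.contDiff.comp hc))

theorem σ_mem (z : Fin G.N → ℝ) (a : Fin 4) : G.σ z a ∈ B.W (-wt a) :=
  Submodule.sum_mem _ fun k _ => B.mul_mem' (G.θ_mem a k)
    (sub_mem (B.algebraMap_mem _) (G.e_re k).1) (add_zero _)

theorem σ_star (z : Fin G.N → ℝ) (a : Fin 4) : star (G.σ z a) = G.σ z (bar a) := by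
  simp only [σ, star_sum, star_mul', star_sub, G.θ_star, (G.e_re _).2, ← algebraMap_star_comm,
    Complex.star_def, Complex.conj_ofReal]

theorem thomA_bar (j : Fin 2) : bar (![0, 2] j) = ![1, 3] j := by fin_cases j <;> rfl

theorem thomA_bar' (j : Fin 2) : bar (![1, 3] j) = ![0, 2] j := by fin_cases j <;> rfl

theorem thomA_wt (j : Fin 2) : -wt (![1, 3] j) + -wt (![0, 2] j) = 0 := by
  fin_cases j <;> simp [wt]

theorem thomA_Fw (j : Fin 2) (α β : Fin 4) : G.Fw (-wt (![1, 3] j)) α β = G.F j α β := by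
  fin_cases j <;> simp [wt, Fw]

theorem thomA_Fw' (j : Fin 2) (α β : Fin 4) : G.Fw (-wt (![0, 2] j)) α β = -G.F j α β := by
  fin_cases j <;> simp [wt, Fw]

theorem ρ_re (z : Fin G.N → ℝ) (j : Fin 2) : B.Re0 (G.ρ z j) :=
  ⟨B.mul_mem' (G.σ_mem z _) (G.σ_mem z _) (thomA_wt j), by
    rw [ρ, star_mul', σ_star, σ_star, thomA_bar, thomA_bar', mul_comm]⟩

theorem thomA_Dσ (z : Fin G.N → ℝ) (a α : Fin 4) : G.D α (G.σ z a) =
    ∑ k, (G.D α (G.θ a k) * (algebraMap ℂ A (z k) - G.e k) - G.θ a k * G.D α (G.e k)) := by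
  simp only [σ, map_sum, G.D_mul, sub_eq_add_neg, map_add, map_neg, G.D_algebraMap, zero_add,
    mul_neg]

theorem thomA_sm_σ (a : Fin 4) : B.ThomSm fun z => G.σ z a :=
  .sum fun k => (Base.ThomSm.const _).mul ((Base.ThomSm.coord k).sub (.const _))

theorem thomA_sm_Dσ (a α : Fin 4) : B.ThomSm fun z => G.D α (G.σ z a) := by
  simp only [thomA_Dσ]
  exact .sum fun k => ((Base.ThomSm.const _).mul ((Base.ThomSm.coord k).sub (.const _))).sub
    (.const _)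

theorem thomA_sm_app (hφ : ContDiff ℝ ∞ φ) (j : Fin 2) : B.ThomSm fun z => B.app φ (G.ρ z j) :=
  G.contDiff_app hφ (fun z => G.ρ_re z j) ((G.thomA_sm_σ _).mul (G.thomA_sm_σ _))

theorem thomA_sm_txx (hφ : ContDiff ℝ ∞ φ) (j : Fin 2) (α β : Fin 4) :
    B.ThomSm fun z => G.txx φ z j α β :=
  ((G.thomA_sm_app (contDiff_infty_iff_deriv.1 hφ).2 j).neg.mul
    (((G.thomA_sm_Dσ _ _).mul (G.thomA_sm_Dσ _ _)).sub
      ((G.thomA_sm_Dσ _ _).mul (G.thomA_sm_Dσ _ _)))).add ((G.thomA_sm_app hφ j).mul (.const _))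

theorem thomA_sm_txz (hφ : ContDiff ℝ ∞ φ) (j : Fin 2) (α : Fin 4) (k : Fin G.N) :
    B.ThomSm fun z => G.txz φ z j α k :=
  (G.thomA_sm_app (contDiff_infty_iff_deriv.1 hφ).2 j).neg.mul
    (((G.thomA_sm_Dσ _ _).mul (.const _)).sub ((Base.ThomSm.const _).mul (G.thomA_sm_Dσ _ _)))

theorem thomA_sm_tzz (hφ : ContDiff ℝ ∞ φ) (j : Fin 2) (k l : Fin G.N) :
    B.ThomSm fun z => G.tzz φ z j k l :=
  (G.thomA_sm_app (contDiff_infty_iff_deriv.1 hφ).2 j).neg.mul (.const _)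

theorem thom_smooth (hφ : ContDiff ℝ ∞ φ) (hκ : ContDiff ℝ ∞ κ) (k l : Fin G.N) :
    ContDiff ℝ ∞ fun z => B.ev2 (G.thom φ κ z k l) := by
  refine contDiff_pi.2 fun α => contDiff_pi.2 fun β => ?_
  have hx := G.thomA_sm_txx hφ
  have hy := G.thomA_sm_txz hφ
  have hz := G.thomA_sm_tzz hφ
  have hk : B.ThomSm fun z => B.app κ (G.r2 z) := G.contDiff_app hκ G.r2_re
    (Base.ThomSm.sum fun k => ((Base.ThomSm.coord k).sub (.const _)).sq)
  exact hk.mul (((((((hx _ _ _).mul (hz _ _ _)).sub ((hy _ _ _).mul (hy _ _ _))).add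
    ((hy _ _ _).mul (hy _ _ _))).add ((hy _ _ _).mul (hy _ _ _))).sub
    ((hy _ _ _).mul (hy _ _ _))).add ((hz _ _ _).mul (hx _ _ _)))

theorem thomA_txx_mem (hφ : ContDiff ℝ ∞ φ) (z : Fin G.N → ℝ) (j : Fin 2) (α β : Fin 4) :
    G.txx φ z j α β ∈ B.W (wt α + wt β) := by
  have h0 := (G.app_spec hφ (G.ρ_re z j)).1.1
  have h1 := (G.app_spec (contDiff_infty_iff_deriv.1 hφ).2 (G.ρ_re z j)).1.1
  have h := thomA_wt j
  refine add_mem (B.mul_mem' (neg_mem h1) (sub_mem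
    (B.mul_mem' (G.D_mem α (G.σ_mem z _)) (G.D_mem β (G.σ_mem z _)) ?_)
    (B.mul_mem' (G.D_mem β (G.σ_mem z _)) (G.D_mem α (G.σ_mem z _)) ?_)) (zero_add _))
    (B.mul_mem' h0 (G.F_form j α β).1 (zero_add _))
  · rw [add_add_add_comm, h, zero_add]
  · rw [add_add_add_comm, h, zero_add, add_comm]

theorem thomA_txz_mem (hφ : ContDiff ℝ ∞ φ) (z : Fin G.N → ℝ) (j : Fin 2) (α : Fin 4)
    (k : Fin G.N) : G.txz φ z j α k ∈ B.W (wt α) := by
  have h1 := (G.app_spec (contDiff_infty_iff_deriv.1 hφ).2 (G.ρ_re z j)).1.1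
  have h := thomA_wt j
  refine B.mul_mem' (neg_mem h1) (sub_mem
    (B.mul_mem' (G.D_mem α (G.σ_mem z _)) (G.θ_mem _ k) ?_)
    (B.mul_mem' (G.θ_mem _ k) (G.D_mem α (G.σ_mem z _)) ?_)) (zero_add _)
  · rw [add_right_comm, h, zero_add]
  · rw [← add_assoc, h, zero_add]

theorem thomA_tzz_mem (hφ : ContDiff ℝ ∞ φ) (z : Fin G.N → ℝ) (j : Fin 2) (k l : Fin G.N) :
    G.tzz φ z j k l ∈ B.W 0 := by
  have h1 := (G.app_spec (contDiff_infty_iff_deriv.1 hφ).2 (G.ρ_re z j)).1.1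
  have h := thomA_wt j
  exact B.mul_mem' (neg_mem h1) (sub_mem (B.mul_mem' (G.θ_mem _ k) (G.θ_mem _ l) h)
    (B.mul_mem' (G.θ_mem _ l) (G.θ_mem _ k) h)) (zero_add _)

theorem thomA_txx_anti (z : Fin G.N → ℝ) (j : Fin 2) (α β : Fin 4) :
    G.txx φ z j β α = -G.txx φ z j α β := by
  simp only [txx, dd, w1, d0, (G.F_form j α β).2]
  ring

theorem thomA_txx_star (hφ : ContDiff ℝ ∞ φ) (z : Fin G.N → ℝ) (j : Fin 2) (α β : Fin 4) :
    star (G.txx φ z j α β) = -G.txx φ z j (bar α) (bar β) := by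
  have h0 := (G.app_spec hφ (G.ρ_re z j)).1.2
  have h1 := (G.app_spec (contDiff_infty_iff_deriv.1 hφ).2 (G.ρ_re z j)).1.2
  simp only [txx, dd, w1, d0, star_add, star_mul', star_neg, star_sub, h0, h1, G.D_star, σ_star,
    thomA_bar, thomA_bar', G.F_star]
  ring

theorem thomA_txz_star (hφ : ContDiff ℝ ∞ φ) (z : Fin G.N → ℝ) (j : Fin 2) (α : Fin 4)
    (k : Fin G.N) : star (G.txz φ z j α k) = -G.txz φ z j (bar α) k := by
  have h1 := (G.app_spec (contDiff_infty_iff_deriv.1 hφ).2 (G.ρ_re z j)).1.2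
  simp only [txz, star_mul', star_neg, star_sub, h1, G.D_star, σ_star, G.θ_star,
    thomA_bar, thomA_bar']
  ring

theorem thomA_tzz_star (hφ : ContDiff ℝ ∞ φ) (z : Fin G.N → ℝ) (j : Fin 2) (k l : Fin G.N) :
    star (G.tzz φ z j k l) = -G.tzz φ z j k l := by
  have h1 := (G.app_spec (contDiff_infty_iff_deriv.1 hφ).2 (G.ρ_re z j)).1.2
  simp only [tzz, w1, star_mul', star_neg, star_sub, h1, G.θ_star, thomA_bar, thomA_bar']
  ring

theorem thom_re (hφ : ContDiff ℝ ∞ φ) (hκ : ContDiff ℝ ∞ κ) (z : Fin G.N → ℝ) (k l : Fin G.N) :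
    B.Re2 (G.thom φ κ z k l) := by
  have hk := (G.app_spec hκ (G.r2_re z)).1
  have hx := G.thomA_txx_mem hφ z
  have hy := G.thomA_txz_mem hφ z
  have hz := G.thomA_tzz_mem hφ z
  refine ⟨fun α β => ⟨?_, ?_⟩, fun α β => ?_⟩
  · exact B.mul_mem' hk.1 (add_mem (sub_mem (add_mem (add_mem (sub_mem
      (B.mul_mem' (hx _ _ _) (hz _ _ _) (add_zero _)) (B.mul_mem (hy _ _ _) (hy _ _ _)))
      (B.mul_mem (hy _ _ _) (hy _ _ _))) (B.mul_mem' (hy _ _ _) (hy _ _ _) (add_comm _ _)))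
      (B.mul_mem' (hy _ _ _) (hy _ _ _) (add_comm _ _)))
      (B.mul_mem' (hz _ _ _) (hx _ _ _) (zero_add _))) (zero_add _)
  · simp only [thom, G.thomA_txx_anti z _ α β]
    ring
  · simp only [thom, star_add, star_mul', star_sub, hk.2, G.thomA_txx_star hφ,
      G.thomA_txz_star hφ, G.thomA_tzz_star hφ]
    ring

theorem thom_anti (z : Fin G.N → ℝ) (k l : Fin G.N) :
    G.thom φ κ z l k = -G.thom φ κ z k l := by
  funext α β
  simp only [thom, tzz, w1, Pi.neg_apply]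
  ring

theorem thomA_dz_σ (z : Fin G.N → ℝ) (k : Fin G.N) (a : Fin 4) :
    B.ThomDz z (Pi.single k 1) (fun y => G.σ y a) (G.θ a k) :=
  (Base.ThomDz.sum fun m => (Base.ThomDz.const (G.θ a m)).mul
    ((Base.ThomDz.coord z k m).sub (.const (G.e m)))).congr (by simp)

theorem thomA_dz_Dσ (z : Fin G.N → ℝ) (k : Fin G.N) (a α : Fin 4) :
    B.ThomDz z (Pi.single k 1) (fun y => G.D α (G.σ y a)) (G.D α (G.θ a k)) := by
  simp only [thomA_Dσ]
  exact (Base.ThomDz.sum fun m => ((Base.ThomDz.const (G.D α (G.θ a m))).mul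
    ((Base.ThomDz.coord z k m).sub (.const (G.e m)))).sub
      (.const (G.θ a m * G.D α (G.e m)))).congr (by simp)

/-- The derivative of `ρ` in the second variable. -/
def thomDρ (z : Fin G.N → ℝ) (j : Fin 2) (k : Fin G.N) : A :=
  G.θ (![1, 3] j) k * G.σ z (![0, 2] j) + G.σ z (![1, 3] j) * G.θ (![0, 2] j) k

theorem thomA_dz_app (hφ : ContDiff ℝ ∞ φ) (z : Fin G.N → ℝ) (k : Fin G.N) (j : Fin 2) :
    B.ThomDz z (Pi.single k 1) (fun y => B.app φ (G.ρ y j))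
      (B.app (deriv φ) (G.ρ z j) * G.thomDρ z j k) :=
  Base.ThomDz.app G hφ (fun y => G.ρ_re y j) ((G.thomA_dz_σ z k _).mul (G.thomA_dz_σ z k _))

/-- The derivative of `txz` in the second variable. -/
def thomDxz (φ : ℝ → ℝ) (z : Fin G.N → ℝ) (j : Fin 2) (l : Fin G.N) (α : Fin 4) (k : Fin G.N) :
    A :=
  -(B.app (deriv (deriv φ)) (G.ρ z j) * G.thomDρ z j l) *
    (G.D α (G.σ z (![1, 3] j)) * G.θ (![0, 2] j) k -
      G.θ (![1, 3] j) k * G.D α (G.σ z (![0, 2] j))) -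
  B.app (deriv φ) (G.ρ z j) * (G.D α (G.θ (![1, 3] j) l) * G.θ (![0, 2] j) k -
      G.θ (![1, 3] j) k * G.D α (G.θ (![0, 2] j) l))

/-- The derivative of `tzz` in the second variable. -/
def thomDzz (φ : ℝ → ℝ) (z : Fin G.N → ℝ) (j : Fin 2) (m k l : Fin G.N) : A :=
  -(B.app (deriv (deriv φ)) (G.ρ z j) * G.thomDρ z j m) *
    w1 (G.θ (![1, 3] j)) (G.θ (![0, 2] j)) k l

theorem thomA_dz_txz (hφ : ContDiff ℝ ∞ φ) (z : Fin G.N → ℝ) (j : Fin 2) (l : Fin G.N)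
    (α : Fin 4) (k : Fin G.N) :
    B.ThomDz z (Pi.single l 1) (fun y => G.txz φ y j α k) (G.thomDxz φ z j l α k) :=
  ((G.thomA_dz_app (contDiff_infty_iff_deriv.1 hφ).2 z l j).neg.mul
    (((G.thomA_dz_Dσ z l _ α).mul (.const _)).sub
      ((Base.ThomDz.const _).mul (G.thomA_dz_Dσ z l _ α)))).congr (by
        simp only [thomDxz]; ring)

theorem thomA_dz_tzz (hφ : ContDiff ℝ ∞ φ) (z : Fin G.N → ℝ) (j : Fin 2) (m k l : Fin G.N) :
    B.ThomDz z (Pi.single m 1) (fun y => G.tzz φ y j k l) (G.thomDzz φ z j m k l) :=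
  ((G.thomA_dz_app (contDiff_infty_iff_deriv.1 hφ).2 z m j).neg.mul (.const _)).congr (by
    simp only [thomDzz]; ring)

theorem thomA_zzz (z : Fin G.N → ℝ) (j : Fin 2) (k l m : Fin G.N) :
    G.thomDzz φ z j k l m + G.thomDzz φ z j l m k + G.thomDzz φ z j m k l = 0 := by
  simp only [thomDzz, thomDρ, w1]
  ring

theorem thomA_xzz (hφ : ContDiff ℝ ∞ φ) (z : Fin G.N → ℝ) (j : Fin 2) (α : Fin 4)
    (k l : Fin G.N) :
    G.D α (G.tzz φ z j k l) = G.thomDxz φ z j k α l - G.thomDxz φ z j l α k := by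
  have h1 := (G.app_spec (contDiff_infty_iff_deriv.1 hφ).2 (G.ρ_re z j)).2.2 α
  simp only [tzz, w1, G.D_mul, map_sub, map_neg, h1, thomDxz, thomDρ]
  rw [ρ, G.D_mul, ← ρ]
  ring

theorem thomA_dz_txx (hφ : ContDiff ℝ ∞ φ) (z : Fin G.N → ℝ) (j : Fin 2) (k : Fin G.N)
    (α β : Fin 4) : B.ThomDz z (Pi.single k 1) (fun y => G.txx φ y j α β)
      (-G.d1 (fun γ => G.txz φ z j γ k) α β) := by
  refine (((G.thomA_dz_app (contDiff_infty_iff_deriv.1 hφ).2 z k j).neg.mul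
    (((G.thomA_dz_Dσ z k _ α).mul (G.thomA_dz_Dσ z k _ β)).sub
      ((G.thomA_dz_Dσ z k _ β).mul (G.thomA_dz_Dσ z k _ α)))).add
    ((G.thomA_dz_app hφ z k j).mul (.const (G.F j α β)))).congr ?_
  have h1 := (G.app_spec (contDiff_infty_iff_deriv.1 hφ).2 (G.ρ_re z j)).2.2
  have h2 : ∀ γ, G.D γ (G.ρ z j) = G.D γ (G.σ z (![1, 3] j)) * G.σ z (![0, 2] j) +
      G.σ z (![1, 3] j) * G.D γ (G.σ z (![0, 2] j)) := fun γ => G.D_mul _ _ _
  have c1 := G.comm (G.σ_mem z (![1, 3] j)) α β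
  have c0 := G.comm (G.σ_mem z (![0, 2] j)) α β
  rw [thomA_Fw] at c1
  rw [thomA_Fw'] at c0
  simp only [Fin.sum_univ_four] at c0 c1
  simp only [d1, txz, G.D_mul, map_sub, map_neg, h1, h2, thomDρ, Fin.sum_univ_four]
  linear_combination (-B.app (deriv φ) (G.ρ z j) * G.θ (![0, 2] j) k) * c1 +
    (B.app (deriv φ) (G.ρ z j) * G.θ (![1, 3] j) k) * c0

theorem thomA_cut (hφ : ContDiff ℝ ∞ φ) (hκ : ContDiff ℝ ∞ κ) {z : Fin G.N → ℝ}
    (hz : G.CutOK φ κ z) {s : A}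
    (h : ∀ p j, (∀ α β, B.ev (G.txx φ z j α β) p = 0) → (∀ α k, B.ev (G.txz φ z j α k) p = 0) →
      (∀ k l, B.ev (G.tzz φ z j k l) p = 0) → B.ev s p = 0) :
    B.app (deriv κ) (G.r2 z) * s = 0 := by
  refine B.ext' fun p => ?_
  rw [map_mul, ContinuousMap.mul_apply, map_zero, ContinuousMap.zero_apply,
    (G.app_spec (contDiff_infty_iff_deriv.1 hκ).2 (G.r2_re z)).2.1]
  by_cases h0 : deriv κ (B.ev (G.r2 z) p).re = 0
  · rw [h0, Complex.ofReal_zero, zero_mul]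
  obtain ⟨j, h1, h2⟩ := hz p h0
  have e0 := (G.app_spec hφ (G.ρ_re z j)).2.1 p
  have e1 := (G.app_spec (contDiff_infty_iff_deriv.1 hφ).2 (G.ρ_re z j)).2.1 p
  rw [h1, Complex.ofReal_zero] at e0
  rw [h2, Complex.ofReal_zero] at e1
  rw [h p j (fun α β => by simp [txx, e0, e1]) (fun α k => by simp [txz, e1])
    (fun k l => by simp [tzz, e1]), mul_zero]

/-- The Thom form without the cut-off function. -/
def thomΘ (φ : ℝ → ℝ) (z : Fin G.N → ℝ) (k l : Fin G.N) (α β : Fin 4) : A :=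
  G.txx φ z 0 α β * G.tzz φ z 1 k l - G.txz φ z 0 α k * G.txz φ z 1 β l +
    G.txz φ z 0 α l * G.txz φ z 1 β k + G.txz φ z 0 β k * G.txz φ z 1 α l -
    G.txz φ z 0 β l * G.txz φ z 1 α k + G.tzz φ z 0 k l * G.txx φ z 1 α β

/-- The derivative of `thomΘ` in the second variable. -/
def thomDΘ (φ : ℝ → ℝ) (z : Fin G.N → ℝ) (m k l : Fin G.N) (α β : Fin 4) : A :=
  (-G.d1 (fun γ => G.txz φ z 0 γ m) α β * G.tzz φ z 1 k l +
      G.txx φ z 0 α β * G.thomDzz φ z 1 m k l) -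
    (G.thomDxz φ z 0 m α k * G.txz φ z 1 β l + G.txz φ z 0 α k * G.thomDxz φ z 1 m β l) +
    (G.thomDxz φ z 0 m α l * G.txz φ z 1 β k + G.txz φ z 0 α l * G.thomDxz φ z 1 m β k) +
    (G.thomDxz φ z 0 m β k * G.txz φ z 1 α l + G.txz φ z 0 β k * G.thomDxz φ z 1 m α l) -
    (G.thomDxz φ z 0 m β l * G.txz φ z 1 α k + G.txz φ z 0 β l * G.thomDxz φ z 1 m α k) +
    (G.thomDzz φ z 0 m k l * G.txx φ z 1 α β +
      G.tzz φ z 0 k l * -G.d1 (fun γ => G.txz φ z 1 γ m) α β)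

theorem thomA_dz_thom (hφ : ContDiff ℝ ∞ φ) (hκ : ContDiff ℝ ∞ κ) {z : Fin G.N → ℝ}
    (hz : G.CutOK φ κ z) (m k l : Fin G.N) (α β : Fin 4) :
    B.ThomDz z (Pi.single m 1) (fun y => G.thom φ κ y k l α β)
      (B.app κ (G.r2 z) * G.thomDΘ φ z m k l α β) := by
  have hx := G.thomA_dz_txx hφ z
  have hy := G.thomA_dz_txz hφ z
  have hw := G.thomA_dz_tzz hφ z
  have hΘ : B.ThomDz z (Pi.single m 1) (fun y => G.thomΘ φ y k l α β) (G.thomDΘ φ z m k l α β) :=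
    ((((((hx _ _ _ _).mul (hw _ _ _ _)).sub ((hy _ _ _ _).mul (hy _ _ _ _))).add
      ((hy _ _ _ _).mul (hy _ _ _ _))).add ((hy _ _ _ _).mul (hy _ _ _ _))).sub
      ((hy _ _ _ _).mul (hy _ _ _ _))).add ((hw _ _ _ _).mul (hx _ _ _ _))
  obtain ⟨r, hr⟩ : ∃ r, B.ThomDz z (Pi.single m 1) (fun y => G.r2 y) r := by
    simp only [r2, pow_two]
    exact ⟨_, Base.ThomDz.sum fun i => ((Base.ThomDz.coord z m i).sub (.const (G.e i))).mul
      ((Base.ThomDz.coord z m i).sub (.const (G.e i)))⟩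
  have h0 : B.app (deriv κ) (G.r2 z) * G.thomΘ φ z k l α β = 0 :=
    G.thomA_cut hφ hκ hz fun p j h1 h2 h3 => by
      fin_cases j <;> simp only [Fin.zero_eta, Fin.mk_one] at h1 h2 h3 <;>
        simp [thomΘ, h1, h2, h3]
  exact ((Base.ThomDz.app G hκ G.r2_re hr).mul hΘ).congr (by linear_combination r * h0)

theorem thom_closed (hφ : ContDiff ℝ ∞ φ) (hκ : ContDiff ℝ ∞ κ) {z : Fin G.N → ℝ}
    (hz : G.CutOK φ κ z) (k l m : Fin G.N) : ∃ S, B.Form1 S ∧
      fderiv ℝ (fun y => B.ev2 (G.thom φ κ y l m)) z (Pi.single k 1) +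
      fderiv ℝ (fun y => B.ev2 (G.thom φ κ y m k)) z (Pi.single l 1) +
      fderiv ℝ (fun y => B.ev2 (G.thom φ κ y k l)) z (Pi.single m 1) = B.ev2 (G.d1 S) := by
  let S0 : Fin 4 → A := fun γ =>
    G.tzz φ z 1 l m * G.txz φ z 0 γ k + G.tzz φ z 0 l m * G.txz φ z 1 γ k +
    (G.tzz φ z 1 m k * G.txz φ z 0 γ l + G.tzz φ z 0 m k * G.txz φ z 1 γ l) +
    (G.tzz φ z 1 k l * G.txz φ z 0 γ m + G.tzz φ z 0 k l * G.txz φ z 1 γ m)
  have hk := G.app_spec hκ (G.r2_re z)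
  have hm : ∀ i j a b c γ, G.tzz φ z i a b * G.txz φ z j γ c ∈ B.W (wt γ) := fun i j a b c γ =>
    B.mul_mem' (G.thomA_tzz_mem hφ z i a b) (G.thomA_txz_mem hφ z j γ c) (zero_add _)
  refine ⟨fun γ => -B.app κ (G.r2 z) * S0 γ, fun γ => B.mul_mem' (neg_mem hk.1.1)
    (add_mem (add_mem (add_mem (hm ..) (hm ..)) (add_mem (hm ..) (hm ..)))
      (add_mem (hm ..) (hm ..))) (zero_add _), ?_⟩
  rw [Base.ThomDz.fderiv_eq (G.thom_smooth hφ hκ l m) (G.thomA_dz_thom hφ hκ hz k l m),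
    Base.ThomDz.fderiv_eq (G.thom_smooth hφ hκ m k) (G.thomA_dz_thom hφ hκ hz l m k),
    Base.ThomDz.fderiv_eq (G.thom_smooth hφ hκ k l) (G.thomA_dz_thom hφ hκ hz m k l)]
  funext α β
  simp only [Pi.add_apply, Base.ev2, ← map_add]
  congr 1
  have h0 : ∀ γ, B.app (deriv κ) (G.r2 z) * S0 γ = 0 := fun γ =>
    G.thomA_cut hφ hκ hz fun p j h1 h2 h3 => by
      fin_cases j <;> simp only [Fin.zero_eta, Fin.mk_one] at h1 h2 h3 <;>
        simp [S0, h2, h3]
  have h1 : G.d1 S0 α β = -(G.thomDΘ φ z k l m α β + G.thomDΘ φ z l m k α β +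
      G.thomDΘ φ z m k l α β) := by
    have z0 := G.thomA_zzz (φ := φ) z 0 k l m
    have z1 := G.thomA_zzz (φ := φ) z 1 k l m
    simp only [thomDΘ, d1, S0, map_add, G.D_mul, G.thomA_xzz hφ, Fin.sum_univ_four]
    linear_combination G.txx φ z 0 α β * z1 + G.txx φ z 1 α β * z0
  rw [G.d1_mul, h1]
  simp only [w1, d0, map_neg, hk.2.2]
  linear_combination G.D α (G.r2 z) * h0 β - G.D β (G.r2 z) * h0 α

end Calc

end SW4
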