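import Pool.Agent.P.MP_0a0487_an.SW.ThomA

/-! Positivity of the Thom form of the diagonal. -/

set_option autoImplicit false
set_option linter.unusedSectionVars false

noncomputable section

namespace SW4

open scoped ComplexOrder ContDiff
open Filter Topology

variable {P A : Type} [TopologicalSpace P] [CompactSpace P] [CommRing A] [StarRing A] [Algebra ℂ A]
  [StarModule ℂ A] {B : Base P A}

theorem thomP_det4 (M : Matrix (Fin 4) (Fin 4) ℂ) : M.det =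
    (M 0 0 * M 1 1 - M 1 0 * M 0 1) * (M 2 2 * M 3 3 - M 3 2 * M 2 3)
    - (M 0 0 * M 1 2 - M 1 0 * M 0 2) * (M 2 1 * M 3 3 - M 3 1 * M 2 3)
    + (M 0 0 * M 1 3 - M 1 0 * M 0 3) * (M 2 1 * M 3 2 - M 3 1 * M 2 2)
    + (M 0 1 * M 1 2 - M 1 1 * M 0 2) * (M 2 0 * M 3 3 - M 3 0 * M 2 3)
    - (M 0 1 * M 1 3 - M 1 1 * M 0 3) * (M 2 0 * M 3 2 - M 3 0 * M 2 2)
    + (M 0 2 * M 1 3 - M 1 2 * M 0 3) * (M 2 0 * M 3 1 - M 3 0 * M 2 1) := by
  rw [Matrix.det_succ_row_zero]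
  simp only [Fin.sum_univ_four, Matrix.det_fin_three, Matrix.submatrix_apply]
  simp [Fin.succAbove]
  ring

/-- The profile function of the Thom form. -/
theorem thomP_phi {a : ℝ} (ha : 0 < a) : ∃ φ : ℝ → ℝ, ContDiff ℝ ∞ φ ∧ deriv φ 0 < 0 ∧
    (∀ r, deriv φ r ≤ 0) ∧ (∀ r, a ≤ r → φ r = 0 ∧ deriv φ r = 0) ∧
    ∀ r, 0 ≤ r → ∃ t : ℝ, |t| ≤ a ^ 2 ∧ φ r = t * deriv φ r := by
  have hd : ∀ r, deriv (fun r => expNegInvGlue (a - r)) r =
      -((a - r)⁻¹ ^ 2 * expNegInvGlue (a - r)) := by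
    intro r
    have h := expNegInvGlue.hasDerivAt_polynomial_eval_inv_mul 1 (a - r)
    simp only [Polynomial.eval_one, one_mul, Polynomial.derivative_one, sub_zero, mul_one,
      Polynomial.eval_pow, Polynomial.eval_X] at h
    have h2 := (h.comp r ((hasDerivAt_id r).const_sub a)).deriv
    rw [mul_neg, mul_one] at h2
    exact h2
  refine ⟨fun r => expNegInvGlue (a - r), expNegInvGlue.contDiff.comp (by fun_prop), ?_, ?_, ?_,
    ?_⟩
  · rw [hd, sub_zero, neg_lt_zero]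
    exact mul_pos (by positivity) (expNegInvGlue.pos_of_pos ha)
  · intro r
    rw [hd, neg_nonpos]
    exact mul_nonneg (by positivity) (expNegInvGlue.nonneg _)
  · intro r hr
    have h0 := expNegInvGlue.zero_of_nonpos (sub_nonpos.2 hr)
    rw [hd, h0]
    exact ⟨h0, by simp⟩
  · intro r hr
    by_cases h : a ≤ r
    · refine ⟨0, by simp [sq_nonneg], ?_⟩
      rw [zero_mul]
      exact expNegInvGlue.zero_of_nonpos (sub_nonpos.2 h)
    · push Not at h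
      have h1 : 0 < a - r := sub_pos.2 h
      refine ⟨-(a - r) ^ 2, ?_, ?_⟩
      · rw [abs_neg, abs_of_nonneg (sq_nonneg _)]
        exact pow_le_pow_left₀ h1.le (by linarith) 2
      · rw [hd]
        field_simp

/-- The cut-off function. -/
theorem thomP_kappa {b : ℝ} (hb : 0 < b) : ∃ κ : ℝ → ℝ, ContDiff ℝ ∞ κ ∧ 0 < κ 0 ∧
    (∀ r, 0 ≤ κ r) ∧ (∀ r, κ r ≠ 0 → r ≤ 2 * b) ∧ ∀ r, deriv κ r ≠ 0 → b ≤ r ∧ r ≤ 2 * b := by
  refine ⟨fun r => Real.smoothTransition (2 - r / b),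
    Real.smoothTransition.contDiff.comp (by fun_prop), ?_, fun r => Real.smoothTransition.nonneg _,
    fun r hr => ?_, fun r hr => ⟨?_, ?_⟩⟩
  · exact Real.smoothTransition.pos_of_pos (by simp)
  · by_contra h
    push Not at h
    refine hr (Real.smoothTransition.zero_of_nonpos ?_)
    rw [sub_nonpos, le_div_iff₀ hb]
    exact h.le
  · by_contra h
    push Not at h
    apply hr
    have e : (fun r => Real.smoothTransition (2 - r / b)) =ᶠ[𝓝 r] fun _ => 1 := by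
      filter_upwards [Iio_mem_nhds h] with x hx
      refine Real.smoothTransition.one_of_one_le ?_
      have : x / b ≤ 1 := (div_le_one hb).2 (le_of_lt hx)
      linarith
    rw [e.deriv_eq, deriv_const]
  · by_contra h
    push Not at h
    apply hr
    have e : (fun r => Real.smoothTransition (2 - r / b)) =ᶠ[𝓝 r] fun _ => 0 := by
      filter_upwards [Ioi_mem_nhds h] with x hx
      refine Real.smoothTransition.zero_of_nonpos ?_
      rw [sub_nonpos, le_div_iff₀ hb]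
      exact le_of_lt hx
    rw [e.deriv_eq, deriv_const]

/-- The polynomial computing the Thom form on a pair of vectors and a bivector. -/
def thomPR (x x' : Fin 4 → ℂ) (f : Fin 2 → ℂ) (Θ : Fin 4 → Fin 4 → ℂ) : ℂ :=
  (x 1 * x' 0 - x' 1 * x 0 - f 0) * (Θ 3 2 - Θ 2 3) +
    (x 3 * x' 2 - x' 3 * x 2 - f 1) * (Θ 1 0 - Θ 0 1) +
    (x' 1 * x 3 - x 1 * x' 3) * (Θ 0 2 - Θ 2 0) + (x 1 * x' 2 - x' 1 * x 2) * (Θ 0 3 - Θ 3 0) +
    (x 0 * x' 3 - x' 0 * x 3) * (Θ 1 2 - Θ 2 1) + (x' 0 * x 2 - x 0 * x' 2) * (Θ 1 3 - Θ 3 1)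

theorem thomPR_sum {ι : Type} [Fintype ι] (x x' : Fin 4 → ℂ) (f : Fin 2 → ℂ)
    (Θ : ι → Fin 4 → Fin 4 → ℂ) :
    thomPR x x' f (fun a b => ∑ i, Θ i a b) = ∑ i, thomPR x x' f (Θ i) := by
  simp only [thomPR, ← Finset.sum_sub_distrib, Finset.mul_sum, ← Finset.sum_add_distrib]

theorem thomPR_main (u : Matrix (Fin 4) (Fin 4) ℝ) :
    thomPR (-cx (u 2)) (-cx (u 3)) 0
      (fun a b => cx (u 0) a * cx (u 1) b - cx (u 1) a * cx (u 0) b) = -((u.det : ℂ) / 2) := by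
  have h := det_cx u
  rw [thomP_det4] at h
  simp only [Matrix.of_apply] at h
  simp only [thomPR, Pi.neg_apply, Pi.zero_apply]
  linear_combination 2 * h

theorem thomPR_uc {ε : ℝ} (hε : 0 < ε) : ∃ η : ℝ, 0 < η ∧ ∀ (x x' y y' : Fin 4 → ℂ)
    (f : Fin 2 → ℂ) (Θ Ψ : Fin 4 → Fin 4 → ℂ), ‖y‖ ≤ 1 → ‖y'‖ ≤ 1 → ‖Ψ‖ ≤ 2 → ‖x - y‖ ≤ η →
    ‖x' - y'‖ ≤ η → ‖f‖ ≤ η → ‖Θ - Ψ‖ ≤ η → ‖thomPR x x' f Θ - thomPR y y' 0 Ψ‖ ≤ ε := by
  let g : (Fin 4 → ℂ) × (Fin 4 → ℂ) × (Fin 2 → ℂ) × (Fin 4 → Fin 4 → ℂ) → ℂ :=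
    fun q => thomPR q.1 q.2.1 q.2.2.1 q.2.2.2
  have hg : Continuous g := by
    simp only [g, thomPR]
    fun_prop
  have hu := (isCompact_closedBall 0 3).uniformContinuousOn_of_continuous hg.continuousOn
  obtain ⟨δ, hδ, h⟩ := Metric.uniformContinuousOn_iff_le.1 hu ε hε
  refine ⟨min δ 1, lt_min hδ one_pos, fun x x' y y' f Θ Ψ h1 h2 h3 h4 h5 h6 h7 => ?_⟩
  have hm := min_le_left δ 1
  have hm' := min_le_right δ 1
  have hq : ‖(y, y', (0 : Fin 2 → ℂ), Ψ)‖ ≤ 2 := by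
    simp only [Prod.norm_def, norm_zero, max_le_iff]
    exact ⟨by linarith, by linarith, by norm_num, h3⟩
  have hd : ‖(x, x', f, Θ) - (y, y', 0, Ψ)‖ ≤ min δ 1 := by
    simp only [Prod.mk_sub_mk, Prod.norm_def, sub_zero, max_le_iff]
    exact ⟨h4, h5, h6, h7⟩
  have hq' : ‖(x, x', f, Θ)‖ ≤ 3 := by
    have := norm_le_norm_sub_add (x, x', f, Θ) (y, y', 0, Ψ)
    linarith
  have := h (x, x', f, Θ) (mem_closedBall_zero_iff.2 hq') (y, y', 0, Ψ)
    (mem_closedBall_zero_iff.2 (by linarith)) (by rw [dist_eq_norm]; linarith)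
  rwa [dist_eq_norm] at this

namespace Calc

variable (G : Calc B)

theorem thomP_ev_σ (z : Fin G.N → ℝ) (a : Fin 4) (p : P) :
    B.ev (G.σ z a) p = cx (G.co p (z - G.E p)) a := by
  rw [G.cx_co, σ, map_sum, ContinuousMap.sum_apply]
  refine Finset.sum_congr rfl fun k _ => ?_
  rw [map_mul, map_sub, ContinuousMap.mul_apply, ContinuousMap.sub_apply, G.ev_e,
    AlgHomClass.commutes]
  simp

theorem thomP_ev_ρ (z : Fin G.N → ℝ) (j : Fin 2) (p : P) :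
    (B.ev (G.ρ z j) p).re = ‖cx (G.co p (z - G.E p)) (![0, 2] j)‖ ^ 2 := by
  have e : (![1, 3] : Fin 2 → Fin 4) j = bar (![0, 2] j) := by fin_cases j <;> rfl
  rw [ρ, map_mul, ContinuousMap.mul_apply, G.thomP_ev_σ, G.thomP_ev_σ, e, cx_bar,
    ← Complex.normSq_eq_conj_mul_self, Complex.ofReal_re, Complex.normSq_eq_norm_sq]

theorem thomP_θ_dE (a : Fin 4) (p : P) (v : Fin 4 → ℝ) :
    ∑ k, B.ev (G.θ a k) p * G.dE p v k = cx v a := by
  rw [← G.cx_co, G.co_dE]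

theorem thomP_dv_σ (z : Fin G.N → ℝ) (a : Fin 4) (p : P) (v : Fin 4 → ℝ) :
    G.dv (G.σ z a) p v + cx v a = ∑ k, G.dv (G.θ a k) p v * (z - G.E p) k := by
  have e : G.dv (G.σ z a) p v =
      ∑ k, G.dv (G.θ a k * (algebraMap ℂ A (z k) - G.e k)) p v := by
    simp only [dv, σ, map_sum, ContinuousMap.sum_apply, Finset.mul_sum]
    exact Finset.sum_comm
  rw [e, ← G.thomP_θ_dE a p v, ← Finset.sum_add_distrib]
  refine Finset.sum_congr rfl fun k _ => ?_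
  have e2 : G.dv (algebraMap ℂ A (z k) - G.e k) p v = -G.dE p v k := by
    rw [← G.dv_e]
    simp only [dv, map_sub, G.D_algebraMap, zero_sub, map_neg, ContinuousMap.neg_apply, mul_neg,
      Finset.sum_neg_distrib]
  rw [G.dv_mul, e2, map_sub, ContinuousMap.sub_apply, G.ev_e, AlgHomClass.commutes]
  simp

theorem thomP_b2 {φ κ : ℝ → ℝ} (hφ : ContDiff ℝ ∞ φ) (hκ : ContDiff ℝ ∞ κ) (z : Fin G.N → ℝ)
    (p : P) (v v' : Fin 4 → ℝ) (t : Fin 2 → ℝ)
    (ht : ∀ j, φ (B.ev (G.ρ z j) p).re = t j * deriv φ (B.ev (G.ρ z j) p).re)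
    (k l : Fin G.N) (w : ℝ) :
    B.b2 (G.thom φ κ z k l) p v v' * w =
      (κ (B.ev (G.r2 z) p).re * (deriv φ (B.ev (G.ρ z 0) p).re *
        deriv φ (B.ev (G.ρ z 1) p).re) : ℝ) *
      thomPR (fun a => G.dv (G.σ z a) p v) (fun a => G.dv (G.σ z a) p v')
        (fun j => t j * B.b2 (G.F j) p v v')
        (fun a b => B.ev (G.θ a k) p * B.ev (G.θ b l) p * w) := by
  have hφ' : ContDiff ℝ ∞ (deriv φ) := (contDiff_infty_iff_deriv.1 hφ).2
  have e1 := fun j => (G.app_spec hφ (G.ρ_re z j)).2.1 p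
  have e2 := fun j => (G.app_spec hφ' (G.ρ_re z j)).2.1 p
  have e3 := (G.app_spec hκ (G.r2_re z)).2.1 p
  simp only [Base.b2, thom, txx, txz, tzz, dd, w1, d0, dv, thomPR, map_mul, map_add, map_sub,
    map_neg, ContinuousMap.mul_apply, ContinuousMap.add_apply, ContinuousMap.sub_apply,
    ContinuousMap.neg_apply, e1, e2, e3, ht, Fin.sum_univ_four, Matrix.cons_val_zero,
    Matrix.cons_val_one, Complex.ofReal_mul]
  ring

end Calc

theorem thomP_small {Q : ℝ → Prop} {δ : ℝ} (hδ : 0 < δ) (h : ∀ d, 0 < d → d ≤ δ → Q d) :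
    ∀ᶠ d in 𝓝[>] (0 : ℝ), Q d := by
  filter_upwards [Ioc_mem_nhdsGT hδ] with d hd using h d hd.1 hd.2

theorem thomP_norm_le {n : ℕ} {w : Fin n → ℝ} {δ : ℝ} (hδ : 0 ≤ δ) (h : ∑ k, w k ^ 2 ≤ δ ^ 2) :
    ‖w‖ ≤ δ := by
  refine (pi_norm_le_iff_of_nonneg hδ).2 fun k => ?_
  rw [Real.norm_eq_abs]
  exact abs_le_of_sq_le_sq' ((Finset.single_le_sum (fun i _ => sq_nonneg (w i))
    (Finset.mem_univ k)).trans h) hδ |> abs_le.2

theorem thomP_sum_le {n : ℕ} (w : Fin n → ℝ) : ∑ k, w k ^ 2 ≤ (n + 1) * ‖w‖ ^ 2 := by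
  have h : ∑ k, w k ^ 2 ≤ ∑ _k : Fin n, ‖w‖ ^ 2 := Finset.sum_le_sum fun k _ => by
    rw [← sq_abs]
    exact pow_le_pow_left₀ (abs_nonneg _) (norm_le_pi_norm w k) 2
  rw [Finset.sum_const, Finset.card_univ, Fintype.card_fin, nsmul_eq_mul] at h
  nlinarith [sq_nonneg ‖w‖]

theorem Calc.thomP_x (G : Calc B) : ∃ K : ℝ, 0 < K ∧ ∀ (z : Fin G.N → ℝ) (p : P) (v : Fin 4 → ℝ),
    ‖v‖ ≤ 1 → ‖(fun a => G.dv (G.σ z a) p v) - -cx v‖ ≤ K * ‖z - G.E p‖ := by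
  choose Kd hKd0 hKd using fun (a : Fin 4) (k : Fin G.N) => G.dv_le (G.θ a k)
  have h0 : 0 ≤ ∑ a, ∑ k, Kd a k :=
    Finset.sum_nonneg fun a _ => Finset.sum_nonneg fun k _ => hKd0 a k
  refine ⟨∑ a, ∑ k, Kd a k + 1, by linarith, fun z p v hv => ?_⟩
  refine (pi_norm_le_iff_of_nonneg (by positivity)).2 fun a => ?_
  rw [Pi.sub_apply, Pi.neg_apply, sub_neg_eq_add, G.thomP_dv_σ]
  calc _ ≤ ∑ k, Kd a k * ‖z - G.E p‖ := by
        refine (norm_sum_le _ _).trans (Finset.sum_le_sum fun k _ => ?_)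
        rw [norm_mul, Complex.norm_real]
        exact mul_le_mul ((hKd a k p v).trans (mul_le_of_le_one_right (hKd0 a k) hv))
          (norm_le_pi_norm (z - G.E p) k) (norm_nonneg _) (hKd0 a k)
    _ ≤ _ := by
        rw [← Finset.sum_mul]
        refine mul_le_mul_of_nonneg_right ?_ (norm_nonneg _)
        have := Finset.single_le_sum (f := fun a => ∑ k, Kd a k)
          (fun a _ => Finset.sum_nonneg fun k _ => hKd0 a k) (Finset.mem_univ a)
        linarith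

theorem Calc.thomP_Θ (G : Calc B) : ∃ K : ℝ, 0 < K ∧ ∀ (U : P → Fin 2 → Fin 4 → ℝ) (p : P)
    (w : Fin G.N → Fin G.N → ℝ) (η : ℝ), 0 ≤ η → (∀ k l, |w k l - G.biv U p k l| ≤ η) →
    ‖(fun a b => ∑ q : Fin G.N × Fin G.N, B.ev (G.θ a q.1) p * B.ev (G.θ b q.2) p * w q.1 q.2) -
      fun a b => cx (U p 0) a * cx (U p 1) b - cx (U p 1) a * cx (U p 0) b‖ ≤ K * η := by
  set M : ℝ := ∑ a, ∑ k, ‖B.ev (G.θ a k)‖ with hM
  have h0 : 0 ≤ M := by positivity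
  refine ⟨M * M + 1, by positivity, fun U p w η hη hw => ?_⟩
  have hθ : ∀ a, ∑ k, ‖B.ev (G.θ a k) p‖ ≤ M := fun a =>
    (Finset.sum_le_sum fun k _ => (B.ev (G.θ a k)).norm_coe_le_norm p).trans
      (Finset.single_le_sum (f := fun a => ∑ k, ‖B.ev (G.θ a k)‖)
        (fun a _ => by positivity) (Finset.mem_univ a))
  refine (pi_norm_le_iff_of_nonneg (by positivity)).2 fun a =>
    (pi_norm_le_iff_of_nonneg (by positivity)).2 fun b => ?_
  have e : cx (U p 0) a * cx (U p 1) b - cx (U p 1) a * cx (U p 0) b =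
      ∑ q : Fin G.N × Fin G.N, B.ev (G.θ a q.1) p * B.ev (G.θ b q.2) p * G.biv U p q.1 q.2 := by
    simp only [← G.thomP_θ_dE _ p, Finset.sum_mul_sum, ← Finset.sum_sub_distrib,
      Fintype.sum_prod_type, Calc.biv]
    refine Finset.sum_congr rfl fun k _ => Finset.sum_congr rfl fun l _ => ?_
    push_cast
    ring
  rw [Pi.sub_apply, Pi.sub_apply, e, ← Finset.sum_sub_distrib]
  calc _ ≤ ∑ q : Fin G.N × Fin G.N, ‖B.ev (G.θ a q.1) p‖ * ‖B.ev (G.θ b q.2) p‖ * η := by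
        refine (norm_sum_le _ _).trans (Finset.sum_le_sum fun q _ => ?_)
        rw [← mul_sub, norm_mul, norm_mul, ← Complex.ofReal_sub, Complex.norm_real]
        exact mul_le_mul_of_nonneg_left (hw _ _) (by positivity)
    _ = (∑ k, ‖B.ev (G.θ a k) p‖) * (∑ k, ‖B.ev (G.θ b k) p‖) * η := by
        rw [Finset.sum_mul_sum, ← Finset.sum_mul, Fintype.sum_prod_type]
    _ ≤ _ := by
        refine mul_le_mul_of_nonneg_right ?_ hη
        have := mul_le_mul (hθ a) (hθ b) (by positivity) h0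
        linarith

theorem thomP_b2_le (b : Fin 4 → Fin 4 → A) (p : P) {u v : Fin 4 → ℝ} (hu : ‖u‖ ≤ 1)
    (hv : ‖v‖ ≤ 1) : ‖B.b2 b p u v‖ ≤ 16 * ‖B.ev2 b‖ :=
  (B.b2_le b p u v).trans ((mul_le_of_le_one_right (by positivity) hv).trans
    (mul_le_of_le_one_right (by positivity) hu))

theorem thomP_cx_le {v : Fin 4 → ℝ} (hv : ‖v‖ ≤ 1) : ‖cx v‖ ≤ 1 :=
  (pi_norm_le_iff_of_nonneg zero_le_one).2 fun a => (norm_cx_le v a).trans hv

theorem Spl.thom_pos {G : Pre B} {U V : P → Fin 2 → Fin 4 → ℝ} (S : Spl G U V) :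
    ∃ φ κ : ℝ → ℝ, ContDiff ℝ ∞ φ ∧ ContDiff ℝ ∞ κ ∧ (∀ y, G.CutOK φ κ (G.E y)) ∧
      ∀ y, ∃ s, B.Re0 s ∧ (∀ p, 0 ≤ (B.ev s p).re) ∧ 0 < (B.ev s y).re ∧ ∀ p,
        (B.ev s p).re * (B.b2 S.ηV p (V p 0) (V p 1)).re ≤
          -∑ k, ∑ l, (B.b2 (G.thom φ κ (G.E y) k l) p (V p 0) (V p 1)).re * G.biv U y k l := by
  have hκ0 := S.κ_pos
  obtain ⟨K, hK1, hKE, -⟩ := G.exists_bound
  obtain ⟨η, hη, hR⟩ := thomPR_uc (ε := S.κ / 4) (by positivity)
  obtain ⟨K1, hK10, hx⟩ := G.thomP_x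
  obtain ⟨K2, hK20, hΘ⟩ := G.thomP_Θ
  set KF : ℝ := ∑ j, 16 * ‖B.ev2 (G.F j)‖ + 1 with hKF
  have hKF0 : 0 < KF := by positivity
  set Kη : ℝ := 16 * ‖B.ev2 S.ηV‖ + 1 with hKη
  have hKη0 : 0 < Kη := by positivity
  obtain ⟨δ1, hδ1, hn⟩ := S.tay.normal (1 / 2) (by norm_num)
  have ev1 : ∀ᶠ d in 𝓝[>] (0 : ℝ), ∀ k l, ∀ p q, ‖G.E q - G.E p‖ ≤ d →
      |G.biv U q k l - G.biv U p k l| ≤ η / K2 := by
    refine eventually_all.2 fun k => eventually_all.2 fun l => ?_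
    obtain ⟨δ, hδ, h⟩ := S.ucU k l (η / K2) (by positivity)
    exact thomP_small hδ fun d _ hd p q hpq => h p q (hpq.trans hd)
  have ev2 : ∀ᶠ d in 𝓝[>] (0 : ℝ), 0 < d ∧ d ≤ δ1 := thomP_small hδ1 fun d h h' => ⟨h, h'⟩
  have ev3 : ∀ᶠ d in 𝓝[>] (0 : ℝ), K1 * d ≤ η :=
    thomP_small (δ := η / K1) (by positivity) fun d _ h' => by rwa [le_div_iff₀' hK10] at h'
  obtain ⟨δ, hbiv, ⟨hδ, hδ'⟩, hδ3⟩ := (ev1.and (ev2.and ev3)).exists
  set a : ℝ := min (δ ^ 2 / 2 / (32 * K ^ 2 * (G.N + 1))) (min 1 (η / KF)) with ha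
  have ha0 : 0 < a := by positivity
  have ha1 : a * (32 * K ^ 2 * (G.N + 1)) ≤ δ ^ 2 / 2 :=
    (le_div_iff₀ (by positivity)).1 (min_le_left _ _)
  have ha2 : a ^ 2 * KF ≤ η := by
    have h1 : a ≤ 1 := (min_le_right _ _).trans (min_le_left _ _)
    have h2 : a * KF ≤ η := (le_div_iff₀ hKF0).1 ((min_le_right _ _).trans (min_le_right _ _))
    nlinarith [mul_pos ha0 hKF0]
  obtain ⟨φ, hφ, hφ0, hφ1, hφ2, hφ3⟩ := thomP_phi ha0
  obtain ⟨κ, hκ, hκ1, hκ2, hκ3, hκ4⟩ := thomP_kappa (b := δ ^ 2 / 2) (by positivity)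
  have hφ' : ContDiff ℝ ∞ (deriv φ) := (contDiff_infty_iff_deriv.1 hφ).2
  have hr2 : ∀ y p, (B.ev (G.r2 (G.E y)) p).re = ∑ k, (G.E y - G.E p) k ^ 2 := fun y p => by
    rw [G.ev_r2, Complex.ofReal_re]
    rfl
  have hnear : ∀ y p, (B.ev (G.r2 (G.E y)) p).re ≤ 2 * (δ ^ 2 / 2) → ‖G.E y - G.E p‖ ≤ δ :=
    fun y p h => thomP_norm_le hδ.le (by rw [← hr2]; linarith)
  refine ⟨φ, κ, hφ, hκ, fun y p hp => ?_, fun y => ?_⟩
  · obtain ⟨h1, h2⟩ := hκ4 _ hp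
    have h3 := hn p y ((hnear y p h2).trans hδ')
    rw [hr2] at h1
    have h4 := thomP_sum_le (G.E y - G.E p)
    set w := G.E y - G.E p with hw
    have h5 := hKE p (G.co p w)
    have h6 := norm_le_norm_sub_add w (G.dE p (G.co p w))
    have h7 := norm_sq_le_cx (G.co p w)
    have h8 : ‖w‖ ^ 2 ≤ (2 * (K * ‖G.co p w‖)) ^ 2 :=
      pow_le_pow_left₀ (norm_nonneg _) (by linarith) 2
    have e0 := G.thomP_ev_ρ (G.E y) 0 p
    have e1 := G.thomP_ev_ρ (G.E y) 1 p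
    simp only [Matrix.cons_val_zero, Matrix.cons_val_one, ← hw] at e0 e1
    rw [← e0, ← e1] at h7
    by_contra hc
    push Not at hc
    have c0 : (B.ev (G.ρ (G.E y) 0) p).re < a := by
      by_contra h
      exact hc 0 (hφ2 _ (not_lt.1 h)).1 (hφ2 _ (not_lt.1 h)).2
    have c1 : (B.ev (G.ρ (G.E y) 1) p).re < a := by
      by_contra h
      exact hc 1 (hφ2 _ (not_lt.1 h)).1 (hφ2 _ (not_lt.1 h)).2
    have h9 : ‖G.co p w‖ ^ 2 < 8 * a := by linarith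
    have hK2 : 0 < K ^ 2 := by positivity
    have h10 : ‖w‖ ^ 2 < 32 * K ^ 2 * a := by nlinarith
    have hN : (0 : ℝ) < G.N + 1 := by positivity
    nlinarith
  · have s0 := G.app_spec hφ' (G.ρ_re (G.E y) 0)
    have s1 := G.app_spec hφ' (G.ρ_re (G.E y) 1)
    have s2 := G.app_spec hκ (G.r2_re (G.E y))
    set c : ℝ := S.κ / 4 / Kη with hc
    have hc0 : 0 < c := by positivity
    set s : A := algebraMap ℂ A c * (B.app κ (G.r2 (G.E y)) *
      (B.app (deriv φ) (G.ρ (G.E y) 0) * B.app (deriv φ) (G.ρ (G.E y) 1))) with hs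
    have hev : ∀ p, B.ev s p = (c * (κ (B.ev (G.r2 (G.E y)) p).re *
        (deriv φ (B.ev (G.ρ (G.E y) 0) p).re * deriv φ (B.ev (G.ρ (G.E y) 1) p).re)) : ℝ) := by
      intro p
      simp only [hs, map_mul, ContinuousMap.mul_apply, s0.2.1, s1.2.1, s2.2.1,
        AlgHomClass.commutes, Complex.ofReal_mul]
      simp
    have hnn : ∀ p, 0 ≤ κ (B.ev (G.r2 (G.E y)) p).re *
        (deriv φ (B.ev (G.ρ (G.E y) 0) p).re * deriv φ (B.ev (G.ρ (G.E y) 1) p).re) := fun p =>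
      mul_nonneg (hκ2 _) (mul_nonneg_of_nonpos_of_nonpos (hφ1 _) (hφ1 _))
    refine ⟨s, B.re0_iff.2 ⟨?_, fun p => by rw [hev, Complex.ofReal_im]⟩, fun p => ?_, ?_,
      fun p => ?_⟩
    · exact B.mul_mem' (B.algebraMap_mem _) (B.mul_mem' s2.1.1
        (B.mul_mem' s0.1.1 s1.1.1 (add_zero _)) (add_zero _)) (add_zero _)
    · rw [hev, Complex.ofReal_re]
      exact mul_nonneg hc0.le (hnn p)
    · have e : ∀ j, (B.ev (G.ρ (G.E y) j) y).re = 0 := fun j => by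
        have := norm_cx_le (G.co y (G.E y - G.E y)) (![0, 2] j)
        have e0 : G.co y (G.E y - G.E y) = 0 := by
          rw [sub_self, ← zero_smul ℝ (0 : Fin G.N → ℝ), G.co_smul, zero_smul]
        rw [G.thomP_ev_ρ, e0, ← zero_smul ℝ (0 : Fin 4 → ℝ), cx_smul]
        simp
      rw [hev, Complex.ofReal_re, e, e, hr2]
      simp only [sub_self, Pi.zero_apply, ne_eq, OfNat.ofNat_ne_zero, not_false_eq_true, zero_pow,
        Finset.sum_const_zero]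
      exact mul_pos hc0 (mul_pos hκ1 (mul_pos_of_neg_of_neg hφ0 hφ0))
    · choose t ht1 ht2 using fun j => hφ3 (B.ev (G.ρ (G.E y) j) p).re
        (by rw [G.thomP_ev_ρ]; positivity)
      have key := fun q : Fin G.N × Fin G.N =>
        G.thomP_b2 hφ hκ (G.E y) p (V p 0) (V p 1) t ht2 q.1 q.2 (G.biv U y q.1 q.2)
      have e : ∑ k, ∑ l, (B.b2 (G.thom φ κ (G.E y) k l) p (V p 0) (V p 1)).re * G.biv U y k l =
          (∑ q : Fin G.N × Fin G.N,
            B.b2 (G.thom φ κ (G.E y) q.1 q.2) p (V p 0) (V p 1) * G.biv U y q.1 q.2).re := by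
        simp only [Fintype.sum_prod_type, Complex.re_sum, Complex.re_mul_ofReal]
      rw [e, Finset.sum_congr rfl fun q _ => key q, ← Finset.mul_sum, ← thomPR_sum,
        Complex.re_ofReal_mul, hev, Complex.ofReal_re]
      rcases (hnn p).eq_or_lt with h0 | h0
      · rw [← h0]
        simp
      have hd := hnear y p (hκ3 _ (left_ne_zero_of_mul h0.ne'))
      have hf : ‖fun j => (t j : ℂ) * B.b2 (G.F j) p (V p 0) (V p 1)‖ ≤ η := by
        refine (pi_norm_le_iff_of_nonneg hη.le).2 fun j => le_trans ?_ ha2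
        rw [norm_mul, Complex.norm_real]
        refine mul_le_mul (ht1 j) ((thomP_b2_le _ p (S.bdV p 0) (S.bdV p 1)).trans ?_)
          (norm_nonneg _) (sq_nonneg _)
        have := Finset.single_le_sum (f := fun j => 16 * ‖B.ev2 (G.F j)‖)
          (fun j _ => by positivity) (Finset.mem_univ j)
        linarith
      have hx' : ∀ i, ‖(fun a => G.dv (G.σ (G.E y) a) p (V p i)) - -cx (V p i)‖ ≤ η := fun i =>
        (hx _ p _ (S.bdV p i)).trans ((mul_le_mul_of_nonneg_left hd hK10.le).trans hδ3)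
      have hΘ' := hΘ U p (G.biv U y) (η / K2) (by positivity) fun k l => hbiv k l p y hd
      rw [mul_div_cancel₀ _ hK20.ne'] at hΘ'
      have hΨ : ‖fun a b => cx (U p 0) a * cx (U p 1) b - cx (U p 1) a * cx (U p 0) b‖ ≤ 2 := by
        refine (pi_norm_le_iff_of_nonneg (by norm_num)).2 fun a =>
          (pi_norm_le_iff_of_nonneg (by norm_num)).2 fun b => (norm_sub_le _ _).trans ?_
        have h := fun i a => (norm_cx_le (U p i) a).trans (S.bdU p i)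
        rw [norm_mul, norm_mul]
        have h1 := mul_le_one₀ (h 0 a) (norm_nonneg _) (h 1 b)
        have h2 := mul_le_one₀ (h 1 a) (norm_nonneg _) (h 0 b)
        linarith
      have h1 := hR _ _ _ _ _ _ _ (by rw [norm_neg]; exact thomP_cx_le (S.bdV p 0))
        (by rw [norm_neg]; exact thomP_cx_le (S.bdV p 1)) hΨ (hx' 0) (hx' 1) hf hΘ'
      have h2 := thomPR_main (Matrix.of ![U p 0, U p 1, V p 0, V p 1])
      have h3 := S.det_pos p
      change thomPR (-cx (V p 0)) (-cx (V p 1)) 0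
        (fun a b => cx (U p 0) a * cx (U p 1) b - cx (U p 1) a * cx (U p 0) b) = _ at h2
      rw [h2] at h1
      have h4 := (Complex.re_le_norm _).trans h1
      rw [Complex.sub_re, Complex.neg_re, Complex.div_ofNat_re, Complex.ofReal_re] at h4
      have h5 := (Complex.re_le_norm _).trans
        (thomP_b2_le (B := B) S.ηV p (S.bdV p 0) (S.bdV p 1))
      have h6 : c * (B.b2 S.ηV p (V p 0) (V p 1)).re ≤ S.κ / 4 := by
        rw [← div_mul_cancel₀ (S.κ / 4) hKη0.ne']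
        exact mul_le_mul_of_nonneg_left (by linarith) hc0.le
      rw [mul_comm c, mul_assoc, ← mul_neg]
      exact mul_le_mul_of_nonneg_left (by linarith) h0.le

end SW4
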